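import Pool.Agent.N748.HM.Stm
import Pool.Agent.N748.GC.Ts3
import Pool.Agent.N748.GC.Cor4

set_option autoImplicit false

/-! The weights in windows of length `δ^(-θ)` (helper901). -/

namespace Pool.Agent.N748.HM.AVG

open Finset Filter MeasureTheory MonoidAlgebra Topology Complex
open Pool.Agent.N748.GC

/-! ### the weights -/

lemma WP_cont (α : ℝ) (z Rs : ℕ) (y : ℝ) (J : ℕ) (δ : ℝ) : Continuous (WP α z Rs y J δ) :=
  WB_cont α z Rs (fun _ => y) (fun _ => J) 0 δ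

lemma WP_nonneg (α : ℝ) (z Rs : ℕ) (y : ℝ) (J : ℕ) (δ u : ℝ) : 0 ≤ WP α z Rs y J δ u :=
  WB_nonneg α z Rs (fun _ => y) (fun _ => J) 0 δ u

lemma G1_meas (A z Rs : ℕ) (y : ℝ) (J : ℕ) (δ : ℝ) : MeasurableSet {u : ℝ | G1 A z Rs y J δ u} := by
  have e1 : {u : ℝ | G1 A z Rs y J δ u} =
      (⋂ i ∈ Finset.range J, {u : ℝ | (A:ℝ) * ‖ec (1 / 2 + δ + u * I) (xc (IB z y i))‖ ≤ RB Rs i}) := by
    ext u
    simp only [Set.mem_ofPred_eq, Set.mem_iInter, Finset.mem_range]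
    rfl
  rw [e1]
  exact Finset.measurableSet_biInter _ fun i _ =>
    (isClosed_le (continuous_const.mul (ec_cont (xc_ne _ _ _) (1 / 2 + δ)).norm) continuous_const).measurableSet

lemma G2_meas (α B ε1 : ℝ) (z Rs : ℕ) (y : ℝ) (J : ℕ) (δ : ℝ) : MeasurableSet {u : ℝ | G2 α B ε1 z Rs y J δ u} := by
  have e1 : {u : ℝ | G2 α B ε1 z Rs y J δ u} =
      (⋂ j ∈ Finset.range J, {u : ℝ | (z:ℝ) ≤ be y j → δ * Real.log (be y j) ≤ 1 →
        ‖ec (1 / 2 + δ + u * I) (BP (fun _ => α) z y j J Rs)‖ ^ 2 ≤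
          B * Real.exp ((2 * α ^ 2 + ε1) * VB δ z y j J)}) := by
    ext u
    simp only [Set.mem_ofPred_eq, Set.mem_iInter, Finset.mem_range]
    rfl
  rw [e1]
  refine Finset.measurableSet_biInter _ fun j _ => ?_
  by_cases h1 : (z:ℝ) ≤ be y j
  · by_cases h2 : δ * Real.log (be y j) ≤ 1
    · simp only [h1, h2, forall_true_left]
      exact (isClosed_le ((ec_cont (BP_ne _ _ _ _ _ _) (1 / 2 + δ)).norm.pow 2) continuous_const).measurableSet
    · simp only [h1, h2, forall_true_left, false_implies, Set.ofPred_true, MeasurableSet.univ]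
  · simp only [h1, false_implies, Set.ofPred_true, MeasurableSet.univ]

lemma gP_meas (A : ℕ) (α B ε1 : ℝ) (z Rs : ℕ) (y : ℝ) (J : ℕ) (δ : ℝ) : Measurable (gP A α B ε1 z Rs y J δ) := by
  unfold gP
  exact Measurable.ite ((G1_meas A z Rs y J δ).inter (G2_meas α B ε1 z Rs y J δ)) measurable_const measurable_const

lemma gP0 (A : ℕ) (α B ε1 : ℝ) (z Rs : ℕ) (y : ℝ) (J : ℕ) (δ u : ℝ) : 0 ≤ gP A α B ε1 z Rs y J δ u := by
  unfold gP; split_ifs <;> norm_num

lemma gP1 (A : ℕ) (α B ε1 : ℝ) (z Rs : ℕ) (y : ℝ) (J : ℕ) (δ u : ℝ) : gP A α B ε1 z Rs y J δ u ≤ 1 := by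
  unfold gP; split_ifs <;> norm_num

lemma one_sub_gP (A : ℕ) (α B ε1 : ℝ) (z Rs : ℕ) (y : ℝ) (J : ℕ) (δ u : ℝ) [Decidable (G1 A z Rs y J δ u)]
    [Decidable (G1 A z Rs y J δ u ∧ ¬ G2 α B ε1 z Rs y J δ u)] :
    1 - gP A α B ε1 z Rs y J δ u = (if G1 A z Rs y J δ u then (0:ℝ) else 1) +
      (if G1 A z Rs y J δ u ∧ ¬ G2 α B ε1 z Rs y J δ u then 1 else 0) := by
  unfold gP
  by_cases h1 : G1 A z Rs y J δ u <;> by_cases h2 : G2 α B ε1 z Rs y J δ u <;> simp [h1, h2]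

/-! ### choices of the parameters -/

/-- admissible triples `(Rs, J, y)` -/
def Ad (c lamk : ℝ) (z R0 : ℕ) (X δ : ℝ) (q : ℕ × ℕ × ℝ) : Prop :=
  R0 ≤ q.1 ∧ SP c z q.1 q.2.2 q.2.1 X ∧ 0 < δ ∧ 1 / δ ≤ Real.log X ∧ lamk ≤ δ * Real.log q.2.2

open Classical in
/-- the weight for a choice of the parameters -/
noncomputable def WF (α c lamk : ℝ) (z R0 : ℕ) (f : ℝ → ℝ → ℕ × ℕ × ℝ) (X δ u : ℝ) : ℝ :=
  if Ad c lamk z R0 X δ (f X δ) then WP α z (f X δ).1 (f X δ).2.2 (f X δ).2.1 δ u else 1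

open Classical in
/-- the good points for a choice of the parameters -/
noncomputable def gF (A : ℕ) (α B ε1 c lamk : ℝ) (z R0 : ℕ) (f : ℝ → ℝ → ℕ × ℕ × ℝ) (X δ u : ℝ) : ℝ :=
  if Ad c lamk z R0 X δ (f X δ) then gP A α B ε1 z (f X δ).1 (f X δ).2.2 (f X δ).2.1 δ u else 1

open Classical in
/-- the correlation for a choice of the parameters -/
noncomputable def kF (α c lamk : ℝ) (z R0 : ℕ) (f : ℝ → ℝ → ℕ × ℕ × ℝ) (X δ h : ℝ) : ℝ :=
  if Ad c lamk z R0 X δ (f X δ) then KX α z (f X δ).2.2 (f X δ).2.1 δ h else 1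

section
variable {A : ℕ} {α B ε1 c lamk : ℝ} {z R0 : ℕ} {f : ℝ → ℝ → ℕ × ℕ × ℝ} {X δ : ℝ}

lemma WF_pos (h : Ad c lamk z R0 X δ (f X δ)) : WF α c lamk z R0 f X δ =
    WP α z (f X δ).1 (f X δ).2.2 (f X δ).2.1 δ := by
  funext u; unfold WF; rw [if_pos h]

lemma WF_neg (h : ¬ Ad c lamk z R0 X δ (f X δ)) : WF α c lamk z R0 f X δ = fun _ => 1 := by
  funext u; unfold WF; rw [if_neg h]

lemma gF_pos (h : Ad c lamk z R0 X δ (f X δ)) : gF A α B ε1 c lamk z R0 f X δ =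
    gP A α B ε1 z (f X δ).1 (f X δ).2.2 (f X δ).2.1 δ := by
  funext u; unfold gF; rw [if_pos h]

lemma gF_neg (h : ¬ Ad c lamk z R0 X δ (f X δ)) : gF A α B ε1 c lamk z R0 f X δ = fun _ => 1 := by
  funext u; unfold gF; rw [if_neg h]

lemma kF_pos (h : Ad c lamk z R0 X δ (f X δ)) : kF α c lamk z R0 f X δ =
    KX α z (f X δ).2.2 (f X δ).2.1 δ := by
  funext u; unfold kF; rw [if_pos h]

lemma kF_neg (h : ¬ Ad c lamk z R0 X δ (f X δ)) : kF α c lamk z R0 f X δ = fun _ => 1 := by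
  funext u; unfold kF; rw [if_neg h]

end

theorem ts_ex (hONE : S_ONE3) (hA : S_BADA3) (hB : S_BADB3) (hN : S_NEAR3) (hF : S_FAR3) (hK : S_KAP3) {α : ℝ}
    (h0 : 0 < α) {A : ℕ} (hαA : α ≤ A) {ε1 : ℝ} (hε : 0 < ε1) (hε1 : ε1 ≤ 1) {ζ : ℝ} (hζ : α ^ 2 + ε1 ≤ ζ)
    {c : ℝ} (hc : 0 ≤ c) {e : ℝ} (he : 0 < e) (b : ℝ) : ∃ B C : ℝ, 0 ≤ C ∧ ∃ z0 R0 : ℕ, ∀ z ≥ z0,
    ∃ δ1 lamk : ℝ, 0 < δ1 ∧ ∀ f : ℝ → ℝ → ℕ × ℕ × ℝ, ∀ δ0 : ℝ, δ0 ≤ δ1 → δ0 ≤ 1 / 16 →
      TS2 b C ζ e 1 δ0 z (WF α c lamk z R0 f) (gF A α B ε1 c lamk z R0 f) (kF α c lamk z R0 f) := by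
  classical
  obtain ⟨B, hB1, zB, RB', hBB⟩ := hB A α h0 hαA ε1 hε hε1 c hc (e / 2) (by linarith)
  obtain ⟨C, hC, zT, RT, hTT⟩ := hN A α h0 hαA ε1 hε hε1 c hc B hB1
  obtain ⟨zA, RA, hAA⟩ := hA A α h0 hαA c hc (e / 2) (by linarith)
  obtain ⟨zO, RO, hOO⟩ := hONE α h0 c hc e he
  obtain ⟨zF, RF, hFF⟩ := hF α h0 c hc e he
  obtain ⟨CK, hCK, zK, hKK⟩ := hK α h0
  obtain ⟨zL, hzL⟩ := logpow_small (b := 2 * b) (s := 1 / 4) (e := e) (C := CK) (by norm_num) he hCK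
  have hC1 : 1 ≤ max C 1 := le_max_right _ _
  have hζ0 : 0 < ζ := by nlinarith [sq_nonneg α]
  refine ⟨B, max C 1, by linarith, zB + zT + zA + zO + zF + zK + zL + 3, RB' + RT + RA + RO + RF, fun z hz => ?_⟩
  obtain ⟨δ1, hδ1, hTT⟩ := hTT z (by omega)
  obtain ⟨H0, lamk, hH0, hlamk, hKK⟩ := hKK z (by omega)
  have hzL' := hzL z (by omega)
  have hlogz : 0 < Real.log z := Real.log_pos (by exact_mod_cast (by omega : 1 < z))
  refine ⟨δ1, lamk, hδ1, fun f δ0 hδ0 hδ0' => ?_⟩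
  set R0 := RB' + RT + RA + RO + RF with hR0
  have hg0 : ∀ X δ u, 0 ≤ gF A α B ε1 c lamk z R0 f X δ u := by
    intro X δ u
    by_cases h : Ad c lamk z R0 X δ (f X δ)
    · rw [gF_pos h]; exact gP0 _ _ _ _ _ _ _ _ _ _
    · rw [gF_neg h]; norm_num
  have hg1 : ∀ X δ u, gF A α B ε1 c lamk z R0 f X δ u ≤ 1 := by
    intro X δ u
    by_cases h : Ad c lamk z R0 X δ (f X δ)
    · rw [gF_pos h]; exact gP1 _ _ _ _ _ _ _ _ _ _
    · rw [gF_neg h]
  refine { W0 := ?_, Wc := ?_, g0 := hg0, g1 := hg1, gm := ?_, k0 := ?_, kc := ?_, ke := ?_, kap := ?_,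
           zero := ts_zero z, one := ?_, bad := ?_, near := ?_, far := ?_ }
  · intro X δ u
    by_cases h : Ad c lamk z R0 X δ (f X δ)
    · rw [WF_pos h]; exact WP_nonneg _ _ _ _ _ _ _
    · rw [WF_neg h]; norm_num
  · intro X δ
    by_cases h : Ad c lamk z R0 X δ (f X δ)
    · rw [WF_pos h]; exact WP_cont _ _ _ _ _ _
    · rw [WF_neg h]; exact continuous_const
  · intro X δ
    by_cases h : Ad c lamk z R0 X δ (f X δ)
    · rw [gF_pos h]; exact gP_meas _ _ _ _ _ _ _ _ _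
    · rw [gF_neg h]; exact measurable_const
  · intro X δ u
    by_cases h : Ad c lamk z R0 X δ (f X δ)
    · rw [kF_pos h]; exact (Real.exp_pos _).le
    · rw [kF_neg h]; norm_num
  · intro X δ
    by_cases h : Ad c lamk z R0 X δ (f X δ)
    · rw [kF_pos h]; exact KX_cont _ _ _ _ _
    · rw [kF_neg h]; exact continuous_const
  · intro X δ u
    by_cases h : Ad c lamk z R0 X δ (f X δ)
    · rw [kF_pos h]; exact KX_even _ _ _ _ _ _
    · rw [kF_neg h]
  · refine ⟨H0, hH0, Eventually.of_forall fun X δ d1 d2 H hH => ?_⟩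
    have hH0' : 0 < H := by linarith
    by_cases h : Ad c lamk z R0 X δ (f X δ)
    · rw [kF_pos h]
      have h3 := hKK H hH δ h.2.2.1 (d2.trans hδ0') (f X δ).2.2 (f X δ).2.1 h.2.1.zy h.2.1.bJ h.2.2.2.2
      calc Real.log z ^ (2 * b) * ∫ h in (1:ℝ)..H, max (KX α z (f X δ).2.2 (f X δ).2.1 δ h - 1) 0 ≤
            Real.log z ^ (2 * b) * (CK * (z:ℝ) ^ (-(1 / 4 : ℝ)) * H) :=
            mul_le_mul_of_nonneg_left h3 (Real.rpow_nonneg hlogz.le _)
        _ = (Real.log z ^ (2 * b) * (CK * (z:ℝ) ^ (-(1 / 4 : ℝ)))) * H := by ring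
        _ ≤ e * H := mul_le_mul_of_nonneg_right hzL' hH0'.le
    · rw [kF_neg h]
      have e1 : ∫ h in (1:ℝ)..H, max ((1:ℝ) - 1) 0 = 0 := by simp
      rw [e1, mul_zero]
      positivity
  · intro K _ _ F hF hF0 η hη
    filter_upwards [hOO z (by omega) K F hF hF0 η hη, ts_zero z K F hF η hη, eventually_gt_atTop 0]
      with X g1 g2 hX δ d1 d2 k x
    by_cases h : Ad c lamk z R0 X δ (f X δ)
    · rw [WF_pos h]
      exact g1 _ _ _ (le_trans (by omega) h.1) h.2.1 δ h.2.2.1.le k x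
    · rw [WF_neg h]
      simp only [mul_one]
      refine (g2 k).trans (mul_le_mul_of_nonneg_left ?_ hX.le)
      have hint : 0 ≤ ∫ w, F (k, w) ∂(HP (Sm z)) := integral_nonneg fun w => hF0 _
      have := mul_nonneg he.le hint
      linarith
  · intro K _ _ F hF hF0 η hη
    filter_upwards [hAA z (by omega) K F hF hF0 (η / 2) (by linarith),
      hBB z (by omega) K F hF hF0 (η / 2) (by linarith), eventually_gt_atTop 0] with X g1 g2 hX δ d1 d2 k x
    by_cases h : Ad c lamk z R0 X δ (f X δ)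
    · rw [WF_pos h, gF_pos h]
      have g3 := g1 (f X δ).1 (f X δ).2.1 (f X δ).2.2 (le_trans (by omega) h.1) h.2.1 δ h.2.2.1.le k x
      have g4 := g2 (f X δ).1 (f X δ).2.1 (f X δ).2.2 (le_trans (by omega) h.1) h.2.1 δ h.2.2.1.le k x
      generalize (f X δ).1 = Rs at g3 g4 ⊢
      generalize (f X δ).2.1 = J at g3 g4 ⊢
      generalize (f X δ).2.2 = y at g3 g4 ⊢
      have hFk : Continuous fun t : ℝ => F (k, pt (Sm z) t) := hF.comp (Continuous.prodMk continuous_const (QC.pt_cont _))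
      have hWx : Continuous fun t : ℝ => WP α z Rs y J δ (t + x) := (WP_cont _ _ _ _ _ _).comp (by fun_prop)
      have hc1 : Continuous fun t : ℝ => F (k, pt (Sm z) t) * WP α z Rs y J δ (t + x) := hFk.mul hWx
      have hm1 : Measurable fun t : ℝ => (if G1 A z Rs y J δ (t + x) then (0:ℝ) else 1) :=
        Measurable.ite ((G1_meas A z Rs y J δ).preimage (measurable_add_const x)) measurable_const measurable_const
      have hm2 : Measurable fun t : ℝ =>
          (if G1 A z Rs y J δ (t + x) ∧ ¬ G2 α B ε1 z Rs y J δ (t + x) then (1:ℝ) else 0) := by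
        refine Measurable.ite ?_ measurable_const measurable_const
        have hms : MeasurableSet {u : ℝ | G1 A z Rs y J δ u ∧ ¬ G2 α B ε1 z Rs y J δ u} :=
          (G1_meas A z Rs y J δ).diff (G2_meas α B ε1 z Rs y J δ)
        exact hms.preimage (measurable_add_const x)
      have hi : ∀ m : ℝ → ℝ, Measurable m → (∀ t, |m t| ≤ 1) →
          IntervalIntegrable (fun t => F (k, pt (Sm z) t) * (WP α z Rs y J δ (t + x) * m t)) volume (Xl X) X := by
        intro m hm hm1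
        rw [intervalIntegrable_iff]
        have h2 := intervalIntegrable_iff.mp (hc1.intervalIntegrable (μ := volume) (Xl X) X)
        have h3 := h2.mul_bdd (c := 1) hm.aestronglyMeasurable
          (Eventually.of_forall fun t => by rw [Real.norm_eq_abs]; exact hm1 t)
        refine h3.congr (Eventually.of_forall fun t => ?_)
        show F (k, pt (Sm z) t) * WP α z Rs y J δ (t + x) * m t = F (k, pt (Sm z) t) * (WP α z Rs y J δ (t + x) * m t)
        ring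
      have hi1 := hi _ hm1 fun t => by split_ifs <;> norm_num
      have hi2 := hi _ hm2 fun t => by split_ifs <;> norm_num
      have e1 : (∫ t in Xl X..X, F (k, pt (Sm z) t) * (WP α z Rs y J δ (t + x) *
          (1 - gP A α B ε1 z Rs y J δ (t + x)))) =
          (∫ t in Xl X..X, F (k, pt (Sm z) t) * (WP α z Rs y J δ (t + x) *
            (if G1 A z Rs y J δ (t + x) then (0:ℝ) else 1))) +
          ∫ t in Xl X..X, F (k, pt (Sm z) t) * (WP α z Rs y J δ (t + x) *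
            (if G1 A z Rs y J δ (t + x) ∧ ¬ G2 α B ε1 z Rs y J δ (t + x) then (1:ℝ) else 0)) := by
        rw [← intervalIntegral.integral_add hi1 hi2]
        refine intervalIntegral.integral_congr fun t _ => ?_
        show F (k, pt (Sm z) t) * (WP α z Rs y J δ (t + x) * (1 - gP A α B ε1 z Rs y J δ (t + x))) = _
        rw [one_sub_gP]; ring
      rw [e1]
      have e2 : X * (e * (∫ y, F (k, y) ∂(HP (Sm z))) + η) = X * (e / 2 * (∫ y, F (k, y) ∂(HP (Sm z))) + η / 2) +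
          X * (e / 2 * (∫ y, F (k, y) ∂(HP (Sm z))) + η / 2) := by ring
      rw [e2]
      exact add_le_add g3 g4
    · rw [WF_neg h, gF_neg h]
      have hint : 0 ≤ ∫ w, F (k, w) ∂(HP (Sm z)) := integral_nonneg fun w => hF0 _
      simp only [sub_self, mul_zero, intervalIntegral.integral_zero]
      positivity
  · intro K _ _ F hF hF0 η hη
    filter_upwards [hTT K F hF hF0 η hη, ts_zero z K F hF η hη, eventually_gt_atTop 1]
      with X g1 g2 hX1 δ d1 d2 k x y hxy hxy1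
    have hL0 : 0 < Real.log X := Real.log_pos hX1
    have hX0 : 0 < X := by linarith
    have hδ : 0 < δ := lt_of_lt_of_le (div_pos one_pos hL0) d1
    have hint : 0 ≤ ∫ w, F (k, w) ∂(HP (Sm z)) := integral_nonneg fun w => hF0 _
    have hbase : 0 < max |x - y| δ := lt_max_of_lt_right hδ
    have hbase1 : max |x - y| δ ≤ 1 := max_le hxy1 (by linarith)
    by_cases h : Ad c lamk z R0 X δ (f X δ)
    · rw [WF_pos h, gF_pos h]
      refine (g1 _ _ _ (le_trans (by omega) h.1) h.2.1 δ hδ (d2.trans hδ0) h.2.2.2.1 k x y hxy hxy1).trans ?_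
      refine mul_le_mul_of_nonneg_left ?_ hX0.le
      refine mul_le_mul_of_nonneg_left ?_ (by linarith)
      refine mul_le_mul (le_max_left _ _) ?_ (Real.rpow_nonneg hbase.le _) (by linarith)
      exact Real.rpow_le_rpow_of_exponent_ge hbase hbase1 (by linarith)
    · rw [WF_neg h, gF_neg h]
      simp only [mul_one]
      have h3 := (abs_le.mp (g2 k)).2
      have h4 : (∫ t in Xl X..X, F (k, pt (Sm z) t)) ≤ X * ((∫ w, F (k, w) ∂(HP (Sm z))) + η) := by linarith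
      refine h4.trans (mul_le_mul_of_nonneg_left ?_ hX0.le)
      have h5 : 1 ≤ (max |x - y| δ) ^ (-ζ) :=
        Real.one_le_rpow_of_pos_of_le_one_of_nonpos hbase hbase1 (by linarith)
      have h6 : 1 ≤ max C 1 * (max |x - y| δ) ^ (-ζ) := by nlinarith
      exact le_mul_of_one_le_right (by linarith) h6
  · intro K _ _ F hF hF0 η hη
    filter_upwards [hFF z (by omega) K F hF hF0 η hη, ts_zero z K F hF η hη, Xl_small (η := 1) one_pos]
      with X g1 g2 hXs δ d1 d2 k x y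
    have hXl : Xl X ≤ X := by linarith [hXs.2.1]
    have hX0 : 0 < X := by linarith [hXs.2.2]
    have hint : 0 ≤ ∫ w, F (k, w) ∂(HP (Sm z)) := integral_nonneg fun w => hF0 _
    by_cases h : Ad c lamk z R0 X δ (f X δ)
    · rw [WF_pos h, gF_pos h, kF_pos h]
      refine le_trans ?_ (g1 _ _ _ (le_trans (by omega) h.1) h.2.1 δ h.2.2.1.le k x y)
      generalize (f X δ).1 = Rs
      generalize (f X δ).2.1 = J
      generalize (f X δ).2.2 = y'
      have hFk : Continuous fun t : ℝ => F (k, pt (Sm z) t) := hF.comp (Continuous.prodMk continuous_const (QC.pt_cont _))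
      have hWx : Continuous fun t : ℝ => WP α z Rs y' J δ (t + x) := (WP_cont _ _ _ _ _ _).comp (by fun_prop)
      have hWy : Continuous fun t : ℝ => WP α z Rs y' J δ (t + y) := (WP_cont _ _ _ _ _ _).comp (by fun_prop)
      have hc1 : Continuous fun t : ℝ => F (k, pt (Sm z) t) * (WP α z Rs y' J δ (t + x) * WP α z Rs y' J δ (t + y)) :=
        hFk.mul (hWx.mul hWy)
      have hq0 : ∀ t, 0 ≤ gP A α B ε1 z Rs y' J δ t := fun t => gP0 _ _ _ _ _ _ _ _ _ _
      have hq1 : ∀ t, gP A α B ε1 z Rs y' J δ t ≤ 1 := fun t => gP1 _ _ _ _ _ _ _ _ _ _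
      refine intervalIntegral.integral_mono_on_of_le_Ioo hXl ?_ (hc1.intervalIntegrable _ _) fun t _ => ?_
      · rw [intervalIntegrable_iff]
        have h2 := intervalIntegrable_iff.mp (hc1.intervalIntegrable (μ := volume) (Xl X) X)
        have hm : Measurable fun t : ℝ => gP A α B ε1 z Rs y' J δ (t + x) * gP A α B ε1 z Rs y' J δ (t + y) :=
          ((gP_meas _ _ _ _ _ _ _ _ _).comp (measurable_add_const x)).mul
            ((gP_meas _ _ _ _ _ _ _ _ _).comp (measurable_add_const y))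
        have h3 := h2.mul_bdd (c := 1) hm.aestronglyMeasurable
          (Eventually.of_forall fun t => by
            rw [Real.norm_of_nonneg (mul_nonneg (hq0 _) (hq0 _))]
            exact mul_le_one₀ (hq1 _) (hq0 _) (hq1 _))
        refine h3.congr (Eventually.of_forall fun t => ?_)
        show F (k, pt (Sm z) t) * (WP α z Rs y' J δ (t + x) * WP α z Rs y' J δ (t + y)) *
          (gP A α B ε1 z Rs y' J δ (t + x) * gP A α B ε1 z Rs y' J δ (t + y)) = _
        ring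
      · refine mul_le_mul_of_nonneg_left ?_ (hF0 _)
        exact mul_le_mul (mul_le_of_le_one_right (WP_nonneg _ _ _ _ _ _ _) (hq1 _))
          (mul_le_of_le_one_right (WP_nonneg _ _ _ _ _ _ _) (hq1 _))
          (mul_nonneg (WP_nonneg _ _ _ _ _ _ _) (hq0 _)) (WP_nonneg _ _ _ _ _ _ _)
    · rw [WF_neg h, gF_neg h, kF_neg h]
      simp only [mul_one]
      have h3 := (abs_le.mp (g2 k)).2
      have h4 : (∫ t in Xl X..X, F (k, pt (Sm z) t)) ≤ X * ((∫ w, F (k, w) ∂(HP (Sm z))) + η) := by linarith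
      refine h4.trans (mul_le_mul_of_nonneg_left ?_ hX0.le)
      nlinarith

theorem main (hONE : S_ONE3) (hA : S_BADA3) (hB : S_BADB3) (hN : S_NEAR3) (hF : S_FAR3) (hK : S_KAP3)
    (hCUT : S_CUT3) (hASM : S_ASM2) : S_AVG := by
  classical
  intro α h0 c hc θ hθ hθ1 ε hε
  obtain ⟨C0, hC0, hASM⟩ := hASM
  obtain ⟨s, hs⟩ : ∃ s : ℝ, s = min (ε / (2 * C0 + 2)) 1 := ⟨_, rfl⟩
  have hs0 : 0 < s := by rw [hs]; exact lt_min (by positivity) one_pos
  have hs1 : s ≤ 1 := by rw [hs]; exact min_le_right _ _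
  have hsε : (2 * C0 + 2) * s ≤ ε := by
    have : s ≤ ε / (2 * C0 + 2) := by rw [hs]; exact min_le_left _ _
    rwa [le_div_iff₀ (by positivity), mul_comm] at this
  obtain ⟨e, he⟩ : ∃ e : ℝ, e = s ^ 2 := ⟨_, rfl⟩
  have he0 : 0 < e := by rw [he]; positivity
  have he1 : e ≤ 1 := by rw [he]; nlinarith
  have hsq : Real.sqrt e = s := by rw [he]; exact Real.sqrt_sq hs0.le
  obtain ⟨b, hb⟩ : ∃ b : ℝ, b = α ^ 2 + 1 := ⟨_, rfl⟩
  have hb0 : 0 < b := by rw [hb]; positivity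
  -- the exponents
  have hgap : 0 < θ - max 0 (α ^ 2 - 1) := by
    rcases le_total 0 (α ^ 2 - 1) with h | h
    · rw [max_eq_right h]; linarith
    · rw [max_eq_left h]; linarith
  obtain ⟨ε1, hε1⟩ : ∃ ε1 : ℝ, ε1 = min 1 ((θ - max 0 (α ^ 2 - 1)) / 2) := ⟨_, rfl⟩
  have hε10 : 0 < ε1 := by rw [hε1]; exact lt_min one_pos (by linarith)
  have hε11 : ε1 ≤ 1 := by rw [hε1]; exact min_le_left _ _
  have hε12 : ε1 < θ - max 0 (α ^ 2 - 1) := by
    rw [hε1]; exact lt_of_le_of_lt (min_le_right _ _) (by linarith)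
  obtain ⟨ζ, hζ⟩ : ∃ ζ : ℝ, ζ = 1 + max 0 (α ^ 2 - 1) + ε1 := ⟨_, rfl⟩
  have hζ1 : 1 < ζ := by rw [hζ]; have := le_max_left 0 (α ^ 2 - 1); linarith
  have hζ2 : ζ - 1 < θ := by rw [hζ]; linarith
  have hζ3 : α ^ 2 + ε1 ≤ ζ := by rw [hζ]; have := le_max_right 0 (α ^ 2 - 1); linarith
  obtain ⟨B, C, hC, zT, R0, hTS⟩ := ts_ex hONE hA hB hN hF hK h0 (A := ⌈α⌉₊) (Nat.le_ceil α) hε10 hε11 hζ3 hc he0 b
  obtain ⟨zC, hCUT⟩ := hCUT α h0 b (by rw [hb]; linarith) s hs0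
  refine ⟨zT + zC + 3, fun z hz => ?_⟩
  obtain ⟨δ1, lamk, hδ1, hTS⟩ := hTS z (by omega)
  have hCUT' := hCUT z (by omega)
  obtain ⟨H0, hH0, hERG⟩ := ERG.main (Sm z) (QC.Sm_prime z) (M0 α (Sm z)) (QC.M0_cont α (QC.Sm_prime z)) s hs0
  obtain ⟨δ6, hδ6, hlong⟩ := win_long hθ H0
  obtain ⟨δ7, hδ7⟩ : ∃ δ7 : ℝ, δ7 = min (min δ1 δ6) (1 / 16) := ⟨_, rfl⟩
  have d71 : δ7 ≤ δ1 := by rw [hδ7]; exact (min_le_left _ _).trans (min_le_left _ _)
  have d76 : δ7 ≤ δ6 := by rw [hδ7]; exact (min_le_left _ _).trans (min_le_right _ _)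
  have d716 : δ7 ≤ 1 / 16 := by rw [hδ7]; exact min_le_right _ _
  have d70 : 0 < δ7 := by rw [hδ7]; exact lt_min (lt_min hδ1 hδ6) (by norm_num)
  -- the worst parameters
  let Bad : ℝ → ℝ → ℕ × ℕ × ℝ → Prop := fun X δ q => Ad c lamk z R0 X δ q ∧
    ¬ (∫ t in Xl X..X, |δ ^ θ * (∫ u in (0:ℝ)..(δ ^ (-θ)), mz α z (t + u) * WP α z q.1 q.2.2 q.2.1 δ (t + u)) - 1| ≤
      ε * X)
  let f : ℝ → ℝ → ℕ × ℕ × ℝ := fun X δ => if h : ∃ q, Bad X δ q then h.choose else (0, 0, 0)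
  have hf : ∀ X δ, (∃ q, Bad X δ q) → Bad X δ (f X δ) := by
    intro X δ h
    show Bad X δ (if h : ∃ q, Bad X δ q then h.choose else (0, 0, 0))
    rw [dif_pos h]
    exact h.choose_spec
  obtain ⟨δ8, hδ8, hδ87, hASM⟩ := hASM α b C ζ e 1 δ7 θ z _ _ _ h0 hb0 (by omega) hC hζ1 hζ2 he0 he1 le_rfl d70
    (d716.trans (by norm_num)) (hTS f δ7 d71 d716) s hs0
  refine ⟨R0, lamk, δ8, hδ8, hδ87.trans d716, ?_⟩
  filter_upwards [hASM, eventually_ge_atTop 256] with X g1 hX δ hδ hδ8' hδX Rs J y hRs hSP hlam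
  by_contra hcon
  have hbad : Bad X δ (f X δ) := hf X δ ⟨(Rs, J, y), ⟨hRs, hSP, hδ, hδX, hlam⟩, hcon⟩
  obtain ⟨had, hviol⟩ := hbad
  apply hviol
  have hX0 : 0 < X := by linarith
  have hL0 : 0 < Real.log X := Real.log_pos (by linarith)
  have hXl := ASM.Xl_le hX
  have hXl0 : 0 ≤ Xl X := by unfold Xl; positivity
  have hd1 : 1 / Real.log X ≤ δ := by
    rw [div_le_iff₀ hL0]
    rw [div_le_iff₀ hδ] at hδX
    linarith
  have g2 := g1 δ hd1 hδ8'
  rw [WF_pos had, hsq] at g2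
  generalize (f X δ).1 = Rs' at g2 ⊢
  generalize (f X δ).2.1 = J' at g2 ⊢
  generalize (f X δ).2.2 = y' at g2 ⊢
  -- the window
  obtain ⟨Hw, hHw⟩ : ∃ Hw : ℝ, Hw = δ ^ (-θ) := ⟨_, rfl⟩
  obtain ⟨k, hk⟩ : ∃ k : ℝ, k = δ ^ θ := ⟨_, rfl⟩
  have hkH : k * Hw = 1 := by rw [hk, hHw, ← Real.rpow_add hδ]; simp
  have hHwH0 : H0 ≤ Hw := by rw [hHw]; exact hlong δ hδ ((hδ8'.trans hδ87).trans d76)
  have hHwp : 0 < Hw := by linarith
  have hkp : 0 < k := by rw [hk]; exact Real.rpow_pos_of_pos hδ _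
  rw [← hHw, ← hk] at g2 ⊢
  have hWc := WP_cont α z Rs' y' J' δ
  have hmc := QC.mz_cont α z
  set W : ℝ → ℝ := WP α z Rs' y' J' δ with hW
  have hg3 : Continuous fun u => mz α z u * (W u - 1) := hmc.mul (hWc.sub continuous_const)
  have hg4 : Continuous fun u => mz α z u * W u := hmc.mul hWc
  have r4 : ∀ t : ℝ, |k * ∫ x in (0:ℝ)..Hw, (mz α z (t + x) - 1)| ≤ s := by
    intro t
    have h7 := hERG Hw hHwH0 t
    rw [QC.M0_int α (QC.Sm_prime z)] at h7
    have hc : Continuous fun x : ℝ => mz α z (t + x) := hmc.comp (by fun_prop)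
    rw [intervalIntegral.integral_sub (hc.intervalIntegrable _ _) intervalIntegrable_const,
      intervalIntegral.integral_const, smul_eq_mul, sub_zero, mul_one, mul_sub, hkH]
    have h8 : ∫ x in (0:ℝ)..Hw, mz α z (t + x) = ∫ u in t..(t + Hw), M0 α (Sm z) (pt (Sm z) u) := by
      have := intervalIntegral.integral_comp_add_left (a := 0) (b := Hw) (fun u => mz α z u) t
      rw [add_zero] at this
      exact this
    rw [h8]
    have h9 : k = 1 / Hw := by field_simp; exact hkH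
    rw [h9, one_div, ← div_eq_inv_mul]
    exact h7
  have hle : ∀ t : ℝ, |k * (∫ x in (0:ℝ)..Hw, mz α z (t + x) * W (t + x)) - 1| ≤
      |k * ∫ x in (0:ℝ)..Hw, mz α z (t + x) * (W (t + x) - 1)| + s := by
    intro t
    have hii : ∀ g : ℝ → ℝ, Continuous g → IntervalIntegrable (fun x => g (t + x)) volume 0 Hw := by
      intro g hg
      have hgt : Continuous fun x => g (t + x) := hg.comp (by fun_prop)
      exact hgt.intervalIntegrable _ _
    have i1 := hii _ hg3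
    have i2 : IntervalIntegrable (fun x => mz α z (t + x) - 1) volume 0 Hw :=
      hii (fun u => mz α z u - 1) (hmc.sub continuous_const)
    have i3 := hii _ hg4
    have i4 := hii _ (continuous_const (y := (1:ℝ)))
    have e0 : k * (∫ x in (0:ℝ)..Hw, mz α z (t + x) * W (t + x)) - 1 =
        k * ∫ x in (0:ℝ)..Hw, (mz α z (t + x) * W (t + x) - 1) := by
      rw [intervalIntegral.integral_sub i3 i4, intervalIntegral.integral_const, smul_eq_mul, sub_zero, mul_one,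
        mul_sub, hkH]
    have e1 : ∫ x in (0:ℝ)..Hw, (mz α z (t + x) * W (t + x) - 1) =
        (∫ x in (0:ℝ)..Hw, mz α z (t + x) * (W (t + x) - 1)) + ∫ x in (0:ℝ)..Hw, (mz α z (t + x) - 1) := by
      rw [← intervalIntegral.integral_add i1 i2]
      refine intervalIntegral.integral_congr fun x _ => ?_
      show mz α z (t + x) * W (t + x) - 1 = mz α z (t + x) * (W (t + x) - 1) + (mz α z (t + x) - 1)
      ring
    rw [e0, e1, mul_add]
    exact (abs_add_le _ _).trans (add_le_add le_rfl (r4 t))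
  have k1 : Continuous fun t : ℝ => |k * ∫ x in (0:ℝ)..Hw, mz α z (t + x) * (W (t + x) - 1)| :=
    (hwin_cont hg3 k Hw).abs
  have k2 : Continuous fun t : ℝ => |k * (∫ x in (0:ℝ)..Hw, mz α z (t + x) * W (t + x)) - 1| :=
    ((hwin_cont hg4 k Hw).sub continuous_const).abs
  calc ∫ t in Xl X..X, |k * (∫ u in (0:ℝ)..Hw, mz α z (t + u) * W (t + u)) - 1| ≤
        ∫ t in Xl X..X, (|k * ∫ x in (0:ℝ)..Hw, mz α z (t + x) * (W (t + x) - 1)| + s) :=
        intervalIntegral.integral_mono_on hXl (k2.intervalIntegrable _ _)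
          ((k1.add continuous_const).intervalIntegrable _ _) fun t _ => hle t
    _ = (∫ t in Xl X..X, |k * ∫ x in (0:ℝ)..Hw, mz α z (t + x) * (W (t + x) - 1)|) + (X - Xl X) * s := by
        rw [intervalIntegral.integral_add (k1.intervalIntegrable _ _) intervalIntegrable_const,
          intervalIntegral.integral_const, smul_eq_mul]
    _ ≤ X * (C0 * (s + ∫ x, (M0 α (Sm z) x - Mc α b z x) ∂(HP (Sm z))) + s) + X * s := by
        refine add_le_add g2 ?_
        exact mul_le_mul_of_nonneg_right (by linarith) hs0.le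
    _ ≤ X * (C0 * (s + s) + s) + X * s := by
        have h8 : C0 * (s + ∫ x, (M0 α (Sm z) x - Mc α b z x) ∂(HP (Sm z))) ≤ C0 * (s + s) :=
          mul_le_mul_of_nonneg_left (by linarith) hC0.le
        have h9 := mul_le_mul_of_nonneg_left h8 hX0.le
        linarith
    _ = (2 * C0 + 2) * s * X := by ring
    _ ≤ ε * X := mul_le_mul_of_nonneg_right hsε hX0.le

end Pool.Agent.N748.HM.AVG
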