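import Pool.Agent.N748.HM.WTR

set_option autoImplicit false

/-! From the uniform form to limits. -/

namespace Pool.Agent.N748.HM

open Finset Filter MeasureTheory Topology Complex
open Pool.Agent.N748.GC
open Pool.Agent.H306R2 (aF aF_pos)

/-- admissible distances to the critical line -/
structure Ad (d : ℝ → ℝ) : Prop where
  pos : ∀ᶠ T : ℝ in atTop, 0 < d T
  t0 : Tendsto d atTop (𝓝 0)
  tL : Tendsto (fun T : ℝ => d T * Real.log T / Real.log (1 / d T) ^ 2) atTop atTop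

lemma Ev.app {P : ℝ → ℝ → Prop} (h : Ev P) {d : ℝ → ℝ} (hd : Ad d) : ∀ᶠ T : ℝ in atTop, P T (d T) := by
  obtain ⟨lam, δ0, h1, h2, h3, h4⟩ := h
  filter_upwards [h4, hd.pos, hd.t0.eventually_le_const h2, hd.tL.eventually_ge_atTop lam] with T g1 g2 g3 g4
  refine g1 (d T) g2 g3 ?_
  have hl : 1 ≤ Real.log (1 / d T) := log_inv_ge g2 (g3.trans h3)
  have : 0 < Real.log (1 / d T) ^ 2 := by positivity
  rwa [le_div_iff₀ this] at g4

/-- limits of normalised quantities -/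
lemma lim_of {f : ℝ → ℝ → ℝ} {c : ℝ} (h : ∀ ε : ℝ, 0 < ε → Ev fun X δ => |f X δ - c * X| ≤ ε * X) {d : ℝ → ℝ}
    (hd : Ad d) : Tendsto (fun T : ℝ => (1 / T) * f T (d T)) atTop (𝓝 c) := by
  rw [Metric.tendsto_nhds]
  intro ε hε
  filter_upwards [(h (ε / 2) (by positivity)).app hd, eventually_gt_atTop 0] with T h1 h2
  rw [Real.dist_eq, show (1 / T) * f T (d T) - c = (f T (d T) - c * T) / T by field_simp, abs_div,
    abs_of_pos h2, div_lt_iff₀ h2]
  nlinarith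

/-- sets of small relative measure -/
lemma meas_of {S : ℝ → ℝ → Set ℝ} (h : ∀ ε : ℝ, 0 < ε → Ev fun X δ => volume (S X δ) ≤ ENNReal.ofReal (ε * X))
    {d : ℝ → ℝ} (hd : Ad d) : Tendsto (fun T : ℝ => (1 / T) * (volume (S T (d T))).toReal) atTop (𝓝 0) := by
  refine lim_of (f := fun X δ => (volume (S X δ)).toReal) (fun ε hε => (h ε hε).mono ?_) hd
  intro X δ hX _ _ h1
  have h2 : (volume (S X δ)).toReal ≤ ε * X := ENNReal.toReal_le_of_le_ofReal (by positivity) h1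
  rw [zero_mul, sub_zero, abs_of_nonneg ENNReal.toReal_nonneg]
  exact h2

/-- the exponent of the measure of the set of large values -/
lemma ldp_of (h : S_LDP) {V : ℝ} (hV : 0 < V) {d : ℝ → ℝ} (hd : Ad d) :
    Tendsto (fun T : ℝ => Real.log ((1 / T) * (volume {t : ℝ | 0 ≤ t ∧ t ≤ T ∧
      d T ^ (-V) < ‖riemannZeta (1 / 2 + d T + t * I)‖}).toReal) / Real.log (d T)) atTop (𝓝 (V ^ 2)) := by
  rw [Metric.tendsto_nhds]
  intro ε hε
  have ev : Ev _ := h V hV (ε / 2) (by positivity)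
  filter_upwards [ev.app hd, eventually_ge_atTop 1, hd.pos, hd.t0.eventually_le_const (show (0:ℝ) < 1 / 16 by norm_num)]
    with T h1 hT hd0 hd1
  obtain ⟨m, hm⟩ : ∃ m, m = volume {t : ℝ | 0 ≤ t ∧ t ≤ T ∧
      d T ^ (-V) < ‖riemannZeta (1 / 2 + d T + t * I)‖} := ⟨_, rfl⟩
  rw [← hm] at h1 ⊢
  have hT0 : 0 < T := by linarith
  have hfin : m ≠ ⊤ := ne_top_of_le_ne_top ENNReal.ofReal_ne_top h1.2
  have a1 : d T ^ (V ^ 2 + ε / 2) * T ≤ m.toReal := by
    have := ENNReal.toReal_mono hfin h1.1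
    rwa [ENNReal.toReal_ofReal (by positivity)] at this
  have a2 : m.toReal ≤ d T ^ (V ^ 2 - ε / 2) * T := ENNReal.toReal_le_of_le_ofReal (by positivity) h1.2
  have p1 : 0 < d T ^ (V ^ 2 + ε / 2) := Real.rpow_pos_of_pos hd0 _
  have p2 : 0 < d T ^ (V ^ 2 - ε / 2) := Real.rpow_pos_of_pos hd0 _
  have b1 : d T ^ (V ^ 2 + ε / 2) ≤ 1 / T * m.toReal := by
    rw [one_div, le_inv_mul_iff₀ hT0]; linarith
  have b2 : 1 / T * m.toReal ≤ d T ^ (V ^ 2 - ε / 2) := by
    rw [one_div, inv_mul_le_iff₀ hT0]; linarith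
  have hl : Real.log (d T) < 0 := Real.log_neg hd0 (by linarith)
  have c1 := Real.log_le_log p1 b1
  have c2 := Real.log_le_log (p1.trans_le b1) b2
  rw [Real.log_rpow hd0] at c1 c2
  rw [Real.dist_eq, abs_lt]
  constructor
  · have : V ^ 2 - ε / 2 ≤ Real.log (1 / T * m.toReal) / Real.log (d T) := by
      rw [le_div_iff_of_neg hl]; exact c2
    linarith
  · have : Real.log (1 / T * m.toReal) / Real.log (d T) ≤ V ^ 2 + ε / 2 := by
      rw [div_le_iff_of_neg hl]; exact c1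
    linarith

end Pool.Agent.N748.HM
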