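import Pool.Agent.N748.HM.App

set_option autoImplicit false

/-! Truncated moments: limits. -/

namespace Pool.Agent.N748.HM

open Finset Filter MeasureTheory Topology Complex
open Pool.Agent.N748.GC
open Pool.Agent.H306R2 (aF aF_pos)

/-- the truncated moment -/
noncomputable abbrev MT (k V d T : ℝ) : ℝ :=
  (1 / T) * ∫ t in {t : ℝ | t ∈ Set.Icc 0 T ∧ ‖riemannZeta (1 / 2 + d + t * I)‖ ≤ d ^ (-V)},
    ‖riemannZeta (1 / 2 + d + t * I)‖ ^ (2 * k)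

lemma MT_eq {k V d T : ℝ} (hd : 0 < d) (hk : 0 < k) : MT k V d T / (aa k * (2 * d) ^ (-(k ^ 2))) =
    (1 / T) * ∫ u in {u : ℝ | u ∈ Set.Icc 0 T ∧ ‖riemannZeta (1 / 2 + d + u * I)‖ ≤ d ^ (-V)}, Zn k d u := by
  have haF : 0 < aa k := by rw [aa_eq]; exact aF_pos hk
  unfold Zn MT
  rw [integral_const_mul]
  generalize (∫ t in {t : ℝ | t ∈ Set.Icc 0 T ∧ ‖riemannZeta (1 / 2 + d + t * I)‖ ≤ d ^ (-V)},
    ‖riemannZeta (1 / 2 + d + t * I)‖ ^ (2 * k)) = J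
  rw [Real.rpow_neg (by positivity)]
  have : 0 < (2 * d) ^ (k ^ 2) := by positivity
  field_simp

theorem mt_lim (h : S_TRN) {k V : ℝ} (hk : 0 < k) (hV : k < V) {d : ℝ → ℝ} (hd : Ad d) :
    Tendsto (fun T : ℝ => MT k V (d T) T / (aa k * (2 * d T) ^ (-(k ^ 2)))) atTop (𝓝 1) := by
  have h1 : Tendsto (fun T : ℝ => (1 / T) * ∫ u in {u : ℝ | u ∈ Set.Icc 0 T ∧
      ‖riemannZeta (1 / 2 + d T + u * I)‖ ≤ d T ^ (-V)}, Zn k (d T) u) atTop (𝓝 1) := by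
    refine lim_of (f := fun X δ => ∫ u in {u : ℝ | u ∈ Set.Icc 0 X ∧
      ‖riemannZeta (1 / 2 + δ + u * I)‖ ≤ δ ^ (-V)}, Zn k δ u) (fun ε hε => ?_) hd
    simp only [one_mul]
    exact h k hk V hV ε hε
  refine h1.congr' ?_
  filter_upwards [hd.pos] with T hT
  exact (MT_eq hT hk).symm

theorem mt_lim0 (h : S_TRN0) {k V : ℝ} (hk : 0 < k) (hV : V < k) {d : ℝ → ℝ} (hd : Ad d) :
    Tendsto (fun T : ℝ => MT k V (d T) T / (aa k * (2 * d T) ^ (-(k ^ 2)))) atTop (𝓝 0) := by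
  have h1 : Tendsto (fun T : ℝ => (1 / T) * ∫ u in {u : ℝ | u ∈ Set.Icc 0 T ∧
      ‖riemannZeta (1 / 2 + d T + u * I)‖ ≤ d T ^ (-V)}, Zn k (d T) u) atTop (𝓝 0) := by
    refine lim_of (f := fun X δ => ∫ u in {u : ℝ | u ∈ Set.Icc 0 X ∧
      ‖riemannZeta (1 / 2 + δ + u * I)‖ ≤ δ ^ (-V)}, Zn k δ u) (fun ε hε => ?_) hd
    have ev : Ev _ := h k hk V hV ε hε
    refine ev.mono ?_
    intro X δ hX hδ _ h1
    rw [zero_mul, sub_zero, abs_of_nonneg (integral_nonneg fun u => Zn_nonneg hk hδ.le u)]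
    exact h1
  refine h1.congr' ?_
  filter_upwards [hd.pos] with T hT
  exact (MT_eq hT hk).symm

end Pool.Agent.N748.HM
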