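import Pool.Agent.N748.HM.App

set_option autoImplicit false

/-! Windows: limits. -/

namespace Pool.Agent.N748.HM

open Finset Filter MeasureTheory Topology Complex
open Pool.Agent.N748.GC
open Pool.Agent.H306R2 (aF aF_pos)

/-- `Ev` with conditions on the length of the windows -/
lemma Ev.appH {P : ℝ → ℝ → ℝ → Prop} {C : ℝ → ℝ → ℝ → Prop} (h : Ev fun X δ => ∀ H : ℝ, C X δ H → P X δ H)
    {d : ℝ → ℝ} (hd : Ad d) {H : ℝ → ℝ} (hH : ∀ᶠ T : ℝ in atTop, C T (d T) (H T)) :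
    ∀ᶠ T : ℝ in atTop, P T (d T) (H T) := by
  filter_upwards [h.app hd, hH] with T h1 h2
  exact h1 (H T) h2

/-- the mean deviation of the truncated window means tends to zero -/
theorem win_lim (h : S_WTR) {α V θ : ℝ} (hα : 0 < α) (hV : α < V) (hθ : 0 < θ) (hθ1 : α ^ 2 - 1 < θ) {d : ℝ → ℝ}
    (hd : Ad d) {H : ℝ → ℝ} (hH : ∀ᶠ T : ℝ in atTop, d T ^ (-θ) ≤ H T ∧ H T ≤ T) :
    Tendsto (fun T : ℝ => (1 / T) * ∫ t in (0:ℝ)..T, |(1 / H T) * (∫ u in t..(t + H T), Zt α V (d T) u) - 1|)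
      atTop (𝓝 0) := by
  rw [Metric.tendsto_nhds]
  intro ε hε
  have ev : Ev fun X δ => ∀ H : ℝ, (δ ^ (-θ) ≤ H ∧ H ≤ X) →
      ∫ t in (0:ℝ)..X, |(1 / H) * (∫ u in t..(t + H), Zt α V δ u) - 1| ≤ ε / 2 * X :=
    (h α hα V hV θ hθ hθ1 (ε / 2) (by positivity)).mono fun X δ _ _ _ g H hH => g H hH.1 hH.2
  filter_upwards [ev.appH hd hH, eventually_gt_atTop 0] with T h1 h2
  have h3 : 0 ≤ ∫ t in (0:ℝ)..T, |(1 / H T) * (∫ u in t..(t + H T), Zt α V (d T) u) - 1| :=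
    intervalIntegral.integral_nonneg h2.le fun _ _ => abs_nonneg _
  rw [Real.dist_eq, sub_zero, abs_of_nonneg (by positivity), one_div, inv_mul_lt_iff₀ h2]
  nlinarith

/-- the mean deviation of the truncated window means tends to two -/
theorem win_lim0 (h : S_WTR0) {α V θ : ℝ} (hα : 0 < α) (hV : α < V) (hθ1 : θ < α ^ 2 - 1) {d : ℝ → ℝ}
    (hd : Ad d) {H : ℝ → ℝ} (hH : ∀ᶠ T : ℝ in atTop, 0 < H T ∧ H T ≤ d T ^ (-θ)) :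
    Tendsto (fun T : ℝ => (1 / T) * ∫ t in (0:ℝ)..T, |(1 / H T) * (∫ u in t..(t + H T), Zt α V (d T) u) - 1|)
      atTop (𝓝 2) := by
  rw [Metric.tendsto_nhds]
  intro ε hε
  have ev : Ev fun X δ => ∀ H : ℝ, (0 < H ∧ H ≤ δ ^ (-θ)) →
      |(∫ t in (0:ℝ)..X, |(1 / H) * (∫ u in t..(t + H), Zt α V δ u) - 1|) - 2 * X| ≤ ε / 2 * X :=
    (h α hα V hV θ hθ1 (ε / 2) (by positivity)).mono fun X δ _ _ _ g H hH => g H hH.1 hH.2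
  filter_upwards [ev.appH hd hH, eventually_gt_atTop 0] with T h1 h2
  obtain ⟨J, hJ⟩ : ∃ J, J = ∫ t in (0:ℝ)..T, |(1 / H T) * (∫ u in t..(t + H T), Zt α V (d T) u) - 1| := ⟨_, rfl⟩
  rw [← hJ] at h1 ⊢
  rw [Real.dist_eq, show (1 / T) * J - 2 = (J - 2 * T) / T by field_simp, abs_div, abs_of_pos h2, div_lt_iff₀ h2]
  nlinarith

/-- the window means tend to one in measure -/
theorem win_meas (h : S_CORE3) {α θ D : ℝ} (hα : 0 < α) (hθ : 0 < θ) (hθ1 : α ^ 2 - 1 < θ)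
    {d : ℝ → ℝ} (hd : Ad d) {H : ℝ → ℝ} (hH : ∀ᶠ T : ℝ in atTop, d T ^ (-θ) ≤ H T ∧ H T ≤ d T ^ (-D)) {η : ℝ}
    (hη : 0 < η) :
    Tendsto (fun T : ℝ => (1 / T) * (volume {t : ℝ | 0 ≤ t ∧ t ≤ T ∧
      η ≤ |(1 / H T) * (∫ u in t..(t + H T), Zn α (d T) u) - 1|}).toReal) atTop (𝓝 0) := by
  rw [Metric.tendsto_nhds]
  intro ε hε
  have ev : Ev fun X δ => ∀ H : ℝ, (δ ^ (-θ) ≤ H ∧ H ≤ δ ^ (-(max θ D))) →
      volume {t : ℝ | 0 ≤ t ∧ t ≤ X ∧ η ≤ |(1 / H) * (∫ u in t..(t + H), Zn α δ u) - 1|} ≤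
        ENNReal.ofReal (ε / 2 * X) := by
    have : Ev _ := h α hα θ hθ hθ1 (max θ D) (le_max_left _ _) (ε / 2) (by positivity) η hη
    exact this.mono fun X δ _ _ _ g H hH => g H hH.1 hH.2
  have hH' : ∀ᶠ T : ℝ in atTop, d T ^ (-θ) ≤ H T ∧ H T ≤ d T ^ (-(max θ D)) := by
    filter_upwards [hH, hd.pos, hd.t0.eventually_le_const one_pos] with T g1 g2 g3
    exact ⟨g1.1, g1.2.trans (Real.rpow_le_rpow_of_exponent_ge g2 g3 (neg_le_neg (le_max_right _ _)))⟩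
  filter_upwards [ev.appH hd hH', eventually_gt_atTop 0] with T h1 h2
  have h3 := ENNReal.toReal_le_of_le_ofReal (by positivity) h1
  rw [Real.dist_eq, sub_zero, abs_of_nonneg (by positivity), one_div, inv_mul_lt_iff₀ h2]
  nlinarith

/-- the window means tend to zero in measure -/
theorem win_meas0 (h : S_DEG3) {α θ : ℝ} (hα : 0 < α) (hθ1 : θ < α ^ 2 - 1)
    {d : ℝ → ℝ} (hd : Ad d) {H : ℝ → ℝ} (hH : ∀ᶠ T : ℝ in atTop, 0 < H T ∧ H T ≤ d T ^ (-θ)) {η : ℝ}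
    (hη : 0 < η) :
    Tendsto (fun T : ℝ => (1 / T) * (volume {t : ℝ | 0 ≤ t ∧ t ≤ T ∧
      η ≤ (1 / H T) * ∫ u in t..(t + H T), Zn α (d T) u}).toReal) atTop (𝓝 0) := by
  rw [Metric.tendsto_nhds]
  intro ε hε
  have ev : Ev fun X δ => ∀ H : ℝ, (0 < H ∧ H ≤ δ ^ (-θ)) →
      volume {t : ℝ | 0 ≤ t ∧ t ≤ X ∧ η ≤ (1 / H) * ∫ u in t..(t + H), Zn α δ u} ≤
        ENNReal.ofReal (ε / 2 * X) := by
    have : Ev _ := h α hα θ hθ1 η hη (ε / 2) (by positivity)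
    exact this.mono fun X δ _ _ _ g H hH => g H hH.1 hH.2
  filter_upwards [ev.appH hd hH, eventually_gt_atTop 0] with T h1 h2
  have h3 := ENNReal.toReal_le_of_le_ofReal (by positivity) h1
  rw [Real.dist_eq, sub_zero, abs_of_nonneg (by positivity), one_div, inv_mul_lt_iff₀ h2]
  nlinarith

/-- the exponents of the local moments -/
theorem fe_lim (h : S_FE) {θ β : ℝ} (hθ : 0 < θ) (hβ : 0 < β) {d : ℝ → ℝ} (hd : Ad d) {η : ℝ} (hη : 0 < η) :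
    Tendsto (fun T : ℝ => (1 / T) * (volume {t : ℝ | 0 ≤ t ∧ t ≤ T ∧
      η < |Real.log (d T ^ θ * ∫ u in t..(t + d T ^ (-θ)), ‖riemannZeta (1 / 2 + d T + u * I)‖ ^ β) /
        Real.log (1 / d T) - fe θ β|}).toReal) atTop (𝓝 0) := by
  refine meas_of (S := fun X δ => {t : ℝ | 0 ≤ t ∧ t ≤ X ∧
      η < |Real.log (δ ^ θ * ∫ u in t..(t + δ ^ (-θ)), ‖riemannZeta (1 / 2 + δ + u * I)‖ ^ β) /
        Real.log (1 / δ) - fe θ β|}) (fun ε hε => ?_) hd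
  have ev : Ev _ := h θ hθ β hβ η hη ε hε
  refine ev.mono fun X δ _ _ _ g => (measure_mono ?_).trans g
  rintro t ⟨h1, h2, h3⟩
  exact ⟨h1, h2, fun hc => absurd hc.1 (not_le.mpr h3)⟩

/-- the maximum -/
theorem max_lim (h : S_FE) {θ : ℝ} (hθ : 0 < θ) {d : ℝ → ℝ} (hd : Ad d) {η : ℝ} (hη : 0 < η) :
    Tendsto (fun T : ℝ => (1 / T) * (volume {t : ℝ | 0 ≤ t ∧ t ≤ T ∧ ¬ (
      (∀ u : ℝ, t ≤ u → u ≤ t + d T ^ (-θ) →
        ‖riemannZeta (1 / 2 + d T + u * I)‖ ≤ d T ^ (-(Real.sqrt (1 + θ) + η))) ∧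
      ∃ u : ℝ, t ≤ u ∧ u ≤ t + d T ^ (-θ) ∧
        d T ^ (-(Real.sqrt (1 + θ) - η)) ≤ ‖riemannZeta (1 / 2 + d T + u * I)‖)}).toReal) atTop (𝓝 0) := by
  refine meas_of (S := fun X δ => {t : ℝ | 0 ≤ t ∧ t ≤ X ∧ ¬ (
      (∀ u : ℝ, t ≤ u → u ≤ t + δ ^ (-θ) →
        ‖riemannZeta (1 / 2 + δ + u * I)‖ ≤ δ ^ (-(Real.sqrt (1 + θ) + η))) ∧
      ∃ u : ℝ, t ≤ u ∧ u ≤ t + δ ^ (-θ) ∧
        δ ^ (-(Real.sqrt (1 + θ) - η)) ≤ ‖riemannZeta (1 / 2 + δ + u * I)‖)}) (fun ε hε => ?_) hd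
  have ev : Ev _ := h θ hθ 1 one_pos η hη ε hε
  refine ev.mono fun X δ _ _ _ g => (measure_mono ?_).trans g
  rintro t ⟨h1, h2, h3⟩
  exact ⟨h1, h2, fun hc => h3 hc.2⟩

end Pool.Agent.N748.HM
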