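import Pool.Agent.N748.HM.Stm
import Pool.Agent.N748.GC.BLK

set_option autoImplicit false

/-!
# HM/BLK3: the mean square of truncated exponentials over a block of primes at two points, for all
exponents (helper407)

The proof of `Pool/Agent/N748/GC/BLK.lean` (helper821) with an arbitrary bound `A` for the exponents.
-/

namespace Pool.Agent.N748.HM.BLK3

open Finset MonoidAlgebra Complex
open Pool.Agent.N748.GC
open Pool.Agent.N748.GC.BLK (Su wd_nonneg nn_sum nn_smul nn_mono Om Om.mul Su_Om_pow Su_Om_sum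
  KL Dm sf_xc sf_NKc norm_pih norm_lin pow_real pow_PC)

theorem main : S_BLK3 := by
  classical
  intro c hc A
  obtain ⟨q, hq⟩ : ∃ q : ℝ, q = 4 * (A : ℝ) ^ 2 := ⟨_, rfl⟩
  have hq0 : 0 ≤ q := by rw [hq]; positivity
  refine ⟨Real.exp (q * c * Real.exp 1), 0, (Real.exp_pos _).le, ?_⟩
  intro I R δ h a b hI hIc hR hδ ha ha2 hb hb2
  set K : ℕ := 20 * R with hK
  set x : PC := xc I with hx
  set xh : PC := sf h (xc I) with hxh
  set s : ℝ := ∑ p ∈ I, (a ^ 2 + b ^ 2 + 2 * a * b * Real.cos (h * Real.log p)) * wd δ p with hs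
  have hxeq : x = ∑ p ∈ I, single p (1 : ℂ) := rfl
  have hxheq : xh = ∑ p ∈ I, single p ((p : ℂ) ^ (-(h * Complex.I))) := sf_xc h I
  have hOx : Su (Om 1) x := Su_Om_sum hI fun _ => 1
  have hOxh : Su (Om 1) xh := by
    rw [hxheq]
    exact Su_Om_sum hI fun p => (p : ℂ) ^ (-(h * Complex.I))
  have hDx : Dm x x := by
    rw [hxeq]
    refine Dm.sum fun p _ => ?_
    have := Dm.single (m := p) (c := 1) (r := 1) (by simp)
    simpa using this
  have hDxh : Dm xh x := by
    rw [hxheq, hxeq]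
    refine Dm.sum fun p hp => ?_
    have := Dm.single (m := p) (c := (p : ℂ) ^ (-(h * Complex.I))) (r := 1)
      (norm_pih (hI p hp).pos h).le
    simpa using this
  -- the coefficients
  set cf : ℕ × ℕ → ℝ := fun m => a ^ m.1 / (m.1.factorial : ℝ) * (b ^ m.2 / (m.2.factorial : ℝ)) with hcf
  have hcf0 : ∀ m, 0 ≤ cf m := fun m => by rw [hcf]; positivity
  set Pr : Finset (ℕ × ℕ) := range (K + 1) ×ˢ range (K + 1) with hPr
  set T : ℕ → PC := fun k => ∑ m ∈ Pr.filter (fun m => m.1 + m.2 = k), ((cf m : ℝ) : ℂ) • (x ^ m.1 * xh ^ m.2)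
    with hT
  have hG : NKc K a x * sf h (NKc K b x) = ∑ k ∈ range (2 * K + 1), T k := by
    rw [hT, hPr]
    simp only
    rw [Finset.sum_fiberwise_of_maps_to (g := fun m : ℕ × ℕ => m.1 + m.2), Finset.sum_product,
      sf_NKc, ← hxh]
    · unfold NKc
      rw [Finset.sum_mul_sum]
      refine Finset.sum_congr rfl fun i _ => Finset.sum_congr rfl fun j _ => ?_
      rw [smul_mul_smul_comm, hcf]
      congr 1
      push_cast
      ring
    · intro m hm
      rw [mem_product, mem_range, mem_range] at hm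
      rw [mem_range]
      omega
  rw [hG, nn_sum δ (fun n => ArithmeticFunction.cardFactors n)]
  swap
  · intro k _
    refine Su.sum fun m hm => ?_
    rw [mem_filter] at hm
    refine Su.smul ?_ _
    refine (Su_Om_pow hOx m.1).mul (Su_Om_pow hOxh m.2) fun u v hu hv => ?_
    rw [(hu.mul hv).2]
    exact hm.2
  have hs0 : 0 ≤ s := by
    refine Finset.sum_nonneg fun p hp => mul_nonneg ?_ (wd_nonneg δ p)
    rw [← norm_lin (hI p hp).pos h a b]
    positivity
  -- low degrees
  have hlow : ∀ k, k ≤ K → nn δ (T k) ≤ s ^ k / (k.factorial : ℝ) := by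
    intro k hk
    have hset : Pr.filter (fun m => m.1 + m.2 = k) = antidiagonal k := by
      ext m
      rw [mem_filter, hPr, mem_product, mem_range, mem_range, HasAntidiagonal.mem_antidiagonal]
      constructor
      · exact fun h => h.2
      · intro h
        exact ⟨⟨by omega, by omega⟩, h⟩
    have hy : ((a : ℝ) : ℂ) • x + ((b : ℝ) : ℂ) • xh =
        ∑ p ∈ I, single p ((a : ℂ) + b * (p : ℂ) ^ (-(h * Complex.I))) := by
      rw [hxeq, hxheq, Finset.smul_sum, Finset.smul_sum, ← Finset.sum_add_distrib]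
      refine Finset.sum_congr rfl fun p _ => ?_
      rw [smul_single, smul_single, ← single_add]
      simp
    have e1 : T k = ((1 / (k.factorial : ℝ) : ℝ) : ℂ) •
        (∑ p ∈ I, single p ((a : ℂ) + b * (p : ℂ) ^ (-(h * Complex.I))) : PC) ^ k := by
      rw [hT]
      simp only
      rw [hset, ← hy, ← pow_PC]
    have hk0 : (0 : ℝ) < k.factorial := by exact_mod_cast Nat.factorial_pos k
    rw [e1, nn_smul, Complex.norm_real, Real.norm_of_nonneg (by positivity)]
    have h1 := KL δ (fun p => (a : ℂ) + b * (p : ℂ) ^ (-(h * Complex.I))) I hI k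
    have h2 : ∑ p ∈ I, ‖(a : ℂ) + b * (p : ℂ) ^ (-(h * Complex.I))‖ ^ 2 * wd δ p = s := by
      rw [hs]
      refine Finset.sum_congr rfl fun p hp => ?_
      rw [norm_lin (hI p hp).pos h a b]
    rw [h2] at h1
    calc (1 / (k.factorial : ℝ)) ^ 2 * nn δ ((∑ p ∈ I, single p ((a : ℂ) + b * (p : ℂ) ^ (-(h * Complex.I))) : PC) ^ k)
        ≤ (1 / (k.factorial : ℝ)) ^ 2 * (k.factorial * s ^ k) :=
          mul_le_mul_of_nonneg_left h1 (by positivity)
      _ = s ^ k / (k.factorial : ℝ) := by field_simp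
  -- all degrees
  have hall : ∀ k, nn δ (T k) ≤ (q * c) ^ k / (k.factorial : ℝ) := by
    intro k
    have hk0 : (0 : ℝ) < k.factorial := by exact_mod_cast Nat.factorial_pos k
    have h1 : Dm (T k) (∑ m ∈ Pr.filter (fun m => m.1 + m.2 = k), ((cf m : ℝ) : ℂ) • (x ^ m.1 * x ^ m.2)) := by
      rw [hT]
      refine Dm.sum fun m _ => ?_
      refine ((hDx.pow m.1).mul (hDxh.pow m.2)).smul ?_
      rw [Complex.norm_real, Real.norm_of_nonneg (hcf0 m)]
    have h2 : ∑ m ∈ Pr.filter (fun m => m.1 + m.2 = k), ((cf m : ℝ) : ℂ) • (x ^ m.1 * x ^ m.2) =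
        ((∑ m ∈ Pr.filter (fun m => m.1 + m.2 = k), cf m : ℝ) : ℂ) • x ^ k := by
      rw [Complex.ofReal_sum, Finset.sum_smul]
      refine Finset.sum_congr rfl fun m hm => ?_
      rw [← pow_add, (mem_filter.1 hm).2]
    have h3 : ∑ m ∈ Pr.filter (fun m => m.1 + m.2 = k), cf m ≤ (a + b) ^ k / (k.factorial : ℝ) := by
      rw [← pow_real]
      refine Finset.sum_le_sum_of_subset_of_nonneg ?_ fun m _ _ => hcf0 m
      intro m hm
      rw [HasAntidiagonal.mem_antidiagonal]
      exact (mem_filter.1 hm).2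
    have h30 : 0 ≤ ∑ m ∈ Pr.filter (fun m => m.1 + m.2 = k), cf m := Finset.sum_nonneg fun m _ => hcf0 m
    refine (nn_mono δ h1).trans ?_
    rw [h2, nn_smul, Complex.norm_real, Real.norm_of_nonneg h30]
    have h4 := KL δ (fun _ => (1 : ℂ)) I hI k
    rw [← hxeq] at h4
    have h5 : ∑ p ∈ I, ‖(1 : ℂ)‖ ^ 2 * wd δ p ≤ c := by
      refine le_trans (Finset.sum_le_sum fun p hp => ?_) hIc
      rw [norm_one, one_pow, one_mul]
      unfold wd
      have hp1 : (1 : ℝ) ≤ p := by exact_mod_cast (hI p hp).one_lt.le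
      refine mul_le_of_le_one_left (by positivity) ?_
      exact Real.rpow_le_one_of_one_le_of_nonpos hp1 (by linarith)
    have h50 : 0 ≤ ∑ p ∈ I, ‖(1 : ℂ)‖ ^ 2 * wd δ p :=
      Finset.sum_nonneg fun p _ => mul_nonneg (sq_nonneg _) (wd_nonneg δ p)
    calc (∑ m ∈ Pr.filter (fun m => m.1 + m.2 = k), cf m) ^ 2 * nn δ (x ^ k)
        ≤ ((a + b) ^ k / (k.factorial : ℝ)) ^ 2 * (k.factorial * c ^ k) := by
          refine mul_le_mul (pow_le_pow_left₀ h30 h3 2) (h4.trans ?_) (Pool.Agent.N748.GC.BLK.nn_nonneg _ _) (by positivity)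
          exact mul_le_mul_of_nonneg_left (pow_le_pow_left₀ h50 h5 k) (by positivity)
      _ = ((a + b) ^ 2 * c) ^ k / (k.factorial : ℝ) := by
          rw [mul_pow, ← pow_mul, mul_comm 2 k, pow_mul]
          field_simp
      _ ≤ (q * c) ^ k / (k.factorial : ℝ) := by
          refine div_le_div_of_nonneg_right (pow_le_pow_left₀ (by positivity) ?_ k) hk0.le
          refine mul_le_mul_of_nonneg_right ?_ hc
          rw [hq]
          have h6 : (a + b) ^ 2 ≤ (2 * (A : ℝ)) ^ 2 := pow_le_pow_left₀ (by linarith) (by linarith) 2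
          linarith
  have hterm : ∀ k ∈ range (2 * K + 1), nn δ (T k) ≤ s ^ k / (k.factorial : ℝ) +
      Real.exp (-(K : ℝ)) * ((q * c * Real.exp 1) ^ k / (k.factorial : ℝ)) := by
    intro k _
    rcases le_or_gt k K with hk | hk
    · have : 0 ≤ Real.exp (-(K : ℝ)) * ((q * c * Real.exp 1) ^ k / (k.factorial : ℝ)) := by positivity
      linarith [hlow k hk]
    · have h0 : 0 ≤ s ^ k / (k.factorial : ℝ) := by positivity
      refine (hall k).trans ?_
      have h1 : (q * c) ^ k / (k.factorial : ℝ) = Real.exp (-(k : ℝ)) *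
          ((q * c * Real.exp 1) ^ k / (k.factorial : ℝ)) := by
        rw [mul_pow (q * c), ← Real.exp_nat_mul, mul_one, Real.exp_neg]
        field_simp
      have h2 : Real.exp (-(k : ℝ)) ≤ Real.exp (-(K : ℝ)) := by
        refine Real.exp_le_exp.2 ?_
        have : (K : ℝ) ≤ k := by exact_mod_cast hk.le
        linarith
      have h3 : 0 ≤ (q * c * Real.exp 1) ^ k / (k.factorial : ℝ) := by positivity
      rw [h1]
      have h4 := mul_le_mul_of_nonneg_right h2 h3
      linarith
  refine (Finset.sum_le_sum hterm).trans ?_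
  rw [Finset.sum_add_distrib, ← Finset.mul_sum]
  have h1 := Real.sum_le_exp_of_nonneg hs0 (2 * K + 1)
  have h2 := Real.sum_le_exp_of_nonneg (x := q * c * Real.exp 1) (by positivity) (2 * K + 1)
  have h3 : Real.exp (-(K : ℝ)) ≤ Real.exp (-(R : ℝ)) := by
    refine Real.exp_le_exp.2 ?_
    rw [hK]
    push_cast
    have : (0 : ℝ) ≤ R := Nat.cast_nonneg _
    linarith
  have h4 : 1 ≤ Real.exp s := Real.one_le_exp hs0
  set E := Real.exp (q * c * Real.exp 1) with hE
  have hE0 : 0 < E := Real.exp_pos _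
  have hR0 : 0 < Real.exp (-(R : ℝ)) := Real.exp_pos _
  have h5 : Real.exp (-(K : ℝ)) * (∑ i ∈ range (2 * K + 1), (q * c * Real.exp 1) ^ i / (i.factorial : ℝ)) ≤
      Real.exp (-(R : ℝ)) * E := mul_le_mul h3 h2 (Finset.sum_nonneg fun i _ => by positivity) hR0.le
  have h6 : 0 < E * Real.exp (-(R : ℝ)) := by positivity
  nlinarith [mul_nonneg (sub_nonneg.2 h4) h6.le, mul_pos h6 h6, mul_nonneg (Real.exp_pos s).le (sq_nonneg (E * Real.exp (-(R : ℝ))))]

end Pool.Agent.N748.HM.BLK3
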