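import Pool.Agent.N748.HM.Stm
import Pool.Agent.N748.GC.BADB2

set_option autoImplicit false

/-!
# HM/CL: pointwise comparison of the moment weight with the weight of the blocks (written by helper400)
-/

namespace Pool.Agent.N748.HM.CL

open Finset Filter MeasureTheory MonoidAlgebra Topology Complex
open Pool.Agent.N748.GC
open Pool.Agent.N748.GC.BADB (nk ec_NKc nk_eq norm_exp_mul)

/-! ### numbers close to one -/

/-- the number lies between `exp (-e)` and `exp e` -/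
def Nr (e r : ℝ) : Prop := Real.exp (-e) ≤ r ∧ r ≤ Real.exp e

lemma Nr.pos {e r : ℝ} (h : Nr e r) : 0 < r := (Real.exp_pos _).trans_le h.1

lemma Nr.mul {e e' r r' : ℝ} (h : Nr e r) (h' : Nr e' r') : Nr (e + e') (r * r') := by
  constructor
  · rw [neg_add, Real.exp_add]
    exact mul_le_mul h.1 h'.1 (Real.exp_pos _).le h.pos.le
  · rw [Real.exp_add]
    exact mul_le_mul h.2 h'.2 h'.pos.le (Real.exp_pos _).le

lemma Nr.mono {e e' r : ℝ} (h : Nr e r) (he : e ≤ e') : Nr e' r :=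
  ⟨(Real.exp_le_exp.2 (by linarith)).trans h.1, h.2.trans (Real.exp_le_exp.2 he)⟩

lemma Nr.inv {e r : ℝ} (h : Nr e r) : Nr e r⁻¹ := by
  constructor
  · rw [Real.exp_neg]
    exact inv_anti₀ h.pos h.2
  · have h1 := inv_anti₀ (Real.exp_pos _) h.1
    rwa [Real.exp_neg, inv_inv] at h1

lemma Nr.rpow {e r b : ℝ} (h : Nr e r) (hb : 0 ≤ b) : Nr (b * e) (r ^ b) := by
  have h1 := Real.rpow_le_rpow (Real.exp_pos _).le h.1 hb
  have h2 := Real.rpow_le_rpow h.pos.le h.2 hb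
  rw [← Real.exp_mul] at h1 h2
  constructor
  · refine le_trans (le_of_eq ?_) h1
    congr 1; ring
  · refine h2.trans (le_of_eq ?_)
    congr 1; ring

lemma Nr.sq {e r : ℝ} (h : Nr e r) : Nr (2 * e) (r ^ 2) := by
  rw [pow_two, two_mul]
  exact h.mul h

lemma exp_le_of {t : ℝ} (h0 : 0 ≤ t) (h1 : t ≤ 1 / 2) : Real.exp t ≤ 1 + 2 * t := by
  have h2 := Real.one_sub_le_exp_neg t
  have h3 : Real.exp t * Real.exp (-t) = 1 := by rw [← Real.exp_add]; simp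
  have h4 : 0 < Real.exp t := Real.exp_pos _
  nlinarith

lemma Nr.abs {e r : ℝ} (h : Nr e r) (h0 : 0 ≤ e) (h1 : e ≤ 1 / 2) : |r - 1| ≤ 2 * e := by
  have h2 := Real.one_sub_le_exp_neg e
  have h3 := exp_le_of h0 h1
  rw [abs_le]
  constructor
  · linarith [h.1]
  · linarith [h.2]

lemma nr_of_abs {t r : ℝ} (ht : t ≤ 1 / 2) (h : |r - 1| ≤ t) : Nr (2 * t) r := by
  have h0 : 0 ≤ t := (abs_nonneg _).trans h
  rw [abs_le] at h
  constructor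
  · have h1 : Real.exp (2 * t) ≥ 1 + 2 * t := by
      have := Real.add_one_le_exp (2 * t)
      linarith
    rw [Real.exp_neg]
    have h2 : (Real.exp (2 * t))⁻¹ ≤ (1 + 2 * t)⁻¹ := inv_anti₀ (by linarith) h1
    have h3 : (1 + 2 * t)⁻¹ ≤ 1 - t := by
      rw [inv_le_iff_one_le_mul₀ (by linarith)]
      nlinarith
    linarith [h.1]
  · have h1 : 2 * t + 1 ≤ Real.exp (2 * t) := Real.add_one_le_exp _
    linarith [h.2]

lemma nr_of_norm {t : ℝ} {w : ℂ} (ht : t ≤ 1 / 2) (h : ‖w - 1‖ ≤ t) : Nr (2 * t) ‖w‖ := by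
  refine nr_of_abs ht (le_trans ?_ h)
  have h1 := abs_norm_sub_norm_le w 1
  rwa [norm_one] at h1

/-- relative version -/
lemma nr_of_rel {t : ℝ} {w w' : ℂ} (ht : t ≤ 1 / 2) (h0 : w' ≠ 0) (h : ‖w - w'‖ ≤ t * ‖w'‖) :
    Nr (2 * t) (‖w‖ / ‖w'‖) := by
  rw [← norm_div]
  refine nr_of_norm ht ?_
  have h1 : w / w' - 1 = (w - w') / w' := by field_simp
  rw [h1, norm_div, div_le_iff₀ (norm_pos_iff.2 h0)]
  exact h

lemma nr_prod {ι : Type} (s : Finset ι) (e r : ι → ℝ) (h : ∀ i ∈ s, Nr (e i) (r i)) :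
    Nr (∑ i ∈ s, e i) (∏ i ∈ s, r i) := by
  classical
  induction s using Finset.induction_on with
  | empty => simp [Nr]
  | insert a s ha ih =>
    rw [sum_insert ha, prod_insert ha]
    exact (h a (mem_insert_self _ _)).mul (ih fun i hi => h i (mem_insert_of_mem hi))

/-! ### truncated exponentials -/

lemma texp {N : ℕ} {ρ : ℝ} {w : ℂ} (hw : ‖w‖ ≤ ρ) (hN : 2 * ρ ≤ N + 2) :
    ‖(∑ k ∈ range (N + 1), w ^ k / (k.factorial : ℂ)) - Complex.exp w‖ ≤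
      2 * Real.exp (9 * ρ - 2 * (N + 1)) * ‖Complex.exp w‖ := by
  have hρ : 0 ≤ ρ := (norm_nonneg _).trans hw
  have h3 : ‖w‖ / ((N + 1 : ℕ).succ : ℝ) ≤ 1 / 2 := by
    rw [div_le_div_iff₀ (by positivity) (by norm_num)]
    push_cast
    linarith
  have h4 := Complex.exp_bound' h3
  rw [norm_sub_rev]
  refine h4.trans ?_
  have h5 : ‖w‖ ^ (N + 1) / ((N + 1).factorial : ℝ) ≤ ρ ^ (N + 1) / ((N + 1).factorial : ℝ) := by
    gcongr
  have k1 : (8 * ρ) ^ (N + 1) / ((N + 1).factorial : ℝ) ≤ Real.exp (8 * ρ) :=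
    Real.pow_div_factorial_le_exp _ (by positivity) _
  have k2 : ρ ^ (N + 1) / ((N + 1).factorial : ℝ) =
      (8 * ρ) ^ (N + 1) / ((N + 1).factorial : ℝ) / 8 ^ (N + 1) := by
    rw [mul_pow]; field_simp
  have k3 : Real.exp (2 * ((N:ℝ) + 1)) ≤ 8 ^ (N + 1) := by
    have e1 : Real.exp (2 * ((N:ℝ) + 1)) = (Real.exp 1 ^ 2) ^ (N + 1) := by
      rw [← pow_mul, ← Real.exp_nat_mul]
      congr 1
      push_cast
      ring
    have e2 : Real.exp 1 ^ 2 ≤ (8:ℝ) := by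
      have e3 : Real.exp 1 ≤ 2.7182818286 := Real.exp_one_lt_d9.le
      calc Real.exp 1 ^ 2 ≤ (2.7182818286:ℝ) ^ 2 := pow_le_pow_left₀ (Real.exp_pos _).le e3 _
        _ ≤ 8 := by norm_num
    rw [e1]
    exact pow_le_pow_left₀ (by positivity) e2 _
  have k4 : ρ ^ (N + 1) / ((N + 1).factorial : ℝ) ≤ Real.exp (8 * ρ - 2 * (N + 1)) := by
    rw [k2, Real.exp_sub]
    exact div_le_div₀ (Real.exp_pos _).le k1 (Real.exp_pos _) k3
  have h6 : Real.exp (-ρ) ≤ ‖Complex.exp w‖ := by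
    rw [Complex.norm_exp]
    refine Real.exp_le_exp.mpr ?_
    have := Complex.abs_re_le_norm w
    have := (abs_le.mp (this.trans hw)).1
    linarith
  calc ‖w‖ ^ (N + 1) / ((N + 1).factorial : ℝ) * 2 ≤ Real.exp (8 * ρ - 2 * (N + 1)) * 2 :=
        mul_le_mul_of_nonneg_right (h5.trans k4) (by norm_num)
    _ = 2 * Real.exp (9 * ρ - 2 * (N + 1)) * Real.exp (-ρ) := by
        rw [mul_assoc, ← Real.exp_add]
        ring_nf
    _ ≤ _ := mul_le_mul_of_nonneg_left h6 (by positivity)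

/-- truncated exponentials -/
lemma nk_nr {N : ℕ} {ρ α : ℝ} {w : ℂ} (hw : ‖(α:ℂ) * w‖ ≤ ρ) (hN : 2 * ρ ≤ N + 2)
    (ht : 2 * Real.exp (9 * ρ - 2 * (N + 1)) ≤ 1 / 2) :
    Nr (2 * (2 * Real.exp (9 * ρ - 2 * (N + 1)))) (‖nk N α w‖ / Real.exp (α * w.re)) := by
  rw [← norm_exp_mul, nk_eq]
  exact nr_of_rel ht (Complex.exp_ne_zero _) (texp hw hN)

/-! ### one prime -/

lemma log_fac {w : ℂ} (hw : ‖w‖ ≤ 1 / 3) :
    |Real.log ‖1 - w‖ + w.re + (w ^ 2).re / 2| ≤ ‖w‖ ^ 3 / 2 := by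
  have h1 : ‖-w‖ < 1 := by rw [norm_neg]; linarith
  have h2 := Complex.norm_log_sub_logTaylor_le 2 h1
  have h3 : Complex.logTaylor (2 + 1) (-w) = -w - w ^ 2 / 2 := by
    simp [Complex.logTaylor_succ, Complex.logTaylor_zero]
    ring
  rw [h3, norm_neg] at h2
  have h4 : (Complex.log (1 + -w) - (-w - w ^ 2 / 2)).re =
      Real.log ‖1 - w‖ + w.re + (w ^ 2).re / 2 := by
    rw [← sub_eq_add_neg, Complex.sub_re, Complex.sub_re, Complex.neg_re, Complex.log_re]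
    have : (w ^ 2 / 2).re = (w ^ 2).re / 2 := by
      have e : (w ^ 2 / 2 : ℂ) = w ^ 2 / ((2:ℝ) : ℂ) := by norm_num
      rw [e, Complex.div_ofReal_re]
    rw [this]
    ring
  rw [← h4]
  refine (Complex.abs_re_le_norm _).trans (h2.trans ?_)
  have h5 : (1 - ‖w‖)⁻¹ ≤ 3 / 2 := by
    rw [inv_le_comm₀ (by linarith) (by norm_num)]
    linarith
  have h6 : 0 ≤ ‖w‖ ^ 3 := by positivity
  have h7 : ‖w‖ ^ (2 + 1) * (1 - ‖w‖)⁻¹ ≤ ‖w‖ ^ 3 * (3 / 2) := mul_le_mul_of_nonneg_left h5 h6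
  rw [div_le_iff₀ (by positivity)]
  push_cast
  linarith

/-- `n^(-3/2)` is bounded by a telescoping sum -/
lemma tail32 {z N : ℕ} (hz : 2 ≤ z) :
    ∑ n ∈ Icc z N, (1 / Real.sqrt n) ^ 3 ≤ 2 * (1 / Real.sqrt ((z:ℝ) - 1)) := by
  have hz' : (2:ℝ) ≤ z := by exact_mod_cast hz
  have hstep : ∀ n : ℕ, 2 ≤ n → (1 / Real.sqrt n) ^ 3 ≤
      2 * (1 / Real.sqrt ((n:ℝ) - 1)) - 2 * (1 / Real.sqrt n) := by
    intro n hn
    have hn' : (2:ℝ) ≤ n := by exact_mod_cast hn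
    set b := Real.sqrt n with hb
    set a := Real.sqrt ((n:ℝ) - 1) with ha
    have ha0 : 0 < a := Real.sqrt_pos.2 (by linarith)
    have hb0 : 0 < b := Real.sqrt_pos.2 (by linarith)
    have hab : a ≤ b := Real.sqrt_le_sqrt (by linarith)
    have hb2 : b ^ 2 = n := Real.sq_sqrt (by linarith)
    have ha2 : a ^ 2 = n - 1 := Real.sq_sqrt (by linarith)
    have h1 : b ^ 2 - a ^ 2 = 1 := by rw [hb2, ha2]; ring
    have h2 : 2 * (1 / a) - 2 * (1 / b) - (1 / b) ^ 3 = (2 * b ^ 3 - 2 * a * b ^ 2 - a) / (a * b ^ 3) := by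
      field_simp
    have h3 : 0 ≤ (2 * b ^ 3 - 2 * a * b ^ 2 - a) / (a * b ^ 3) := by
      refine div_nonneg ?_ (by positivity)
      have h4 : (b - a) * (b + a) = 1 := by linarith [h1]
      -- (b - a) * 2 b^2 ≥ a
      have h5 : (b - a) * (2 * b ^ 2) = (b - a) * (b + a) * (2 * b ^ 2) / (b + a) := by
        field_simp
      have h6 : a ≤ (b - a) * (2 * b ^ 2) := by
        rw [h5, h4, one_mul, le_div_iff₀ (by positivity)]
        nlinarith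
      nlinarith
    linarith
  have key : ∀ N : ℕ, z - 1 ≤ N → ∑ n ∈ Icc z N, (1 / Real.sqrt n) ^ 3 ≤
      2 * (1 / Real.sqrt ((z:ℝ) - 1)) - 2 * (1 / Real.sqrt N) := by
    intro N hN
    induction N, hN using Nat.le_induction with
    | base =>
      rw [Finset.Icc_eq_empty (by omega), Finset.sum_empty, Nat.cast_sub (by omega)]
      push_cast
      linarith
    | succ N hN ih =>
      rw [Finset.sum_Icc_succ_top (by omega)]
      have h1 := hstep (N + 1) (by omega)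
      push_cast at h1 ⊢
      rw [add_sub_cancel_right] at h1
      linarith
  by_cases h : z - 1 ≤ N
  · have h1 := key N h
    have h2 : 0 ≤ 2 * (1 / Real.sqrt (N:ℝ)) := by positivity
    linarith
  · rw [Finset.Icc_eq_empty (by omega), Finset.sum_empty]
    positivity

/-! ### the primes between `z` and `y` -/

lemma pt_re (δ u : ℝ) : (1 / 2 + (δ:ℂ) + u * I).re = 1 / 2 + δ := by simp

lemma norm_w {δ : ℝ} (u : ℝ) (hδ : 0 ≤ δ) {p : ℕ} (hp : 1 ≤ p) :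
    ‖(p:ℂ) ^ (-(1 / 2 + (δ:ℂ) + u * I))‖ ≤ 1 / Real.sqrt p := by
  rw [Complex.norm_natCast_cpow_of_pos hp, Complex.neg_re, pt_re]
  have h1 : (p:ℝ) ^ (-(1 / 2 + δ)) ≤ (p:ℝ) ^ (-(1 / 2:ℝ)) :=
    Real.rpow_le_rpow_of_exponent_le (by exact_mod_cast hp) (by linarith)
  refine h1.trans (le_of_eq ?_)
  rw [Real.sqrt_eq_rpow, Real.rpow_neg (Nat.cast_nonneg p), one_div ((p:ℝ) ^ (1 / 2:ℝ))]

lemma PP_prime {z : ℕ} {y : ℝ} {p : ℕ} (hp : p ∈ PP z y) : p.Prime := (mem_filter.1 hp).2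

lemma PP_ge {z : ℕ} {y : ℝ} {p : ℕ} (hp : p ∈ PP z y) : z ≤ p := (mem_Icc.1 (mem_filter.1 hp).1).1

lemma w_small {δ u : ℝ} (hδ : 0 ≤ δ) {z : ℕ} (hz : 1000 ≤ z) {p : ℕ} (hp : z ≤ p) :
    ‖(p:ℂ) ^ (-(1 / 2 + (δ:ℂ) + u * I))‖ ≤ 1 / 3 ∧
    ‖(p:ℂ) ^ (-(1 / 2 + (δ:ℂ) + u * I))‖ ^ 2 ≤ 1 / (p:ℝ) ∧
    ‖(p:ℂ) ^ (-(1 / 2 + (δ:ℂ) + u * I))‖ ^ 3 ≤ (1 / Real.sqrt p) ^ 3 := by
  have h0 := norm_w (δ := δ) u hδ (show 1 ≤ p by omega)
  have hp' : (1000:ℝ) ≤ p := by exact_mod_cast hz.trans hp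
  have h1 : (3:ℝ) ≤ Real.sqrt p := by
    apply Real.le_sqrt_of_sq_le
    linarith
  refine ⟨h0.trans (one_div_le_one_div_of_le (by norm_num) h1), ?_,
    pow_le_pow_left₀ (norm_nonneg _) h0 3⟩
  refine (pow_le_pow_left₀ (norm_nonneg _) h0 2).trans (le_of_eq ?_)
  rw [div_pow, one_pow, Real.sq_sqrt (by linarith)]

lemma logF {δ u : ℝ} (hδ : 0 ≤ δ) {z : ℕ} (hz : 1000 ≤ z) (y : ℝ) :
    ∃ L : ℝ, ‖∏ p ∈ PP z y, (1 - (p:ℂ) ^ (-(1 / 2 + (δ:ℂ) + u * I)))‖ = Real.exp L ∧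
      |L + (∑ p ∈ PP z y, (p:ℂ) ^ (-(1 / 2 + (δ:ℂ) + u * I))).re +
        (∑ p ∈ PP z y, (1 / 2 : ℂ) * ((p:ℂ) ^ (-(1 / 2 + (δ:ℂ) + u * I))) ^ 2).re| ≤
          1 / Real.sqrt ((z:ℝ) - 1) ∧
      -(∑ p ∈ PP z y, (p:ℂ) ^ (-(1 / 2 + (δ:ℂ) + u * I))).re - ∑ p ∈ PP z y, 1 / (p:ℝ) ≤ L := by
  set w : ℕ → ℂ := fun p => (p:ℂ) ^ (-(1 / 2 + (δ:ℂ) + u * I)) with hw
  have hws : ∀ p ∈ PP z y, ‖w p‖ ≤ 1 / 3 ∧ ‖w p‖ ^ 2 ≤ 1 / (p:ℝ) ∧
      ‖w p‖ ^ 3 ≤ (1 / Real.sqrt p) ^ 3 := fun p hp => w_small hδ hz (PP_ge hp)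
  refine ⟨∑ p ∈ PP z y, Real.log ‖1 - w p‖, ?_, ?_, ?_⟩
  · rw [norm_prod, Real.exp_sum]
    refine prod_congr rfl fun p hp => ?_
    rw [Real.exp_log]
    rw [norm_pos_iff]
    intro h
    have h1 : w p = 1 := (sub_eq_zero.1 h).symm
    have h2 := (hws p hp).1
    rw [h1, norm_one] at h2
    norm_num at h2
  · rw [Complex.re_sum, Complex.re_sum, ← sum_add_distrib, ← sum_add_distrib]
    refine (abs_sum_le_sum_abs _ _).trans ?_
    have h1 : ∀ p ∈ PP z y, |Real.log ‖1 - w p‖ + (w p).re + ((1 / 2 : ℂ) * w p ^ 2).re| ≤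
        (1 / Real.sqrt p) ^ 3 / 2 := by
      intro p hp
      have h2 := log_fac (hws p hp).1
      have h3 : ((1 / 2 : ℂ) * w p ^ 2).re = (w p ^ 2).re / 2 := by
        have e : ((1 / 2 : ℂ) * w p ^ 2) = ((1 / 2 : ℝ) : ℂ) * w p ^ 2 := by norm_num
        rw [e, Complex.re_ofReal_mul]
        ring
      rw [h3]
      refine h2.trans ?_
      linarith [(hws p hp).2.2]
    refine (sum_le_sum h1).trans ?_
    rw [← sum_div]
    have h2 : ∑ p ∈ PP z y, (1 / Real.sqrt p) ^ 3 ≤ ∑ p ∈ Icc z ⌊y⌋₊, (1 / Real.sqrt p) ^ 3 :=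
      sum_le_sum_of_subset_of_nonneg (filter_subset _ _) fun _ _ _ => by positivity
    have h3 := tail32 (z := z) (N := ⌊y⌋₊) (by omega)
    linarith
  · rw [Complex.re_sum, ← sum_neg_distrib, ← sum_sub_distrib]
    refine sum_le_sum fun p hp => ?_
    have h2 := (abs_le.1 (log_fac (hws p hp).1)).1
    obtain ⟨h3, h4, -⟩ := hws p hp
    have h5 : (w p ^ 2).re ≤ ‖w p‖ ^ 2 := by
      rw [← norm_pow]
      exact Complex.re_le_norm _
    have h6 : ‖w p‖ ^ 3 ≤ ‖w p‖ ^ 2 := by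
      have h7 : 0 ≤ ‖w p‖ := norm_nonneg _
      have h8 : 0 ≤ ‖w p‖ ^ 2 := by positivity
      nlinarith
    linarith

lemma ec_xc (s : ℂ) (I : Finset ℕ) : ec s (xc I) = ∑ p ∈ I, (p:ℂ) ^ (-s) := by
  unfold xc
  rw [map_sum]
  refine sum_congr rfl fun p _ => ?_
  rw [Pool.Agent.N748.GC.MV.ec_single, one_mul]

lemma ec_GQ (s : ℂ) (α : ℝ) (z : ℕ) (y : ℝ) (Kq : ℕ) :
    ec s (GQ α z y Kq) = nk Kq α (∑ p ∈ PP z y, (1 / 2 : ℂ) * ((p:ℂ) ^ (-s)) ^ 2) := by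
  unfold GQ
  rw [ec_NKc, map_sum]
  congr 1
  refine sum_congr rfl fun p _ => ?_
  rw [Pool.Agent.N748.GC.MV.ec_single]
  congr 1
  exact map_pow (hsc s) p 2

lemma D2_le {δ u : ℝ} (hδ : 0 ≤ δ) {z : ℕ} (hz : 1000 ≤ z) {y v : ℝ}
    (hv : ∑ p ∈ PP z y, 1 / (p:ℝ) ≤ v) :
    ‖∑ p ∈ PP z y, (1 / 2 : ℂ) * ((p:ℂ) ^ (-(1 / 2 + (δ:ℂ) + u * I))) ^ 2‖ ≤ v / 2 := by
  refine (norm_sum_le _ _).trans ?_
  have h1 : ∀ p ∈ PP z y, ‖(1 / 2 : ℂ) * ((p:ℂ) ^ (-(1 / 2 + (δ:ℂ) + u * I))) ^ 2‖ ≤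
      1 / (p:ℝ) / 2 := by
    intro p hp
    rw [norm_mul, norm_pow]
    have h2 := (w_small (δ := δ) (u := u) hδ hz (PP_ge hp)).2.1
    have h3 : ‖(1 / 2 : ℂ)‖ = 1 / 2 := by norm_num
    rw [h3]
    linarith
  refine (sum_le_sum h1).trans ?_
  rw [← sum_div]
  linarith

/-! ### the blocks -/

lemma blocks {A z Rs J : ℕ} {α δ u y : ℝ} (hα0 : 0 < α) (hαA : α ≤ A) (hz : 144 ≤ z) (hy : 1 ≤ y)
    (hJ : be y J < 144) (h1 : G1 A z Rs y J δ u) :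
    Nr (8 * Real.exp (-(Rs:ℝ)))
      (‖ec (1 / 2 + δ + u * I) (BP (fun _ => α) z y 0 J Rs)‖ /
        Real.exp (α * (ec (1 / 2 + δ + u * I) (xc (PP z y))).re)) := by
  set s : ℂ := 1 / 2 + δ + u * I with hs
  have e1 : (ec s (xc (PP z y))).re = ∑ i ∈ Ico 0 J, (ec s (xc (IB z y i))).re := by
    rw [ec_xc, Complex.re_sum]
    have h2 := Pool.Agent.N748.GC.TWO.sum_low hz hy (fun p : ℕ => ((p:ℂ) ^ (-s)).re)
      (Nat.zero_le J) hJ
    rw [Pool.Agent.N748.GC.TWO.be_zero hy] at h2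
    unfold PP
    rw [← h2]
    refine sum_congr rfl fun i _ => ?_
    rw [ec_xc, Complex.re_sum]
  have e2 : ‖ec s (BP (fun _ => α) z y 0 J Rs)‖ =
      ∏ i ∈ Ico 0 J, ‖nk (20 * RB Rs i) α (ec s (xc (IB z y i)))‖ := by
    unfold BP
    rw [map_prod, norm_prod]
    refine prod_congr rfl fun i _ => ?_
    rw [ec_NKc]
  rw [e1, e2, mul_sum, Real.exp_sum, ← prod_div_distrib]
  have h3 : ∀ i ∈ Ico 0 J, Nr (4 * (Real.exp (-(Rs:ℝ)) * (1 / 2) ^ i))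
      (‖nk (20 * RB Rs i) α (ec s (xc (IB z y i)))‖ /
        Real.exp (α * (ec s (xc (IB z y i))).re)) := by
    intro i hi
    rw [mem_Ico] at hi
    set x : ℂ := ec s (xc (IB z y i)) with hx
    have hR : ‖(α:ℂ) * x‖ ≤ (RB Rs i : ℝ) := by
      rw [norm_mul, Complex.norm_real, Real.norm_of_nonneg hα0.le]
      exact (mul_le_mul_of_nonneg_right hαA (norm_nonneg _)).trans (h1 i hi.2)
    have hR0 : (0:ℝ) ≤ RB Rs i := Nat.cast_nonneg _
    have hb : 2 * Real.exp (9 * (RB Rs i : ℝ) - 2 * (((20 * RB Rs i : ℕ) : ℝ) + 1)) ≤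
        2 * (Real.exp (-(Rs:ℝ)) * (1 / 2) ^ i) * (1 / 4) := by
      have h4 : Real.exp (9 * (RB Rs i : ℝ) - 2 * (((20 * RB Rs i : ℕ) : ℝ) + 1)) ≤
          Real.exp (-(Rs:ℝ)) * Real.exp (-(i:ℝ)) * Real.exp (-2) := by
        rw [← Real.exp_add, ← Real.exp_add]
        refine Real.exp_le_exp.2 ?_
        unfold RB
        push_cast
        have : (0:ℝ) ≤ Rs := Nat.cast_nonneg _
        have : (0:ℝ) ≤ i := Nat.cast_nonneg _
        linarith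
      have h5 : Real.exp (-(i:ℝ)) ≤ (1 / 2) ^ i := by
        have h6 : Real.exp (-(1:ℝ)) ≤ 1 / 2 := by
          rw [Real.exp_neg, ← one_div]
          apply one_div_le_one_div_of_le (by norm_num)
          have := Real.add_one_le_exp (1 : ℝ)
          linarith
        calc Real.exp (-(i:ℝ)) = Real.exp (-(1:ℝ)) ^ i := by
              rw [← Real.exp_nat_mul]
              ring_nf
          _ ≤ (1 / 2) ^ i := pow_le_pow_left₀ (Real.exp_pos _).le h6 i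
      have h6 : Real.exp (-2) ≤ 1 / 4 := by
        have h7 : Real.exp (-(1:ℝ)) ≤ 1 / 2 := by
          rw [Real.exp_neg, ← one_div]
          apply one_div_le_one_div_of_le (by norm_num)
          have := Real.add_one_le_exp (1 : ℝ)
          linarith
        calc Real.exp (-2) = Real.exp (-(1:ℝ)) * Real.exp (-(1:ℝ)) := by
              rw [← Real.exp_add]
              norm_num
          _ ≤ (1 / 2) * (1 / 2) := mul_le_mul h7 h7 (Real.exp_pos _).le (by norm_num)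
          _ = 1 / 4 := by norm_num
      have h7 : Real.exp (-(Rs:ℝ)) * Real.exp (-(i:ℝ)) * Real.exp (-2) ≤
          Real.exp (-(Rs:ℝ)) * (1 / 2) ^ i * (1 / 4) :=
        mul_le_mul (mul_le_mul_of_nonneg_left h5 (Real.exp_pos _).le) h6 (Real.exp_pos _).le
          (by positivity)
      linarith
    have hq : Real.exp (-(Rs:ℝ)) * (1 / 2) ^ i ≤ 1 := by
      refine mul_le_one₀ (Real.exp_le_one_iff.2 (by simp)) (by positivity) ?_
      exact pow_le_one₀ (by norm_num) (by norm_num)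
    have hq0 : 0 ≤ Real.exp (-(Rs:ℝ)) * (1 / 2) ^ i := by positivity
    refine (nk_nr hR (by push_cast; linarith) (by linarith)).mono ?_
    linarith
  refine (nr_prod _ _ _ h3).mono ?_
  rw [← mul_sum, ← mul_sum]
  have h4 : ∑ i ∈ Ico 0 J, ((1:ℝ) / 2) ^ i ≤ 2 := by
    rw [← Finset.range_eq_Ico]
    exact sum_geometric_two_le J
  have h5 : 0 ≤ Real.exp (-(Rs:ℝ)) := (Real.exp_pos _).le
  nlinarith

/-! ### the small primes -/

lemma Ph_prod (z : ℕ) (δ u : ℝ) : Ph z δ (pt (Sm z) u) =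
    ‖∏ p ∈ Sm z, (1 - (p:ℂ) ^ (-(1 / 2 + δ + u * I : ℂ)))‖ := by
  unfold Ph
  rw [norm_prod, ← Finset.prod_coe_sort (Sm z) (fun p : ℕ => ‖1 - (p:ℂ) ^ (-(1 / 2 + δ + u * I : ℂ))‖)]
  refine prod_congr rfl fun p _ => ?_
  have hp : (p:ℕ).Prime := (mem_filter.1 p.2).2
  have h1 := four_pt p hp.ne_zero (1 / 2 + δ) u
  push_cast at h1
  rw [h1]

lemma E0_nonneg (α : ℝ) (P : Finset ℕ) : 0 ≤ E0 α P :=
  prod_nonneg fun _ _ => integral_nonneg fun _ => (Real.exp_pos _).le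

/-! ### the theorem -/

lemma half_pow_le (K : ℕ) : (1 / 2 : ℝ) ^ K ≤ Real.exp (-((K:ℝ) / 2)) := by
  have h1 : (1 / 2 : ℝ) ≤ Real.exp (-(1 / 2)) := by
    have := Real.one_sub_le_exp_neg (1 / 2 : ℝ)
    linarith
  calc (1 / 2 : ℝ) ^ K ≤ Real.exp (-(1 / 2)) ^ K := pow_le_pow_left₀ (by norm_num) h1 K
    _ = Real.exp (-((K:ℝ) / 2)) := by
      rw [← Real.exp_nat_mul]
      ring_nf

/-- the identity -/
lemma ident {α Z N1 Pd ρ2 L P0 X2 Y2 B G E V c7 r3 r4 ρ5 ρ6 r7 : ℝ} (hN1 : 0 < N1) (hPd : 0 < Pd)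
    (hρ2 : 0 < ρ2) (hP0 : 0 < P0) (hX : 0 < X2) (hY : 0 < Y2) (hB : 0 < B) (hG : 0 < G)
    (hE : 0 < E) (hV : 0 < V)
    (hZ : Z = N1 * Pd⁻¹ * ρ2⁻¹ * (Real.exp L)⁻¹)
    (h3 : r3 = Pd ^ (-(2 * α)) / P0 ^ (-(2 * α)))
    (h4 : r4 = Real.exp (-(2 * α * L)) * (X2 ^ 2)⁻¹ * (Y2 ^ 2)⁻¹)
    (h5 : ρ5 = B / X2) (h6 : ρ6 = G / Y2) (h7 : r7 = c7 * (E * V)) :
    c7 * Z ^ (2 * α) = (N1 ^ (2 * α) * (ρ2 ^ (2 * α))⁻¹ * r3 * r4 * (ρ5 ^ 2)⁻¹ * (ρ6 ^ 2)⁻¹ * r7) *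
      (P0 ^ (-(2 * α)) / E * (B ^ 2 / V * G ^ 2)) := by
  have hP : (0:ℝ) < P0 ^ (-(2 * α)) := Real.rpow_pos_of_pos hP0 _
  have e1 : Z ^ (2 * α) = N1 ^ (2 * α) * Pd ^ (-(2 * α)) * (ρ2 ^ (2 * α))⁻¹ *
      Real.exp (-(2 * α * L)) := by
    rw [hZ, Real.mul_rpow (by positivity) (by positivity), Real.mul_rpow (by positivity)
      (by positivity), Real.mul_rpow hN1.le (by positivity), Real.inv_rpow hPd.le,
      Real.inv_rpow hρ2.le, Real.inv_rpow (Real.exp_pos _).le, Real.rpow_neg hPd.le,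
      ← Real.exp_mul, Real.exp_neg]
    congr 3
    ring
  have hρ2' : (0:ℝ) < ρ2 ^ (2 * α) := Real.rpow_pos_of_pos hρ2 _
  rw [e1, h3, h4, h5, h6, h7]
  field_simp

theorem main (hI : S_INV) (hN : S_NRM) : S_CL := by
  intro A α hα hαA η hη
  set κ : ℝ := min η 1 / 2 with hκ
  have hκ0 : 0 < κ := by
    rw [hκ]
    have : 0 < min η 1 := lt_min hη one_pos
    linarith
  have hκ1 : κ ≤ 1 / 2 := by
    rw [hκ]
    have := min_le_right η 1
    linarith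
  have hκη : 2 * κ ≤ η := by
    rw [hκ]
    have := min_le_left η 1
    linarith
  set τ : ℝ := κ / (112 * (α + 1)) with hτ
  have hτ0 : 0 < τ := by positivity
  have hτα : 112 * (τ * α) + 112 * τ = κ := by
    rw [hτ]
    field_simp
  have hτα0 : 0 < τ * α := by positivity
  have hτ2 : τ ≤ 1 / 2 := by linarith
  obtain ⟨T, hT⟩ : ∃ T : ℕ, Real.exp (-(T:ℝ)) ≤ τ := by
    obtain ⟨T, hT⟩ := exists_nat_ge (-(Real.log τ))
    refine ⟨T, ?_⟩
    calc Real.exp (-(T:ℝ)) ≤ Real.exp (Real.log τ) := Real.exp_le_exp.2 (by linarith)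
      _ = τ := Real.exp_log hτ0
  obtain ⟨zN, hzN⟩ := hN α hα τ hτ0
  obtain ⟨z1, hz1⟩ := exists_nat_ge (1 / τ ^ 2 + 1)
  refine ⟨max (max 1000 zN) z1, fun z hz => ?_⟩
  have hz1000 : 1000 ≤ z := (le_max_left _ _).trans ((le_max_left _ _).trans hz)
  have hzN' : zN ≤ z := (le_max_right _ _).trans ((le_max_left _ _).trans hz)
  have hz1' : z1 ≤ z := (le_max_right _ _).trans hz
  have htail : 1 / Real.sqrt ((z:ℝ) - 1) ≤ τ := by
    have h1 : 1 / τ ^ 2 ≤ (z:ℝ) - 1 := by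
      have : (z1:ℝ) ≤ z := by exact_mod_cast hz1'
      linarith
    have h2 : 1 / τ ≤ Real.sqrt ((z:ℝ) - 1) := by
      apply Real.le_sqrt_of_sq_le
      rw [div_pow, one_pow]
      exact h1
    rw [div_le_comm₀ (lt_of_lt_of_le (by positivity) h2) hτ0]
    exact h2
  obtain ⟨x0, δN, hδN0, hNz⟩ := hzN z hzN'
  obtain ⟨δ2, hδ20, hδ2⟩ := Ph_near α z hτ0
  refine ⟨T, x0, min (min δN δ2) (1 / 16), τ, 9 * α + 8 + 2 * T, by positivity,
    min_le_right _ _, hτ0, by positivity, ?_⟩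
  intro δ hδ0 hδ Rs J K Kq y hzy hJ hRs hx0 u a v ha hv hK hKq hG1 hEz
  have hδN : δ ≤ δN := hδ.trans ((min_le_left _ _).trans (min_le_left _ _))
  have hδ2' : δ ≤ δ2 := hδ.trans ((min_le_left _ _).trans (min_le_right _ _))
  have hy1 : 1 ≤ y := by
    have : (1000:ℝ) ≤ z := by exact_mod_cast hz1000
    linarith
  have ha0 : 0 ≤ a := (norm_nonneg _).trans ha
  have hv0 : 0 ≤ v := le_trans (sum_nonneg fun p _ => by positivity) hv
  have hT0 : (0:ℝ) ≤ T := Nat.cast_nonneg T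
  set s : ℂ := 1 / 2 + δ + u * I with hs
  -- the product over the primes
  obtain ⟨L, hL1, hL2, hL3⟩ := logF (u := u) hδ0.le hz1000 y
  rw [← hs] at hL1 hL2 hL3
  rw [ec_xc] at ha
  set x : ℂ := ∑ p ∈ PP z y, (p:ℂ) ^ (-s) with hx
  set D2 : ℂ := ∑ p ∈ PP z y, (1 / 2 : ℂ) * ((p:ℂ) ^ (-s)) ^ 2 with hD2
  have hxre : |x.re| ≤ a := (Complex.abs_re_le_norm x).trans ha
  -- the mollifier
  have hM : Nr (2 * τ) (‖ec s (MB z y K)‖ / ‖∏ p ∈ PP z y, (1 - (p:ℂ) ^ (-s))‖) := by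
    have h1 := hI z y K s a v hz1000 (by rw [hs, pt_re]; linarith) ha hv
    refine nr_of_rel hτ2 ?_ (h1.trans ?_)
    · rw [← norm_pos_iff, hL1]
      exact Real.exp_pos _
    · rw [hL1]
      have h2 : -a - v ≤ L := by
        have := (abs_le.1 hxre).2
        linarith
      calc (1 / 2) ^ K * Real.exp (2 * a + 3 * v)
          ≤ Real.exp (-((K:ℝ) / 2)) * Real.exp (2 * a + 3 * v) :=
            mul_le_mul_of_nonneg_right (half_pow_le K) (Real.exp_pos _).le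
        _ ≤ Real.exp (-(T:ℝ)) * Real.exp L := by
            rw [← Real.exp_add, ← Real.exp_add]
            refine Real.exp_le_exp.2 ?_
            have h3 : (8 + 2 * (T:ℝ)) * (a + v + 1) ≤ K := by
              refine le_trans (mul_le_mul_of_nonneg_right ?_ (by positivity)) hK
              linarith
            have h4 : 0 ≤ (T:ℝ) * (a + v) := by positivity
            nlinarith
        _ ≤ τ * Real.exp L := mul_le_mul_of_nonneg_right hT (Real.exp_pos _).le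
  -- zeta
  have hZ1 : Nr (2 * τ) (‖riemannZeta s‖ * ‖∏ p ∈ Sm z, (1 - (p:ℂ) ^ (-s))‖ * ‖ec s (MB z y K)‖) := by
    rw [← norm_mul, ← norm_mul]
    exact nr_of_norm hτ2 hEz
  rw [hL1] at hM
  have hPd := Ph_prod z δ u
  rw [← hs] at hPd
  rw [← hPd] at hZ1
  set Pd : ℝ := Ph z δ (pt (Sm z) u) with hPdd
  set P0 : ℝ := Ph z 0 (pt (Sm z) u) with hP0d
  have hPd0 : 0 < Pd := Ph_pos z hδ0.le _
  have hP00 : 0 < P0 := Ph_pos z le_rfl _
  have hr3 : Nr (2 * τ) (Pd ^ (-(2 * α)) / P0 ^ (-(2 * α))) := by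
    have h1 := hδ2 δ hδ0.le hδ2' (pt (Sm z) u)
    rw [← hPdd, ← hP0d] at h1
    have h2 : (0:ℝ) < P0 ^ (-(2 * α)) := Real.rpow_pos_of_pos hP00 _
    refine nr_of_abs hτ2 ?_
    have h3 : Pd ^ (-(2 * α)) / P0 ^ (-(2 * α)) - 1 =
        (Pd ^ (-(2 * α)) - P0 ^ (-(2 * α))) / P0 ^ (-(2 * α)) := by field_simp
    rw [h3, abs_div, abs_of_pos h2, div_le_iff₀ h2]
    exact h1
  have hr4 : Nr (2 * α * τ) (Real.exp (-(2 * α * L)) * (Real.exp (α * x.re) ^ 2)⁻¹ *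
      (Real.exp (α * D2.re) ^ 2)⁻¹) := by
    have h1 : Real.exp (-(2 * α * L)) * (Real.exp (α * x.re) ^ 2)⁻¹ *
      (Real.exp (α * D2.re) ^ 2)⁻¹ = Real.exp (-(2 * α * (L + x.re + D2.re))) := by
      rw [← Real.exp_nat_mul, ← Real.exp_nat_mul, ← Real.exp_neg, ← Real.exp_neg, ← Real.exp_add,
        ← Real.exp_add]
      congr 1
      push_cast
      ring
    rw [h1]
    obtain ⟨h2, h3⟩ := abs_le.1 (hL2.trans htail)
    constructor
    · refine Real.exp_le_exp.2 ?_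
      nlinarith
    · refine Real.exp_le_exp.2 ?_
      nlinarith
  have hr5 := blocks (u := u) hα hαA (by omega : 144 ≤ z) hy1 hJ hG1
  rw [← hs, ec_xc, ← hx] at hr5
  have hr6 : Nr (2 * τ) (‖ec s (GQ α z y Kq)‖ / Real.exp (α * D2.re)) := by
    rw [ec_GQ, ← hD2]
    have h1 : ‖(α:ℂ) * D2‖ ≤ α * (v / 2) := by
      rw [norm_mul, Complex.norm_real, Real.norm_of_nonneg hα.le]
      exact mul_le_mul_of_nonneg_left (D2_le (u := u) hδ0.le hz1000 hv) hα.le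
    have h2 : (9 * α + 8 + 2 * (T:ℝ)) * (v + 1) ≤ Kq := hKq
    have h3 : 0 ≤ α * v := by positivity
    have h4 : 0 ≤ (T:ℝ) * v := by positivity
    have h5 : 2 * Real.exp (9 * (α * (v / 2)) - 2 * ((Kq:ℝ) + 1)) ≤ τ := by
      have h6 : Real.exp (9 * (α * (v / 2)) - 2 * ((Kq:ℝ) + 1)) ≤
          Real.exp (-1) * Real.exp (-(T:ℝ)) := by
        rw [← Real.exp_add]
        refine Real.exp_le_exp.2 ?_
        nlinarith
      have h7 : Real.exp (-1) ≤ 1 / 2 := by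
        rw [Real.exp_neg, ← one_div]
        apply one_div_le_one_div_of_le (by norm_num)
        have := Real.add_one_le_exp (1 : ℝ)
        linarith
      have h8 : Real.exp (-1) * Real.exp (-(T:ℝ)) ≤ 1 / 2 * τ :=
        mul_le_mul h7 hT (Real.exp_pos _).le (by norm_num)
      linarith
    refine (nk_nr h1 ?_ (h5.trans hτ2)).mono (by linarith)
    nlinarith
  have hr7 : Nr (2 * τ) ((2 * δ) ^ (α ^ 2) / aa α *
      (E0 α (Sm z) * Real.exp (α ^ 2 * VB δ z y 0 J))) :=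
    nr_of_abs hτ2 (hNz δ hδ0 hδN y J hzy hJ hx0)
  -- positivity
  have hE : 0 < E0 α (Sm z) := by
    refine lt_of_le_of_ne (E0_nonneg _ _) fun h => ?_
    have h1 := hr7.pos
    rw [← h, zero_mul, mul_zero] at h1
    exact lt_irrefl _ h1
  have hB0 : 0 < ‖ec s (BP (fun _ => α) z y 0 J Rs)‖ := by
    have h1 := hr5.pos
    rw [div_pos_iff_of_pos_right (Real.exp_pos _)] at h1
    exact h1
  have hG0 : 0 < ‖ec s (GQ α z y Kq)‖ := by
    have h1 := hr6.pos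
    rw [div_pos_iff_of_pos_right (Real.exp_pos _)] at h1
    exact h1
  have hMp : 0 < ‖ec s (MB z y K)‖ := by
    have h1 := hM.pos
    rw [div_pos_iff_of_pos_right (Real.exp_pos _)] at h1
    exact h1
  have hZeq : ‖riemannZeta s‖ = (‖riemannZeta s‖ * Pd * ‖ec s (MB z y K)‖) * Pd⁻¹ *
      (‖ec s (MB z y K)‖ / Real.exp L)⁻¹ * (Real.exp L)⁻¹ := by
    have : Real.exp L ≠ 0 := (Real.exp_pos _).ne'
    field_simp
  have hid := ident (α := α) (c7 := (2 * δ) ^ (α ^ 2) / aa α) hZ1.pos hPd0 hM.pos hP00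
    (Real.exp_pos (α * x.re)) (Real.exp_pos (α * D2.re)) hB0 hG0 hE
    (Real.exp_pos (α ^ 2 * VB δ z y 0 J)) hZeq rfl rfl rfl rfl rfl
  have hmz : mz α z u = P0 ^ (-(2 * α)) / E0 α (Sm z) := by
    unfold mz
    rw [M0_Ph]
  have hZn : Zn α δ u = (2 * δ) ^ (α ^ 2) / aa α * ‖riemannZeta s‖ ^ (2 * α) := rfl
  have hW : WP α z Rs y J δ u = ‖ec s (BP (fun _ => α) z y 0 J Rs)‖ ^ 2 /
      Real.exp (α ^ 2 * VB δ z y 0 J) := rfl
  rw [hZn, hmz, hW, hid]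
  set Q : ℝ := P0 ^ (-(2 * α)) / E0 α (Sm z) * (‖ec s (BP (fun _ => α) z y 0 J Rs)‖ ^ 2 /
      Real.exp (α ^ 2 * VB δ z y 0 J) * ‖ec s (GQ α z y Kq)‖ ^ 2) with hQ
  have hQ0 : 0 ≤ Q := by
    have : (0:ℝ) < P0 ^ (-(2 * α)) := Real.rpow_pos_of_pos hP00 _
    positivity
  have hall := (((((((hZ1.rpow (b := 2 * α) (by positivity)).mul
    (hM.rpow (b := 2 * α) (by positivity)).inv).mul hr3).mul hr4).mul hr5.sq.inv).mul
      hr6.sq.inv).mul hr7)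
  have hRsT : Real.exp (-(Rs:ℝ)) ≤ τ := by
    refine le_trans (Real.exp_le_exp.2 ?_) hT
    have : (T:ℝ) ≤ Rs := by exact_mod_cast hRs
    linarith
  have hsum : 2 * α * (2 * τ) + 2 * α * (2 * τ) + 2 * τ + 2 * α * τ +
      2 * (8 * Real.exp (-(Rs:ℝ))) + 2 * (2 * τ) + 2 * τ ≤ κ := by
    nlinarith
  have hfin := (hall.mono hsum).abs hκ0.le hκ1
  rw [← sub_one_mul, abs_mul, abs_of_nonneg hQ0]
  exact mul_le_mul_of_nonneg_right (hfin.trans hκη) hQ0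

end Pool.Agent.N748.HM.CL
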