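import Pool.Agent.N748.HM.Stm
import Pool.Agent.N748.GC.WIN2

set_option autoImplicit false

/-!
# HM/CORE3 (helper861 for helper748): moments of all orders in almost all windows
-/

namespace Pool.Agent.N748.HM.CORE3

open Finset Filter MeasureTheory MonoidAlgebra Topology Complex
open Pool.Agent.N748.GC Pool.Agent.N748.GC.WIN Pool.Agent.N748.GC.WIN2

/-! ### continuity -/

lemma ec_of (s : ℂ) (n : ℕ) : ec s (MonoidAlgebra.of ℂ ℕ n) = (n:ℂ) ^ (-s) := by
  unfold ec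
  rw [MonoidAlgebra.lift_of]
  rfl

lemma ec_cont' {s : ℂ} (hs : 0 < s.re) (D : PC) : Continuous fun u : ℝ => ec (s + u * I) D := by
  induction D using MonoidAlgebra.induction_on with
  | of n =>
    simp_rw [ec_of]
    by_cases h0 : (n:ℂ) = 0
    · have : (fun u : ℝ => (n:ℂ) ^ (-(s + u * I))) = fun _ => 0 := by
        funext u
        rw [h0, Complex.zero_cpow]
        intro h
        have := congrArg Complex.re h
        simp at this
        linarith
      rw [this]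
      exact continuous_const
    · exact Continuous.const_cpow (by fun_prop) (Or.inl h0)
  | add f g hf hg =>
    simp_rw [map_add]
    exact hf.add hg
  | smul r f hf =>
    simp_rw [map_smul]
    exact hf.const_smul r

lemma re_pos {δ : ℝ} (hδ : 0 < δ) : 0 < ((1 / 2 + δ : ℂ)).re := by
  have : ((1 / 2 + δ : ℂ)).re = 1 / 2 + δ := by simp
  rw [this]
  linarith

lemma WP_cont (α : ℝ) (z Rs : ℕ) (y : ℝ) (J : ℕ) {δ : ℝ} (hδ : 0 < δ) : Continuous (WP α z Rs y J δ) := by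
  unfold WP
  exact ((ec_cont' (re_pos hδ) _).norm.pow 2).div_const _

lemma WP_nonneg (α : ℝ) (z Rs : ℕ) (y : ℝ) (J : ℕ) (δ u : ℝ) : 0 ≤ WP α z Rs y J δ u := by
  unfold WP
  positivity

lemma mz_nonneg (α : ℝ) (z : ℕ) (u : ℝ) : 0 ≤ mz α z u := by
  unfold mz M0
  exact div_nonneg (Real.exp_pos _).le (E0_pos α z).le

lemma M0_nonneg (α : ℝ) (z : ℕ) (x : UnitAddTorus (Sm z)) : 0 ≤ M0 α (Sm z) x := by
  unfold M0
  exact div_nonneg (Real.exp_pos _).le (E0_pos α z).le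

/-! ### windows -/

/-- Markov's inequality -/
lemma markov {G : ℝ → ℝ} (hG : Continuous G) (h0 : ∀ t, 0 ≤ G t) {a b η B : ℝ} (hab : a ≤ b)
    (hη : 0 < η) (hB : ∫ t in a..b, G t ≤ B) :
    volume {t : ℝ | a ≤ t ∧ t ≤ b ∧ η ≤ G t} ≤ ENNReal.ofReal (B / η) := by
  have hS : {t : ℝ | a ≤ t ∧ t ≤ b ∧ η ≤ G t} = {t | η ≤ G t} ∩ Set.Icc a b := by
    ext t
    constructor
    · rintro ⟨h1, h2, h3⟩
      exact ⟨h3, h1, h2⟩
    · rintro ⟨h3, h1, h2⟩
      exact ⟨h1, h2, h3⟩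
  have hm : MeasurableSet {t | η ≤ G t} := measurableSet_le measurable_const hG.measurable
  rw [hS]
  have hfin : volume ({t | η ≤ G t} ∩ Set.Icc a b) ≠ ⊤ :=
    ((measure_mono Set.inter_subset_right).trans_lt (by rw [Real.volume_Icc]; exact ENNReal.ofReal_lt_top)).ne
  have hB0 : 0 ≤ B := (intervalIntegral.integral_nonneg hab fun t _ => h0 t).trans hB
  rw [← ENNReal.toReal_le_toReal hfin ENNReal.ofReal_ne_top, ENNReal.toReal_ofReal (div_nonneg hB0 hη.le),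
    le_div_iff₀ hη, mul_comm]
  have h1 := mul_meas_ge_le_integral_of_nonneg (μ := volume.restrict (Set.Icc a b)) (f := G)
    (Eventually.of_forall fun t => h0 t) (hG.integrableOn_Icc) η
  rw [Measure.real, Measure.restrict_apply hm, integral_Icc_eq_integral_Ioc,
    ← intervalIntegral.integral_of_le hab] at h1
  exact h1.trans hB

/-- comparison of the means over a window -/
lemma cmp {Z w h : ℝ → ℝ} (hZ : Continuous Z) (hw : Continuous w) (hh : Continuous h) {t H : ℝ}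
    (hH : 0 < H) (hle : ∀ u, t ≤ u → u ≤ t + H → |Z u - w u| ≤ h u) :
    |(1 / H) * (∫ u in t..(t + H), Z u) - 1| ≤
      |(1 / H) * (∫ u in t..(t + H), w u) - 1| + (1 / H) * ∫ x in (0:ℝ)..H, h (t + x) := by
  have e : (1 / H) * (∫ u in t..(t + H), Z u) - 1 =
      ((1 / H) * (∫ u in t..(t + H), w u) - 1) + (1 / H) * ∫ u in t..(t + H), (Z u - w u) := by
    rw [intervalIntegral.integral_sub (hZ.intervalIntegrable _ _) (hw.intervalIntegrable _ _)]
    ring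
  rw [e]
  refine (abs_add_le _ _).trans (add_le_add le_rfl ?_)
  rw [abs_mul, abs_of_pos (by positivity : (0:ℝ) < 1 / H)]
  refine mul_le_mul_of_nonneg_left ?_ (by positivity)
  have h1 : ∫ x in (0:ℝ)..H, h (t + x) = ∫ u in t..(t + H), h u := by
    rw [intervalIntegral.integral_comp_add_left, add_zero]
  rw [h1]
  refine (intervalIntegral.abs_integral_le_integral_abs (by linarith)).trans ?_
  refine intervalIntegral.integral_mono_on (by linarith) ((hZ.sub hw).abs.intervalIntegrable _ _)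
    (hh.intervalIntegrable _ _) fun u hu => hle u hu.1 hu.2

/-- integrals over windows -/
lemma convH {h : ℝ → ℝ} (hc : Continuous h) (h0 : ∀ u, 0 ≤ h u) {a b H k : ℝ} (hab : a ≤ b) (hH : 0 < H)
    (hk : k * H = 1) : ∫ t in a..b, k * ∫ x in (0:ℝ)..H, h (t + x) ≤ ∫ u in a..(b + H), h u := by
  have hk0 : 0 < k := by
    by_contra hcon
    push Not at hcon
    nlinarith
  have hi : IntegrableOn (Function.uncurry fun t x : ℝ => h (t + x)) (Set.uIoc a b ×ˢ Set.uIoc 0 H)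
      (volume.prod volume) := by
    have hcc : Continuous (Function.uncurry fun t x : ℝ => h (t + x)) := by
      show Continuous fun q : ℝ × ℝ => h (q.1 + q.2)
      fun_prop
    have hK : IsCompact (Set.uIcc a b ×ˢ Set.uIcc (0:ℝ) H) := isCompact_uIcc.prod isCompact_uIcc
    exact (hcc.continuousOn.integrableOn_compact hK).mono_set
      (Set.prod_mono Set.uIoc_subset_uIcc Set.uIoc_subset_uIcc)
  rw [intervalIntegral.integral_const_mul, intervalIntegral_intervalIntegral_swap hi]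
  have h1 : ∀ x ∈ Set.Icc (0:ℝ) H, ∫ t in a..b, h (t + x) ≤ ∫ u in a..(b + H), h u := by
    intro x hx
    rw [intervalIntegral.integral_comp_add_right]
    refine intervalIntegral.integral_mono_interval (by linarith [hx.1]) (by linarith) (by linarith [hx.2])
      (Eventually.of_forall h0) (hc.intervalIntegrable _ _)
  have hcx : Continuous fun x : ℝ => ∫ t in a..b, h (t + x) :=
    intervalIntegral.continuous_parametric_intervalIntegral_of_continuous' (by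
      show Continuous fun q : ℝ × ℝ => h (q.2 + q.1)
      fun_prop) a b
  calc k * ∫ x in (0:ℝ)..H, ∫ t in a..b, h (t + x) ≤ k * ∫ x in (0:ℝ)..H, ∫ u in a..(b + H), h u :=
        mul_le_mul_of_nonneg_left
          (intervalIntegral.integral_mono_on hH.le (hcx.intervalIntegrable _ _) intervalIntegrable_const h1) hk0.le
    _ = (k * H) * ∫ u in a..(b + H), h u := by
        rw [intervalIntegral.integral_const, smul_eq_mul, sub_zero]; ring
    _ = _ := by rw [hk, one_mul]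

lemma hwin_cont {g : ℝ → ℝ} (hg : Continuous g) (k H : ℝ) :
    Continuous fun t : ℝ => k * ∫ x in (0:ℝ)..H, g (t + x) :=
  continuous_const.mul (intervalIntegral.continuous_parametric_intervalIntegral_of_continuous' (by
    show Continuous fun q : ℝ × ℝ => g (q.1 + q.2)
    fun_prop) _ _)

/-- the mean over long windows from the short windows -/
theorem mean_bound3 {Z : ℝ → ℝ} (hZ : Continuous Z) (h0 : ∀ u, 0 ≤ Z u) {X1 X H H0 E : ℝ} (hH0 : 0 < H0)
    (h01 : H0 ≤ H) (hX1 : 0 ≤ X1) (hX : X1 ≤ X) (hHX : H ≤ X)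
    (hE : ∫ s in X1..(2 * X), |(1 / H0) * (∫ u in s..(s + H0), Z u) - 1| ≤ E) :
    ∫ t in X1..X, |(1 / H) * (∫ u in t..(t + H), Z u) - 1| ≤ 2 * E + 2 * (H0 / H) * X := by
  have hH : 0 < H := by linarith
  have hX0 : 0 < X := by linarith
  set n : ℕ := ⌊H / H0⌋₊ with hn
  have hn1 : (n:ℝ) * H0 ≤ H := by
    have := Nat.floor_le (div_nonneg hH.le hH0.le)
    rw [← hn, le_div_iff₀ hH0] at this
    exact this
  set D : ℝ → ℝ := fun s => |(1 / H0) * (∫ u in s..(s + H0), Z u) - 1| with hD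
  have hDc : Continuous D := ((continuous_const.mul (prim_cont hZ H0)).sub continuous_const).abs
  have hD0 : ∀ s, 0 ≤ D s := fun s => abs_nonneg _
  have hE0 : 0 ≤ E := (intervalIntegral.integral_nonneg (by linarith) fun s _ => hD0 s).trans hE
  have hDk : ∀ k : ℕ, Continuous fun t : ℝ => D (t + k * H0) := fun k =>
    hDc.comp (continuous_id.add continuous_const)
  have h1 : ∫ t in X1..X, |(1 / H) * (∫ u in t..(t + H), Z u) - 1| ≤
      ∫ t in X1..X, (H0 / H) * (∑ k ∈ range (n + 1), D (t + k * H0) + 2) := by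
    refine intervalIntegral.integral_mono_on hX ?_ ?_ fun t _ => pt_bound hZ h0 hH0 h01 t
    · exact (((continuous_const.mul (prim_cont hZ H)).sub continuous_const).abs).intervalIntegrable
        _ _
    · exact (continuous_const.mul ((continuous_finsetSum _ fun k _ => hDk k).add
        continuous_const)).intervalIntegrable _ _
  refine h1.trans ?_
  rw [intervalIntegral.integral_const_mul, intervalIntegral.integral_add
    ((continuous_finsetSum _ fun k _ => hDk k).intervalIntegrable _ _)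
    (continuous_const.intervalIntegrable _ _), intervalIntegral.integral_finsetSum
    fun k _ => (hDk k).intervalIntegrable _ _, intervalIntegral.integral_const, smul_eq_mul]
  have h3 : ∀ k ∈ range (n + 1), ∫ t in X1..X, D (t + k * H0) ≤ E := by
    intro k hk
    have hk1 : (k:ℝ) ≤ n := by exact_mod_cast Nat.lt_succ_iff.1 (mem_range.1 hk)
    have hk2 : (k:ℝ) * H0 ≤ H := (mul_le_mul_of_nonneg_right hk1 hH0.le).trans hn1
    have hk0 : 0 ≤ (k:ℝ) * H0 := by positivity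
    have h4 := intervalIntegral.integral_comp_add_right (a := X1) (b := X) D ((k:ℝ) * H0)
    rw [h4]
    refine le_trans ?_ hE
    exact intervalIntegral.integral_mono_interval (c := X1) (d := 2 * X) (by linarith) (by linarith)
      (by linarith) (Eventually.of_forall fun s => hD0 s) (hDc.intervalIntegrable _ _)
  have h5 : ∑ k ∈ range (n + 1), ∫ t in X1..X, D (t + k * H0) ≤ (n + 1) * E := by
    calc _ ≤ ∑ k ∈ range (n + 1), E := sum_le_sum h3
      _ = (n + 1) * E := by rw [sum_const, card_range, nsmul_eq_mul]; push_cast; ring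
  have h6 : (H0 / H) * (n + 1) ≤ 2 := by
    rw [div_mul_eq_mul_div, div_le_iff₀ hH]
    nlinarith
  have h7 : 0 ≤ H0 / H := by positivity
  calc (H0 / H) * (∑ k ∈ range (n + 1), (∫ t in X1..X, D (t + k * H0)) + (X - X1) * 2)
      ≤ (H0 / H) * ((n + 1) * E + X * 2) :=
        mul_le_mul_of_nonneg_left (add_le_add h5 (by linarith)) h7
    _ = ((H0 / H) * (n + 1)) * E + 2 * (H0 / H) * X := by ring
    _ ≤ 2 * E + 2 * (H0 / H) * X := by
      have := mul_le_mul_of_nonneg_right h6 hE0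
      linarith

/-! ### the sizes -/

lemma SP_two {c : ℝ} {z Rs : ℕ} {y : ℝ} {J : ℕ} {X : ℝ} (h : SP c z Rs y J X) (hX : 0 ≤ X) :
    SP c z Rs y J (2 * X) where
  zz := h.zz
  zy := h.zy
  bJ := h.bJ
  bl := h.bl
  len := h.len.trans (Real.rpow_le_rpow (by linarith) (by linarith) (by norm_num))

lemma ev_Xl : ∀ᶠ X : ℝ in atTop, Xl (2 * X) ≤ X ^ ((9:ℝ) / 10) := by
  have h1 : ∀ᶠ X : ℝ in atTop, (6:ℝ) ≤ X ^ ((1:ℝ) / 8) :=
    (tendsto_rpow_atTop (by norm_num)).eventually_ge_atTop 6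
  filter_upwards [h1, eventually_ge_atTop (1:ℝ)] with X h2 h3
  have hX : 0 < X := by linarith
  unfold Xl
  have h4 : 2 * (2 * X + 1) ≤ X ^ ((9:ℝ) / 8) := by
    calc 2 * (2 * X + 1) ≤ 6 * X := by linarith
      _ ≤ X ^ ((1:ℝ) / 8) * X := by gcongr
      _ = X ^ ((9:ℝ) / 8) := by
          rw [show (9:ℝ) / 8 = 1 / 8 + 1 by norm_num, Real.rpow_add hX, Real.rpow_one]
  calc (2 * (2 * X + 1)) ^ ((4:ℝ) / 5) ≤ (X ^ ((9:ℝ) / 8)) ^ ((4:ℝ) / 5) :=
        Real.rpow_le_rpow (by positivity) h4 (by norm_num)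
    _ = X ^ ((9:ℝ) / 10) := by
        rw [← Real.rpow_mul hX.le]
        norm_num

lemma ev_small {ε : ℝ} (hε : 0 < ε) : ∀ᶠ X : ℝ in atTop, X ^ ((9:ℝ) / 10) + 1 ≤ ε * X := by
  have h1 : ∀ᶠ X : ℝ in atTop, 2 / ε ≤ X ^ ((1:ℝ) / 10) :=
    (tendsto_rpow_atTop (by norm_num)).eventually_ge_atTop _
  filter_upwards [h1, eventually_ge_atTop (1:ℝ)] with X h2 h3
  have hX : 0 < X := by linarith
  have h4 : 1 ≤ X ^ ((9:ℝ) / 10) := Real.one_le_rpow h3 (by norm_num)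
  have h5 : X = X ^ ((1:ℝ) / 10) * X ^ ((9:ℝ) / 10) := by
    rw [← Real.rpow_add hX]
    norm_num
  rw [div_le_iff₀ hε] at h2
  calc X ^ ((9:ℝ) / 10) + 1 ≤ 2 * X ^ ((9:ℝ) / 10) := by linarith
    _ ≤ (X ^ ((1:ℝ) / 10) * ε) * X ^ ((9:ℝ) / 10) := by gcongr
    _ = ε * (X ^ ((1:ℝ) / 10) * X ^ ((9:ℝ) / 10)) := by ring
    _ = ε * X := by rw [← h5]

lemma ev_log (D : ℝ) : ∀ᶠ X : ℝ in atTop, Real.log X ^ D ≤ X := by
  have h1 := (isLittleO_log_rpow_rpow_atTop D (zero_lt_one : (0:ℝ) < 1)).bound (zero_lt_one : (0:ℝ) < 1)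
  filter_upwards [h1, eventually_ge_atTop (1:ℝ)] with X h2 h3
  rw [Real.rpow_one, one_mul] at h2
  have h4 := le_abs_self (Real.log X ^ D)
  rw [← Real.norm_eq_abs] at h4
  refine (h4.trans h2).trans ?_
  rw [Real.norm_eq_abs, abs_of_nonneg (by linarith)]

lemma pow_small {s ε : ℝ} (hs : 0 < s) (hε : 0 < ε) : ∃ δ1 : ℝ, 0 < δ1 ∧ ∀ δ : ℝ, 0 < δ → δ ≤ δ1 →
    δ ^ s ≤ ε := by
  refine ⟨ε ^ (1 / s), Real.rpow_pos_of_pos hε _, fun δ h1 h2 => ?_⟩
  calc δ ^ s ≤ (ε ^ (1 / s)) ^ s := Real.rpow_le_rpow h1.le h2 hs.le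
    _ = ε := by
      rw [← Real.rpow_mul hε.le, one_div, inv_mul_cancel₀ hs.ne', Real.rpow_one]

/-- the final computation with the constants -/
lemma final {κ X ρ e η' ε' : ℝ} (hκ : 0 < κ) (hX : 0 < X) (hρ : ρ ≤ κ / 40) (he0 : 0 < e) (he1 : e ≤ 1)
    (he : e ≤ κ / 80) (hη : η' ≤ κ / 40) (hε' : ε' = κ / 40) :
    (2 * (ε' * (2 * X)) + 2 * ρ * X) +
      (η' * ((2 * X) * (1 + (e * 1 + e))) + 2 * ((2 * X) * (e * 1 + e))) ≤ κ / 2 * X := by
  subst hε'
  have h1 : η' * ((2 * X) * (1 + (e * 1 + e))) ≤ (κ / 40) * ((2 * X) * 3) := by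
    refine mul_le_mul hη ?_ (by positivity) (by positivity)
    nlinarith
  have h2 : 2 * ((2 * X) * (e * 1 + e)) ≤ 2 * ((2 * X) * (κ / 80 + κ / 80)) := by
    have : e * 1 + e ≤ κ / 80 + κ / 80 := by linarith
    gcongr
  have h3 : 2 * ρ * X ≤ 2 * (κ / 40) * X := by gcongr
  nlinarith

theorem main (hP : S_PRM) (hC : S_CL) (hA : S_AVG) (hO : S_ONE3) (hQ : S_SQ2) : S_CORE3 := by
  intro α hα θ hθ hθ1 D hθD ε hε η hη
  obtain ⟨c, hc, hP⟩ := hP
  obtain ⟨θ', hθ'1, hθ'2⟩ : ∃ θ' : ℝ, max 0 (α ^ 2 - 1) < θ' ∧ θ' < θ :=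
    exists_between (max_lt hθ hθ1)
  have hθ'0 : 0 < θ' := (le_max_left _ _).trans_lt hθ'1
  have hθ'3 : α ^ 2 - 1 < θ' := (le_max_right _ _).trans_lt hθ'1
  have hD : 0 < D := hθ.trans_le hθD
  obtain ⟨κ, hκd⟩ : ∃ κ : ℝ, κ = ε * η := ⟨_, rfl⟩
  have hκ : 0 < κ := by rw [hκd]; positivity
  obtain ⟨e, he0, he1, he2⟩ : ∃ e : ℝ, 0 < e ∧ e ≤ 1 ∧ e ≤ κ / 80 :=
    ⟨min 1 (κ / 80), lt_min one_pos (by positivity), min_le_left _ _, min_le_right _ _⟩
  obtain ⟨η', hη'0, hη'1, hη'2⟩ : ∃ e : ℝ, 0 < e ∧ e ≤ 1 ∧ e ≤ κ / 40 :=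
    ⟨min 1 (κ / 40), lt_min one_pos (by positivity), min_le_left _ _, min_le_right _ _⟩
  obtain ⟨z1, hC⟩ := hC ⌈α⌉₊ α hα (Nat.le_ceil α) η' hη'0
  obtain ⟨z2, hA⟩ := hA α hα c hc θ' hθ'0 hθ'3 (κ / 40) (by positivity)
  obtain ⟨z3, R3, hO⟩ := hO α hα c hc e he0
  obtain ⟨z4, R4, hQ⟩ := hQ α hα c hc e he0
  obtain ⟨z, hz1, hz2, hz3, hz4, hz5⟩ : ∃ z : ℕ, z1 ≤ z ∧ z2 ≤ z ∧ z3 ≤ z ∧ z4 ≤ z ∧ 1000 ≤ z :=
    ⟨z1 + z2 + z3 + z4 + 1000, by omega, by omega, by omega, by omega, by omega⟩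
  obtain ⟨R1, x1, δ1, η1, C, hδ1, hδ1', hη1, hC0, hC⟩ := hC z hz1
  obtain ⟨R2, lam2, δ2, hδ2, hδ2', hA⟩ := hA z hz2
  have hF : Continuous (fun q : Unit × UnitAddTorus (Sm z) => M0 α (Sm z) q.2) :=
    (M0_cont α z).comp continuous_snd
  have hO := hO z hz3 Unit (fun q => M0 α (Sm z) q.2) hF (fun q => M0_nonneg α z q.2) e he0
  have hQ := hQ z hz4 Unit (fun q => M0 α (Sm z) q.2) hF (fun q => M0_nonneg α z q.2) e he0
  obtain ⟨lam, δ3, hlam, hδ3, hδ3', hP⟩ := hP ⌈α⌉₊ D hD z hz5 (R1 + R2 + R3 + R4) (max x1 lam2) η1 C hη1 hC0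
  obtain ⟨δ4, hδ4, hpow1⟩ := pow_small (sub_pos.2 hθ'2) (show 0 < κ / 40 by positivity)
  obtain ⟨δ5, hδ5, hpow2⟩ := pow_small hD (show 0 < ε / 8 by positivity)
  obtain ⟨δ0, hδ0, g1, g2, g3, g4, g5⟩ : ∃ δ0 : ℝ, 0 < δ0 ∧ δ0 ≤ δ1 ∧ δ0 ≤ δ2 ∧ δ0 ≤ δ3 ∧ δ0 ≤ δ4 ∧ δ0 ≤ δ5 := by
    refine ⟨min δ1 (min δ2 (min δ3 (min δ4 δ5))),
      lt_min hδ1 (lt_min hδ2 (lt_min hδ3 (lt_min hδ4 hδ5))), ?_⟩
    simp
  refine ⟨lam, δ0, hlam, hδ0, g1.trans hδ1', ?_⟩
  have h2 : Tendsto (fun X : ℝ => 2 * X) atTop atTop := tendsto_id.const_mul_atTop two_pos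
  filter_upwards [h2.eventually hA, h2.eventually hO, h2.eventually hQ, hP, ev_Xl,
    ev_small (show 0 < ε / 8 by positivity), ev_small one_pos, ev_log D, eventually_ge_atTop (1:ℝ)] with
    X eA eO eQ eP eXl eS eS1 eL eX
  intro δ hδ hδle hlamδ H hH1 hH2
  have d1 : δ ≤ δ1 := hδle.trans g1
  have d2 : δ ≤ δ2 := hδle.trans g2
  have d3 : δ ≤ δ3 := hδle.trans g3
  have d4 := hpow1 δ hδ (hδle.trans g4)
  have d5 := hpow2 δ hδ (hδle.trans g5)
  have hδ16 : δ ≤ 1 / 16 := d1.trans hδ1'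
  obtain ⟨Rs, J, K, Kq, y, a, v, hR, hSP, hδX, hx0, -, hvs, hK, hKq, hKql, hbad⟩ := eP δ hδ d3 hlamδ
  have hX0 : 0 < X := by linarith
  have hSP2 : SP c z Rs y J (2 * X) := SP_two hSP hX0.le
  have hlog2 : Real.log X ≤ Real.log (2 * X) := Real.log_le_log hX0 (by linarith)
  -- the functions
  obtain ⟨w, hw⟩ : ∃ w : ℝ → ℝ, w = fun u => mz α z u * WP α z Rs y J δ u := ⟨_, rfl⟩
  obtain ⟨g, hg⟩ : ∃ g : ℝ → ℝ, g = fun u : ℝ => ‖ec (1 / 2 + δ + u * I) (GQ α z y Kq)‖ ^ 2 := ⟨_, rfl⟩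
  have hwc : Continuous w := by
    rw [hw]
    exact (mz_cont α z).mul (WP_cont α z Rs y J hδ)
  have hw0 : ∀ u, 0 ≤ w u := by
    intro u
    rw [hw]
    exact mul_nonneg (mz_nonneg α z u) (WP_nonneg α z Rs y J δ u)
  have hgc : Continuous g := by
    rw [hg]
    exact (ec_cont' (re_pos hδ) _).norm.pow 2
  have hg0 : ∀ u, 0 ≤ g u := by
    intro u
    rw [hg]
    positivity
  obtain ⟨h, hh⟩ : ∃ h : ℝ → ℝ, h = fun u => η' * w u + 2 * (w u * |g u - 1|) := ⟨_, rfl⟩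
  have hwg : Continuous fun u => w u * |g u - 1| := hwc.mul (hgc.sub continuous_const).abs
  have hhc : Continuous h := by
    rw [hh]
    exact (continuous_const.mul hwc).add (continuous_const.mul hwg)
  have hh0 : ∀ u, 0 ≤ h u := by
    intro u
    rw [hh]
    have := hw0 u
    positivity
  have hZc : Continuous (Zn α δ) := Zn_cont hα hδ hδ16
  -- the lengths
  obtain ⟨X1, hX1⟩ : ∃ X1 : ℝ, X1 = X ^ ((9:ℝ) / 10) + 1 := ⟨_, rfl⟩
  have hX10 : 0 ≤ X1 := by rw [hX1]; positivity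
  have hX1X : X1 ≤ X := by rw [hX1]; linarith
  have hXl : Xl (2 * X) ≤ X1 := by rw [hX1]; linarith
  have hH0 : 0 < δ ^ (-θ') := Real.rpow_pos_of_pos hδ _
  have hδ1' : δ ≤ 1 := by linarith
  have h01 : δ ^ (-θ') ≤ H := by
    refine le_trans ?_ hH1
    exact Real.rpow_le_rpow_of_exponent_ge hδ hδ1' (by linarith)
  have hH : 0 < H := hH0.trans_le h01
  have hHX : H ≤ X := by
    refine hH2.trans (le_trans ?_ eL)
    calc δ ^ (-D) = (1 / δ) ^ D := by
          rw [one_div, Real.inv_rpow hδ.le, Real.rpow_neg hδ.le]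
      _ ≤ Real.log X ^ D := Real.rpow_le_rpow (by positivity) hδX hD.le
  have hratio : δ ^ (-θ') / H ≤ κ / 40 := by
    refine le_trans ?_ d4
    rw [div_le_iff₀ hH]
    calc δ ^ (-θ') = δ ^ (θ - θ') * δ ^ (-θ) := by
          rw [← Real.rpow_add hδ]; congr 1; ring
      _ ≤ δ ^ (θ - θ') * H :=
          mul_le_mul_of_nonneg_left hH1 (Real.rpow_nonneg hδ.le _)
  -- the mean values
  have m1 : ∫ t in Xl (2 * X)..(2 * X), w t ≤ (2 * X) * (1 + (e * 1 + e)) := by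
    have h3 := eO Rs J y (by omega) hSP2 δ hδ.le () 0
    simp only [add_zero, M0_int] at h3
    have h4 := (abs_le.1 h3).2
    have h5 : ∫ t in Xl (2 * X)..(2 * X), w t =
        ∫ t in Xl (2 * X)..(2 * X), M0 α (Sm z) (pt (Sm z) t) * WP α z Rs y J δ t := by
      rw [hw]
      rfl
    rw [h5]
    linarith
  have m2 : ∫ t in Xl (2 * X)..(2 * X), w t * |g t - 1| ≤ (2 * X) * (e * 1 + e) := by
    have h3 := eQ Rs J Kq y (by omega) hSP2 (by linarith) δ hδ.le () 0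
    simp only [add_zero, M0_int, Complex.ofReal_zero] at h3
    have h5 : ∫ t in Xl (2 * X)..(2 * X), w t * |g t - 1| =
        ∫ t in Xl (2 * X)..(2 * X), M0 α (Sm z) (pt (Sm z) t) * (WP α z Rs y J δ t *
          |‖ec (1 / 2 + δ + t * I) (GQ α z y Kq)‖ ^ 2 - 1|) := by
      rw [hw, hg]
      refine intervalIntegral.integral_congr fun t _ => ?_
      show mz α z t * WP α z Rs y J δ t * _ = M0 α (Sm z) (pt (Sm z) t) * (WP α z Rs y J δ t * _)
      unfold mz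
      ring
    rw [h5]
    exact h3
  have m3 : ∫ u in X1..(X + H), h u ≤
      η' * ((2 * X) * (1 + (e * 1 + e))) + 2 * ((2 * X) * (e * 1 + e)) := by
    have h3 : ∫ u in X1..(X + H), h u ≤ ∫ u in Xl (2 * X)..(2 * X), h u :=
      intervalIntegral.integral_mono_interval hXl (by linarith) (by linarith)
        (Eventually.of_forall hh0) (hhc.intervalIntegrable _ _)
    refine h3.trans ?_
    have h4 : ∫ u in Xl (2 * X)..(2 * X), h u = η' * (∫ u in Xl (2 * X)..(2 * X), w u) +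
        2 * ∫ u in Xl (2 * X)..(2 * X), w u * |g u - 1| := by
      rw [hh]
      show ∫ u in Xl (2 * X)..(2 * X), (η' * w u + 2 * (w u * |g u - 1|)) = _
      rw [intervalIntegral.integral_add (f := fun u => η' * w u) (g := fun u => 2 * (w u * |g u - 1|))
        ((continuous_const.mul hwc).intervalIntegrable _ _)
        ((continuous_const.mul hwg).intervalIntegrable _ _), intervalIntegral.integral_const_mul,
        intervalIntegral.integral_const_mul]
    rw [h4]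
    gcongr
  have m4 : ∫ s in X1..(2 * X), |(1 / δ ^ (-θ')) * (∫ u in s..(s + δ ^ (-θ')), w u) - 1| ≤
      κ / 40 * (2 * X) := by
    have h3 := eA δ hδ d2 (hδX.trans hlog2) Rs J y (by omega) hSP2 ((le_max_right _ _).trans hx0)
    have h4 : ∀ s : ℝ, |(1 / δ ^ (-θ')) * (∫ u in s..(s + δ ^ (-θ')), w u) - 1| =
        |δ ^ θ' * (∫ u in (0:ℝ)..(δ ^ (-θ')), mz α z (s + u) * WP α z Rs y J δ (s + u)) - 1| := by
      intro s
      have h5 : ∫ u in (0:ℝ)..(δ ^ (-θ')), mz α z (s + u) * WP α z Rs y J δ (s + u) =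
          ∫ u in s..(s + δ ^ (-θ')), w u := by
        have h6 := intervalIntegral.integral_comp_add_left (a := 0) (b := δ ^ (-θ')) w s
        rw [add_zero] at h6
        rw [← h6, hw]
      have h7 : 1 / δ ^ (-θ') = δ ^ θ' := by rw [Real.rpow_neg hδ.le, one_div, inv_inv]
      rw [h5, h7]
    have h5 : Continuous fun s : ℝ => |(1 / δ ^ (-θ')) * (∫ u in s..(s + δ ^ (-θ')), w u) - 1| :=
      ((continuous_const.mul (prim_cont hwc _)).sub continuous_const).abs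
    have h6 : ∫ s in X1..(2 * X), |(1 / δ ^ (-θ')) * (∫ u in s..(s + δ ^ (-θ')), w u) - 1| ≤
        ∫ s in Xl (2 * X)..(2 * X), |(1 / δ ^ (-θ')) * (∫ u in s..(s + δ ^ (-θ')), w u) - 1| :=
      intervalIntegral.integral_mono_interval hXl (by linarith) le_rfl
        (Eventually.of_forall fun s => abs_nonneg _) (h5.intervalIntegrable _ _)
    refine h6.trans ?_
    simp_rw [h4]
    exact h3
  have m5 := mean_bound3 hwc hw0 hH0 h01 hX10 hX1X hHX m4
  obtain ⟨G, hG⟩ : ∃ G : ℝ → ℝ, G = fun t => |(1 / H) * (∫ u in t..(t + H), w u) - 1| +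
    (1 / H) * ∫ x in (0:ℝ)..H, h (t + x) := ⟨_, rfl⟩
  have hG1 : Continuous fun t : ℝ => |(1 / H) * (∫ u in t..(t + H), w u) - 1| :=
    ((continuous_const.mul (prim_cont hwc H)).sub continuous_const).abs
  have hG2 : Continuous fun t : ℝ => (1 / H) * ∫ x in (0:ℝ)..H, h (t + x) := hwin_cont hhc _ _
  have hGc : Continuous G := by
    rw [hG]
    exact hG1.add hG2
  have hG0 : ∀ t, 0 ≤ G t := by
    intro t
    rw [hG]
    refine add_nonneg (abs_nonneg _) (mul_nonneg (by positivity) ?_)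
    exact intervalIntegral.integral_nonneg hH.le fun x _ => hh0 _
  have m6 : ∫ t in X1..X, G t ≤ κ / 2 * X := by
    rw [hG]
    show ∫ t in X1..X, (|(1 / H) * (∫ u in t..(t + H), w u) - 1| +
      (1 / H) * ∫ x in (0:ℝ)..H, h (t + x)) ≤ _
    rw [intervalIntegral.integral_add (hG1.intervalIntegrable _ _) (hG2.intervalIntegrable _ _)]
    have h3 := convH hhc hh0 hX1X hH (one_div_mul_cancel hH.ne')
    exact (add_le_add m5 (h3.trans m3)).trans (final hκ hX0 hratio he0 he1 he2 hη'2 rfl)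
  have m7 := markov hGc hG0 hX1X hη m6
  have hκη : κ / 2 * X / η = ε / 2 * X := by
    rw [hκd]
    field_simp
  rw [hκη] at m7
  -- the inclusion
  obtain ⟨Bd, hBd⟩ : ∃ Bd : Set ℝ, Bd = {t : ℝ | X ^ ((9:ℝ) / 10) + 1 ≤ t ∧ t ≤ X ∧ ∃ u : ℝ, t ≤ u ∧
      u ≤ t + δ ^ (-D) ∧ ¬ (G1 ⌈α⌉₊ z Rs y J δ u ∧ ‖ec (1 / 2 + δ + u * I) (xc (PP z y))‖ ≤ a ∧
        ‖Ez z y K (1 / 2 + δ + u * I)‖ ≤ η1)} := ⟨_, rfl⟩
  rw [← hBd] at hbad
  have hincl : {t : ℝ | 0 ≤ t ∧ t ≤ X ∧ η ≤ |(1 / H) * (∫ u in t..(t + H), Zn α δ u) - 1|} ⊆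
      Set.Icc 0 X1 ∪ (Bd ∪ {t : ℝ | X1 ≤ t ∧ t ≤ X ∧ η ≤ G t}) := by
    rintro t ⟨ht0, ht1, ht2⟩
    by_cases h3 : t ≤ X1
    · exact Or.inl ⟨ht0, h3⟩
    push Not at h3
    by_cases h4 : t ∈ Bd
    · exact Or.inr (Or.inl h4)
    refine Or.inr (Or.inr ⟨h3.le, ht1, ht2.trans ?_⟩)
    have hnice : ∀ u, t ≤ u → u ≤ t + H → G1 ⌈α⌉₊ z Rs y J δ u ∧
        ‖ec (1 / 2 + δ + u * I) (xc (PP z y))‖ ≤ a ∧ ‖Ez z y K (1 / 2 + δ + u * I)‖ ≤ η1 := by
      intro u hu1 hu2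
      by_contra hcon
      apply h4
      rw [hBd]
      exact ⟨by rw [← hX1]; exact h3.le, ht1, u, hu1, by linarith, hcon⟩
    rw [hG]
    refine cmp hZc hwc hhc hH fun u hu1 hu2 => ?_
    obtain ⟨n1, n2, n3⟩ := hnice u hu1 hu2
    have h5 := hC δ hδ d1 Rs J K Kq y hSP.zy hSP.bJ (by omega) ((le_max_left _ _).trans hx0) u a v n2 hvs
      hK hKq n1 n3
    have h6 : mz α z u * (WP α z Rs y J δ u * ‖ec (1 / 2 + δ + u * I) (GQ α z y Kq)‖ ^ 2) = w u * g u := by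
      rw [hw, hg]
      ring
    rw [h6] at h5
    have h7 : |Zn α δ u - w u| ≤ |Zn α δ u - w u * g u| + |w u * g u - w u| := abs_sub_le _ _ _
    have h8 : |w u * g u - w u| = w u * |g u - 1| := by
      rw [show w u * g u - w u = w u * (g u - 1) by ring, abs_mul, abs_of_nonneg (hw0 u)]
    have h9 : w u * g u ≤ w u + w u * |g u - 1| := by
      have := mul_le_mul_of_nonneg_left (le_abs_self (g u - 1)) (hw0 u)
      linarith
    have h10 : 0 ≤ w u * |g u - 1| := mul_nonneg (hw0 u) (abs_nonneg _)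
    have h11 : η' * (w u * g u) ≤ η' * w u + w u * |g u - 1| := by
      have h12 := mul_le_mul_of_nonneg_left h9 hη'0.le
      have h13 : η' * (w u * |g u - 1|) ≤ 1 * (w u * |g u - 1|) := mul_le_mul_of_nonneg_right hη'1 h10
      linarith
    rw [hh]
    show |Zn α δ u - w u| ≤ η' * w u + 2 * (w u * |g u - 1|)
    linarith
  calc volume {t : ℝ | 0 ≤ t ∧ t ≤ X ∧ η ≤ |(1 / H) * (∫ u in t..(t + H), Zn α δ u) - 1|}
      ≤ volume (Set.Icc 0 X1 ∪ (Bd ∪ {t : ℝ | X1 ≤ t ∧ t ≤ X ∧ η ≤ G t})) := measure_mono hincl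
    _ ≤ volume (Set.Icc 0 X1) + (volume Bd + volume {t : ℝ | X1 ≤ t ∧ t ≤ X ∧ η ≤ G t}) :=
        (measure_union_le _ _).trans (add_le_add le_rfl (measure_union_le _ _))
    _ ≤ ENNReal.ofReal (ε / 8 * X) + (ENNReal.ofReal (ε / 8 * X) + ENNReal.ofReal (ε / 2 * X)) := by
        refine add_le_add ?_ (add_le_add (hbad.trans ?_) m7)
        · rw [Real.volume_Icc, sub_zero, hX1]
          exact ENNReal.ofReal_le_ofReal eS
        · exact ENNReal.ofReal_le_ofReal (mul_le_mul_of_nonneg_right d5 hX0.le)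
    _ = ENNReal.ofReal (ε / 8 * X + (ε / 8 * X + ε / 2 * X)) := by
        rw [ENNReal.ofReal_add (by positivity) (by positivity),
          ENNReal.ofReal_add (by positivity) (by positivity)]
    _ ≤ ENNReal.ofReal (ε * X) := by
        refine ENNReal.ofReal_le_ofReal ?_
        have : 0 < ε * X := by positivity
        linarith

end Pool.Agent.N748.HM.CORE3
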