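import Pool.Agent.N748.HM.Stm
import Pool.Agent.N748.GC.MOM
import Pool.Agent.N748.GC.ED

set_option autoImplicit false

/-!
# HM/MOM3 and HM/CUT3 : moments of the random Euler product for all exponents (helper87, after
MOM.lean by helper50 and CUT2.lean by helper511)
-/

namespace Pool.Agent.N748.HM.CUT3

open Finset Filter MeasureTheory Topology Complex
open Pool.Agent.N748.GC Pool.Agent.N748.GC.MOM Pool.Agent.N748.GC.ED

theorem mom (h : S_MER) : S_MOM3 := by
  intro a ha s hs _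
  obtain ⟨K1, hK1, hS1⟩ := S1_le h
  obtain ⟨K2, hK2, hS2⟩ := S2_le
  have hs0 : 0 < s := by linarith
  have hsa : 0 < s * a := by positivity
  refine ⟨Real.exp (a ^ 2 * s * (s - 1) * K1 + (C1 (s * a) + s * C2 a) * K2), Real.exp_pos _,
    fun z hz => ?_⟩
  have hE : 0 < E0 a (Sm z) := (Real.exp_pos _).trans_le (E0_down a ha z)
  have e1 : ∀ x : UnitAddTorus (Sm z), M0 a (Sm z) x ^ s =
      (∏ p : Sm z, Real.exp (lw (s * a) p (x p))) / E0 a (Sm z) ^ s := by
    intro x
    unfold M0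
    rw [Real.div_rpow (Real.exp_pos _).le hE.le, ← Real.exp_mul, ← Real.exp_sum, Finset.sum_mul]
    congr 2
    exact Finset.sum_congr rfl fun p _ => by rw [← lw_smul]; ring
  have e2 : ∫ x, M0 a (Sm z) x ^ s ∂(HP (Sm z)) = E0 (s * a) (Sm z) / E0 a (Sm z) ^ s := by
    simp_rw [e1]
    rw [integral_div]
    congr 1
    unfold HP
    rw [integral_fintype_prod_eq_prod (fun (p : Sm z) (y : UnitAddCircle) => Real.exp (lw (s * a) p y))]
    rfl
  rw [e2, div_le_iff₀ (by positivity)]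
  have hlz : 0 < Real.log z := Real.log_pos (by exact_mod_cast (by omega : 1 < z))
  have h1 := E0_up (s * a) hsa z
  have h2 : Real.exp (s * (a ^ 2 * S1 z - C2 a * S2 z)) ≤ E0 a (Sm z) ^ s := by
    have := Real.rpow_le_rpow (Real.exp_pos _).le (E0_down a ha z) hs0.le
    rwa [← Real.exp_mul, mul_comm _ s] at this
  refine h1.trans ?_
  have h3 : Real.log z ^ (a ^ 2 * s * (s - 1)) = Real.exp (Real.log (Real.log z) * (a ^ 2 * s * (s - 1))) :=
    Real.rpow_def_of_pos hlz _
  refine le_trans ?_ (mul_le_mul_of_nonneg_left h2 (by positivity))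
  rw [h3, ← Real.exp_add, ← Real.exp_add]
  refine Real.exp_le_exp.2 ?_
  have h4 := hS1 z hz
  have h5 := hS2 z
  have h6 : 0 ≤ a ^ 2 * s * (s - 1) := mul_nonneg (by positivity) (by linarith)
  have h7 : a ^ 2 * s * (s - 1) * S1 z ≤ a ^ 2 * s * (s - 1) * (Real.log (Real.log z) + K1) :=
    mul_le_mul_of_nonneg_left h4 h6
  have h8 : (C1 (s * a) + s * C2 a) * S2 z ≤ (C1 (s * a) + s * C2 a) * K2 :=
    mul_le_mul_of_nonneg_left h5 (by
      have := C1_pos (s * a) hsa
      have := C2_pos a ha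
      positivity)
  nlinarith

theorem main (h0 : S_MER) : S_CUT3 := by
  intro α hα b hb ε hε
  have hα2 : 0 < α ^ 2 := by positivity
  obtain ⟨s, hs1, hs2, hsr⟩ := exists_s (r := b / α ^ 2) (by rwa [lt_div_iff₀ hα2, one_mul])
  rw [lt_div_iff₀ hα2] at hsr
  obtain ⟨C, hC, hmom⟩ := mom h0 α hα s hs1.le hs2
  obtain ⟨z0, hz0⟩ := decay C (a := (s - 1) * (α ^ 2 * s - b))
    (mul_neg_of_pos_of_neg (by linarith) (by linarith)) hε
  refine ⟨max z0 3, fun z hz => ?_⟩
  have hz3 : 3 ≤ z := (le_max_right _ _).trans hz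
  have hL := log_gt hz3
  have hL0 : 0 < Real.log z := by linarith
  set L := Real.log z with hLdef
  have hB : 0 < L ^ b := by positivity
  have hcs : Continuous fun x : UnitAddTorus (Sm z) => M0 α (Sm z) x ^ s :=
    (M0_cont α z).rpow_const fun x => Or.inl (M0_pos α z x).ne'
  calc ∫ x, (M0 α (Sm z) x - Mc α b z x) ∂(HP (Sm z))
      ≤ ∫ x, (L ^ b) ^ (1 - s) * M0 α (Sm z) x ^ s ∂(HP (Sm z)) := by
        refine integral_mono_of_nonneg (Filter.Eventually.of_forall fun x => ?_)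
          ((cont_int hcs).const_mul _) (Filter.Eventually.of_forall fun x => ?_)
        · have h1 := mul_le_mul_of_nonneg_left (ct_le_one (Real.log z ^ b) (M0 α (Sm z) x))
            (M0_pos α z x).le
          simp only [Mc, Pi.zero_apply]
          linarith
        · exact sub_ct_le hB (M0_pos α z x) hs1
    _ = (L ^ b) ^ (1 - s) * ∫ x, M0 α (Sm z) x ^ s ∂(HP (Sm z)) := integral_const_mul _ _
    _ ≤ (L ^ b) ^ (1 - s) * (C * L ^ (α ^ 2 * s * (s - 1))) :=
        mul_le_mul_of_nonneg_left (hmom z hz3) (by positivity)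
    _ = C * L ^ ((s - 1) * (α ^ 2 * s - b)) := by
        rw [← Real.rpow_mul hL0.le, mul_left_comm, ← Real.rpow_add hL0]
        congr 2; ring
    _ ≤ ε := hz0 z ((le_max_left _ _).trans hz)

end Pool.Agent.N748.HM.CUT3
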