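import Pool.Agent.N748.HM.TRN
import Pool.Agent.N748.GC.DEG

set_option autoImplicit false

/-! Short windows: the normalised local moments of all orders tend to zero in measure. -/

namespace Pool.Agent.N748.HM

open Finset Filter MeasureTheory Topology Complex
open Pool.Agent.N748.GC
open Pool.Agent.H306R2 (aF aF_pos)

lemma Ev.of_ev {P : ℝ → Prop} (h : ∀ᶠ X : ℝ in atTop, P X) : Ev fun X _ => P X := by
  refine ⟨1, 1 / 16, one_pos, by norm_num, le_rfl, ?_⟩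
  filter_upwards [h] with X hX δ _ _ _
  exact hX

lemma log_inv_ge {δ : ℝ} (hδ : 0 < δ) (h : δ ≤ 1 / 16) : 1 ≤ Real.log (1 / δ) := by
  rw [Real.le_log_iff_exp_le (by positivity)]
  have h1 : Real.exp 1 ≤ 16 := by linarith [Real.exp_one_lt_d9]
  refine h1.trans ?_
  rw [le_div_iff₀ hδ]
  linarith

lemma Ev.linv : Ev fun X δ => 1 / δ ≤ Real.log X := by
  refine ⟨1, 1 / 16, one_pos, by norm_num, le_rfl, Eventually.of_forall fun X δ hδ hδ2 hX => ?_⟩
  have h1 := log_inv_ge hδ hδ2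
  show 1 / δ ≤ Real.log X
  rw [div_le_iff₀ hδ]
  nlinarith

lemma Ev.win {D c : ℝ} (hc : 0 < c) : Ev fun X δ => δ ^ (-D) ≤ c * X := by
  have hlog : ∀ᶠ T : ℝ in atTop, Real.log T ^ (max D 0) ≤ c * T := by
    have h2 := (isLittleO_log_rpow_rpow_atTop (max D 0) (zero_lt_one (α := ℝ))).bound hc
    filter_upwards [h2, eventually_ge_atTop 1] with T h3 h4
    rw [Real.rpow_one, Real.norm_of_nonneg (Real.rpow_nonneg (Real.log_nonneg h4) _),
      Real.norm_of_nonneg (by linarith)] at h3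
    exact h3
  refine (Ev.linv.and (Ev.of_ev hlog)).mono ?_
  rintro X δ hX hδ hδ1 ⟨h1, h2⟩
  refine le_trans ?_ h2
  have h3 : δ ^ (-D) ≤ δ ^ (-(max D 0)) :=
    Real.rpow_le_rpow_of_exponent_ge hδ (by linarith) (neg_le_neg (le_max_left _ _))
  refine h3.trans ?_
  rw [Real.rpow_neg hδ.le, ← Real.inv_rpow hδ.le, ← one_div]
  exact Real.rpow_le_rpow (by positivity) h1 (le_max_right _ _)

namespace DEG3

/-- windows covered by small intervals -/
lemma win {Z S : ℝ → ℝ} {K m t : ℝ} (hZ : Continuous Z) (hm : 0 < m) {n : ℕ}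
    (hZS : ∀ k < n, ∀ u, t + k * m ≤ u → u ≤ t + k * m + m → Z u ≤ K * S (t + k * m)) :
    ∫ u in t..(t + n * m), Z u ≤ ∑ k ∈ range n, m * (K * S (t + k * m)) := by
  have hI : ∀ a b : ℝ, IntervalIntegrable Z volume a b := fun a b => hZ.intervalIntegrable a b
  induction n with
  | zero => simp
  | succ n ih =>
    rw [sum_range_succ, ← intervalIntegral.integral_add_adjacent_intervals (hI t (t + n * m)) (hI _ _)]
    refine add_le_add (ih fun k hk => hZS k (by omega)) ?_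
    have hb : t + n * m ≤ t + ((n + 1 : ℕ) : ℝ) * m := by push_cast; nlinarith
    calc ∫ u in (t + n * m)..(t + ((n + 1 : ℕ) : ℝ) * m), Z u ≤
        ∫ u in (t + n * m)..(t + ((n + 1 : ℕ) : ℝ) * m), K * S (t + n * m) :=
          intervalIntegral.integral_mono_on hb (hI _ _) intervalIntegrable_const (fun u hu =>
            hZS n (by omega) _ hu.1 (by have := hu.2; push_cast at this; nlinarith))
      _ = _ := by rw [intervalIntegral.integral_const, smul_eq_mul]; push_cast; ring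

/-- the fractional moment of one window -/
lemma frac {Z M : ℝ → ℝ} {K q m H t : ℝ} (hZ : Continuous Z) (hZ0 : ∀ u, 0 ≤ Z u)
    (hM0 : ∀ t, 0 ≤ M t) (hK : 0 < K) (hq0 : 0 < q) (hq1 : q < 1) (hH : 0 < H) (hm : 0 < m)
    {n : ℕ} (hn : H ≤ n * m)
    (hZM : ∀ k < n, ∀ u, t + k * m ≤ u → u ≤ t + k * m + m → Z u ≤ K * M (t + k * m) ^ (1 / q)) :
    ((1 / H) * ∫ u in t..(t + H), Z u) ^ q ≤ (m / H) ^ q * K ^ q * ∑ k ∈ range n, M (t + k * m) := by
  have h0 : 0 ≤ ∫ u in t..(t + H), Z u := intervalIntegral.integral_nonneg (by linarith) fun u _ => hZ0 u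
  have h1 : ∫ u in t..(t + H), Z u ≤ ∑ k ∈ range n, m * (K * M (t + k * m) ^ (1 / q)) := by
    refine le_trans ?_ (win (S := fun t => M t ^ (1 / q)) hZ hm hZM)
    exact intervalIntegral.integral_mono_interval le_rfl (by linarith) (by linarith)
      (Eventually.of_forall hZ0) (hZ.intervalIntegrable _ _)
  have h2 : (1 / H) * ∫ u in t..(t + H), Z u ≤ (m / H * K) * ∑ k ∈ range n, M (t + k * m) ^ (1 / q) := by
    refine (mul_le_mul_of_nonneg_left h1 (by positivity)).trans (le_of_eq ?_)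
    rw [mul_sum, mul_sum]
    refine sum_congr rfl fun k _ => ?_
    ring
  refine (Real.rpow_le_rpow (by positivity) h2 hq0.le).trans ?_
  rw [Real.mul_rpow (by positivity) (sum_nonneg fun k _ => Real.rpow_nonneg (hM0 _) _),
    Real.mul_rpow (by positivity) hK.le]
  refine mul_le_mul_of_nonneg_left ?_ (by positivity)
  refine (Pool.Agent.N748.GC.DEG.sub_pow hq0 hq1.le n _ fun k => Real.rpow_nonneg (hM0 _) _).trans (le_of_eq ?_)
  refine sum_congr rfl fun k _ => ?_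
  rw [← Real.rpow_mul (hM0 _), one_div, inv_mul_cancel₀ hq0.ne', Real.rpow_one]

/-- the mean value of the majorant -/
lemma mean {M : ℝ → ℝ} {m H x1 X B : ℝ} (hMc : Continuous M) (hM0 : ∀ t, 0 ≤ M t) (hm : 0 < m) {n : ℕ}
    (hn : n * m ≤ H + m) (hx : x1 ≤ X) (hHX : H ≤ X / 2)
    (hB : ∫ t in x1..(3 / 2 * X), M t ≤ B) :
    ∫ t in x1..X, ∑ k ∈ range n, M (t + k * m) ≤ n * B := by
  have hcS : ∀ k : ℕ, Continuous fun t : ℝ => M (t + k * m) := fun k => hMc.comp (by fun_prop)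
  rw [intervalIntegral.integral_finsetSum fun k _ => (hcS k).intervalIntegrable _ _]
  have h4 : ∀ k ∈ range n, ∫ t in x1..X, M (t + k * m) ≤ B := by
    intro k hk
    have hk1 : (k:ℝ) + 1 ≤ n := by exact_mod_cast mem_range.mp hk
    have hkm : (k:ℝ) * m ≤ H := by nlinarith
    have hkm0 : 0 ≤ (k:ℝ) * m := by positivity
    rw [intervalIntegral.integral_comp_add_right]
    refine le_trans ?_ hB
    exact intervalIntegral.integral_mono_interval (by linarith) (by linarith) (by linarith)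
      (Eventually.of_forall hM0) (hMc.intervalIntegrable _ _)
  refine (sum_le_sum h4).trans (le_of_eq ?_)
  rw [sum_const, card_range, nsmul_eq_mul]

/-- the main estimate for one window -/
lemma one {α δ θ D X H q η C ε : ℝ} (hα : 0 < α) (hδ : 0 < δ) (hδ1 : δ ≤ 1 / 16) (hθ : 0 < 1 + θ)
    (hθ2 : θ + 1 ≤ D) (hq0 : 0 < q) (hq1 : q < 1) (hX : 1 ≤ X) (hH : 0 < H) (hH1 : H ≤ δ ^ (-θ)) (hη : 0 < η)
    (hC : 0 < C) (hwin : δ ^ (-D) ≤ 1 / 2 * X) (hx1 : X ^ ((9:ℝ) / 10) + 1 ≤ X)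
    {N : Set ℝ} {M : ℝ → ℝ} (hN : volume (Set.Icc 0 X \ N) ≤ ENNReal.ofReal (δ ^ D * X)) (hMc : Continuous M)
    (hM0 : ∀ t, 0 ≤ M t)
    (hMi : ∫ t in (X ^ ((9:ℝ) / 10) + 1)..(3 / 2 * X), M t ≤ C * X * δ ^ (-((α * q) ^ 2)))
    (hNM : ∀ t ∈ N, X ^ ((9:ℝ) / 10) + 1 ≤ t ∧ ∀ t' u : ℝ, t ≤ t' → t' ≤ u → u ≤ t' + δ → u ≤ t + δ ^ (-D) →
      ‖riemannZeta (1 / 2 + δ + u * I)‖ ^ (2 * (α * q)) ≤ M t')
    (hs : (η ^ q)⁻¹ * (2 * (aF α ^ q)⁻¹ * C * 2 ^ (α ^ 2 * q)) * δ ^ ((1 - q) * (α ^ 2 * q - 1 - θ)) ≤ ε / 2)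
    (hs2 : 1 * δ ^ D ≤ ε / 2) :
    volume {t : ℝ | 0 ≤ t ∧ t ≤ X ∧ η ≤ (1 / H) * ∫ u in t..(t + H), Zn α δ u} ≤ ENNReal.ofReal (ε * X) := by
  have haF := aF_pos hα
  have hX0 : 0 < X := by linarith
  have hZc : Continuous (Zn α δ) := Zn_cont' hα (by linarith)
  have hZ0 : ∀ u, 0 ≤ Zn α δ u := Zn_nonneg hα hδ.le
  set K := (2 * δ) ^ (α ^ 2) / aF α with hK
  have hK0 : 0 < K := by positivity
  obtain ⟨m, hm⟩ : ∃ m, m = min δ H := ⟨_, rfl⟩
  have hm0 : 0 < m := by rw [hm]; exact lt_min hδ hH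
  have hmd : m ≤ δ := by rw [hm]; exact min_le_left _ _
  have hmH : m ≤ H := by rw [hm]; exact min_le_right _ _
  obtain ⟨n, hn⟩ : ∃ n, n = ⌈H / m⌉₊ := ⟨_, rfl⟩
  have hHm1 : 1 ≤ H / m := by rwa [le_div_iff₀ hm0, one_mul]
  have hn1 : H / m ≤ n := by rw [hn]; exact Nat.le_ceil _
  have hn2 : (n:ℝ) < H / m + 1 := by rw [hn]; exact Nat.ceil_lt_add_one (by positivity)
  have hnH : H ≤ n * m := by rwa [div_le_iff₀ hm0] at hn1
  have hnH2 : n * m ≤ H + m := by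
    have : n * m ≤ (H / m + 1) * m := mul_le_mul_of_nonneg_right hn2.le hm0.le
    have e : (H / m + 1) * m = H + m := by field_simp
    linarith
  have hHD : H + δ ≤ δ ^ (-D) := by
    have e1 : δ ^ (-(θ + 1)) ≤ δ ^ (-D) := Real.rpow_le_rpow_of_exponent_ge hδ (by linarith) (by linarith)
    have e2 : δ ^ (-(θ + 1)) = δ ^ (-θ) * δ⁻¹ := by
      rw [neg_add, Real.rpow_add hδ, Real.rpow_neg_one]
    have e3 : 1 ≤ δ ^ (-(θ + 1)) := Real.one_le_rpow_of_pos_of_le_one_of_nonpos hδ (by linarith) (by linarith)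
    have e4 : 16 ≤ δ⁻¹ := by
      rw [le_inv_comm₀ (by norm_num) hδ]; linarith
    have e5 : 0 < δ ^ (-θ) := Real.rpow_pos_of_pos hδ _
    have e6 : 16 * δ ^ (-θ) ≤ δ ^ (-(θ + 1)) := by rw [e2]; nlinarith
    linarith
  have hHX : H ≤ X / 2 := by linarith
  set x1 := X ^ ((9:ℝ) / 10) + 1 with hx1d
  have hx10 : 0 < x1 := by positivity
  -- the majorant
  obtain ⟨G, hG⟩ : ∃ G : ℝ → ℝ, G = fun t => (m / H) ^ q * K ^ q * ∑ k ∈ range n, M (t + k * m) := ⟨_, rfl⟩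
  have hGc : Continuous G := by
    rw [hG]
    refine continuous_const.mul (continuous_finsetSum _ fun k _ => ?_)
    exact hMc.comp (by fun_prop)
  have hG0 : ∀ t, 0 ≤ G t := by
    intro t
    rw [hG]
    have : 0 ≤ ∑ k ∈ range n, M (t + k * m) := sum_nonneg fun k _ => hM0 _
    positivity
  have hle : ∀ t ∈ N, ((1 / H) * ∫ u in t..(t + H), Zn α δ u) ^ q ≤ G t := by
    intro t ht
    rw [hG]
    refine frac hZc hZ0 hM0 hK0 hq0 hq1 hH hm0 hnH ?_
    intro k hk u hu1 hu2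
    have hk1 : (k:ℝ) + 1 ≤ n := by exact_mod_cast hk
    have hkm0 : 0 ≤ (k:ℝ) * m := by positivity
    have hkm : (k:ℝ) * m + m ≤ H + m := by nlinarith
    have h3 := (hNM t ht).2 (t + k * m) u (by linarith) hu1 (by linarith) (by linarith)
    have e1 : Zn α δ u = K * ‖riemannZeta (1 / 2 + δ + u * I)‖ ^ (2 * α) := by
      unfold Zn; rw [aa_eq]
    rw [e1]
    refine mul_le_mul_of_nonneg_left ?_ hK0.le
    have e2 : ‖riemannZeta (1 / 2 + δ + u * I)‖ ^ (2 * α) =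
        (‖riemannZeta (1 / 2 + δ + u * I)‖ ^ (2 * (α * q))) ^ (1 / q) := by
      rw [← Real.rpow_mul (norm_nonneg _)]
      congr 1
      field_simp
    rw [e2]
    exact Real.rpow_le_rpow (Real.rpow_nonneg (norm_nonneg _) _) h3 (by positivity)
  have hB0 : 0 < C * X * δ ^ (-((α * q) ^ 2)) := by positivity
  have hint : ∫ t in Set.Icc x1 X, G t ≤ 2 * (H / m) ^ (1 - q) * K ^ q * (C * X * δ ^ (-((α * q) ^ 2))) := by
    rw [integral_Icc_eq_integral_Ioc, ← intervalIntegral.integral_of_le hx1, hG, intervalIntegral.integral_const_mul]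
    have h1 := mean hMc hM0 hm0 hnH2 hx1 hHX hMi
    have h5 : (m / H) ^ q * K ^ q * ∫ t in x1..X, ∑ k ∈ range n, M (t + k * m) ≤
        (m / H) ^ q * K ^ q * (2 * (H / m) * (C * X * δ ^ (-((α * q) ^ 2)))) := by
      refine mul_le_mul_of_nonneg_left (h1.trans ?_) (by positivity)
      exact mul_le_mul_of_nonneg_right (by linarith) hB0.le
    refine h5.trans (le_of_eq ?_)
    have e2 : (m / H) ^ q * (H / m) = (H / m) ^ (1 - q) := by
      have hp : 0 < H / m := by positivity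
      rw [Real.rpow_sub hp, Real.rpow_one, ← inv_div, Real.inv_rpow hp.le]
      field_simp
    rw [← e2]; ring
  have hr : H / m ≤ δ ^ (-(1 + θ)) := by
    rw [hm]
    rcases le_total δ H with h2 | h2
    · rw [min_eq_left h2, neg_add, Real.rpow_add hδ, Real.rpow_neg hδ.le 1, Real.rpow_one, div_eq_inv_mul]
      exact mul_le_mul_of_nonneg_left hH1 (by positivity)
    · rw [min_eq_right h2, div_self hH.ne']
      exact Real.one_le_rpow_of_pos_of_le_one_of_nonpos hδ (by linarith) (by linarith)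
  have hr2 : (H / m) ^ (1 - q) ≤ δ ^ (-(1 + θ) * (1 - q)) := by
    rw [Real.rpow_mul hδ.le]
    exact Real.rpow_le_rpow (by positivity) hr (by linarith)
  have hKq : K ^ q * δ ^ (-((α * q) ^ 2)) = (aF α ^ q)⁻¹ * (2 ^ (α ^ 2 * q) * δ ^ (α ^ 2 * q * (1 - q))) := by
    rw [hK, Real.div_rpow (by positivity) haF.le, ← Real.rpow_mul (by positivity), Real.mul_rpow (by norm_num) hδ.le,
      show α ^ 2 * q * (1 - q) = α ^ 2 * q + -((α * q) ^ 2) by ring, Real.rpow_add hδ]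
    field_simp
  have hκ : δ ^ (-(1 + θ) * (1 - q)) * δ ^ (α ^ 2 * q * (1 - q)) = δ ^ ((1 - q) * (α ^ 2 * q - 1 - θ)) := by
    rw [← Real.rpow_add hδ]
    congr 1
    ring
  have hηq : 0 < η ^ q := by positivity
  -- Markov
  have hfin : volume ({t | η ^ q ≤ G t} ∩ Set.Icc x1 X) ≠ ⊤ :=
    (measure_lt_top_of_subset Set.inter_subset_right (by simp)).ne
  have h7 := mul_meas_ge_le_integral_of_nonneg (μ := volume.restrict (Set.Icc x1 X)) (f := G)
    (Eventually.of_forall hG0) (hGc.continuousOn.integrableOn_compact isCompact_Icc) (η ^ q)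
  have hmG : MeasurableSet {t | η ^ q ≤ G t} := measurableSet_le measurable_const hGc.measurable
  rw [measureReal_restrict_apply hmG] at h7
  have h8 : (volume ({t | η ^ q ≤ G t} ∩ Set.Icc x1 X)).toReal ≤ ε / 2 * X := by
    have h9 : η ^ q * (volume ({t | η ^ q ≤ G t} ∩ Set.Icc x1 X)).toReal ≤
        2 * (H / m) ^ (1 - q) * K ^ q * (C * X * δ ^ (-((α * q) ^ 2))) := h7.trans hint
    have h10 : (volume ({t | η ^ q ≤ G t} ∩ Set.Icc x1 X)).toReal ≤
        (η ^ q)⁻¹ * (2 * (H / m) ^ (1 - q) * K ^ q * (C * X * δ ^ (-((α * q) ^ 2)))) := by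
      rw [← div_eq_inv_mul, le_div_iff₀ hηq, mul_comm]
      exact h9
    refine h10.trans ?_
    have e5 : (η ^ q)⁻¹ * (2 * (H / m) ^ (1 - q) * K ^ q * (C * X * δ ^ (-((α * q) ^ 2)))) =
        (η ^ q)⁻¹ * 2 * C * X * (K ^ q * δ ^ (-((α * q) ^ 2))) * (H / m) ^ (1 - q) := by ring
    rw [e5, hKq]
    refine (mul_le_mul_of_nonneg_left hr2 (by positivity)).trans ?_
    have e6 : (η ^ q)⁻¹ * 2 * C * X * ((aF α ^ q)⁻¹ * (2 ^ (α ^ 2 * q) * δ ^ (α ^ 2 * q * (1 - q)))) *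
        δ ^ (-(1 + θ) * (1 - q)) =
        (η ^ q)⁻¹ * (2 * (aF α ^ q)⁻¹ * C * 2 ^ (α ^ 2 * q)) * δ ^ ((1 - q) * (α ^ 2 * q - 1 - θ)) * X := by
      rw [← hκ]; ring
    rw [e6]
    exact mul_le_mul_of_nonneg_right hs hX0.le
  have hsub : {t : ℝ | 0 ≤ t ∧ t ≤ X ∧ η ≤ (1 / H) * ∫ u in t..(t + H), Zn α δ u} ⊆
      (Set.Icc 0 X \ N) ∪ ({t | η ^ q ≤ G t} ∩ Set.Icc x1 X) := by
    rintro t ⟨h1, h2, h3⟩
    by_cases ht : t ∈ N
    · right
      refine ⟨?_, (hNM t ht).1, h2⟩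
      exact (Real.rpow_le_rpow hη.le h3 hq0.le).trans (hle t ht)
    · exact Or.inl ⟨⟨h1, h2⟩, ht⟩
  have hε : 0 < ε := by
    have : 0 < 1 * δ ^ D := by positivity
    linarith
  calc _ ≤ _ := measure_mono hsub
    _ ≤ _ := measure_union_le _ _
    _ ≤ ENNReal.ofReal (ε / 2 * X) + ENNReal.ofReal (ε / 2 * X) := by
        refine add_le_add (hN.trans (ENNReal.ofReal_le_ofReal (mul_le_mul_of_nonneg_right (by linarith) hX0.le))) ?_
        rw [← ENNReal.ofReal_toReal hfin]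
        exact ENNReal.ofReal_le_ofReal h8
    _ = ENNReal.ofReal (ε * X) := by
        rw [← ENNReal.ofReal_add (by positivity) (by positivity)]
        congr 1
        ring

theorem main (hZ : S_ZSUP) : S_DEG3 := by
  intro α hα θ0 hθ0 η hη ε hε
  have hαs : 0 < α ^ 2 := by positivity
  have haF := aF_pos hα
  obtain ⟨θ, hθd⟩ : ∃ θ, θ = max θ0 (α ^ 2 / 2 - 1) := ⟨_, rfl⟩
  have hθ0' : 0 < 1 + θ := by rw [hθd]; have := le_max_right θ0 (α ^ 2 / 2 - 1); linarith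
  have hθ : θ < α ^ 2 - 1 := by rw [hθd]; exact max_lt hθ0 (by linarith)
  obtain ⟨q, hq⟩ : ∃ q, q = ((1 + θ) / α ^ 2 + 1) / 2 := ⟨_, rfl⟩
  have h1 : (1 + θ) / α ^ 2 < 1 := by rw [div_lt_one hαs]; linarith
  have hq0 : 0 < q := by rw [hq]; positivity
  have hq1 : q < 1 := by rw [hq]; linarith
  have hq2 : 1 + θ < α ^ 2 * q := by
    have : α ^ 2 * q = ((1 + θ) + α ^ 2) / 2 := by rw [hq]; field_simp
    rw [this]; linarith
  have hκ0 : 0 < (1 - q) * (α ^ 2 * q - 1 - θ) := mul_pos (by linarith) (by linarith)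
  obtain ⟨D, hD⟩ : ∃ D, D = θ + 2 := ⟨_, rfl⟩
  obtain ⟨C, lam, δ0, hC, hlam, hδ0, hδ01, hev⟩ := hZ (α * q) (by positivity) D (by linarith)
  have ev1 : Ev _ := ⟨lam, δ0, hlam, hδ0, hδ01, hev⟩
  have ev2 : Ev _ := Ev.win (D := D) (c := 1 / 2) (by norm_num)
  have ev3 : Ev _ := Ev.small (C := (η ^ q)⁻¹ * (2 * (aF α ^ q)⁻¹ * C * 2 ^ (α ^ 2 * q)))
    (c := (1 - q) * (α ^ 2 * q - 1 - θ)) (e := ε / 2) hκ0 (by linarith)
  have ev4 : Ev _ := Ev.small (C := 1) (c := D) (e := ε / 2) (by linarith) (by linarith)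
  have hx : ∀ᶠ X : ℝ in atTop, X ^ ((9:ℝ) / 10) + 1 ≤ X := by
    filter_upwards [eventually_ge_atTop ((2:ℝ) ^ (10:ℝ))] with T h4
    have hT1 : (1:ℝ) ≤ T := (Real.one_le_rpow (by norm_num) (by norm_num)).trans h4
    have hT0 : 0 < T := by linarith
    have h5 : (2:ℝ) ≤ T ^ ((1:ℝ) / 10) := by
      calc (2:ℝ) = ((2:ℝ) ^ (10:ℝ)) ^ ((1:ℝ) / 10) := by
            rw [← Real.rpow_mul (by norm_num)]; norm_num
        _ ≤ T ^ ((1:ℝ) / 10) := Real.rpow_le_rpow (by positivity) h4 (by norm_num)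
    have h6 : T = T ^ ((9:ℝ) / 10) * T ^ ((1:ℝ) / 10) := by
      rw [← Real.rpow_add hT0]; norm_num
    have h7 : 1 ≤ T ^ ((9:ℝ) / 10) := Real.one_le_rpow hT1 (by norm_num)
    nlinarith
  have ev5 : Ev _ := Ev.of_ev hx
  have ev := ((ev1.and ev2).and ((ev3.and ev4).and ev5)).mono
    (Q := fun X δ => ∀ H : ℝ, 0 < H → H ≤ δ ^ (-θ0) →
      volume {t : ℝ | 0 ≤ t ∧ t ≤ X ∧ η ≤ (1 / H) * ∫ u in t..(t + H), Zn α δ u} ≤ ENNReal.ofReal (ε * X)) ?_
  · exact ev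
  rintro X δ hX hδ hδ1 ⟨⟨⟨N, M, g1, g2, g3, g4, g5⟩, g6⟩, ⟨g7, g8⟩, g9⟩ H hH hH1
  refine one hα hδ hδ1 hθ0' (by linarith) hq0 hq1 hX hH (hH1.trans ?_) hη hC g6 g9 g1 g2 g3 g4 g5 g7 g8
  exact Real.rpow_le_rpow_of_exponent_ge hδ (by linarith) (neg_le_neg (by rw [hθd]; exact le_max_left _ _))

end DEG3

end Pool.Agent.N748.HM
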