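import Pool.Agent.N748.HM.Stm2

set_option autoImplicit false

/-!
# HM/FE: the exponents of the local moments and the maximum in almost all windows
-/

namespace Pool.Agent.N748.HM.FE

open Finset Filter MeasureTheory MonoidAlgebra Topology Complex Pool.Agent.N748.GC Pool.Agent.N748.HM

/-! ### deterministic part -/

section det

variable {f : ℝ → ℝ}

/-- local moments -/
noncomputable def II (f : ℝ → ℝ) (δ θ t b : ℝ) : ℝ := δ ^ θ * ∫ u in t..(t + δ ^ (-θ)), f u ^ b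

lemma II_nonneg (hf0 : ∀ u, 0 ≤ f u) {δ θ t b : ℝ} (hδ : 0 < δ) : 0 ≤ II f δ θ t b := by
  unfold II
  have h : 0 < δ ^ (-θ) := Real.rpow_pos_of_pos hδ _
  refine mul_nonneg (Real.rpow_nonneg hδ.le _) ?_
  exact intervalIntegral.integral_nonneg (by linarith) fun u _ => Real.rpow_nonneg (hf0 u) _

lemma II_upper (hf : Continuous f) (hf0 : ∀ u, 0 ≤ f u) {δ θ t b b2 Λ : ℝ} (hδ : 0 < δ) (hb2 : 0 < b2)
    (hb : b2 ≤ b) (hΛ : ∀ u, t ≤ u → u ≤ t + δ ^ (-θ) → f u ≤ Λ) :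
    II f δ θ t b ≤ Λ ^ (b - b2) * II f δ θ t b2 := by
  unfold II
  have h : 0 < δ ^ (-θ) := Real.rpow_pos_of_pos hδ _
  have h1 : ∫ u in t..(t + δ ^ (-θ)), f u ^ b ≤ ∫ u in t..(t + δ ^ (-θ)), Λ ^ (b - b2) * f u ^ b2 := by
    refine intervalIntegral.integral_mono_on (by linarith) ?_ ?_ ?_
    · exact (hf.rpow_const fun u => Or.inr (by linarith)).intervalIntegrable _ _
    · exact (continuous_const.mul (hf.rpow_const fun u => Or.inr hb2.le)).intervalIntegrable _ _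
    · intro u hu
      have e : f u ^ b = f u ^ (b - b2) * f u ^ b2 := by
        rw [← Real.rpow_add_of_nonneg (hf0 u) (by linarith) hb2.le]
        congr 1
        ring
      rw [e]
      exact mul_le_mul_of_nonneg_right (Real.rpow_le_rpow (hf0 u) (hΛ u hu.1 hu.2) (by linarith))
        (Real.rpow_nonneg (hf0 u) _)
  rw [intervalIntegral.integral_const_mul] at h1
  calc δ ^ θ * ∫ u in t..(t + δ ^ (-θ)), f u ^ b
      ≤ δ ^ θ * (Λ ^ (b - b2) * ∫ u in t..(t + δ ^ (-θ)), f u ^ b2) :=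
        mul_le_mul_of_nonneg_left h1 (Real.rpow_nonneg hδ.le _)
    _ = _ := by ring

lemma II_lower (hf : Continuous f) (hf0 : ∀ u, 0 ≤ f u) {δ θ t b b1 b2 lam : ℝ} (hδ : 0 < δ) (hb1 : 0 < b1)
    (hb12 : b1 ≤ b2) (hb : b2 ≤ b) (hlam : 0 < lam) :
    lam ^ (b - b2) * (II f δ θ t b2 - lam ^ (b2 - b1) * II f δ θ t b1) ≤ II f δ θ t b := by
  unfold II
  have h : 0 < δ ^ (-θ) := Real.rpow_pos_of_pos hδ _
  have i1 : IntervalIntegrable (fun u => f u ^ b1) volume t (t + δ ^ (-θ)) :=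
    (hf.rpow_const fun u => Or.inr hb1.le).intervalIntegrable _ _
  have i2 : IntervalIntegrable (fun u => f u ^ b2) volume t (t + δ ^ (-θ)) :=
    (hf.rpow_const fun u => Or.inr (by linarith)).intervalIntegrable _ _
  have h1 : ∫ u in t..(t + δ ^ (-θ)), lam ^ (b - b2) * (f u ^ b2 - lam ^ (b2 - b1) * f u ^ b1) ≤
      ∫ u in t..(t + δ ^ (-θ)), f u ^ b := by
    refine intervalIntegral.integral_mono_on (by linarith) ?_ ?_ ?_
    · exact ((i2.sub (i1.const_mul _)).const_mul _)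
    · exact (hf.rpow_const fun u => Or.inr (by linarith)).intervalIntegrable _ _
    · intro u _
      have hp : 0 < lam ^ (b - b2) := Real.rpow_pos_of_pos hlam _
      rcases le_total lam (f u) with hc | hc
      · have e : f u ^ b = f u ^ (b - b2) * f u ^ b2 := by
          rw [← Real.rpow_add_of_nonneg (hf0 u) (by linarith) (by linarith)]
          congr 1
          ring
        rw [e]
        have h2 : lam ^ (b - b2) ≤ f u ^ (b - b2) := Real.rpow_le_rpow hlam.le hc (by linarith)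
        have h3 : 0 ≤ f u ^ b2 := Real.rpow_nonneg (hf0 u) _
        have h4 : 0 ≤ lam ^ (b2 - b1) * f u ^ b1 :=
          mul_nonneg (Real.rpow_nonneg hlam.le _) (Real.rpow_nonneg (hf0 u) _)
        calc lam ^ (b - b2) * (f u ^ b2 - lam ^ (b2 - b1) * f u ^ b1) ≤ lam ^ (b - b2) * f u ^ b2 :=
              mul_le_mul_of_nonneg_left (by linarith) hp.le
          _ ≤ _ := mul_le_mul_of_nonneg_right h2 h3
      · have e : f u ^ b2 = f u ^ (b2 - b1) * f u ^ b1 := by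
          rw [← Real.rpow_add_of_nonneg (hf0 u) (by linarith) hb1.le]
          congr 1
          ring
        have h2 : f u ^ (b2 - b1) * f u ^ b1 ≤ lam ^ (b2 - b1) * f u ^ b1 :=
          mul_le_mul_of_nonneg_right (Real.rpow_le_rpow (hf0 u) hc (by linarith)) (Real.rpow_nonneg (hf0 u) _)
        have h3 : lam ^ (b - b2) * (f u ^ b2 - lam ^ (b2 - b1) * f u ^ b1) ≤ 0 :=
          mul_nonpos_of_nonneg_of_nonpos hp.le (by rw [e]; linarith)
        exact h3.trans (Real.rpow_nonneg (hf0 u) _)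
  rw [intervalIntegral.integral_const_mul, intervalIntegral.integral_sub i2 (i1.const_mul _),
    intervalIntegral.integral_const_mul] at h1
  calc lam ^ (b - b2) * (δ ^ θ * (∫ u in t..(t + δ ^ (-θ)), f u ^ b2) -
        lam ^ (b2 - b1) * (δ ^ θ * ∫ u in t..(t + δ ^ (-θ)), f u ^ b1))
      = δ ^ θ * (lam ^ (b - b2) * ((∫ u in t..(t + δ ^ (-θ)), f u ^ b2) -
        lam ^ (b2 - b1) * ∫ u in t..(t + δ ^ (-θ)), f u ^ b1)) := by ring
    _ ≤ δ ^ θ * ∫ u in t..(t + δ ^ (-θ)), f u ^ b :=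
        mul_le_mul_of_nonneg_left h1 (Real.rpow_nonneg hδ.le _)

/-- the key: from the moments below the critical exponent and the maximum to all moments -/
lemma det (hf : Continuous f) (hf0 : ∀ u, 0 ≤ f u) {δ θ t s τ L : ℝ} (hδ : 0 < δ)
    (hL : L = Real.log (1 / δ)) (hL0 : 0 < L) (hs : 1 ≤ s) (hτ : 0 < τ) (hτ1 : τ ≤ 1 / 2)
    (hlog : Real.log 2 ≤ τ ^ 2 / 8 * L)
    (h1 : Real.log (II f δ θ t (2 * s - 2 * τ)) ≤ ((2 * s - 2 * τ) ^ 2 / 4 + τ ^ 2 / 16) * L)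
    (h2p : 0 < II f δ θ t (2 * s - τ))
    (h2 : ((2 * s - τ) ^ 2 / 4 - τ ^ 2 / 16) * L ≤ Real.log (II f δ θ t (2 * s - τ)))
    (h2' : Real.log (II f δ θ t (2 * s - τ)) ≤ ((2 * s - τ) ^ 2 / 4 + τ ^ 2 / 16) * L)
    (hmax : ∀ u, t ≤ u → u ≤ t + δ ^ (-θ) → f u ≤ δ ^ (-(s + τ ^ 2 / 16))) :
    (∃ u, t ≤ u ∧ u ≤ t + δ ^ (-θ) ∧ δ ^ (-(s - τ)) ≤ f u) ∧
    ∀ b : ℝ, 2 * s ≤ b → |Real.log (II f δ θ t b) / L - (s * b - s ^ 2)| ≤ τ * (b + 1) := by
  have hlδ : Real.log δ = -L := by rw [hL, one_div, Real.log_inv]; ring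
  have hlp : ∀ x : ℝ, Real.log (δ ^ (-x)) = x * L := by
    intro x
    rw [Real.log_rpow hδ, hlδ]
    ring
  set lam : ℝ := δ ^ (-(s - τ)) with hlam
  have hlam0 : 0 < lam := Real.rpow_pos_of_pos hδ _
  have hllam : Real.log lam = (s - τ) * L := hlp (s - τ)
  set I1 := II f δ θ t (2 * s - 2 * τ) with hI1
  set I2 := II f δ θ t (2 * s - τ) with hI2
  have hI10 : 0 ≤ I1 := II_nonneg hf0 hδ
  have e21 : (2 * s - τ) - (2 * s - 2 * τ) = τ := by ring
  -- the main comparison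
  have hcmp : lam ^ τ * I1 ≤ I2 / 2 := by
    rcases hI10.lt_or_eq with h | h
    · have hpos : 0 < lam ^ τ * I1 := mul_pos (Real.rpow_pos_of_pos hlam0 _) h
      rw [← Real.log_le_log_iff hpos (by linarith), Real.log_mul (Real.rpow_pos_of_pos hlam0 _).ne' h.ne',
        Real.log_rpow hlam0, hllam, Real.log_div h2p.ne' (by norm_num)]
      have e : τ * ((s - τ) * L) + ((2 * s - 2 * τ) ^ 2 / 4 + τ ^ 2 / 16) * L =
          ((2 * s - τ) ^ 2 / 4 - τ ^ 2 / 16) * L - τ ^ 2 / 8 * L := by ring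
      linarith
    · rw [← h, mul_zero]
      linarith
  constructor
  · by_contra hcon
    push Not at hcon
    have h3 := II_upper hf hf0 (b := 2 * s - τ) (b2 := 2 * s - 2 * τ) (θ := θ) (t := t) (Λ := lam) hδ
      (by linarith) (by linarith) (fun u hu hu' => (hcon u hu hu').le)
    rw [e21, ← hI1, ← hI2] at h3
    linarith
  · intro b hb
    have h3 := II_lower hf hf0 (b := b) (b1 := 2 * s - 2 * τ) (b2 := 2 * s - τ) (θ := θ) (t := t) (lam := lam) hδ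
      (by linarith) (by linarith) (by linarith) hlam0
    rw [e21, ← hI1, ← hI2] at h3
    have hp0 : 0 < lam ^ (b - (2 * s - τ)) := Real.rpow_pos_of_pos hlam0 _
    have h4 : lam ^ (b - (2 * s - τ)) * (I2 / 2) ≤ II f δ θ t b :=
      le_trans (mul_le_mul_of_nonneg_left (by linarith) hp0.le) h3
    have h5 : 0 < lam ^ (b - (2 * s - τ)) * (I2 / 2) := mul_pos hp0 (by linarith)
    have hIb : 0 < II f δ θ t b := lt_of_lt_of_le h5 h4
    have hlow : (b - (2 * s - τ)) * ((s - τ) * L) + ((2 * s - τ) ^ 2 / 4 - τ ^ 2 / 16) * L - τ ^ 2 / 8 * L ≤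
        Real.log (II f δ θ t b) := by
      have h6 := Real.log_le_log h5 h4
      rw [Real.log_mul hp0.ne' (by linarith), Real.log_rpow hlam0, hllam,
        Real.log_div h2p.ne' (by norm_num)] at h6
      linarith
    have hΛ0 : 0 < δ ^ (-(s + τ ^ 2 / 16)) := Real.rpow_pos_of_pos hδ _
    have h7 := II_upper hf hf0 (b := b) (b2 := 2 * s - τ) (θ := θ) (t := t) hδ
      (by linarith) (by linarith) hmax
    rw [← hI2] at h7
    have hup : Real.log (II f δ θ t b) ≤ (b - (2 * s - τ)) * ((s + τ ^ 2 / 16) * L) +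
        ((2 * s - τ) ^ 2 / 4 + τ ^ 2 / 16) * L := by
      have h8 := Real.log_le_log hIb h7
      rw [Real.log_mul (Real.rpow_pos_of_pos hΛ0 _).ne' h2p.ne', Real.log_rpow hΛ0, hlp] at h8
      linarith
    have hτ2 : τ ^ 2 ≤ τ / 2 := by nlinarith
    rw [abs_le]
    constructor
    · rw [neg_le_sub_iff_le_add, ← sub_le_iff_le_add, le_div_iff₀ hL0]
      refine le_trans ?_ hlow
      have e : (b - (2 * s - τ)) * ((s - τ) * L) + ((2 * s - τ) ^ 2 / 4 - τ ^ 2 / 16) * L - τ ^ 2 / 8 * L =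
          (s * b - s ^ 2 - τ * (b - 2 * s) - 15 / 16 * τ ^ 2) * L := by ring
      rw [e]
      refine mul_le_mul_of_nonneg_right ?_ hL0.le
      nlinarith
    · rw [sub_le_iff_le_add, div_le_iff₀ hL0]
      refine hup.trans ?_
      have e : (b - (2 * s - τ)) * ((s + τ ^ 2 / 16) * L) + ((2 * s - τ) ^ 2 / 4 + τ ^ 2 / 16) * L =
          (s * b - s ^ 2 + τ ^ 2 / 16 * (b - 2 * s + τ + 1) + τ ^ 2 / 4) * L := by ring
      rw [e]
      refine mul_le_mul_of_nonneg_right ?_ hL0.le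
      have h9 : τ ^ 2 / 16 * (b - 2 * s + τ + 1) ≤ τ ^ 2 / 16 * (b + 1) :=
        mul_le_mul_of_nonneg_left (by linarith) (by positivity)
      have hb0 : 0 < b + 1 := by linarith
      nlinarith [mul_pos hτ hb0]

end det

/-! ### zeta -/

/-- the modulus of zeta on the line -/
noncomputable def fz (δ u : ℝ) : ℝ := ‖riemannZeta (1 / 2 + δ + u * I)‖

lemma fz_cont {δ : ℝ} (_hδ0 : 0 < δ) (hδ : δ < 1 / 2) : Continuous (fz δ) := by
  unfold fz
  refine Continuous.norm ?_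
  rw [continuous_iff_continuousAt]
  intro u
  have h1 : (1 / 2 + (δ : ℂ) + u * I) ≠ 1 := by
    intro h
    have h2 := congrArg Complex.re h
    simp at h2
    linarith
  exact ContinuousAt.comp (f := fun u : ℝ => (1 / 2 + (δ : ℂ) + u * I))
    (differentiableAt_riemannZeta h1).continuousAt (by fun_prop)

lemma fz_nonneg (δ u : ℝ) : 0 ≤ fz δ u := norm_nonneg _

lemma Zn_II (b δ θ t : ℝ) (hδ : 0 < δ) :
    (1 / δ ^ (-θ)) * ∫ u in t..(t + δ ^ (-θ)), Zn (b / 2) δ u =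
      (2 * δ) ^ ((b / 2) ^ 2) / aa (b / 2) * II (fz δ) δ θ t b := by
  have e1 : 1 / δ ^ (-θ) = δ ^ θ := by
    rw [Real.rpow_neg hδ.le, one_div, inv_inv]
  have e2 : 2 * (b / 2) = b := by ring
  have e3 : ∫ u in t..(t + δ ^ (-θ)), Zn (b / 2) δ u =
      (2 * δ) ^ ((b / 2) ^ 2) / aa (b / 2) * ∫ u in t..(t + δ ^ (-θ)), fz δ u ^ b := by
    rw [← intervalIntegral.integral_const_mul]
    congr 1
    ext u
    unfold Zn fz
    rw [e2]
  rw [e1, e3]
  unfold II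
  ring

lemma core_b (hC : S_CORE3) {θ b κ ε : ℝ} (hθ : 0 < θ) (hb : 0 < b) (hb2 : b < 2 * Real.sqrt (1 + θ))
    (hκ : 0 < κ) (hε : 0 < ε) : ∃ lam δ0 : ℝ, 0 < lam ∧ 0 < δ0 ∧ δ0 ≤ 1 / 16 ∧ ∀ᶠ X : ℝ in atTop,
    ∀ δ : ℝ, 0 < δ → δ ≤ δ0 → lam * Real.log (1 / δ) ^ 2 ≤ δ * Real.log X →
    volume {t : ℝ | 0 ≤ t ∧ t ≤ X ∧ ¬ (0 < II (fz δ) δ θ t b ∧
      |Real.log (II (fz δ) δ θ t b) - b ^ 2 / 4 * Real.log (1 / δ)| ≤ κ * Real.log (1 / δ))} ≤
      ENNReal.ofReal (ε * X) := by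
  have hsq : Real.sqrt (1 + θ) ^ 2 = 1 + θ := Real.sq_sqrt (by linarith)
  have hs0 : 0 ≤ Real.sqrt (1 + θ) := Real.sqrt_nonneg _
  have hcond : (b / 2) ^ 2 - 1 < θ := by nlinarith
  obtain ⟨lam, δ0, hlam, hδ0, hδ1, hev⟩ := hC (b / 2) (by positivity) θ hθ hcond θ le_rfl ε hε (1 / 2) (by norm_num)
  set Cb : ℝ := Real.log 2 * (1 + b ^ 2 / 4) + |Real.log (aa (b / 2))| with hCb
  have hl2 : 0 < Real.log 2 := Real.log_pos (by norm_num)
  refine ⟨lam, min δ0 (Real.exp (-(Cb / κ))), hlam, lt_min hδ0 (Real.exp_pos _), (min_le_left _ _).trans hδ1, ?_⟩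
  filter_upwards [hev] with X hX δ hδ hδu hlamδ
  refine le_trans (measure_mono ?_) (hX δ hδ (hδu.trans (min_le_left _ _)) hlamδ (δ ^ (-θ)) le_rfl le_rfl)
  rintro t ⟨ht0, htX, hbad⟩
  refine ⟨ht0, htX, ?_⟩
  by_contra hcon
  push Not at hcon
  apply hbad
  rw [Zn_II b δ θ t hδ] at hcon
  set P : ℝ := (2 * δ) ^ ((b / 2) ^ 2) / aa (b / 2) with hP
  set J : ℝ := II (fz δ) δ θ t b with hJ
  have hJ0 : 0 ≤ J := II_nonneg (fz_nonneg δ) hδ
  obtain ⟨h1, h2⟩ := abs_lt.1 hcon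
  have h3 : 0 < P * J := by linarith
  have hJp : 0 < J := by
    rcases hJ0.lt_or_eq with h | h
    · exact h
    · rw [← h, mul_zero] at h3
      exact absurd h3 (lt_irrefl _)
  have hPp : 0 < P := by
    by_contra hn
    push Not at hn
    have := mul_nonpos_of_nonpos_of_nonneg hn hJ0
    linarith
  refine ⟨hJp, ?_⟩
  have hA : aa (b / 2) ≠ 0 := by
    intro h
    rw [hP, h, div_zero] at hPp
    exact lt_irrefl _ hPp
  have h2δ : 0 < 2 * δ := by linarith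
  have hlP : Real.log P = (b / 2) ^ 2 * (Real.log 2 - Real.log (1 / δ)) - Real.log (aa (b / 2)) := by
    rw [hP, Real.log_div (Real.rpow_pos_of_pos h2δ _).ne' hA, Real.log_rpow h2δ,
      Real.log_mul (by norm_num) hδ.ne', one_div, Real.log_inv]
    ring
  have h4 : Real.log (P * J) = Real.log P + Real.log J := Real.log_mul hPp.ne' hJp.ne'
  have h5 : -Real.log 2 ≤ Real.log (P * J) := by
    rw [← Real.log_inv]
    refine Real.log_le_log (by norm_num) ?_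
    norm_num
    linarith
  have h6 : Real.log (P * J) ≤ Real.log 2 := Real.log_le_log h3 (by linarith)
  have hLb : Cb ≤ κ * Real.log (1 / δ) := by
    have h7 : δ ≤ Real.exp (-(Cb / κ)) := hδu.trans (min_le_right _ _)
    have h8 : Real.log δ ≤ -(Cb / κ) := by
      rw [← Real.log_exp (-(Cb / κ))]
      exact Real.log_le_log hδ h7
    rw [one_div, Real.log_inv]
    have h9 : Cb / κ ≤ -Real.log δ := by linarith
    rw [div_le_iff₀ hκ] at h9
    linarith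
  refine le_trans ?_ hLb
  have e : Real.log J - b ^ 2 / 4 * Real.log (1 / δ) =
      Real.log (P * J) - b ^ 2 / 4 * Real.log 2 + Real.log (aa (b / 2)) := by
    rw [h4, hlP]
    ring
  have hb4 : 0 ≤ b ^ 2 / 4 * Real.log 2 := by positivity
  have ha1 := le_abs_self (Real.log (aa (b / 2)))
  have ha2 := neg_abs_le (Real.log (aa (b / 2)))
  rw [e, hCb, abs_le]
  constructor <;> linarith

theorem main (hC : S_CORE3) (hS : S_SUPZ) : S_FE := by
  intro θ hθ β hβ η hη ε hε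
  have hsq : Real.sqrt (1 + θ) ^ 2 = 1 + θ := Real.sq_sqrt (by linarith)
  have hs1 : 1 ≤ Real.sqrt (1 + θ) := by
    rw [Real.one_le_sqrt]
    linarith
  obtain ⟨s, hs⟩ : ∃ s, s = Real.sqrt (1 + θ) := ⟨_, rfl⟩
  rw [← hs] at hsq hs1
  obtain ⟨τ, hτd⟩ : ∃ τ, τ = min (1 / 2) (η / (β + 1)) := ⟨_, rfl⟩
  have hb1 : 0 < β + 1 := by linarith
  have hτ0 : 0 < τ := by rw [hτd]; exact lt_min (by norm_num) (by positivity)
  have hτ1 : τ ≤ 1 / 2 := by rw [hτd]; exact min_le_left _ _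
  have hτη : τ * (β + 1) ≤ η := by
    have : τ ≤ η / (β + 1) := by rw [hτd]; exact min_le_right _ _
    rwa [le_div_iff₀ hb1] at this
  have hτη' : τ ≤ η := by nlinarith
  have hκ0 : 0 < τ ^ 2 / 16 := by positivity
  have hκτ : τ ^ 2 / 16 ≤ τ := by nlinarith
  obtain ⟨b3, hb3⟩ : ∃ b3 : ℝ, b3 = if β < 2 * s then β else 2 * s - τ := ⟨_, rfl⟩
  have hb30 : 0 < b3 := by
    rw [hb3]; split_ifs
    · exact hβ
    · linarith
  have hb32 : b3 < 2 * s := by
    rw [hb3]; split_ifs with h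
    · exact h
    · linarith
  obtain ⟨l1, d1, hl1, hd1, hd1', ev1⟩ := core_b hC (θ := θ) (b := 2 * s - 2 * τ) (κ := τ ^ 2 / 16) (ε := ε / 4) hθ
    (by linarith) (by rw [← hs]; linarith) hκ0 (by positivity)
  obtain ⟨l2, d2, hl2, hd2, hd2', ev2⟩ := core_b hC (θ := θ) (b := 2 * s - τ) (κ := τ ^ 2 / 16) (ε := ε / 4) hθ
    (by linarith) (by rw [← hs]; linarith) hκ0 (by positivity)
  obtain ⟨l3, d3, hl3, hd3, hd3', ev3⟩ := core_b hC (θ := θ) (b := b3) (κ := τ ^ 2 / 16) (ε := ε / 4) hθ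
    hb30 (by rw [← hs]; exact hb32) hκ0 (by positivity)
  obtain ⟨l4, d4, hl4, hd4, hd4', ev4⟩ := hS θ hθ.le (min (ε / 4) (τ ^ 2 / 16)) (lt_min (by positivity) hκ0)
  set d5 : ℝ := Real.exp (-(8 * Real.log 2 / τ ^ 2)) with hd5
  refine ⟨max (max l1 l2) (max l3 l4), min (min (min d1 d2) (min d3 d4)) d5,
    lt_of_lt_of_le hl1 ((le_max_left _ _).trans (le_max_left _ _)),
    lt_min (lt_min (lt_min hd1 hd2) (lt_min hd3 hd4)) (Real.exp_pos _),
    (min_le_left _ _).trans ((min_le_left _ _).trans ((min_le_left _ _).trans hd1')), ?_⟩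
  filter_upwards [ev1, ev2, ev3, ev4, eventually_ge_atTop (0:ℝ)] with X h1 h2 h3 h4 hX0 δ hδ hδu hlam
  have hu1 : δ ≤ d1 := hδu.trans ((min_le_left _ _).trans ((min_le_left _ _).trans (min_le_left _ _)))
  have hu2 : δ ≤ d2 := hδu.trans ((min_le_left _ _).trans ((min_le_left _ _).trans (min_le_right _ _)))
  have hu3 : δ ≤ d3 := hδu.trans ((min_le_left _ _).trans ((min_le_right _ _).trans (min_le_left _ _)))
  have hu4 : δ ≤ d4 := hδu.trans ((min_le_left _ _).trans ((min_le_right _ _).trans (min_le_right _ _)))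
  have hu5 : δ ≤ d5 := hδu.trans (min_le_right _ _)
  have hsqL : 0 ≤ Real.log (1 / δ) ^ 2 := sq_nonneg _
  have k1 := h1 δ hδ hu1 (le_trans (mul_le_mul_of_nonneg_right
    ((le_max_left _ _).trans (le_max_left _ _)) hsqL) hlam)
  have k2 := h2 δ hδ hu2 (le_trans (mul_le_mul_of_nonneg_right
    ((le_max_right _ _).trans (le_max_left _ _)) hsqL) hlam)
  have k3 := h3 δ hδ hu3 (le_trans (mul_le_mul_of_nonneg_right
    ((le_max_left _ _).trans (le_max_right _ _)) hsqL) hlam)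
  have k4 := h4 δ hδ hu4 (le_trans (mul_le_mul_of_nonneg_right
    ((le_max_right _ _).trans (le_max_right _ _)) hsqL) hlam)
  have hδ16 : δ ≤ 1 / 16 := hu1.trans hd1'
  have hδ1 : δ < 1 := by linarith
  obtain ⟨L, hL⟩ : ∃ L, L = Real.log (1 / δ) := ⟨_, rfl⟩
  have hL0 : 0 < L := by
    rw [hL]
    refine Real.log_pos ?_
    rw [lt_div_iff₀ hδ]
    linarith
  have hlog2 : Real.log 2 ≤ τ ^ 2 / 8 * L := by
    have h8 : Real.log δ ≤ -(8 * Real.log 2 / τ ^ 2) := by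
      rw [← Real.log_exp (-(8 * Real.log 2 / τ ^ 2))]
      exact Real.log_le_log hδ hu5
    have h9 : 8 * Real.log 2 / τ ^ 2 ≤ L := by
      rw [hL, one_div, Real.log_inv]
      linarith
    rw [div_le_iff₀ (by positivity)] at h9
    linarith
  rw [← hs]
  rw [← hs] at k4
  rw [← hL] at k1 k2 k3 ⊢
  set B1 := {t : ℝ | 0 ≤ t ∧ t ≤ X ∧ ¬ (0 < II (fz δ) δ θ t (2 * s - 2 * τ) ∧
      |Real.log (II (fz δ) δ θ t (2 * s - 2 * τ)) - (2 * s - 2 * τ) ^ 2 / 4 * L| ≤ τ ^ 2 / 16 * L)} with hB1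
  set B2 := {t : ℝ | 0 ≤ t ∧ t ≤ X ∧ ¬ (0 < II (fz δ) δ θ t (2 * s - τ) ∧
      |Real.log (II (fz δ) δ θ t (2 * s - τ)) - (2 * s - τ) ^ 2 / 4 * L| ≤ τ ^ 2 / 16 * L)} with hB2
  set B3 := {t : ℝ | 0 ≤ t ∧ t ≤ X ∧ ¬ (0 < II (fz δ) δ θ t b3 ∧
      |Real.log (II (fz δ) δ θ t b3) - b3 ^ 2 / 4 * L| ≤ τ ^ 2 / 16 * L)} with hB3
  set B4 := {t : ℝ | 0 ≤ t ∧ t ≤ X ∧ ∃ u : ℝ, t ≤ u ∧ u ≤ t + δ ^ (-θ) ∧
      δ ^ (-(s + min (ε / 4) (τ ^ 2 / 16))) ≤ ‖riemannZeta (1 / 2 + δ + u * I)‖} with hB4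
  have hsub : {t : ℝ | 0 ≤ t ∧ t ≤ X ∧ ¬ (
      |Real.log (δ ^ θ * ∫ u in t..(t + δ ^ (-θ)), ‖riemannZeta (1 / 2 + δ + u * I)‖ ^ β) / L - fe θ β| ≤ η ∧
      (∀ u : ℝ, t ≤ u → u ≤ t + δ ^ (-θ) → ‖riemannZeta (1 / 2 + δ + u * I)‖ ≤ δ ^ (-(s + η))) ∧
      ∃ u : ℝ, t ≤ u ∧ u ≤ t + δ ^ (-θ) ∧ δ ^ (-(s - η)) ≤ ‖riemannZeta (1 / 2 + δ + u * I)‖)} ⊆
      (B1 ∪ B2) ∪ (B3 ∪ B4) := by
    rintro t ⟨ht0, htX, hbad⟩
    by_contra hcon
    simp only [Set.mem_union, not_or] at hcon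
    obtain ⟨⟨n1, n2⟩, n3, n4⟩ := hcon
    have m1 : 0 < II (fz δ) δ θ t (2 * s - 2 * τ) ∧
        |Real.log (II (fz δ) δ θ t (2 * s - 2 * τ)) - (2 * s - 2 * τ) ^ 2 / 4 * L| ≤ τ ^ 2 / 16 * L := by
      by_contra h
      exact n1 ⟨ht0, htX, h⟩
    have m2 : 0 < II (fz δ) δ θ t (2 * s - τ) ∧
        |Real.log (II (fz δ) δ θ t (2 * s - τ)) - (2 * s - τ) ^ 2 / 4 * L| ≤ τ ^ 2 / 16 * L := by
      by_contra h
      exact n2 ⟨ht0, htX, h⟩
    have m3 : 0 < II (fz δ) δ θ t b3 ∧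
        |Real.log (II (fz δ) δ θ t b3) - b3 ^ 2 / 4 * L| ≤ τ ^ 2 / 16 * L := by
      by_contra h
      exact n3 ⟨ht0, htX, h⟩
    have m4 : ∀ u : ℝ, t ≤ u → u ≤ t + δ ^ (-θ) → fz δ u < δ ^ (-(s + min (ε / 4) (τ ^ 2 / 16))) := by
      intro u hu hu'
      by_contra h
      push Not at h
      exact n4 ⟨ht0, htX, u, hu, hu', h⟩
    have m5 : ∀ u : ℝ, t ≤ u → u ≤ t + δ ^ (-θ) → fz δ u ≤ δ ^ (-(s + τ ^ 2 / 16)) := by
      intro u hu hu'
      refine (m4 u hu hu').le.trans ?_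
      refine Real.rpow_le_rpow_of_exponent_ge hδ hδ1.le ?_
      have := min_le_right (ε / 4) (τ ^ 2 / 16)
      linarith
    obtain ⟨a1, a2⟩ := abs_le.1 m1.2
    obtain ⟨a3, a4⟩ := abs_le.1 m2.2
    obtain ⟨⟨u0, hu0, hu0', hu0''⟩, hmom⟩ := det (fz_cont hδ (by linarith)) (fz_nonneg δ) (θ := θ) (t := t) hδ hL hL0
      hs1 hτ0 hτ1 hlog2 (by linarith) m2.1 (by linarith) (by linarith) m5
    apply hbad
    refine ⟨?_, ?_, u0, hu0, hu0', ?_⟩
    · show |Real.log (II (fz δ) δ θ t β) / L - fe θ β| ≤ η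
      unfold fe
      rw [← hs]
      rcases lt_or_ge β (2 * s) with hlt | hge
      · rw [if_pos hlt.le]
        have e3 : b3 = β := by rw [hb3, if_pos hlt]
        rw [e3] at m3
        have e4 : Real.log (II (fz δ) δ θ t β) / L - β ^ 2 / 4 =
            (Real.log (II (fz δ) δ θ t β) - β ^ 2 / 4 * L) / L := by
          field_simp
        rw [e4, abs_div, abs_of_pos hL0, div_le_iff₀ hL0]
        refine m3.2.trans (mul_le_mul_of_nonneg_right ?_ hL0.le)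
        linarith
      · have e5 : (if β ≤ 2 * s then β ^ 2 / 4 else s * β - (1 + θ)) = s * β - s ^ 2 := by
          split_ifs with h
          · have : β = 2 * s := le_antisymm h hge
            rw [this]
            ring
          · rw [hsq]
        rw [e5]
        exact (hmom β hge).trans hτη
    · intro u hu hu'
      refine (m5 u hu hu').trans ?_
      refine Real.rpow_le_rpow_of_exponent_ge hδ hδ1.le ?_
      linarith
    · refine le_trans ?_ hu0''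
      refine Real.rpow_le_rpow_of_exponent_ge hδ hδ1.le ?_
      linarith
  have hk4 : volume B4 ≤ ENNReal.ofReal (ε / 4 * X) := by
    refine k4.trans (ENNReal.ofReal_le_ofReal ?_)
    exact mul_le_mul_of_nonneg_right (min_le_left _ _) hX0
  calc _ ≤ volume ((B1 ∪ B2) ∪ (B3 ∪ B4)) := measure_mono hsub
    _ ≤ volume (B1 ∪ B2) + volume (B3 ∪ B4) := measure_union_le _ _
    _ ≤ (volume B1 + volume B2) + (volume B3 + volume B4) :=
        add_le_add (measure_union_le _ _) (measure_union_le _ _)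
    _ ≤ (ENNReal.ofReal (ε / 4 * X) + ENNReal.ofReal (ε / 4 * X)) +
        (ENNReal.ofReal (ε / 4 * X) + ENNReal.ofReal (ε / 4 * X)) :=
        add_le_add (add_le_add k1 k2) (add_le_add k3 hk4)
    _ = ENNReal.ofReal (ε * X) := by
        have h0 : 0 ≤ ε / 4 * X := by positivity
        rw [← ENNReal.ofReal_add h0 h0, ← ENNReal.ofReal_add (by positivity) (by positivity)]
        congr 1
        ring

end Pool.Agent.N748.HM.FE
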