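import Pool.Agent.N748.HM.Stm
import Pool.Agent.N748.GC.Clo
import Pool.Agent.N748.GC.Ts
import Pool.Agent.N748.GC.MOM
import Pool.Agent.N748.GC.QC

set_option autoImplicit false

/-! Part NRM: the normalising constants. -/

namespace Pool.Agent.N748.HM.NRMb

open Finset Filter MeasureTheory Topology Complex
open Pool.Agent.N748.GC
open Pool.Agent.Y755
open Pool.Agent.H306R2 (aF aF_pos)

/-- the haar measure of the circle -/
local instance : IsProbabilityMeasure (AddCircle.haarAddCircle (T := (1:ℝ))) := inferInstance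

lemma pars {α r : ℝ} (hα : 0 ≤ α) (hr0 : 0 ≤ r) (hr1 : r < 1) :
    ∫ y, Real.exp (-(2 * α) * Real.log ‖1 - (fourier 1 y : ℂ) * ((r : ℝ) : ℂ)‖) ∂(AddCircle.haarAddCircle (T := (1:ℝ))) =
      ∑' k : ℕ, H306R2.lc α k ^ 2 * (r ^ 2) ^ k := by
  set μ := AddCircle.haarAddCircle (T := (1:ℝ)) with hμ
  set a : ℕ → ℝ := fun k => H306R2.lc α k * r ^ k with ha
  have ha0 : ∀ k, 0 ≤ a k := fun k => mul_nonneg (H306R2.lc_nonneg hα k) (pow_nonneg hr0 k)
  have hsum : Summable a := by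
    have h2 := (lc_hasSum α (x := ((r : ℝ) : ℂ)) (by
      rw [Complex.norm_real, Real.norm_of_nonneg hr0]; exact hr1)).summable.norm
    refine h2.congr fun k => ?_
    rw [← Complex.ofReal_pow, ← Complex.ofReal_mul, Complex.norm_real, Real.norm_of_nonneg (ha0 k)]
  have hn1 : ∀ y : UnitAddCircle, ‖(fourier 1 y : ℂ)‖ = 1 := fun y => by rw [fourier_one]; exact Circle.norm_coe _
  have hnk : ∀ (k : ℤ) (y : UnitAddCircle), ‖(fourier k y : ℂ)‖ = 1 := fun k y => by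
    rw [fourier_apply]; exact Circle.norm_coe _
  have hpow : ∀ (k : ℕ) (y : UnitAddCircle), (fourier 1 y : ℂ) ^ k = fourier (k : ℤ) y := fun k y => by
    rw [fourier_apply, fourier_apply, one_smul, ← Circle.coe_pow, ← AddCircle.toCircle_nsmul, natCast_zsmul]
  have hF : ∀ y : UnitAddCircle, HasSum (fun k : ℕ => (a k : ℂ) * fourier (k:ℤ) y)
      (1 / (1 - (fourier 1 y : ℂ) * ((r : ℝ) : ℂ)) ^ (α : ℂ)) := fun y => by
    have h := lc_hasSum α (x := (fourier 1 y : ℂ) * ((r : ℝ) : ℂ)) (by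
      rw [norm_mul, hn1, one_mul, Complex.norm_real, Real.norm_of_nonneg hr0]; exact hr1)
    refine h.congr_fun fun k => ?_
    rw [mul_pow, hpow, ha]
    push_cast
    ring
  have hFn : ∀ y : UnitAddCircle, Summable fun k : ℕ => ‖(a k : ℂ) * fourier (k:ℤ) y‖ := fun y => by
    refine hsum.congr fun k => ?_
    rw [norm_mul, hnk, mul_one, Complex.norm_real, Real.norm_of_nonneg (ha0 k)]
  have hGn : ∀ y : UnitAddCircle, Summable fun k : ℕ => ‖(starRingEnd ℂ) ((a k : ℂ) * fourier (k:ℤ) y)‖ := fun y => by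
    refine (hFn y).congr fun k => ?_
    rw [Complex.norm_conj]
  have hG : ∀ y : UnitAddCircle, HasSum (fun k : ℕ => (starRingEnd ℂ) ((a k : ℂ) * fourier (k:ℤ) y))
      ((starRingEnd ℂ) (1 / (1 - (fourier 1 y : ℂ) * ((r : ℝ) : ℂ)) ^ (α : ℂ))) := fun y => by
    exact (hF y).map (starRingEnd ℂ) Complex.continuous_conj
  have hsq : ∀ y : UnitAddCircle, ((Real.exp (-(2 * α) * Real.log ‖1 - (fourier 1 y : ℂ) * ((r : ℝ) : ℂ)‖) : ℝ) : ℂ) =
      ∑' q : ℕ × ℕ, ((a q.1 : ℂ) * fourier (q.1:ℤ) y) * (starRingEnd ℂ) ((a q.2 : ℂ) * fourier (q.2:ℤ) y) := fun y => by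
    rw [← tsum_mul_tsum_of_summable_norm (hFn y) (hGn y), (hF y).tsum_eq, (hG y).tsum_eq, Complex.mul_conj,
      Complex.normSq_eq_norm_sq, norm_div, norm_one, Complex.norm_cpow_real]
    have hne : 0 < ‖1 - (fourier 1 y : ℂ) * ((r : ℝ) : ℂ)‖ := by
      rw [norm_pos_iff, sub_ne_zero]
      intro h
      have := congrArg norm h
      rw [norm_mul, hn1, one_mul, Complex.norm_real, Real.norm_of_nonneg hr0, norm_one] at this
      linarith
    congr 1
    rw [one_div, inv_pow, ← Real.rpow_natCast, ← Real.rpow_mul hne.le, ← Real.rpow_neg hne.le, Real.rpow_def_of_pos hne]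
    congr 1
    push_cast
    ring
  have hint : ∀ q : ℕ × ℕ, ∫ y, ((a q.1 : ℂ) * fourier (q.1:ℤ) y) * (starRingEnd ℂ) ((a q.2 : ℂ) * fourier (q.2:ℤ) y) ∂μ =
      if q.1 = q.2 then ((a q.1 ^ 2 : ℝ) : ℂ) else 0 := fun q => by
    have h1 : ∀ y : UnitAddCircle, ((a q.1 : ℂ) * fourier (q.1:ℤ) y) * (starRingEnd ℂ) ((a q.2 : ℂ) * fourier (q.2:ℤ) y) =
        ((a q.1 : ℂ) * (a q.2 : ℂ)) * fourier ((q.1:ℤ) + -(q.2:ℤ)) y := fun y => by
      rw [map_mul, Complex.conj_ofReal, fourier_add, ← fourier_neg]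
      ring
    simp only [h1]
    rw [integral_const_mul]
    split_ifs with h
    · rw [h, add_neg_cancel]
      simp only [fourier_zero, integral_const, smul_eq_mul, mul_one]
      rw [show μ.real Set.univ = 1 from by simp [Measure.real, hμ]]
      push_cast
      rw [Complex.real_smul]
      push_cast
      ring
    · rw [MOM.int_fourier _ (by
        intro h2
        exact h (by exact_mod_cast (by linarith : (q.1:ℤ) = q.2))), mul_zero]
  have hnorm : ∀ q : ℕ × ℕ, ∀ y : UnitAddCircle,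
      ‖((a q.1 : ℂ) * fourier (q.1:ℤ) y) * (starRingEnd ℂ) ((a q.2 : ℂ) * fourier (q.2:ℤ) y)‖ = a q.1 * a q.2 := fun q y => by
    rw [norm_mul, Complex.norm_conj, norm_mul, norm_mul, hnk, hnk, mul_one, mul_one, Complex.norm_real, Complex.norm_real,
      Real.norm_of_nonneg (ha0 _), Real.norm_of_nonneg (ha0 _)]
  have hsum2 : Summable fun q : ℕ × ℕ => a q.1 * a q.2 := hsum.mul_of_nonneg hsum ha0 ha0
  have key : HasSum (fun q : ℕ × ℕ => ∫ y, ((a q.1 : ℂ) * fourier (q.1:ℤ) y) * (starRingEnd ℂ) ((a q.2 : ℂ) * fourier (q.2:ℤ) y) ∂μ)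
      (∫ y, ∑' q : ℕ × ℕ, ((a q.1 : ℂ) * fourier (q.1:ℤ) y) * (starRingEnd ℂ) ((a q.2 : ℂ) * fourier (q.2:ℤ) y) ∂μ) := by
    refine hasSum_integral_of_summable_integral_norm (fun q => ?_) ?_
    · refine Continuous.integrable_of_hasCompactSupport ?_ (HasCompactSupport.of_compactSpace _)
      exact (continuous_const.mul (fourier _).continuous).mul
        (Complex.continuous_conj.comp (continuous_const.mul (fourier _).continuous))
    · refine hsum2.congr fun q => ?_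
      simp only [hnorm q, integral_const, smul_eq_mul]
      rw [show μ.real Set.univ = 1 from by simp [Measure.real, hμ], one_mul]
  simp only [hint, ← hsq] at key
  rw [integral_complex_ofReal] at key
  have key2 : HasSum (fun q : ℕ × ℕ => if q.1 = q.2 then a q.1 ^ 2 else 0)
      (∫ y, Real.exp (-(2 * α) * Real.log ‖1 - (fourier 1 y : ℂ) * ((r : ℝ) : ℂ)‖) ∂μ) := by
    refine Complex.hasSum_ofReal.1 (key.congr_fun fun q => ?_)
    by_cases h : q.1 = q.2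
    · simp only [if_pos h]
    · simp only [if_neg h, Complex.ofReal_zero]
  have key3 : HasSum (fun k : ℕ => a k ^ 2)
      (∫ y, Real.exp (-(2 * α) * Real.log ‖1 - (fourier 1 y : ℂ) * ((r : ℝ) : ℂ)‖) ∂μ) := by
    have hinj : Function.Injective (fun k : ℕ => ((k, k) : ℕ × ℕ)) := fun k l h => (Prod.mk.inj h).1
    have h4 := (hinj.hasSum_iff (f := fun q : ℕ × ℕ => if q.1 = q.2 then a q.1 ^ 2 else 0)
      (a := ∫ y, Real.exp (-(2 * α) * Real.log ‖1 - (fourier 1 y : ℂ) * ((r : ℝ) : ℂ)‖) ∂μ) (by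
        intro q hq
        have : q.1 ≠ q.2 := fun h => hq ⟨q.1, Prod.ext rfl h⟩
        simp [this])).2 key2
    refine h4.congr_fun fun k => ?_
    simp
  rw [← key3.tsum_eq]
  refine tsum_congr fun k => ?_
  rw [ha]
  ring

lemma E0_eq {α : ℝ} (hα : 0 ≤ α) (z : ℕ) : E0 α (Sm z) = ∏ p ∈ S0 z, Ed α 0 p := by
  unfold E0
  rw [← Finset.prod_coe_sort (S0 z)]
  refine Finset.prod_congr rfl fun p _ => ?_
  have hp : (p:ℕ).Prime := QC.Sm_prime z p p.2
  have hp0 : (0:ℝ) < (p:ℕ) := by exact_mod_cast hp.pos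
  have hp1 : (1:ℝ) < (p:ℕ) := by exact_mod_cast hp.one_lt
  have h1 : ∀ y : UnitAddCircle, lw α p y =
      -(2 * α) * Real.log ‖1 - (fourier 1 y : ℂ) * (((rp 0 p) : ℝ) : ℂ)‖ := fun y => by
    unfold lw rp
    rw [neg_add, ]
    simp
  simp only [h1]
  rw [pars hα (by unfold rp; positivity) (by
    unfold rp
    exact Real.rpow_lt_one_of_one_lt_of_neg hp1 (by norm_num))]
  rfl

lemma Ed_lim {α : ℝ} (p : ℕ) (hp : p.Prime) :
    Tendsto (fun δ : ℝ => Ed α δ p) (𝓝[>] 0) (𝓝 (Ed α 0 p)) := by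
  have hp1 : (1:ℝ) ≤ (p:ℝ) := by exact_mod_cast hp.one_lt.le
  have hp0 : (0:ℝ) < (p:ℝ) := by linarith
  unfold Ed
  refine tendsto_tsum_of_dominated_convergence (bound := fun k : ℕ => H306R2.lc α k ^ 2 * (rp 0 p ^ 2) ^ k)
    (Ed_summable le_rfl hp) (fun k => ?_) ?_
  · refine Tendsto.mono_left ?_ nhdsWithin_le_nhds
    have hc : Continuous fun δ : ℝ => H306R2.lc α k ^ 2 * (rp δ p ^ 2) ^ k := by
      unfold rp
      exact continuous_const.mul (((Real.continuous_const_rpow hp0.ne').comp (by fun_prop)).pow 2 |>.pow k)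
    exact hc.tendsto 0
  · filter_upwards [self_mem_nhdsWithin] with δ hδ k
    have hδ0 : 0 < δ := hδ
    rw [Real.norm_of_nonneg (by positivity)]
    refine mul_le_mul_of_nonneg_left ?_ (sq_nonneg _)
    refine pow_le_pow_left₀ (sq_nonneg _) ?_ k
    refine pow_le_pow_left₀ (rp_pos δ hp).le ?_ 2
    unfold rp
    exact Real.rpow_le_rpow_of_exponent_le hp1 (by linarith)

lemma prod_near {α : ℝ} (hα : 0 < α) (z : ℕ) {ε : ℝ} (hε : 0 < ε) : ∃ δ0 : ℝ, 0 < δ0 ∧ ∀ δ : ℝ, 0 < δ → δ ≤ δ0 →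
    |(∏ p ∈ S0 z, Ed α δ p) - E0 α (Sm z)| ≤ ε * E0 α (Sm z) := by
  have hE : 0 < E0 α (Sm z) := QC.E0_pos α (QC.Sm_prime z)
  have h1 : Tendsto (fun δ : ℝ => ∏ p ∈ S0 z, Ed α δ p) (𝓝[>] 0) (𝓝 (E0 α (Sm z))) := by
    rw [E0_eq hα.le]
    exact tendsto_finset_prod _ fun p hp => Ed_lim p (mem_filter.1 hp).2
  have h2 := h1.eventually (Metric.closedBall_mem_nhds (E0 α (Sm z)) (ε := ε * E0 α (Sm z)) (by positivity))
  obtain ⟨u, hu, h3⟩ := mem_nhdsGT_iff_exists_Ioc_subset.1 h2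
  refine ⟨u, hu, fun δ hδ hδ2 => ?_⟩
  have h4 := h3 ⟨hδ, hδ2⟩
  exact h4

theorem main : S_NRM := by
  intro α hα ε hε
  obtain ⟨e, he⟩ : ∃ e : ℝ, e = min ε 1 / 10 := ⟨_, rfl⟩
  have he0 : 0 < e := by rw [he]; positivity
  have he1 : e ≤ 1 / 10 := by rw [he]; linarith [min_le_right ε 1]
  have heε : 10 * e ≤ ε := by rw [he]; linarith [min_le_left ε 1]
  obtain ⟨z1, x0, hx0, hc⟩ := cmp hα he0
  obtain ⟨δ1, hδ1, hD⟩ := DD_unif hα he0
  refine ⟨max z1 1000, fun z hz => ?_⟩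
  obtain ⟨δ2, hδ2, hP⟩ := prod_near hα z he0
  refine ⟨x0, min δ1 δ2, lt_min hδ1 hδ2, fun δ hδ hδm y J hzy hJ hx => ?_⟩
  obtain ⟨c1, c2⟩ := hc z ((le_max_left _ _).trans hz) ((le_max_right _ _).trans hz) y δ hzy hδ hx J hJ
  have d1 := hD δ hδ (hδm.trans (min_le_left _ _))
  have p1 := hP δ hδ (hδm.trans (min_le_right _ _))
  have ha : 0 < aF α := aF_pos hα
  have hE : 0 < E0 α (Sm z) := QC.E0_pos α (QC.Sm_prime z)
  have hDD : 0 < DD α δ := lt_of_lt_of_le one_pos (DD_ge_one hα hδ)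
  rw [aa_eq, VB_eq]
  set P := ∏ p ∈ S0 z, Ed α δ p with hPd
  set V := Real.exp (α ^ 2 * Vd δ z y J) with hV
  have hV0 : 0 < V := Real.exp_pos _
  set E := E0 α (Sm z) with hEd
  set D := DD α δ with hDd
  set c := (2 * δ) ^ (α ^ 2) with hcd
  have hc0 : 0 < c := Real.rpow_pos_of_pos (by linarith) _
  rw [abs_le] at d1 p1 ⊢
  have hPp : 0 < P := by nlinarith [p1.1]
  obtain ⟨u, hu⟩ : ∃ u, u = c * D / aF α := ⟨_, rfl⟩
  obtain ⟨v, hv⟩ : ∃ v, v = P * V / D := ⟨_, rfl⟩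
  obtain ⟨w, hw⟩ : ∃ w, w = E / P := ⟨_, rfl⟩
  have e0 : c / aF α * (E * V) = u * v * w := by
    rw [hu, hv, hw]
    field_simp
  have u1 : 1 - e ≤ u := by
    rw [hu, le_div_iff₀ ha]; linarith [d1.1]
  have u2 : u ≤ 1 + e := by
    rw [hu, div_le_iff₀ ha]; linarith [d1.2]
  have v1 : 1 - e ≤ v := by
    rw [hv, le_div_iff₀ hDD]
    refine le_trans ?_ c1
    exact mul_le_mul_of_nonneg_right (by linarith [Real.add_one_le_exp (-e)]) hDD.le
  have v2 : v ≤ 1 + 2 * e := by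
    rw [hv, div_le_iff₀ hDD]
    refine c2.trans ?_
    refine mul_le_mul_of_nonneg_right ?_ hDD.le
    have h1 := Real.abs_exp_sub_one_le (x := e) (by rw [abs_of_nonneg he0.le]; linarith)
    rw [abs_of_nonneg he0.le] at h1
    linarith [(abs_le.1 h1).2]
  have w1 : 1 - 2 * e ≤ w := by
    rw [hw, le_div_iff₀ hPp]
    nlinarith [p1.1, p1.2]
  have w2 : w ≤ 1 + 2 * e := by
    rw [hw, div_le_iff₀ hPp]
    nlinarith [p1.1, p1.2]
  rw [e0]
  have uv1 : (1 - e) * (1 - e) ≤ u * v := mul_le_mul u1 v1 (by linarith) (by linarith)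
  have uv2 : u * v ≤ (1 + e) * (1 + 2 * e) := mul_le_mul u2 v2 (by linarith) (by linarith)
  have uvw1 : ((1 - e) * (1 - e)) * (1 - 2 * e) ≤ u * v * w := mul_le_mul uv1 w1 (by linarith) (by nlinarith)
  have uvw2 : u * v * w ≤ ((1 + e) * (1 + 2 * e)) * (1 + 2 * e) := mul_le_mul uv2 w2 (by linarith) (by nlinarith)
  constructor
  · nlinarith
  · nlinarith

end Pool.Agent.N748.HM.NRMb
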