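import Pool.Agent.N748.HM.Stm3
import Pool.Agent.N748.GC.Cor1

set_option autoImplicit false

/-! Truncated moments and large deviations. -/

namespace Pool.Agent.N748.HM

open Finset Filter MeasureTheory Topology Complex
open Pool.Agent.N748.GC
open Pool.Agent.W184 (zn zn_nonneg zn_cont)
open Pool.Agent.H306R2 (aF aF_pos)

/-- a property holds for large `X` and for the admissible `δ` -/
def Ev (P : ℝ → ℝ → Prop) : Prop := ∃ lam δ0 : ℝ, 0 < lam ∧ 0 < δ0 ∧ δ0 ≤ 1 / 16 ∧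
  ∀ᶠ X : ℝ in atTop, ∀ δ : ℝ, 0 < δ → δ ≤ δ0 → lam * Real.log (1 / δ) ^ 2 ≤ δ * Real.log X → P X δ

lemma Ev.and {P Q : ℝ → ℝ → Prop} (h1 : Ev P) (h2 : Ev Q) : Ev fun X δ => P X δ ∧ Q X δ := by
  obtain ⟨l1, d1, a1, b1, c1, e1⟩ := h1
  obtain ⟨l2, d2, a2, b2, c2, e2⟩ := h2
  refine ⟨max l1 l2, min d1 d2, lt_max_of_lt_left a1, lt_min b1 b2, (min_le_left _ _).trans c1, ?_⟩
  filter_upwards [e1, e2] with X f1 f2 δ hδ hδ2 hX
  have h0 : 0 ≤ Real.log (1 / δ) ^ 2 := sq_nonneg _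
  exact ⟨f1 δ hδ (hδ2.trans (min_le_left _ _)) ((mul_le_mul_of_nonneg_right (le_max_left _ _) h0).trans hX),
    f2 δ hδ (hδ2.trans (min_le_right _ _)) ((mul_le_mul_of_nonneg_right (le_max_right _ _) h0).trans hX)⟩

lemma Ev.mono {P Q : ℝ → ℝ → Prop} (h1 : Ev P) (h : ∀ X δ : ℝ, 1 ≤ X → 0 < δ → δ ≤ 1 / 16 → P X δ → Q X δ) :
    Ev Q := by
  obtain ⟨l1, d1, a1, b1, c1, e1⟩ := h1
  refine ⟨l1, d1, a1, b1, c1, ?_⟩
  filter_upwards [e1, eventually_ge_atTop 1] with X f1 hX1 δ hδ hδ2 hX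
  exact h X δ hX1 hδ (hδ2.trans c1) (f1 δ hδ hδ2 hX)

lemma Ev.small {C c e : ℝ} (hc : 0 < c) (he : 0 < e) : Ev fun _ δ => C * δ ^ c ≤ e := by
  have h1 : 0 < e / (|C| + 1) := by positivity
  refine ⟨1, min (1 / 16) ((e / (|C| + 1)) ^ (1 / c)), one_pos, lt_min (by norm_num) (Real.rpow_pos_of_pos h1 _),
    min_le_left _ _, Eventually.of_forall fun X δ hδ hδ2 _ => ?_⟩
  have h2 : δ ^ c ≤ e / (|C| + 1) := by
    calc δ ^ c ≤ ((e / (|C| + 1)) ^ (1 / c)) ^ c :=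
          Real.rpow_le_rpow hδ.le (hδ2.trans (min_le_right _ _)) hc.le
      _ = e / (|C| + 1) := by
          rw [← Real.rpow_mul h1.le, one_div, inv_mul_cancel₀ hc.ne', Real.rpow_one]
  have h3 : 0 ≤ δ ^ c := (Real.rpow_pos_of_pos hδ c).le
  calc C * δ ^ c ≤ (|C| + 1) * δ ^ c := mul_le_mul_of_nonneg_right (by linarith [le_abs_self C]) h3
    _ ≤ (|C| + 1) * (e / (|C| + 1)) := mul_le_mul_of_nonneg_left h2 (by positivity)
    _ = e := by field_simp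

namespace TRN

lemma zeta_zn (δ u : ℝ) : ‖riemannZeta (1 / 2 + δ + u * I)‖ = zn (1 / 2 + δ) u := by
  unfold zn
  push_cast
  rfl

lemma zc {δ : ℝ} (h1 : δ ≤ 1 / 16) : Continuous fun u : ℝ => ‖riemannZeta (1 / 2 + δ + u * I)‖ := by
  have h := Zn_cont' (α := 1 / 2) (δ := δ) (by norm_num) (by linarith)
  have := (zn_cont (σ := 1 / 2 + δ) (by linarith))
  exact this.congr fun u => (zeta_zn δ u).symm

/-- the set where zeta is not too large -/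
abbrev G (δ V : ℝ) : Set ℝ := {u : ℝ | ‖riemannZeta (1 / 2 + δ + u * I)‖ ≤ δ ^ (-V)}

lemma G_meas {δ : ℝ} (h1 : δ ≤ 1 / 16) (V : ℝ) : MeasurableSet (G δ V) :=
  (isClosed_le (zc h1) continuous_const).measurableSet

/-- comparison of two moments -/
lemma cmpr {α V δ u : ℝ} (hα : 0 < α) (hV : 0 < V) (hδ : 0 < δ)
    (hz : ‖riemannZeta (1 / 2 + δ + u * I)‖ ^ (2 * α) ≤
      ‖riemannZeta (1 / 2 + δ + u * I)‖ ^ (2 * V) * δ ^ (-(2 * V * (α - V)))) :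
    Zn α δ u ≤ (aF V / aF α * 2 ^ (α ^ 2 - V ^ 2)) * δ ^ ((α - V) ^ 2) * Zn V δ u := by
  have h1 := aF_pos hα
  have h2 := aF_pos hV
  have e1 : Zn α δ u = (2 * δ) ^ (α ^ 2) / aF α * ‖riemannZeta (1 / 2 + δ + u * I)‖ ^ (2 * α) := by
    unfold Zn; rw [aa_eq]
  have e2 : Zn V δ u = (2 * δ) ^ (V ^ 2) / aF V * ‖riemannZeta (1 / 2 + δ + u * I)‖ ^ (2 * V) := by
    unfold Zn; rw [aa_eq]
  rw [e1, e2]
  have h3 : 0 < (2 * δ) ^ (α ^ 2) / aF α := by positivity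
  refine (mul_le_mul_of_nonneg_left hz h3.le).trans (le_of_eq ?_)
  rw [Real.mul_rpow (by norm_num) hδ.le, Real.mul_rpow (by norm_num) hδ.le]
  have e3 : δ ^ (α ^ 2) * δ ^ (-(2 * V * (α - V))) = δ ^ ((α - V) ^ 2) * δ ^ (V ^ 2) := by
    rw [← Real.rpow_add hδ, ← Real.rpow_add hδ]
    congr 1
    ring
  have e4 : (2:ℝ) ^ (α ^ 2) = 2 ^ (α ^ 2 - V ^ 2) * 2 ^ (V ^ 2) := by
    rw [← Real.rpow_add (by norm_num)]
    congr 1
    ring
  rw [e4]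
  calc (2:ℝ) ^ (α ^ 2 - V ^ 2) * 2 ^ (V ^ 2) * δ ^ (α ^ 2) / aF α *
        (‖riemannZeta (1 / 2 + δ + u * I)‖ ^ (2 * V) * δ ^ (-(2 * V * (α - V))))
      = 2 ^ (α ^ 2 - V ^ 2) * 2 ^ (V ^ 2) / aF α * ‖riemannZeta (1 / 2 + δ + u * I)‖ ^ (2 * V) *
          (δ ^ (α ^ 2) * δ ^ (-(2 * V * (α - V)))) := by ring
    _ = _ := by rw [e3]; field_simp

lemma large {α V δ u : ℝ} (hαV : α ≤ V) (hδ : 0 < δ)
    (h : δ ^ (-V) ≤ ‖riemannZeta (1 / 2 + δ + u * I)‖) :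
    ‖riemannZeta (1 / 2 + δ + u * I)‖ ^ (2 * α) ≤
      ‖riemannZeta (1 / 2 + δ + u * I)‖ ^ (2 * V) * δ ^ (-(2 * V * (α - V))) := by
  have h0 : 0 < δ ^ (-V) := Real.rpow_pos_of_pos hδ _
  have h1 : 0 < ‖riemannZeta (1 / 2 + δ + u * I)‖ := h0.trans_le h
  rw [show 2 * α = 2 * V + 2 * (α - V) by ring, Real.rpow_add h1]
  refine mul_le_mul_of_nonneg_left ?_ (Real.rpow_nonneg h1.le _)
  calc ‖riemannZeta (1 / 2 + δ + u * I)‖ ^ (2 * (α - V)) ≤ (δ ^ (-V)) ^ (2 * (α - V)) :=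
        Real.rpow_le_rpow_of_nonpos h0 h (by linarith)
    _ = δ ^ (-(2 * V * (α - V))) := by
        rw [← Real.rpow_mul hδ.le]
        congr 1
        ring

lemma small {α V δ u : ℝ} (hV : 0 < V) (hαV : V ≤ α) (hδ : 0 < δ)
    (h : ‖riemannZeta (1 / 2 + δ + u * I)‖ ≤ δ ^ (-V)) :
    ‖riemannZeta (1 / 2 + δ + u * I)‖ ^ (2 * α) ≤
      ‖riemannZeta (1 / 2 + δ + u * I)‖ ^ (2 * V) * δ ^ (-(2 * V * (α - V))) := by
  have h0 : 0 < δ ^ (-V) := Real.rpow_pos_of_pos hδ _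
  have h1 : 0 ≤ ‖riemannZeta (1 / 2 + δ + u * I)‖ := norm_nonneg _
  rw [show 2 * α = 2 * V + 2 * (α - V) by ring, Real.rpow_add_of_nonneg h1 (by linarith) (by linarith)]
  refine mul_le_mul_of_nonneg_left ?_ (Real.rpow_nonneg h1 _)
  calc ‖riemannZeta (1 / 2 + δ + u * I)‖ ^ (2 * (α - V)) ≤ (δ ^ (-V)) ^ (2 * (α - V)) :=
        Real.rpow_le_rpow h1 h (by linarith)
    _ = δ ^ (-(2 * V * (α - V))) := by
        rw [← Real.rpow_mul hδ.le]
        congr 1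
        ring

/-- upper bound for the density where zeta is not too large -/
lemma Zn_up {α V δ u : ℝ} (hα : 0 < α) (hδ : 0 < δ)
    (h : ‖riemannZeta (1 / 2 + δ + u * I)‖ ≤ δ ^ (-V)) :
    Zn α δ u ≤ 2 ^ (α ^ 2) / aF α * δ ^ (α ^ 2 - 2 * α * V) := by
  have h1 := aF_pos hα
  have e1 : Zn α δ u = (2 * δ) ^ (α ^ 2) / aF α * ‖riemannZeta (1 / 2 + δ + u * I)‖ ^ (2 * α) := by
    unfold Zn; rw [aa_eq]
  rw [e1]
  have h3 : 0 < (2 * δ) ^ (α ^ 2) / aF α := by positivity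
  refine (mul_le_mul_of_nonneg_left (Real.rpow_le_rpow (norm_nonneg _) h (by linarith)) h3.le).trans (le_of_eq ?_)
  rw [Real.mul_rpow (by norm_num) hδ.le, ← Real.rpow_mul hδ.le,
    show α ^ 2 - 2 * α * V = α ^ 2 + -V * (2 * α) by ring, Real.rpow_add hδ]
  ring

/-- lower bound for the density where zeta is large -/
lemma Zn_low {V δ u : ℝ} (hV : 0 < V) (hδ : 0 < δ)
    (h : δ ^ (-V) ≤ ‖riemannZeta (1 / 2 + δ + u * I)‖) :
    2 ^ (V ^ 2) / aF V * δ ^ (-(V ^ 2)) ≤ Zn V δ u := by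
  have h1 := aF_pos hV
  have e1 : Zn V δ u = (2 * δ) ^ (V ^ 2) / aF V * ‖riemannZeta (1 / 2 + δ + u * I)‖ ^ (2 * V) := by
    unfold Zn; rw [aa_eq]
  rw [e1]
  have h3 : 0 < (2 * δ) ^ (V ^ 2) / aF V := by positivity
  refine le_trans (le_of_eq ?_) (mul_le_mul_of_nonneg_left
    (Real.rpow_le_rpow (Real.rpow_nonneg hδ.le _) h (by linarith)) h3.le)
  rw [Real.mul_rpow (by norm_num) hδ.le, ← Real.rpow_mul hδ.le,
    show -(V ^ 2) = V ^ 2 + -V * (2 * V) by ring, Real.rpow_add hδ]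
  ring

lemma Zn_int {α δ X : ℝ} (hα : 0 < α) (h1 : δ ≤ 1 / 16) {S : Set ℝ} (hS : S ⊆ Set.Icc 0 X) :
    IntegrableOn (Zn α δ) S :=
  ((Zn_cont' hα (by linarith)).continuousOn.integrableOn_compact isCompact_Icc).mono_set hS

lemma vol_lt {X : ℝ} {S : Set ℝ} (hS : S ⊆ Set.Icc 0 X) : volume S < ⊤ :=
  (measure_mono hS).trans_lt (by simp)

lemma toReal_le {X c : ℝ} {S : Set ℝ} (hc : 0 ≤ c) (h : volume S ≤ ENNReal.ofReal (c * X)) (hX : 0 ≤ X) :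
    (volume S).toReal ≤ c * X :=
  ENNReal.toReal_le_of_le_ofReal (by positivity) h

/-- integral of a bounded density -/
lemma int_le {α δ X M : ℝ} (hα : 0 < α) (h1 : δ ≤ 1 / 16) (hδ : 0 < δ) {S : Set ℝ}
    (hS : S ⊆ Set.Icc 0 X) (hm : MeasurableSet S) (hM : ∀ u ∈ S, Zn α δ u ≤ M) :
    ∫ u in S, Zn α δ u ≤ (volume S).toReal * M := by
  have hfin := vol_lt hS
  calc ∫ u in S, Zn α δ u ≤ ∫ _u in S, M := setIntegral_mono_on (Zn_int hα h1 hS)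
        (integrableOn_const (hs := hfin.ne)) hm hM
    _ = (volume S).toReal * M := by
        rw [setIntegral_const, smul_eq_mul]
        rfl

lemma int_mono {α δ X : ℝ} (hα : 0 < α) (h1 : δ ≤ 1 / 16) (hδ : 0 < δ) {S S' : Set ℝ}
    (hS' : S' ⊆ Set.Icc 0 X) (hm : MeasurableSet S') (h : S ⊆ S') :
    ∫ u in S, Zn α δ u ≤ ∫ u in S', Zn α δ u :=
  setIntegral_mono_set (Zn_int hα h1 hS') (Eventually.of_forall fun u => Zn_nonneg hα hδ.le u)
    (Eventually.of_forall h)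

theorem main (h : S_TRM2) : S_TRN := by
  intro α hα V hV ε hε
  have hV0 : 0 < V := hα.trans hV
  obtain ⟨D1, hD1, h1⟩ := h α hα
  obtain ⟨D2, hD2, h2⟩ := h V hV0
  have haF := aF_pos hα
  have haV := aF_pos hV0
  set D := max (max D1 D2 + 1) (2 * α * V + 1) with hD
  have hDD1 : D1 + 1 ≤ D := by
    have := le_max_left D1 D2
    have := le_max_left (max D1 D2 + 1) (2 * α * V + 1)
    linarith
  have hDD2 : D2 + 1 ≤ D := by
    have := le_max_right D1 D2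
    have := le_max_left (max D1 D2 + 1) (2 * α * V + 1)
    linarith
  have hDV : 2 * α * V + 1 ≤ D := le_max_right _ _
  set K := aF V / aF α * 2 ^ (α ^ 2 - V ^ 2) with hK
  have hK0 : 0 < K := by positivity
  have ev1 : Ev _ := h1 D (by linarith) (ε / 4) (by linarith)
  have ev2 : Ev _ := h2 D (by linarith) 1 one_pos
  have ev3 : Ev _ := Ev.small (C := 2 * K) (c := (α - V) ^ 2) (e := ε / 4)
    (by have : α - V ≠ 0 := by linarith
        positivity) (by linarith)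
  have ev4 : Ev _ := Ev.small (C := 2 * (2 ^ (α ^ 2) / aF α)) (c := 1) (e := ε / 4) one_pos (by linarith)
  have ev := ((ev1.and ev2).and (ev3.and ev4)).mono
    (Q := fun X δ => |(∫ u in {u : ℝ | u ∈ Set.Icc 0 X ∧ ‖riemannZeta (1 / 2 + δ + u * I)‖ ≤ δ ^ (-V)}, Zn α δ u) - X|
      ≤ ε * X) ?_
  · exact ev
  rintro X δ hX hδ hδ1 ⟨⟨⟨E1, m1, s1, v1, q1⟩, ⟨E2, m2, s2, v2, q2⟩⟩, g3, g4⟩
  have hX0 : 0 ≤ X := by linarith
  have hm := G_meas hδ1 V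
  set I0 := Set.Icc 0 X with hI
  have hmI : MeasurableSet I0 := measurableSet_Icc
  set E := E1 ∪ E2 with hE
  have mE : MeasurableSet E := m1.union m2
  have sE : E ⊆ I0 := Set.union_subset s1 s2
  have hδp : ∀ x y : ℝ, y + 1 ≤ x → 2 * δ ^ x ≤ δ ^ y := by
    intro x y hxy
    have : δ ^ x ≤ δ ^ (y + 1) := Real.rpow_le_rpow_of_exponent_ge hδ (by linarith) hxy
    have h2 : δ ^ (y + 1) = δ ^ y * δ := by rw [Real.rpow_add hδ, Real.rpow_one]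
    have h3 : 0 < δ ^ y := Real.rpow_pos_of_pos hδ y
    nlinarith
  have hDpos : 0 < δ ^ D := Real.rpow_pos_of_pos hδ _
  have vE : volume E ≤ ENNReal.ofReal (2 * δ ^ D * X) := by
    refine (measure_union_le _ _).trans ?_
    rw [show 2 * δ ^ D * X = δ ^ D * X + δ ^ D * X by ring, ENNReal.ofReal_add (by positivity) (by positivity)]
    exact add_le_add v1 v2
  have vE1 : volume E ≤ ENNReal.ofReal (δ ^ D1 * X) :=
    vE.trans (ENNReal.ofReal_le_ofReal (mul_le_mul_of_nonneg_right (hδp _ _ hDD1) hX0))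
  have vE2 : volume E ≤ ENNReal.ofReal (δ ^ D2 * X) :=
    vE.trans (ENNReal.ofReal_le_ofReal (mul_le_mul_of_nonneg_right (hδp _ _ hDD2) hX0))
  have A1 := q1 E mE Set.subset_union_left sE vE1
  have A2 := q2 E mE Set.subset_union_right sE vE2
  have hset : {u : ℝ | u ∈ Set.Icc 0 X ∧ ‖riemannZeta (1 / 2 + δ + u * I)‖ ≤ δ ^ (-V)} =
      ((I0 \ E) ∩ G δ V) ∪ (E ∩ G δ V) := by
    ext u
    simp only [Set.mem_setOf_eq, Set.mem_union, Set.mem_inter_iff, Set.mem_sdiff]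
    constructor
    · rintro ⟨ha, hb⟩
      by_cases hu : u ∈ E
      · exact Or.inr ⟨hu, hb⟩
      · exact Or.inl ⟨⟨ha, hu⟩, hb⟩
    · rintro (⟨⟨ha, _⟩, hb⟩ | ⟨ha, hb⟩)
      · exact ⟨ha, hb⟩
      · exact ⟨sE ha, hb⟩
  have sI : I0 \ E ⊆ I0 := Set.sdiff_subset
  have mI : MeasurableSet (I0 \ E) := hmI.diff mE
  rw [hset, setIntegral_union (by
      rw [Set.disjoint_left]
      rintro u ⟨⟨_, hu⟩, _⟩ ⟨hu2, _⟩
      exact hu hu2) (mE.inter hm)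
    (Zn_int hα hδ1 (Set.inter_subset_left.trans sI)) (Zn_int hα hδ1 (Set.inter_subset_left.trans sE))]
  have B1 : (∫ u in (I0 \ E) ∩ G δ V, Zn α δ u) + ∫ u in (I0 \ E) \ G δ V, Zn α δ u =
      ∫ u in I0 \ E, Zn α δ u := integral_inter_add_diff hm (Zn_int hα hδ1 sI)
  have B2 : ∫ u in (I0 \ E) \ G δ V, Zn α δ u ≤ ε / 4 * X := by
    have c1 : ∫ u in (I0 \ E) \ G δ V, Zn α δ u ≤
        ∫ u in (I0 \ E) \ G δ V, K * δ ^ ((α - V) ^ 2) * Zn V δ u := by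
      refine setIntegral_mono_on (Zn_int hα hδ1 (Set.sdiff_subset.trans sI))
        ((Zn_int hV0 hδ1 (Set.sdiff_subset.trans sI)).const_mul _) (mI.diff hm) ?_
      rintro u ⟨_, hu⟩
      have hu' : δ ^ (-V) ≤ ‖riemannZeta (1 / 2 + δ + u * I)‖ := by
        by_contra hcon
        exact hu (le_of_lt (not_le.mp hcon))
      exact cmpr hα hV0 hδ (large hV.le hδ hu')
    have c2 : ∫ u in (I0 \ E) \ G δ V, Zn V δ u ≤ ∫ u in I0 \ E, Zn V δ u :=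
      int_mono hV0 hδ1 hδ sI mI Set.sdiff_subset
    have c3 : ∫ u in I0 \ E, Zn V δ u ≤ 2 * X := by
      have := (abs_le.mp A2).2
      linarith
    have c4 : 0 ≤ K * δ ^ ((α - V) ^ 2) := by positivity
    calc _ ≤ _ := c1
      _ = K * δ ^ ((α - V) ^ 2) * ∫ u in (I0 \ E) \ G δ V, Zn V δ u := integral_const_mul _ _
      _ ≤ K * δ ^ ((α - V) ^ 2) * (2 * X) := mul_le_mul_of_nonneg_left (c2.trans c3) c4
      _ = 2 * K * δ ^ ((α - V) ^ 2) * X := by ring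
      _ ≤ ε / 4 * X := mul_le_mul_of_nonneg_right g3 hX0
  have B2' : 0 ≤ ∫ u in (I0 \ E) \ G δ V, Zn α δ u := integral_nonneg fun u => Zn_nonneg hα hδ.le u
  have B3 : ∫ u in E ∩ G δ V, Zn α δ u ≤ ε / 4 * X := by
    have c1 := int_le (M := 2 ^ (α ^ 2) / aF α * δ ^ (α ^ 2 - 2 * α * V)) hα hδ1 hδ
      (Set.inter_subset_left.trans sE) (mE.inter hm) fun u hu => Zn_up hα hδ hu.2
    have c2 : (volume (E ∩ G δ V)).toReal ≤ 2 * δ ^ D * X :=
      toReal_le (by positivity) ((measure_mono Set.inter_subset_left).trans vE) hX0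
    have c3 : 0 < 2 ^ (α ^ 2) / aF α * δ ^ (α ^ 2 - 2 * α * V) := by positivity
    have c4 : δ ^ D * δ ^ (α ^ 2 - 2 * α * V) ≤ δ ^ (1:ℝ) := by
      rw [← Real.rpow_add hδ]
      refine Real.rpow_le_rpow_of_exponent_ge hδ (by linarith) ?_
      nlinarith [sq_nonneg α]
    calc _ ≤ _ := c1
      _ ≤ 2 * δ ^ D * X * (2 ^ (α ^ 2) / aF α * δ ^ (α ^ 2 - 2 * α * V)) :=
          mul_le_mul_of_nonneg_right c2 c3.le
      _ = 2 * (2 ^ (α ^ 2) / aF α) * (δ ^ D * δ ^ (α ^ 2 - 2 * α * V)) * X := by ring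
      _ ≤ 2 * (2 ^ (α ^ 2) / aF α) * δ ^ (1:ℝ) * X := by
          refine mul_le_mul_of_nonneg_right (mul_le_mul_of_nonneg_left c4 (by positivity)) hX0
      _ ≤ ε / 4 * X := mul_le_mul_of_nonneg_right g4 hX0
  have B3' : 0 ≤ ∫ u in E ∩ G δ V, Zn α δ u := integral_nonneg fun u => Zn_nonneg hα hδ.le u
  rw [abs_le] at A1 ⊢
  have hεX : 0 ≤ ε * X := by positivity
  constructor <;> linarith [A1.1, A1.2]

theorem main0 (h : S_TRN) : S_TRN0 := by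
  intro α hα V hV ε hε
  set V' := max V (α / 2) with hV'
  have hV0 : 0 < V' := lt_max_of_lt_right (by linarith)
  have hVα : V' < α := max_lt hV (by linarith)
  have haF := aF_pos hα
  have haV := aF_pos hV0
  set K := aF V' / aF α * 2 ^ (α ^ 2 - V' ^ 2) with hK
  have hK0 : 0 < K := by positivity
  have ev1 : Ev _ := h V' hV0 (V' + 1) (by linarith) 1 one_pos
  have ev3 : Ev _ := Ev.small (C := 2 * K) (c := (α - V') ^ 2) (e := ε)
    (by have : α - V' ≠ 0 := by linarith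
        positivity) hε
  have ev := (ev1.and ev3).mono
    (Q := fun X δ => ∫ u in {u : ℝ | u ∈ Set.Icc 0 X ∧ ‖riemannZeta (1 / 2 + δ + u * I)‖ ≤ δ ^ (-V)}, Zn α δ u
      ≤ ε * X) ?_
  · exact ev
  rintro X δ hX hδ hδ1 ⟨g1, g3⟩
  have hX0 : 0 ≤ X := by linarith
  set S := {u : ℝ | u ∈ Set.Icc 0 X ∧ ‖riemannZeta (1 / 2 + δ + u * I)‖ ≤ δ ^ (-V)} with hS
  set S' := {u : ℝ | u ∈ Set.Icc 0 X ∧ ‖riemannZeta (1 / 2 + δ + u * I)‖ ≤ δ ^ (-(V' + 1))} with hS'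
  have mS : MeasurableSet S := measurableSet_Icc.inter (G_meas hδ1 V)
  have mS' : MeasurableSet S' := measurableSet_Icc.inter (G_meas hδ1 (V' + 1))
  have sS : S ⊆ Set.Icc 0 X := fun u hu => hu.1
  have sS' : S' ⊆ Set.Icc 0 X := fun u hu => hu.1
  have hsub : S ⊆ S' := by
    rintro u ⟨h1, h2⟩
    refine ⟨h1, h2.trans ?_⟩
    exact Real.rpow_le_rpow_of_exponent_ge hδ (by linarith) (by linarith [le_max_left V (α / 2)])
  have c1 : ∫ u in S, Zn α δ u ≤ ∫ u in S, K * δ ^ ((α - V') ^ 2) * Zn V' δ u := by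
    refine setIntegral_mono_on (Zn_int hα hδ1 sS) ((Zn_int hV0 hδ1 sS).const_mul _) mS ?_
    rintro u ⟨_, hu⟩
    refine cmpr hα hV0 hδ (small hV0 hVα.le hδ (hu.trans ?_))
    exact Real.rpow_le_rpow_of_exponent_ge hδ (by linarith) (by linarith [le_max_left V (α / 2)])
  have c2 : ∫ u in S, Zn V' δ u ≤ ∫ u in S', Zn V' δ u := int_mono hV0 hδ1 hδ sS' mS' hsub
  have c3 : ∫ u in S', Zn V' δ u ≤ 2 * X := by
    have := (abs_le.mp g1).2
    linarith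
  have c4 : 0 ≤ K * δ ^ ((α - V') ^ 2) := by positivity
  calc _ ≤ _ := c1
    _ = K * δ ^ ((α - V') ^ 2) * ∫ u in S, Zn V' δ u := integral_const_mul _ _
    _ ≤ K * δ ^ ((α - V') ^ 2) * (2 * X) := mul_le_mul_of_nonneg_left (c2.trans c3) c4
    _ = 2 * K * δ ^ ((α - V') ^ 2) * X := by ring
    _ ≤ ε * X := mul_le_mul_of_nonneg_right g3 hX0

/-- the set in the large deviation estimate -/
abbrev LV (X δ V : ℝ) : Set ℝ := {t : ℝ | 0 ≤ t ∧ t ≤ X ∧ δ ^ (-V) < ‖riemannZeta (1 / 2 + δ + t * I)‖}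

theorem up (h : S_TRM2) {V : ℝ} (hV : 0 < V) {ε : ℝ} (hε : 0 < ε) :
    Ev fun X δ => volume (LV X δ V) ≤ ENNReal.ofReal (δ ^ (V ^ 2 - ε) * X) := by
  obtain ⟨D0, hD0, h1⟩ := h V hV
  have haV := aF_pos hV
  set D := max D0 (V ^ 2 + 1) with hD
  have hDV : V ^ 2 + 1 ≤ D := le_max_right _ _
  set m := 2 ^ (V ^ 2) / aF V with hm
  have hm0 : 0 < m := by positivity
  have ev1 : Ev _ := h1 D (le_max_left _ _) 1 one_pos
  have ev2 : Ev _ := Ev.small (C := 2 / m) (c := ε) (e := 1 / 2) hε (by norm_num)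
  refine (ev1.and ev2).mono ?_
  rintro X δ hX hδ hδ1 ⟨⟨E, mE, sE, vE, qE⟩, g2⟩
  have hX0 : 0 ≤ X := by linarith
  have hDD : δ ^ D ≤ δ ^ D0 := Real.rpow_le_rpow_of_exponent_ge hδ (by linarith) (le_max_left _ _)
  have A := qE E mE subset_rfl sE (vE.trans (ENNReal.ofReal_le_ofReal (mul_le_mul_of_nonneg_right hDD hX0)))
  set S := LV X δ V \ E with hS
  have hclo : MeasurableSet (LV X δ V) := by
    have e : LV X δ V = Set.Icc 0 X ∩ (G δ V)ᶜ := by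
      ext t
      simp only [Set.mem_setOf_eq, Set.mem_inter_iff, Set.mem_Icc, Set.mem_compl_iff, not_le, and_assoc]
    rw [e]
    exact measurableSet_Icc.inter (G_meas hδ1 V).compl
  have mS : MeasurableSet S := hclo.diff mE
  have sS : S ⊆ Set.Icc 0 X := fun u hu => ⟨hu.1.1, hu.1.2.1⟩
  have hfin := vol_lt sS
  have c1 : ∫ _u in S, m * δ ^ (-(V ^ 2)) ≤ ∫ u in S, Zn V δ u :=
    setIntegral_mono_on (integrableOn_const (hs := hfin.ne)) (Zn_int hV hδ1 sS) mS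
      fun u hu => Zn_low hV hδ hu.1.2.2.le
  have c2 : ∫ u in S, Zn V δ u ≤ ∫ u in Set.Icc 0 X \ E, Zn V δ u :=
    int_mono hV hδ1 hδ Set.sdiff_subset (measurableSet_Icc.diff mE)
      fun u hu => ⟨⟨hu.1.1, hu.1.2.1⟩, hu.2⟩
  have c3 : ∫ u in Set.Icc 0 X \ E, Zn V δ u ≤ 2 * X := by
    have := (abs_le.mp A).2
    linarith
  rw [setIntegral_const, smul_eq_mul] at c1
  change (volume S).toReal * _ ≤ _ at c1
  have hδV : 0 < δ ^ (V ^ 2) := Real.rpow_pos_of_pos hδ _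
  have c4 : (volume S).toReal ≤ 2 / m * δ ^ (V ^ 2) * X := by
    have e1 : δ ^ (-(V ^ 2)) = (δ ^ (V ^ 2))⁻¹ := Real.rpow_neg hδ.le _
    rw [e1] at c1
    have e2 : (volume S).toReal * (m * (δ ^ (V ^ 2))⁻¹) ≤ 2 * X := c1.trans (c2.trans c3)
    have e3 : (volume S).toReal = (volume S).toReal * (m * (δ ^ (V ^ 2))⁻¹) * (δ ^ (V ^ 2) / m) := by
      field_simp
    rw [e3]
    calc _ ≤ 2 * X * (δ ^ (V ^ 2) / m) := mul_le_mul_of_nonneg_right e2 (by positivity)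
      _ = _ := by ring
  have e5 : δ ^ (V ^ 2) = δ ^ ε * δ ^ (V ^ 2 - ε) := by
    rw [← Real.rpow_add hδ]; congr 1; ring
  have hb : 0 < δ ^ (V ^ 2 - ε) := Real.rpow_pos_of_pos hδ _
  have c5 : (volume S).toReal ≤ 1 / 2 * δ ^ (V ^ 2 - ε) * X := by
    refine c4.trans (mul_le_mul_of_nonneg_right ?_ hX0)
    rw [e5, ← mul_assoc]
    exact mul_le_mul_of_nonneg_right g2 hb.le
  have c6 : δ ^ D ≤ 1 / 2 * δ ^ (V ^ 2 - ε) := by
    have h1 : δ ^ D ≤ δ ^ (V ^ 2 - ε + 1) := Real.rpow_le_rpow_of_exponent_ge hδ (by linarith) (by linarith)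
    rw [Real.rpow_add hδ, Real.rpow_one] at h1
    nlinarith
  have hsub : LV X δ V ⊆ E ∪ S := by
    intro t ht
    by_cases htE : t ∈ E
    · exact Or.inl htE
    · exact Or.inr ⟨ht, htE⟩
  calc volume (LV X δ V) ≤ volume (E ∪ S) := measure_mono hsub
    _ ≤ volume E + volume S := measure_union_le _ _
    _ ≤ ENNReal.ofReal (1 / 2 * δ ^ (V ^ 2 - ε) * X) + ENNReal.ofReal (1 / 2 * δ ^ (V ^ 2 - ε) * X) := by
        refine add_le_add (vE.trans (ENNReal.ofReal_le_ofReal (mul_le_mul_of_nonneg_right c6 hX0))) ?_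
        rw [← ENNReal.ofReal_toReal hfin.ne]
        exact ENNReal.ofReal_le_ofReal c5
    _ = ENNReal.ofReal (δ ^ (V ^ 2 - ε) * X) := by
        rw [← ENNReal.ofReal_add (by positivity) (by positivity)]
        congr 1
        ring

theorem low (h : S_TRN) (h0 : S_TRN0) {V : ℝ} (hV : 0 < V) {ε : ℝ} (hε : 0 < ε) :
    Ev fun X δ => ENNReal.ofReal (δ ^ (V ^ 2 + ε) * X) ≤ volume (LV X δ V) := by
  set τ := min 1 (ε / (8 * V + 8)) with hτ
  have hτ0 : 0 < τ := lt_min one_pos (by positivity)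
  have hτ1 : τ ≤ 1 := min_le_left _ _
  have hτ2 : (8 * V + 8) * τ ≤ ε := by
    have h1 : τ ≤ ε / (8 * V + 8) := min_le_right _ _
    rw [le_div_iff₀ (by positivity)] at h1
    linarith
  have hex : (V + τ) ^ 2 - 2 * (V + τ) * (V + 2 * τ) ≥ -(V ^ 2 + ε / 2) := by nlinarith
  have hV1 : 0 < V + τ := by linarith
  have haV := aF_pos hV1
  set M := 2 ^ ((V + τ) ^ 2) / aF (V + τ) with hM
  have hM0 : 0 < M := by positivity
  have ev1 : Ev _ := h (V + τ) hV1 (V + 2 * τ) (by linarith) (1 / 4) (by norm_num)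
  have ev2 : Ev _ := h0 (V + τ) hV1 V (by linarith) (1 / 4) (by norm_num)
  have ev3 : Ev _ := Ev.small (C := 2 * M) (c := ε / 2) (e := 1) (by linarith) (by norm_num)
  refine ((ev1.and ev2).and ev3).mono ?_
  rintro X δ hX hδ hδ1 ⟨⟨g1, g2⟩, g3⟩
  have hX0 : 0 ≤ X := by linarith
  set S1 := {u : ℝ | u ∈ Set.Icc 0 X ∧ ‖riemannZeta (1 / 2 + δ + u * I)‖ ≤ δ ^ (-(V + 2 * τ))} with hS1
  set S2 := {u : ℝ | u ∈ Set.Icc 0 X ∧ ‖riemannZeta (1 / 2 + δ + u * I)‖ ≤ δ ^ (-V)} with hS2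
  have mS1 : MeasurableSet S1 := measurableSet_Icc.inter (G_meas hδ1 _)
  have mS2 : MeasurableSet S2 := measurableSet_Icc.inter (G_meas hδ1 _)
  have sS1 : S1 ⊆ Set.Icc 0 X := fun u hu => hu.1
  have B1 := integral_inter_add_diff (f := Zn (V + τ) δ) mS2 (Zn_int hV1 hδ1 sS1)
  have B2 : ∫ u in S1 ∩ S2, Zn (V + τ) δ u ≤ 1 / 4 * X :=
    (int_mono hV1 hδ1 hδ (fun u hu => hu.1) mS2 Set.inter_subset_right).trans g2
  have B3 : 1 / 2 * X ≤ ∫ u in S1 \ S2, Zn (V + τ) δ u := by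
    have := (abs_le.mp g1).1
    linarith
  have sd : S1 \ S2 ⊆ LV X δ V := by
    rintro u ⟨hu1, hu2⟩
    refine ⟨hu1.1.1, hu1.1.2, ?_⟩
    by_contra hcon
    exact hu2 ⟨hu1.1, not_lt.mp hcon⟩
  have sd' : S1 \ S2 ⊆ Set.Icc 0 X := Set.sdiff_subset.trans sS1
  have B4 := int_le (M := M * δ ^ ((V + τ) ^ 2 - 2 * (V + τ) * (V + 2 * τ))) hV1 hδ1 hδ sd' (mS1.diff mS2)
    fun u hu => Zn_up hV1 hδ hu.1.2
  have hfin := vol_lt sd'
  set w := (volume (S1 \ S2)).toReal with hw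
  have hw0 : 0 ≤ w := ENNReal.toReal_nonneg
  have B5 : 1 / 2 * X ≤ w * (M * δ ^ (-(V ^ 2 + ε / 2))) := by
    refine (B3.trans B4).trans (mul_le_mul_of_nonneg_left (mul_le_mul_of_nonneg_left ?_ hM0.le) hw0)
    exact Real.rpow_le_rpow_of_exponent_ge hδ (by linarith) (by linarith)
  have B6 : δ ^ (V ^ 2 + ε) * X ≤ w := by
    have e1 : δ ^ (-(V ^ 2 + ε / 2)) = (δ ^ (V ^ 2 + ε / 2))⁻¹ := Real.rpow_neg hδ.le _
    have hp : 0 < δ ^ (V ^ 2 + ε / 2) := Real.rpow_pos_of_pos hδ _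
    have e2 : δ ^ (V ^ 2 + ε) = δ ^ (ε / 2) * δ ^ (V ^ 2 + ε / 2) := by
      rw [← Real.rpow_add hδ]; congr 1; ring
    rw [e1] at B5
    have e3 : X * δ ^ (V ^ 2 + ε / 2) ≤ 2 * M * w := by
      have : w * (M * (δ ^ (V ^ 2 + ε / 2))⁻¹) * δ ^ (V ^ 2 + ε / 2) = M * w := by field_simp
      nlinarith [mul_le_mul_of_nonneg_right B5 hp.le]
    have hq : 0 ≤ δ ^ (ε / 2) := (Real.rpow_pos_of_pos hδ _).le
    calc δ ^ (V ^ 2 + ε) * X = δ ^ (ε / 2) * (X * δ ^ (V ^ 2 + ε / 2)) := by rw [e2]; ring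
      _ ≤ δ ^ (ε / 2) * (2 * M * w) := mul_le_mul_of_nonneg_left e3 hq
      _ = 2 * M * δ ^ (ε / 2) * w := by ring
      _ ≤ 1 * w := mul_le_mul_of_nonneg_right g3 hw0
      _ = w := one_mul w
  calc ENNReal.ofReal (δ ^ (V ^ 2 + ε) * X) ≤ ENNReal.ofReal w := ENNReal.ofReal_le_ofReal B6
    _ = volume (S1 \ S2) := ENNReal.ofReal_toReal hfin.ne
    _ ≤ volume (LV X δ V) := measure_mono sd

theorem ldp (h : S_TRM2) : S_LDP := by
  intro V hV ε hε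
  have h1 := main h
  have h2 := main0 h1
  have ev := ((low h1 h2 hV hε).and (up h hV hε)).mono
    (Q := fun X δ => ENNReal.ofReal (δ ^ (V ^ 2 + ε) * X) ≤ volume (LV X δ V) ∧
      volume (LV X δ V) ≤ ENNReal.ofReal (δ ^ (V ^ 2 - ε) * X)) fun X δ _ _ _ h => h
  exact ev

end TRN

end Pool.Agent.N748.HM
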