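import Pool.Agent.N748.HM.DEG3
import Pool.Agent.N748.GC.WIN2

set_option autoImplicit false

/-! Truncated moments in windows of arbitrary length. -/

namespace Pool.Agent.N748.HM

open Finset Filter MeasureTheory Topology Complex
open Pool.Agent.N748.GC
open Pool.Agent.H306R2 (aF aF_pos)

/-- the normalised density without its very large values -/
noncomputable def Zt (α V δ : ℝ) : ℝ → ℝ :=
  Set.indicator {u : ℝ | ‖riemannZeta (1 / 2 + δ + u * I)‖ ≤ δ ^ (-V)} (Zn α δ)

/-- (WTR) the law of large numbers in windows -/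
def S_WTR : Prop := ∀ α : ℝ, 0 < α → ∀ V : ℝ, α < V → ∀ θ : ℝ, 0 < θ → α ^ 2 - 1 < θ → ∀ ε : ℝ, 0 < ε →
  Ev fun X δ => ∀ H : ℝ, δ ^ (-θ) ≤ H → H ≤ X →
    ∫ t in (0:ℝ)..X, |(1 / H) * (∫ u in t..(t + H), Zt α V δ u) - 1| ≤ ε * X

/-- (WTR0) short windows -/
def S_WTR0 : Prop := ∀ α : ℝ, 0 < α → ∀ V : ℝ, α < V → ∀ θ : ℝ, θ < α ^ 2 - 1 → ∀ ε : ℝ, 0 < ε →
  Ev fun X δ => ∀ H : ℝ, 0 < H → H ≤ δ ^ (-θ) →
    |(∫ t in (0:ℝ)..X, |(1 / H) * (∫ u in t..(t + H), Zt α V δ u) - 1|) - 2 * X| ≤ ε * X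

lemma Ev.up {P : ℝ → ℝ → Prop} (h : Ev P) : Ev fun X δ => ∀ X' : ℝ, X ≤ X' → P X' δ := by
  obtain ⟨l1, d1, a1, b1, c1, e1⟩ := h
  refine ⟨l1, d1, a1, b1, c1, ?_⟩
  obtain ⟨X0, hX0⟩ := eventually_atTop.mp e1
  filter_upwards [eventually_ge_atTop (max X0 1)] with X hX δ hδ hδ2 hX3 X' hX'
  refine hX0 X' ((le_max_left _ _).trans (hX.trans hX')) δ hδ hδ2 (hX3.trans ?_)
  have h1 : 1 ≤ X := (le_max_right _ _).trans hX
  exact mul_le_mul_of_nonneg_left (Real.log_le_log (by linarith) hX') hδ.le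

namespace WTR

/-! ### locally integrable densities -/

lemma prim_cont {g : ℝ → ℝ} (hg : ∀ a b : ℝ, IntervalIntegrable g volume a b) (c : ℝ) :
    Continuous fun t : ℝ => ∫ u in t..(t + c), g u := by
  have h1 : Continuous fun x : ℝ => ∫ u in (0:ℝ)..x, g u := intervalIntegral.continuous_primitive hg 0
  have h2 : (fun t : ℝ => ∫ u in t..(t + c), g u) =
      fun t : ℝ => (∫ u in (0:ℝ)..(t + c), g u) - ∫ u in (0:ℝ)..t, g u := by
    funext t
    rw [intervalIntegral.integral_interval_sub_left (hg _ _) (hg _ _)]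
  rw [h2]
  exact (h1.comp (continuous_id.add continuous_const)).sub h1

lemma mean_up {g : ℝ → ℝ} (hg : ∀ a b : ℝ, IntervalIntegrable g volume a b) (g0 : ∀ u, 0 ≤ g u) {X H : ℝ}
    (hX : 0 ≤ X) (hH : 0 ≤ H) :
    ∫ t in (0:ℝ)..X, (∫ u in t..(t + H), g u) ≤ H * ∫ u in (0:ℝ)..(X + H), g u := by
  set P : ℝ → ℝ := fun x => ∫ u in (0:ℝ)..x, g u with hP
  have hPc : Continuous P := intervalIntegral.continuous_primitive hg 0
  have hPi : ∀ a b : ℝ, IntervalIntegrable P volume a b := fun a b => hPc.intervalIntegrable a b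
  have hPm : ∀ x y : ℝ, x ≤ y → P x ≤ P y := by
    intro x y hxy
    have : P y - P x = ∫ u in x..y, g u := intervalIntegral.integral_interval_sub_left (hg _ _) (hg _ _)
    have h2 : 0 ≤ ∫ u in x..y, g u := intervalIntegral.integral_nonneg hxy fun u _ => g0 u
    linarith
  have e1 : ∀ t : ℝ, ∫ u in t..(t + H), g u = P (t + H) - P t := fun t =>
    (intervalIntegral.integral_interval_sub_left (hg _ _) (hg _ _)).symm
  simp only [e1]
  have hPs : IntervalIntegrable (fun t : ℝ => P (t + H)) volume 0 X :=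
    (hPc.comp (continuous_id.add continuous_const)).intervalIntegrable _ _
  rw [intervalIntegral.integral_sub hPs (hPi _ _),
    intervalIntegral.integral_comp_add_right (fun x => P x) H, zero_add]
  have e2 := intervalIntegral.integral_add_adjacent_intervals (hPi 0 H) (hPi H (X + H))
  have e3 := intervalIntegral.integral_add_adjacent_intervals (hPi 0 X) (hPi X (X + H))
  have hP0 : P 0 = 0 := intervalIntegral.integral_same
  have e4 : 0 ≤ ∫ x in (0:ℝ)..H, P x := intervalIntegral.integral_nonneg hH fun u hu => by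
    have := hPm 0 u hu.1; linarith
  have e5 : ∫ x in X..(X + H), P x ≤ ∫ _x in X..(X + H), P (X + H) :=
    intervalIntegral.integral_mono_on (by linarith) (hPi _ _) intervalIntegrable_const fun u hu => hPm _ _ hu.2
  rw [intervalIntegral.integral_const, smul_eq_mul, add_sub_cancel_left] at e5
  linarith

lemma mean_low {g : ℝ → ℝ} (hg : ∀ a b : ℝ, IntervalIntegrable g volume a b) (g0 : ∀ u, 0 ≤ g u) {X H : ℝ}
    (hX : 0 ≤ X) (hH : 0 ≤ H) :
    H * ((∫ u in (0:ℝ)..X, g u) - ∫ u in (0:ℝ)..H, g u) ≤ ∫ t in (0:ℝ)..X, (∫ u in t..(t + H), g u) := by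
  set P : ℝ → ℝ := fun x => ∫ u in (0:ℝ)..x, g u with hP
  have hPc : Continuous P := intervalIntegral.continuous_primitive hg 0
  have hPi : ∀ a b : ℝ, IntervalIntegrable P volume a b := fun a b => hPc.intervalIntegrable a b
  have hPm : ∀ x y : ℝ, x ≤ y → P x ≤ P y := by
    intro x y hxy
    have : P y - P x = ∫ u in x..y, g u := intervalIntegral.integral_interval_sub_left (hg _ _) (hg _ _)
    have h2 : 0 ≤ ∫ u in x..y, g u := intervalIntegral.integral_nonneg hxy fun u _ => g0 u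
    linarith
  have e1 : ∀ t : ℝ, ∫ u in t..(t + H), g u = P (t + H) - P t := fun t =>
    (intervalIntegral.integral_interval_sub_left (hg _ _) (hg _ _)).symm
  simp only [e1]
  have hPs : IntervalIntegrable (fun t : ℝ => P (t + H)) volume 0 X :=
    (hPc.comp (continuous_id.add continuous_const)).intervalIntegrable _ _
  rw [intervalIntegral.integral_sub hPs (hPi _ _),
    intervalIntegral.integral_comp_add_right (fun x => P x) H, zero_add]
  have e2 := intervalIntegral.integral_add_adjacent_intervals (hPi 0 H) (hPi H (X + H))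
  have e3 := intervalIntegral.integral_add_adjacent_intervals (hPi 0 X) (hPi X (X + H))
  have e4 : ∫ x in (0:ℝ)..H, P x ≤ ∫ _x in (0:ℝ)..H, P H :=
    intervalIntegral.integral_mono_on hH (hPi _ _) intervalIntegrable_const fun u hu => hPm _ _ hu.2
  have e5 : ∫ _x in X..(X + H), P X ≤ ∫ x in X..(X + H), P x :=
    intervalIntegral.integral_mono_on (by linarith) intervalIntegrable_const (hPi _ _) fun u hu => hPm _ _ hu.1
  rw [intervalIntegral.integral_const, smul_eq_mul] at e4 e5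
  rw [sub_zero] at e4
  rw [add_sub_cancel_left] at e5
  have e6 : H * (P X - P H) = H * P X - H * P H := by ring
  linarith

/-- comparison with the short windows at one point -/
theorem pt_bound {Z : ℝ → ℝ} (hi : ∀ a b : ℝ, IntervalIntegrable Z volume a b) (h0 : ∀ u, 0 ≤ Z u) {H H0 : ℝ}
    (hH0 : 0 < H0) (h01 : H0 ≤ H) (t : ℝ) :
    |(1 / H) * (∫ u in t..(t + H), Z u) - 1| ≤
      (H0 / H) * (∑ k ∈ range (⌊H / H0⌋₊ + 1),
        |(1 / H0) * (∫ u in (t + k * H0)..(t + k * H0 + H0), Z u) - 1| + 2) := by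
  have hH : 0 < H := by linarith
  set n : ℕ := ⌊H / H0⌋₊ with hn
  have hn1 : (n:ℝ) * H0 ≤ H := by
    have := Nat.floor_le (div_nonneg hH.le hH0.le)
    rw [← hn, le_div_iff₀ hH0] at this
    exact this
  have hn2 : H ≤ (n + 1) * H0 := by
    have := (Nat.lt_floor_add_one (H / H0)).le
    rw [← hn, div_le_iff₀ hH0] at this
    exact this
  have h1 := intervalIntegral.sum_integral_adjacent_intervals (f := Z) (μ := volume)
    (a := fun k : ℕ => t + k * H0) (n := n) (fun k _ => hi _ _)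
  have h2 : t + ((0 : ℕ) : ℝ) * H0 = t := by simp
  simp only [h2] at h1
  have h3 : ∀ k : ℕ, t + ((k + 1 : ℕ) : ℝ) * H0 = t + k * H0 + H0 := by intro k; push_cast; ring
  simp only [h3] at h1
  have h4 : ∫ u in t..(t + H), Z u = (∑ k ∈ range n, ∫ u in (t + k * H0)..(t + k * H0 + H0), Z u) +
      ∫ u in (t + n * H0)..(t + H), Z u := by
    rw [h1, intervalIntegral.integral_add_adjacent_intervals (hi _ _) (hi _ _)]
  set A : ℕ → ℝ := fun k => (1 / H0) * (∫ u in (t + k * H0)..(t + k * H0 + H0), Z u) - 1 with hA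
  have hAk : ∀ k : ℕ, ∫ u in (t + k * H0)..(t + k * H0 + H0), Z u = H0 * A k + H0 := by
    intro k
    simp only [hA]
    field_simp
    ring
  have h5 : 0 ≤ ∫ u in (t + n * H0)..(t + H), Z u :=
    intervalIntegral.integral_nonneg (by linarith) fun u _ => h0 u
  have h6 : ∫ u in (t + n * H0)..(t + H), Z u ≤ H0 * A n + H0 := by
    rw [← hAk n]
    refine intervalIntegral.integral_mono_interval le_rfl (by linarith) (by linarith)
      (Eventually.of_forall fun u => h0 u) (hi _ _)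
  have h7 : (∫ u in t..(t + H), Z u) - H = H0 * (∑ k ∈ range n, A k) +
      ((∫ u in (t + n * H0)..(t + H), Z u) - (H - n * H0)) := by
    rw [h4, sum_congr rfl fun k _ => hAk k, sum_add_distrib, ← mul_sum, sum_const, card_range,
      nsmul_eq_mul]
    ring
  have h8 : |(∫ u in (t + n * H0)..(t + H), Z u) - (H - n * H0)| ≤ H0 * |A n| + 2 * H0 := by
    have ha : H0 * A n ≤ H0 * |A n| := mul_le_mul_of_nonneg_left (le_abs_self _) hH0.le
    have hb : 0 ≤ H0 * |A n| := mul_nonneg hH0.le (abs_nonneg _)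
    rw [abs_le]
    constructor <;> nlinarith
  have h9 : |H0 * (∑ k ∈ range n, A k)| ≤ H0 * ∑ k ∈ range n, |A k| := by
    rw [abs_mul, abs_of_pos hH0]
    exact mul_le_mul_of_nonneg_left (abs_sum_le_sum_abs _ _) hH0.le
  have h10 : (1 / H) * (∫ u in t..(t + H), Z u) - 1 = (1 / H) * ((∫ u in t..(t + H), Z u) - H) := by
    field_simp
  rw [h10, abs_mul, abs_of_pos (by positivity : (0:ℝ) < 1 / H), h7, sum_range_succ]
  have h11 : |H0 * (∑ k ∈ range n, A k) +
      ((∫ u in (t + n * H0)..(t + H), Z u) - (H - n * H0))| ≤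
      H0 * (∑ k ∈ range n, |A k| + |A n| + 2) := by
    refine (abs_add_le _ _).trans ?_
    linarith
  calc _ ≤ (1 / H) * (H0 * (∑ k ∈ range n, |A k| + |A n| + 2)) :=
        mul_le_mul_of_nonneg_left h11 (by positivity)
    _ = _ := by ring

/-- the mean over a long window from the short windows -/
theorem mean_bound2 {Z : ℝ → ℝ} (hi : ∀ a b : ℝ, IntervalIntegrable Z volume a b) (h0 : ∀ u, 0 ≤ Z u)
    {T H H0 E : ℝ} (hH0 : 0 < H0) (h01 : H0 ≤ H) (hHT : H ≤ T)
    (hE : ∫ s in (0:ℝ)..(2 * T), |(1 / H0) * (∫ u in s..(s + H0), Z u) - 1| ≤ E) :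
    ∫ t in (0:ℝ)..T, |(1 / H) * (∫ u in t..(t + H), Z u) - 1| ≤ 2 * E + 2 * (H0 / H) * T := by
  have hH : 0 < H := by linarith
  have hT : 0 < T := by linarith
  set n : ℕ := ⌊H / H0⌋₊ with hn
  have hn1 : (n:ℝ) * H0 ≤ H := by
    have := Nat.floor_le (div_nonneg hH.le hH0.le)
    rw [← hn, le_div_iff₀ hH0] at this
    exact this
  set D : ℝ → ℝ := fun s => |(1 / H0) * (∫ u in s..(s + H0), Z u) - 1| with hD
  have hDc : Continuous D := ((continuous_const.mul (prim_cont hi H0)).sub continuous_const).abs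
  have hD0 : ∀ s, 0 ≤ D s := fun s => abs_nonneg _
  have hE0 : 0 ≤ E := (intervalIntegral.integral_nonneg (by linarith) fun s _ => hD0 s).trans hE
  have hDk : ∀ k : ℕ, Continuous fun t : ℝ => D (t + k * H0) := fun k =>
    hDc.comp (continuous_id.add continuous_const)
  have h1 : ∫ t in (0:ℝ)..T, |(1 / H) * (∫ u in t..(t + H), Z u) - 1| ≤
      ∫ t in (0:ℝ)..T, (H0 / H) * (∑ k ∈ range (n + 1), D (t + k * H0) + 2) := by
    refine intervalIntegral.integral_mono_on hT.le ?_ ?_ fun t _ => pt_bound hi h0 hH0 h01 t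
    · exact (((continuous_const.mul (prim_cont hi H)).sub continuous_const).abs).intervalIntegrable
        _ _
    · exact (continuous_const.mul ((continuous_finsetSum _ fun k _ => hDk k).add
        continuous_const)).intervalIntegrable _ _
  refine h1.trans ?_
  rw [intervalIntegral.integral_const_mul, intervalIntegral.integral_add
    ((continuous_finsetSum _ fun k _ => hDk k).intervalIntegrable _ _)
    (continuous_const.intervalIntegrable _ _), intervalIntegral.integral_finsetSum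
    fun k _ => (hDk k).intervalIntegrable _ _, intervalIntegral.integral_const, smul_eq_mul, sub_zero]
  have h3 : ∀ k ∈ range (n + 1), ∫ t in (0:ℝ)..T, D (t + k * H0) ≤ E := by
    intro k hk
    have hk1 : (k:ℝ) ≤ n := by exact_mod_cast Nat.lt_succ_iff.1 (mem_range.1 hk)
    have hk2 : (k:ℝ) * H0 ≤ H := (mul_le_mul_of_nonneg_right hk1 hH0.le).trans hn1
    have hk0 : 0 ≤ (k:ℝ) * H0 := by positivity
    have h4 := intervalIntegral.integral_comp_add_right (a := 0) (b := T) D ((k:ℝ) * H0)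
    rw [zero_add] at h4
    rw [h4]
    refine le_trans ?_ hE
    exact intervalIntegral.integral_mono_interval (c := 0) (d := 2 * T) hk0 (by linarith)
      (by linarith) (Eventually.of_forall fun s => hD0 s) (hDc.intervalIntegrable _ _)
  have h5 : ∑ k ∈ range (n + 1), ∫ t in (0:ℝ)..T, D (t + k * H0) ≤ (n + 1) * E := by
    calc _ ≤ ∑ k ∈ range (n + 1), E := sum_le_sum h3
      _ = (n + 1) * E := by rw [sum_const, card_range, nsmul_eq_mul]; push_cast; ring
  have h6 : (H0 / H) * (n + 1) ≤ 2 := by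
    rw [div_mul_eq_mul_div, div_le_iff₀ hH]
    nlinarith
  have h7 : 0 ≤ H0 / H := by positivity
  calc (H0 / H) * (∑ k ∈ range (n + 1), (∫ t in (0:ℝ)..T, D (t + k * H0)) + T * 2)
      ≤ (H0 / H) * ((n + 1) * E + T * 2) :=
        mul_le_mul_of_nonneg_left (add_le_add h5 le_rfl) h7
    _ = ((H0 / H) * (n + 1)) * E + 2 * (H0 / H) * T := by ring
    _ ≤ 2 * E + 2 * (H0 / H) * T := by
      have := mul_le_mul_of_nonneg_right h6 hE0
      linarith

/-- the integral of a function between `0` and `1` which is mostly small -/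
lemma int_small {f : ℝ → ℝ} (hf : Continuous f) (f0 : ∀ t, 0 ≤ f t) (f1 : ∀ t, f t ≤ 1) {X η ε : ℝ} (hX : 0 ≤ X)
    (hη : 0 ≤ η) (hε : 0 ≤ ε)
    (h : volume {t : ℝ | 0 ≤ t ∧ t ≤ X ∧ η < f t} ≤ ENNReal.ofReal (ε * X)) :
    ∫ t in (0:ℝ)..X, f t ≤ (η + ε) * X := by
  set S : Set ℝ := {t : ℝ | 0 ≤ t ∧ t ≤ X ∧ η < f t} with hS
  have hSm : MeasurableSet S := by
    have e : S = Set.Icc 0 X ∩ {t | η < f t} := by
      ext t
      simp only [hS, Set.mem_setOf_eq, Set.mem_inter_iff, Set.mem_Icc, and_assoc]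
    rw [e]
    exact measurableSet_Icc.inter (isOpen_lt continuous_const hf).measurableSet
  have hSX : S ⊆ Set.Icc 0 X := fun t ht => ⟨ht.1, ht.2.1⟩
  have hfin := TRN.vol_lt hSX
  rw [intervalIntegral.integral_of_le hX, ← integral_Icc_eq_integral_Ioc]
  have hfi : IntegrableOn f (Set.Icc 0 X) := hf.continuousOn.integrableOn_compact isCompact_Icc
  have e1 := integral_inter_add_diff hSm hfi
  have hIS : Set.Icc 0 X ∩ S = S := Set.inter_eq_self_of_subset_right hSX
  rw [hIS] at e1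
  have c1 : ∫ t in S, f t ≤ ∫ _t in S, (1:ℝ) :=
    setIntegral_mono_on (hfi.mono_set hSX) (integrableOn_const (hs := hfin.ne)) hSm fun t _ => f1 t
  rw [setIntegral_const, smul_eq_mul, mul_one] at c1
  have c2 : (volume S).toReal ≤ ε * X := TRN.toReal_le hε h hX
  have hd : Set.Icc 0 X \ S ⊆ Set.Icc 0 X := Set.sdiff_subset
  have hfin2 := TRN.vol_lt hd
  have c3 : ∫ t in Set.Icc 0 X \ S, f t ≤ ∫ _t in Set.Icc 0 X \ S, η := by
    refine setIntegral_mono_on (hfi.mono_set hd) (integrableOn_const (hs := hfin2.ne))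
      (measurableSet_Icc.diff hSm) ?_
    rintro t ⟨ht1, ht2⟩
    by_contra hcon
    exact ht2 ⟨ht1.1, ht1.2, not_le.mp hcon⟩
  rw [setIntegral_const, smul_eq_mul] at c3
  have c4 : (volume (Set.Icc 0 X \ S)).toReal ≤ X := by
    have h1 : (volume (Set.Icc 0 X \ S)).toReal ≤ (volume (Set.Icc 0 X)).toReal :=
      ENNReal.toReal_mono (by simp) (measure_mono hd)
    rw [Real.volume_Icc, sub_zero, ENNReal.toReal_ofReal hX] at h1
    exact h1
  have c5 : (volume (Set.Icc 0 X \ S)).toReal * η ≤ X * η := mul_le_mul_of_nonneg_right c4 hη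
  change _ ≤ (volume S).toReal at c1
  change _ ≤ (volume (Set.Icc 0 X \ S)).toReal * η at c3
  linarith

/-! ### the truncated density -/

lemma Zt_nonneg {α V δ : ℝ} (hα : 0 < α) (hδ : 0 ≤ δ) (u : ℝ) : 0 ≤ Zt α V δ u :=
  Set.indicator_nonneg (fun u _ => Zn_nonneg hα hδ u) u

lemma Zt_le {α V δ : ℝ} (hα : 0 < α) (hδ : 0 ≤ δ) (u : ℝ) : Zt α V δ u ≤ Zn α δ u :=
  Set.indicator_le_self' (fun u _ => Zn_nonneg hα hδ u) u

lemma Zt_up {α V δ : ℝ} (hα : 0 < α) (hδ : 0 < δ) (u : ℝ) :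
    Zt α V δ u ≤ 2 ^ (α ^ 2) / aF α * δ ^ (α ^ 2 - 2 * α * V) := by
  have haF := aF_pos hα
  unfold Zt
  by_cases hu : u ∈ {u : ℝ | ‖riemannZeta (1 / 2 + δ + u * I)‖ ≤ δ ^ (-V)}
  · rw [Set.indicator_of_mem hu]
    exact TRN.Zn_up hα hδ hu
  · rw [Set.indicator_of_notMem hu]
    positivity

lemma Zt_int {α V δ : ℝ} (hα : 0 < α) (hδ1 : δ ≤ 1 / 16) (a b : ℝ) : IntervalIntegrable (Zt α V δ) volume a b := by
  have h := (Zn_cont' hα (by linarith : δ < 1 / 2)).intervalIntegrable (μ := volume) a b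
  rw [intervalIntegrable_iff] at h ⊢
  exact h.indicator (TRN.G_meas hδ1 V)

lemma Zt_eq {α V δ X : ℝ} (hδ1 : δ ≤ 1 / 16) (hX : 0 ≤ X) :
    ∫ u in (0:ℝ)..X, Zt α V δ u =
      ∫ u in {u : ℝ | u ∈ Set.Icc 0 X ∧ ‖riemannZeta (1 / 2 + δ + u * I)‖ ≤ δ ^ (-V)}, Zn α δ u := by
  rw [intervalIntegral.integral_of_le hX, ← integral_Icc_eq_integral_Ioc]
  unfold Zt
  rw [setIntegral_indicator (TRN.G_meas hδ1 V)]
  rfl

/-- the part of the window integral where zeta is large -/
lemma gap {α α' V δ t H : ℝ} (hα : 0 < α) (hαα : α < α') (hV : α' < V) (hδ : 0 < δ) (hδ1 : δ ≤ 1 / 16) (hH : 0 ≤ H) :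
    ∫ u in t..(t + H), Zn α δ u ≤ (∫ u in t..(t + H), Zt α V δ u) +
      (aF α' / aF α * 2 ^ (α ^ 2 - α' ^ 2)) * δ ^ ((α' - α) * (2 * V - α - α')) * ∫ u in t..(t + H), Zn α' δ u := by
  have hα' : 0 < α' := hα.trans hαα
  have haF := aF_pos hα
  have haF' := aF_pos hα'
  set K := aF α' / aF α * 2 ^ (α ^ 2 - α' ^ 2) with hK
  have hi := (Zn_cont' hα' (by linarith : δ < 1 / 2)).intervalIntegrable (μ := volume) t (t + H)
  rw [← intervalIntegral.integral_const_mul, ← intervalIntegral.integral_add (Zt_int hα hδ1 _ _) (hi.const_mul _)]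
  refine intervalIntegral.integral_mono_on (by linarith)
    ((Zn_cont' hα (by linarith : δ < 1 / 2)).intervalIntegrable _ _)
    ((Zt_int hα hδ1 _ _).add (hi.const_mul _)) ?_
  intro u _
  have hKn : 0 ≤ K * δ ^ ((α' - α) * (2 * V - α - α')) * Zn α' δ u := by
    have := Zn_nonneg hα' hδ.le u
    positivity
  by_cases hu : u ∈ {u : ℝ | ‖riemannZeta (1 / 2 + δ + u * I)‖ ≤ δ ^ (-V)}
  · unfold Zt
    rw [Set.indicator_of_mem hu]
    linarith
  · have h1 : Zt α V δ u = 0 := by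
      unfold Zt
      rw [Set.indicator_of_notMem hu]
    rw [h1, zero_add]
    have hu' : δ ^ (-V) ≤ ‖riemannZeta (1 / 2 + δ + u * I)‖ := le_of_lt (not_le.mp hu)
    have h0 : 0 < δ ^ (-V) := Real.rpow_pos_of_pos hδ _
    have h2 : 0 < ‖riemannZeta (1 / 2 + δ + u * I)‖ := h0.trans_le hu'
    have h3 : ‖riemannZeta (1 / 2 + δ + u * I)‖ ^ (2 * α) ≤
        ‖riemannZeta (1 / 2 + δ + u * I)‖ ^ (2 * α') * δ ^ (2 * V * (α' - α)) := by
      rw [show 2 * α = 2 * α' + 2 * (α - α') by ring, Real.rpow_add h2]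
      refine mul_le_mul_of_nonneg_left ?_ (Real.rpow_nonneg h2.le _)
      calc ‖riemannZeta (1 / 2 + δ + u * I)‖ ^ (2 * (α - α')) ≤ (δ ^ (-V)) ^ (2 * (α - α')) :=
            Real.rpow_le_rpow_of_nonpos h0 hu' (by linarith)
        _ = δ ^ (2 * V * (α' - α)) := by
            rw [← Real.rpow_mul hδ.le]
            congr 1
            ring
    have e1 : Zn α δ u = (2 * δ) ^ (α ^ 2) / aF α * ‖riemannZeta (1 / 2 + δ + u * I)‖ ^ (2 * α) := by
      unfold Zn; rw [aa_eq]
    have e2 : Zn α' δ u = (2 * δ) ^ (α' ^ 2) / aF α' * ‖riemannZeta (1 / 2 + δ + u * I)‖ ^ (2 * α') := by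
      unfold Zn; rw [aa_eq]
    rw [e1, e2]
    have h4 : 0 < (2 * δ) ^ (α ^ 2) / aF α := by positivity
    refine (mul_le_mul_of_nonneg_left h3 h4.le).trans (le_of_eq ?_)
    rw [Real.mul_rpow (by norm_num) hδ.le, Real.mul_rpow (by norm_num) hδ.le]
    have e3 : δ ^ (α ^ 2) * δ ^ (2 * V * (α' - α)) = δ ^ ((α' - α) * (2 * V - α - α')) * δ ^ (α' ^ 2) := by
      rw [← Real.rpow_add hδ, ← Real.rpow_add hδ]
      congr 1
      ring
    have e4 : (2:ℝ) ^ (α ^ 2) = 2 ^ (α ^ 2 - α' ^ 2) * 2 ^ (α' ^ 2) := by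
      rw [← Real.rpow_add (by norm_num)]
      congr 1
      ring
    rw [e4]
    calc (2:ℝ) ^ (α ^ 2 - α' ^ 2) * 2 ^ (α' ^ 2) * δ ^ (α ^ 2) / aF α *
          (‖riemannZeta (1 / 2 + δ + u * I)‖ ^ (2 * α') * δ ^ (2 * V * (α' - α)))
        = 2 ^ (α ^ 2 - α' ^ 2) * 2 ^ (α' ^ 2) / aF α * ‖riemannZeta (1 / 2 + δ + u * I)‖ ^ (2 * α') *
            (δ ^ (α ^ 2) * δ ^ (2 * V * (α' - α))) := by ring
      _ = _ := by rw [e3, hK]; field_simp

/-- windows of the length `H0` -/
lemma step1 {α α' V δ X H0 η e : ℝ} (hα : 0 < α) (hαα : α < α') (hV : α' < V) (hδ : 0 < δ) (hδ1 : δ ≤ 1 / 16)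
    (hX : 0 < X) (hH0 : 0 < H0) (hη : 0 < η) (he : 0 < e) (he1 : e ≤ 1)
    (h1 : volume {t : ℝ | 0 ≤ t ∧ t ≤ X ∧ η ≤ |(1 / H0) * (∫ u in t..(t + H0), Zn α δ u) - 1|} ≤
      ENNReal.ofReal (e * X))
    (h2 : volume {t : ℝ | 0 ≤ t ∧ t ≤ X ∧ 1 ≤ |(1 / H0) * (∫ u in t..(t + H0), Zn α' δ u) - 1|} ≤
      ENNReal.ofReal (e * X))
    (h3 : 2 * (aF α' / aF α * 2 ^ (α ^ 2 - α' ^ 2)) * δ ^ ((α' - α) * (2 * V - α - α')) ≤ η)
    (h4 : |(∫ u in {u : ℝ | u ∈ Set.Icc 0 (X + H0) ∧ ‖riemannZeta (1 / 2 + δ + u * I)‖ ≤ δ ^ (-V)}, Zn α δ u) -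
      (X + H0)| ≤ e * (X + H0)) (h5 : H0 ≤ e * X) :
    ∫ t in (0:ℝ)..X, |(1 / H0) * (∫ u in t..(t + H0), Zt α V δ u) - 1| ≤ (7 * e + 4 * η) * X := by
  have hα' : 0 < α' := hα.trans hαα
  set w : ℝ → ℝ := fun t => (1 / H0) * ∫ u in t..(t + H0), Zt α V δ u with hw
  have hi := Zt_int (V := V) hα hδ1
  have hwc : Continuous w := continuous_const.mul (prim_cont hi H0)
  have hw0 : ∀ t, 0 ≤ w t := fun t => mul_nonneg (by positivity)
    (intervalIntegral.integral_nonneg (by linarith) fun u _ => Zt_nonneg hα hδ.le u)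
  set f : ℝ → ℝ := fun t => max (1 - w t) 0 with hf
  have hfc : Continuous f := (continuous_const.sub hwc).max continuous_const
  have hf0 : ∀ t, 0 ≤ f t := fun t => le_max_right _ _
  have hf1 : ∀ t, f t ≤ 1 := fun t => max_le (by linarith [hw0 t]) zero_le_one
  have hsplit : ∀ t, |w t - 1| = (w t - 1) + 2 * f t := by
    intro t
    rcases le_total (w t) 1 with h | h
    · rw [abs_of_nonpos (by linarith)]
      simp only [hf]
      rw [max_eq_left (by linarith)]
      ring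
    · rw [abs_of_nonneg (by linarith)]
      simp only [hf]
      rw [max_eq_right (by linarith)]
      ring
  have e1 : ∫ t in (0:ℝ)..X, |w t - 1| = (∫ t in (0:ℝ)..X, w t) - X + 2 * ∫ t in (0:ℝ)..X, f t := by
    simp only [hsplit]
    have i1 : IntervalIntegrable (fun t => w t - 1) volume 0 X := (hwc.sub continuous_const).intervalIntegrable _ _
    have i2 : IntervalIntegrable (fun t => 2 * f t) volume 0 X := (continuous_const.mul hfc).intervalIntegrable _ _
    have i3 : ∫ t in (0:ℝ)..X, 2 * f t = 2 * ∫ t in (0:ℝ)..X, f t := intervalIntegral.integral_const_mul _ _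
    rw [intervalIntegral.integral_add i1 i2, intervalIntegral.integral_sub
      (hwc.intervalIntegrable _ _) intervalIntegrable_const, i3,
      intervalIntegral.integral_const, smul_eq_mul]
    ring
  have e2 : ∫ t in (0:ℝ)..X, w t ≤ ∫ u in (0:ℝ)..(X + H0), Zt α V δ u := by
    simp only [hw]
    rw [intervalIntegral.integral_const_mul]
    have := mean_up hi (Zt_nonneg hα hδ.le) hX.le hH0.le
    rw [one_div, inv_mul_le_iff₀ hH0]
    exact this
  rw [Zt_eq hδ1 (by linarith)] at e2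
  have e3 := (abs_le.mp h4).2
  have e4 : ∫ t in (0:ℝ)..X, f t ≤ (2 * η + 2 * e) * X := by
    refine int_small hfc hf0 hf1 hX.le (by positivity) (by positivity) ?_
    have hsub : {t : ℝ | 0 ≤ t ∧ t ≤ X ∧ 2 * η < f t} ⊆
        {t : ℝ | 0 ≤ t ∧ t ≤ X ∧ η ≤ |(1 / H0) * (∫ u in t..(t + H0), Zn α δ u) - 1|} ∪
        {t : ℝ | 0 ≤ t ∧ t ≤ X ∧ 1 ≤ |(1 / H0) * (∫ u in t..(t + H0), Zn α' δ u) - 1|} := by
      rintro t ⟨g1, g2, g3⟩
      by_contra hcon
      rw [Set.mem_union, not_or] at hcon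
      obtain ⟨k1, k2⟩ := hcon
      have k1' : |(1 / H0) * (∫ u in t..(t + H0), Zn α δ u) - 1| < η := by
        by_contra h; exact k1 ⟨g1, g2, not_lt.mp h⟩
      have k2' : |(1 / H0) * (∫ u in t..(t + H0), Zn α' δ u) - 1| < 1 := by
        by_contra h; exact k2 ⟨g1, g2, not_lt.mp h⟩
      have m1 := (abs_lt.mp k1').1
      have m2 := (abs_lt.mp k2').2
      have m3 := mul_le_mul_of_nonneg_left (gap (t := t) (H := H0) hα hαα hV hδ hδ1 hH0.le)
        (by positivity : (0:ℝ) ≤ 1 / H0)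
      have haF := aF_pos hα
      have haF' := aF_pos hα'
      set K := aF α' / aF α * 2 ^ (α ^ 2 - α' ^ 2) * δ ^ ((α' - α) * (2 * V - α - α')) with hK
      have hK0 : 0 < K := by positivity
      have h3' : 2 * K ≤ η := by rw [hK]; linarith
      have m4 : 1 / H0 * (K * ∫ u in t..(t + H0), Zn α' δ u) ≤ K * 2 := by
        have : 1 / H0 * (K * ∫ u in t..(t + H0), Zn α' δ u) = K * (1 / H0 * ∫ u in t..(t + H0), Zn α' δ u) := by ring
        rw [this]
        exact mul_le_mul_of_nonneg_left (by linarith) hK0.le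
      rw [mul_add] at m3
      have m5 : 1 - 2 * η < w t := by
        simp only [hw]
        linarith
      have m6 : f t ≤ 2 * η := max_le (by linarith) (by linarith)
      linarith
    refine (measure_mono hsub).trans ((measure_union_le _ _).trans ((add_le_add h1 h2).trans ?_))
    rw [← ENNReal.ofReal_add (by positivity) (by positivity)]
    refine ENNReal.ofReal_le_ofReal (by linarith)
  have e5 : e * (X + H0) ≤ e * X + e * X := by
    have : e * H0 ≤ 1 * H0 := mul_le_mul_of_nonneg_right he1 hH0.le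
    nlinarith
  show ∫ t in (0:ℝ)..X, |w t - 1| ≤ _
  rw [e1]
  linarith

theorem main (hC : S_CORE3) (hT : S_TRN) : S_WTR := by
  intro α hα V hV θ hθ hθ1 ε hε
  obtain ⟨θ', hθ'1, hθ'2⟩ : ∃ θ' : ℝ, max 0 (α ^ 2 - 1) < θ' ∧ θ' < θ :=
    exists_between (max_lt hθ hθ1)
  have hθ'0 : 0 < θ' := (le_max_left _ _).trans_lt hθ'1
  have hθ'3 : α ^ 2 - 1 < θ' := (le_max_right _ _).trans_lt hθ'1
  have hs : α < Real.sqrt (1 + θ') := by
    rw [Real.lt_sqrt hα.le]
    linarith
  obtain ⟨α', ha1, ha2⟩ : ∃ α' : ℝ, α < α' ∧ α' < min V (Real.sqrt (1 + θ')) := exists_between (lt_min hV hs)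
  have hα' : 0 < α' := hα.trans ha1
  have haV : α' < V := ha2.trans_le (min_le_left _ _)
  have hα2 : α' ^ 2 - 1 < θ' := by
    have := (Real.lt_sqrt hα'.le).mp (ha2.trans_le (min_le_right _ _))
    linarith
  have haF := aF_pos hα
  have haF' := aF_pos hα'
  obtain ⟨e, he⟩ : ∃ e, e = min 1 (ε / 100) := ⟨_, rfl⟩
  have he0 : 0 < e := by rw [he]; exact lt_min one_pos (by positivity)
  have he1 : e ≤ 1 := by rw [he]; exact min_le_left _ _
  have he2 : 100 * e ≤ ε := by
    have : e ≤ ε / 100 := by rw [he]; exact min_le_right _ _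
    linarith
  have ev1 : Ev _ := hC α hα θ' hθ'0 hθ'3 θ' le_rfl e he0 e he0
  have ev2 : Ev _ := hC α' hα' θ' hθ'0 hα2 θ' le_rfl e he0 1 one_pos
  have ev3 : Ev _ := Ev.small (C := 2 * (aF α' / aF α * 2 ^ (α ^ 2 - α' ^ 2)))
    (c := (α' - α) * (2 * V - α - α')) (e := e) (mul_pos (by linarith) (by linarith)) he0
  have ev4 : Ev _ := hT α hα V hV e he0
  have ev5 : Ev _ := Ev.win (D := θ') (c := e) he0
  have ev6 : Ev _ := Ev.small (C := 1) (c := θ - θ') (e := e) (by linarith) he0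
  refine ((ev1.and ev2).and ((ev3.and ev4).and (ev5.and ev6))).up.mono ?_
  rintro X δ hX hδ hδ1 hall H hH1 hH2
  have hX0 : 0 < X := by linarith
  set H0 := δ ^ (-θ') with hH0d
  have hH0 : 0 < H0 := Real.rpow_pos_of_pos hδ _
  have h01 : H0 ≤ H := le_trans (Real.rpow_le_rpow_of_exponent_ge hδ (by linarith) (by linarith)) hH1
  obtain ⟨⟨g1, g2⟩, ⟨g3, _⟩, g5, _⟩ := hall (2 * X) (by linarith)
  obtain ⟨_, ⟨_, g4⟩, _, g6⟩ := hall (2 * X + H0) (by linarith)
  have hE := step1 (X := 2 * X) (η := e) hα ha1 haV hδ hδ1 (by linarith) hH0 he0 he0 he1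
    (g1 H0 le_rfl le_rfl) (g2 H0 le_rfl le_rfl) g3 g4 g5
  have hm := mean_bound2 (Zt_int (V := V) hα hδ1) (Zt_nonneg hα hδ.le) hH0 h01 hH2 hE
  have hr : H0 / H ≤ e := by
    rw [div_le_iff₀ (by linarith)]
    have e1 : H0 = δ ^ (θ - θ') * δ ^ (-θ) := by
      rw [hH0d, ← Real.rpow_add hδ]; congr 1; ring
    rw [e1]
    rw [one_mul] at g6
    exact mul_le_mul g6 hH1 (Real.rpow_nonneg hδ.le _) he0.le
  have hr2 : 2 * (H0 / H) * X ≤ 2 * e * X := mul_le_mul_of_nonneg_right (by linarith) hX0.le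
  have hf : 100 * e * X ≤ ε * X := mul_le_mul_of_nonneg_right he2 hX0.le
  have heX : 0 ≤ e * X := by positivity
  linarith

theorem main0 (hD : S_DEG3) (hT : S_TRN) : S_WTR0 := by
  intro α hα V hV θ hθ ε hε
  have haF := aF_pos hα
  obtain ⟨e, he⟩ : ∃ e, e = min 1 (ε / 100) := ⟨_, rfl⟩
  have he0 : 0 < e := by rw [he]; exact lt_min one_pos (by positivity)
  have he1 : e ≤ 1 := by rw [he]; exact min_le_left _ _
  have he2 : 100 * e ≤ ε := by
    have : e ≤ ε / 100 := by rw [he]; exact min_le_right _ _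
    linarith
  obtain ⟨B, hB⟩ : ∃ B, B = 2 ^ (α ^ 2) / aF α := ⟨_, rfl⟩
  have hB0 : 0 < B := by rw [hB]; positivity
  have ev1 : Ev _ := hD α hα θ hθ e he0 e he0
  have ev4 : Ev _ := hT α hα V hV e he0
  have ev5 : Ev _ := Ev.win (D := θ) (c := e) he0
  have ev6 : Ev _ := Ev.win (D := θ - (α ^ 2 - 2 * α * V)) (c := e / B) (by positivity)
  refine ((ev1.and ev4).and (ev5.and ev6)).up.mono ?_
  rintro X δ hX hδ hδ1 hall H hH hH1
  have hX0 : 0 < X := by linarith
  obtain ⟨⟨g1, g4⟩, g5, g6⟩ := hall X le_rfl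
  obtain ⟨⟨_, g4'⟩, _, _⟩ := hall (X + H) (by linarith)
  have hHe : H ≤ e * X := hH1.trans g5
  set w : ℝ → ℝ := fun t => (1 / H) * ∫ u in t..(t + H), Zt α V δ u with hw
  have hi := Zt_int (V := V) hα hδ1
  have hwc : Continuous w := continuous_const.mul (prim_cont hi H)
  have hw0 : ∀ t, 0 ≤ w t := fun t => mul_nonneg (by positivity)
    (intervalIntegral.integral_nonneg (by linarith) fun u _ => Zt_nonneg hα hδ.le u)
  set f : ℝ → ℝ := fun t => max (1 - w t) 0 with hf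
  have hfc : Continuous f := (continuous_const.sub hwc).max continuous_const
  have hf0 : ∀ t, 0 ≤ f t := fun t => le_max_right _ _
  have hf1 : ∀ t, f t ≤ 1 := fun t => max_le (by linarith [hw0 t]) zero_le_one
  have hsplit : ∀ t, |w t - 1| = (w t - 1) + 2 * f t := by
    intro t
    rcases le_total (w t) 1 with h | h
    · rw [abs_of_nonpos (by linarith)]
      simp only [hf]
      rw [max_eq_left (by linarith)]
      ring
    · rw [abs_of_nonneg (by linarith)]
      simp only [hf]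
      rw [max_eq_right (by linarith)]
      ring
  have e1 : ∫ t in (0:ℝ)..X, |w t - 1| = (∫ t in (0:ℝ)..X, w t) - X + 2 * ∫ t in (0:ℝ)..X, f t := by
    simp only [hsplit]
    have i1 : IntervalIntegrable (fun t => w t - 1) volume 0 X := (hwc.sub continuous_const).intervalIntegrable _ _
    have i2 : IntervalIntegrable (fun t => 2 * f t) volume 0 X := (continuous_const.mul hfc).intervalIntegrable _ _
    have i3 : ∫ t in (0:ℝ)..X, 2 * f t = 2 * ∫ t in (0:ℝ)..X, f t := intervalIntegral.integral_const_mul _ _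
    rw [intervalIntegral.integral_add i1 i2, intervalIntegral.integral_sub
      (hwc.intervalIntegrable _ _) intervalIntegrable_const, i3,
      intervalIntegral.integral_const, smul_eq_mul]
    ring
  have e2 : ∫ t in (0:ℝ)..X, w t ≤ ∫ u in (0:ℝ)..(X + H), Zt α V δ u := by
    simp only [hw]
    rw [intervalIntegral.integral_const_mul]
    have := mean_up hi (Zt_nonneg hα hδ.le) hX0.le hH.le
    rw [one_div, inv_mul_le_iff₀ hH]
    exact this
  rw [Zt_eq hδ1 (by linarith)] at e2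
  have e2' : (∫ u in (0:ℝ)..X, Zt α V δ u) - (∫ u in (0:ℝ)..H, Zt α V δ u) ≤ ∫ t in (0:ℝ)..X, w t := by
    simp only [hw]
    rw [intervalIntegral.integral_const_mul]
    have := mean_low hi (Zt_nonneg hα hδ.le) hX0.le hH.le
    rw [one_div, le_inv_mul_iff₀ hH]
    exact this
  rw [Zt_eq hδ1 hX0.le] at e2'
  have e3 : ∫ u in (0:ℝ)..H, Zt α V δ u ≤ e * X := by
    have c1 : ∫ u in (0:ℝ)..H, Zt α V δ u ≤ ∫ _u in (0:ℝ)..H, B * δ ^ (α ^ 2 - 2 * α * V) :=
      intervalIntegral.integral_mono_on hH.le (hi _ _) intervalIntegrable_const fun u _ => by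
        rw [hB]; exact Zt_up hα hδ u
    rw [intervalIntegral.integral_const, smul_eq_mul, sub_zero] at c1
    have hp : 0 < δ ^ (α ^ 2 - 2 * α * V) := Real.rpow_pos_of_pos hδ _
    have c2 : H * δ ^ (α ^ 2 - 2 * α * V) ≤ e / B * X := by
      refine le_trans ?_ g6
      have e9 : δ ^ (-(θ - (α ^ 2 - 2 * α * V))) = δ ^ (-θ) * δ ^ (α ^ 2 - 2 * α * V) := by
        rw [← Real.rpow_add hδ]; congr 1; ring
      rw [e9]
      exact mul_le_mul_of_nonneg_right hH1 hp.le
    calc _ ≤ _ := c1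
      _ = B * (H * δ ^ (α ^ 2 - 2 * α * V)) := by ring
      _ ≤ B * (e / B * X) := mul_le_mul_of_nonneg_left c2 hB0.le
      _ = e * X := by field_simp
  have k1 := (abs_le.mp g4).1
  have k2 := (abs_le.mp g4').2
  have e4 : (1 - 2 * e) * X ≤ ∫ t in (0:ℝ)..X, f t := by
    have h1 : ∫ t in (0:ℝ)..X, (1 - f t) ≤ (e + e) * X := by
      refine int_small (f := fun t => 1 - f t) (continuous_const.sub hfc) (fun t => sub_nonneg.mpr (hf1 t))
        (fun t => sub_le_self _ (hf0 t)) hX0.le he0.le he0.le ?_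
      refine (measure_mono ?_).trans (g1 H hH hH1)
      rintro t ⟨a1, a2, a3⟩
      refine ⟨a1, a2, ?_⟩
      have h2 : 1 - w t ≤ f t := le_max_left _ _
      have h3 : w t ≤ (1 / H) * ∫ u in t..(t + H), Zn α δ u := by
        simp only [hw]
        refine mul_le_mul_of_nonneg_left ?_ (by positivity)
        exact intervalIntegral.integral_mono_on (by linarith) (hi _ _)
          ((Zn_cont' hα (by linarith : δ < 1 / 2)).intervalIntegrable _ _) fun u _ => Zt_le hα hδ.le u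
      linarith
    rw [intervalIntegral.integral_sub intervalIntegrable_const (hfc.intervalIntegrable _ _),
      intervalIntegral.integral_const, smul_eq_mul] at h1
    linarith
  have e5 : ∫ t in (0:ℝ)..X, f t ≤ X := by
    have : ∫ t in (0:ℝ)..X, f t ≤ ∫ _t in (0:ℝ)..X, (1:ℝ) :=
      intervalIntegral.integral_mono_on hX0.le (hfc.intervalIntegrable _ _) intervalIntegrable_const fun t _ => hf1 t
    rw [intervalIntegral.integral_const, smul_eq_mul] at this
    linarith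
  have e6 : e * (X + H) ≤ e * X + e * X := by
    have : e * H ≤ 1 * H := mul_le_mul_of_nonneg_right he1 hH.le
    nlinarith
  have hf : 100 * e * X ≤ ε * X := mul_le_mul_of_nonneg_right he2 hX0.le
  have heX : 0 ≤ e * X := by positivity
  show |(∫ t in (0:ℝ)..X, |w t - 1|) - 2 * X| ≤ ε * X
  rw [e1, abs_le]
  constructor <;> linarith

end WTR

end Pool.Agent.N748.HM
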