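import Pool.Agent.N748.HM.Fin2
import Pool.Agent.N748.HM.NRMb
import Pool.Agent.N748.HM.TRN
import Pool.Agent.N748.HM.WTR

set_option autoImplicit false

/-! All moments near the critical line: the theorems. -/

namespace Pool.Agent.N748.HM

open Pool.Agent.N748.GC

theorem trm2F : S_TRM2 := trm2G NRMb.main

theorem core3F : S_CORE3 := core3G NRMb.main

theorem deg3F : S_DEG3 := deg3G NRMb.main

theorem feF : S_FE := feG NRMb.main

theorem trnF : S_TRN := TRN.main trm2F

theorem trn0F : S_TRN0 := TRN.main0 trnF

theorem ldpF : S_LDP := TRN.ldp trm2F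

theorem wtrF : S_WTR := WTR.main core3F trnF

theorem wtr0F : S_WTR0 := WTR.main0 deg3F trnF

end Pool.Agent.N748.HM
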