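import Pool.Agent.N748.HM.Stm
import Pool.Agent.N748.GC.TWO

set_option autoImplicit false

/-!
# HM/NEAR3: the two-point function on the good points at distances up to `1`, all exponents
-/

namespace Pool.Agent.N748.HM.NEAR3

open Finset Filter MeasureTheory MonoidAlgebra Topology Complex Pool.Agent.N748.GC Pool.Agent.N748.HM

lemma ca_bd {α : ℝ} {A : ℕ} (h0 : 0 ≤ α) (h2 : α ≤ A) (j i : ℕ) : 0 ≤ TWO.ca α j i ∧ TWO.ca α j i ≤ A := by
  unfold TWO.ca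
  split_ifs
  · exact ⟨h0, h2⟩
  · exact ⟨le_rfl, Nat.cast_nonneg A⟩

lemma WP_nonneg (α : ℝ) (z Rs : ℕ) (y : ℝ) (J : ℕ) (δ u : ℝ) : 0 ≤ WP α z Rs y J δ u := by
  unfold WP; positivity

lemma gP_nonneg (A : ℕ) (α B ε1 : ℝ) (z Rs : ℕ) (y : ℝ) (J : ℕ) (δ u : ℝ) :
    0 ≤ gP A α B ε1 z Rs y J δ u := by
  unfold gP; split_ifs <;> norm_num

lemma gP_le (A : ℕ) (α B ε1 : ℝ) (z Rs : ℕ) (y : ℝ) (J : ℕ) (δ u : ℝ) :
    gP A α B ε1 z Rs y J δ u ≤ 1 := by
  unfold gP; split_ifs <;> norm_num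

lemma pw {A : ℕ} {α A' ε1 : ℝ} {z Rs J : ℕ} {y δ t x x' Fv : ℝ} (hF : 0 ≤ Fv) {j : ℕ}
    (hj : j ≤ J) (hne : ∀ n ∈ (BP (fun _ => α) z y 0 J Rs).coeff.support, n ≠ 0)
    (hne' : ∀ n ∈ (BP (TWO.ca α j) z y 0 J Rs).coeff.support, n ≠ 0) {B : ℝ} (hB : 0 ≤ B)
    (hbar : G2 α A' ε1 z Rs y J δ (t + x) →
      ‖ec (1 / 2 + δ + ((t + x : ℝ) : ℂ) * I) (BP (fun _ => α) z y j J Rs)‖ ^ 2 ≤ B) :
    Fv * ((WP α z Rs y J δ (t + x) * gP A α A' ε1 z Rs y J δ (t + x)) *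
       (WP α z Rs y J δ (t + x') * gP A α A' ε1 z Rs y J δ (t + x'))) ≤
    Fv * (B * Real.exp (-(2 * α ^ 2 * VB δ z y 0 J)) *
      ‖ec (1 / 2 + δ + t * I) (sf x (BP (TWO.ca α j) z y 0 J Rs) *
        sf x' (BP (fun _ => α) z y 0 J Rs))‖ ^ 2) := by
  refine mul_le_mul_of_nonneg_left ?_ hF
  set V := VB δ z y 0 J with hV
  have hx : (1 / 2 + (δ : ℂ) + ((t + x : ℝ) : ℂ) * I) = 1 / 2 + δ + t * I + x * I := by push_cast; ring
  have hy : (1 / 2 + (δ : ℂ) + ((t + x' : ℝ) : ℂ) * I) = 1 / 2 + δ + t * I + x' * I := by push_cast; ring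
  have h1 : WP α z Rs y J δ (t + x) * gP A α A' ε1 z Rs y J δ (t + x) ≤
      ‖ec (1 / 2 + δ + t * I) (sf x (BP (TWO.ca α j) z y 0 J Rs))‖ ^ 2 * B / Real.exp (α ^ 2 * V) := by
    by_cases hg : G1 A z Rs y J δ (t + x) ∧ G2 α A' ε1 z Rs y J δ (t + x)
    · have h2 : gP A α A' ε1 z Rs y J δ (t + x) = 1 := by unfold gP; rw [if_pos hg]
      rw [h2, mul_one]
      unfold WP
      rw [TWO.BP_split α z y hj Rs, map_mul, norm_mul, mul_pow, MV.ec_sf _ _ hne', ← hx]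
      refine div_le_div_of_nonneg_right ?_ (Real.exp_pos _).le
      exact mul_le_mul_of_nonneg_left (hbar hg.2) (by positivity)
    · have h2 : gP A α A' ε1 z Rs y J δ (t + x) = 0 := by unfold gP; rw [if_neg hg]
      rw [h2, mul_zero]
      positivity
  have h3 : WP α z Rs y J δ (t + x') * gP A α A' ε1 z Rs y J δ (t + x') ≤
      ‖ec (1 / 2 + δ + t * I) (sf x' (BP (fun _ => α) z y 0 J Rs))‖ ^ 2 / Real.exp (α ^ 2 * V) := by
    refine (mul_le_of_le_one_right (WP_nonneg _ _ _ _ _ _ _) (gP_le _ _ _ _ _ _ _ _ _ _)).trans ?_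
    unfold WP
    rw [MV.ec_sf _ _ hne, ← hy]
  refine (mul_le_mul h1 h3 (mul_nonneg (WP_nonneg _ _ _ _ _ _ _) (gP_nonneg _ _ _ _ _ _ _ _ _ _))
    (div_nonneg (mul_nonneg (sq_nonneg _) hB) (Real.exp_pos _).le)).trans (le_of_eq ?_)
  rw [map_mul, norm_mul, mul_pow, show -(2 * α ^ 2 * V) = -(α ^ 2 * V) + -(α ^ 2 * V) by ring, Real.exp_add,
    Real.exp_neg]
  exact TWO.alg _ _ _ (Real.exp_pos _)

/-- the mean square of the product, for exponents up to `A` -/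
lemma nn_two3 {A : ℕ} {c CN : ℝ} {R0 : ℕ} (hN : ∀ (z J Rs : ℕ) (y : ℝ), 144 ≤ z → 1 ≤ y → R0 ≤ Rs → 1 ≤ Rs →
      (∀ i < J, ∑ p ∈ IB z y i, 1 / (p:ℝ) ≤ c) → ∀ δ : ℝ, 0 ≤ δ → ∀ a b : ℕ → ℝ,
      (∀ i, 0 ≤ a i ∧ a i ≤ A) → (∀ i, 0 ≤ b i ∧ b i ≤ A) → ∀ h : ℝ,
      nn δ (BP a z y 0 J Rs * sf h (BP b z y 0 J Rs)) ≤
        Real.exp ((∑ i ∈ range J, ∑ p ∈ IB z y i,
          (a i ^ 2 + b i ^ 2 + 2 * a i * b i * Real.cos (h * Real.log p)) * wd δ p) +
          CN * Real.exp (-(2 * (Rs:ℝ)))))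
    {z J Rs : ℕ} {yy : ℝ} (hz : 144 ≤ z) (hyy : 1 ≤ yy) (hR0 : R0 ≤ Rs) (hR : 1 ≤ Rs)
    (hc : ∀ i < J, ∑ p ∈ IB z yy i, 1 / (p:ℝ) ≤ c) {δ : ℝ} (hδ : 0 ≤ δ) {α : ℝ} (hα0 : 0 ≤ α) (hα1 : α ≤ A)
    {j : ℕ} (hj : j ≤ J) (x y : ℝ)
    (hne : ∀ n ∈ (BP (fun _ => α) z yy 0 J Rs).coeff.support, n ≠ 0) :
    nn δ (sf x (BP (TWO.ca α j) z yy 0 J Rs) * sf y (BP (fun _ => α) z yy 0 J Rs)) ≤
      Real.exp (2 * α ^ 2 * VB δ z yy 0 j + α ^ 2 * VB δ z yy j J +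
        2 * α ^ 2 * (∑ i ∈ Ico 0 j, ∑ p ∈ IB z yy i, Real.cos (|y - x| * Real.log p) * wd δ p) +
        CN * Real.exp (-(2 * (Rs:ℝ)))) := by
  rw [TWO.nn_shift δ x y _ hne]
  refine (hN z J Rs yy hz hyy hR0 hR hc δ hδ (TWO.ca α j) (fun _ => α) (fun i => ca_bd hα0 hα1 j i)
    (fun _ => ⟨hα0, hα1⟩) (y - x)).trans ?_
  refine Real.exp_le_exp.2 (add_le_add_left (le_of_eq ?_) _)
  have hcos : ∀ p : ℕ, Real.cos ((y - x) * Real.log p) = Real.cos (|y - x| * Real.log p) := by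
    intro p
    rcases abs_choice (y - x) with h | h
    · rw [h]
    · rw [h, neg_mul, Real.cos_neg]
  rw [range_eq_Ico, ← sum_Ico_consecutive _ (Nat.zero_le j) hj]
  have h1 : ∑ i ∈ Ico 0 j, ∑ p ∈ IB z yy i,
      (TWO.ca α j i ^ 2 + α ^ 2 + 2 * TWO.ca α j i * α * Real.cos ((y - x) * Real.log p)) * wd δ p =
      2 * α ^ 2 * VB δ z yy 0 j +
        2 * α ^ 2 * (∑ i ∈ Ico 0 j, ∑ p ∈ IB z yy i, Real.cos (|y - x| * Real.log p) * wd δ p) := by
    unfold VB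
    rw [mul_sum, mul_sum, ← sum_add_distrib]
    refine sum_congr rfl fun i hi => ?_
    rw [mul_sum, mul_sum, ← sum_add_distrib]
    refine sum_congr rfl fun p _ => ?_
    have : TWO.ca α j i = α := if_pos (mem_Ico.1 hi).2
    rw [this, hcos]
    ring
  have h2 : ∑ i ∈ Ico j J, ∑ p ∈ IB z yy i,
      (TWO.ca α j i ^ 2 + α ^ 2 + 2 * TWO.ca α j i * α * Real.cos ((y - x) * Real.log p)) * wd δ p =
      α ^ 2 * VB δ z yy j J := by
    unfold VB
    rw [mul_sum]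
    refine sum_congr rfl fun i hi => ?_
    rw [mul_sum]
    refine sum_congr rfl fun p _ => ?_
    have : TWO.ca α j i = 0 := if_neg (not_lt.2 (mem_Ico.1 hi).1)
    rw [this]
    ring
  rw [h1, h2]
  ring

lemma twoA_mul_le {α A S b : ℝ} (hα1 : α ^ 2 ≤ A ^ 2) (hS : S ≤ b) (hb : 0 ≤ b) :
    2 * α ^ 2 * S ≤ 2 * A ^ 2 * b := by
  have h0 : 0 ≤ α ^ 2 := sq_nonneg α
  have h1 := mul_le_mul_of_nonneg_left hS h0
  have h2 := mul_le_mul_of_nonneg_right hα1 hb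
  linarith

theorem main (hN : S_NNB3) (hLEN : S_LEN3) (hM : S_MER) (hC : S_COS) (hT : S_TAIL) : S_NEAR3 := by
  have hEQ : S_EQ := EQ.main MV.main
  intro A α hα0 hα2 ε1 hε1 hε11 c hc B0 hB0
  obtain ⟨CN, R0, hCN, hN⟩ := hN c hc A
  obtain ⟨Cc, hCc, hC⟩ := hC
  obtain ⟨Cm, hCm, hM⟩ := hM
  obtain ⟨Ct, hCt, hT⟩ := hT
  have hA0 : (0:ℝ) ≤ A := Nat.cast_nonneg A
  have hl16 : 0 < Real.log 16 := Real.log_pos (by norm_num)
  have hl4 : 0 < Real.log 4 := Real.log_pos (by norm_num)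
  have hl416 : Real.log 4 ≤ Real.log 16 := Real.log_le_log (by norm_num) (by norm_num)
  set C : ℝ := B0 * Real.exp (((A:ℝ) ^ 2 + 1) * Cm + 2 * (A:ℝ) ^ 2 * (Cc + Ct + Real.log 16) + CN) with hCdef
  have hC0 : 0 < C := by positivity
  have hC1' : 1 ≤ C := by
    have h1 : 1 ≤ Real.exp (((A:ℝ) ^ 2 + 1) * Cm + 2 * (A:ℝ) ^ 2 * (Cc + Ct + Real.log 16) + CN) :=
      Real.one_le_exp (by positivity)
    calc (1:ℝ) = 1 * 1 := (one_mul _).symm
      _ ≤ C := mul_le_mul hB0 h1 zero_le_one (by linarith)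
  have hq1 : 0 ≤ ((A:ℝ) ^ 2 + 1) * Cm := by positivity
  have hq2 : 0 ≤ (A:ℝ) ^ 2 * Ct := by positivity
  have hq3 : (A:ℝ) ^ 2 * Real.log 4 ≤ (A:ℝ) ^ 2 * Real.log 16 := mul_le_mul_of_nonneg_left hl416 (by positivity)
  refine ⟨C, hC0.le, 1000, max R0 (max 1 A), ?_⟩
  intro z hz
  have hz1000 : (1000:ℝ) ≤ z := by exact_mod_cast hz
  have hz144 : 144 ≤ z := le_trans (by norm_num) hz
  have hL1 : 1 < Real.log z := by
    rw [Real.lt_log_iff_exp_lt (by linarith)]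
    linarith [Real.exp_one_lt_d9]
  set L : ℝ := Real.log z with hL
  have hL0 : 0 < L := by linarith
  have hα4 : α ^ 2 ≤ (A:ℝ) ^ 2 := pow_le_pow_left₀ hα0.le hα2 2
  have hζ0 : 0 < α ^ 2 + ε1 := by positivity
  have hζ5 : α ^ 2 + ε1 ≤ (A:ℝ) ^ 2 + 1 := by linarith
  refine ⟨1 / (16 * L), by positivity, ?_⟩
  intro K _ _ F hF hF0 η hη
  filter_upwards [TWO.core hEQ z K F hF hF0 η hη, TWO.ev_log (B0 * Real.exp Cm) (by positivity),
    eventually_ge_atTop (3:ℝ)] with X hcore hX2 hX3 Rs J y hRs hSP δ hδ hδu hδX k x x' hxy hxy1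
  have hzy := hSP.zy
  have hJ := hSP.bJ
  have hblk := hSP.bl
  have hlen := hSP.len
  have hRR : R0 ≤ Rs := (le_max_left _ _).trans hRs
  have hR1 : 1 ≤ Rs := (le_max_left _ _).trans ((le_max_right _ _).trans hRs)
  have hRA : A ≤ Rs := (le_max_right _ _).trans ((le_max_right _ _).trans hRs)
  have hCNR : CN * Real.exp (-(2 * (Rs:ℝ))) ≤ CN := by
    refine mul_le_of_le_one_right hCN (Real.exp_le_one_iff.2 ?_)
    have : (0:ℝ) ≤ Rs := Nat.cast_nonneg _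
    linarith
  have hlX : 1 < Real.log X := by
    rw [Real.lt_log_iff_exp_lt (by linarith)]
    linarith [Real.exp_one_lt_d9]
  have hδ16 : 16 * L ≤ 1 / δ := by
    have h1 : δ ≤ 1 / (16 * L) := hδu
    rw [le_div_iff₀ (by positivity)] at h1
    rw [le_div_iff₀ hδ]
    linarith
  have hδ1 : δ ≤ 1 := by
    refine hδu.trans ?_
    rw [div_le_iff₀ (by positivity)]
    linarith
  have hyy : 1 ≤ y := by linarith
  have hX10 : 1 ≤ X ^ ((1:ℝ) / 10) := Real.one_le_rpow (by linarith) (by norm_num)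
  have hNN : 0 ≤ Real.exp (Real.log y * (90 * ((Rs:ℝ) + 1))) := (Real.exp_pos _).le
  have hNM : Real.exp (Real.log y * (90 * ((Rs:ℝ) + 1))) * Real.exp (Real.log y * (90 * ((Rs:ℝ) + 1))) ≤
      (2 * (X + 1)) ^ ((1:ℝ) / 50) := by
    rw [← Real.exp_add]
    refine le_trans (le_of_eq ?_) hlen
    congr 1
    ring
  have hLE := (hLEN A z J Rs y hz144 hyy hR1 hRA (fun i hi => (hblk i hi).1)).1
  have hbα := hLE (fun _ => α) (fun _ => ⟨hα0.le, hα2⟩) 0 (Nat.zero_le _)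
  have hneα : ∀ n ∈ (BP (fun _ => α) z y 0 J Rs).coeff.support, n ≠ 0 := fun n hn => (hbα.1 n hn).1
  have hca := fun j => hLE (TWO.ca α j) (ca_bd hα0.le hα2 j) 0 (Nat.zero_le _)
  have hneca : ∀ j, ∀ n ∈ (BP (TWO.ca α j) z y 0 J Rs).coeff.support, n ≠ 0 :=
    fun j n hn => ((hca j).1 n hn).1
  have hh0 : 0 < |x' - x| := abs_pos.2 (sub_ne_zero.2 (Ne.symm hxy))
  have hh1 : |x' - x| ≤ 1 := by rw [abs_sub_comm]; exact hxy1
  rw [abs_sub_comm x x']
  set s : ℝ := max |x' - x| δ with hs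
  have hs0 : 0 < s := lt_of_lt_of_le hh0 (le_max_left _ _)
  have hs1 : s ≤ 1 := max_le hh1 hδ1
  have hsr : 1 ≤ s ^ (-(α ^ 2 + ε1)) :=
    Real.one_le_rpow_of_pos_of_le_one_of_nonpos hs0 hs1 (by linarith)
  have hρ1 : C ≤ C * s ^ (-(α ^ 2 + ε1)) := le_mul_of_one_le_right hC0.le hsr
  -- the frame
  have fin : ∀ j ≤ J, ∀ B : ℝ, 0 ≤ B → (∀ t : ℝ, G2 α B0 ε1 z Rs y J δ (t + x) →
      ‖ec (1 / 2 + δ + ((t + x : ℝ) : ℂ) * I) (BP (fun _ => α) z y j J Rs)‖ ^ 2 ≤ B) →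
      B * Real.exp (-(2 * α ^ 2 * VB δ z y 0 J)) ≤ X ^ ((1:ℝ) / 10) →
      B * Real.exp (-(α ^ 2 * VB δ z y j J) +
        2 * α ^ 2 * (∑ i ∈ Ico 0 j, ∑ p ∈ IB z y i, Real.cos (|x' - x| * Real.log p) * wd δ p) +
        CN * Real.exp (-(2 * (Rs:ℝ)))) ≤ C * s ^ (-(α ^ 2 + ε1)) →
      ∫ t in Xl X..X, F (k, pt (Sm z) t) *
      ((WP α z Rs y J δ (t + x) * gP A α B0 ε1 z Rs y J δ (t + x)) *
       (WP α z Rs y J δ (t + x') * gP A α B0 ε1 z Rs y J δ (t + x'))) ≤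
      X * (((∫ w, F (k, w) ∂(HP (Sm z))) + η) * (C * s ^ (-(α ^ 2 + ε1)))) := by
    intro j hj B hB hbar hBX hρ
    have hcl := TWO.len_mul hNN hNM (hca j) hbα x x'
    refine hcore δ hδ.le k _ hcl.1 hcl.2 (B * Real.exp (-(2 * α ^ 2 * VB δ z y 0 J)))
      (C * s ^ (-(α ^ 2 + ε1))) (by positivity) hBX ?_ (hC1'.trans hρ1) _ ?_ ?_
    · refine le_trans ?_ hρ
      have h1 := nn_two3 (A := A) hN hz144 hyy hRR hR1 (fun i hi => (hblk i hi).2) hδ.le hα0.le hα2 hj x x' hneα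
      rw [mul_assoc]
      refine mul_le_mul_of_nonneg_left ?_ hB
      refine (mul_le_mul_of_nonneg_left h1 (Real.exp_pos _).le).trans (le_of_eq ?_)
      rw [← Real.exp_add, TWO.VB_add δ z y hj]
      congr 1
      ring
    · intro t
      exact mul_nonneg (hF0 _) (mul_nonneg (mul_nonneg (WP_nonneg _ _ _ _ _ _ _)
        (gP_nonneg _ _ _ _ _ _ _ _ _ _))
        (mul_nonneg (WP_nonneg _ _ _ _ _ _ _) (gP_nonneg _ _ _ _ _ _ _ _ _ _)))
    · intro t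
      exact pw (hF0 _) hj hneα (hneca j) hB (hbar t)
  by_cases hcase : 1 / 16 ≤ |x' - x| * L
  · -- without barrier
    have hBJ : BP (fun _ => α) z y J J Rs = 1 := by
      unfold BP; rw [Ico_self, prod_empty]
    have hVJ : VB δ z y J J = 0 := by
      unfold VB; rw [Ico_self, sum_empty]
    have hV0 := TWO.VB_nonneg δ z y 0 J
    refine fin J le_rfl 1 zero_le_one ?_ ?_ ?_
    · intro t _
      rw [hBJ, map_one, norm_one, one_pow]
    · refine le_trans ?_ hX10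
      rw [one_mul]
      refine Real.exp_le_one_iff.2 ?_
      have : 0 ≤ 2 * α ^ 2 * VB δ z y 0 J := by positivity
      linarith
    · rw [hVJ, mul_zero, neg_zero, zero_add, one_mul,
        TWO.sum_low hz144 hyy (fun p => Real.cos (|x' - x| * Real.log p) * wd δ p) (Nat.zero_le _) hJ,
        TWO.be_zero hyy]
      obtain ⟨hC1, hC2⟩ := hC z δ y |x' - x| (by omega) hδ.le hzy hh0 hh1
      rw [← hL] at hC1 hC2
      have h3 : ∑ p ∈ (Icc z ⌊y⌋₊).filter Nat.Prime, Real.cos (|x' - x| * Real.log p) * wd δ p ≤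
          Cc + Real.log 16 := by
        rcases le_total 1 (|x' - x| * L) with h1 | h1
        · have := (hC1 h1).trans (div_le_self hCc.le h1)
          linarith
        · have h3 := hC2 h1
          have h4 : Real.log (1 / (|x' - x| * L)) ≤ Real.log 16 := by
            refine Real.log_le_log (by positivity) ?_
            rw [div_le_iff₀ (by positivity)]
            linarith
          linarith
      have h5 := twoA_mul_le hα4 h3 (by positivity)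
      refine le_trans ?_ hρ1
      rw [hCdef]
      refine le_trans (Real.exp_le_exp.2 ?_) (le_mul_of_one_le_left (Real.exp_pos _).le hB0)
      linarith
  · -- with the barrier
    have hlt := not_le.1 hcase
    have hU16 : 16 * L ≤ min (1 / |x' - x|) (1 / δ) := by
      refine le_min ?_ hδ16
      rw [le_div_iff₀ hh0]
      linarith
    obtain ⟨j, hjJ, hzj, hjU, hjl⟩ := TWO.exists_j hz144 hL1.le hyy hzy hJ hU16
    have hcos := TWO.cos_high hCc hCt hC hT hz144 hyy hh0 hh1 hδ hzj hjl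
    have hv := TWO.VB_le hCm hM hz144 hL1.le hyy hδ.le hjJ.le hJ hzj
    have hv0 := TWO.VB_nonneg δ z y j J
    have hVa := TWO.VB_add δ z y hjJ.le
    have hVa0 := TWO.VB_nonneg δ z y 0 j
    rw [← hL] at hv
    set v := VB δ z y j J with hvdef
    have hlzj : L ≤ Real.log (be y j) := Real.log_le_log (by linarith) hzj
    have hu1 : 1 ≤ Real.log (be y j) / L := by
      rw [le_div_iff₀ hL0]; linarith
    have hu2 : Real.log (be y j) / L ≤ Real.log X := by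
      refine (div_le_self (by linarith) hL1.le).trans ?_
      exact hjU.trans ((min_le_right _ _).trans hδX)
    have hus : Real.log (be y j) / L ≤ 1 / s := by
      refine (div_le_self (by linarith) hL1.le).trans ?_
      rw [le_div_iff₀ hs0, hs]
      rcases le_total |x' - x| δ with hd | hd
      · rw [max_eq_right hd]
        have := hjU.trans (min_le_right _ _)
        rwa [le_div_iff₀ hδ] at this
      · rw [max_eq_left hd]
        have := hjU.trans (min_le_left _ _)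
        rwa [le_div_iff₀ hh0] at this
    have hvs : v ≤ Real.log (1 / s) + Cm :=
      hv.trans (add_le_add_left (Real.log_le_log (by linarith) hus) Cm)
    refine fin j hjJ.le (B0 * Real.exp ((2 * α ^ 2 + ε1) * v)) (by positivity) ?_ ?_ ?_
    · intro t hg
      refine hg j hjJ hzj ?_
      calc δ * Real.log (be y j) ≤ δ * (1 / δ) :=
            mul_le_mul_of_nonneg_left (hjU.trans (min_le_right _ _)) hδ.le
        _ = 1 := by field_simp
    · refine le_trans ?_ hX2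
      rw [mul_assoc B0 (Real.exp ((2 * α ^ 2 + ε1) * v)), mul_assoc B0 (Real.exp Cm), ← Real.exp_add]
      refine mul_le_mul_of_nonneg_left ?_ (by linarith)
      have h1 : (2 * α ^ 2 + ε1) * v + -(2 * α ^ 2 * VB δ z y 0 J) ≤
          Cm + Real.log (Real.log (be y j) / L) := by
        rw [hVa]
        have h2 : 0 ≤ 2 * α ^ 2 * VB δ z y 0 j := by positivity
        have h3 : ε1 * v ≤ v := mul_le_of_le_one_left hv0 hε11
        nlinarith
      refine (Real.exp_le_exp.2 h1).trans ?_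
      rw [Real.exp_add, Real.exp_log (by linarith)]
      refine mul_le_mul_of_nonneg_left ?_ (Real.exp_pos _).le
      nlinarith
    · rw [mul_assoc, ← Real.exp_add]
      have h2 : s ^ (-(α ^ 2 + ε1)) = Real.exp ((α ^ 2 + ε1) * Real.log (1 / s)) := by
        rw [Real.rpow_def_of_pos hs0, one_div, Real.log_inv]
        congr 1
        ring
      have h3 := twoA_mul_le hα4 hcos (by positivity)
      have h4 : (α ^ 2 + ε1) * v ≤ (α ^ 2 + ε1) * Real.log (1 / s) + ((A:ℝ) ^ 2 + 1) * Cm := by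
        have h5 := mul_le_mul_of_nonneg_left hvs hζ0.le
        have h6 := mul_le_mul_of_nonneg_right hζ5 hCm.le
        linarith
      rw [h2, hCdef, mul_assoc B0, ← Real.exp_add]
      refine mul_le_mul_of_nonneg_left (Real.exp_le_exp.2 ?_) (by linarith)
      linarith

end Pool.Agent.N748.HM.NEAR3
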