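import Pool.Agent.N748.HM.Stm2
import Pool.Agent.H402R2.SubMean

set_option autoImplicit false

/-!
# All moments near the critical line: from mean squares to local maxima, in the mean
-/

namespace Pool.Agent.N748.HM.SUPM

open Finset Filter MeasureTheory MonoidAlgebra Topology Complex
open Pool.Agent.N748.GC

/-! ### integrals of continuous functions -/

lemma lint_Icc (g : ℝ → ℝ) (hg : Continuous g) (hg0 : ∀ x, 0 ≤ g x) {a b : ℝ} (hab : a ≤ b) :
    ∫⁻ x in Set.Icc a b, ENNReal.ofReal (g x) = ENNReal.ofReal (∫ x in a..b, g x) := by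
  rw [intervalIntegral.integral_of_le hab, ← integral_Icc_eq_integral_Ioc,
    ofReal_integral_eq_lintegral_ofReal (hg.continuousOn.integrableOn_compact isCompact_Icc)
      (Filter.Eventually.of_forall hg0)]

/-- the integral over a rectangle -/
lemma lint_rect (F : ℂ → ℝ) (hF : Continuous F) (hF0 : ∀ z, 0 ≤ F z) {a b c d : ℝ} (hab : a ≤ b)
    (hcd : c ≤ d) :
    ∫⁻ z in (Set.Icc a b ×ℂ Set.Icc c d), ENNReal.ofReal (F z) =
      ENNReal.ofReal (∫ v in c..d, ∫ x in a..b, F ⟨x, v⟩) := by
  have hmp := Complex.volume_preserving_equiv_real_prod.symm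
  have h1 : ∫⁻ z in (Set.Icc a b ×ℂ Set.Icc c d), ENNReal.ofReal (F z) =
      ∫⁻ p in (Set.Icc a b ×ˢ Set.Icc c d), ENNReal.ofReal (F ⟨p.1, p.2⟩) := by
    rw [← hmp.setLIntegral_comp_preimage_emb (MeasurableEquiv.measurableEmbedding _)]
    rfl
  have hFc : Continuous fun p : ℝ × ℝ => F ⟨p.1, p.2⟩ := hF.comp (by
    have : Continuous fun p : ℝ × ℝ => Complex.equivRealProdCLM.symm p := Complex.equivRealProdCLM.symm.continuous
    exact this)
  have hin : Continuous fun v : ℝ => ∫ x in a..b, F ⟨x, v⟩ := by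
    apply intervalIntegral.continuous_parametric_intervalIntegral_of_continuous' (f := fun v x => F ⟨x, v⟩)
    exact hFc.comp continuous_swap
  have hm : Measurable fun p : ℝ × ℝ => ENNReal.ofReal (F ⟨p.1, p.2⟩) :=
    ENNReal.measurable_ofReal.comp hFc.measurable
  rw [h1, Measure.volume_eq_prod, ← Measure.prod_restrict,
    lintegral_prod_symm (fun p : ℝ × ℝ => ENNReal.ofReal (F ⟨p.1, p.2⟩)) hm.aemeasurable]
  have h2 : ∀ v : ℝ, ∫⁻ x in Set.Icc a b, ENNReal.ofReal (F ⟨x, v⟩) = ENNReal.ofReal (∫ x in a..b, F ⟨x, v⟩) :=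
    fun v => lint_Icc (fun x => F ⟨x, v⟩) (hFc.comp (Continuous.prodMk_left v)) (fun x => hF0 _) hab
  simp only [h2]
  exact lint_Icc _ hin (fun v => intervalIntegral.integral_nonneg hab fun x _ => hF0 _) hcd

lemma swap_int (f : ℝ → ℝ → ℝ) (hf : Continuous (Function.uncurry f)) (a b c d : ℝ) :
    ∫ x in a..b, ∫ y in c..d, f x y = ∫ y in c..d, ∫ x in a..b, f x y := by
  apply intervalIntegral_intervalIntegral_swap
  have h1 : IntegrableOn (Function.uncurry f) (Set.uIcc a b ×ˢ Set.uIcc c d) :=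
    hf.continuousOn.integrableOn_compact (isCompact_uIcc.prod isCompact_uIcc)
  exact h1.mono_set (Set.prod_mono Set.uIoc_subset_uIcc Set.uIoc_subset_uIcc)

theorem main : S_SUPM := by
  refine ⟨12 / Real.pi, by positivity, ?_⟩
  intro Φ hΦ δ X1 X2 B hδ0 hδ1 hX hB hint
  set S : Set ℂ := {s : ℂ | 1 / 2 < s.re ∧ s.re < 1} with hS
  -- the continuous modification
  set cl : ℝ → ℝ := fun x => max (δ / 2) (min (3 * δ / 2) x) with hcl
  have hclc : Continuous cl := by
    rw [hcl]; fun_prop
  have hcl1 : ∀ x, δ / 2 ≤ cl x := fun x => le_max_left _ _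
  have hcl2 : ∀ x, cl x ≤ 3 * δ / 2 := fun x => max_le (by linarith) (min_le_left _ _)
  have hcl3 : ∀ x, δ / 2 ≤ x → x ≤ 3 * δ / 2 → cl x = x := by
    intro x h1 h2
    simp only [hcl]
    rw [min_eq_right h2, max_eq_right h1]
  set F : ℂ → ℝ := fun z => ‖Φ ⟨1 / 2 + cl (z.re - 1 / 2), z.im⟩‖ ^ 2 with hF
  have hFc : Continuous F := by
    rw [hF]
    apply Continuous.pow
    apply Continuous.norm
    apply hΦ.continuousOn.comp_continuous
    · have h1 : Continuous fun z : ℂ => Complex.equivRealProdCLM.symm (1 / 2 + cl (z.re - 1 / 2), z.im) := by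
        apply Complex.equivRealProdCLM.symm.continuous.comp
        apply Continuous.prodMk
        · exact continuous_const.add (hclc.comp (Complex.continuous_re.sub continuous_const))
        · exact Complex.continuous_im
      exact h1
    · intro z
      rw [hS]
      constructor
      · change 1 / 2 < 1 / 2 + cl (z.re - 1 / 2)
        linarith [hcl1 (z.re - 1 / 2)]
      · change 1 / 2 + cl (z.re - 1 / 2) < 1
        linarith [hcl2 (z.re - 1 / 2)]
  have hF0 : ∀ z, 0 ≤ F z := fun z => by rw [hF]; positivity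
  have hFe : ∀ z : ℂ, 1 / 2 + δ / 2 ≤ z.re → z.re ≤ 1 / 2 + 3 * δ / 2 → F z = ‖Φ z‖ ^ 2 := by
    intro z h1 h2
    simp only [hF]
    rw [hcl3 _ (by linarith) (by linarith)]
    congr 3
    apply Complex.ext
    · change 1 / 2 + (z.re - 1 / 2) = z.re
      ring
    · rfl
  set G : ℝ → ℝ := fun v => ∫ x in (1 / 2 + δ / 2)..(1 / 2 + 3 * δ / 2), F ⟨x, v⟩ with hG
  have hF2 : Continuous fun p : ℝ × ℝ => F ⟨p.2, p.1⟩ := hFc.comp (by
    have h1 : Continuous fun p : ℝ × ℝ => Complex.equivRealProdCLM.symm (p.2, p.1) :=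
      Complex.equivRealProdCLM.symm.continuous.comp continuous_swap
    exact h1)
  have hGc : Continuous G :=
    intervalIntegral.continuous_parametric_intervalIntegral_of_continuous' (f := fun v x => F ⟨x, v⟩) hF2 _ _
  have hG0 : ∀ v, 0 ≤ G v := fun v => intervalIntegral.integral_nonneg (by linarith) fun x _ => hF0 _
  -- the mean of G
  have hGi : ∫ v in X1..X2, G v ≤ δ * B := by
    rw [hG, swap_int (fun v x => F ⟨x, v⟩) hF2]
    have h1 : ∀ x ∈ Set.Icc (1 / 2 + δ / 2) (1 / 2 + 3 * δ / 2), ∫ v in X1..X2, F ⟨x, v⟩ ≤ B := by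
      intro x hx
      have h2 := hint (x - 1 / 2) (by linarith [hx.1]) (by linarith [hx.2])
      refine le_trans (le_of_eq ?_) h2
      refine intervalIntegral.integral_congr fun v _ => ?_
      change F ⟨x, v⟩ = ‖Φ (1 / 2 + ((x - 1 / 2 : ℝ) : ℂ) + v * Complex.I)‖ ^ 2
      rw [hFe _ hx.1 hx.2]
      congr 3
      apply Complex.ext <;> simp
    have hic : Continuous fun x : ℝ => ∫ v in X1..X2, F ⟨x, v⟩ :=
      intervalIntegral.continuous_parametric_intervalIntegral_of_continuous' (f := fun x v => F ⟨x, v⟩)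
        (hF2.comp continuous_swap) _ _
    calc ∫ x in (1 / 2 + δ / 2)..(1 / 2 + 3 * δ / 2), ∫ v in X1..X2, F ⟨x, v⟩
        ≤ ∫ _x in (1 / 2 + δ / 2)..(1 / 2 + 3 * δ / 2), B :=
          intervalIntegral.integral_mono_on (by linarith) (hic.intervalIntegrable _ _)
            intervalIntegrable_const h1
      _ = δ * B := by rw [intervalIntegral.integral_const, smul_eq_mul]; ring
  have hGs : Continuous fun p : ℝ × ℝ => G (p.1 + p.2) := hGc.comp (continuous_fst.add continuous_snd)
  refine ⟨fun t => 4 / (Real.pi * δ ^ 2) * ∫ s in (-δ)..(2 * δ), G (t + s), ?_, ?_, ?_, ?_⟩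
  · exact continuous_const.mul
      (intervalIntegral.continuous_parametric_intervalIntegral_of_continuous' (f := fun t s => G (t + s)) hGs _ _)
  · intro t
    exact mul_nonneg (by positivity) (intervalIntegral.integral_nonneg (by linarith) fun s _ => hG0 _)
  · rw [intervalIntegral.integral_const_mul, swap_int (fun t s => G (t + s)) hGs]
    have h1 : ∀ s ∈ Set.Icc (-δ) (2 * δ), ∫ t in (X1 + 1)..(X2 - 1), G (t + s) ≤ δ * B := by
      intro s hs
      rw [intervalIntegral.integral_comp_add_right]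
      refine le_trans ?_ hGi
      exact intervalIntegral.integral_mono_interval (by linarith [hs.1]) (by linarith) (by linarith [hs.2])
        (Filter.Eventually.of_forall hG0) (hGc.intervalIntegrable _ _)
    have hic : Continuous fun s : ℝ => ∫ t in (X1 + 1)..(X2 - 1), G (t + s) :=
      intervalIntegral.continuous_parametric_intervalIntegral_of_continuous' (f := fun s t => G (t + s))
        (hGs.comp continuous_swap) _ _
    have h2 : ∫ s in (-δ)..(2 * δ), ∫ t in (X1 + 1)..(X2 - 1), G (t + s) ≤ 3 * δ * (δ * B) := by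
      calc ∫ s in (-δ)..(2 * δ), ∫ t in (X1 + 1)..(X2 - 1), G (t + s)
          ≤ ∫ _s in (-δ)..(2 * δ), δ * B :=
            intervalIntegral.integral_mono_on (by linarith) (hic.intervalIntegrable _ _)
              intervalIntegrable_const h1
        _ = 3 * δ * (δ * B) := by rw [intervalIntegral.integral_const, smul_eq_mul]; ring
    calc 4 / (Real.pi * δ ^ 2) * ∫ s in (-δ)..(2 * δ), ∫ t in (X1 + 1)..(X2 - 1), G (t + s)
        ≤ 4 / (Real.pi * δ ^ 2) * (3 * δ * (δ * B)) := mul_le_mul_of_nonneg_left h2 (by positivity)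
      _ = 12 / Real.pi * B := by field_simp; ring
  · intro t u ht1 ht2 htu hut
    set w : ℂ := 1 / 2 + δ + u * Complex.I with hw
    have hwre : w.re = 1 / 2 + δ := by rw [hw]; simp
    have hwim : w.im = u := by rw [hw]; simp
    have hball : ∀ z ∈ Metric.ball w (δ / 2), |z.re - (1 / 2 + δ)| < δ / 2 ∧ |z.im - u| < δ / 2 := by
      intro z hz
      rw [Metric.mem_ball, dist_eq_norm] at hz
      constructor
      · have := Complex.abs_re_le_norm (z - w)
        rw [Complex.sub_re, hwre] at this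
        linarith
      · have := Complex.abs_im_le_norm (z - w)
        rw [Complex.sub_im, hwim] at this
        linarith
    have hdiff : DifferentiableOn ℂ Φ (Metric.ball w (δ / 2)) := by
      apply hΦ.mono
      intro z hz
      have h1 := (hball z hz).1
      rw [abs_lt] at h1
      constructor <;> linarith
    have hsub := Pool.Agent.H402R2.SubMean.rpow_mul_le_lintegral (g := Φ) (w := w) (ρ := δ / 2) (p := 2)
      (by linarith) (by norm_num) hdiff
    have h3 : ∫⁻ z in Metric.ball w (δ / 2), ‖Φ z‖ₑ ^ (2:ℝ) ≤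
        ENNReal.ofReal (∫ v in (t - δ)..(t + 2 * δ), G v) := by
      calc ∫⁻ z in Metric.ball w (δ / 2), ‖Φ z‖ₑ ^ (2:ℝ)
          = ∫⁻ z in Metric.ball w (δ / 2), ENNReal.ofReal (F z) := by
            refine setLIntegral_congr_fun measurableSet_ball fun z hz => ?_
            have h1 := (hball z hz).1
            rw [abs_lt] at h1
            change ‖Φ z‖ₑ ^ (2:ℝ) = ENNReal.ofReal (F z)
            rw [hFe z (by linarith) (by linarith), ENNReal.rpow_ofNat, ← ofReal_norm,
              ENNReal.ofReal_pow (norm_nonneg _)]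
        _ ≤ ∫⁻ z in (Set.Icc (1 / 2 + δ / 2) (1 / 2 + 3 * δ / 2) ×ℂ Set.Icc (t - δ) (t + 2 * δ)),
              ENNReal.ofReal (F z) := by
            refine lintegral_mono_set fun z hz => ?_
            obtain ⟨h1, h2⟩ := hball z hz
            rw [abs_lt] at h1 h2
            rw [Complex.mem_reProdIm]
            exact ⟨⟨by linarith, by linarith⟩, ⟨by linarith, by linarith⟩⟩
        _ = ENNReal.ofReal (∫ v in (t - δ)..(t + 2 * δ), G v) :=
            lint_rect F hFc hF0 (by linarith) (by linarith)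
    have h4 := hsub.trans h3
    have hI0 : 0 ≤ ∫ v in (t - δ)..(t + 2 * δ), G v :=
      intervalIntegral.integral_nonneg (by linarith) fun v _ => hG0 v
    rw [ENNReal.ofReal_le_ofReal_iff hI0, Real.rpow_two] at h4
    have h5 : ∫ s in (-δ)..(2 * δ), G (t + s) = ∫ v in (t - δ)..(t + 2 * δ), G v := by
      rw [intervalIntegral.integral_comp_add_left]
      congr 1
    change ‖Φ w‖ ^ 2 ≤ 4 / (Real.pi * δ ^ 2) * ∫ s in (-δ)..(2 * δ), G (t + s)
    rw [h5, div_mul_eq_mul_div, le_div_iff₀ (by positivity)]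
    nlinarith

end Pool.Agent.N748.HM.SUPM
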