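import Pool.Agent.N748.HM.Stm

set_option autoImplicit false

/-!
# All moments near the critical line: the error of the mollified zeta function
-/

namespace Pool.Agent.N748.HM.ZM3

open Finset Filter MeasureTheory MonoidAlgebra Topology Complex
open Pool.Agent.N748.GC
open Pool.Agent.Y755

/-! ### coefficients and length of the polynomial -/

lemma coeff_inj {ι : Type*} (F : Finset ι) (m : ι → ℕ) (c : ι → ℝ) (hc : ∀ i ∈ F, |c i| ≤ 1)
    (hinj : ∀ i ∈ F, ∀ j ∈ F, m i = m j → i = j) (n : ℕ) :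
    |(∑ i ∈ F, (single (m i) (c i) : P1)).coeff n| ≤ 1 := by
  classical
  rw [MonoidAlgebra.coeff_sum, Finsupp.finsetSum_apply]
  simp only [MonoidAlgebra.coeff_single, Finsupp.single_apply]
  by_cases h : ∃ i ∈ F, m i = n
  · obtain ⟨i, hi, hin⟩ := h
    rw [Finset.sum_eq_single_of_mem i hi]
    · rw [if_pos hin]; exact hc i hi
    · intro j hj hji
      rw [if_neg]
      intro hjn
      exact hji (hinj j hj i hi (hjn.trans hin.symm))
  · rw [Finset.sum_eq_zero]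
    · simp
    · intro i hi
      rw [if_neg]
      intro hin
      exact h ⟨i, hi, hin⟩

lemma prod_single (S : Finset ℕ) :
    ∏ p ∈ S, (single p (-1 : ℝ) : P1) = single (∏ p ∈ S, p) ((-1 : ℝ) ^ S.card) := by
  classical
  induction S using Finset.induction_on with
  | empty => simp [MonoidAlgebra.one_def]
  | insert p S hp ih =>
    rw [prod_insert hp, ih, single_mul_single, prod_insert hp, card_insert_of_notMem hp, pow_succ']

lemma Pz_sum (z : ℕ) :
    Pz z = ∑ S ∈ (S0 z).powerset, (single (∏ p ∈ S, p) ((-1 : ℝ) ^ S.card) : P1) := by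
  classical
  unfold Pz
  have h1 : ∀ p ∈ S0 z, (1 - single p 1 : P1) = (single p (-1 : ℝ) : P1) + 1 := by
    intro p _
    refine P1_ext fun n => ?_
    simp only [coeff_sub, coeff_add, coeff_single, Finsupp.sub_apply, Finsupp.add_apply, Finsupp.single_apply]
    split_ifs <;> ring
  rw [Finset.prod_congr rfl h1, Finset.prod_add]
  refine sum_congr rfl fun S _ => ?_
  rw [Finset.prod_const_one, mul_one, prod_single]

lemma S0_prime {z p : ℕ} (h : p ∈ S0 z) : p.Prime ∧ p < z := by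
  unfold S0 at h
  rw [mem_filter, mem_range] at h
  exact ⟨h.2, h.1⟩

lemma PP_prime {z p : ℕ} {y : ℝ} (h : p ∈ PP z y) : p.Prime ∧ z ≤ p ∧ p ≤ ⌊y⌋₊ := by
  unfold PP at h
  rw [mem_filter, mem_Icc] at h
  exact ⟨h.2, h.1.1, h.1.2⟩

lemma coeff_le (z : ℕ) (y : ℝ) (K n : ℕ) : |(Pz z * MBr z y K).coeff n| ≤ 1 := by
  classical
  have h1 : Pz z * MBr z y K = ∑ q ∈ (S0 z).powerset ×ˢ (((PP z y).powerset).filter (fun S => S.card ≤ K)),
      (single ((∏ p ∈ q.1, p) * ∏ p ∈ q.2, p) ((-1 : ℝ) ^ q.1.card * (-1 : ℝ) ^ q.2.card) : P1) := by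
    rw [Pz_sum]
    unfold MBr
    rw [sum_mul_sum, sum_product]
    refine sum_congr rfl fun S _ => sum_congr rfl fun S' _ => ?_
    rw [single_mul_single]
  rw [h1]
  refine coeff_inj _ _ _ ?_ ?_ n
  · intro q _
    rw [← pow_add, abs_pow, abs_neg, abs_one, one_pow]
  · rintro ⟨A, A'⟩ hA ⟨B, B'⟩ hB hAB
    rw [mem_product, mem_powerset, mem_filter, mem_powerset] at hA hB
    have pA : ∀ p ∈ A, p.Prime := fun p hp => (S0_prime (hA.1 hp)).1
    have pA' : ∀ p ∈ A', p.Prime := fun p hp => (PP_prime (hA.2.1 hp)).1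
    have pB : ∀ p ∈ B, p.Prime := fun p hp => (S0_prime (hB.1 hp)).1
    have pB' : ∀ p ∈ B', p.Prime := fun p hp => (PP_prime (hB.2.1 hp)).1
    have key : ∀ (S S' : Finset ℕ), (∀ p ∈ S, p.Prime) → (∀ p ∈ S', p.Prime) →
        ((∏ p ∈ S, p) * ∏ p ∈ S', p).primeFactors = S ∪ S' := by
      intro S S' h h'
      rw [Nat.primeFactors_mul (Finset.prod_ne_zero_iff.mpr fun p hp => (h p hp).ne_zero)
        (Finset.prod_ne_zero_iff.mpr fun p hp => (h' p hp).ne_zero), Nat.primeFactors_prod h,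
        Nat.primeFactors_prod h']
    have hAB' : ((∏ p ∈ A, p) * ∏ p ∈ A', p) = ((∏ p ∈ B, p) * ∏ p ∈ B', p) := hAB
    have hU : A ∪ A' = B ∪ B' := by rw [← key A A' pA pA', ← key B B' pB pB', hAB']
    have m1 : ∀ p, p ∈ A ↔ p ∈ A ∪ A' ∧ p < z := by
      intro p
      rw [mem_union]
      constructor
      · intro h; exact ⟨Or.inl h, (S0_prime (hA.1 h)).2⟩
      · rintro ⟨h | h, h2⟩
        · exact h
        · exact absurd (PP_prime (hA.2.1 h)).2.1 (by omega)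
    have m2 : ∀ p, p ∈ B ↔ p ∈ B ∪ B' ∧ p < z := by
      intro p
      rw [mem_union]
      constructor
      · intro h; exact ⟨Or.inl h, (S0_prime (hB.1 h)).2⟩
      · rintro ⟨h | h, h2⟩
        · exact h
        · exact absurd (PP_prime (hB.2.1 h)).2.1 (by omega)
    have m3 : ∀ p, p ∈ A' ↔ p ∈ A ∪ A' ∧ z ≤ p := by
      intro p
      rw [mem_union]
      constructor
      · intro h; exact ⟨Or.inr h, (PP_prime (hA.2.1 h)).2.1⟩
      · rintro ⟨h | h, h2⟩
        · exact absurd (S0_prime (hA.1 h)).2 (by omega)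
        · exact h
    have m4 : ∀ p, p ∈ B' ↔ p ∈ B ∪ B' ∧ z ≤ p := by
      intro p
      rw [mem_union]
      constructor
      · intro h; exact ⟨Or.inr h, (PP_prime (hB.2.1 h)).2.1⟩
      · rintro ⟨h | h, h2⟩
        · exact absurd (S0_prime (hB.1 h)).2 (by omega)
        · exact h
    refine Prod.ext ?_ ?_
    · ext p
      rw [m1, m2, hU]
    · ext p
      rw [m3, m4, hU]

lemma MBr_Bd (z : ℕ) {y : ℝ} (hy : 1 ≤ y) (K : ℕ) : Bd1 (y ^ K) (MBr z y K) := by
  unfold MBr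
  refine Bd1.sum fun S hS => ?_
  rw [mem_filter, mem_powerset] at hS
  refine Bd1.single ⟨?_, ?_⟩ _
  · exact Finset.prod_ne_zero_iff.mpr fun p hp => (PP_prime (hS.1 hp)).1.ne_zero
  · push_cast
    calc ∏ p ∈ S, (p:ℝ) ≤ ∏ _p ∈ S, y := by
          refine Finset.prod_le_prod (fun _ _ => Nat.cast_nonneg _) fun p hp => ?_
          have h1 : (p:ℝ) ≤ (⌊y⌋₊ : ℝ) := by exact_mod_cast (PP_prime (hS.1 hp)).2.2
          exact h1.trans (Nat.floor_le (by linarith))
      _ = y ^ S.card := by rw [prod_const]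
      _ ≤ y ^ K := pow_le_pow_right₀ hy hS.2

lemma l1_of {f : P1} {M : ℝ} (hM : 0 ≤ M) (hf : Bd1 M f) (hc : ∀ n, |f.coeff n| ≤ 1) : l1' f ≤ M := by
  have hsub : f.coeff.support ⊆ Icc 1 ⌊M⌋₊ := by
    intro n hn
    rw [mem_Icc]
    exact ⟨Nat.pos_of_ne_zero (hf n hn).1, Nat.le_floor (hf n hn).2⟩
  unfold l1'
  calc ∑ x ∈ f.coeff.support, |f.coeff x| ≤ ∑ _x ∈ f.coeff.support, (1:ℝ) := sum_le_sum fun x _ => hc x
    _ = f.coeff.support.card := by rw [sum_const, nsmul_eq_mul, mul_one]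
    _ ≤ (Icc 1 ⌊M⌋₊).card := by exact_mod_cast card_le_card hsub
    _ = ⌊M⌋₊ := by rw [Nat.card_Icc, Nat.add_sub_cancel]
    _ ≤ M := Nat.floor_le hM

/-! ### the comparison of the orders of magnitude -/

lemma asym (C : ℕ) (D : ℝ) (hD : 0 < D) : ∃ lam : ℝ, ∀ᶠ X : ℝ in atTop, ∀ δ : ℝ, 0 < δ →
    δ ≤ 1 / 24 → lam * Real.log (1 / δ) ≤ δ * Real.log X →
    4096 * X ^ (-(δ / 8)) * Real.log (4 * X) ^ C ≤ δ ^ D ∧ 8 * X ^ (-(1 / 2 : ℝ)) ≤ δ ^ D ∧
      2 ≤ δ * Real.log X := by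
  refine ⟨16 * D + 32 * ((C:ℝ) + 1) + 2, ?_⟩
  have hLL : Tendsto (fun X : ℝ => Real.log (Real.log X)) atTop atTop :=
    Real.tendsto_log_atTop.comp Real.tendsto_log_atTop
  filter_upwards [eventually_ge_atTop 4, hLL.eventually_ge_atTop (128 * ((C:ℝ) + 1) + 10)] with
    X hX4 hLL' δ hδ0 hδ1 hlam
  have hC0 : (0:ℝ) ≤ C := Nat.cast_nonneg C
  have hX0 : 0 < X := by linarith
  have hL0 : 0 < Real.log X := Real.log_pos (by linarith)
  obtain ⟨L, hL⟩ : ∃ L, L = Real.log X := ⟨_, rfl⟩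
  rw [← hL] at hLL' hlam hL0 ⊢
  obtain ⟨W, hW⟩ : ∃ W, W = Real.log L := ⟨_, rfl⟩
  rw [← hW] at hLL'
  have hLexp : L = Real.exp W := by rw [hW, Real.exp_log hL0]
  have hLge : W ≤ L := by
    have := Real.add_one_le_exp W
    rw [← hLexp] at this
    linarith
  obtain ⟨l, hl⟩ : ∃ l, l = Real.log (1 / δ) := ⟨_, rfl⟩
  rw [← hl] at hlam
  have h24 : (24:ℝ) ≤ 1 / δ := by rw [le_div_iff₀ hδ0]; linarith
  have hl1 : 1 ≤ l := by
    rw [hl, Real.le_log_iff_exp_le (by positivity)]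
    linarith [Real.exp_one_lt_d9]
  have hW0 : 0 ≤ W := by nlinarith
  have hmain : 16 * ((C:ℝ) + 1) * W ≤ δ * L := by
    by_cases hc : W / 2 ≤ l
    · have h1 : 32 * ((C:ℝ) + 1) * l ≤ (16 * D + 32 * ((C:ℝ) + 1) + 2) * l := by
        apply mul_le_mul_of_nonneg_right _ (by linarith)
        linarith
      have h2 : 32 * ((C:ℝ) + 1) * (W / 2) ≤ 32 * ((C:ℝ) + 1) * l :=
        mul_le_mul_of_nonneg_left hc (by positivity)
      linarith
    · push Not at hc
      have h1 : 1 / δ < Real.exp (W / 2) := by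
        rw [hl] at hc
        exact (Real.log_lt_iff_lt_exp (by positivity)).mp hc
      have h2 : 1 < δ * Real.exp (W / 2) := by
        rw [div_lt_iff₀ hδ0] at h1
        linarith
      have h3 : L = Real.exp (W / 2) * Real.exp (W / 2) := by
        rw [← Real.exp_add, hLexp]; congr 1; ring
      have h4 := Real.quadratic_le_exp_of_nonneg (show 0 ≤ W / 2 by linarith)
      have h5 : 16 * ((C:ℝ) + 1) * W ≤ Real.exp (W / 2) := by nlinarith
      have h6 : Real.exp (W / 2) ≤ δ * L := by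
        rw [h3]
        have := Real.exp_pos (W / 2)
        nlinarith
      linarith
  have hDl : D * l ≤ δ * L / 16 := by nlinarith
  have hδD : δ ^ D = Real.exp (-(D * l)) := by
    rw [Real.rpow_def_of_pos hδ0, hl, one_div, Real.log_inv]
    congr 1; ring
  refine ⟨?_, ?_, ?_⟩
  · have hlog4 : Real.log (4 * X) ≤ 2 * L := by
      have h1 : 4 * X ≤ X ^ 2 := by nlinarith
      have h2 := Real.log_le_log (by positivity) h1
      rw [Real.log_pow, ← hL] at h2
      push_cast at h2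
      exact h2
    have hlog4p : 0 < Real.log (4 * X) := Real.log_pos (by linarith)
    have hll : Real.log (Real.log (4 * X)) ≤ 1 + W := by
      have h2 := Real.log_le_log hlog4p hlog4
      rw [Real.log_mul (by norm_num) hL0.ne', ← hW] at h2
      linarith [Real.log_two_lt_d9]
    have h4096 : Real.log 4096 ≤ 9 := by
      have : (4096:ℝ) = 2 ^ 12 := by norm_num
      rw [this, Real.log_pow]
      push_cast
      linarith [Real.log_two_lt_d9]
    rw [hδD]
    have e1 : 4096 * X ^ (-(δ / 8)) * Real.log (4 * X) ^ C =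
        Real.exp (Real.log 4096 + L * (-(δ / 8)) + C * Real.log (Real.log (4 * X))) := by
      rw [Real.exp_add, Real.exp_add, Real.exp_log (by norm_num), Real.rpow_def_of_pos hX0, ← hL,
        Real.exp_nat_mul, Real.exp_log hlog4p]
    rw [e1]
    apply Real.exp_le_exp.mpr
    have h5 : (C:ℝ) * Real.log (Real.log (4 * X)) ≤ C * (1 + W) := mul_le_mul_of_nonneg_left hll hC0
    nlinarith
  · rw [hδD, Real.rpow_def_of_pos hX0, ← hL]
    have h8 : (8:ℝ) = Real.exp (Real.log 8) := (Real.exp_log (by norm_num)).symm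
    have h8' : Real.log 8 ≤ 3 := by
      have : (8:ℝ) = 2 ^ 3 := by norm_num
      rw [this, Real.log_pow]
      push_cast
      linarith [Real.log_two_lt_d9]
    rw [h8, ← Real.exp_add]
    apply Real.exp_le_exp.mpr
    nlinarith
  · nlinarith

/-! ### the error on a line -/

lemma cx_MBr (z : ℕ) (y : ℝ) (K : ℕ) : cx (MBr z y K) = MB z y K := by
  unfold MBr MB
  rw [map_sum]
  refine sum_congr rfl fun S _ => ?_
  rw [cx_single]
  push_cast
  rfl

lemma Ez_qd (z : ℕ) (y : ℝ) (K : ℕ) (δ' t : ℝ) :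
    ‖Ez z y K (1 / 2 + δ' + t * I)‖ ^ 2 =
      qd (fun s => es s (Pz z * MBr z y K)) (fun _ => 1) (1 / 2 + δ') t := by
  unfold qd Ez
  have e0 : (((1 / 2 + δ' : ℝ) : ℂ) + t * Complex.I) = 1 / 2 + δ' + t * I := by push_cast; ring
  rw [e0]
  have e1 : es (1 / 2 + δ' + t * I) (Pz z) = ∏ p ∈ Sm z, (1 - (p:ℂ) ^ (-(1 / 2 + δ' + t * I : ℂ))) := by
    unfold Pz
    rw [map_prod]
    refine prod_congr rfl fun p _ => ?_
    rw [map_sub, map_one, es_single]
    simp
  beta_reduce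
  rw [map_mul, e1, ← ec_cx _ (MBr z y K), cx_MBr, mul_assoc]

lemma floor_rpow {x a : ℝ} (hx : 2 ≤ x) (ha : 0 ≤ a) (ha1 : a ≤ 1) : (⌊x⌋₊ : ℝ) ^ (-a) ≤ 2 * x ^ (-a) := by
  have h1 : x / 2 ≤ (⌊x⌋₊ : ℝ) := by
    have := Nat.lt_floor_add_one x
    linarith
  have h2 : (⌊x⌋₊ : ℝ) ^ (-a) ≤ (x / 2) ^ (-a) :=
    Real.rpow_le_rpow_of_nonpos (by positivity) h1 (by linarith)
  refine h2.trans ?_
  rw [Real.div_rpow (by linarith) (by norm_num), div_eq_mul_inv, ← Real.rpow_neg (by norm_num), neg_neg, mul_comm]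
  apply mul_le_mul_of_nonneg_right _ (by positivity)
  calc (2:ℝ) ^ a ≤ 2 ^ (1:ℝ) := Real.rpow_le_rpow_of_exponent_le (by norm_num) ha1
    _ = 2 := Real.rpow_one 2

theorem main (h1 : S_ZM1) (h2 : S_ZM2) : S_ZM := by
  intro D hD
  obtain ⟨a, b, ha, hb, h2⟩ := h2 (D + 2) (by linarith)
  obtain ⟨C, h1⟩ := h1
  obtain ⟨lam, hlam⟩ := asym C D hD
  refine ⟨a, b, ha, hb, fun z hz => ?_⟩
  obtain ⟨δ1, hδ1, h2⟩ := h2 z hz
  refine ⟨lam, min δ1 (1 / 24), lt_min hδ1 (by norm_num), (min_le_right _ _).trans (by norm_num), ?_⟩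
  have h4 : Tendsto (fun X : ℝ => 4 * X) atTop atTop := tendsto_id.const_mul_atTop (by norm_num)
  filter_upwards [hlam, h4.eventually h1, h4.eventually windows_ev, eventually_ge_atTop (10 ^ 10),
    h4.eventually (rpow_ev (p := 1 / 4 + 1 / 25) (q := 1) (by norm_num) 60000),
    h4.eventually (rpow_ev (p := 3 / 8 + 1 / 25) (q := 1 / 2) (by norm_num) 16),
    rpow_ev (p := 4 / 5) (q := 9 / 10) (by norm_num) (4 ^ ((4:ℝ) / 5)),
    rpow_ev (p := 1 / 100) (q := 1 / 50) (by norm_num) ((z:ℝ) ^ (S0 z).card),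
    (tendsto_rpow_atTop (y := 1 / 8) (by norm_num)).comp h4 |>.eventually_ge_atTop 2] with
    X g1 g2 g3 g4 g5 g6 g7 g8 g9 δ hδ0 hδ hl y K hzy hay hbK hKy δ' hδ'1 hδ'2
  simp only [Function.comp_apply] at g9
  obtain ⟨T, hT⟩ : ∃ T, T = 4 * X := ⟨_, rfl⟩
  rw [← hT] at g2 g3 g5 g6 g9
  have hX0 : 0 < X := by linarith
  have hX1 : 1 ≤ X := by linarith
  have hT0 : 0 < T := by linarith
  have hT1 : 1 ≤ T := by linarith
  have hδ24 : δ ≤ 1 / 24 := hδ.trans (min_le_right _ _)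
  obtain ⟨k1, k2, k3⟩ := g1 δ hδ0 hδ24 hl
  rw [← hT] at k1
  obtain ⟨w1, w2, w3⟩ := g3
  have hz2 : (2:ℝ) ≤ z := by exact_mod_cast hz
  have hy1 : 1 ≤ y := by linarith
  set f : P1 := Pz z * MBr z y K with hf
  set N := NT T with hN
  have hNdef : N = ⌊T ^ ((1:ℝ) / 8)⌋₊ := rfl
  have hN1 : 1 ≤ N := by
    rw [hNdef]
    exact Nat.le_floor (by push_cast; linarith)
  have hN1r : (1:ℝ) ≤ N := by exact_mod_cast hN1
  have hN8 : (N:ℝ) ≤ T ^ ((1:ℝ) / 8) := NT_le hT0.le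
  -- length and coefficients
  have hcoef : ∀ n, |f.coeff n| ≤ 1 := coeff_le z y K
  have hyK : y ^ K ≤ X ^ ((1:ℝ) / 100) := by
    rw [Real.rpow_def_of_pos hX0, ← Real.exp_log (show 0 < y by linarith), ← Real.exp_nat_mul]
    apply Real.exp_le_exp.mpr
    linarith
  have hfB : Bd1 (T ^ ((1:ℝ) / 50)) f := by
    refine ((Pz_Bd z).mul (MBr_Bd z hy1 K)).mono ?_
    calc (z:ℝ) ^ (S0 z).card * y ^ K ≤ (z:ℝ) ^ (S0 z).card * X ^ ((1:ℝ) / 100) := by gcongr
      _ ≤ X ^ ((1:ℝ) / 50) := g8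
      _ ≤ T ^ ((1:ℝ) / 50) := Real.rpow_le_rpow hX0.le (by linarith) (by norm_num)
  have hl1 : l1' f ≤ T ^ ((1:ℝ) / 50) := l1_of (by positivity) hfB hcoef
  have hl0 := l1'_nonneg f
  have hl2 : l1' f ^ 2 ≤ T ^ ((1:ℝ) / 25) := by
    refine (pow_le_pow_left₀ hl0 hl1 2).trans (le_of_eq ?_)
    rw [← Real.rpow_natCast, ← Real.rpow_mul hT0.le]
    norm_num
  -- the mean square on the critical line
  have hline := g2 f hfB hcoef N hN8
  have hδ'0 : 0 < δ' := by linarith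
  have hδ'16 : δ' ≤ 1 / 16 := by linarith
  have hlogT : Real.log X ≤ Real.log T := Real.log_le_log hX0 (by linarith)
  have hlogX0 : 0 < Real.log X := Real.log_pos (by linarith)
  have hL : 1 / Real.log T ≤ δ' := by
    rw [div_le_iff₀ (by linarith)]
    nlinarith
  have hoff := hp_one hN1 hfB (by linarith) hL hδ'16 w1 w2 w3
  have g5' : 30000 * ((1 + (N:ℝ) ^ 2) * l1' f ^ 2) / T ≤ 1 := by
    have q1 : (1 + (N:ℝ) ^ 2) ≤ 2 * T ^ ((1:ℝ) / 4) := by
      have q2 := NT_pow hT1 2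
      rw [← hN] at q2
      have q3 : T ^ (((2:ℕ):ℝ) / 8) = T ^ ((1:ℝ) / 4) := by congr 1; norm_num
      rw [q3] at q2
      have q4 : 1 ≤ T ^ ((1:ℝ) / 4) := Real.one_le_rpow hT1 (by norm_num)
      linarith
    rw [div_le_one hT0]
    rw [Real.rpow_one] at g5
    calc _ ≤ 30000 * ((2 * T ^ ((1:ℝ) / 4)) * T ^ ((1:ℝ) / 25)) := by gcongr
      _ = 60000 * T ^ ((1:ℝ) / 4 + 1 / 25) := by rw [Real.rpow_add hT0]; ring
      _ ≤ T := g5
  have hlogT1 : 1 ≤ Real.log T := by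
    have : Real.exp 1 ≤ T := by linarith [Real.exp_one_lt_d9]
    rwa [Real.le_log_iff_exp_le hT0]
  have hlogC : 1 ≤ Real.log T ^ C := one_le_pow₀ hlogT1
  have hNδ : (N:ℝ) ^ (-(2 * δ')) ≤ 2 * X ^ (-(δ / 8)) := by
    rw [hNdef]
    refine (floor_rpow g9 (by linarith) (by linarith)).trans ?_
    apply mul_le_mul_of_nonneg_left _ (by norm_num)
    rw [← Real.rpow_mul hT0.le]
    have e1 : T ^ ((1:ℝ) / 8 * -(2 * δ')) ≤ X ^ ((1:ℝ) / 8 * -(2 * δ')) :=
      Real.rpow_le_rpow_of_nonpos hX0 (by linarith) (by nlinarith)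
    refine e1.trans (Real.rpow_le_rpow_of_exponent_le hX1 ?_)
    linarith
  have hDB : Bd1 N (Dt N f) := Dt_Bd hfB
  have hqc : Continuous fun t : ℝ => qd (fun s => es s f) (fun s => es s (Dt N f)) (1 / 2 + δ') t :=
    qd_cont (es_diff hfB) (es_diff hDB) (by linarith)
  have hI1 : ∫ t in (X ^ ((9:ℝ) / 10))..(2 * X), qd (fun s => es s f) (fun s => es s (Dt N f)) (1 / 2 + δ') t ≤
      X * δ ^ D / 8 := by
    have s1 : T ^ ((4:ℝ) / 5) ≤ X ^ ((9:ℝ) / 10) := by
      rw [hT, Real.mul_rpow (by norm_num) hX0.le]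
      exact g7
    have s2 : X ^ ((9:ℝ) / 10) ≤ 2 * X := by
      have : X ^ ((9:ℝ) / 10) ≤ X ^ (1:ℝ) := Real.rpow_le_rpow_of_exponent_le hX1 (by norm_num)
      rw [Real.rpow_one] at this
      linarith
    have s3 : 2 * X ≤ T / 2 := by linarith
    have s4 := intervalIntegral.integral_mono_interval (μ := volume) s1 s2 s3
      (Filter.Eventually.of_forall fun t => qd_nonneg (fun s => es s f) (fun s => es s (Dt N f)) (1 / 2 + δ') t)
      (hqc.intervalIntegrable _ _)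
    refine s4.trans (hoff.trans ?_)
    have s5 : 0 ≤ X ^ (-(δ / 8)) := by positivity
    calc _ ≤ 32 * (2 * X ^ (-(δ / 8))) * (T * Real.log T ^ C + 1) := by
          apply mul_le_mul
          · exact mul_le_mul_of_nonneg_left hNδ (by norm_num)
          · exact add_le_add hline g5'
          · apply add_nonneg
            · exact intervalIntegral.integral_nonneg (by linarith [Real.rpow_nonneg hT0.le ((1:ℝ) / 4)])
                fun x _ => qd_nonneg _ _ _ _
            · positivity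
          · positivity
      _ ≤ 32 * (2 * X ^ (-(δ / 8))) * (2 * (T * Real.log T ^ C)) := by
          apply mul_le_mul_of_nonneg_left _ (by positivity)
          have : 1 ≤ T * Real.log T ^ C := by
            calc (1:ℝ) = 1 * 1 := by norm_num
              _ ≤ T * Real.log T ^ C := mul_le_mul hT1 hlogC (by norm_num) hT0.le
          linarith
      _ = X * (4096 * X ^ (-(δ / 8)) * Real.log T ^ C) / 8 := by rw [hT]; ring
      _ ≤ X * δ ^ D / 8 := by
          apply div_le_div_of_nonneg_right _ (by norm_num)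
          exact mul_le_mul_of_nonneg_left k1 hX0.le
  -- the mean value theorem
  set g : P1 := Dt N f - 1 with hg
  have hgB : Bd1 N g := hDB.sub (Bd1.one.mono hN1r)
  have hgl : l1' g ≤ 2 * (N * T ^ ((1:ℝ) / 50)) := by
    have t1 : l1' g ≤ l1' (Dt N f) + 1 := by
      have e1 : g = Dt N f + (-1 : ℝ) • 1 := by rw [hg, neg_one_smul]; abel
      rw [e1]
      refine (l1'_add _ _).trans ?_
      have := l1'_smul (-1) (1 : P1)
      rw [l1'_one, abs_neg, abs_one, mul_one] at this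
      exact add_le_add le_rfl this
    have t2 : l1' (Dt N f) ≤ N * T ^ ((1:ℝ) / 50) := (Dt_l1 N f).trans (mul_le_mul_of_nonneg_left hl1 (by positivity))
    have t3 : 1 ≤ N * T ^ ((1:ℝ) / 50) := by
      calc (1:ℝ) = 1 * 1 := by norm_num
        _ ≤ N * T ^ ((1:ℝ) / 50) := mul_le_mul hN1r (Real.one_le_rpow hT1 (by norm_num)) (by norm_num) (by positivity)
    linarith
  have hgc : Continuous fun t : ℝ => ‖es (1 / 2 + δ' + t * Complex.I) g‖ ^ 2 := es_cont0 δ' hgB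
  have hI2 : ∫ t in (X ^ ((9:ℝ) / 10))..(2 * X), ‖es (1 / 2 + δ' + t * Complex.I) g‖ ^ 2 ≤
      2 * X * δ ^ (D + 2) + X * δ ^ D / 8 := by
    have s0 : 0 ≤ X ^ ((9:ℝ) / 10) := by positivity
    have s2 : X ^ ((9:ℝ) / 10) ≤ 2 * X := by
      have : X ^ ((9:ℝ) / 10) ≤ X ^ (1:ℝ) := Real.rpow_le_rpow_of_exponent_le hX1 (by norm_num)
      rw [Real.rpow_one] at this
      linarith
    have s4 := intervalIntegral.integral_mono_interval (μ := volume) s0 s2 le_rfl
      (Filter.Eventually.of_forall fun t : ℝ => (by positivity : 0 ≤ ‖es (1 / 2 + δ' + t * Complex.I) g‖ ^ 2))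
      (hgc.intervalIntegrable _ _)
    refine s4.trans ?_
    have s5 := (abs_le.mp (mvt hδ'0.le hgB (2 * X))).2
    have s6 : ip δ' g g ≤ δ ^ (D + 2) := by
      have := h2 δ hδ0 (hδ.trans (min_le_left _ _)) y K hzy hay hbK δ' hδ'1 N hN1
      rw [← nn_cx, hg, map_sub, map_one]
      exact this
    have s7 : 2 * (N:ℝ) * l1' g ^ 2 ≤ X * δ ^ D / 8 := by
      have r1 : l1' g ^ 2 ≤ (2 * (N * T ^ ((1:ℝ) / 50))) ^ 2 := pow_le_pow_left₀ (l1'_nonneg g) hgl 2
      have r2 := NT_pow hT1 3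
      rw [← hN] at r2
      have r3 : T ^ (((3:ℕ):ℝ) / 8) = T ^ ((3:ℝ) / 8) := by congr 1
      rw [r3] at r2
      have r4 : (T ^ ((1:ℝ) / 50)) ^ 2 = T ^ ((1:ℝ) / 25) := by
        rw [← Real.rpow_natCast, ← Real.rpow_mul hT0.le]; norm_num
      have r5 : T ^ ((1:ℝ) / 2) = 2 * X ^ ((1:ℝ) / 2) := by
        rw [hT, Real.mul_rpow (by norm_num) hX0.le]
        congr 1
        rw [show (4:ℝ) = 2 ^ (2:ℝ) by norm_num, ← Real.rpow_mul (by norm_num)]
        norm_num
      have r6 : X * X ^ (-(1 / 2 : ℝ)) = X ^ ((1:ℝ) / 2) := by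
        nth_rewrite 1 [← Real.rpow_one X]
        rw [← Real.rpow_add hX0]
        norm_num
      calc 2 * (N:ℝ) * l1' g ^ 2 ≤ 2 * (N:ℝ) * (2 * (N * T ^ ((1:ℝ) / 50))) ^ 2 := by gcongr
        _ = 8 * ((N:ℝ) ^ 3 * T ^ ((1:ℝ) / 25)) := by rw [← r4]; ring
        _ ≤ 8 * (T ^ ((3:ℝ) / 8) * T ^ ((1:ℝ) / 25)) := by gcongr
        _ = (16 * T ^ ((3:ℝ) / 8 + 1 / 25)) / 2 := by rw [Real.rpow_add hT0]; ring
        _ ≤ T ^ ((1:ℝ) / 2) / 2 := by linarith
        _ = X ^ ((1:ℝ) / 2) := by rw [r5]; ring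
        _ = X * (8 * X ^ (-(1 / 2 : ℝ))) / 8 := by rw [← r6]; ring
        _ ≤ X * δ ^ D / 8 := by
            apply div_le_div_of_nonneg_right _ (by norm_num)
            exact mul_le_mul_of_nonneg_left k2 hX0.le
    have s8 : 2 * X * ip δ' g g ≤ 2 * X * δ ^ (D + 2) := mul_le_mul_of_nonneg_left s6 (by positivity)
    linarith
  -- conclusion
  have hFc : Continuous fun t : ℝ => qd (fun s => es s f) (fun _ => (1:ℂ)) (1 / 2 + δ') t :=
    qd_cont (es_diff hfB) (differentiable_const _) (by linarith)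
  have s2 : X ^ ((9:ℝ) / 10) ≤ 2 * X := by
    have : X ^ ((9:ℝ) / 10) ≤ X ^ (1:ℝ) := Real.rpow_le_rpow_of_exponent_le hX1 (by norm_num)
    rw [Real.rpow_one] at this
    linarith
  calc ∫ t in (X ^ ((9:ℝ) / 10))..(2 * X), ‖Ez z y K (1 / 2 + δ' + t * I)‖ ^ 2
      = ∫ t in (X ^ ((9:ℝ) / 10))..(2 * X), qd (fun s => es s f) (fun _ => (1:ℂ)) (1 / 2 + δ') t := by
        refine intervalIntegral.integral_congr fun t _ => ?_
        exact Ez_qd z y K δ' t
    _ ≤ ∫ t in (X ^ ((9:ℝ) / 10))..(2 * X), (2 * qd (fun s => es s f) (fun s => es s (Dt N f)) (1 / 2 + δ') t +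
          2 * ‖es (1 / 2 + δ' + t * Complex.I) g‖ ^ 2) := by
        refine intervalIntegral.integral_mono_on s2 (hFc.intervalIntegrable _ _)
          (((continuous_const.mul hqc).add (continuous_const.mul hgc)).intervalIntegrable _ _) fun t _ => ?_
        unfold qd
        have e0 : (((1 / 2 + δ' : ℝ) : ℂ) + t * Complex.I) = 1 / 2 + δ' + t * I := by push_cast; ring
        rw [e0]
        have e1 : es (1 / 2 + δ' + t * I) g = es (1 / 2 + δ' + t * I) (Dt N f) - 1 := by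
          rw [hg, map_sub, map_one]
        rw [e1]
        have e2 := norm_add_le (riemannZeta (1 / 2 + δ' + t * I) * es (1 / 2 + δ' + t * I) f -
          es (1 / 2 + δ' + t * I) (Dt N f)) (es (1 / 2 + δ' + t * I) (Dt N f) - 1)
        rw [sub_add_sub_cancel] at e2
        have e3 := pow_le_pow_left₀ (norm_nonneg _) e2 2
        nlinarith [sq_nonneg (‖riemannZeta (1 / 2 + δ' + t * I) * es (1 / 2 + δ' + t * I) f -
          es (1 / 2 + δ' + t * I) (Dt N f)‖ - ‖es (1 / 2 + δ' + t * I) (Dt N f) - 1‖)]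
    _ = 2 * (∫ t in (X ^ ((9:ℝ) / 10))..(2 * X), qd (fun s => es s f) (fun s => es s (Dt N f)) (1 / 2 + δ') t) +
          2 * ∫ t in (X ^ ((9:ℝ) / 10))..(2 * X), ‖es (1 / 2 + δ' + t * Complex.I) g‖ ^ 2 := by
        rw [intervalIntegral.integral_add ((hqc.intervalIntegrable _ _).const_mul 2)
          ((hgc.intervalIntegrable _ _).const_mul 2), intervalIntegral.integral_const_mul,
          intervalIntegral.integral_const_mul]
    _ ≤ 2 * (X * δ ^ D / 8) + 2 * (2 * X * δ ^ (D + 2) + X * δ ^ D / 8) := by linarith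
    _ ≤ X * δ ^ D := by
        have e1 : δ ^ (D + 2) = δ ^ D * δ ^ 2 := by
          rw [Real.rpow_add hδ0]; norm_num
        have e2 : δ ^ 2 ≤ 1 / 576 := by nlinarith
        have e3 : 0 ≤ X * δ ^ D := by positivity
        rw [e1]
        nlinarith

end Pool.Agent.N748.HM.ZM3
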