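import Pool.Agent.N748.HM.Stm
import Pool.Agent.N748.GC.MV

set_option autoImplicit false

/-!
# (XS1) the sums over the blocks in windows
-/

namespace Pool.Agent.N748.HM.XS1

open Finset Filter MeasureTheory MonoidAlgebra Topology Complex
open Pool.Agent.N748.GC Pool.Agent.N748.HM

lemma BP_zero (z : ℕ) (y : ℝ) (j J Rs : ℕ) : BP (fun _ => (0:ℝ)) z y j J Rs = 1 := by
  unfold BP
  refine prod_eq_one fun i _ => ?_
  unfold NKc
  rw [Finset.sum_eq_single 0]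
  · simp
  · intro k _ hk
    simp [zero_pow hk]
  · intro h
    exact absurd (mem_range.2 (by omega)) h

lemma diff_ec (D : PC) : DifferentiableOn ℂ (fun s => ec s D) {s : ℂ | 1 / 2 < s.re ∧ s.re < 1} := by
  have h : (fun s => ec s D) = fun s => ∑ n ∈ D.coeff.support, D.coeff n * (n : ℂ) ^ (-s) := by
    funext s
    exact MV.ec_apply s D
  rw [h]
  refine DifferentiableOn.fun_sum fun n _ => ?_
  refine DifferentiableOn.const_mul ?_ _
  intro s hs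
  refine DifferentiableAt.differentiableWithinAt ?_
  refine DifferentiableAt.const_cpow differentiableAt_id.neg (Or.inr ?_)
  intro h0
  have h1 : s = 0 := by simpa using h0
  rw [h1] at hs
  have h2 : (1:ℝ) / 2 < (0:ℂ).re := hs.1
  norm_num at h2

lemma ms {N X1 X2 δ : ℝ} {D : PC} (hD : ∀ n ∈ D.coeff.support, n ≠ 0 ∧ (n:ℝ) ≤ N) (hδ : 0 ≤ δ)
    (hX : X1 ≤ X2) :
    ∫ t in X1..X2, ‖ec (1 / 2 + δ + t * I) D‖ ^ 2 ≤ (X2 - X1) * nn δ D + 8 * N * lc1 D ^ 2 := by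
  have hm : Mo (∅ : Finset ℕ) 1 :=
    ⟨one_ne_zero, fun p hp h => absurd (Nat.dvd_one.1 h) hp.one_lt.ne'⟩
  have h := MV.main ∅ (by simp) N X1 X2 δ D 1 1
    (fun n hn => ⟨(hD n hn).1, (hD n hn).2, by simp⟩) hδ hX hm hm (Nat.coprime_one_left 1)
  have h2 : ∀ t : ℝ, chr 1 1 t = 1 := by
    intro t
    unfold chr
    simp
  simp only [h2, mul_one, if_true] at h
  rw [intervalIntegral.integral_ofReal, ← ofReal_sub, norm_real, Real.norm_eq_abs] at h
  have h3 := (abs_le.1 h).2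
  have h4 : 8 * ((1:ℕ):ℝ) * N * lc1 D ^ 2 = 8 * N * lc1 D ^ 2 := by
    push_cast
    ring
  linarith

lemma geo (Rs J : ℕ) : ∑ i ∈ range J, Real.exp (-(RB Rs i : ℝ)) ≤ 2 * Real.exp (-(Rs:ℝ)) := by
  have h1 : ∀ i ∈ range J, Real.exp (-(RB Rs i : ℝ)) ≤ Real.exp (-(Rs:ℝ)) * (1 / 2) ^ i := by
    intro i _
    unfold RB
    push_cast
    have h2 : Real.exp (-(2 * ((Rs:ℝ) + i))) = Real.exp (-(2 * (Rs:ℝ))) * Real.exp (-2) ^ i := by
      rw [← Real.exp_nat_mul, ← Real.exp_add]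
      congr 1
      ring
    rw [h2]
    refine mul_le_mul ?_ ?_ (by positivity) (by positivity)
    · apply Real.exp_le_exp.2
      have : (0:ℝ) ≤ Rs := Nat.cast_nonneg _
      linarith
    · refine pow_le_pow_left₀ (Real.exp_pos _).le ?_ _
      have h3 : (2:ℝ) ≤ Real.exp 2 := by
        have := Real.add_one_le_exp (2:ℝ)
        linarith
      rw [Real.exp_neg, inv_eq_one_div]
      exact one_div_le_one_div_of_le (by norm_num) h3
  refine (sum_le_sum h1).trans ?_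
  rw [← mul_sum]
  have h5 := sum_geometric_two_le J
  have h6 : (0:ℝ) < Real.exp (-(Rs:ℝ)) := Real.exp_pos _
  nlinarith

lemma J_le {J : ℕ} {y : ℝ} (hy : 1 ≤ Real.log y) (h : ∀ i < J, 10 ≤ be y i) :
    (J:ℝ) ≤ 1 + Real.log y := by
  rcases Nat.eq_zero_or_pos J with rfl | hJ
  · push_cast
    linarith
  have h1 := h (J - 1) (by omega)
  unfold be at h1
  have h2 : (1:ℝ) ≤ Real.log y * (1 / 4) ^ (J - 1) := by
    by_contra hc
    push Not at hc
    have h3 : Real.exp (Real.log y * (1 / 4) ^ (J - 1)) ≤ Real.exp 1 := Real.exp_le_exp.2 hc.le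
    have h4 := Real.exp_one_lt_d9
    linarith
  have h5 : (4:ℝ) ^ (J - 1) ≤ Real.log y := by
    have h6 : (1 / 4 : ℝ) ^ (J - 1) * 4 ^ (J - 1) = 1 := by
      rw [← mul_pow]
      norm_num
    have h7 : (0:ℝ) < 4 ^ (J - 1) := by positivity
    calc (4:ℝ) ^ (J - 1) = 1 * 4 ^ (J - 1) := by ring
      _ ≤ (Real.log y * (1 / 4) ^ (J - 1)) * 4 ^ (J - 1) := mul_le_mul_of_nonneg_right h2 h7.le
      _ = Real.log y * ((1 / 4) ^ (J - 1) * 4 ^ (J - 1)) := by ring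
      _ = Real.log y := by rw [h6, mul_one]
  have h8 : J - 1 < 4 ^ (J - 1) := Nat.lt_pow_self (by norm_num)
  have h9 : ((J - 1 : ℕ):ℝ) < (4:ℝ) ^ (J - 1) := by exact_mod_cast h8
  rw [Nat.cast_sub (by omega : 1 ≤ J)] at h9
  push_cast at h9
  linarith

theorem main (hQ : S_NNQ3) (hL : S_LEN3) (hS : S_SUP) : S_XS1 := by
  obtain ⟨C', hC', hS⟩ := hS
  intro c hc A
  obtain ⟨C, R0, hC, hQ⟩ := hQ c hc A
  refine ⟨C' * (4 * C + 8), max R0 (max 1 A), by positivity, ?_⟩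
  filter_upwards [eventually_ge_atTop (4:ℝ)] with X hX z Rs J y hR hsp δ hδ hδ1 H hH hHX
  have hR0 : R0 ≤ Rs := (le_max_left _ _).trans hR
  have hR1 : 1 ≤ Rs := (le_max_left _ _).trans ((le_max_right _ _).trans hR)
  have hRA : A ≤ Rs := (le_max_right _ _).trans ((le_max_right _ _).trans hR)
  have hz : 144 ≤ z := le_trans (by norm_num) hsp.zz
  have hy3 : (1000:ℝ) ≤ y := le_trans (by exact_mod_cast hsp.zz) hsp.zy
  have hy1 : 1 ≤ y := by linarith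
  have hly : 1 ≤ Real.log y := by
    rw [Real.le_log_iff_exp_le (by linarith)]
    have := Real.exp_one_lt_d9
    linarith
  have hX0 : 0 < X := by linarith
  -- the length
  set N : ℝ := Real.exp (Real.log y * (90 * ((Rs:ℝ) + 1))) with hN
  have hRs0 : (1:ℝ) ≤ Rs := by exact_mod_cast hR1
  have hN1 : 1 ≤ N := Real.one_le_exp (by positivity)
  have hN2 : N ^ 2 ≤ (2 * (X + 1)) ^ ((1:ℝ) / 50) := by
    have h1 : N ^ 2 = Real.exp (Real.log y * (180 * ((Rs:ℝ) + 1))) := by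
      rw [hN, ← Real.exp_nat_mul]
      congr 1
      push_cast
      ring
    rw [h1]
    exact hsp.len
  have hN6 : N ^ 6 ≤ X := by
    have h0 : (1:ℝ) ≤ 2 * (X + 1) := by linarith
    calc N ^ 6 = (N ^ 2) ^ 3 := by ring
      _ ≤ ((2 * (X + 1)) ^ ((1:ℝ) / 50)) ^ 3 := pow_le_pow_left₀ (by positivity) hN2 3
      _ = (2 * (X + 1)) ^ ((3:ℝ) / 50) := by
          rw [← Real.rpow_natCast, ← Real.rpow_mul (by linarith)]
          norm_num
      _ ≤ (2 * (X + 1)) ^ ((1:ℝ) / 2) := Real.rpow_le_rpow_of_exponent_le h0 (by norm_num)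
      _ ≤ (X ^ 2) ^ ((1:ℝ) / 2) := Real.rpow_le_rpow (by linarith) (by nlinarith) (by norm_num)
      _ = X := by
          rw [← Real.sqrt_eq_rpow, Real.sqrt_sq hX0.le]
  have hJN : (J:ℝ) ≤ N := by
    have h1 := J_le hly (fun i hi => (hsp.bl i hi).1)
    have h2 : Real.log y + 1 ≤ Real.exp (Real.log y) := Real.add_one_le_exp _
    have h3 : Real.exp (Real.log y) ≤ N := by
      apply Real.exp_le_exp.2
      have h4 : (1:ℝ) ≤ 90 * ((Rs:ℝ) + 1) := by linarith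
      calc Real.log y = Real.log y * 1 := by ring
        _ ≤ _ := mul_le_mul_of_nonneg_left h4 (by linarith)
    linarith
  have hRN : Real.exp (Rs:ℝ) ≤ N := by
    apply Real.exp_le_exp.2
    calc (Rs:ℝ) ≤ 1 * (90 * ((Rs:ℝ) + 1)) := by linarith
      _ ≤ _ := mul_le_mul_of_nonneg_right hly (by positivity)
  -- the lengths of the windows
  have hX9 : X ^ ((9:ℝ) / 10) ≤ X := by
    calc X ^ ((9:ℝ) / 10) ≤ X ^ (1:ℝ) := Real.rpow_le_rpow_of_exponent_le (by linarith) (by norm_num)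
      _ = X := Real.rpow_one X
  have hX90 : 0 ≤ X ^ ((9:ℝ) / 10) := Real.rpow_nonneg hX0.le _
  have hX5 : X ^ ((1:ℝ) / 2) + 1 ≤ X := by
    have h1 : X ^ ((1:ℝ) / 2) ≤ X / 2 := by
      calc X ^ ((1:ℝ) / 2) ≤ ((X / 2) ^ 2) ^ ((1:ℝ) / 2) :=
            Real.rpow_le_rpow hX0.le (by nlinarith) (by norm_num)
        _ = X / 2 := by
          rw [← Real.sqrt_eq_rpow, Real.sqrt_sq (by linarith)]
    linarith
  -- the bounds for the mean squares
  obtain ⟨-, hL2⟩ := hL A z J Rs y hz hy1 hR1 hRA (fun i hi => (hsp.bl i hi).1)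
  set B : ℕ → ℝ := fun i => 2 * X * (C * Real.exp (-(RB Rs i : ℝ))) + 8 * N ^ 3 with hB
  have hB0 : ∀ i, 0 ≤ B i := by
    intro i
    simp only [hB]
    positivity
  have hmean : ∀ i < J, ∀ δ' : ℝ, δ / 2 ≤ δ' → δ' ≤ 3 * δ / 2 →
      ∫ t in (X ^ ((9:ℝ) / 10))..(2 * X), ‖ec (1 / 2 + δ' + t * I) (QA A z y Rs i)‖ ^ 2 ≤ B i := by
    intro i hi δ' hd _
    obtain ⟨hc1, hc2⟩ := hL2 i hi
    have hd0 : 0 ≤ δ' := by linarith
    have h1 := ms (X1 := X ^ ((9:ℝ) / 10)) (X2 := 2 * X) (δ := δ') (N := N) (D := QA A z y Rs i)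
      (fun n hn => ⟨(hc1 n hn).1, (hc1 n hn).2.1⟩) hd0 (by linarith)
    have h2 := hQ z J Rs y hz hy1 hR0 hR1 (fun i hi => (hsp.bl i hi).2) δ' hd0 0 le_rfl
      (Nat.cast_nonneg _) i hi
    rw [BP_zero, one_mul] at h2
    have h3 : Real.exp ((0:ℝ) ^ 2 * VB δ' z y 0 J) = 1 := by simp
    rw [h3, mul_one] at h2
    have h4 := MV.nn_nonneg δ' (QA A z y Rs i)
    have h5 := MV.lc1_nonneg (QA A z y Rs i)
    have h6 : (2 * X - X ^ ((9:ℝ) / 10)) * nn δ' (QA A z y Rs i) ≤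
        2 * X * (C * Real.exp (-(RB Rs i : ℝ))) :=
      mul_le_mul (by linarith) h2 h4 (by positivity)
    have h7 : 8 * N * lc1 (QA A z y Rs i) ^ 2 ≤ 8 * N ^ 3 := by
      calc 8 * N * lc1 (QA A z y Rs i) ^ 2 ≤ 8 * N * N ^ 2 :=
            mul_le_mul_of_nonneg_left (pow_le_pow_left₀ h5 hc2 2) (by positivity)
        _ = 8 * N ^ 3 := by ring
    simp only [hB]
    linarith
  -- the union bound
  have hsub : {t : ℝ | X ^ ((9:ℝ) / 10) + 1 ≤ t ∧ t ≤ X ∧ ∃ u : ℝ, t ≤ u ∧ u ≤ t + H ∧ ¬ G1 A z Rs y J δ u} ⊆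
      ⋃ i ∈ range J, {t : ℝ | X ^ ((9:ℝ) / 10) + 1 ≤ t ∧ t + H + 1 ≤ 2 * X ∧ ∃ u : ℝ, t ≤ u ∧ u ≤ t + H ∧
        1 ≤ ‖ec (1 / 2 + δ + u * I) (QA A z y Rs i)‖} := by
    rintro t ⟨h1, h2, u, h3, h4, h5⟩
    unfold G1 at h5
    push Not at h5
    obtain ⟨i, hi, h6⟩ := h5
    refine Set.mem_iUnion₂.2 ⟨i, mem_range.2 hi, h1, by linarith, u, h3, h4, ?_⟩
    have hRB : (0:ℝ) < (RB Rs i : ℝ) := by
      have : 0 < RB Rs i := by
        unfold RB
        omega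
      exact_mod_cast this
    have h7 : ‖ec (1 / 2 + δ + u * I) (QA A z y Rs i)‖ =
        ((A:ℝ) * ‖ec (1 / 2 + δ + u * I) (xc (IB z y i))‖ / (RB Rs i : ℝ)) ^ (RB Rs i) := by
      unfold QA
      rw [map_smul, map_pow, smul_eq_mul, norm_mul, norm_pow, norm_real, Real.norm_eq_abs,
        abs_of_nonneg (by positivity), ← mul_pow]
      congr 1
      ring
    rw [h7]
    refine one_le_pow₀ ?_
    rw [one_le_div hRB]
    exact h6.le
  have hvol : ∀ i ∈ range J, volume {t : ℝ | X ^ ((9:ℝ) / 10) + 1 ≤ t ∧ t + H + 1 ≤ 2 * X ∧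
      ∃ u : ℝ, t ≤ u ∧ u ≤ t + H ∧ 1 ≤ ‖ec (1 / 2 + δ + u * I) (QA A z y Rs i)‖} ≤
      ENNReal.ofReal (C' * (H + 2) * B i / (δ * 1 ^ 2)) := by
    intro i hi
    exact hS (fun s => ec s (QA A z y Rs i)) (diff_ec _) δ (X ^ ((9:ℝ) / 10)) (2 * X) (B i) hδ hδ1
      (by linarith) (hB0 i) (hmean i (mem_range.1 hi)) H 1 hH one_pos
  refine (measure_mono hsub).trans ((measure_biUnion_finset_le _ _).trans ((sum_le_sum hvol).trans ?_))
  rw [← ENNReal.ofReal_sum_of_nonneg (fun i _ => by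
    have := hB0 i
    positivity)]
  refine ENNReal.ofReal_le_ofReal ?_
  -- the sum of the bounds
  have hE : (0:ℝ) < Real.exp (-(Rs:ℝ)) := Real.exp_pos _
  have hsum : ∑ i ∈ range J, B i ≤ (4 * C + 8) * X * Real.exp (-(Rs:ℝ)) := by
    have h1 : ∑ i ∈ range J, B i = 2 * X * C * ∑ i ∈ range J, Real.exp (-(RB Rs i : ℝ)) + J * (8 * N ^ 3) := by
      simp only [hB]
      rw [sum_add_distrib, sum_const, card_range, nsmul_eq_mul, mul_sum]
      congr 1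
      refine sum_congr rfl fun i _ => ?_
      ring
    have h2 : 2 * X * C * ∑ i ∈ range J, Real.exp (-(RB Rs i : ℝ)) ≤ 2 * X * C * (2 * Real.exp (-(Rs:ℝ))) :=
      mul_le_mul_of_nonneg_left (geo Rs J) (by positivity)
    have h3 : (J:ℝ) * (8 * N ^ 3) ≤ 8 * X * Real.exp (-(Rs:ℝ)) := by
      have h4 : (J:ℝ) * (8 * N ^ 3) ≤ N * (8 * N ^ 3) := mul_le_mul_of_nonneg_right hJN (by positivity)
      have h5 : (1:ℝ) ≤ N * Real.exp (-(Rs:ℝ)) := by
        rw [Real.exp_neg, ← div_eq_mul_inv, one_le_div (Real.exp_pos _)]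
        exact hRN
      have h6 : N * (8 * N ^ 3) ≤ 8 * N ^ 5 * Real.exp (-(Rs:ℝ)) := by
        calc N * (8 * N ^ 3) = 8 * N ^ 4 * 1 := by ring
          _ ≤ 8 * N ^ 4 * (N * Real.exp (-(Rs:ℝ))) := mul_le_mul_of_nonneg_left h5 (by positivity)
          _ = _ := by ring
      have h7 : N ^ 5 ≤ X := (pow_le_pow_right₀ hN1 (by norm_num : 5 ≤ 6)).trans hN6
      have h8 : 8 * N ^ 5 * Real.exp (-(Rs:ℝ)) ≤ 8 * X * Real.exp (-(Rs:ℝ)) :=
        mul_le_mul_of_nonneg_right (by linarith) hE.le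
      linarith
    rw [h1]
    nlinarith
  calc ∑ i ∈ range J, C' * (H + 2) * B i / (δ * 1 ^ 2) = C' * (H + 2) / δ * ∑ i ∈ range J, B i := by
        rw [mul_sum]
        refine sum_congr rfl fun i _ => ?_
        rw [one_pow, mul_one]
        ring
    _ ≤ C' * (H + 2) / δ * ((4 * C + 8) * X * Real.exp (-(Rs:ℝ))) :=
        mul_le_mul_of_nonneg_left hsum (by positivity)
    _ = C' * (4 * C + 8) * (H + 2) * X * Real.exp (-(Rs:ℝ)) / δ := by ring

end Pool.Agent.N748.HM.XS1
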