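import Pool.Agent.N748.HM.Stm2
import Pool.Agent.N748.HM.XS1
import Pool.Agent.N748.GC.LEN
import Pool.Agent.N748.GC.NN
import Pool.Agent.N748.GC.QC

set_option autoImplicit false

/-!
# (ZSUP) majorants for zeta on small intervals, in almost all windows (helper136)
-/

namespace Pool.Agent.N748.HM.ZSUP

open Finset Filter MeasureTheory MonoidAlgebra Topology Complex
open Pool.Agent.N748.GC

lemma nn_add_le (δ : ℝ) (f g : PC) : nn δ (f + g) ≤ 2 * nn δ f + 2 * nn δ g := by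
  have h := NN.sqrt_nn_add δ f g
  have h1 := Real.sq_sqrt (MV.nn_nonneg δ f)
  have h2 := Real.sq_sqrt (MV.nn_nonneg δ g)
  have h3 := Real.sq_sqrt (MV.nn_nonneg δ (f + g))
  have h4 := Real.sqrt_nonneg (nn δ (f + g))
  have h5 : Real.sqrt (nn δ (f + g)) ^ 2 ≤ (Real.sqrt (nn δ f) + Real.sqrt (nn δ g)) ^ 2 :=
    pow_le_pow_left₀ h4 h 2
  nlinarith [sq_nonneg (Real.sqrt (nn δ f) - Real.sqrt (nn δ g))]

/-- the mean square of the product over the blocks -/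
lemma nnBP (hN : S_NNB3) (c : ℝ) (hc : 0 ≤ c) (A : ℕ) : ∃ (C : ℝ) (R0 : ℕ), 0 ≤ C ∧
    ∀ (z J Rs : ℕ) (y : ℝ), 144 ≤ z → 1 ≤ y → R0 ≤ Rs → 1 ≤ Rs →
    (∀ i < J, ∑ p ∈ IB z y i, 1 / (p:ℝ) ≤ c) → ∀ δ : ℝ, 0 ≤ δ → ∀ a : ℝ, 0 ≤ a → a ≤ A →
    nn δ (BP (fun _ => a) z y 0 J Rs) ≤ Real.exp C * Real.exp (a ^ 2 * VB δ z y 0 J) := by
  obtain ⟨C, R0, hC, h⟩ := hN c hc A
  refine ⟨C, R0, hC, ?_⟩
  intro z J Rs y hz hy hR hR1 hb δ hδ a ha haA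
  have h1 := h z J Rs y hz hy hR hR1 hb δ hδ (fun _ => a) (fun _ => 0) (fun _ => ⟨ha, haA⟩)
    (fun _ => ⟨le_rfl, Nat.cast_nonneg _⟩) 0
  rw [XS1.BP_zero, map_one, mul_one] at h1
  refine h1.trans ?_
  rw [← Real.exp_add]
  apply Real.exp_le_exp.2
  have h2 : ∑ i ∈ range J, ∑ p ∈ IB z y i, (a ^ 2 + 0 ^ 2 + 2 * a * 0 * Real.cos (0 * Real.log p)) * wd δ p =
      a ^ 2 * VB δ z y 0 J := by
    unfold VB
    rw [mul_sum, ← range_eq_Ico]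
    refine sum_congr rfl fun i _ => ?_
    rw [mul_sum]
    refine sum_congr rfl fun p _ => ?_
    ring
  rw [h2]
  have h3 : Real.exp (-(2 * (Rs:ℝ))) ≤ 1 := by
    rw [Real.exp_le_one_iff]
    have : (0:ℝ) ≤ Rs := Nat.cast_nonneg _
    linarith
  have h4 : C * Real.exp (-(2 * (Rs:ℝ))) ≤ C * 1 := mul_le_mul_of_nonneg_left h3 hC
  linarith

/-- the variance decreases with the distance to the line -/
lemma VB_anti (z : ℕ) (y : ℝ) (J : ℕ) {d d' : ℝ} (h : d ≤ d') : VB d' z y 0 J ≤ VB d z y 0 J := by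
  unfold VB
  refine sum_le_sum fun i _ => sum_le_sum fun p hp => ?_
  unfold IB at hp
  rw [mem_filter, mem_filter] at hp
  have h1 : (1:ℝ) ≤ p := by exact_mod_cast hp.1.2.1.one_lt.le
  unfold wd
  refine mul_le_mul_of_nonneg_right ?_ (by positivity)
  exact Real.rpow_le_rpow_of_exponent_le h1 (by linarith)

/-- length and size of a truncated exponential -/
lemma Q_NK {b : ℝ} (hb : 1 ≤ b) {x : PC} (hx : LEN.Q ∅ b x) (K : ℕ) {a : ℝ} (h0 : 0 ≤ a) :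
    LEN.Q ∅ (Real.exp a * b ^ K) (NKc K a x) := by
  have hbK : ∀ k ∈ range (K + 1), b ^ k ≤ b ^ K := fun k hk =>
    pow_le_pow_right₀ hb (by have := mem_range.1 hk; omega)
  have hbK0 : 0 ≤ b ^ K := by positivity
  have hP : ∀ p ∈ (∅ : Finset ℕ), p.Prime := by simp
  constructor
  · unfold NKc
    refine LEN.Cop_sum _ fun k hk => LEN.Cop_smul _ ?_
    refine LEN.Cop_mono ?_ (LEN.Q_pow hP (by linarith) hx k).1
    have h1 := hbK k hk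
    have h2 : 1 ≤ Real.exp a := Real.one_le_exp h0
    nlinarith
  · unfold NKc
    refine (MV.lc1_sum _ _).trans ?_
    calc ∑ k ∈ range (K + 1), lc1 (((a ^ k / (k.factorial : ℝ) : ℝ) : ℂ) • x ^ k)
        ≤ ∑ k ∈ range (K + 1), a ^ k / (k.factorial : ℝ) * b ^ K := by
          refine sum_le_sum fun k hk => ?_
          refine (LEN.lc1_smul _ _).trans ?_
          rw [Complex.norm_real, Real.norm_of_nonneg (by positivity)]
          exact mul_le_mul_of_nonneg_left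
            ((LEN.Q_pow hP (by linarith) hx k).2.trans (hbK k hk)) (by positivity)
      _ = (∑ k ∈ range (K + 1), a ^ k / (k.factorial : ℝ)) * b ^ K := by rw [sum_mul]
      _ ≤ Real.exp a * b ^ K :=
          mul_le_mul_of_nonneg_right (Real.sum_le_exp_of_nonneg h0 (K + 1)) hbK0

/-- length and size of the factor of the squares -/
lemma Q_GQ (z : ℕ) {y : ℝ} (hy : 1 ≤ y) (K : ℕ) {a : ℝ} (h0 : 0 ≤ a) :
    LEN.Q ∅ (Real.exp a * (y ^ 2) ^ K) (GQ a z y K) := by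
  unfold GQ
  have hy2 : 1 ≤ y ^ 2 := one_le_pow₀ hy
  refine Q_NK hy2 ?_ K h0
  have hmem : ∀ p ∈ PP z y, p.Prime ∧ (p:ℝ) ≤ y := by
    intro p hp
    unfold PP at hp
    rw [mem_filter, mem_Icc] at hp
    exact ⟨hp.2, (Nat.le_floor_iff (by linarith)).1 hp.1.2⟩
  constructor
  · refine LEN.Cop_sum _ fun p hp => ?_
    intro n hn
    have h1 : n = p ^ 2 := by
      rw [MonoidAlgebra.coeff_single] at hn
      exact mem_singleton.1 (Finsupp.support_single_subset hn)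
    subst h1
    obtain ⟨h2, h3⟩ := hmem p hp
    refine ⟨pow_ne_zero 2 h2.ne_zero, ?_, by simp⟩
    push_cast
    exact pow_le_pow_left₀ (Nat.cast_nonneg _) h3 2
  · refine (MV.lc1_sum _ _).trans ?_
    have h1 : ∀ p ∈ PP z y, lc1 (single (p ^ 2) (1 / 2 : ℂ)) ≤ 1 := fun p _ => by
      rw [MV.lc1_single]
      norm_num
    refine (sum_le_sum h1).trans ?_
    rw [sum_const, nsmul_eq_mul, mul_one]
    have h2 : (PP z y).card ≤ ⌊y⌋₊ := by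
      have h3 : PP z y ⊆ Icc 1 ⌊y⌋₊ := by
        intro p hp
        obtain ⟨h4, h5⟩ := hmem p hp
        rw [mem_Icc]
        exact ⟨h4.one_lt.le, Nat.le_floor h5⟩
      exact (card_le_card h3).trans (by simp)
    calc ((PP z y).card : ℝ) ≤ (⌊y⌋₊ : ℝ) := Nat.cast_le.2 h2
      _ ≤ y := Nat.floor_le (by linarith)
      _ ≤ y ^ 2 := by nlinarith

/-- elementary inequalities for large `X` -/
lemma large (D a : ℝ) : ∀ᶠ X : ℝ in atTop, 4 ≤ X ∧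
    2 * Real.log X ^ D * (X ^ ((9:ℝ) / 10) + 1) ≤ X ∧
    8 * (X ^ ((1:ℝ) / 2) * (Real.exp (3 * a) * X ^ ((6:ℝ) / 100))) ≤ X ∧ 1 ≤ Real.log X := by
  have h1 : ∀ᶠ X : ℝ in atTop, ‖Real.log X ^ D‖ ≤ 1 * ‖X ^ ((1:ℝ) / 20)‖ :=
    (isLittleO_log_rpow_rpow_atTop D (show (0:ℝ) < 1 / 20 by norm_num)).bound one_pos
  have h2 : ∀ᶠ X : ℝ in atTop, 4 ≤ X ^ ((1:ℝ) / 20) :=
    (tendsto_rpow_atTop (show (0:ℝ) < 1 / 20 by norm_num)).eventually_ge_atTop 4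
  have h3 : ∀ᶠ X : ℝ in atTop, 8 * Real.exp (3 * a) ≤ X ^ ((44:ℝ) / 100) :=
    (tendsto_rpow_atTop (show (0:ℝ) < 44 / 100 by norm_num)).eventually_ge_atTop _
  have h4 : ∀ᶠ X : ℝ in atTop, 1 ≤ Real.log X := Real.tendsto_log_atTop.eventually_ge_atTop 1
  filter_upwards [h1, h2, h3, h4, eventually_ge_atTop (4:ℝ)] with X e1 e2 e3 e4 e5
  have hX0 : 0 < X := by linarith
  refine ⟨e5, ?_, ?_, e4⟩
  · rw [one_mul, Real.norm_of_nonneg (Real.rpow_nonneg hX0.le _)] at e1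
    have f1 := (le_abs_self _).trans e1
    have f2 : 1 ≤ X ^ ((9:ℝ) / 10) := Real.one_le_rpow (by linarith) (by norm_num)
    have f3 : X ^ ((1:ℝ) / 20) * X ^ ((9:ℝ) / 10) * X ^ ((1:ℝ) / 20) = X := by
      rw [← Real.rpow_add hX0, ← Real.rpow_add hX0]
      norm_num
    have f4 : 0 ≤ X ^ ((1:ℝ) / 20) := by positivity
    have f5 : 0 ≤ Real.log X ^ D := Real.rpow_nonneg (by linarith) _
    calc 2 * Real.log X ^ D * (X ^ ((9:ℝ) / 10) + 1)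
        ≤ 2 * X ^ ((1:ℝ) / 20) * (X ^ ((9:ℝ) / 10) + X ^ ((9:ℝ) / 10)) := by gcongr
      _ = X ^ ((1:ℝ) / 20) * X ^ ((9:ℝ) / 10) * 4 := by ring
      _ ≤ X ^ ((1:ℝ) / 20) * X ^ ((9:ℝ) / 10) * X ^ ((1:ℝ) / 20) := by gcongr
      _ = X := f3
  · have f3 : X ^ ((44:ℝ) / 100) * (X ^ ((1:ℝ) / 2) * X ^ ((6:ℝ) / 100)) = X := by
      rw [← Real.rpow_add hX0, ← Real.rpow_add hX0]
      norm_num
    calc 8 * (X ^ ((1:ℝ) / 2) * (Real.exp (3 * a) * X ^ ((6:ℝ) / 100)))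
        = (8 * Real.exp (3 * a)) * (X ^ ((1:ℝ) / 2) * X ^ ((6:ℝ) / 100)) := by ring
      _ ≤ X ^ ((44:ℝ) / 100) * (X ^ ((1:ℝ) / 2) * X ^ ((6:ℝ) / 100)) := by gcongr
      _ = X := f3

/-- the length of the product -/
lemma len {c : ℝ} {z Rs : ℕ} {y : ℝ} {J : ℕ} {X a : ℝ} {Kq : ℕ} (hL : S_LEN3) {A : ℕ} (ha : 0 ≤ a)
    (haA : a ≤ A) (hsp : SP c z Rs y J X) (hR1 : 1 ≤ Rs) (hRA : A ≤ Rs) (hX : 4 ≤ X)
    (hK : Kq * Real.log y ≤ Real.log X / 100)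
    (hlarge : 8 * (X ^ ((1:ℝ) / 2) * (Real.exp (3 * a) * X ^ ((6:ℝ) / 100))) ≤ X) :
    ∃ N : ℝ, 0 ≤ N ∧ 8 * N ^ 3 ≤ X ∧
      LEN.Q ∅ N (BP (fun _ => a) z y 0 J Rs * GQ a z y Kq) := by
  have hz : 144 ≤ z := le_trans (by norm_num) hsp.zz
  have hy3 : (1000:ℝ) ≤ y := le_trans (by exact_mod_cast hsp.zz) hsp.zy
  have hy1 : 1 ≤ y := by linarith
  have hX0 : 0 < X := by linarith
  have hP : ∀ p ∈ (∅ : Finset ℕ), p.Prime := by simp
  set N : ℝ := Real.exp (Real.log y * (90 * ((Rs:ℝ) + 1))) with hN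
  have hN0 : 0 < N := Real.exp_pos _
  have hN2 : N ^ 2 ≤ (2 * (X + 1)) ^ ((1:ℝ) / 50) := by
    have h1 : N ^ 2 = Real.exp (Real.log y * (180 * ((Rs:ℝ) + 1))) := by
      rw [hN, ← Real.exp_nat_mul]
      congr 1
      push_cast
      ring
    rw [h1]
    exact hsp.len
  have hN6 : N ^ 6 ≤ X := by
    have h0 : (1:ℝ) ≤ 2 * (X + 1) := by linarith
    calc N ^ 6 = (N ^ 2) ^ 3 := by ring
      _ ≤ ((2 * (X + 1)) ^ ((1:ℝ) / 50)) ^ 3 := pow_le_pow_left₀ (by positivity) hN2 3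
      _ = (2 * (X + 1)) ^ ((3:ℝ) / 50) := by
          rw [← Real.rpow_natCast, ← Real.rpow_mul (by linarith)]
          norm_num
      _ ≤ (2 * (X + 1)) ^ ((1:ℝ) / 2) := Real.rpow_le_rpow_of_exponent_le h0 (by norm_num)
      _ ≤ (X ^ 2) ^ ((1:ℝ) / 2) := Real.rpow_le_rpow (by linarith) (by nlinarith) (by norm_num)
      _ = X := by
          rw [← Real.sqrt_eq_rpow, Real.sqrt_sq hX0.le]
  have hN3 : N ^ 3 ≤ X ^ ((1:ℝ) / 2) := by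
    rw [← Real.sqrt_eq_rpow]
    apply Real.le_sqrt_of_sq_le
    calc (N ^ 3) ^ 2 = N ^ 6 := by ring
      _ ≤ X := hN6
  obtain ⟨hL1, -⟩ := hL A z J Rs y hz hy1 hR1 hRA (fun i hi => (hsp.bl i hi).1)
  obtain ⟨l1, l2⟩ := hL1 (fun _ => a) (fun _ => ⟨ha, haA⟩) 0 (Nat.zero_le _)
  have q1 : LEN.Q ∅ N (BP (fun _ => a) z y 0 J Rs) :=
    ⟨fun n hn => ⟨(l1 n hn).1, (l1 n hn).2.1, by simp⟩, l2⟩
  have q2 := Q_GQ z hy1 Kq ha
  refine ⟨N * (Real.exp a * (y ^ 2) ^ Kq), by positivity, ?_, LEN.Q_mul hP hN0.le q1 q2⟩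
  have e1 : (Real.exp a * (y ^ 2) ^ Kq) ^ 3 = Real.exp (3 * a) * y ^ (6 * Kq) := by
    rw [mul_pow, ← Real.exp_nat_mul, ← pow_mul, ← pow_mul]
    congr 2
    ring
  have e2 : y ^ (6 * Kq) ≤ X ^ ((6:ℝ) / 100) := by
    have hy0 : 0 < y := by linarith
    have h1 : y ^ (6 * Kq) = Real.exp (6 * (Kq * Real.log y)) := by
      rw [← Real.exp_log hy0, ← Real.exp_nat_mul, Real.log_exp]
      congr 1
      push_cast
      ring
    rw [h1, Real.rpow_def_of_pos hX0]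
    apply Real.exp_le_exp.2
    linarith
  calc 8 * (N * (Real.exp a * (y ^ 2) ^ Kq)) ^ 3 = 8 * (N ^ 3 * (Real.exp (3 * a) * y ^ (6 * Kq))) := by
        rw [mul_pow, e1]
    _ ≤ 8 * (X ^ ((1:ℝ) / 2) * (Real.exp (3 * a) * X ^ ((6:ℝ) / 100))) := by gcongr
    _ ≤ X := hlarge

theorem main (hP : S_PRM) (hC : S_CL) (hM : S_SUPM) (hQ : S_SQ1) (hN : S_NNB3) (hL : S_LEN3)
    (hR : S_NRM) : S_ZSUP := by
  intro a ha D hD
  obtain ⟨c, hc, hP⟩ := hP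
  obtain ⟨CS, hCS, hM⟩ := hM
  set A : ℕ := ⌈a⌉₊ with hA
  have haA : a ≤ A := Nat.le_ceil a
  obtain ⟨z1, hC⟩ := hC A a ha haA 1 one_pos
  obtain ⟨z2, R2, hQ⟩ := hQ a ha c hc 1 one_pos
  obtain ⟨z3, hR⟩ := hR a ha (1 / 2) (by norm_num)
  obtain ⟨CN, R3, hCN, hBP⟩ := nnBP hN c hc A
  -- the choice of `z`
  obtain ⟨z, hz1, hz2, hz3, hz4⟩ : ∃ z : ℕ, z1 ≤ z ∧ z2 ≤ z ∧ z3 ≤ z ∧ 1000 ≤ z :=
    ⟨max (max z1 z2) (max z3 1000), by omega, by omega, by omega, by omega⟩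
  obtain ⟨R1, x1, δ1, η1, C1, hδ1, hδ1', hη1, hC1, hC⟩ := hC z hz1
  obtain ⟨x2, δ2, hδ2, hR⟩ := hR z hz3
  obtain ⟨R0, hR0a, hR0b, hR0c, hR0d, hR0e⟩ : ∃ R0 : ℕ, R1 ≤ R0 ∧ R2 ≤ R0 ∧ R3 ≤ R0 ∧ 1 ≤ R0 ∧ A ≤ R0 :=
    ⟨max (max R1 R2) (max R3 (max 1 A)), by omega, by omega, by omega, by omega, by omega⟩
  obtain ⟨x0, hx0a, hx0b, hx0c⟩ : ∃ x0 : ℝ, x1 ≤ x0 ∧ x2 ≤ x0 ∧ 2 * x2 ≤ x0 :=
    ⟨max x1 (max x2 (2 * x2)), le_max_left _ _, (le_max_left _ _).trans (le_max_right _ _),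
      (le_max_right _ _).trans (le_max_right _ _)⟩
  obtain ⟨lam, δ3, hlam, hδ3, hδ3', hP⟩ := hP A (D + 1) (by linarith) z hz4 R0 x0 η1 C1 hη1 hC1
  -- the constants
  have hE0 : 0 < E0 a (Sm z) := QC.E0_pos a (QC.Sm_prime z)
  obtain ⟨CM, hCM⟩ : ∃ CM : ℝ, ∀ x, M0 a (Sm z) x ≤ CM := by
    obtain ⟨CM, h⟩ := isCompact_univ.exists_bound_of_continuousOn
      (QC.M0_cont a (QC.Sm_prime z)).continuousOn
    exact ⟨CM, fun x => (le_abs_self _).trans (h x (Set.mem_univ x))⟩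
  have hCM0 : 0 < CM := (QC.M0_pos a (QC.Sm_prime z) 0).trans_le (hCM 0)
  obtain ⟨E, hE⟩ : ∃ E : ℝ, E = E0 a (Sm z) := ⟨_, rfl⟩
  rw [← hE] at hE0
  set K1 : ℝ := 3 / 2 * |aa a| / E with hK1
  have hK10 : 0 ≤ K1 := by positivity
  set KB : ℝ := 2 * ((2 * Real.exp CN + 2) * K1) + 1 with hKB
  have hKB0 : 0 < KB := by positivity
  refine ⟨4 * CM * E * (CS * KB), lam, min δ1 (min δ2 δ3), by positivity, hlam,
    lt_min hδ1 (lt_min hδ2 hδ3), (min_le_left _ _).trans hδ1', ?_⟩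
  filter_upwards [hP, large D a] with X hPX hlg δ hδ0 hδm hlamX
  obtain ⟨hX4, hlg1, hlg2, hlogX⟩ := hlg
  have hX0 : 0 < X := by linarith
  have hδ1m : δ ≤ δ1 := hδm.trans (min_le_left _ _)
  have hδ2m : δ ≤ δ2 := hδm.trans ((min_le_right _ _).trans (min_le_left _ _))
  have hδ3m : δ ≤ δ3 := hδm.trans ((min_le_right _ _).trans (min_le_right _ _))
  have hδ16 : δ ≤ 1 / 16 := hδ1m.trans hδ1'
  obtain ⟨Rs, J, K, Kq, y, a', v, hRs, hsp, hdl, hx0, hv, hpv, hK, hKq, hKq2, hvol⟩ :=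
    hPX δ hδ0 hδ3m hlamX
  have hz144 : 144 ≤ z := le_trans (by norm_num) hsp.zz
  have hy3 : (1000:ℝ) ≤ y := le_trans (by exact_mod_cast hsp.zz) hsp.zy
  have hy1 : 1 ≤ y := by linarith
  have hR1' : R1 ≤ Rs := hR0a.trans hRs
  have hR2' : R2 ≤ Rs := hR0b.trans hRs
  have hR3' : R3 ≤ Rs := hR0c.trans hRs
  have hR1'' : 1 ≤ Rs := hR0d.trans hRs
  have hRA : A ≤ Rs := hR0e.trans hRs
  -- `δ^(-D) ≤ (log X)^D`
  have hdD : δ ^ (-D) ≤ Real.log X ^ D := by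
    rw [Real.rpow_neg hδ0.le, ← Real.inv_rpow hδ0.le]
    refine Real.rpow_le_rpow (by positivity) ?_ hD.le
    rw [← one_div]
    exact hdl
  have hdD1 : 1 ≤ Real.log X ^ D * δ ^ D := by
    have h1 : δ ^ (-D) * δ ^ D = 1 := by
      rw [← Real.rpow_add hδ0]
      simp
    calc (1:ℝ) = δ ^ (-D) * δ ^ D := h1.symm
      _ ≤ Real.log X ^ D * δ ^ D := mul_le_mul_of_nonneg_right hdD (by positivity)
  have hX9 : 0 ≤ X ^ ((9:ℝ) / 10) := by positivity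
  have hlD : 1 ≤ Real.log X ^ D := Real.one_le_rpow hlogX hD.le
  have hX9' : 2 * (X ^ ((9:ℝ) / 10) + 1) ≤ X := by
    calc 2 * (X ^ ((9:ℝ) / 10) + 1) = 2 * 1 * (X ^ ((9:ℝ) / 10) + 1) := by ring
      _ ≤ 2 * Real.log X ^ D * (X ^ ((9:ℝ) / 10) + 1) := by gcongr
      _ ≤ X := hlg1
  have hdX : δ ^ (-D) ≤ X / 2 := by
    have h1 : 2 * Real.log X ^ D * 1 ≤ 2 * Real.log X ^ D * (X ^ ((9:ℝ) / 10) + 1) := by
      gcongr
      linarith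
    linarith
  -- the polynomial
  set P : PC := BP (fun _ => a) z y 0 J Rs * GQ a z y Kq with hPdef
  obtain ⟨N, hN0, hN3, hQN⟩ := len hL ha.le haA hsp hR1'' hRA hX4 hKq2 hlg2
  rw [← hPdef] at hQN
  -- the normalising constants
  have hnrm := hR δ hδ0 hδ2m y J hsp.zy hsp.bJ (hx0b.trans hx0)
  have hnrm2 := hR (δ / 2) (by linarith) (by linarith) y J hsp.zy hsp.bJ (by linarith)
  rw [← hE] at hnrm hnrm2
  have e2δ : 2 * (δ / 2) = δ := by ring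
  rw [e2δ] at hnrm2
  obtain ⟨V, hV⟩ : ∃ V, V = Real.exp (a ^ 2 * VB δ z y 0 J) := ⟨_, rfl⟩
  obtain ⟨V2, hV2⟩ : ∃ V2, V2 = Real.exp (a ^ 2 * VB (δ / 2) z y 0 J) := ⟨_, rfl⟩
  have hV0 : 0 < V := by rw [hV]; exact Real.exp_pos _
  have hV20 : 0 < V2 := by rw [hV2]; exact Real.exp_pos _
  rw [← hV] at hnrm
  rw [← hV2] at hnrm2
  have hnl := (abs_le.1 hnrm).1
  have hnu := (abs_le.1 hnrm2).2
  have haa : 0 < aa a := by
    by_contra hcon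
    push Not at hcon
    have h1 : (2 * δ) ^ (a ^ 2) / aa a ≤ 0 :=
      div_nonpos_of_nonneg_of_nonpos (by positivity) hcon
    have h2 : (2 * δ) ^ (a ^ 2) / aa a * (E * V) ≤ 0 :=
      mul_nonpos_of_nonpos_of_nonneg h1 (by positivity)
    linarith
  have hV2le : V2 ≤ K1 * δ ^ (-(a ^ 2)) := by
    have h1 : δ ^ (a ^ 2) / aa a * (E * V2) ≤ 3 / 2 := by linarith
    have h2 : 0 < δ ^ (a ^ 2) := by positivity
    rw [hK1, abs_of_pos haa, Real.rpow_neg hδ0.le]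
    have h3 : 3 / 2 * aa a / E * (δ ^ (a ^ 2))⁻¹ = 3 / 2 * (aa a / (E * δ ^ (a ^ 2))) := by
      field_simp
    rw [h3]
    have h4 : V2 = (δ ^ (a ^ 2) / aa a * (E * V2)) * (aa a / (E * δ ^ (a ^ 2))) := by
      field_simp
    calc V2 = (δ ^ (a ^ 2) / aa a * (E * V2)) * (aa a / (E * δ ^ (a ^ 2))) := h4
      _ ≤ 3 / 2 * (aa a / (E * δ ^ (a ^ 2))) := mul_le_mul_of_nonneg_right h1 (by positivity)
  have hδa : 1 ≤ δ ^ (-(a ^ 2)) := by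
    apply Real.one_le_rpow_of_pos_of_le_one_of_nonpos hδ0 (by linarith)
    have := sq_nonneg a
    linarith
  -- the mean squares
  set B : ℝ := X * (KB * δ ^ (-(a ^ 2))) with hB
  have hB0 : 0 ≤ B := by positivity
  have hmean : ∀ δ' : ℝ, δ / 2 ≤ δ' → δ' ≤ 3 * δ / 2 →
      ∫ t in (X ^ ((9:ℝ) / 10))..(3 / 2 * X + 1), ‖ec (1 / 2 + δ' + t * I) P‖ ^ 2 ≤ B := by
    intro δ' hd _
    have hd0 : 0 ≤ δ' := by linarith
    have h1 := XS1.ms (X1 := X ^ ((9:ℝ) / 10)) (X2 := 3 / 2 * X + 1) (δ := δ') (N := N) (D := P)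
      (fun n hn => ⟨(hQN.1 n hn).1, (hQN.1 n hn).2.1⟩) hd0 (by linarith)
    have h2 := hBP z J Rs y hz144 hy1 hR3' hR1'' (fun i hi => (hsp.bl i hi).2) δ' hd0 a ha.le haA
    have h3 := hQ z J Rs Kq y hz2 hR2' hy1 hsp.bJ (fun i hi => (hsp.bl i hi).2) δ' hd0
    have h4 : P = BP (fun _ => a) z y 0 J Rs + BP (fun _ => a) z y 0 J Rs * (GQ a z y Kq - 1) := by
      rw [hPdef]; ring
    have h5 : nn δ' P ≤ (2 * Real.exp CN + 2) * Real.exp (a ^ 2 * VB δ' z y 0 J) := by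
      rw [h4]
      refine (nn_add_le _ _ _).trans ?_
      linarith
    have h6 : Real.exp (a ^ 2 * VB δ' z y 0 J) ≤ V2 := by
      rw [hV2]
      exact Real.exp_le_exp.2 (mul_le_mul_of_nonneg_left (VB_anti z y J hd) (sq_nonneg a))
    have h7 : nn δ' P ≤ (2 * Real.exp CN + 2) * (K1 * δ ^ (-(a ^ 2))) := by
      refine h5.trans ?_
      exact mul_le_mul_of_nonneg_left (h6.trans hV2le) (by positivity)
    have h8 := MV.nn_nonneg δ' P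
    have h9 := MV.lc1_nonneg P
    have h10 : 8 * N * lc1 P ^ 2 ≤ X := by
      calc 8 * N * lc1 P ^ 2 ≤ 8 * N * N ^ 2 :=
            mul_le_mul_of_nonneg_left (pow_le_pow_left₀ h9 hQN.2 2) (by positivity)
        _ = 8 * N ^ 3 := by ring
        _ ≤ X := hN3
    have h11 : (3 / 2 * X + 1 - X ^ ((9:ℝ) / 10)) * nn δ' P ≤
        2 * X * ((2 * Real.exp CN + 2) * (K1 * δ ^ (-(a ^ 2)))) :=
      mul_le_mul (by linarith) h7 h8 (by positivity)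
    have h12 : X * 1 ≤ X * δ ^ (-(a ^ 2)) := mul_le_mul_of_nonneg_left hδa hX0.le
    have h13 : B = 2 * X * ((2 * Real.exp CN + 2) * (K1 * δ ^ (-(a ^ 2)))) + X * δ ^ (-(a ^ 2)) := by
      rw [hB, hKB]; ring
    linarith
  obtain ⟨M, hMc, hM0, hMi, hMb⟩ := hM (fun s => ec s P) (XS1.diff_ec P) δ (X ^ ((9:ℝ) / 10))
    (3 / 2 * X + 1) B hδ0 hδ16 (by linarith) hB0 hmean
  -- the good set
  refine ⟨{t : ℝ | X ^ ((9:ℝ) / 10) + 1 ≤ t ∧ t ≤ X ∧ ∀ u : ℝ, t ≤ u → u ≤ t + δ ^ (-(D + 1)) →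
      (G1 A z Rs y J δ u ∧ ‖ec (1 / 2 + δ + u * I) (xc (PP z y))‖ ≤ a' ∧
        ‖Ez z y K (1 / 2 + δ + u * I)‖ ≤ η1)}, fun t => 4 * CM * E * M t, ?_, ?_, ?_, ?_, ?_⟩
  · -- the measure
    have hsub : Set.Icc 0 X \ {t : ℝ | X ^ ((9:ℝ) / 10) + 1 ≤ t ∧ t ≤ X ∧ ∀ u : ℝ, t ≤ u →
        u ≤ t + δ ^ (-(D + 1)) → (G1 A z Rs y J δ u ∧ ‖ec (1 / 2 + δ + u * I) (xc (PP z y))‖ ≤ a' ∧
        ‖Ez z y K (1 / 2 + δ + u * I)‖ ≤ η1)} ⊆ Set.Icc 0 (X ^ ((9:ℝ) / 10) + 1) ∪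
        {t : ℝ | X ^ ((9:ℝ) / 10) + 1 ≤ t ∧ t ≤ X ∧ ∃ u : ℝ, t ≤ u ∧ u ≤ t + δ ^ (-(D + 1)) ∧
      ¬ (G1 A z Rs y J δ u ∧ ‖ec (1 / 2 + δ + u * I) (xc (PP z y))‖ ≤ a' ∧
        ‖Ez z y K (1 / 2 + δ + u * I)‖ ≤ η1)} := by
      rintro t ⟨⟨ht0, htX⟩, hnt⟩
      rcases lt_or_ge t (X ^ ((9:ℝ) / 10) + 1) with h1 | h1
      · exact Or.inl ⟨ht0, h1.le⟩
      · right
        refine ⟨h1, htX, ?_⟩
        by_contra hcon
        apply hnt
        refine ⟨h1, htX, ?_⟩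
        intro u hu1 hu2
        by_contra h3
        exact hcon ⟨u, hu1, hu2, h3⟩
    refine (measure_mono hsub).trans ((measure_union_le _ _).trans ?_)
    refine (add_le_add (le_of_eq (Real.volume_Icc)) hvol).trans ?_
    rw [← ENNReal.ofReal_add (by linarith) (by positivity)]
    apply ENNReal.ofReal_le_ofReal
    have hDp : 0 < δ ^ D := by positivity
    have h1 : δ ^ (D + 1) = δ ^ D * δ := by
      rw [Real.rpow_add hδ0, Real.rpow_one]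
    have h2 : 2 * (X ^ ((9:ℝ) / 10) + 1) ≤ X * δ ^ D := by
      calc 2 * (X ^ ((9:ℝ) / 10) + 1) = 2 * 1 * (X ^ ((9:ℝ) / 10) + 1) := by ring
        _ ≤ 2 * (Real.log X ^ D * δ ^ D) * (X ^ ((9:ℝ) / 10) + 1) := by gcongr
        _ = (2 * Real.log X ^ D * (X ^ ((9:ℝ) / 10) + 1)) * δ ^ D := by ring
        _ ≤ X * δ ^ D := mul_le_mul_of_nonneg_right hlg1 hDp.le
    have h3 : δ ^ D * δ * X ≤ δ ^ D * (1 / 16) * X := by gcongr
    rw [h1]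
    have h4 : 0 ≤ X * δ ^ D := by positivity
    linarith
  · exact continuous_const.mul hMc
  · intro t
    have := hM0 t
    positivity
  · rw [intervalIntegral.integral_const_mul]
    have h1 : (3 / 2 * X + 1 - 1 : ℝ) = 3 / 2 * X := by ring
    rw [h1] at hMi
    calc 4 * CM * E * ∫ t in (X ^ ((9:ℝ) / 10) + 1)..(3 / 2 * X), M t ≤ 4 * CM * E * (CS * B) :=
          mul_le_mul_of_nonneg_left hMi (by positivity)
      _ = 4 * CM * E * (CS * KB) * X * δ ^ (-(a ^ 2)) := by rw [hB]; ring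
  · rintro t ⟨ht1, htX, htg⟩
    refine ⟨ht1, ?_⟩
    intro t' u htt' ht'u hut' hut
    have hDD : δ ^ (-D) ≤ δ ^ (-(D + 1)) :=
      Real.rpow_le_rpow_of_exponent_ge hδ0 (by linarith) (by linarith)
    obtain ⟨g1, g2, g3⟩ := htg u (htt'.trans ht'u) (by linarith)
    have hcl := hC δ hδ0 hδ1m Rs J K Kq y hsp.zy hsp.bJ hR1' (hx0a.trans hx0) u a' v g2 hpv hK hKq
      g1 g3
    have hMu := hMb t' u (by linarith) (by linarith) ht'u hut'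
    obtain ⟨S, hS⟩ : ∃ S, S = ‖ec (1 / 2 + δ + u * I) P‖ ^ 2 := ⟨_, rfl⟩
    have hS0 : 0 ≤ S := by rw [hS]; positivity
    have hW : WP a z Rs y J δ u * ‖ec (1 / 2 + δ + u * I) (GQ a z y Kq)‖ ^ 2 = S / V := by
      rw [hS, hV, hPdef, map_mul, norm_mul, mul_pow]
      unfold WP
      ring
    rw [hW, one_mul] at hcl
    have hcl2 := (abs_le.1 hcl).2
    have hmz : mz a z u ≤ CM := hCM _
    have hmz0 : 0 ≤ mz a z u := (QC.M0_pos a (QC.Sm_prime z) _).le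
    have hSV : 0 ≤ S / V := by positivity
    have h1 : Zn a δ u ≤ 2 * (CM * (S / V)) := by
      have := mul_le_mul_of_nonneg_right hmz hSV
      linarith
    unfold Zn at h1
    obtain ⟨Z, hZ⟩ : ∃ Z, Z = ‖riemannZeta (1 / 2 + δ + u * I)‖ ^ (2 * a) := ⟨_, rfl⟩
    have hZ0 : 0 ≤ Z := by rw [hZ]; positivity
    rw [← hZ] at h1 ⊢
    rw [← hS] at hMu
    obtain ⟨Γ, hΓ⟩ : ∃ Γ, Γ = (2 * δ) ^ (a ^ 2) / aa a := ⟨_, rfl⟩
    rw [← hΓ] at h1 hnl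
    have h2 : 1 / 2 ≤ Γ * (E * V) := by linarith
    have h3 : (1 / 2) * Z ≤ (Γ * (E * V)) * Z := mul_le_mul_of_nonneg_right h2 hZ0
    have h4 : (Γ * Z) * (E * V) ≤ (2 * (CM * (S / V))) * (E * V) :=
      mul_le_mul_of_nonneg_right h1 (by positivity)
    have h5 : (2 * (CM * (S / V))) * (E * V) = 2 * CM * E * S := by
      field_simp
    have h6 : Z ≤ 4 * CM * E * S := by
      have e1 : (Γ * (E * V)) * Z = (Γ * Z) * (E * V) := by ring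
      rw [e1] at h3
      rw [h5] at h4
      linarith
    exact h6.trans (mul_le_mul_of_nonneg_left hMu (by positivity))

end Pool.Agent.N748.HM.ZSUP
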