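import Pool.Agent.N748.HM.Pre
import Pool.Agent.N748.HM.NEAR3
import Pool.Agent.N748.HM.SUPM
import Pool.Agent.N748.HM.ZM3
import Pool.Agent.N748.HM.ZSUP
import Pool.Agent.N748.HM.FE
import Pool.Agent.N748.HM.CL

set_option autoImplicit false

/-! All moments near the critical line: assembly up to the normalising constants. -/

namespace Pool.Agent.N748.HM

open Pool.Agent.N748.GC

theorem zmF : S_ZM := ZM3.main ZM1.main ZM2.main

theorem near3F : S_NEAR3 := NEAR3.main nnb3 LEN3.main COS.mer COS.cos (TAIL.main COS.mer)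

theorem clF (hR : S_NRM) : S_CL := CL.main INV.main hR

theorem trm2G (hR : S_NRM) : S_TRM2 := trm2 zmF (clF hR)

theorem core3G (hR : S_NRM) : S_CORE3 := core3 zmF (clF hR) near3F

theorem supzG (hR : S_NRM) : S_SUPZ := supz zmF (clF hR) hR

theorem zsupG (hR : S_NRM) : S_ZSUP := ZSUP.main (prm zmF) (clF hR) SUPM.main sq1 nnb3 LEN3.main hR

theorem deg3G (hR : S_NRM) : S_DEG3 := DEG3.main (zsupG hR)

theorem feG (hR : S_NRM) : S_FE := FE.main (core3G hR) (supzG hR)

end Pool.Agent.N748.HM
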