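import Pool.Agent.N748.HM.Stm
import Pool.Agent.N748.GC.Lk

set_option autoImplicit false

/-!
# The truncated inverse Euler product (HM/INV)
-/

namespace Pool.Agent.N748.HM.INV

section gen

open Finset Complex Polynomial


lemma nrm_one_sub_le (x : ℂ) : ‖1 - x‖ ≤ Real.exp (-x.re + ‖x‖ ^ 2 / 2) := by
  have h1 : ‖1 - x‖ ^ 2 ≤ Real.exp (-x.re + ‖x‖ ^ 2 / 2) ^ 2 := by
    have h2 : ‖1 - x‖ ^ 2 = -2 * x.re + ‖x‖ ^ 2 + 1 := by
      rw [← Complex.normSq_eq_norm_sq, ← Complex.normSq_eq_norm_sq, Complex.normSq_apply,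
        Complex.normSq_apply]
      simp
      ring
    rw [h2, ← Real.exp_nat_mul]
    calc -2 * x.re + ‖x‖ ^ 2 + 1 ≤ Real.exp (-2 * x.re + ‖x‖ ^ 2) := Real.add_one_le_exp _
      _ = _ := by congr 1; push_cast; ring
  exact le_of_sq_le_sq h1 (Real.exp_pos _).le

lemma prod_bd (P : Finset ℕ) (b : ℕ → ℂ) (w : ℂ) (hw : ‖w‖ = 2) (a v : ℝ)
    (ha : ‖∑ p ∈ P, b p‖ ≤ a) (hv : ∑ p ∈ P, ‖b p‖ ^ 2 ≤ v) :
    ‖∏ p ∈ P, (1 - w * b p)‖ ≤ Real.exp (2 * a + 2 * v) := by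
  rw [norm_prod]
  calc ∏ p ∈ P, ‖1 - w * b p‖ ≤ ∏ p ∈ P, Real.exp (-(w * b p).re + ‖w * b p‖ ^ 2 / 2) :=
        Finset.prod_le_prod (fun i _ => norm_nonneg _) (fun i _ => nrm_one_sub_le _)
    _ = Real.exp (∑ p ∈ P, (-(w * b p).re + ‖w * b p‖ ^ 2 / 2)) := (Real.exp_sum _ _).symm
    _ ≤ _ := by
        apply Real.exp_le_exp.2
        rw [Finset.sum_add_distrib]
        have h1 : ∑ p ∈ P, -(w * b p).re = (-(w * ∑ p ∈ P, b p)).re := by
          rw [Finset.mul_sum, ← Finset.sum_neg_distrib, Complex.re_sum]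
          simp
        have h2 : (-(w * ∑ p ∈ P, b p)).re ≤ 2 * a := by
          calc (-(w * ∑ p ∈ P, b p)).re ≤ ‖-(w * ∑ p ∈ P, b p)‖ := Complex.re_le_norm _
            _ = 2 * ‖∑ p ∈ P, b p‖ := by rw [norm_neg, norm_mul, hw]
            _ ≤ 2 * a := by linarith
        have h3 : ∑ p ∈ P, ‖w * b p‖ ^ 2 / 2 = 2 * ∑ p ∈ P, ‖b p‖ ^ 2 := by
          rw [Finset.mul_sum]
          apply Finset.sum_congr rfl
          intro p _
          rw [norm_mul, hw]; ring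
        rw [h1, h3]
        linarith

/-- the polynomial of the elementary symmetric functions -/
noncomputable def Qp (P : Finset ℕ) (b : ℕ → ℂ) : ℂ[X] := ∏ p ∈ P, (1 - C (b p) * X)

lemma Qp_eval (P : Finset ℕ) (b : ℕ → ℂ) (w : ℂ) : (Qp P b).eval w = ∏ p ∈ P, (1 - w * b p) := by
  unfold Qp
  rw [eval_prod]
  apply Finset.prod_congr rfl
  intro p _
  rw [eval_sub, eval_one, eval_mul, eval_C, eval_X, mul_comm]

lemma Qp_sum (P : Finset ℕ) (b : ℕ → ℂ) :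
    Qp P b = ∑ S ∈ P.powerset, C ((-1 : ℂ) ^ S.card * ∏ p ∈ S, b p) * X ^ S.card := by
  unfold Qp
  have h : ∀ p ∈ P, (1 - C (b p) * X : ℂ[X]) = 1 + (-(C (b p) * X)) := fun p _ => by ring
  rw [Finset.prod_congr rfl h, Finset.prod_one_add]
  apply Finset.sum_congr rfl
  intro S _
  rw [Finset.prod_neg, Finset.prod_mul_distrib, Finset.prod_const, C_mul, C_pow, C_neg, C_1,
    map_prod]
  ring

lemma Qp_coeff (P : Finset ℕ) (b : ℕ → ℂ) (k : ℕ) :
    (Qp P b).coeff k = ∑ S ∈ P.powerset.filter (fun S => S.card = k), (-1 : ℂ) ^ S.card * ∏ p ∈ S, b p := by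
  rw [Qp_sum, finsetSum_coeff, Finset.sum_filter]
  apply Finset.sum_congr rfl
  intro S _
  rw [coeff_C_mul, coeff_X_pow]
  by_cases h : S.card = k
  · simp [h]
  · have : ¬ k = S.card := fun h' => h h'.symm
    simp [h, this]

lemma Qp_trunc (P : Finset ℕ) (b : ℕ → ℂ) (K : ℕ) :
    ∑ S ∈ P.powerset.filter (fun S => S.card ≤ K), (-1 : ℂ) ^ S.card * ∏ p ∈ S, b p
      = ∑ k ∈ range (K + 1), (Qp P b).coeff k := by
  have h : ∀ k ∈ range (K+1), (Qp P b).coeff k = ∑ S ∈ (P.powerset.filter (fun S => S.card ≤ K)).filter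
      (fun S => S.card = k), (-1 : ℂ) ^ S.card * ∏ p ∈ S, b p := by
    intro k hk
    rw [Qp_coeff]
    apply Finset.sum_congr _ (fun _ _ => rfl)
    ext S
    simp only [Finset.mem_filter, Finset.mem_range] at hk ⊢
    constructor
    · rintro ⟨h1, h2⟩; exact ⟨⟨h1, by omega⟩, h2⟩
    · rintro ⟨⟨h1, _⟩, h2⟩; exact ⟨h1, h2⟩
  rw [Finset.sum_congr rfl h]
  rw [Finset.sum_fiberwise_of_maps_to]
  intro S hS
  simp only [Finset.mem_filter, Finset.mem_range] at hS ⊢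
  omega

lemma iter_deriv (Q : ℂ[X]) (k : ℕ) : iteratedDeriv k (fun w => Q.eval w) = fun w => (derivative^[k] Q).eval w := by
  induction k with
  | zero => simp
  | succ k ih =>
    rw [iteratedDeriv_succ, ih, Function.iterate_succ_apply']
    funext w
    exact Polynomial.deriv _

lemma coeff_bd (Q : ℂ[X]) (M : ℝ) (h : ∀ w : ℂ, ‖w‖ = 2 → ‖Q.eval w‖ ≤ M) (k : ℕ) :
    ‖Q.coeff k‖ ≤ M * (1 / 2) ^ k := by
  have h1 := Complex.norm_iteratedDeriv_le_of_forall_mem_sphere_norm_le (n := k) (c := 0) (R := 2) (C := M)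
    (f := fun w => Q.eval w) (by norm_num)
    (Differentiable.diffContOnCl Q.differentiable)
    (fun z hz => h z (by simpa using hz))
  rw [iter_deriv] at h1
  have h2 : (derivative^[k] Q).eval 0 = (k.factorial : ℂ) * Q.coeff k := by
    rw [← coeff_zero_eq_eval_zero, coeff_iterate_derivative]
    simp [Nat.descFactorial_self]
  simp only [h2] at h1
  rw [norm_mul, Complex.norm_natCast] at h1
  have h3 : (0:ℝ) < k.factorial := by exact_mod_cast k.factorial_pos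
  have h4 : (k.factorial : ℝ) * ‖Q.coeff k‖ ≤ k.factorial * (M * (1/2)^k) := by
    calc (k.factorial : ℝ) * ‖Q.coeff k‖ ≤ k.factorial * M / 2 ^ k := h1
      _ = _ := by rw [one_div, inv_pow]; ring
  exact le_of_mul_le_mul_left h4 h3

lemma geo (K m : ℕ) : ∑ k ∈ range m, ((1:ℝ) / 2) ^ (K + 1 + k) = (1/2)^K * (1 - (1/2)^m) := by
  induction m with
  | zero => simp
  | succ m ih =>
    rw [Finset.sum_range_succ, ih, pow_add, pow_add, pow_succ]
    ring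

lemma trunc_bd (P : Finset ℕ) (b : ℕ → ℂ) (K : ℕ) (M : ℝ)
    (h : ∀ w : ℂ, ‖w‖ = 2 → ‖∏ p ∈ P, (1 - w * b p)‖ ≤ M) :
    ‖(∑ S ∈ P.powerset.filter (fun S => S.card ≤ K), (-1 : ℂ) ^ S.card * ∏ p ∈ S, b p)
      - ∏ p ∈ P, (1 - b p)‖ ≤ (1/2)^K * M := by
  have hM : 0 ≤ M := le_trans (norm_nonneg _) (h 2 (by simp))
  have hb := coeff_bd (Qp P b) M (fun w hw => by rw [Qp_eval]; exact h w hw)
  have h1 : ∏ p ∈ P, (1 - b p) = (Qp P b).eval 1 := by rw [Qp_eval]; simp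
  have h2 : (Qp P b).eval 1 = ∑ k ∈ range ((K + 1) + ((Qp P b).natDegree + 1)), (Qp P b).coeff k := by
    rw [eval_eq_sum_range' (n := (K + 1) + ((Qp P b).natDegree + 1)) (by omega)]
    simp
  rw [Qp_trunc, h1, h2, Finset.sum_range_add _ (K + 1) ((Qp P b).natDegree + 1), sub_add_cancel_left, norm_neg]
  calc ‖∑ k ∈ range ((Qp P b).natDegree + 1), (Qp P b).coeff (K + 1 + k)‖
      ≤ ∑ k ∈ range ((Qp P b).natDegree + 1), ‖(Qp P b).coeff (K + 1 + k)‖ := norm_sum_le _ _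
    _ ≤ ∑ k ∈ range ((Qp P b).natDegree + 1), M * (1/2)^(K + 1 + k) :=
        Finset.sum_le_sum (fun k _ => hb _)
    _ = M * ((1/2)^K * (1 - (1/2)^((Qp P b).natDegree + 1))) := by rw [← Finset.mul_sum, geo]
    _ ≤ (1/2)^K * M := by
        have h5 : (0:ℝ) ≤ (1/2)^((Qp P b).natDegree + 1) := by positivity
        have h6 : (0:ℝ) ≤ (1/2)^K := by positivity
        nlinarith [mul_nonneg (mul_nonneg hM h6) h5]

lemma sq_bd (p : ℕ) (hp : 0 < p) (s : ℂ) (hs : 1/2 ≤ s.re) : ‖(p:ℂ)^(-s)‖ ^ 2 ≤ 1 / (p:ℝ) := by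
  rw [Complex.norm_natCast_cpow_of_pos hp]
  have h1 : (1:ℝ) ≤ p := by exact_mod_cast hp
  rw [← Real.rpow_natCast, ← Real.rpow_mul (by positivity)]
  calc (p:ℝ) ^ ((-s).re * ((2:ℕ):ℝ)) ≤ (p:ℝ) ^ (-1:ℝ) := by
        apply Real.rpow_le_rpow_of_exponent_le h1
        simp
        linarith
    _ = 1 / (p:ℝ) := by rw [Real.rpow_neg_one, one_div]

end gen

open Finset MonoidAlgebra Complex
open Pool.Agent.N748.GC Pool.Agent.N748.HM

lemma ec_MB (s : ℂ) (z : ℕ) (y : ℝ) (K : ℕ) :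
    ec s (MB z y K) = ∑ S ∈ ((PP z y).powerset).filter (fun S => S.card ≤ K),
      (-1 : ℂ) ^ S.card * ∏ p ∈ S, (p:ℂ) ^ (-s) := by
  unfold MB
  rw [map_sum]
  apply Finset.sum_congr rfl
  intro S _
  rw [ec_single]
  congr 1
  have h := map_prod (hsc s) (fun p : ℕ => p) S
  exact h

theorem main : S_INV := by
  intro z y K s a v hz hs ha hv
  rw [ec_MB]
  have hpos : ∀ p ∈ PP z y, 0 < p := by
    intro p hp
    unfold PP at hp
    exact (Finset.mem_filter.1 hp).2.pos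
  have hv2 : ∑ p ∈ PP z y, ‖(p:ℂ) ^ (-s)‖ ^ 2 ≤ v :=
    le_trans (Finset.sum_le_sum (fun p hp => sq_bd p (hpos p hp) s hs)) hv
  have hv0 : 0 ≤ v := le_trans (Finset.sum_nonneg (fun p _ => by positivity)) hv2
  have h := trunc_bd (PP z y) (fun p => (p:ℂ) ^ (-s)) K (Real.exp (2 * a + 3 * v))
    (fun w hw => le_trans (prod_bd (PP z y) (fun p => (p:ℂ) ^ (-s)) w hw a v ha hv2)
      (Real.exp_le_exp.2 (by linarith)))
  exact h

end Pool.Agent.N748.HM.INV
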