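import Pool.Agent.N748.HM.Stm
import Pool.Agent.N748.GC.KAP

set_option autoImplicit false

/-!
# HM/KAP3: the correlations are close to `1` on average, all exponents
-/

namespace Pool.Agent.N748.HM.KAP3

open Finset Filter MeasureTheory Topology Complex
open Pool.Agent.N748.GC
open Pool.Agent.N748.GC.KAP (lower cont_rhs cont_lhs)

theorem main (hZ : S_ZML3) (hM : S_MER) : S_KAP3 := by
  obtain ⟨C, hC, hM⟩ := hM
  intro α hα0
  set q : ℝ := 2 * α ^ 2 with hq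
  have hq0 : 0 ≤ q := by positivity
  obtain ⟨Q, hQ⟩ : ∃ Q : ℝ, Q = q + 1 := ⟨_, rfl⟩
  have hQ0 : 0 ≤ Q := by rw [hQ]; linarith
  have hqQ : q ≤ Q := by rw [hQ]; linarith
  obtain ⟨C', hC', hZ⟩ := hZ Q hQ0
  refine ⟨2 * C' + 4 * Q, by positivity, max 144 ⌈4 * Q⌉₊, ?_⟩
  intro z hz'
  have hz : 144 ≤ z := (le_max_left _ _).trans hz'
  have hzQ : 4 * Q ≤ z := by
    have h1 : ⌈4 * Q⌉₊ ≤ z := (le_max_right _ _).trans hz'
    exact (Nat.le_ceil _).trans (by exact_mod_cast h1)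
  obtain ⟨H0, hH0, hZ⟩ := hZ z (by omega)
  have hl2 : 0 < Real.log 2 := Real.log_pos (by norm_num)
  set A : ℝ := 4 * (Real.log 2 + C / Real.log 2) with hA
  have hA0 : 0 < A := by positivity
  have hind : ∀ (Y z : ℕ) (δ : ℝ), 0 < δ → 2 ≤ z → 1 / 4 ≤ δ * Real.log z →
      ∑ p ∈ (Icc z Y).filter Nat.Prime, wd δ p ≤ A * Real.exp (-(δ * Real.log z)) :=
    fun Y z δ hδ hz hd => TAIL.ind hC hM Y δ hδ _ z rfl hz hd
  have hzR : (144:ℝ) ≤ z := by exact_mod_cast hz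
  have hz0 : (0:ℝ) < z := by linarith
  refine ⟨H0, max 1 (Real.log (A * z)), hH0, le_max_left _ _, ?_⟩
  intro H hH δ hδ hδ1 y J hzy hJ hlam
  have hAl : A * Real.exp (-(max 1 (Real.log (A * z)))) ≤ 1 / z := by
    have h1 : Real.exp (-(max 1 (Real.log (A * z)))) ≤ (A * z)⁻¹ := by
      rw [← Real.exp_log (inv_pos.2 (mul_pos hA0 hz0)), Real.log_inv]
      exact Real.exp_le_exp.2 (neg_le_neg (le_max_right _ _))
    refine (mul_le_mul_of_nonneg_left h1 hA0.le).trans (le_of_eq ?_)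
    rw [mul_inv, ← mul_assoc, mul_inv_cancel₀ hA0.ne', one_mul, one_div]
  have hy1 : 1 ≤ y := by linarith
  set E : ℝ := Real.exp (2 * Q / z) with hE
  have hQz : 0 ≤ 2 * Q / (z:ℝ) := by positivity
  have hE1 : 1 ≤ E := Real.one_le_exp hQz
  have hQ2 : 2 * Q / (z:ℝ) ≤ 1 / 2 := by
    rw [div_le_iff₀ hz0]; linarith
  have hE2 : E ≤ 1 + 4 * Q / z := by
    have h1 := Real.one_sub_le_exp_neg (2 * Q / (z:ℝ))
    rw [Real.exp_neg] at h1
    have h3 : 0 < 1 - 2 * Q / (z:ℝ) := by linarith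
    have h4 : E ≤ (1 - 2 * Q / (z:ℝ))⁻¹ := by
      have := inv_anti₀ h3 h1
      rwa [inv_inv] at this
    refine h4.trans ?_
    rw [inv_le_iff_one_le_mul₀ h3]
    have h5 : 4 * Q / (z:ℝ) = 2 * (2 * Q / z) := by ring
    rw [h5]
    nlinarith
  have hE3 : E ≤ 2 := by
    have h2 : 4 * Q / (z:ℝ) ≤ 1 := by
      rw [div_le_iff₀ hz0]; linarith
    linarith
  have hpt : ∀ h : ℝ, max (KX α z y J δ h - 1) 0 ≤
      E * max (‖riemannZeta (1 + 2 * δ + h * I) *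
        ∏ p ∈ Sm z, (1 - (p:ℂ) ^ (-(1 + 2 * δ + h * I : ℂ)))‖ ^ q - 1) 0 + (E - 1) := by
    intro h
    have h1 := lower hA0 hind (by omega) hδ hzy (le_max_left 1 (Real.log (A * z))) hAl hlam h
    set X : ℝ := ‖riemannZeta (1 + 2 * δ + h * I) *
        ∏ p ∈ Sm z, (1 - (p:ℂ) ^ (-(1 + 2 * δ + h * I : ℂ)))‖ with hX
    set S : ℝ := ∑ p ∈ (Icc z ⌊y⌋₊).filter Nat.Prime, Real.cos (h * Real.log p) * wd δ p with hS
    have h2 : KX α z y J δ h = Real.exp (q * S) := by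
      unfold KX
      rw [← hq]
      congr 2
      have := TWO.sum_low hz hy1 (fun p => Real.cos (h * Real.log p) * wd δ p) (Nat.zero_le J) hJ
      rw [TWO.be_zero hy1] at this
      rw [hS, ← this, Finset.range_eq_Ico]
    have h3 : KX α z y J δ h ≤ E * X ^ q := by
      have h4 : Real.exp (S - 2 / z) ^ q ≤ X ^ q :=
        Real.rpow_le_rpow (Real.exp_pos _).le h1 hq0
      rw [← Real.exp_mul] at h4
      have h5 : Real.exp (q * S) ≤ E * Real.exp ((S - 2 / z) * q) := by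
        rw [hE, ← Real.exp_add]
        apply Real.exp_le_exp.2
        have h6 : 2 * Q / (z:ℝ) = 2 / z * Q := by ring
        have h7 : (2:ℝ) / z * q ≤ 2 / z * Q := mul_le_mul_of_nonneg_left hqQ (by positivity)
        rw [h6]
        nlinarith
      rw [h2]
      exact h5.trans (mul_le_mul_of_nonneg_left h4 (by linarith))
    have h4 : X ^ q - 1 ≤ max (X ^ q - 1) 0 := le_max_left _ _
    have h5 : 0 ≤ max (X ^ q - 1) 0 := le_max_right _ _
    apply max_le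
    · have h6 : E * (X ^ q - 1) ≤ E * max (X ^ q - 1) 0 :=
        mul_le_mul_of_nonneg_left h4 (by linarith)
      nlinarith
    · have h6 : 0 ≤ E * max (X ^ q - 1) 0 := mul_nonneg (by linarith) h5
      linarith
  have hH1 : (1:ℝ) ≤ H := hH0.trans hH
  have hint1 := (cont_lhs α z y J δ).intervalIntegrable (μ := volume) 1 H
  have hc2 := cont_rhs z hδ hq0
  have hc4 : Continuous fun h : ℝ => E * max (‖riemannZeta (1 + 2 * δ + h * I) *
        ∏ p ∈ Sm z, (1 - (p:ℂ) ^ (-(1 + 2 * δ + h * I : ℂ)))‖ ^ q - 1) 0 :=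
    continuous_const.mul hc2
  have hc3 : Continuous fun h : ℝ => E * max (‖riemannZeta (1 + 2 * δ + h * I) *
        ∏ p ∈ Sm z, (1 - (p:ℂ) ^ (-(1 + 2 * δ + h * I : ℂ)))‖ ^ q - 1) 0 + (E - 1) :=
    hc4.add continuous_const
  have hint2 := hc3.intervalIntegrable (μ := volume) 1 H
  have h1 := intervalIntegral.integral_mono_on hH1 hint1 hint2 (fun h _ => hpt h)
  refine h1.trans ?_
  have h2 : ∫ h in (1:ℝ)..H, (E * max (‖riemannZeta (1 + 2 * δ + h * I) *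
        ∏ p ∈ Sm z, (1 - (p:ℂ) ^ (-(1 + 2 * δ + h * I : ℂ)))‖ ^ q - 1) 0 + (E - 1)) =
      E * (∫ h in (1:ℝ)..H, max (‖riemannZeta (1 + 2 * δ + h * I) *
        ∏ p ∈ Sm z, (1 - (p:ℂ) ^ (-(1 + 2 * δ + h * I : ℂ)))‖ ^ q - 1) 0) + (H - 1) * (E - 1) := by
    rw [intervalIntegral.integral_add (hc4.intervalIntegrable _ _)
      (continuous_const.intervalIntegrable _ _), intervalIntegral.integral_const_mul,
      intervalIntegral.integral_const, smul_eq_mul]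
  rw [h2]
  have h3 := hZ H hH δ hδ hδ1 q hq0 hqQ
  have hr1 : (z:ℝ) ^ (-(1 / 2 : ℝ)) ≤ (z:ℝ) ^ (-(1 / 4 : ℝ)) :=
    Real.rpow_le_rpow_of_exponent_le (by linarith) (by norm_num)
  have hr2 : 1 / (z:ℝ) ≤ (z:ℝ) ^ (-(1 / 4 : ℝ)) := by
    rw [one_div, ← Real.rpow_neg_one]
    exact Real.rpow_le_rpow_of_exponent_le (by linarith) (by norm_num)
  have hr0 : 0 < (z:ℝ) ^ (-(1 / 4 : ℝ)) := Real.rpow_pos_of_pos hz0 _
  have h4 : E * (∫ h in (1:ℝ)..H, max (‖riemannZeta (1 + 2 * δ + h * I) *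
        ∏ p ∈ Sm z, (1 - (p:ℂ) ^ (-(1 + 2 * δ + h * I : ℂ)))‖ ^ q - 1) 0) ≤
      2 * C' * (z:ℝ) ^ (-(1 / 4 : ℝ)) * H := by
    calc _ ≤ E * (C' * (z:ℝ) ^ (-(1 / 2 : ℝ)) * H) := mul_le_mul_of_nonneg_left h3 (by linarith)
      _ ≤ 2 * (C' * (z:ℝ) ^ (-(1 / 4 : ℝ)) * H) := by
          refine mul_le_mul hE3 ?_ (by positivity) (by norm_num)
          exact mul_le_mul_of_nonneg_right (mul_le_mul_of_nonneg_left hr1 hC'.le) (by linarith)
      _ = _ := by ring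
  have h5 : (H - 1) * (E - 1) ≤ 4 * Q * (z:ℝ) ^ (-(1 / 4 : ℝ)) * H := by
    have e1 : E - 1 ≤ 4 * Q * (z:ℝ) ^ (-(1 / 4 : ℝ)) := by
      have e2 : 4 * Q / (z:ℝ) = 4 * Q * (1 / z) := by ring
      have e3 : 4 * Q * (1 / (z:ℝ)) ≤ 4 * Q * (z:ℝ) ^ (-(1 / 4 : ℝ)) :=
        mul_le_mul_of_nonneg_left hr2 (by positivity)
      rw [e2] at hE2
      linarith
    calc (H - 1) * (E - 1) ≤ H * (4 * Q * (z:ℝ) ^ (-(1 / 4 : ℝ))) :=
          mul_le_mul (by linarith) e1 (by linarith) (by linarith)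
      _ = _ := by ring
  calc _ ≤ 2 * C' * (z:ℝ) ^ (-(1 / 4 : ℝ)) * H + 4 * Q * (z:ℝ) ^ (-(1 / 4 : ℝ)) * H :=
        add_le_add h4 h5
    _ = _ := by ring

end Pool.Agent.N748.HM.KAP3
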