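import Pool.Agent.N748.HM.Stm
import Pool.Agent.N748.GC.LEN

set_option autoImplicit false

/-!
# Lengths and sizes of the polynomials, for all exponents
-/

namespace Pool.Agent.N748.HM.LEN3

open Finset Filter MeasureTheory MonoidAlgebra Topology Complex
open Pool.Agent.N748.GC Pool.Agent.N748.GC.MV Pool.Agent.N748.GC.LEN
open Pool.Agent.N748.HM

/-- the truncated exponential of a polynomial of length and size at most `b` -/
lemma Q_NKcA {z : ℕ} {b : ℝ} (hb : 1 ≤ b) {x : PC} (hx : Q (Sm z) b x) (K A : ℕ) {a : ℝ}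
    (h0 : 0 ≤ a) (h2 : a ≤ A) : Q (Sm z) (Real.exp A * b ^ K) (NKc K a x) := by
  have hbK : ∀ k ∈ range (K + 1), b ^ k ≤ b ^ K := fun k hk =>
    pow_le_pow_right₀ hb (by have := mem_range.1 hk; omega)
  have hbK0 : 0 ≤ b ^ K := by positivity
  have hA1 : 1 ≤ Real.exp (A:ℝ) := Real.one_le_exp (Nat.cast_nonneg _)
  constructor
  · unfold NKc
    refine Cop_sum _ fun k hk => Cop_smul _ ?_
    refine Cop_mono ?_ (Q_pow Sm_prime (by linarith) hx k).1
    have := hbK k hk
    nlinarith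
  · unfold NKc
    refine (lc1_sum _ _).trans ?_
    calc ∑ k ∈ range (K + 1), lc1 (((a ^ k / (k.factorial : ℝ) : ℝ) : ℂ) • x ^ k)
        ≤ ∑ k ∈ range (K + 1), a ^ k / (k.factorial : ℝ) * b ^ K := by
          refine sum_le_sum fun k hk => ?_
          refine (lc1_smul _ _).trans ?_
          rw [Complex.norm_real, Real.norm_of_nonneg (by positivity)]
          exact mul_le_mul_of_nonneg_left
            ((Q_pow Sm_prime (by linarith) hx k).2.trans (hbK k hk)) (by positivity)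
      _ = (∑ k ∈ range (K + 1), a ^ k / (k.factorial : ℝ)) * b ^ K := by rw [sum_mul]
      _ ≤ Real.exp A * b ^ K := mul_le_mul_of_nonneg_right
          ((Real.sum_le_exp_of_nonneg h0 (K + 1)).trans (Real.exp_le_exp.2 h2)) hbK0

/-- the factor of the block `i` -/
lemma Q_blockA {z Rs A : ℕ} {y : ℝ} {i : ℕ} (hA : A ≤ Rs) (hb : 10 ≤ be y i) {a : ℝ}
    (h0 : 0 ≤ a) (h2 : a ≤ A) :
    Q (Sm z) (Real.exp (Real.log y * ((1 / 4) ^ i * (45 * ((Rs : ℝ) + i)))))
      (NKc (20 * RB Rs i) a (xc (IB z y i))) := by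
  have hb1 : 1 ≤ be y i := by linarith
  refine Q_mono ?_ (Q_NKcA hb1 (Q_xc z y i) (20 * RB Rs i) A h0 h2)
  have e : Real.exp (Real.log y * ((1 / 4) ^ i * (45 * ((Rs : ℝ) + i)))) = be y i ^ (45 * (Rs + i)) := by
    rw [be_pow]; push_cast; ring_nf
  rw [e, show 45 * (Rs + i) = 5 * (Rs + i) + 20 * RB Rs i by unfold RB; ring, pow_add]
  refine mul_le_mul_of_nonneg_right ?_ (by positivity)
  have h1 : Real.exp 1 ≤ be y i := by
    have := Real.exp_one_lt_d9
    linarith
  calc Real.exp (A:ℝ) = Real.exp 1 ^ A := by rw [← Real.exp_nat_mul, mul_one]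
    _ ≤ be y i ^ A := pow_le_pow_left₀ (Real.exp_pos _).le h1 A
    _ ≤ be y i ^ (5 * (Rs + i)) := pow_le_pow_right₀ hb1 (by omega)

/-- lengths and sizes -/
theorem main : S_LEN3 := by
  intro A z J Rs y hz hy hR hAR hb
  have hly : 0 ≤ Real.log y := Real.log_nonneg hy
  refine ⟨fun a ha j hj => ?_, fun i hi => ?_⟩
  · have h := Q_prod (P := Sm z) Sm_prime (Ico j J)
      (N := fun i => Real.exp (Real.log y * ((1 / 4) ^ i * (45 * ((Rs : ℝ) + i)))))
      (f := fun i => NKc (20 * RB Rs i) (a i) (xc (IB z y i)))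
      (fun i _ => (Real.exp_pos _).le)
      (fun i hi => Q_blockA hAR (hb i (mem_Ico.1 hi).2) (ha i).1 (ha i).2)
    have h2 := Q_mono (M := Real.exp (Real.log y * (90 * ((Rs:ℝ) + 1)))) (by
      rw [← Real.exp_sum, ← mul_sum, Real.exp_le_exp]
      exact mul_le_mul_of_nonneg_left (geo_le (Nat.cast_nonneg _) j J) hly) h
    exact h2
  · have hbi := hb i hi
    have h := Q_pow (P := Sm z) Sm_prime (by linarith) (Q_xc z y i) (RB Rs i)
    have hRB : (1 : ℝ) ≤ RB Rs i := by
      have : 1 ≤ RB Rs i := by unfold RB; omega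
      exact_mod_cast this
    have hARB : (A : ℝ) ≤ RB Rs i := by
      have : A ≤ RB Rs i := by unfold RB; omega
      exact_mod_cast this
    have hle : be y i ^ RB Rs i ≤ Real.exp (Real.log y * (90 * ((Rs:ℝ) + 1))) := by
      rw [be_pow, Real.exp_le_exp]
      refine mul_le_mul_of_nonneg_left ?_ hly
      have h1 := geo_le (R := (Rs : ℝ)) (Nat.cast_nonneg _) i (i + 1)
      rw [Nat.Ico_succ_singleton, sum_singleton] at h1
      refine le_trans ?_ h1
      refine mul_le_mul_of_nonneg_left ?_ (by positivity)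
      unfold RB
      push_cast
      have : (0 : ℝ) ≤ Rs := Nat.cast_nonneg _
      have : (0 : ℝ) ≤ i := Nat.cast_nonneg _
      linarith
    have hQ := Q_mono hle h
    unfold QA
    refine ⟨Cop_smul _ hQ.1, (lc1_smul _ _).trans ?_⟩
    rw [Complex.norm_real, Real.norm_of_nonneg (by positivity)]
    have h1 : ((A:ℝ) / (RB Rs i : ℝ)) ^ (RB Rs i) ≤ 1 :=
      pow_le_one₀ (by positivity) (by rw [div_le_one (by linarith)]; exact hARB)
    calc ((A:ℝ) / (RB Rs i : ℝ)) ^ (RB Rs i) * lc1 (xc (IB z y i) ^ RB Rs i)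
        ≤ 1 * lc1 (xc (IB z y i) ^ RB Rs i) := mul_le_mul_of_nonneg_right h1 (lc1_nonneg _)
      _ ≤ _ := by rw [one_mul]; exact hQ.2

end Pool.Agent.N748.HM.LEN3
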