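import Pool.Agent.N748.HM.Stm
import Pool.Agent.N748.GC.MVW

set_option autoImplicit false

/-!
# Mean values on the line `1` of long polynomials with small coefficients, all exponents (helper40)
-/

namespace Pool.Agent.N748.HM.MVW3

open Finset Filter MeasureTheory MonoidAlgebra Topology Complex Pool.Agent.N748.GC
open Pool.Agent.N748.GC.MV
open Pool.Agent.N748.GC.MVW (log_gap' harm off)

/-- The size of one off-diagonal term. -/
lemma pair_le {ε : ℝ} (hε : 0 < ε) {A M : ℝ} (hM : 1 ≤ M) {m n : ℕ} (hm : m ≠ 0) (h : m < n)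
    (hnM : (n : ℝ) ≤ M) {x y : ℝ} (hx0 : 0 ≤ x) (hy0 : 0 ≤ y)
    (hx : x ≤ A * (m : ℝ) ^ ε / m) (hy : y ≤ A * (n : ℝ) ^ ε / n)
    {L : ℝ} (hL : ((n : ℝ) - m) / n ≤ L) :
    x * y * (2 / L) ≤ 2 * A ^ 2 * M ^ (2 * ε) * (1 / (m : ℝ) * (1 / ((n : ℝ) - m))) := by
  have hm' : (0 : ℝ) < m := by exact_mod_cast Nat.pos_of_ne_zero hm
  have hmn : (m : ℝ) < n := by exact_mod_cast h
  have hn' : (0 : ℝ) < n := hm'.trans hmn
  have hd : 0 < (n : ℝ) - m := sub_pos.2 hmn
  have hL0 : 0 < L := lt_of_lt_of_le (by positivity) hL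
  have h1 : 2 / L ≤ 2 * (n / ((n : ℝ) - m)) := by
    rw [div_le_iff₀ hL0]
    have h2 := mul_le_mul_of_nonneg_left hL (by positivity : (0 : ℝ) ≤ n / ((n : ℝ) - m))
    have h3 : (n : ℝ) / (n - m) * ((n - m) / n) = 1 := by
      field_simp
    nlinarith
  have h2 : x * y ≤ (A * (m : ℝ) ^ ε / m) * (A * (n : ℝ) ^ ε / n) :=
    mul_le_mul hx hy hy0 (hx0.trans hx)
  have h3 : (m : ℝ) ^ ε * (n : ℝ) ^ ε ≤ M ^ (2 * ε) := by
    have e1 : M ^ (2 * ε) = M ^ ε * M ^ ε := by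
      rw [← Real.rpow_add (by linarith)]
      congr 1
      ring
    rw [e1]
    exact mul_le_mul (Real.rpow_le_rpow hm'.le (hmn.le.trans hnM) hε.le)
      (Real.rpow_le_rpow hn'.le hnM hε.le) (by positivity) (by positivity)
  calc x * y * (2 / L) ≤ ((A * (m : ℝ) ^ ε / m) * (A * (n : ℝ) ^ ε / n)) *
        (2 * (n / ((n : ℝ) - m))) :=
        mul_le_mul h2 h1 (by positivity) ((mul_nonneg hx0 hy0).trans h2)
    _ = 2 * A ^ 2 * ((m : ℝ) ^ ε * (n : ℝ) ^ ε) *
        (1 / (m : ℝ) * (1 / ((n : ℝ) - m))) := by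
        field_simp
    _ ≤ _ := by
        refine mul_le_mul_of_nonneg_right ?_ (by positivity)
        exact mul_le_mul_of_nonneg_left h3 (by positivity)

theorem main : S_MVW3 := by
  classical
  intro ε hε hε2
  obtain ⟨K, hK⟩ : ∃ K : ℝ, K = 1 + 1 / ε := ⟨_, rfl⟩
  have hK0 : 0 < K := by rw [hK]; positivity
  refine ⟨4 * K ^ 2, by positivity, ?_⟩
  intro A M H δ D hA hM hH hδ hS hD
  set S := D.coeff.support with hSd
  set a : ℕ → ℂ := fun n => D.coeff n * (n : ℂ) ^ (-(1 / 2 + δ : ℂ)) with ha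
  have hn0 : ∀ n ∈ S, n ≠ 0 := fun n hn => (hS n hn).1
  have hnorm : ∀ n ∈ S, ‖a n‖ = ‖D.coeff n‖ * (n : ℝ) ^ (-(1 / 2 + δ)) := by
    intro n hn
    simp only [ha]
    rw [norm_mul, Complex.norm_natCast_cpow_of_pos (Nat.pos_of_ne_zero (hn0 n hn))]
    congr 2
    simp
  have hale : ∀ n ∈ S, ‖a n‖ ≤ A * (n : ℝ) ^ ε / n := by
    intro n hn
    have h1 : (1 : ℝ) ≤ n := by exact_mod_cast Nat.one_le_iff_ne_zero.2 (hn0 n hn)
    have h2 : (n : ℝ) ^ (-(1 / 2 + δ)) ≤ 1 / n := by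
      have e : (1 : ℝ) / n = (n : ℝ) ^ (-1 : ℝ) := by rw [Real.rpow_neg_one, one_div]
      rw [e]
      exact Real.rpow_le_rpow_of_exponent_le h1 (by linarith)
    rw [hnorm n hn]
    calc ‖D.coeff n‖ * (n : ℝ) ^ (-(1 / 2 + δ)) ≤ (A * (n : ℝ) ^ ε) * (1 / n) :=
          mul_le_mul (hD n) h2 (by positivity) (by positivity)
      _ = _ := by ring
  have hsq : ∀ n ∈ S, ‖a n‖ ^ 2 = ‖D.coeff n‖ ^ 2 * wd δ n := by
    intro n hn
    have h0 : (0 : ℝ) < n := by exact_mod_cast Nat.pos_of_ne_zero (hn0 n hn)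
    rw [hnorm n hn, mul_pow]
    congr 1
    unfold wd
    have h1 : (1 : ℝ) / n = (n : ℝ) ^ (-1 : ℝ) := by rw [Real.rpow_neg_one, one_div]
    rw [h1, ← Real.rpow_natCast, ← Real.rpow_mul h0.le, ← Real.rpow_add h0]
    congr 1
    push_cast
    ring
  have hec : ∀ t : ℝ, ec (1 / 2 + δ + t * I) D =
      ∑ n ∈ S, a n * Complex.exp (-((Real.log n : ℝ) : ℂ) * I * t) := by
    intro t
    rw [ec_apply]
    refine sum_congr rfl fun n hn => ?_
    have hnc : (n : ℂ) ≠ 0 := by exact_mod_cast hn0 n hn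
    simp only [ha]
    rw [mul_assoc]
    congr 1
    have e1 : -(1 / 2 + (δ : ℂ) + t * I) = -(1 / 2 + (δ : ℂ)) + -(t * I) := by ring
    rw [e1, Complex.cpow_add _ _ hnc]
    congr 1
    rw [Complex.cpow_def_of_ne_zero hnc, Complex.natCast_log]
    congr 1
    ring
  -- the integrand
  have hint : ∀ t : ℝ, ((‖ec (1 / 2 + δ + t * I) D‖ ^ 2 : ℝ) : ℂ) =
      ∑ m ∈ S, ∑ n ∈ S, a m * (starRingEnd ℂ) (a n) *
        Complex.exp (((Real.log n - Real.log m : ℝ) : ℂ) * I * t) := by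
    intro t
    have e1 : ((‖ec (1 / 2 + δ + t * I) D‖ ^ 2 : ℝ) : ℂ) =
        ec (1 / 2 + δ + t * I) D * (starRingEnd ℂ) (ec (1 / 2 + δ + t * I) D) := by
      rw [Complex.mul_conj, Complex.normSq_eq_norm_sq]
    rw [e1, hec, map_sum, sum_mul_sum]
    refine sum_congr rfl fun m _ => ?_
    refine sum_congr rfl fun n _ => ?_
    rw [map_mul, ← Complex.exp_conj]
    have e2 : (starRingEnd ℂ) (-((Real.log n : ℝ) : ℂ) * I * t) = ((Real.log n : ℝ) : ℂ) * I * t := by
      rw [map_mul, map_mul, map_neg, Complex.conj_ofReal, Complex.conj_ofReal, Complex.conj_I]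
      ring
    rw [e2]
    have e3 : ((Real.log n - Real.log m : ℝ) : ℂ) * I * t =
        -((Real.log m : ℝ) : ℂ) * I * t + ((Real.log n : ℝ) : ℂ) * I * t := by
      push_cast; ring
    rw [e3, Complex.exp_add]
    ring
  set lam : ℕ → ℕ → ℝ := fun m n => Real.log n - Real.log m with hlam
  have hI : (((∫ t in (0:ℝ)..H, ‖ec (1 / 2 + δ + t * I) D‖ ^ 2 : ℝ)) : ℂ) =
      ∑ m ∈ S, ∑ n ∈ S, a m * (starRingEnd ℂ) (a n) *
        ∫ t in (0:ℝ)..H, Complex.exp ((lam m n : ℂ) * I * t) := by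
    rw [← intervalIntegral.integral_ofReal]
    simp only [hint]
    rw [intervalIntegral.integral_finsetSum]
    · refine sum_congr rfl fun m _ => ?_
      rw [intervalIntegral.integral_finsetSum]
      · refine sum_congr rfl fun n _ => ?_
        rw [intervalIntegral.integral_const_mul]
      · intro n _
        apply Continuous.intervalIntegrable
        fun_prop
    · intro m _
      apply Continuous.intervalIntegrable
      fun_prop
  set c : ℝ := 2 * A ^ 2 * M ^ (2 * ε) with hc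
  have hc0 : 0 ≤ c := by positivity
  -- one term
  have hterm : ∀ m ∈ S, ∀ n ∈ S,
      ‖a m * (starRingEnd ℂ) (a n) * (∫ t in (0:ℝ)..H, Complex.exp ((lam m n : ℂ) * I * t)) -
        (if m = n then ((H * ‖a m‖ ^ 2 : ℝ) : ℂ) else 0)‖ ≤
      c * (if m < n then 1 / (m : ℝ) * (1 / ((n : ℝ) - m)) else 0) +
        c * (if n < m then 1 / (n : ℝ) * (1 / ((m : ℝ) - n)) else 0) := by
    intro m hm n hn
    rcases lt_trichotomy m n with h | h | h
    · rw [if_neg h.ne, sub_zero, if_pos h, if_neg (by omega), mul_zero, add_zero, norm_mul,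
        norm_mul, Complex.norm_conj]
      have h3 := log_gap' (hn0 m hm) h
      have hm' : (0 : ℝ) < m := by exact_mod_cast Nat.pos_of_ne_zero (hn0 m hm)
      have hmn : (m : ℝ) < n := by exact_mod_cast h
      have hn' : (0 : ℝ) < n := hm'.trans hmn
      have h4 : 0 < |lam m n| := lt_of_lt_of_le (div_pos (sub_pos.2 hmn) hn') h3
      have h5 := int_exp (lam m n) 0 H (abs_pos.1 h4)
      refine (mul_le_mul_of_nonneg_left h5 (by positivity)).trans ?_
      exact pair_le hε hM (hn0 m hm) h (hS n hn).2 (norm_nonneg _) (norm_nonneg _) (hale m hm)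
        (hale n hn) h3
    · subst h
      rw [if_pos rfl, if_neg (by omega), mul_zero, add_zero]
      have h4 : (∫ t in (0:ℝ)..H, Complex.exp ((lam m m : ℂ) * I * t)) = ((H : ℝ) : ℂ) := by
        simp [hlam]
      rw [h4]
      have h5 : a m * (starRingEnd ℂ) (a m) * ((H : ℝ) : ℂ) -
          ((H * ‖a m‖ ^ 2 : ℝ) : ℂ) = 0 := by
        rw [Complex.mul_conj, Complex.normSq_eq_norm_sq]
        push_cast
        ring
      rw [h5, norm_zero]
    · rw [if_neg h.ne', sub_zero, if_pos h, if_neg (by omega), mul_zero, zero_add, norm_mul,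
        norm_mul, Complex.norm_conj]
      have h3 := log_gap' (hn0 n hn) h
      rw [abs_sub_comm] at h3
      have hn' : (0 : ℝ) < n := by exact_mod_cast Nat.pos_of_ne_zero (hn0 n hn)
      have hmn : (n : ℝ) < m := by exact_mod_cast h
      have hm' : (0 : ℝ) < m := hn'.trans hmn
      have h4 : 0 < |lam m n| := lt_of_lt_of_le (div_pos (sub_pos.2 hmn) hm') h3
      have h5 := int_exp (lam m n) 0 H (abs_pos.1 h4)
      refine (mul_le_mul_of_nonneg_left h5 (by positivity)).trans ?_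
      rw [mul_comm ‖a m‖]
      exact pair_le hε hM (hn0 n hn) h (hS m hm).2 (norm_nonneg _) (norm_nonneg _) (hale n hn)
        (hale m hm) h3
  -- the diagonal
  have hdiag : ((H * nn δ D : ℝ) : ℂ) =
      ∑ m ∈ S, ∑ n ∈ S, (if m = n then ((H * ‖a m‖ ^ 2 : ℝ) : ℂ) else 0) := by
    rw [nn, mul_sum, Complex.ofReal_sum]
    refine sum_congr rfl fun m hm => ?_
    rw [Finset.sum_ite_eq, if_pos hm, hsq m hm]
  have hoff := off S M hM hS
  have hmain : ‖(((∫ t in (0:ℝ)..H, ‖ec (1 / 2 + δ + t * I) D‖ ^ 2 : ℝ)) : ℂ) -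
      ((H * nn δ D : ℝ) : ℂ)‖ ≤ 2 * (c * (1 + Real.log M) ^ 2) := by
    rw [hI, hdiag, ← sum_sub_distrib]
    simp only [← sum_sub_distrib]
    calc ‖∑ m ∈ S, ∑ n ∈ S, (a m * (starRingEnd ℂ) (a n) *
          (∫ t in (0:ℝ)..H, Complex.exp ((lam m n : ℂ) * I * t)) -
          (if m = n then ((H * ‖a m‖ ^ 2 : ℝ) : ℂ) else 0))‖
        ≤ ∑ m ∈ S, ∑ n ∈ S, (c * (if m < n then 1 / (m : ℝ) * (1 / ((n : ℝ) - m)) else 0) +
            c * (if n < m then 1 / (n : ℝ) * (1 / ((m : ℝ) - n)) else 0)) :=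
          (norm_sum_le _ _).trans (sum_le_sum fun m hm => (norm_sum_le _ _).trans
            (sum_le_sum fun n hn => hterm m hm n hn))
      _ = c * (∑ m ∈ S, ∑ n ∈ S, (if m < n then 1 / (m : ℝ) * (1 / ((n : ℝ) - m)) else 0)) +
          c * (∑ m ∈ S, ∑ n ∈ S, (if n < m then 1 / (n : ℝ) * (1 / ((m : ℝ) - n)) else 0)) := by
          simp only [sum_add_distrib, mul_sum]
      _ = 2 * (c * (∑ m ∈ S, ∑ n ∈ S, (if m < n then 1 / (m : ℝ) * (1 / ((n : ℝ) - m)) else 0))) := by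
          rw [sum_comm (s := S) (t := S)
            (f := fun m n => if n < m then 1 / (n : ℝ) * (1 / ((m : ℝ) - n)) else 0)]
          ring
      _ ≤ 2 * (c * (1 + Real.log M) ^ 2) := by
          have := mul_le_mul_of_nonneg_left hoff hc0
          linarith
  rw [← Complex.ofReal_sub, Complex.norm_real, Real.norm_eq_abs] at hmain
  have h1 := (abs_le.1 hmain).2
  have h2 : 1 + Real.log M ≤ K * M ^ ε := by
    have h3 := Real.log_le_rpow_div (by linarith : (0:ℝ) ≤ M) hε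
    have h4 : 1 ≤ M ^ ε := Real.one_le_rpow hM hε.le
    have h5 : K * M ^ ε = M ^ ε + M ^ ε / ε := by rw [hK]; ring
    linarith
  have hl : 0 ≤ 1 + Real.log M := by
    have := Real.log_nonneg hM
    linarith
  have h3 : (1 + Real.log M) ^ 2 ≤ K ^ 2 * M ^ (2 * ε) := by
    have e1 : M ^ (2 * ε) = M ^ ε * M ^ ε := by
      rw [← Real.rpow_add (by linarith)]
      congr 1
      ring
    rw [e1]
    calc (1 + Real.log M) ^ 2 ≤ (K * M ^ ε) ^ 2 := pow_le_pow_left₀ hl h2 2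
      _ = _ := by ring
  have h4 : c * (1 + Real.log M) ^ 2 ≤ 2 * K ^ 2 * A ^ 2 * M ^ (4 * ε) := by
    have e1 : M ^ (4 * ε) = M ^ (2 * ε) * M ^ (2 * ε) := by
      rw [← Real.rpow_add (by linarith)]
      congr 1
      ring
    rw [e1, hc]
    calc 2 * A ^ 2 * M ^ (2 * ε) * (1 + Real.log M) ^ 2
        ≤ 2 * A ^ 2 * M ^ (2 * ε) * (K ^ 2 * M ^ (2 * ε)) :=
          mul_le_mul_of_nonneg_left h3 (by positivity)
      _ = _ := by ring
  linarith

end Pool.Agent.N748.HM.MVW3
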