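import Pool.Agent.N748.HM.Stm
import Pool.Agent.N748.GC.NNB

set_option autoImplicit false

/-!
# HM/NNB3: the mean squares of products over the blocks at two points, for all exponents (helper407)

The proof of `Pool/Agent/N748/GC/NNB.lean` with an arbitrary bound `A` for the exponents.
-/

namespace Pool.Agent.N748.HM.NNB3

open Finset MonoidAlgebra
open Pool.Agent.N748.GC
open Pool.Agent.N748.GC.NNB (IB_prime IB_disj Su_NKc Su_xc Su_sf_xc BP_mul sum_exp_le)

theorem main (h : S_BLK3) : S_NNB3 := by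
  intro c hc A
  obtain ⟨C, R0, hC, hblk⟩ := h c hc A
  refine ⟨4 * C, R0, by positivity, ?_⟩
  intro z J Rs y _ hy hR0 hRs hsum δ hδ a b ha hb h
  have hsu : ∀ i, BLK.Su (Mo (IB z y i)) (NKc (20 * RB Rs i) (a i) (xc (IB z y i)) *
      sf h (NKc (20 * RB Rs i) (b i) (xc (IB z y i)))) := by
    intro i
    have hp : ∀ p ∈ IB z y i, p.Prime := fun p hp => IB_prime hp
    rw [BLK.sf_NKc]
    exact (Su_NKc _ _ (Su_xc hp)).mul (Su_NKc _ _ (Su_sf_xc hp h)) fun m n hm hn => BLK.Mo.mul hm hn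
  rw [BP_mul, (Pool.Agent.N748.GC.NNB.nn_prod δ (IB z y) _ (fun i j hij => IB_disj z hy hij) hsu J).2]
  set S : ℕ → ℝ := fun i => ∑ p ∈ IB z y i,
    (a i ^ 2 + b i ^ 2 + 2 * a i * b i * Real.cos (h * Real.log p)) * wd δ p with hS
  have hstep : ∀ i ∈ range J, nn δ (NKc (20 * RB Rs i) (a i) (xc (IB z y i)) *
      sf h (NKc (20 * RB Rs i) (b i) (xc (IB z y i)))) ≤
      Real.exp (S i + 2 * C * Real.exp (-(RB Rs i : ℝ))) := by
    intro i hi
    have hR : R0 ≤ RB Rs i := by unfold RB; omega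
    have h1 := hblk (IB z y i) (RB Rs i) δ h (a i) (b i) (fun p hp => IB_prime hp)
      (hsum i (mem_range.1 hi)) hR hδ (ha i).1 (ha i).2 (hb i).1 (hb i).2
    refine h1.trans ?_
    rw [Real.exp_add]
    refine mul_le_mul_of_nonneg_left ?_ (Real.exp_pos _).le
    have h2 : 1 + C * Real.exp (-(RB Rs i : ℝ)) ≤ Real.exp (C * Real.exp (-(RB Rs i : ℝ))) := by
      have := Real.add_one_le_exp (C * Real.exp (-(RB Rs i : ℝ)))
      linarith
    have h3 : 0 ≤ 1 + C * Real.exp (-(RB Rs i : ℝ)) := by positivity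
    calc (1 + C * Real.exp (-(RB Rs i : ℝ))) ^ 2 ≤ Real.exp (C * Real.exp (-(RB Rs i : ℝ))) ^ 2 :=
          pow_le_pow_left₀ h3 h2 2
      _ = Real.exp (2 * C * Real.exp (-(RB Rs i : ℝ))) := by
          rw [← Real.exp_nat_mul]
          congr 1
          push_cast
          ring
  refine (prod_le_prod (fun i _ => NN.nn_nonneg δ _) hstep).trans ?_
  rw [← Real.exp_sum, Real.exp_le_exp, sum_add_distrib]
  refine add_le_add le_rfl ?_
  rw [← mul_sum]
  have h4 := mul_le_mul_of_nonneg_left (sum_exp_le Rs J) (by positivity : 0 ≤ 2 * C)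
  linarith

end Pool.Agent.N748.HM.NNB3
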