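import Pool.Agent.N748.HM.Stm

set_option autoImplicit false

/-! The normalising constants. -/

namespace Pool.Agent.N748.HM.NRM

open Finset Filter MeasureTheory MonoidAlgebra Topology Complex
open Pool.Agent.N748.GC
open Pool.Agent.Y755 Pool.Agent.W184.NZ
open Pool.Agent.Y753.NL
open Pool.Agent.H306R2 (aF aF_pos)

/-- the choice of the polynomial over the small primes, for all exponents -/
lemma A0_any {α : ℝ} (h0 : 0 < α) {ε : ℝ} (hε : 0 < ε) (hε1 : ε ≤ 1 / 10) (z : ℕ) :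
    ∃ (A0 : P1) (m : ℝ), Bd1 m A0 ∧
      (∀ s : ℂ, 1 / 2 ≤ s.re →
        1 - ε ≤ ‖es s (Pz z)‖ ^ (2 * α) * ‖es s A0‖ ^ 2 ∧
        ‖es s (Pz z)‖ ^ (2 * α) * ‖es s A0‖ ^ 2 ≤ 1 + ε) ∧
      ∀ δ : ℝ, 0 ≤ δ → (1 - ε) * ∏ p ∈ S0 z, Ed α δ p ≤ ip δ A0 A0 ∧ ip δ A0 A0 ≤ ∏ p ∈ S0 z, Ed α δ p := by
  obtain ⟨K1, hK1⟩ := near_size h0 (z := z) hε hε1
  obtain ⟨K2, hK2⟩ := Az_ip (α := α) z hε
  obtain ⟨ρ, hρ, hsize⟩ := hK1 (max K1 K2) (le_max_left _ _)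
  obtain ⟨m0, hA'⟩ := Az_Bd α (max K1 K2) z
  exact ⟨Az α (max K1 K2) z, m0, hA', hsize α (by rw [sub_self, abs_zero]; exact hρ.le),
    hK2 _ (le_max_right _ _)⟩

/-- the mean square of the polynomial over the small primes is close to the normalising constant -/
theorem B_near {α : ℝ} {z : ℕ} {A0 : P1} {m : ℝ} (hm : Bd1 m A0) {ε : ℝ} (hε : 0 < ε) (hε1 : ε ≤ 1 / 20)
    (hPA : ∀ s : ℂ, 1 / 2 ≤ s.re → 1 - ε ≤ ‖es s (Pz z)‖ ^ (2 * α) * ‖es s A0‖ ^ 2 ∧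
      ‖es s (Pz z)‖ ^ (2 * α) * ‖es s A0‖ ^ 2 ≤ 1 + ε) :
    ∃ δ2 : ℝ, 0 < δ2 ∧ ∀ δ : ℝ, 0 ≤ δ → δ ≤ δ2 →
      (1 - 2 * ε) * E0 α (Sm z) ≤ ip δ A0 A0 ∧ ip δ A0 A0 ≤ (1 + 3 * ε) * E0 α (Sm z) := by
  obtain ⟨δ2, hδ2, hnear⟩ := Ph_near α z hε
  refine ⟨δ2, hδ2, fun δ hδ hδ2' => ?_⟩
  set B := ip δ A0 A0 with hB
  set E := E0 α (Sm z) with hE
  have hE0 : 0 < E := QC.E0_pos α (QC.Sm_prime z)
  have hmz0 : ∀ u, 0 < mz α z u := fun u => QC.M0_pos α (QC.Sm_prime z) _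
  -- pointwise
  have hpt : ∀ u : ℝ, (1 - 2 * ε) * (E * mz α z u) ≤ ‖es (1 / 2 + δ + u * I) A0‖ ^ 2 ∧
      ‖es (1 / 2 + δ + u * I) A0‖ ^ 2 ≤ (1 + 3 * ε) * (E * mz α z u) := by
    intro u
    have hre : (1:ℝ) / 2 ≤ (1 / 2 + (δ:ℂ) + u * I).re := by simp; linarith
    obtain ⟨h1, h2⟩ := hPA _ hre
    rw [← Ph_pt] at h1 h2
    have hp := Ph_pos z hδ (pt (Sm z) u)
    set P := Ph z δ (pt (Sm z) u) with hP
    set a := ‖es (1 / 2 + δ + u * I) A0‖ ^ 2 with ha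
    have hq : E * mz α z u = Ph z 0 (pt (Sm z) u) ^ (-(2 * α)) := by
      unfold mz
      rw [M0_Ph, ← hE, mul_div_cancel₀ _ hE0.ne']
    have h3 := abs_le.mp (hnear δ hδ hδ2' (pt (Sm z) u))
    rw [← hq, ← hP] at h3
    set q := E * mz α z u with hqd
    have hq0 : 0 < q := mul_pos hE0 (hmz0 u)
    have hPi : P ^ (-(2 * α)) * P ^ (2 * α) = 1 := by
      rw [← Real.rpow_add hp]; simp
    have hPp : 0 < P ^ (-(2 * α)) := Real.rpow_pos_of_pos hp _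
    have h4 : (1 - ε) * P ^ (-(2 * α)) ≤ a := by
      calc (1 - ε) * P ^ (-(2 * α)) ≤ (P ^ (2 * α) * a) * P ^ (-(2 * α)) := mul_le_mul_of_nonneg_right h1 hPp.le
        _ = (P ^ (-(2 * α)) * P ^ (2 * α)) * a := by ring
        _ = a := by rw [hPi, one_mul]
    have h5 : a ≤ (1 + ε) * P ^ (-(2 * α)) := by
      calc a = (P ^ (-(2 * α)) * P ^ (2 * α)) * a := by rw [hPi, one_mul]
        _ = (P ^ (2 * α) * a) * P ^ (-(2 * α)) := by ring
        _ ≤ (1 + ε) * P ^ (-(2 * α)) := mul_le_mul_of_nonneg_right h2 hPp.le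
    have h6 : 0 ≤ ε ^ 2 * q := by positivity
    constructor
    · nlinarith
    · nlinarith
  -- the mean values
  have hm1 := mean_sq A0 hm hδ
  have hm2 : Tendsto (fun T : ℝ => (∫ t in (0:ℝ)..T, mz α z t) / T) atTop (𝓝 1) := by
    rw [Metric.tendsto_atTop]
    intro e he
    obtain ⟨H0, hH0, h⟩ := ERG.main (Sm z) (QC.Sm_prime z) (M0 α (Sm z)) (QC.M0_cont α (QC.Sm_prime z)) (e / 2) (by linarith)
    refine ⟨H0, fun T hT => ?_⟩
    have h1 := h T hT 0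
    rw [zero_add, QC.M0_int α (QC.Sm_prime z)] at h1
    rw [Real.dist_eq]
    show |(∫ t in (0:ℝ)..T, M0 α (Sm z) (pt (Sm z) t)) / T - 1| < e
    linarith
  have hcA : Continuous fun t : ℝ => ‖es (1 / 2 + δ + t * I) A0‖ ^ 2 := by
    have h1 : ∀ n ∈ (cx A0).coeff.support, n ≠ 0 := by
      intro n hn
      rw [cx_supp] at hn
      exact (hm n hn).1
    have h2 := ((ec_cont h1 (1 / 2 + δ)).norm.pow 2)
    refine h2.congr fun t => ?_
    show ‖ec (1 / 2 + δ + t * I) (cx A0)‖ ^ 2 = _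
    rw [ec_cx]
  have hcm := QC.mz_cont α z
  constructor
  · have h1 : Tendsto (fun T : ℝ => (1 - 2 * ε) * E * ((∫ t in (0:ℝ)..T, mz α z t) / T)) atTop (𝓝 ((1 - 2 * ε) * E * 1)) :=
      hm2.const_mul _
    rw [mul_one] at h1
    refine le_of_tendsto_of_tendsto h1 hm1 ?_
    filter_upwards [eventually_gt_atTop 0] with T hT
    rw [← mul_div_assoc, ← intervalIntegral.integral_const_mul]
    refine div_le_div_of_nonneg_right ?_ hT.le
    refine intervalIntegral.integral_mono_on hT.le ((hcm.const_mul _).intervalIntegrable _ _)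
      (hcA.intervalIntegrable _ _) fun t _ => ?_
    rw [mul_assoc]; exact (hpt t).1
  · have h1 : Tendsto (fun T : ℝ => (1 + 3 * ε) * E * ((∫ t in (0:ℝ)..T, mz α z t) / T)) atTop (𝓝 ((1 + 3 * ε) * E * 1)) :=
      hm2.const_mul _
    rw [mul_one] at h1
    refine le_of_tendsto_of_tendsto hm1 h1 ?_
    filter_upwards [eventually_gt_atTop 0] with T hT
    rw [← mul_div_assoc, ← intervalIntegral.integral_const_mul]
    refine div_le_div_of_nonneg_right ?_ hT.le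
    refine intervalIntegral.integral_mono_on hT.le (hcA.intervalIntegrable _ _)
      ((hcm.const_mul _).intervalIntegrable _ _) fun t _ => ?_
    rw [mul_assoc]; exact (hpt t).2

/-- the elementary comparison of the constants -/
lemma fin_cmp {e B E X D Q W : ℝ} (he : 0 < e) (he1 : e ≤ 1 / 20) (hX : 0 ≤ X)
    (h1 : (1 - 2 * e) * E ≤ B) (h2 : B ≤ (1 + 3 * e) * E) (h3 : |B * X - D| ≤ 3 * e * D)
    {c : ℝ} (hc : 0 ≤ c) (hQ : Q = c * D) (hW : W = c * (E * X)) (hQ1 : |Q - 1| ≤ e) : |W - 1| ≤ 20 * e := by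
  obtain ⟨h3a, h3b⟩ := abs_le.mp h3
  obtain ⟨hQa, hQb⟩ := abs_le.mp hQ1
  have h4 : (1 - 2 * e) * (E * X) ≤ (1 + 3 * e) * D := by
    calc (1 - 2 * e) * (E * X) = ((1 - 2 * e) * E) * X := by ring
      _ ≤ B * X := mul_le_mul_of_nonneg_right h1 hX
      _ ≤ (1 + 3 * e) * D := by linarith
  have h5 : (1 - 3 * e) * D ≤ (1 + 3 * e) * (E * X) := by
    calc (1 - 3 * e) * D ≤ B * X := by linarith
      _ ≤ ((1 + 3 * e) * E) * X := mul_le_mul_of_nonneg_right h2 hX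
      _ = (1 + 3 * e) * (E * X) := by ring
  have h6 : (1 - 2 * e) * W ≤ (1 + 3 * e) * Q := by
    rw [hW, hQ]
    calc (1 - 2 * e) * (c * (E * X)) = c * ((1 - 2 * e) * (E * X)) := by ring
      _ ≤ c * ((1 + 3 * e) * D) := mul_le_mul_of_nonneg_left h4 hc
      _ = (1 + 3 * e) * (c * D) := by ring
  have h7 : (1 - 3 * e) * Q ≤ (1 + 3 * e) * W := by
    rw [hW, hQ]
    calc (1 - 3 * e) * (c * D) = c * ((1 - 3 * e) * D) := by ring
      _ ≤ c * ((1 + 3 * e) * (E * X)) := mul_le_mul_of_nonneg_left h5 hc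
      _ = (1 + 3 * e) * (c * (E * X)) := by ring
  have h8 : (1 - 2 * e) * W ≤ (1 + 3 * e) * (1 + e) :=
    h6.trans (mul_le_mul_of_nonneg_left (by linarith) (by linarith))
  have h9 : (1 - 3 * e) * (1 - e) ≤ (1 + 3 * e) * W :=
    (mul_le_mul_of_nonneg_left (by linarith) (by linarith)).trans h7
  rw [abs_le]
  constructor
  · by_contra hcon
    push Not at hcon
    have h10 : (1 + 3 * e) * W ≤ (1 + 3 * e) * (1 - 20 * e) := mul_le_mul_of_nonneg_left (by linarith) (by linarith)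
    nlinarith
  · by_contra hcon
    push Not at hcon
    have h10 : (1 - 2 * e) * (1 + 20 * e) ≤ (1 - 2 * e) * W := mul_le_mul_of_nonneg_left (by linarith) (by linarith)
    nlinarith

theorem main : S_NRM := by
  intro α hα ε hε
  set e := min (1 / 20) (ε / 20) with he
  have he0 : 0 < e := lt_min (by norm_num) (by positivity)
  have he1 : e ≤ 1 / 20 := min_le_left _ _
  have he2 : 20 * e ≤ ε := by
    have := min_le_right (1 / 20 : ℝ) (ε / 20)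
    rw [← he] at this
    linarith
  obtain ⟨z0, x0, hx0, hcmp⟩ := cmp hα he0
  obtain ⟨δ1, hδ1, hDD⟩ := DD_unif hα he0
  refine ⟨max z0 1000, fun z hz => ?_⟩
  have hz1 : z0 ≤ z := (le_max_left _ _).trans hz
  have hz2 : 1000 ≤ z := (le_max_right _ _).trans hz
  obtain ⟨A0, m, hm, hPA, hip⟩ := A0_any hα he0 (he1.trans (by norm_num)) z
  obtain ⟨δ2, hδ2, hB⟩ := B_near hm he0 he1 hPA
  refine ⟨x0, min δ1 δ2, lt_min hδ1 hδ2, fun δ hδ hδ' y J hzy hJ hx => ?_⟩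
  have hd1 : δ ≤ δ1 := hδ'.trans (min_le_left _ _)
  have hd2 : δ ≤ δ2 := hδ'.trans (min_le_right _ _)
  have hJ' : bb y J < 144 := hJ
  obtain ⟨c1, c2⟩ := hcmp z hz1 hz2 y δ hzy hδ hx J hJ'
  obtain ⟨i1, i2⟩ := hip δ hδ.le
  obtain ⟨b1, b2⟩ := hB δ hδ.le hd2
  have hcc := cmp_close he0.le (he1.trans (by norm_num)) (DD_pos' hα hδ) i1 i2 (Real.exp_pos _).le
    (prod_Ed_nonneg hδ.le z) c1 c2
  have hD := hDD δ hδ hd1
  have haF := aF_pos hα
  rw [aa_eq]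
  refine (fin_cmp he0 he1 (Real.exp_pos _).le b1 b2 hcc (c := (2 * δ) ^ (α ^ 2) / aF α) (by positivity) rfl
    (by rw [VB_eq]) ?_).trans he2
  have e1 : (2 * δ) ^ (α ^ 2) / aF α * DD α δ - 1 = ((2 * δ) ^ (α ^ 2) * DD α δ - aF α) / aF α := by
    field_simp
  rw [e1, abs_div, abs_of_pos haF, div_le_iff₀ haF]
  exact hD

end Pool.Agent.N748.HM.NRM
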