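import Pool.Agent.N748.HM.Stm
import Pool.Agent.N748.GC.ONE

set_option autoImplicit false

/-!
# Project HM, part ONE3: the first moment of the weights (helper344, after the parts ONE by helper591
and ONE2 by helper459)
-/

namespace Pool.Agent.N748.HM.ONE3

open Finset Filter MeasureTheory MonoidAlgebra Topology Complex
open Pool.Agent.N748.GC
open Pool.Agent.N748.GC.ONE (BP_zero Xl_small len_ok Sm_prime VB_nonneg int_F)

/-- the upper bound for the mean square of the weight polynomial -/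
lemma nn_upper {c C : ℝ} {A R0 z J Rs : ℕ} {y δ α : ℝ}
    (hC : ∀ (z J Rs : ℕ) (y : ℝ), 144 ≤ z → 1 ≤ y → R0 ≤ Rs → 1 ≤ Rs →
      (∀ i < J, ∑ p ∈ IB z y i, 1 / (p:ℝ) ≤ c) → ∀ δ : ℝ, 0 ≤ δ → ∀ a b : ℕ → ℝ,
      (∀ i, 0 ≤ a i ∧ a i ≤ A) → (∀ i, 0 ≤ b i ∧ b i ≤ A) → ∀ h : ℝ,
      nn δ (BP a z y 0 J Rs * sf h (BP b z y 0 J Rs)) ≤
        Real.exp ((∑ i ∈ range J, ∑ p ∈ IB z y i,
          (a i ^ 2 + b i ^ 2 + 2 * a i * b i * Real.cos (h * Real.log p)) * wd δ p) +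
          C * Real.exp (-(2 * (Rs:ℝ)))))
    (hz : 144 ≤ z) (hy : 1 ≤ y) (hR : R0 ≤ Rs) (hRs : 1 ≤ Rs)
    (hc : ∀ i < J, ∑ p ∈ IB z y i, 1 / (p:ℝ) ≤ c)
    (hδ : 0 ≤ δ) (hα0 : 0 ≤ α) (hα1 : α ≤ A) :
    nn δ (BP (fun _ => α) z y 0 J Rs) ≤
      Real.exp (α ^ 2 * VB δ z y 0 J) * Real.exp (C * Real.exp (-(2 * (Rs:ℝ)))) := by
  have h := hC z J Rs y hz hy hR hRs hc δ hδ (fun _ => α) (fun _ => 0) (fun _ => ⟨hα0, hα1⟩)
    (fun _ => ⟨le_rfl, Nat.cast_nonneg _⟩) 0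
  rw [BP_zero, map_one, mul_one] at h
  refine h.trans (le_of_eq ?_)
  rw [← Real.exp_add]
  congr 2
  unfold VB
  rw [Finset.mul_sum, ← Finset.range_eq_Ico]
  refine Finset.sum_congr rfl fun i _ => ?_
  rw [Finset.mul_sum]
  refine Finset.sum_congr rfl fun p _ => ?_
  ring

theorem main (hN : S_NNB3) (hL : S_NNL3) (hLEN : S_LEN3) : S_ONE3 := by
  intro α hα0 c hc e he
  have hαA : α ≤ (⌈α⌉₊ : ℝ) := Nat.le_ceil α
  set A := ⌈α⌉₊ with hA
  obtain ⟨C, R3, hC0, hC⟩ := hN c hc A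
  obtain ⟨z1, R1, hL⟩ := hL c hc A (e / 2) (by positivity)
  have hlim : Tendsto (fun R : ℕ => Real.exp (C * Real.exp (-(2 * (R:ℝ))))) atTop (𝓝 1) := by
    have h4 : Tendsto (fun R : ℕ => Real.exp (-(2 * (R:ℝ)))) atTop (𝓝 0) :=
      Real.tendsto_exp_neg_atTop_nhds_zero.comp
        (tendsto_natCast_atTop_atTop.const_mul_atTop (by norm_num))
    have h5 : Tendsto (fun R : ℕ => C * Real.exp (-(2 * (R:ℝ)))) atTop (𝓝 0) := by
      simpa using h4.const_mul C
    have h6 := (Real.continuous_exp.tendsto 0).comp h5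
    rw [Real.exp_zero] at h6
    exact h6
  obtain ⟨R2, hR2⟩ := eventually_atTop.1
    (hlim.eventually_le_const (by linarith : (1:ℝ) < 1 + e / 2))
  refine ⟨max z1 144, max (max R1 R3) (max R2 (max 1 A)),
    fun z hz K _ _ F hF hF0 η hη => ?_⟩
  have hz1 : z1 ≤ z := (le_max_left _ _).trans hz
  have hz2 : 144 ≤ z := (le_max_right _ _).trans hz
  obtain ⟨M0, hM0⟩ := isCompact_univ.exists_bound_of_continuousOn hF.continuousOn
  set M := max M0 1 with hMdef
  have hM1 : 1 ≤ M := le_max_right _ _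
  have hM : ∀ q, F q ≤ M := fun q =>
    ((le_abs_self _).trans (hM0 q (Set.mem_univ q))).trans (le_max_left _ _)
  set ε' := η / (2 * (2 + e / 2)) with hε'
  have hε'0 : 0 < ε' := by positivity
  have hEQ := EQ.main MV.main (Sm z) (Sm_prime z) K F hF ε' hε'0
  filter_upwards [hEQ, Xl_small (η / (2 * (M * (1 + e / 2)))) (by positivity),
    Xl_small 1 one_pos, eventually_ge_atTop (3:ℝ)]
    with X hX hXl hXl1 hX3 Rs Jf y hR0 hSP δ hδ k x
  have hRs1 : R1 ≤ Rs := ((le_max_left _ _).trans (le_max_left _ _)).trans hR0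
  have hRs4 : R3 ≤ Rs := ((le_max_right _ _).trans (le_max_left _ _)).trans hR0
  have hRs2 : R2 ≤ Rs := ((le_max_left _ _).trans (le_max_right _ _)).trans hR0
  have hRs5 : max 1 A ≤ Rs := ((le_max_right _ _).trans (le_max_right _ _)).trans hR0
  have hRs3 : 1 ≤ Rs := (le_max_left _ _).trans hRs5
  have hRs6 : A ≤ Rs := (le_max_right _ _).trans hRs5
  have hev2 := hSP.zy
  have hev3 := hSP.bl
  have hev4 := hSP.len
  have hX0 : 0 < X := by linarith
  have hy1 : 1 ≤ y := by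
    have : (1:ℝ) ≤ z := by exact_mod_cast (by omega : 1 ≤ z)
    linarith
  set B := BP (fun _ => α) z y 0 Jf Rs with hB
  have hlen := len_ok hy1 (Nat.cast_nonneg Rs) hX3 hev4
  obtain ⟨hcop, hlc⟩ := (hLEN A z Jf Rs y hz2 hy1 hRs3 hRs6 (fun i hi => (hev3 i hi).1)).1
    (fun _ => α) (fun _ => ⟨hα0.le, hαA⟩) 0 (Nat.zero_le _)
  rw [← hB] at hcop hlc
  have hB0 : ∀ n ∈ B.coeff.support, n ≠ 0 := fun n hn => (hcop n hn).1
  have hcop' : Cop (Sm z) (X ^ ((1:ℝ) / 8)) (sf x B) := by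
    have h7 := MV.Cop_sf x hcop
    intro n hn
    obtain ⟨a1, a2, a3⟩ := h7 n hn
    exact ⟨a1, a2.trans hlen, a3⟩
  have hlc' : lc1 (sf x B) ≤ X ^ ((1:ℝ) / 8) := by
    rw [MV.lc1_sf x hB0]
    exact hlc.trans hlen
  have hmain := hX (Xl X) hXl1.1 (by linarith [hXl1.2]) k δ hδ (sf x B) hcop' hlc'
  rw [MV.nn_sf] at hmain
  set E := Real.exp (α ^ 2 * VB δ z y 0 Jf) with hE
  have hE1 : 1 ≤ E := by
    rw [hE]
    exact Real.one_le_exp (mul_nonneg (sq_nonneg _) (VB_nonneg _ _ _ _ _))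
  have hE0 : 0 < E := by linarith
  have hup := nn_upper hC hz2 hy1 hRs4 hRs3 (fun i hi => (hev3 i hi).2) hδ hα0.le hαA
  have hlow := hL z Jf Rs y hz1 hRs1 hy1 (fun i hi => (hev3 i hi).2) δ hδ α hα0.le hαA
  rw [← hB, ← hE] at hup hlow
  set n := nn δ B with hn
  have hn0 : 0 ≤ n := MV.nn_nonneg δ B
  have hnup : n ≤ E * (1 + e / 2) :=
    hup.trans (mul_le_mul_of_nonneg_left (hR2 Rs hRs2) hE0.le)
  -- the integral
  have hint : (∫ t in Xl X..X, F (k, pt (Sm z) t) * WP α z Rs y Jf δ (t + x)) =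
      (∫ t in Xl X..X, F (k, pt (Sm z) t) * ‖ec (1 / 2 + δ + t * I) (sf x B)‖ ^ 2) / E := by
    rw [← intervalIntegral.integral_div]
    refine intervalIntegral.integral_congr fun t _ => ?_
    unfold WP
    rw [MV.ec_sf _ _ hB0, ← hB, ← hE, mul_div_assoc]
    congr 4
    push_cast
    ring_nf
  rw [hint]
  set J := ∫ t in Xl X..X, F (k, pt (Sm z) t) * ‖ec (1 / 2 + δ + t * I) (sf x B)‖ ^ 2 with hJ
  obtain ⟨hI0, hIM⟩ := int_F hF0 hM k
  set If := ∫ y, F (k, y) ∂(HP (Sm z)) with hIf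
  have hr1 : 1 - e / 2 ≤ n / E := by
    rw [le_div_iff₀ hE0]
    exact hlow
  have hr2 : n / E ≤ 1 + e / 2 := by
    rw [div_le_iff₀ hE0]
    linarith
  have hr0 : 0 ≤ n / E := div_nonneg hn0 hE0.le
  have hXp : X ^ ((9:ℝ) / 10) ≤ X := by
    conv_rhs => rw [← Real.rpow_one X]
    exact Real.rpow_le_rpow_of_exponent_le (by linarith) (by norm_num)
  -- step 1
  have s1 : |J / E - (X - Xl X) * If * (n / E)| ≤ X * (η / 2) := by
    have e1 : J / E - (X - Xl X) * If * (n / E) = (J - (X - Xl X) * If * n) / E := by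
      field_simp
    rw [e1, abs_div, abs_of_pos hE0, div_le_iff₀ hE0]
    refine hmain.trans ?_
    have e2 : X * n + X ^ ((9:ℝ) / 10) ≤ X * E * (2 + e / 2) := by
      have : X * n ≤ X * (E * (1 + e / 2)) := mul_le_mul_of_nonneg_left hnup hX0.le
      have : X * 1 ≤ X * E := mul_le_mul_of_nonneg_left hE1 hX0.le
      nlinarith
    calc ε' * (X * n + X ^ ((9:ℝ) / 10)) ≤ ε' * (X * E * (2 + e / 2)) :=
          mul_le_mul_of_nonneg_left e2 hε'0.le
      _ = X * (η / 2) * E := by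
          rw [hε']
          field_simp
  -- step 2
  have s2 : |(X - Xl X) * If * (n / E) - X * If| ≤ X * (e / 2 * If) + X * (η / 2) := by
    have e1 : (X - Xl X) * If * (n / E) - X * If = X * If * (n / E - 1) - Xl X * If * (n / E) := by
      ring
    rw [e1]
    refine (abs_sub _ _).trans (add_le_add ?_ ?_)
    · rw [abs_mul, abs_of_nonneg (mul_nonneg hX0.le hI0)]
      have : |n / E - 1| ≤ e / 2 := abs_le.2 ⟨by linarith, by linarith⟩
      calc X * If * |n / E - 1| ≤ X * If * (e / 2) :=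
            mul_le_mul_of_nonneg_left this (mul_nonneg hX0.le hI0)
        _ = _ := by ring
    · rw [abs_of_nonneg (mul_nonneg (mul_nonneg hXl.1 hI0) hr0)]
      calc Xl X * If * (n / E) ≤ Xl X * M * (1 + e / 2) := by
            refine mul_le_mul (mul_le_mul_of_nonneg_left hIM hXl.1) hr2 hr0 ?_
            exact mul_nonneg hXl.1 (by linarith)
        _ = Xl X * (M * (1 + e / 2)) := by ring
        _ ≤ η / (2 * (M * (1 + e / 2))) * X * (M * (1 + e / 2)) :=
            mul_le_mul_of_nonneg_right hXl.2 (by positivity)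
        _ = X * (η / 2) := by
            field_simp
  have s3 : J / E - X * If = (J / E - (X - Xl X) * If * (n / E)) +
      ((X - Xl X) * If * (n / E) - X * If) := by ring
  rw [s3]
  refine (abs_add_le _ _).trans ((add_le_add s1 s2).trans ?_)
  have : 0 ≤ X * (e / 2 * If) := by positivity
  nlinarith

end Pool.Agent.N748.HM.ONE3
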