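import Pool.Agent.N748.HM.Stm

set_option autoImplicit false

/-!
# The choice of the parameters and the set of the nice windows
-/

namespace Pool.Agent.N748.HM.PRM

open Finset Filter MeasureTheory MonoidAlgebra Topology Complex
open Pool.Agent.N748.GC Pool.Agent.N748.HM

/-! ### the blocks -/

lemma log_be (y : ℝ) (i : ℕ) : Real.log (be y i) = Real.log y * (1 / 4) ^ i := by
  unfold be
  rw [Real.log_exp]

lemma be_pos (y : ℝ) (i : ℕ) : 0 < be y i := Real.exp_pos _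

lemma one_le_log_nat {n : ℕ} (hn : 3 ≤ n) : 1 ≤ Real.log n := by
  rw [Real.le_log_iff_exp_le (by positivity)]
  have h1 := Real.exp_one_lt_d9
  have h2 : (3:ℝ) ≤ n := by exact_mod_cast hn
  linarith

lemma block_sum {C : ℝ} (hC : 0 < C) (hM : ∀ (z : ℕ) (x : ℝ), 2 ≤ z → (z:ℝ) ≤ x →
    |∑ p ∈ (Icc z ⌊x⌋₊).filter Nat.Prime, 1 / (p:ℝ) - Real.log (Real.log x / Real.log z)| ≤ C / Real.log z)
    (z : ℕ) (y : ℝ) (i : ℕ) : ∑ p ∈ IB z y i, 1 / (p:ℝ) ≤ 3 + C := by
  rcases (IB z y i).eq_empty_or_nonempty with h | ⟨p, hp⟩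
  · rw [h, sum_empty]
    linarith
  · have hmem : ∀ p ∈ IB z y i, 1 ≤ p ∧ (p:ℝ) ≤ be y i ∧ p ≤ ⌊be y i⌋₊ ∧ p.Prime ∧ 144 ≤ p ∧ be y (i + 1) < (p:ℝ) := by
      intro p hp
      unfold IB at hp
      rw [mem_filter, mem_filter, mem_Icc] at hp
      obtain ⟨⟨⟨h1, h2⟩, h3, h4, h5⟩, h6⟩ := hp
      refine ⟨h1, ?_, h2, h3, h4, h5⟩
      exact (Nat.le_floor_iff (be_pos y i).le).1 h2
    obtain ⟨w, hw⟩ : ∃ w : ℕ, w = max 144 ⌈be y (i + 1)⌉₊ := ⟨_, rfl⟩
    have hwp : ∀ p ∈ IB z y i, w ≤ p := by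
      intro p hp
      obtain ⟨h1, h2, h3, h4, h5, h6⟩ := hmem p hp
      rw [hw]
      exact max_le h5 (Nat.ceil_le.2 h6.le)
    have hw144 : 144 ≤ w := by rw [hw]; exact le_max_left _ _
    have hwb : be y (i + 1) ≤ w := by
      have h1 : ⌈be y (i + 1)⌉₊ ≤ w := by rw [hw]; exact le_max_right _ _
      exact (Nat.le_ceil _).trans (by exact_mod_cast h1)
    have hwE : (w:ℝ) ≤ be y i := by
      have h1 : (w:ℝ) ≤ p := by exact_mod_cast hwp p hp
      exact h1.trans (hmem p hp).2.1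
    have h1 := hM w (be y i) (by omega) hwE
    have h2 : ∑ p ∈ IB z y i, 1 / (p:ℝ) ≤ ∑ p ∈ (Icc w ⌊be y i⌋₊).filter Nat.Prime, 1 / (p:ℝ) := by
      refine sum_le_sum_of_subset_of_nonneg ?_ fun _ _ _ => by positivity
      intro q hq
      obtain ⟨g1, g2, g3, g4, g5, g6⟩ := hmem q hq
      rw [mem_filter, mem_Icc]
      exact ⟨⟨hwp q hq, g3⟩, g4⟩
    have hlw : 1 ≤ Real.log w := one_le_log_nat (by omega)
    have hlwb : Real.log (be y i) / 4 ≤ Real.log w := by
      have h3 := Real.log_le_log (be_pos y (i + 1)) hwb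
      rw [log_be] at h3
      rw [log_be]
      have h4 : Real.log y * (1 / 4) ^ (i + 1) = Real.log y * (1 / 4) ^ i / 4 := by ring
      linarith
    have hlE : Real.log w ≤ Real.log (be y i) := Real.log_le_log (by positivity) hwE
    have h3 : Real.log (Real.log (be y i) / Real.log w) ≤ 3 := by
      have h4 : 0 < Real.log (be y i) / Real.log w := div_pos (by linarith) (by linarith)
      have h5 := Real.log_le_sub_one_of_pos h4
      have h6 : Real.log (be y i) / Real.log w ≤ 4 := by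
        rw [div_le_iff₀ (by linarith)]
        linarith
      linarith
    have h4 : C / Real.log w ≤ C := div_le_self hC.le hlw
    have h5 := (abs_le.1 h1).2
    linarith

lemma PP_sum {C : ℝ} (hC : 0 < C) (hM : ∀ (z : ℕ) (x : ℝ), 2 ≤ z → (z:ℝ) ≤ x →
    |∑ p ∈ (Icc z ⌊x⌋₊).filter Nat.Prime, 1 / (p:ℝ) - Real.log (Real.log x / Real.log z)| ≤ C / Real.log z)
    {z : ℕ} {y : ℝ} (hz : 3 ≤ z) (hy : (z:ℝ) ≤ y) :
    ∑ p ∈ PP z y, 1 / (p:ℝ) ≤ Real.log (Real.log y) + C := by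
  have h1 := (abs_le.1 (hM z y (by omega) hy)).2
  have hlz : 1 ≤ Real.log z := one_le_log_nat hz
  have hz0 : (0:ℝ) < z := by
    have : 0 < z := by omega
    exact_mod_cast this
  have hly : Real.log z ≤ Real.log y := Real.log_le_log hz0 hy
  have h2 : Real.log (Real.log y / Real.log z) ≤ Real.log (Real.log y) := by
    apply Real.log_le_log (div_pos (by linarith) (by linarith))
    exact div_le_self (by linarith) hlz
  have h3 : C / Real.log z ≤ C := div_le_self hC.le hlz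
  unfold PP
  linarith

/-- the number of blocks -/
lemma exists_J (y : ℝ) : ∃ J : ℕ, be y J < 144 ∧ ∀ i < J, 10 ≤ be y i := by
  have h1 : ∃ J : ℕ, be y J < 144 := by
    have h2 : Tendsto (fun i : ℕ => be y i) atTop (𝓝 1) := by
      have h3 : Tendsto (fun i : ℕ => Real.log y * (1 / 4 : ℝ) ^ i) atTop (𝓝 (Real.log y * 0)) :=
        (tendsto_pow_atTop_nhds_zero_of_lt_one (by norm_num) (by norm_num)).const_mul _
      rw [mul_zero] at h3
      have h4 := (Real.continuous_exp.tendsto 0).comp h3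
      rw [Real.exp_zero] at h4
      exact h4
    exact (h2.eventually (gt_mem_nhds (by norm_num : (1:ℝ) < 144))).exists
  classical
  refine ⟨Nat.find h1, Nat.find_spec h1, fun i hi => ?_⟩
  have := Nat.find_min h1 hi
  push Not at this
  linarith

/-! ### holomorphy -/

lemma cpow_diff {n : ℕ} (hn : n ≠ 0) : Differentiable ℂ fun s : ℂ => (n:ℂ) ^ (-s) := by
  intro s
  exact (differentiableAt_id.neg).const_cpow (Or.inl (by exact_mod_cast hn))

lemma Ez_diff (z : ℕ) (y : ℝ) (K : ℕ) :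
    DifferentiableOn ℂ (Ez z y K) {s : ℂ | 1 / 2 < s.re ∧ s.re < 1} := by
  intro s hs
  have hs1 : s ≠ 1 := by
    rintro rfl
    have := hs.2
    simp at this
  apply DifferentiableAt.differentiableWithinAt
  unfold Ez
  refine DifferentiableAt.sub_const (DifferentiableAt.mul (DifferentiableAt.mul
    (differentiableAt_riemannZeta hs1) ?_) ?_) 1
  · refine DifferentiableAt.fun_finsetProd fun p hp => ?_
    have hp0 : p ≠ 0 := by
      unfold Sm at hp
      exact (mem_filter.1 hp).2.ne_zero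
    exact (differentiableAt_const _).sub (cpow_diff hp0 s)
  · have h1 : (fun s => ec s (MB z y K)) = fun s => ∑ S ∈ ((PP z y).powerset).filter (fun S => S.card ≤ K),
        (-1 : ℂ) ^ S.card * ((∏ p ∈ S, p : ℕ) : ℂ) ^ (-s) := by
      funext s
      unfold MB
      rw [map_sum]
      exact sum_congr rfl fun S _ => ec_single s _ _
    rw [h1]
    refine DifferentiableAt.fun_sum fun S hS => ?_
    have hS0 : (∏ p ∈ S, p) ≠ 0 := by
      rw [prod_ne_zero_iff]
      intro p hp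
      have h2 : p ∈ PP z y := (mem_powerset.1 (mem_filter.1 hS).1) hp
      unfold PP at h2
      exact (mem_filter.1 h2).2.ne_zero
    exact (cpow_diff hS0 s).const_mul _

/-! ### powers of delta -/

lemma exp_log_inv {δ : ℝ} (hδ : 0 < δ) (b : ℝ) : Real.exp (-(b * Real.log (1 / δ))) = δ ^ b := by
  rw [Real.rpow_def_of_pos hδ, one_div, Real.log_inv]
  congr 1
  ring

/-- the sum of the three measures -/
lemma measure_sum {δ D H X C1 C2 η1 : ℝ} (hδ : 0 < δ) (hδ16 : δ ≤ 1 / 16) (hD : 0 < D) (hH : H = δ ^ (-D))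
    (hX : 0 ≤ X) (hC1 : 0 < C1) (hC2 : 0 < C2) (hη : 0 < η1) (h1 : 9 * C1 * δ ≤ 1)
    (h2 : 9 * C2 * δ ≤ η1 ^ 2) {r : ℝ} (hr : (2 * D + 4) * Real.log (1 / δ) ≤ r) :
    C1 * (H + 2) * X * Real.exp (-r) / δ + (H + 2) * X * δ ^ (2 * D + 4) +
      C2 * (H + 2) * (X * δ ^ (2 * D + 6)) / (δ * η1 ^ 2) ≤ δ ^ D * X := by
  have hδ1 : δ ≤ 1 := by linarith
  have hH1 : 1 ≤ H := by
    rw [hH, Real.rpow_neg hδ.le]
    exact (one_le_inv₀ (Real.rpow_pos_of_pos hδ _)).2 (Real.rpow_le_one hδ.le hδ1 hD.le)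
  have hH3 : H + 2 ≤ 3 * H := by linarith
  have hH0 : 0 < H := by linarith
  -- the product of `H` with powers
  have e1 : ∀ s : ℝ, H * δ ^ s = δ ^ (s - D) := by
    intro s
    rw [hH, ← Real.rpow_add hδ]
    congr 1
    ring
  have e2 : δ ^ (D + 4) = δ ^ D * δ ^ 4 := by
    rw [Real.rpow_add hδ]
    norm_cast
  have e3 : δ ^ (D + 6) = δ ^ D * δ ^ 6 := by
    rw [Real.rpow_add hδ]
    norm_cast
  have hDp : 0 < δ ^ D := Real.rpow_pos_of_pos hδ _
  have f1 : Real.exp (-r) ≤ δ ^ (2 * D + 4) := by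
    rw [← exp_log_inv hδ]
    apply Real.exp_le_exp.2
    linarith
  have k1 : H * δ ^ (2 * D + 4) = δ ^ D * δ ^ 4 := by
    rw [e1, ← e2]
    congr 1
    ring
  have k2 : H * δ ^ (2 * D + 6) = δ ^ D * δ ^ 6 := by
    rw [e1, ← e3]
    congr 1
    ring
  have hδ3 : δ ^ 3 ≤ δ := by
    have : δ ^ 3 ≤ δ ^ 1 := pow_le_pow_of_le_one hδ.le hδ1 (by norm_num)
    simpa using this
  have hδ5 : δ ^ 5 ≤ δ := by
    have : δ ^ 5 ≤ δ ^ 1 := pow_le_pow_of_le_one hδ.le hδ1 (by norm_num)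
    simpa using this
  have hδ4 : δ ^ 4 ≤ 1 / 9 := by
    have : δ ^ 4 ≤ δ ^ 1 := pow_le_pow_of_le_one hδ.le hδ1 (by norm_num)
    rw [pow_one] at this
    linarith
  have hP : 0 ≤ δ ^ D * X := by positivity
  have g1 : C1 * (H + 2) * X * Real.exp (-r) / δ ≤ 1 / 3 * (δ ^ D * X) := by
    rw [div_le_iff₀ hδ]
    calc C1 * (H + 2) * X * Real.exp (-r) ≤ C1 * (3 * H) * X * δ ^ (2 * D + 4) := by
          apply mul_le_mul _ f1 (Real.exp_pos _).le (by positivity)
          apply mul_le_mul_of_nonneg_right _ hX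
          exact mul_le_mul_of_nonneg_left hH3 hC1.le
      _ = 3 * C1 * (H * δ ^ (2 * D + 4)) * X := by ring
      _ = (3 * C1 * δ ^ 3) * (δ ^ D * X) * δ := by rw [k1]; ring
      _ ≤ 1 / 3 * (δ ^ D * X) * δ := by
          apply mul_le_mul_of_nonneg_right _ hδ.le
          apply mul_le_mul_of_nonneg_right _ hP
          have : C1 * δ ^ 3 ≤ C1 * δ := mul_le_mul_of_nonneg_left hδ3 hC1.le
          linarith
  have g2 : (H + 2) * X * δ ^ (2 * D + 4) ≤ 1 / 3 * (δ ^ D * X) := by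
    calc (H + 2) * X * δ ^ (2 * D + 4) ≤ (3 * H) * X * δ ^ (2 * D + 4) := by
          apply mul_le_mul_of_nonneg_right _ (Real.rpow_nonneg hδ.le _)
          exact mul_le_mul_of_nonneg_right hH3 hX
      _ = 3 * (H * δ ^ (2 * D + 4)) * X := by ring
      _ = (3 * δ ^ 4) * (δ ^ D * X) := by rw [k1]; ring
      _ ≤ 1 / 3 * (δ ^ D * X) := by
          apply mul_le_mul_of_nonneg_right _ hP
          linarith
  have g3 : C2 * (H + 2) * (X * δ ^ (2 * D + 6)) / (δ * η1 ^ 2) ≤ 1 / 3 * (δ ^ D * X) := by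
    rw [div_le_iff₀ (by positivity)]
    calc C2 * (H + 2) * (X * δ ^ (2 * D + 6)) ≤ C2 * (3 * H) * (X * δ ^ (2 * D + 6)) := by
          apply mul_le_mul_of_nonneg_right _ (mul_nonneg hX (Real.rpow_nonneg hδ.le _))
          exact mul_le_mul_of_nonneg_left hH3 hC2.le
      _ = 3 * C2 * (H * δ ^ (2 * D + 6)) * X := by ring
      _ = (3 * C2 * δ ^ 5) * ((δ ^ D * X) * δ) := by rw [k2]; ring
      _ ≤ 1 / 3 * η1 ^ 2 * ((δ ^ D * X) * δ) := by
          apply mul_le_mul_of_nonneg_right _ (by positivity)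
          have : C2 * δ ^ 5 ≤ C2 * δ := mul_le_mul_of_nonneg_left hδ5 hC2.le
          linarith
      _ = 1 / 3 * (δ ^ D * X) * (δ * η1 ^ 2) := by ring
  linarith

theorem main (hZ : S_ZM) (hS : S_SUP) (h1 : S_XS1) (h2 : S_XS2) (hM : S_MER) : S_PRM := by
  obtain ⟨CM, hCM, hMer⟩ := hM
  obtain ⟨CS, hCS, hSup⟩ := hS
  refine ⟨3 + CM, by positivity, ?_⟩
  intro A D hD z hz R0 x0 η1 C hη1 hC
  obtain ⟨C1, R1, hC1, hX1⟩ := h1 (3 + CM) (by positivity) A
  obtain ⟨a2, b2, ha2, hb2, δ2, hδ2, hδ2', hX2⟩ := h2 (2 * D + 4) (by positivity)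
  obtain ⟨a3, b3, ha3, hb3, hZ'⟩ := hZ (2 * D + 6) (by positivity)
  obtain ⟨lam3, δ3, hδ3, hδ3', hX3⟩ := hZ' z (by omega)
  -- the constants
  obtain ⟨a0, ha0⟩ : ∃ a0 : ℝ, a0 = max (max a3 x0) 1 := ⟨_, rfl⟩
  have ha01 : 1 ≤ a0 := by rw [ha0]; exact le_max_right _ _
  have ha03 : a3 ≤ a0 := by rw [ha0]; exact (le_max_left _ _).trans (le_max_left _ _)
  have ha0x : x0 ≤ a0 := by rw [ha0]; exact (le_max_right _ _).trans (le_max_left _ _)
  obtain ⟨r1, hr1⟩ : ∃ r1 : ℝ, r1 = (2 * D + 4) + 1 + R0 + R1 := ⟨_, rfl⟩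
  have hr10 : 0 < r1 := by rw [hr1]; positivity
  obtain ⟨k1, hk1⟩ : ∃ k1 : ℝ, k1 = C * (a2 + 3) + b3 + 1 := ⟨_, rfl⟩
  have hk10 : 0 < k1 := by rw [hk1]; positivity
  obtain ⟨lam, hlam⟩ : ∃ lam : ℝ, lam = 9000 * a0 * (r1 + 1) + 100 * k1 * a0 + 100 * (3 * C + 1) * a0 +
    b2 * a0 + |lam3| + 1 := ⟨_, rfl⟩
  have hlam0 : 0 < lam := by rw [hlam]; positivity
  obtain ⟨δ0, hδ0⟩ : ∃ δ0 : ℝ, δ0 = min (min (1 / 16) (min δ2 δ3)) (min (min (1 / (9 * C1)) (η1 ^ 2 / (9 * CS)))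
    (min (1 / z) (Real.exp (-(4 * a0 * Real.exp CM))))) := ⟨_, rfl⟩
  have hz0 : (0:ℝ) < z := by
    have : 0 < z := by omega
    exact_mod_cast this
  have hδ0p : 0 < δ0 := by
    rw [hδ0]
    refine lt_min (lt_min (by norm_num) (lt_min hδ2 hδ3)) (lt_min (lt_min (by positivity) (by positivity))
      (lt_min (by positivity) (Real.exp_pos _)))
  refine ⟨lam, δ0, hlam0, hδ0p, ?_, ?_⟩
  · rw [hδ0]
    exact (min_le_left _ _).trans (min_le_left _ _)
  have ev1 : ∀ᶠ X : ℝ in atTop, Real.log X ^ D ≤ X ^ ((1:ℝ) / 2) := by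
    have h3 := isLittleO_log_rpow_rpow_atTop D (show (0:ℝ) < 1 / 2 by norm_num)
    have h4 := h3.bound (show (0:ℝ) < 1 by norm_num)
    filter_upwards [h4, eventually_ge_atTop 1] with X hX hX1
    rw [one_mul, Real.norm_eq_abs, Real.norm_eq_abs, abs_of_nonneg (Real.rpow_nonneg (Real.log_nonneg hX1) _),
      abs_of_nonneg (Real.rpow_nonneg (by linarith) _)] at hX
    exact hX
  filter_upwards [hX1, hX2, hX3, ev1, eventually_ge_atTop 16] with X hX1 hX2 hX3 hX4 hX5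
  intro δ hδ hδδ hlamX
  -- smallness of delta
  rw [hδ0] at hδδ
  have d16 : δ ≤ 1 / 16 := hδδ.trans ((min_le_left _ _).trans (min_le_left _ _))
  have d2 : δ ≤ δ2 := hδδ.trans ((min_le_left _ _).trans ((min_le_right _ _).trans (min_le_left _ _)))
  have d3 : δ ≤ δ3 := hδδ.trans ((min_le_left _ _).trans ((min_le_right _ _).trans (min_le_right _ _)))
  have d4 : δ ≤ 1 / (9 * C1) := hδδ.trans ((min_le_right _ _).trans ((min_le_left _ _).trans (min_le_left _ _)))
  have d5 : δ ≤ η1 ^ 2 / (9 * CS) :=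
    hδδ.trans ((min_le_right _ _).trans ((min_le_left _ _).trans (min_le_right _ _)))
  have d6 : δ ≤ 1 / z := hδδ.trans ((min_le_right _ _).trans ((min_le_right _ _).trans (min_le_left _ _)))
  have d7 : δ ≤ Real.exp (-(4 * a0 * Real.exp CM)) :=
    hδδ.trans ((min_le_right _ _).trans ((min_le_right _ _).trans (min_le_right _ _)))
  obtain ⟨L, hL⟩ : ∃ L : ℝ, L = Real.log (1 / δ) := ⟨_, rfl⟩
  rw [← hL] at hlamX
  have hexpL : Real.exp L = 1 / δ := by rw [hL, Real.exp_log (by positivity)]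
  have hL1 : 1 ≤ L := by
    rw [hL, Real.le_log_iff_exp_le (by positivity)]
    have h3 := Real.exp_one_lt_d9
    have h4 : 16 ≤ 1 / δ := by
      rw [le_div_iff₀ hδ]
      linarith
    linarith
  have hL7 : 4 * a0 * Real.exp CM ≤ L := by
    rw [hL, Real.le_log_iff_exp_le (by positivity), le_div_iff₀ hδ]
    calc Real.exp (4 * a0 * Real.exp CM) * δ ≤
          Real.exp (4 * a0 * Real.exp CM) * Real.exp (-(4 * a0 * Real.exp CM)) :=
          mul_le_mul_of_nonneg_left d7 (Real.exp_pos _).le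
      _ = 1 := by rw [← Real.exp_add]; simp
  have hzd : (z:ℝ) ≤ 1 / δ := by
    rw [le_div_iff₀ hδ]
    rw [le_div_iff₀ hz0] at d6
    linarith
  have hX0 : 0 < X := by linarith
  have hlogX0 : 0 ≤ Real.log X := Real.log_nonneg (by linarith)
  -- the length condition
  have hL0 : 0 ≤ L := by linarith
  have hLL : L ≤ L ^ 2 := le_self_pow₀ hL1 (by norm_num)
  have hlen : ∀ m : ℝ, m ≤ lam → 0 ≤ m → m * (L ^ 2 / δ) ≤ Real.log X := by
    intro m hm hm0
    rw [mul_div_assoc', div_le_iff₀ hδ]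
    calc m * L ^ 2 ≤ lam * L ^ 2 := mul_le_mul_of_nonneg_right hm (by positivity)
      _ ≤ δ * Real.log X := hlamX
      _ = Real.log X * δ := mul_comm _ _
  obtain ⟨y, hy⟩ : ∃ y : ℝ, y = Real.exp (a0 * L / δ) := ⟨_, rfl⟩
  have hlogy : Real.log y = a0 * L / δ := by rw [hy, Real.log_exp]
  have hδlogy : δ * Real.log y = a0 * L := by
    rw [hlogy]
    field_simp
  have hly0 : 0 < Real.log y := by rw [hlogy]; positivity
  have hzy : (z:ℝ) ≤ y := by
    have h3 : Real.log z ≤ Real.log y := by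
      have h4 : Real.log z ≤ z := (Real.log_le_sub_one_of_pos hz0).trans (by linarith)
      have h5 : 1 / δ ≤ a0 * L / δ := by
        apply div_le_div_of_nonneg_right _ hδ.le
        exact one_le_mul_of_one_le_of_one_le ha01 hL1
      rw [hlogy]
      linarith
    have hy0 : 0 < y := by rw [hy]; exact Real.exp_pos _
    exact (Real.log_le_log_iff hz0 hy0).1 h3
  have hlly : Real.log (Real.log y) + CM ≤ 2 * L := by
    have h3 : Real.log y * Real.exp CM ≤ Real.exp (2 * L) := by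
      have h4 : Real.exp (2 * L) = Real.exp L * Real.exp L := by rw [← Real.exp_add]; ring_nf
      have h5 : L ^ 2 / 4 ≤ Real.exp L := by
        have h6 : Real.exp L = Real.exp (L / 2) ^ 2 := by rw [← Real.exp_nat_mul]; congr 1; push_cast; ring
        have h7 : L / 2 ≤ Real.exp (L / 2) := by linarith [Real.add_one_le_exp (L / 2)]
        rw [h6]
        have h8 : (L / 2) ^ 2 ≤ Real.exp (L / 2) ^ 2 := pow_le_pow_left₀ (by linarith) h7 2
        linarith
      rw [h4, hlogy]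
      nth_rewrite 2 [hexpL]
      have h6 : a0 * L / δ * Real.exp CM = a0 * Real.exp CM * L * (1 / δ) := by ring
      rw [h6]
      apply mul_le_mul_of_nonneg_right _ (by positivity)
      have h7 : a0 * Real.exp CM * L ≤ L ^ 2 / 4 := by
        have h8 := mul_le_mul_of_nonneg_right hL7 hL0
        have h9 : 4 * a0 * Real.exp CM * L = 4 * (a0 * Real.exp CM * L) := by ring
        have h10 : L * L = L ^ 2 := by ring
        rw [h9, h10] at h8
        linarith
      linarith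
    have h8 := Real.log_le_log (by positivity) h3
    rw [Real.log_mul hly0.ne' (Real.exp_pos _).ne', Real.log_exp, Real.log_exp] at h8
    exact h8
  have hlly0 : 0 ≤ 2 * L + 1 := by linarith
  obtain ⟨J, hJ1, hJ2⟩ := exists_J y
  obtain ⟨v, hv⟩ : ∃ v : ℝ, v = Real.log (Real.log y) + CM := ⟨_, rfl⟩
  obtain ⟨Rs, hRs⟩ : ∃ Rs : ℕ, Rs = ⌈(2 * D + 4) * L⌉₊ + R0 + R1 := ⟨_, rfl⟩
  obtain ⟨K, hK⟩ : ∃ K : ℕ, K = ⌈C * (a2 * L + 2 * L + 1) + b3 * L⌉₊ := ⟨_, rfl⟩
  obtain ⟨Kq, hKq⟩ : ∃ Kq : ℕ, Kq = ⌈C * (2 * L + 1)⌉₊ := ⟨_, rfl⟩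
  have hRs1 : (2 * D + 4) * L ≤ Rs := by
    rw [hRs]
    push_cast
    have := Nat.le_ceil ((2 * D + 4) * L)
    have h3 : (0:ℝ) ≤ R0 := Nat.cast_nonneg _
    have h4 : (0:ℝ) ≤ R1 := Nat.cast_nonneg _
    linarith
  have hRs2 : (Rs:ℝ) ≤ r1 * L := by
    rw [hRs, hr1]
    push_cast
    have := (Nat.ceil_lt_add_one (show 0 ≤ (2 * D + 4) * L by positivity)).le
    have h3 : (R0:ℝ) ≤ R0 * L := le_mul_of_one_le_right (Nat.cast_nonneg _) hL1
    have h4 : (R1:ℝ) ≤ R1 * L := le_mul_of_one_le_right (Nat.cast_nonneg _) hL1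
    have h5 : (2 * D + 4 + 1 + (R0:ℝ) + R1) * L = (2 * D + 4) * L + L + R0 * L + R1 * L := by ring
    rw [h5]
    linarith
  have hK1 : C * (a2 * L + 2 * L + 1) + b3 * L ≤ K := by
    rw [hK]
    exact Nat.le_ceil _
  have hK2 : (K:ℝ) ≤ k1 * L := by
    rw [hK, hk1]
    have := (Nat.ceil_lt_add_one (show 0 ≤ C * (a2 * L + 2 * L + 1) + b3 * L by positivity)).le
    have h3 : C ≤ C * L := le_mul_of_one_le_right hC.le hL1
    have h5 : (C * (a2 + 3) + b3 + 1) * L = C * (a2 * L + 2 * L) + C * L + b3 * L + L := by ring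
    rw [h5]
    linarith
  have hKq1 : C * (2 * L + 1) ≤ Kq := by
    rw [hKq]
    exact Nat.le_ceil _
  have hKq2 : (Kq:ℝ) ≤ (3 * C + 1) * L := by
    rw [hKq]
    have := (Nat.ceil_lt_add_one (show 0 ≤ C * (2 * L + 1) by positivity)).le
    have h3 : C ≤ C * L := le_mul_of_one_le_right hC.le hL1
    have h5 : (3 * C + 1) * L = C * (2 * L) + C * L + L := by ring
    rw [h5]
    linarith
  have hb2L : b2 * L * Real.log y ≤ Real.log X := by
    have h3 := hlen (b2 * a0) (by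
      rw [hlam]
      have : 0 ≤ |lam3| := abs_nonneg _
      have h4 : 0 ≤ 9000 * a0 * (r1 + 1) := by positivity
      have h5 : 0 ≤ 100 * k1 * a0 := by positivity
      have h6 : 0 ≤ 100 * (3 * C + 1) * a0 := by positivity
      linarith) (by positivity)
    have h4 : b2 * L * Real.log y = b2 * a0 * (L ^ 2 / δ) := by rw [hlogy]; ring
    rw [h4]
    exact h3
  have hKL : K * Real.log y ≤ Real.log X / 100 := by
    have h3 := hlen (100 * k1 * a0) (by
      rw [hlam]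
      have : 0 ≤ |lam3| := abs_nonneg _
      have h4 : 0 ≤ 9000 * a0 * (r1 + 1) := by positivity
      have h5 : 0 ≤ b2 * a0 := by positivity
      have h6 : 0 ≤ 100 * (3 * C + 1) * a0 := by positivity
      linarith) (by positivity)
    have h4 : K * Real.log y ≤ k1 * L * Real.log y := mul_le_mul_of_nonneg_right hK2 hly0.le
    have h5 : k1 * L * Real.log y = 100 * k1 * a0 * (L ^ 2 / δ) / 100 := by rw [hlogy]; ring
    rw [h5] at h4
    linarith
  have hKqL : Kq * Real.log y ≤ Real.log X / 100 := by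
    have h3 := hlen (100 * (3 * C + 1) * a0) (by
      rw [hlam]
      have : 0 ≤ |lam3| := abs_nonneg _
      have h4 : 0 ≤ 9000 * a0 * (r1 + 1) := by positivity
      have h5 : 0 ≤ b2 * a0 := by positivity
      have h6 : 0 ≤ 100 * k1 * a0 := by positivity
      linarith) (by positivity)
    have h4 : Kq * Real.log y ≤ (3 * C + 1) * L * Real.log y := mul_le_mul_of_nonneg_right hKq2 hly0.le
    have h5 : (3 * C + 1) * L * Real.log y = 100 * (3 * C + 1) * a0 * (L ^ 2 / δ) / 100 := by rw [hlogy]; ring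
    rw [h5] at h4
    linarith
  have hinv : 1 / δ ≤ Real.log X := by
    have h3 := hlen 1 (by
      rw [hlam]
      have : 0 ≤ |lam3| := abs_nonneg _
      have h4 : 0 ≤ 9000 * a0 * (r1 + 1) := by positivity
      have h5 : 0 ≤ b2 * a0 := by positivity
      have h6 : 0 ≤ 100 * k1 * a0 := by positivity
      have h7 : 0 ≤ 100 * (3 * C + 1) * a0 := by positivity
      linarith) (by norm_num)
    have h4 : 1 / δ ≤ L ^ 2 / δ := div_le_div_of_nonneg_right (one_le_pow₀ hL1) hδ.le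
    linarith
  have hlam3L : lam3 * Real.log (1 / δ) ≤ δ * Real.log X := by
    rw [← hL]
    have h3 : lam3 ≤ lam := by
      rw [hlam]
      have : lam3 ≤ |lam3| := le_abs_self _
      have h4 : 0 ≤ 9000 * a0 * (r1 + 1) := by positivity
      have h5 : 0 ≤ b2 * a0 := by positivity
      have h6 : 0 ≤ 100 * k1 * a0 := by positivity
      have h7 : 0 ≤ 100 * (3 * C + 1) * a0 := by positivity
      linarith
    calc lam3 * L ≤ lam * L := mul_le_mul_of_nonneg_right h3 (by linarith)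
      _ ≤ lam * L ^ 2 := mul_le_mul_of_nonneg_left hLL hlam0.le
      _ ≤ δ * Real.log X := hlamX
  have hSPlen : Real.exp (Real.log y * (180 * ((Rs:ℝ) + 1))) ≤ (2 * (X + 1)) ^ ((1:ℝ) / 50) := by
    have h3 := hlen (9000 * a0 * (r1 + 1)) (by
      rw [hlam]
      have : 0 ≤ |lam3| := abs_nonneg _
      have h5 : 0 ≤ b2 * a0 := by positivity
      have h6 : 0 ≤ 100 * k1 * a0 := by positivity
      have h7 : 0 ≤ 100 * (3 * C + 1) * a0 := by positivity
      linarith) (by positivity)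
    have h4 : Real.log y * (180 * ((Rs:ℝ) + 1)) ≤ Real.log X * (1 / 50) := by
      have h5 : (Rs:ℝ) + 1 ≤ (r1 + 1) * L := by
        have h8 : (r1 + 1) * L = r1 * L + L := by ring
        rw [h8]
        linarith
      have h6 : Real.log y * (180 * ((Rs:ℝ) + 1)) ≤ Real.log y * (180 * ((r1 + 1) * L)) := by
        apply mul_le_mul_of_nonneg_left _ hly0.le
        linarith
      have h7 : Real.log y * (180 * ((r1 + 1) * L)) = 9000 * a0 * (r1 + 1) * (L ^ 2 / δ) / 50 := by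
        rw [hlogy]; ring
      rw [h7] at h6
      linarith
    calc Real.exp (Real.log y * (180 * ((Rs:ℝ) + 1))) ≤ Real.exp (Real.log X * (1 / 50)) :=
          Real.exp_le_exp.2 h4
      _ = X ^ ((1:ℝ) / 50) := by rw [Real.rpow_def_of_pos hX0]
      _ ≤ (2 * (X + 1)) ^ ((1:ℝ) / 50) :=
          Real.rpow_le_rpow hX0.le (by linarith) (by norm_num)
  have hSP : SP (3 + CM) z Rs y J X :=
    ⟨hz, hzy, hJ1, fun i hi => ⟨hJ2 i hi, block_sum hCM hMer z y i⟩, hSPlen⟩
  -- the length of the window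
  obtain ⟨H, hH⟩ : ∃ H : ℝ, H = δ ^ (-D) := ⟨_, rfl⟩
  have hH0 : 0 < H := by rw [hH]; exact Real.rpow_pos_of_pos hδ _
  have hHX : H ≤ X ^ ((1:ℝ) / 2) := by
    have h3 : H ≤ Real.log X ^ D := by
      rw [hH, Real.rpow_neg hδ.le, ← Real.inv_rpow hδ.le]
      apply Real.rpow_le_rpow (by positivity) _ hD.le
      rw [← one_div]
      exact hinv
    exact h3.trans hX4
  have hHX1 : H + 1 ≤ X := by
    have h3 : X ^ ((1:ℝ) / 2) = Real.sqrt X := by rw [Real.sqrt_eq_rpow]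
    have h4 : 4 ≤ Real.sqrt X := by
      have h5 : Real.sqrt 16 ≤ Real.sqrt X := Real.sqrt_le_sqrt hX5
      have h6 : Real.sqrt 16 = 4 := by
        rw [show (16:ℝ) = 4 ^ 2 by norm_num]
        exact Real.sqrt_sq (by norm_num)
      linarith
    have h5 : Real.sqrt X * Real.sqrt X = X := Real.mul_self_sqrt hX0.le
    rw [h3] at hHX
    have h6 : 4 * Real.sqrt X ≤ Real.sqrt X * Real.sqrt X :=
      mul_le_mul_of_nonneg_right h4 (Real.sqrt_nonneg X)
    linarith
  refine ⟨Rs, J, K, Kq, y, a2 * L, v, by rw [hRs]; omega, hSP, hinv, ?_, ?_, ?_, ?_, ?_, hKqL, ?_⟩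
  · rw [hδlogy]
    exact ha0x.trans (le_mul_of_one_le_right (by linarith) hL1)
  · rw [hv, ← hL]
    exact hlly
  · rw [hv]
    exact PP_sum hCM hMer (by omega) hzy
  · refine le_trans ?_ hK1
    have h3 : C * (a2 * L + v + 1) ≤ C * (a2 * L + 2 * L + 1) := by
      apply mul_le_mul_of_nonneg_left _ hC.le
      rw [hv]
      linarith
    have h4 : 0 ≤ b3 * L := by positivity
    linarith
  · refine le_trans ?_ hKq1
    apply mul_le_mul_of_nonneg_left _ hC.le
    rw [hv]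
    linarith
  -- the measure
  · have m1 := hX1 z Rs J y (by rw [hRs]; omega) hSP δ hδ d16 H hH0.le hHX
    have m2 := hX2 δ hδ d2 z y (by omega) hzy (by rw [← hL]; exact hb2L) hinv H hH0.le hHX
    have hmean := hX3 δ hδ d3 hlam3L y K hzy (by
      rw [← hL, hδlogy]
      exact mul_le_mul_of_nonneg_right ha03 (by linarith)) (by
      rw [← hL]
      have h4 : 0 ≤ C * (a2 * L + 2 * L + 1) := by positivity
      linarith) hKL
    have hX12 : X ^ ((9:ℝ) / 10) ≤ 2 * X := by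
      have h3 : X ^ ((9:ℝ) / 10) ≤ X ^ (1:ℝ) :=
        Real.rpow_le_rpow_of_exponent_le (by linarith) (by norm_num)
      rw [Real.rpow_one] at h3
      linarith
    have m3 := hSup (Ez z y K) (Ez_diff z y K) δ (X ^ ((9:ℝ) / 10)) (2 * X) (X * δ ^ (2 * D + 6)) hδ d16 hX12
      (mul_nonneg hX0.le (Real.rpow_nonneg hδ.le _)) hmean H η1 hH0.le hη1
    rw [← hH]
    have hsub : {t : ℝ | X ^ ((9:ℝ) / 10) + 1 ≤ t ∧ t ≤ X ∧ ∃ u : ℝ, t ≤ u ∧ u ≤ t + H ∧
        ¬ (G1 A z Rs y J δ u ∧ ‖ec (1 / 2 + δ + u * I) (xc (PP z y))‖ ≤ a2 * L ∧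
          ‖Ez z y K (1 / 2 + δ + u * I)‖ ≤ η1)} ⊆
        ({t : ℝ | X ^ ((9:ℝ) / 10) + 1 ≤ t ∧ t ≤ X ∧ ∃ u : ℝ, t ≤ u ∧ u ≤ t + H ∧ ¬ G1 A z Rs y J δ u} ∪
        {t : ℝ | X ^ ((9:ℝ) / 10) + 1 ≤ t ∧ t ≤ X ∧ ∃ u : ℝ, t ≤ u ∧ u ≤ t + H ∧
          a2 * Real.log (1 / δ) < ‖ec (1 / 2 + δ + u * I) (xc (PP z y))‖}) ∪
        {t : ℝ | X ^ ((9:ℝ) / 10) + 1 ≤ t ∧ t + H + 1 ≤ 2 * X ∧ ∃ u : ℝ, t ≤ u ∧ u ≤ t + H ∧
          η1 ≤ ‖Ez z y K (1 / 2 + δ + u * I)‖} := by
      rintro t ⟨ht1, ht2, u, hu1, hu2, hu3⟩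
      by_cases hg : G1 A z Rs y J δ u
      · by_cases hg2 : ‖ec (1 / 2 + δ + u * I) (xc (PP z y))‖ ≤ a2 * L
        · right
          refine ⟨ht1, by linarith, u, hu1, hu2, ?_⟩
          by_contra hcon
          push Not at hcon
          exact hu3 ⟨hg, hg2, hcon.le⟩
        · left; right
          push Not at hg2
          rw [hL] at hg2
          exact ⟨ht1, ht2, u, hu1, hu2, hg2⟩
      · left; left
        exact ⟨ht1, ht2, u, hu1, hu2, hg⟩
    refine (measure_mono hsub).trans ((measure_union_le _ _).trans ((add_le_add ((measure_union_le _ _).trans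
      (add_le_add m1 m2)) m3).trans ?_))
    rw [← ENNReal.ofReal_add (by positivity) (by positivity), ← ENNReal.ofReal_add (by positivity)
      (by positivity)]
    apply ENNReal.ofReal_le_ofReal
    refine measure_sum hδ d16 hD hH hX0.le hC1 hCS hη1 ?_ ?_ (by rw [← hL]; exact hRs1)
    · rw [le_div_iff₀ (by positivity)] at d4
      linarith
    · rw [le_div_iff₀ (by positivity)] at d5
      linarith

end Pool.Agent.N748.HM.PRM
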