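import Pool.Agent.N748.HM.Stm
import Pool.Agent.N748.GC.BLK
import Pool.Agent.N748.GC.NN
import Pool.Agent.N748.GC.TWO

set_option autoImplicit false

/-!
# HM/SQ1: the factor of the squares of the primes, mean square (helper519)
-/

namespace Pool.Agent.N748.HM.SQ1

open Finset MonoidAlgebra Complex
open Pool.Agent.N748.GC
open Pool.Agent.N748.GC.BLK (Dm Su)

/-- nonnegative coefficients -/
def Pos (f : PC) : Prop := Dm f f

lemma Pos.add {f g : PC} (hf : Pos f) (hg : Pos g) : Pos (f + g) := by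
  refine Dm.of (fun n => ‖f.coeff n‖ + ‖g.coeff n‖) fun n => ⟨?_, ?_⟩
  · rw [coeff_add, Finsupp.add_apply]
    push_cast
    rw [← (hf n).1, ← (hg n).1]
  · rw [coeff_add, Finsupp.add_apply]
    exact norm_add_le _ _

lemma Pos.mul {f g : PC} (hf : Pos f) (hg : Pos g) : Pos (f * g) := Dm.mul hf hg

lemma Pos.pow {f : PC} (hf : Pos f) (k : ℕ) : Pos (f ^ k) := Dm.pow hf k

lemma Pos.sum {ι : Type*} {S : Finset ι} {f : ι → PC} (h : ∀ j ∈ S, Pos (f j)) :
    Pos (∑ j ∈ S, f j) := Dm.sum h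

lemma Pos.smul {f : PC} (hf : Pos f) {r : ℝ} (hr : 0 ≤ r) : Pos ((r : ℂ) • f) :=
  Dm.smul hf (by rw [Complex.norm_real, Real.norm_of_nonneg hr])

lemma Pos.single (m : ℕ) {r : ℝ} (hr : 0 ≤ r) : Pos (MonoidAlgebra.single m (r : ℂ)) :=
  Dm.single (by rw [Complex.norm_real, Real.norm_of_nonneg hr])

lemma Pos.one : Pos (1 : PC) := by
  have := Pos.single 1 (zero_le_one (α := ℝ))
  rw [Complex.ofReal_one] at this
  exact this

lemma Pos.zero : Pos (0 : PC) := by
  intro n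
  simp

lemma Dm.trans' {f g h : PC} (h1 : Dm f g) (h2 : Dm g h) : Dm f h :=
  fun n => ⟨(h2 n).1, (h1 n).2.trans (h2 n).2⟩

lemma Dm.add_right {f g : PC} (hf : Pos f) (hg : Pos g) : Dm f (f + g) := by
  refine Dm.of (fun n => ‖f.coeff n‖ + ‖g.coeff n‖) fun n => ⟨?_, ?_⟩
  · rw [coeff_add, Finsupp.add_apply]
    push_cast
    rw [← (hf n).1, ← (hg n).1]
  · linarith [norm_nonneg (g.coeff n)]

lemma NKc_pos (K : ℕ) {a : ℝ} (ha : 0 ≤ a) {x : PC} (hx : Pos x) : Pos (NKc K a x) := by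
  unfold NKc
  exact Pos.sum fun k _ => (hx.pow k).smul (by positivity)

lemma NKc_sub (K : ℕ) (a : ℝ) (x : PC) : NKc K a x = 1 + ∑ k ∈ range K,
    ((a ^ (k + 1) / ((k + 1).factorial : ℝ) : ℝ) : ℂ) • x ^ (k + 1) := by
  unfold NKc
  rw [sum_range_succ', add_comm]
  simp

/-- monotone in the degree -/
lemma NKc_mono {K M : ℕ} (hKM : K ≤ M) {a : ℝ} (ha : 0 ≤ a) {x : PC} (hx : Pos x) :
    Dm (NKc K a x) (NKc M a x) := by
  have h1 : NKc M a x = NKc K a x + ∑ k ∈ Ico (K + 1) (M + 1),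
      ((a ^ k / (k.factorial : ℝ) : ℝ) : ℂ) • x ^ k := by
    unfold NKc
    rw [sum_range_add_sum_Ico _ (by omega)]
  rw [h1]
  exact Dm.add_right (NKc_pos K ha hx) (Pos.sum fun k _ => (hx.pow k).smul (by positivity))

/-- the truncated exponential of a sum -/
lemma NKc_add (K : ℕ) {a : ℝ} (ha : 0 ≤ a) {x y : PC} (hx : Pos x) (hy : Pos y) :
    Dm (NKc K a (x + y)) (NKc K a x * NKc K a y) := by
  classical
  set T : ℕ × ℕ → PC := fun m => (((a ^ m.1 / (m.1.factorial : ℝ) : ℝ) : ℂ) • x ^ m.1) *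
    (((a ^ m.2 / (m.2.factorial : ℝ) : ℝ) : ℂ) • y ^ m.2) with hT
  have hTpos : ∀ m, Pos (T m) := fun m =>
    ((hx.pow _).smul (by positivity)).mul ((hy.pow _).smul (by positivity))
  have h1 : NKc K a (x + y) = ∑ k ∈ range (K + 1), ∑ m ∈ antidiagonal k, T m := by
    unfold NKc
    refine sum_congr rfl fun k _ => ?_
    rw [(Commute.all x y).add_pow', smul_sum]
    refine sum_congr rfl fun m hm => ?_
    rw [HasAntidiagonal.mem_antidiagonal] at hm
    rw [hT]
    simp only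
    rw [smul_mul_smul_comm, ← Nat.cast_smul_eq_nsmul ℂ, smul_smul]
    congr 1
    have h2 : (k.choose m.1 : ℝ) * (m.1.factorial : ℝ) * (m.2.factorial : ℝ) = k.factorial := by
      have h3 := Nat.choose_mul_factorial_mul_factorial (show m.1 ≤ k by omega)
      have h4 : k - m.1 = m.2 := by omega
      rw [h4] at h3
      exact_mod_cast h3
    have h5 : (a ^ k / (k.factorial : ℝ)) * (k.choose m.1 : ℝ) =
        (a ^ m.1 / (m.1.factorial : ℝ)) * (a ^ m.2 / (m.2.factorial : ℝ)) := by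
      have f1 : (k.factorial : ℝ) ≠ 0 := by exact_mod_cast Nat.factorial_ne_zero k
      have f2 : (m.1.factorial : ℝ) ≠ 0 := by exact_mod_cast Nat.factorial_ne_zero _
      have f3 : (m.2.factorial : ℝ) ≠ 0 := by exact_mod_cast Nat.factorial_ne_zero _
      rw [← hm, pow_add] at *
      field_simp
      linear_combination (a ^ m.1 * a ^ m.2) * h2
    have h6 := congrArg (fun t : ℝ => (t : ℂ)) h5
    push_cast at h6 ⊢
    exact h6
  have h2 : NKc K a x * NKc K a y = ∑ m ∈ range (K + 1) ×ˢ range (K + 1), T m := by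
    unfold NKc
    rw [sum_mul_sum, sum_product]
  have h3 : ∑ k ∈ range (K + 1), ∑ m ∈ antidiagonal k, T m =
      ∑ m ∈ (range (K + 1) ×ˢ range (K + 1)).filter (fun m => m.1 + m.2 ∈ range (K + 1)), T m := by
    rw [← sum_fiberwise_of_maps_to (s := (range (K + 1) ×ˢ range (K + 1)).filter
      (fun m => m.1 + m.2 ∈ range (K + 1))) (t := range (K + 1)) (g := fun m => m.1 + m.2)
      (fun m hm => (mem_filter.1 hm).2)]
    refine sum_congr rfl fun k hk => ?_
    refine sum_congr ?_ fun _ _ => rfl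
    ext m
    simp only [HasAntidiagonal.mem_antidiagonal, mem_filter, mem_product, mem_range] at hk ⊢
    omega
  rw [h1, h2, h3, ← sum_filter_add_sum_filter_not (range (K + 1) ×ˢ range (K + 1))
    (fun m => m.1 + m.2 ∈ range (K + 1))]
  exact Dm.add_right (Pos.sum fun m _ => hTpos m) (Pos.sum fun m _ => hTpos m)

/-- the truncated exponential of a sum is dominated by the product -/
lemma NKc_sum {K M : ℕ} (hKM : K ≤ M) {a : ℝ} (ha : 0 ≤ a) (x : ℕ → PC) (hx : ∀ p, Pos (x p))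
    (I : Finset ℕ) : Dm (NKc K a (∑ p ∈ I, x p)) (∏ p ∈ I, NKc M a (x p)) := by
  classical
  induction I using Finset.induction_on with
  | empty =>
    rw [sum_empty, prod_empty]
    have h1 : NKc K a 0 = 1 := by
      rw [NKc_sub, sum_eq_zero, add_zero]
      intro k _
      rw [zero_pow (Nat.succ_ne_zero k), smul_zero]
    rw [h1]
    exact Pos.one
  | insert p I hp ih =>
    rw [sum_insert hp, prod_insert hp]
    refine Dm.trans' (NKc_add K ha (hx p) (Pos.sum fun q _ => hx q)) ?_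
    exact Dm.mul (NKc_mono hKM ha (hx p)) ih

/-- products over the blocks -/
lemma prod_blocks {z : ℕ} (hz : 144 ≤ z) {y : ℝ} (hy : 1 ≤ y) (f : ℕ → PC) (j : ℕ) : ∀ k, j ≤ k →
    ∏ i ∈ Ico j k, ∏ p ∈ IB z y i, f p =
      ∏ p ∈ (Icc z ⌊be y j⌋₊).filter (fun p : ℕ => p.Prime ∧ be y k < (p:ℝ)), f p := by
  classical
  intro k hk
  induction k, hk using Nat.le_induction with
  | base =>
    rw [Ico_self, prod_empty, Finset.filter_eq_empty_iff.2, prod_empty]
    intro p hp h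
    have := (Nat.le_floor_iff (TWO.be_pos y j).le).1 (mem_Icc.1 hp).2
    linarith [h.2]
  | succ k hk ih =>
    rw [prod_Ico_succ_top hk, ih, ← prod_union]
    · congr 1
      ext p
      simp only [mem_union, mem_filter, mem_Icc, TWO.mem_IB hz]
      have h1 : be y (k + 1) ≤ be y k := TWO.be_anti hy (Nat.le_succ k)
      have h2 : be y k ≤ be y j := TWO.be_anti hy hk
      constructor
      · rintro (⟨⟨h3, h4⟩, h5, h6⟩ | ⟨h3, h4, h5, h6⟩)
        · exact ⟨⟨h3, h4⟩, h5, h1.trans_lt h6⟩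
        · exact ⟨⟨h3, Nat.le_floor (h5.trans h2)⟩, h4, h6⟩
      · rintro ⟨⟨h3, h4⟩, h5, h6⟩
        rcases lt_or_ge (be y k) (p:ℝ) with h7 | h7
        · exact Or.inl ⟨⟨h3, h4⟩, h5, h7⟩
        · exact Or.inr ⟨h3, h5, h7, h6⟩
    · rw [Finset.disjoint_left]
      intro p hp hp'
      have h1 := (mem_filter.1 hp).2.2
      have h2 := ((TWO.mem_IB hz).1 hp').2.2.1
      linarith

lemma prod_low {z : ℕ} (hz : 144 ≤ z) {y : ℝ} (hy : 1 ≤ y) (f : ℕ → PC) {J : ℕ}
    (hJ : be y J < 144) :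
    ∏ i ∈ Ico 0 J, ∏ p ∈ IB z y i, f p = ∏ p ∈ PP z y, f p := by
  rw [prod_blocks hz hy f 0 J (Nat.zero_le _), TWO.be_zero hy]
  unfold PP
  congr 1
  refine filter_congr fun p hp => ?_
  have h1 : (144:ℝ) ≤ p := by exact_mod_cast hz.trans (mem_Icc.1 hp).1
  exact ⟨fun h => h.1, fun h => ⟨h, hJ.trans_le h1⟩⟩

/-- the product over the blocks is dominated by an Euler product -/
lemma BP_dom {z : ℕ} (hz : 144 ≤ z) {y : ℝ} (hy : 1 ≤ y) {J : ℕ} (hJ : be y J < 144) (Rs : ℕ)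
    {α : ℝ} (hα : 0 ≤ α) {M : ℕ} (hM : ∀ i < J, 20 * RB Rs i ≤ M) :
    Dm (BP (fun _ => α) z y 0 J Rs) (∏ p ∈ PP z y, NKc M α (MonoidAlgebra.single p 1)) := by
  rw [← prod_low hz hy _ hJ]
  unfold BP
  have h1 : ∀ s : Finset ℕ, (∀ i ∈ s, i < J) →
      Dm (∏ i ∈ s, NKc (20 * RB Rs i) α (xc (IB z y i)))
        (∏ i ∈ s, ∏ p ∈ IB z y i, NKc M α (MonoidAlgebra.single p 1)) := by
    classical
    intro s
    induction s using Finset.induction_on with
    | empty =>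
      intro _
      rw [prod_empty, prod_empty]
      exact Pos.one
    | insert i s hi ih =>
      intro hs
      rw [prod_insert hi, prod_insert hi]
      refine Dm.mul ?_ (ih fun j hj => hs j (mem_insert_of_mem hj))
      unfold xc
      refine NKc_sum (hM i (hs i (mem_insert_self _ _))) hα _ (fun p => ?_) _
      have := Pos.single p (zero_le_one (α := ℝ))
      rwa [Complex.ofReal_one] at this
  exact h1 _ fun i hi => (mem_Ico.1 hi).2

lemma BP_pos (z : ℕ) (y : ℝ) (J Rs : ℕ) {α : ℝ} (hα : 0 ≤ α) :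
    Pos (BP (fun _ => α) z y 0 J Rs) := by
  unfold BP
  have h1 : ∀ s : Finset ℕ, Pos (∏ i ∈ s, NKc (20 * RB Rs i) α (xc (IB z y i))) := by
    classical
    intro s
    induction s using Finset.induction_on with
    | empty =>
      rw [prod_empty]
      exact Pos.one
    | insert i s hi ih =>
      rw [prod_insert hi]
      refine Pos.mul (NKc_pos _ hα ?_) ih
      unfold xc
      refine Pos.sum fun p _ => ?_
      have := Pos.single p (zero_le_one (α := ℝ))
      rwa [Complex.ofReal_one] at this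
  exact h1 _

lemma half_pos (n : ℕ) : Pos (MonoidAlgebra.single n (1 / 2 : ℂ)) := by
  have := Pos.single n (show (0:ℝ) ≤ 1 / 2 by norm_num)
  push_cast at this
  exact this

lemma GQ_dom (z : ℕ) (y : ℝ) {α : ℝ} (hα : 0 ≤ α) {Kq M : ℕ} (hM : Kq ≤ M) :
    Dm (GQ α z y Kq) (∏ p ∈ PP z y, NKc M α (MonoidAlgebra.single (p ^ 2) (1 / 2 : ℂ))) := by
  unfold GQ
  exact NKc_sum hM hα (fun p => MonoidAlgebra.single (p ^ 2) (1 / 2 : ℂ)) (fun p => half_pos _) _

lemma GQ_sub_pos (z : ℕ) (y : ℝ) {α : ℝ} (hα : 0 ≤ α) (Kq : ℕ) : Pos (GQ α z y Kq - 1) := by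
  unfold GQ
  rw [NKc_sub, add_sub_cancel_left]
  exact Pos.sum fun k _ => ((Pos.sum fun p _ => half_pos _).pow _).smul (by positivity)

/-- squares of sums of nonnegative coefficients -/
lemma nn_add_le (δ : ℝ) {f g : PC} (hf : Pos f) (hg : Pos g) : nn δ f + nn δ g ≤ nn δ (f + g) := by
  classical
  have h1 : (f + g).coeff.support ⊆ f.coeff.support ∪ g.coeff.support := by
    rw [coeff_add]
    exact Finsupp.support_add
  rw [NN.nn_eq δ (f + g) h1, NN.nn_eq δ f (subset_union_left (s₂ := g.coeff.support)),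
    NN.nn_eq δ g (subset_union_right (s₁ := f.coeff.support)), ← sum_add_distrib]
  refine sum_le_sum fun n _ => ?_
  rw [← add_mul]
  refine mul_le_mul_of_nonneg_right ?_ (NN.wd_nonneg δ n)
  have h2 : ‖(f + g).coeff n‖ = ‖f.coeff n‖ + ‖g.coeff n‖ := by
    rw [coeff_add, Finsupp.add_apply, (hf n).1, (hg n).1, ← Complex.ofReal_add, Complex.norm_real,
      Real.norm_of_nonneg (by positivity), Complex.norm_real, Complex.norm_real, norm_norm, norm_norm]
  rw [h2]
  nlinarith [norm_nonneg (f.coeff n), norm_nonneg (g.coeff n)]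

/-! ### one prime -/

/-- the factor of one prime -/
noncomputable def Fp (M : ℕ) (α : ℝ) (p : ℕ) : PC :=
  NKc M α (MonoidAlgebra.single p 1) * NKc M α (MonoidAlgebra.single (p ^ 2) (1 / 2 : ℂ))

lemma lc1_mono {f g : PC} (h : Dm f g) : lc1 f ≤ lc1 g := by
  have h1 : f.coeff.support ⊆ g.coeff.support := by
    intro n hn
    rw [Finsupp.mem_support_iff] at hn ⊢
    intro h0
    have h2 := (h n).2
    rw [h0, norm_zero] at h2
    exact hn (norm_le_zero_iff.1 h2)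
  rw [MV.lc1_eq_of_subset f h1]
  unfold lc1
  exact sum_le_sum fun n _ => (h n).2

lemma lc1_NKc_single (K : ℕ) {a b : ℝ} (ha : 0 ≤ a) (hb : 0 ≤ b) (n : ℕ) :
    lc1 (NKc K a (MonoidAlgebra.single n (b : ℂ))) ≤ Real.exp (a * b) := by
  unfold NKc
  refine (MV.lc1_sum _ _).trans ?_
  refine le_trans (le_of_eq ?_) (Real.sum_le_exp_of_nonneg (mul_nonneg ha hb) (K + 1))
  refine sum_congr rfl fun k _ => ?_
  rw [single_pow, smul_single, MV.lc1_single, smul_eq_mul, ← Complex.ofReal_pow,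
    ← Complex.ofReal_mul, Complex.norm_real, Real.norm_of_nonneg (by positivity), mul_pow]
  ring

lemma wd_anti {δ : ℝ} (hδ : 0 ≤ δ) {m n : ℕ} (hm : 1 ≤ m) (h : m ≤ n) : wd δ n ≤ wd δ m := by
  unfold wd
  have h1 : (1:ℝ) ≤ m := by exact_mod_cast hm
  have h2 : (m:ℝ) ≤ n := by exact_mod_cast h
  refine mul_le_mul ?_ ?_ (by positivity) (by positivity)
  · exact Real.rpow_le_rpow_of_nonpos (by linarith) h2 (by linarith)
  · exact one_div_le_one_div_of_le (by linarith) h2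

lemma nn_le_lc1 {δ : ℝ} (hδ : 0 ≤ δ) {m : ℕ} (hm : 1 ≤ m) {h : PC} (hs : Su (fun n => m ≤ n) h) :
    nn δ h ≤ wd δ m * lc1 h ^ 2 := by
  unfold nn
  have h1 : ∀ n ∈ h.coeff.support, ‖h.coeff n‖ ^ 2 * wd δ n ≤ wd δ m * (lc1 h * ‖h.coeff n‖) := by
    intro n hn
    have h2 : ‖h.coeff n‖ ≤ lc1 h := by
      unfold lc1
      exact single_le_sum (f := fun n => ‖h.coeff n‖) (fun _ _ => norm_nonneg _) hn
    have h3 := wd_anti hδ hm (hs n (Finsupp.mem_support_iff.1 hn))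
    calc ‖h.coeff n‖ ^ 2 * wd δ n = (‖h.coeff n‖ * ‖h.coeff n‖) * wd δ n := by ring
      _ ≤ (lc1 h * ‖h.coeff n‖) * wd δ m :=
        mul_le_mul (mul_le_mul_of_nonneg_right h2 (norm_nonneg _)) h3 (NN.wd_nonneg δ n)
          (mul_nonneg ((norm_nonneg _).trans h2) (norm_nonneg _))
      _ = _ := by ring
  refine (sum_le_sum h1).trans (le_of_eq ?_)
  rw [← mul_sum, ← mul_sum]
  have h4 : ∑ n ∈ h.coeff.support, ‖h.coeff n‖ = lc1 h := rfl
  rw [h4]
  ring

lemma disj_of {A B : ℕ → Prop} {f g : PC} (hf : Su A f) (hg : Su B g) (h : ∀ n, A n → ¬ B n) :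
    Disjoint f.coeff.support g.coeff.support := by
  rw [disjoint_left]
  intro n hn hn'
  exact h n (hf n (Finsupp.mem_support_iff.1 hn)) (hg n (Finsupp.mem_support_iff.1 hn'))

lemma Su.add' {A : ℕ → Prop} {f g : PC} (hf : Su A f) (hg : Su A g) : Su A (f + g) := by
  intro n hn
  rw [coeff_add, Finsupp.add_apply] at hn
  by_cases h : f.coeff n = 0
  · rw [h, zero_add] at hn
    exact hg n hn
  · exact hf n h

lemma Su_one {A : ℕ → Prop} (h : A 1) : Su A (1 : PC) := by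
  rw [one_def]
  exact BLK.Su.single h _

lemma Su_NKc {A : ℕ → Prop} (h1 : A 1) (hm : ∀ a b, A a → A b → A (a * b)) {x : PC} (hx : Su A x)
    (K : ℕ) (a : ℝ) : Su A (NKc K a x) := by
  unfold NKc
  refine BLK.Su.sum fun k _ => BLK.Su.smul ?_ _
  induction k with
  | zero =>
    rw [pow_zero]
    exact Su_one h1
  | succ k ih =>
    rw [pow_succ]
    exact BLK.Su.mul (ih (by
      rename_i h
      exact mem_range.2 (Nat.lt_of_succ_lt (mem_range.1 h)))) hx hm

/-- the bound for one prime -/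
lemma nn_Fp {M : ℕ} (hM : 1 ≤ M) {α : ℝ} (hα : 0 ≤ α) {δ : ℝ} (hδ : 0 ≤ δ) {p : ℕ} (hp : p.Prime) :
    nn δ (Fp M α p) ≤ 1 + α ^ 2 * wd δ p + Real.exp (3 * α) * wd δ p ^ 2 := by
  obtain ⟨M', rfl⟩ : ∃ M', M = M' + 1 := ⟨M - 1, by omega⟩
  have hp1 : 1 ≤ p := hp.one_lt.le
  have hpp : p < p ^ 2 := by
    have := hp.one_lt
    nlinarith
  set A1 := NKc (M' + 1) α (MonoidAlgebra.single p 1) with hA1
  set A2 := NKc (M' + 1) α (MonoidAlgebra.single (p ^ 2) (1 / 2 : ℂ)) with hA2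
  have hx1 : Pos (MonoidAlgebra.single p (1:ℂ)) := by
    have := Pos.single p (zero_le_one (α := ℝ))
    rwa [Complex.ofReal_one] at this
  have hx2 := half_pos (p ^ 2)
  have hA1p : Pos A1 := NKc_pos _ hα hx1
  set t : PC := ∑ k ∈ range M', ((α ^ (k + 2) / ((k + 2).factorial : ℝ) : ℝ) : ℂ) •
    (MonoidAlgebra.single p (1:ℂ)) ^ (k + 2) with ht
  set s : PC := ∑ k ∈ range (M' + 1), ((α ^ (k + 1) / ((k + 1).factorial : ℝ) : ℝ) : ℂ) •
    (MonoidAlgebra.single (p ^ 2) (1 / 2 : ℂ)) ^ (k + 1) with hs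
  have e1 : A1 = 1 + MonoidAlgebra.single p (α : ℂ) + t := by
    rw [hA1, NKc_sub, sum_range_succ', ht]
    have h2 : ((α ^ (0 + 1) / ((0 + 1).factorial : ℝ) : ℝ) : ℂ) •
        (MonoidAlgebra.single p (1:ℂ)) ^ (0 + 1) = MonoidAlgebra.single p (α : ℂ) := by
      rw [zero_add, pow_one, pow_one, smul_single, smul_eq_mul, mul_one]
      simp
    rw [h2]
    abel
  have e2 : A2 = 1 + s := by rw [hA2, NKc_sub]
  have htp : Pos t := Pos.sum fun k _ => (hx1.pow _).smul (by positivity)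
  have hsp : Pos s := Pos.sum fun k _ => (hx2.pow _).smul (by positivity)
  set h : PC := t + A1 * s with hh
  have hhp : Pos h := htp.add (hA1p.mul hsp)
  have eF : Fp (M' + 1) α p = 1 + MonoidAlgebra.single p (α : ℂ) + h := by
    unfold Fp
    rw [← hA1, ← hA2, e2, mul_add, mul_one, hh]
    rw [← add_assoc]
    rw [← e1]
  have hsupt : Su (fun n => p ^ 2 ≤ n) t := by
    refine BLK.Su.sum fun k _ => BLK.Su.smul ?_ _
    rw [single_pow]
    exact BLK.Su.single (Nat.pow_le_pow_right hp1 (by omega)) _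
  have hsups : Su (fun n => p ^ 2 ≤ n) s := by
    refine BLK.Su.sum fun k _ => BLK.Su.smul ?_ _
    rw [single_pow]
    refine BLK.Su.single ?_ _
    rw [← pow_mul]
    exact Nat.pow_le_pow_right hp1 (by omega)
  have hsupA : Su (fun n => 1 ≤ n) A1 :=
    Su_NKc le_rfl (fun a b ha hb => Nat.mul_pos ha hb) (BLK.Su.single hp1 _) _ _
  have hsuph : Su (fun n => p ^ 2 ≤ n) h :=
    Su.add' hsupt (BLK.Su.mul hsupA hsups fun a b ha hb => hb.trans (Nat.le_mul_of_pos_left b ha))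
  have hlc : lc1 h ≤ Real.exp (3 * α / 2) := by
    have h1 : Dm h (Fp (M' + 1) α p) := by
      rw [eF, add_comm]
      exact Dm.add_right hhp (Pos.one.add (Pos.single p hα))
    refine (lc1_mono h1).trans ?_
    refine (MV.lc1_mul _ _).trans ?_
    have h2 : lc1 A1 ≤ Real.exp (α * 1) := by
      have := lc1_NKc_single (M' + 1) hα (zero_le_one (α := ℝ)) p
      rwa [Complex.ofReal_one] at this
    have h3 : lc1 A2 ≤ Real.exp (α * (1 / 2)) := by
      have := lc1_NKc_single (M' + 1) hα (show (0:ℝ) ≤ 1 / 2 by norm_num) (p ^ 2)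
      push_cast at this
      exact this
    refine (mul_le_mul h2 h3 (MV.lc1_nonneg _) (Real.exp_pos _).le).trans (le_of_eq ?_)
    rw [← Real.exp_add]
    congr 1
    ring
  rw [eF, NN.nn_add_of_disjoint δ, NN.nn_add_of_disjoint δ, BLK.nn_one, NN.nn_single,
    Complex.norm_real, Real.norm_eq_abs, sq_abs]
  · have h1 := nn_le_lc1 hδ (Nat.one_le_pow 2 p hp1) hsuph
    have h2 : lc1 h ^ 2 ≤ Real.exp (3 * α) := by
      refine (pow_le_pow_left₀ (MV.lc1_nonneg _) hlc 2).trans (le_of_eq ?_)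
      rw [← Real.exp_nat_mul]
      congr 1
      push_cast
      ring
    have h3 := mul_le_mul_of_nonneg_left h2 (NN.wd_nonneg δ (p ^ 2))
    rw [BLK.wd_pow] at h1 h3
    linarith
  · refine disj_of (A := fun n => n = 1) (B := fun n => n = p) (Su_one rfl)
      (BLK.Su.single (A := fun n => n = p) rfl _) ?_
    rintro n rfl h2
    exact hp.one_lt.ne h2
  · refine disj_of (A := fun n => n ≤ p) (B := fun n => p ^ 2 ≤ n)
      (Su.add' (Su_one hp1) (BLK.Su.single (A := fun n => n ≤ p) le_rfl _)) hsuph ?_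
    intro n h1 h2
    exact absurd (h2.trans h1) (not_le.2 hpp)

lemma Su_Fp (M : ℕ) (α : ℝ) {p : ℕ} (hp : p.Prime) : Su (Mo {p}) (Fp M α p) := by
  have h1 : Mo {p} 1 := ⟨one_ne_zero, fun q hq hd => absurd (Nat.dvd_one.1 hd) hq.one_lt.ne'⟩
  have hm : ∀ a b, Mo {p} a → Mo {p} b → Mo {p} (a * b) := fun a b => BLK.Mo.mul
  have hpm : Mo {p} p := ⟨hp.ne_zero, fun q hq hd => by
    rw [mem_singleton]
    exact (Nat.prime_dvd_prime_iff_eq hq hp).1 hd⟩
  unfold Fp
  refine BLK.Su.mul (Su_NKc h1 hm (BLK.Su.single hpm _) _ _)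
    (Su_NKc h1 hm (BLK.Su.single ?_ _) _ _) hm
  rw [pow_two]
  exact hm _ _ hpm hpm

lemma Su_prod (M : ℕ) (α : ℝ) (I : Finset ℕ) (hI : ∀ p ∈ I, p.Prime) :
    Su (Mo I) (∏ p ∈ I, Fp M α p) ∧ ∀ δ : ℝ, nn δ (∏ p ∈ I, Fp M α p) = ∏ p ∈ I, nn δ (Fp M α p) := by
  classical
  induction I using Finset.induction_on with
  | empty =>
    refine ⟨?_, fun δ => ?_⟩
    · rw [prod_empty]
      exact Su_one ⟨one_ne_zero, fun q hq hd => absurd (Nat.dvd_one.1 hd) hq.one_lt.ne'⟩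
    · rw [prod_empty, prod_empty, BLK.nn_one]
  | insert p I hp ih =>
    obtain ⟨h1, h2⟩ := ih fun q hq => hI q (mem_insert_of_mem hq)
    have h3 := Su_Fp M α (hI p (mem_insert_self _ _))
    refine ⟨?_, fun δ => ?_⟩
    · rw [prod_insert hp]
      refine BLK.Su.mul h3 h1 fun a b ha hb => ⟨mul_ne_zero ha.1 hb.1, fun q hq hd => ?_⟩
      rcases (Nat.Prime.dvd_mul hq).1 hd with h | h
      · have := ha.2 q hq h
        rw [mem_singleton] at this
        rw [this]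
        exact mem_insert_self _ _
      · exact mem_insert_of_mem (hb.2 q hq h)
    · rw [prod_insert hp, prod_insert hp, ← h2 δ]
      exact NN.main δ {p} I (disjoint_singleton_left.2 hp) _ _
        (fun n hn => h3 n (Finsupp.mem_support_iff.1 hn))
        (fun n hn => h1 n (Finsupp.mem_support_iff.1 hn))

lemma PP_prime {z : ℕ} {y : ℝ} : ∀ p ∈ PP z y, p.Prime := fun _ hp => (mem_filter.1 hp).2

/-- the sum of the squares of the weights -/
lemma sum_sq {z : ℕ} (hz : 2 ≤ z) (y : ℝ) {δ : ℝ} (hδ : 0 ≤ δ) :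
    ∑ p ∈ PP z y, wd δ p ^ 2 ≤ ((z:ℝ) - 1)⁻¹ := by
  have hz' : (2:ℝ) ≤ z := by exact_mod_cast hz
  rcases le_or_gt (z - 1) ⌊y⌋₊ with h | h
  · have h1 := sum_Ioc_inv_sq_le_sub (α := ℝ) (k := z - 1) (n := ⌊y⌋₊) (by omega) h
    have h2 : ∑ p ∈ PP z y, wd δ p ^ 2 ≤ ∑ i ∈ Ioc (z - 1) ⌊y⌋₊, (((i:ℝ)) ^ 2)⁻¹ := by
      have h3 : PP z y ⊆ Ioc (z - 1) ⌊y⌋₊ := by
        intro p hp
        have := mem_Icc.1 (mem_filter.1 hp).1
        rw [mem_Ioc]
        omega
      refine le_trans (sum_le_sum fun p hp => ?_) (sum_le_sum_of_subset_of_nonneg h3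
        fun i _ _ => by positivity)
      have h4 : wd δ p ≤ 1 / (p:ℝ) := by
        unfold wd
        have hp1 : (1 : ℝ) ≤ p := by exact_mod_cast (PP_prime p hp).one_lt.le
        refine mul_le_of_le_one_left (by positivity) ?_
        exact Real.rpow_le_one_of_one_le_of_nonpos hp1 (by linarith)
      refine (pow_le_pow_left₀ (NN.wd_nonneg δ p) h4 2).trans (le_of_eq ?_)
      rw [div_pow, one_pow, one_div]
    refine h2.trans (h1.trans ?_)
    have h5 : ((z - 1 : ℕ) : ℝ) = (z:ℝ) - 1 := by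
      rw [Nat.cast_sub (by omega)]
      simp
    rw [h5]
    have : (0:ℝ) ≤ (⌊y⌋₊ : ℝ)⁻¹ := by positivity
    linarith
  · have h1 : PP z y = ∅ := by
      rw [PP, filter_eq_empty_iff]
      intro p hp
      have := mem_Icc.1 hp
      omega
    rw [h1, sum_empty]
    exact inv_nonneg.2 (by linarith)

/-- the upper bound for the mean square of the product -/
lemma upper {z : ℕ} (hz : 144 ≤ z) {y : ℝ} (hy : 1 ≤ y) {J : ℕ} (hJ : be y J < 144) (Rs Kq : ℕ)
    {α : ℝ} (hα : 0 ≤ α) {δ : ℝ} (hδ : 0 ≤ δ) :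
    nn δ (BP (fun _ => α) z y 0 J Rs * GQ α z y Kq) ≤
      Real.exp (α ^ 2 * VB δ z y 0 J + Real.exp (3 * α) * ((z:ℝ) - 1)⁻¹) := by
  set M : ℕ := 20 * RB Rs J + Kq + 1 with hM
  have hM1 : ∀ i < J, 20 * RB Rs i ≤ M := by
    intro i hi
    unfold RB at *
    omega
  have h1 := Dm.mul (BP_dom hz hy hJ Rs hα hM1) (GQ_dom z y hα (show Kq ≤ M by omega))
  refine (BLK.nn_mono δ h1).trans ?_
  rw [← prod_mul_distrib]
  have h2 := (Su_prod M α (PP z y) PP_prime).2 δ
  unfold Fp at h2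
  rw [h2]
  have h3 : ∀ p ∈ PP z y, nn δ (NKc M α (MonoidAlgebra.single p 1) *
      NKc M α (MonoidAlgebra.single (p ^ 2) (1 / 2 : ℂ))) ≤
      Real.exp (α ^ 2 * wd δ p + Real.exp (3 * α) * wd δ p ^ 2) := by
    intro p hp
    have h4 := nn_Fp (show 1 ≤ M by omega) hα hδ (PP_prime p hp)
    unfold Fp at h4
    refine h4.trans ?_
    have h5 := Real.add_one_le_exp (α ^ 2 * wd δ p + Real.exp (3 * α) * wd δ p ^ 2)
    linarith
  refine (prod_le_prod (fun p _ => NN.nn_nonneg _ _) h3).trans ?_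
  rw [← Real.exp_sum]
  apply Real.exp_le_exp.2
  rw [sum_add_distrib, ← mul_sum, ← mul_sum]
  have h6 : ∑ p ∈ PP z y, wd δ p = VB δ z y 0 J := by
    unfold VB PP
    rw [TWO.sum_low hz hy (wd δ) (Nat.zero_le J) hJ, TWO.be_zero hy]
  rw [h6]
  have h7 := mul_le_mul_of_nonneg_left (sum_sq (show 2 ≤ z by omega) y hδ) (Real.exp_pos (3 * α)).le
  linarith

theorem main (hL : S_NNL3) : S_SQ1 := by
  intro α hα c hc e he
  obtain ⟨A, hA⟩ := exists_nat_ge α
  obtain ⟨z1, R0, h1⟩ := hL c hc A (e / 2) (by positivity)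
  -- choice of `z0`
  have hlog : 0 < Real.log (1 + e / 2) := Real.log_pos (by linarith)
  obtain ⟨z2, hz2⟩ := exists_nat_ge (Real.exp (3 * α) / Real.log (1 + e / 2) + 2)
  refine ⟨max (max z1 144) z2, R0, ?_⟩
  intro z J Rs Kq y hz hR hy hJ hcI δ hδ
  have hza : z1 ≤ z := (le_max_left _ _).trans ((le_max_left _ _).trans hz)
  have hzb : 144 ≤ z := (le_max_right _ _).trans ((le_max_left _ _).trans hz)
  have hzc : (z2:ℝ) ≤ z := by exact_mod_cast (le_max_right _ _).trans hz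
  have hlow := h1 z J Rs y hza hR hy hcI δ hδ α hα.le hA
  have hup := upper hzb hy hJ Rs Kq hα.le hδ
  have hadd := nn_add_le δ (BP_pos z y J Rs hα.le)
    ((BP_pos z y J Rs hα.le).mul (GQ_sub_pos z y hα.le Kq))
  have e1 : BP (fun _ => α) z y 0 J Rs + BP (fun _ => α) z y 0 J Rs * (GQ α z y Kq - 1) =
      BP (fun _ => α) z y 0 J Rs * GQ α z y Kq := by ring
  rw [e1] at hadd
  have h2 : Real.exp (3 * α) * ((z:ℝ) - 1)⁻¹ ≤ Real.log (1 + e / 2) := by
    have h3 : Real.exp (3 * α) / Real.log (1 + e / 2) ≤ (z:ℝ) - 1 := by linarith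
    have h4 : 0 < (z:ℝ) - 1 := lt_of_lt_of_le (by positivity) h3
    rw [div_le_iff₀ hlog] at h3
    rw [← div_eq_mul_inv, div_le_iff₀ h4]
    linarith
  have h3 : Real.exp (α ^ 2 * VB δ z y 0 J + Real.exp (3 * α) * ((z:ℝ) - 1)⁻¹) ≤
      Real.exp (α ^ 2 * VB δ z y 0 J) * (1 + e / 2) := by
    rw [Real.exp_add]
    refine mul_le_mul_of_nonneg_left ?_ (Real.exp_pos _).le
    rw [← Real.exp_log (show 0 < 1 + e / 2 by linarith)]
    exact Real.exp_le_exp.2 h2
  nlinarith [Real.exp_pos (α ^ 2 * VB δ z y 0 J)]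

end Pool.Agent.N748.HM.SQ1
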