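import Pool.Agent.N748.HM.Stm
import Pool.Agent.N748.GC.ONE
import Pool.Agent.N748.GC.LEN
import Pool.Agent.N748.GC.EQ
import Pool.Agent.N748.GC.MV

set_option autoImplicit false

/-!
# Project HM, part SQ2: the factor of the squares of the primes, mean with the weights
-/

namespace Pool.Agent.N748.HM.SQ2

open Finset Filter MeasureTheory MonoidAlgebra Topology Complex
open Pool.Agent.N748.GC
open Pool.Agent.N748.GC.ONE (Xl_small VB_nonneg int_F)
open Pool.Agent.N748.GC.LEN (Q Q_mul Q_pow Q_mono Cop_sum Cop_smul Cop_mono Cop_add Cop_one lc1_smul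
  lc1_one Sm_prime)

/-- the sum over the squares of the primes -/
lemma Q_sq (z : ℕ) {y : ℝ} (hy : 1 ≤ y) :
    Q (Sm z) (y ^ 2) (∑ p ∈ PP z y, single (p ^ 2) (1 / 2 : ℂ)) := by
  have hy0 : 0 ≤ y := by linarith
  have hsupp : ∀ p ∈ PP z y, p.Prime ∧ z ≤ p ∧ (p : ℝ) ≤ y := by
    intro p hp
    unfold PP at hp
    rw [mem_filter, mem_Icc] at hp
    exact ⟨hp.2, hp.1.1, (Nat.le_floor_iff hy0).1 hp.1.2⟩
  constructor
  · refine Cop_sum _ fun p hp => ?_
    intro n hn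
    have h1 : n = p ^ 2 := by
      rw [MonoidAlgebra.coeff_single] at hn
      exact mem_singleton.1 (Finsupp.support_single_subset hn)
    subst h1
    obtain ⟨h2, h3, h4⟩ := hsupp p hp
    refine ⟨pow_ne_zero 2 h2.ne_zero, ?_, fun q hq hd => ?_⟩
    · push_cast
      exact pow_le_pow_left₀ (Nat.cast_nonneg _) h4 2
    · have h5 := (Nat.prime_dvd_prime_iff_eq (Sm_prime q hq) h2).1
        ((Sm_prime q hq).dvd_of_dvd_pow hd)
      unfold Sm at hq
      rw [mem_filter, mem_range] at hq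
      omega
  · refine (MV.lc1_sum _ _).trans ?_
    have h1 : ∀ p ∈ PP z y, lc1 (single (p ^ 2) (1 / 2 : ℂ)) ≤ 1 := fun p _ => by
      rw [MV.lc1_single]
      norm_num
    refine (sum_le_sum h1).trans ?_
    rw [sum_const, nsmul_eq_mul, mul_one]
    have h2 : (PP z y).card ≤ ⌊y⌋₊ := by
      have h0 : PP z y ⊆ Icc 1 ⌊y⌋₊ := by
        intro p hp
        unfold PP at hp
        rw [mem_filter, mem_Icc] at hp
        rw [mem_Icc]
        exact ⟨hp.2.one_lt.le, hp.1.2⟩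
      refine (card_le_card h0).trans (by simp)
    refine ((Nat.cast_le.2 h2).trans (Nat.floor_le hy0)).trans ?_
    nlinarith

lemma Q_NKc' {z : ℕ} {b : ℝ} (hb : 1 ≤ b) {x : PC} (hx : Q (Sm z) b x) (K : ℕ) {a : ℝ}
    (h0 : 0 ≤ a) : Q (Sm z) (Real.exp a * b ^ K) (NKc K a x) := by
  have hbK : ∀ k ∈ range (K + 1), b ^ k ≤ b ^ K := fun k hk =>
    pow_le_pow_right₀ hb (by have := mem_range.1 hk; omega)
  have hbK0 : 0 ≤ b ^ K := by positivity
  have he : 1 ≤ Real.exp a := Real.one_le_exp h0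
  constructor
  · unfold NKc
    refine Cop_sum _ fun k hk => Cop_smul _ ?_
    refine Cop_mono ?_ (Q_pow Sm_prime (by linarith) hx k).1
    have := hbK k hk
    nlinarith
  · unfold NKc
    refine (MV.lc1_sum _ _).trans ?_
    calc ∑ k ∈ range (K + 1), lc1 (((a ^ k / (k.factorial : ℝ) : ℝ) : ℂ) • x ^ k)
        ≤ ∑ k ∈ range (K + 1), a ^ k / (k.factorial : ℝ) * b ^ K := by
          refine sum_le_sum fun k hk => ?_
          refine (lc1_smul _ _).trans ?_
          rw [Complex.norm_real, Real.norm_of_nonneg (by positivity)]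
          exact mul_le_mul_of_nonneg_left
            ((Q_pow Sm_prime (by linarith) hx k).2.trans (hbK k hk)) (by positivity)
      _ = (∑ k ∈ range (K + 1), a ^ k / (k.factorial : ℝ)) * b ^ K := by rw [sum_mul]
      _ ≤ Real.exp a * b ^ K :=
        mul_le_mul_of_nonneg_right (Real.sum_le_exp_of_nonneg h0 (K + 1)) hbK0

lemma Q_sub_one {z : ℕ} {N : ℝ} (hN : 0 ≤ N) {f : PC} (hf : Q (Sm z) N f) :
    Q (Sm z) (N + 1) (f - 1) := by
  have e : f - 1 = f + (-1 : ℂ) • (1 : PC) := by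
    rw [neg_smul, one_smul, sub_eq_add_neg]
  rw [e]
  constructor
  · exact Cop_add (Cop_mono (by linarith) hf.1) (Cop_smul _ (Cop_one Sm_prime (by linarith)))
  · refine (MV.lc1_add _ _).trans (add_le_add hf.2 ?_)
    refine (lc1_smul _ _).trans ?_
    rw [lc1_one]
    norm_num

/-- the two polynomials are short -/
lemma len_ok2 {α y X R : ℝ} {Kq : ℕ} (hy : 1 ≤ y) (hR : 0 ≤ R) (hX : 3 ≤ X)
    (hX2 : Real.exp α + 1 ≤ X ^ ((13:ℝ) / 200))
    (h : Real.exp (Real.log y * (180 * (R + 1))) ≤ (2 * (X + 1)) ^ ((1:ℝ) / 50))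
    (hK : Kq * Real.log y ≤ Real.log X / 100) :
    Real.exp (Real.log y * (90 * (R + 1))) * (Real.exp α * (y ^ 2) ^ Kq + 1) ≤
      X ^ ((1:ℝ) / 8) := by
  have hX0 : 0 < X := by linarith
  have hy0 : 0 < y := by linarith
  have hl : 0 ≤ Real.log y := Real.log_nonneg hy
  have h1 : Real.exp (Real.log y * (90 * (R + 1))) ≤ Real.exp (Real.log y * (180 * (R + 1))) := by
    apply Real.exp_le_exp.2
    exact mul_le_mul_of_nonneg_left (by linarith) hl
  have h2 : (2 * (X + 1)) ^ ((1:ℝ) / 50) ≤ (X ^ (2:ℝ)) ^ ((1:ℝ) / 50) := by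
    refine Real.rpow_le_rpow (by linarith) ?_ (by norm_num)
    rw [Real.rpow_two]
    nlinarith
  have h3 : (X ^ (2:ℝ)) ^ ((1:ℝ) / 50) = X ^ ((1:ℝ) / 25) := by
    rw [← Real.rpow_mul (by linarith)]
    norm_num
  have h4 : (y ^ 2) ^ Kq ≤ X ^ ((1:ℝ) / 50) := by
    have e1 : (y ^ 2) ^ Kq = Real.exp (2 * (Kq * Real.log y)) := by
      rw [← pow_mul, ← Real.exp_log (show 0 < y ^ (2 * Kq) by positivity), Real.log_pow]
      push_cast
      ring_nf
    have e2 : X ^ ((1:ℝ) / 50) = Real.exp (Real.log X * (1 / 50)) := Real.rpow_def_of_pos hX0 _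
    rw [e1, e2]
    apply Real.exp_le_exp.2
    linarith
  have h5 : (1:ℝ) ≤ X ^ ((1:ℝ) / 50) := Real.one_le_rpow (by linarith) (by norm_num)
  have h6 : Real.exp α * (y ^ 2) ^ Kq + 1 ≤ (Real.exp α + 1) * X ^ ((1:ℝ) / 50) := by
    have := mul_le_mul_of_nonneg_left h4 (Real.exp_pos α).le
    linarith
  calc Real.exp (Real.log y * (90 * (R + 1))) * (Real.exp α * (y ^ 2) ^ Kq + 1)
      ≤ X ^ ((1:ℝ) / 25) * ((Real.exp α + 1) * X ^ ((1:ℝ) / 50)) := by
        refine mul_le_mul ((h1.trans (h.trans h2)).trans h3.le) h6 (by positivity) (by positivity)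
    _ ≤ X ^ ((1:ℝ) / 25) * (X ^ ((13:ℝ) / 200) * X ^ ((1:ℝ) / 50)) := by
        gcongr
    _ = X ^ ((1:ℝ) / 8) := by
        rw [← Real.rpow_add hX0, ← Real.rpow_add hX0]
        norm_num

lemma ec_cont' {D : PC} (hD : ∀ n ∈ D.coeff.support, n ≠ 0) (δ x : ℝ) :
    Continuous fun t : ℝ => ec (1 / 2 + δ + (t + x) * I) D := by
  have h : Continuous fun t : ℝ => ec (1 / 2 + δ + ((t + x : ℝ) : ℂ) * I) D :=
    (EQ.ec_cont hD δ).comp (continuous_add_const x)
  refine h.congr fun t => ?_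
  rw [Complex.ofReal_add]

theorem main (h1 : S_SQ1) (hO : S_ONE3) (hL : S_LEN3) : S_SQ2 := by
  intro α hα c hc e he
  obtain ⟨A, hA⟩ := exists_nat_ge α
  -- the constants
  set κ := min (e / 4) 1 with hκ
  have hκ0 : 0 < κ := lt_min (by positivity) one_pos
  have hκ1 : κ ≤ e / 4 := min_le_left _ _
  have hκ2 : κ ≤ 1 := min_le_right _ _
  set e' := e / (2 * (1 + 1 / κ)) with he'
  have he'0 : 0 < e' := by positivity
  obtain ⟨z1, R1, hO1⟩ := hO α hα c hc 1 one_pos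
  obtain ⟨z2, R2, hS⟩ := h1 α hα c hc e' he'0
  refine ⟨max z1 (max z2 144), max R1 (max R2 (max A 1)), fun z hz K _ _ F hF hF0 η hη => ?_⟩
  have hz1 : z1 ≤ z := (le_max_left _ _).trans hz
  have hz2 : z2 ≤ z := ((le_max_left _ _).trans (le_max_right _ _)).trans hz
  have hz3 : 144 ≤ z := ((le_max_right _ _).trans (le_max_right _ _)).trans hz
  obtain ⟨M0, hM0⟩ := isCompact_univ.exists_bound_of_continuousOn hF.continuousOn
  set M := max M0 1 with hMdef
  have hM : ∀ q, F q ≤ M := fun q =>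
    ((le_abs_self _).trans (hM0 q (Set.mem_univ q))).trans (le_max_left _ _)
  set ε' := η / (2 * ((1 + 1 / κ) * (e' + 1))) with hε'
  have hε'0 : 0 < ε' := by positivity
  have hEQ := EQ.main MV.main (Sm z) Sm_prime K F hF ε' hε'0
  have hone := hO1 z hz1 K F hF hF0 (η / 2) (by positivity)
  have hpow : ∀ᶠ X : ℝ in atTop, Real.exp α + 1 ≤ X ^ ((13:ℝ) / 200) :=
    (tendsto_rpow_atTop (by norm_num)).eventually_ge_atTop _
  filter_upwards [hEQ, hone, hpow, Xl_small 1 one_pos, eventually_ge_atTop (3:ℝ)]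
    with X hX hone hpow hXl1 hX3 Rs J Kq y hRs hSP hKq δ hδ k x
  have hRs1 : R1 ≤ Rs := (le_max_left _ _).trans hRs
  have hRs2 : R2 ≤ Rs := ((le_max_left _ _).trans (le_max_right _ _)).trans hRs
  have hRs3 : A ≤ Rs :=
    (((le_max_left _ _).trans (le_max_right _ _)).trans (le_max_right _ _)).trans hRs
  have hRs4 : 1 ≤ Rs :=
    (((le_max_right _ _).trans (le_max_right _ _)).trans (le_max_right _ _)).trans hRs
  have hX0 : 0 < X := by linarith
  have hXlX : Xl X ≤ X := by linarith [hXl1.2]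
  have hy1 : 1 ≤ y := by
    have : (1:ℝ) ≤ z := by exact_mod_cast (by omega : 1 ≤ z)
    linarith [hSP.zy]
  set B := BP (fun _ => α) z y 0 J Rs with hB
  set G := GQ α z y Kq with hG
  obtain ⟨hcopB, hlcB⟩ := (hL A z J Rs y hz3 hy1 hRs4 hRs3 (fun i hi => (hSP.bl i hi).1)).1
    (fun _ => α) (fun _ => ⟨hα.le, hA⟩) 0 (Nat.zero_le _)
  rw [← hB] at hcopB hlcB
  have hy2 : (1:ℝ) ≤ y ^ 2 := by nlinarith
  have hQG : Q (Sm z) (Real.exp α * (y ^ 2) ^ Kq) G := Q_NKc' hy2 (Q_sq z hy1) Kq hα.le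
  have hQG1 := Q_sub_one (by positivity) hQG
  have hQD := Q_mul (P := Sm z) Sm_prime (Real.exp_pos _).le ⟨hcopB, hlcB⟩ hQG1
  have hlen := len_ok2 (Kq := Kq) hy1 (Nat.cast_nonneg Rs) hX3 hpow hSP.len hKq
  set D := B * (G - 1) with hD
  have hD0 : ∀ n ∈ D.coeff.support, n ≠ 0 := fun n hn => (hQD.1 n hn).1
  have hB0 : ∀ n ∈ B.coeff.support, n ≠ 0 := fun n hn => (hcopB n hn).1
  have hG0 : ∀ n ∈ G.coeff.support, n ≠ 0 := fun n hn => (hQG.1 n hn).1
  have hcop' : Cop (Sm z) (X ^ ((1:ℝ) / 8)) (sf x D) := by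
    have h7 := MV.Cop_sf x hQD.1
    intro n hn
    obtain ⟨a1, a2, a3⟩ := h7 n hn
    exact ⟨a1, a2.trans hlen, a3⟩
  have hlc' : lc1 (sf x D) ≤ X ^ ((1:ℝ) / 8) := by
    rw [MV.lc1_sf x hD0]
    exact hQD.2.trans hlen
  have hmain := hX (Xl X) hXl1.1 hXlX k δ hδ (sf x D) hcop' hlc'
  rw [MV.nn_sf] at hmain
  have hone' := hone Rs J y hRs1 hSP δ hδ k x
  set E := Real.exp (α ^ 2 * VB δ z y 0 J) with hE
  have hE1 : 1 ≤ E := by
    rw [hE]
    exact Real.one_le_exp (mul_nonneg (sq_nonneg _) (VB_nonneg _ _ _ _ _))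
  have hE0 : 0 < E := by linarith
  have hnn := hS z J Rs Kq y hz2 hRs2 hy1 hSP.bJ (fun i hi => (hSP.bl i hi).2) δ hδ
  rw [← hB, ← hG, ← hD, ← hE] at hnn
  set n := nn δ D with hn
  have hn0 : 0 ≤ n := MV.nn_nonneg δ D
  obtain ⟨hI0, -⟩ := int_F hF0 hM k
  set If := ∫ q, F (k, q) ∂(HP (Sm z)) with hIf
  -- the pointwise identities
  have hW : ∀ t : ℝ, WP α z Rs y J δ (t + x) = ‖ec (1 / 2 + δ + (t + x) * I) B‖ ^ 2 / E := by
    intro t
    unfold WP
    rw [← hB, ← hE]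
    push_cast
    rfl
  have hWD : ∀ t : ℝ, WP α z Rs y J δ (t + x) * ‖ec (1 / 2 + δ + (t + x) * I) G - 1‖ ^ 2 =
      ‖ec (1 / 2 + δ + t * I) (sf x D)‖ ^ 2 / E := by
    intro t
    rw [hW, MV.ec_sf _ _ hD0, hD, map_mul, map_sub, map_one, norm_mul, mul_pow]
    have e1 : (1 / 2 + δ + t * I + x * I : ℂ) = 1 / 2 + δ + (t + x) * I := by ring
    rw [e1]
    ring
  -- continuity
  have hFc : Continuous fun t : ℝ => F (k, pt (Sm z) t) :=
    hF.comp (continuous_const.prodMk (EQ.pt_cont (Sm z)))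
  have hBc : Continuous fun t : ℝ => ec (1 / 2 + δ + (t + x) * I) B := ec_cont' hB0 δ x
  have hGc : Continuous fun t : ℝ => ec (1 / 2 + δ + (t + x) * I) G := ec_cont' hG0 δ x
  have hWc : Continuous fun t : ℝ => WP α z Rs y J δ (t + x) := by
    have : (fun t : ℝ => WP α z Rs y J δ (t + x)) =
        fun t : ℝ => ‖ec (1 / 2 + δ + (t + x) * I) B‖ ^ 2 / E := funext hW
    rw [this]
    exact (hBc.norm.pow 2).div_const _
  have hW0 : ∀ t : ℝ, 0 ≤ WP α z Rs y J δ (t + x) := by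
    intro t
    rw [hW]
    positivity
  -- the pointwise bound
  have hpt : ∀ g : ℂ, |‖g‖ ^ 2 - 1| ≤ κ + (1 + 1 / κ) * ‖g - 1‖ ^ 2 := by
    intro g
    set a := ‖g - 1‖ with ha
    have ha0 : 0 ≤ a := norm_nonneg _
    have b1 : |‖g‖ - 1| ≤ a := by
      have := abs_norm_sub_norm_le g 1
      rwa [norm_one] at this
    have b2 : |‖g‖ ^ 2 - 1| ≤ a ^ 2 + 2 * a := by
      have e1 : ‖g‖ ^ 2 - 1 = (‖g‖ - 1) ^ 2 + 2 * (‖g‖ - 1) := by ring
      rw [e1]
      refine (abs_add_le _ _).trans ?_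
      rw [abs_pow, abs_mul, abs_two]
      have := pow_le_pow_left₀ (abs_nonneg _) b1 2
      linarith
    have b3 : 2 * a ≤ κ + a ^ 2 / κ := by
      have e1 : κ + a ^ 2 / κ - 2 * a = (κ - a) ^ 2 / κ := by
        field_simp
        ring
      have : 0 ≤ (κ - a) ^ 2 / κ := by positivity
      linarith
    calc |‖g‖ ^ 2 - 1| ≤ a ^ 2 + 2 * a := b2
      _ ≤ a ^ 2 + (κ + a ^ 2 / κ) := by linarith
      _ = κ + (1 + 1 / κ) * a ^ 2 := by ring
  have hle : ∀ t : ℝ, F (k, pt (Sm z) t) *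
      (WP α z Rs y J δ (t + x) * |‖ec (1 / 2 + δ + (t + x) * I) G‖ ^ 2 - 1|) ≤
      κ * (F (k, pt (Sm z) t) * WP α z Rs y J δ (t + x)) + (1 + 1 / κ) / E *
        (F (k, pt (Sm z) t) * ‖ec (1 / 2 + δ + t * I) (sf x D)‖ ^ 2) := by
    intro t
    have h8 := mul_le_mul_of_nonneg_left (hpt (ec (1 / 2 + δ + (t + x) * I) G)) (hW0 t)
    have h9 := mul_le_mul_of_nonneg_left h8 (hF0 (k, pt (Sm z) t))
    refine h9.trans (le_of_eq ?_)
    rw [mul_add, mul_add]
    congr 1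
    · ring
    · calc F (k, pt (Sm z) t) * (WP α z Rs y J δ (t + x) *
            ((1 + 1 / κ) * ‖ec (1 / 2 + δ + (t + x) * I) G - 1‖ ^ 2))
          = (1 + 1 / κ) * (F (k, pt (Sm z) t) *
            (WP α z Rs y J δ (t + x) * ‖ec (1 / 2 + δ + (t + x) * I) G - 1‖ ^ 2)) := by ring
        _ = _ := by
          rw [hWD]
          ring
  have hI1 : IntervalIntegrable (fun t : ℝ => F (k, pt (Sm z) t) *
      (WP α z Rs y J δ (t + x) * |‖ec (1 / 2 + δ + (t + x) * I) G‖ ^ 2 - 1|)) volume (Xl X) X :=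
    (hFc.mul (hWc.mul ((hGc.norm.pow 2).sub continuous_const).abs)).intervalIntegrable _ _
  have hI2 : IntervalIntegrable (fun t : ℝ => F (k, pt (Sm z) t) * WP α z Rs y J δ (t + x))
      volume (Xl X) X := (hFc.mul hWc).intervalIntegrable _ _
  have hsf0 : ∀ n ∈ (sf x D).coeff.support, n ≠ 0 := fun n hn => (hcop' n hn).1
  have hI3 : IntervalIntegrable (fun t : ℝ => F (k, pt (Sm z) t) *
      ‖ec (1 / 2 + δ + t * I) (sf x D)‖ ^ 2) volume (Xl X) X :=
    (hFc.mul ((EQ.ec_cont hsf0 δ).norm.pow 2)).intervalIntegrable _ _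
  have hint : ∫ t in Xl X..X, F (k, pt (Sm z) t) *
      (WP α z Rs y J δ (t + x) * |‖ec (1 / 2 + δ + (t + x) * I) G‖ ^ 2 - 1|) ≤
      κ * (∫ t in Xl X..X, F (k, pt (Sm z) t) * WP α z Rs y J δ (t + x)) + (1 + 1 / κ) / E *
        ∫ t in Xl X..X, F (k, pt (Sm z) t) * ‖ec (1 / 2 + δ + t * I) (sf x D)‖ ^ 2 := by
    rw [← intervalIntegral.integral_const_mul, ← intervalIntegral.integral_const_mul,
      ← intervalIntegral.integral_add (hI2.const_mul _) (hI3.const_mul _)]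
    exact intervalIntegral.integral_mono_on hXlX hI1 ((hI2.const_mul _).add (hI3.const_mul _))
      fun t _ => hle t
  refine hint.trans ?_
  set I1 := ∫ t in Xl X..X, F (k, pt (Sm z) t) * WP α z Rs y J δ (t + x) with hI1'
  set I2 := ∫ t in Xl X..X, F (k, pt (Sm z) t) * ‖ec (1 / 2 + δ + t * I) (sf x D)‖ ^ 2 with hI2'
  have hXp : X ^ ((9:ℝ) / 10) ≤ X := by
    conv_rhs => rw [← Real.rpow_one X]
    exact Real.rpow_le_rpow_of_exponent_le (by linarith) (by norm_num)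
  have s1 : I1 ≤ X * (2 * If + η / 2) := by
    have := (abs_le.1 hone').2
    nlinarith
  have s2 : I2 ≤ X * E * (e' * If + ε' * (e' + 1)) := by
    have h8 := (abs_le.1 hmain).2
    have h9 : (X - Xl X) * If * n ≤ X * If * (e' * E) := by
      have : (X - Xl X) * If ≤ X * If := mul_le_mul_of_nonneg_right (by linarith [hXl1.1]) hI0
      exact mul_le_mul this hnn hn0 (mul_nonneg hX0.le hI0)
    have h10 : X * n + X ^ ((9:ℝ) / 10) ≤ X * E * (e' + 1) := by
      have : X * n ≤ X * (e' * E) := mul_le_mul_of_nonneg_left hnn hX0.le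
      have : X * 1 ≤ X * E := mul_le_mul_of_nonneg_left hE1 hX0.le
      nlinarith
    have h11 : ε' * (X * n + X ^ ((9:ℝ) / 10)) ≤ ε' * (X * E * (e' + 1)) :=
      mul_le_mul_of_nonneg_left h10 hε'0.le
    calc I2 ≤ (X - Xl X) * If * n + ε' * (X * n + X ^ ((9:ℝ) / 10)) := by linarith
      _ ≤ X * If * (e' * E) + ε' * (X * E * (e' + 1)) := add_le_add h9 h11
      _ = X * E * (e' * If + ε' * (e' + 1)) := by ring
  have s3 : (1 + 1 / κ) / E * I2 ≤ X * (e / 2 * If + η / 2) := by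
    have hc0 : 0 ≤ (1 + 1 / κ) / E := by positivity
    calc (1 + 1 / κ) / E * I2 ≤ (1 + 1 / κ) / E * (X * E * (e' * If + ε' * (e' + 1))) :=
          mul_le_mul_of_nonneg_left s2 hc0
      _ = X * ((1 + 1 / κ) * e' * If + (1 + 1 / κ) * (e' + 1) * ε') := by
          field_simp
      _ = X * (e / 2 * If + η / 2) := by
          have hk : (1 + 1 / κ) ≠ 0 := by positivity
          have he1 : (1 + 1 / κ) * e' = e / 2 := by
            rw [he']
            field_simp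
          have hee : e' + 1 ≠ 0 := by positivity
          have he2 : (1 + 1 / κ) * (e' + 1) * ε' = η / 2 := by
            rw [hε']
            field_simp
          rw [he1, he2]
  have s4 : κ * I1 ≤ X * (e / 2 * If + η / 2) := by
    calc κ * I1 ≤ κ * (X * (2 * If + η / 2)) := mul_le_mul_of_nonneg_left s1 hκ0.le
      _ = X * (κ * (2 * If) + κ * (η / 2)) := by ring
      _ ≤ X * (e / 4 * (2 * If) + 1 * (η / 2)) := by
          refine mul_le_mul_of_nonneg_left (add_le_add ?_ ?_) hX0.le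
          · exact mul_le_mul_of_nonneg_right hκ1 (by linarith)
          · exact mul_le_mul_of_nonneg_right hκ2 (by linarith)
      _ = X * (e / 2 * If + η / 2) := by ring
  calc κ * I1 + (1 + 1 / κ) / E * I2 ≤ X * (e / 2 * If + η / 2) + X * (e / 2 * If + η / 2) :=
        add_le_add s4 s3
    _ = X * (e * If + η) := by ring

end Pool.Agent.N748.HM.SQ2
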