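import Pool.Agent.N748.HM.Stm
import Pool.Agent.N748.GC.LEN
import Pool.Agent.N748.GC.NN
import Pool.Agent.N748.GC.EQ
import Pool.Agent.N748.GC.QC
import Pool.Agent.N748.GC.MV

set_option autoImplicit false

/-!
# The maximum of zeta in almost all windows near the critical line: upper bound
-/

namespace Pool.Agent.N748.HM.SUPZ

open Finset Filter MeasureTheory MonoidAlgebra Topology Complex
open Pool.Agent.N748.GC
open Pool.Agent.N748.HM

/-! ### polynomials -/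

lemma NKc_zero (K : ℕ) (x : PC) : NKc K 0 x = 1 := by
  unfold NKc
  rw [Finset.sum_eq_single 0]
  · simp
  · intro k _ hk
    rw [zero_pow hk]
    simp
  · intro h
    exact absurd (Finset.mem_range.2 (Nat.succ_pos K)) h

lemma BP_zero (z : ℕ) (y : ℝ) (j J Rs : ℕ) : BP (fun _ => 0) z y j J Rs = 1 := by
  unfold BP
  exact Finset.prod_eq_one fun i _ => NKc_zero _ _

lemma Q_NKc' {z : ℕ} {b : ℝ} (hb : 1 ≤ b) {x : PC} (hx : LEN.Q (Sm z) b x) (K : ℕ) {a : ℝ}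
    (h0 : 0 ≤ a) : LEN.Q (Sm z) (Real.exp a * b ^ K) (NKc K a x) := by
  have hbK : ∀ k ∈ range (K + 1), b ^ k ≤ b ^ K := fun k hk =>
    pow_le_pow_right₀ hb (by have := Finset.mem_range.1 hk; omega)
  have hbK0 : 0 ≤ b ^ K := by positivity
  have he : 1 ≤ Real.exp a := Real.one_le_exp h0
  constructor
  · unfold NKc
    refine LEN.Cop_sum _ fun k hk => LEN.Cop_smul _ ?_
    refine LEN.Cop_mono ?_ (LEN.Q_pow LEN.Sm_prime (by linarith) hx k).1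
    have h1 := hbK k hk
    have h2 : 1 * b ^ K ≤ Real.exp a * b ^ K := mul_le_mul_of_nonneg_right he hbK0
    linarith
  · unfold NKc
    refine (MV.lc1_sum _ _).trans ?_
    calc ∑ k ∈ range (K + 1), lc1 (((a ^ k / (k.factorial : ℝ) : ℝ) : ℂ) • x ^ k)
        ≤ ∑ k ∈ range (K + 1), a ^ k / (k.factorial : ℝ) * b ^ K := by
          refine Finset.sum_le_sum fun k hk => ?_
          refine (LEN.lc1_smul _ _).trans ?_
          rw [Complex.norm_real, Real.norm_of_nonneg (by positivity)]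
          exact mul_le_mul_of_nonneg_left
            ((LEN.Q_pow LEN.Sm_prime (by linarith) hx k).2.trans (hbK k hk)) (by positivity)
      _ = (∑ k ∈ range (K + 1), a ^ k / (k.factorial : ℝ)) * b ^ K := by rw [Finset.sum_mul]
      _ ≤ Real.exp a * b ^ K :=
          mul_le_mul_of_nonneg_right (Real.sum_le_exp_of_nonneg h0 (K + 1)) hbK0

lemma Q_sq (z : ℕ) {y : ℝ} (hy : 1 ≤ y) :
    LEN.Q (Sm z) (y ^ 2) (∑ p ∈ PP z y, single (p ^ 2) (1 / 2 : ℂ)) := by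
  have hsupp : ∀ p ∈ PP z y, p.Prime ∧ z ≤ p ∧ (p : ℝ) ≤ y := by
    intro p hp
    unfold PP at hp
    rw [Finset.mem_filter, Finset.mem_Icc] at hp
    exact ⟨hp.2, hp.1.1, (Nat.le_floor_iff (by linarith)).1 hp.1.2⟩
  constructor
  · refine LEN.Cop_sum _ fun p hp => ?_
    intro n hn
    have h1 : n = p ^ 2 := by
      rw [MonoidAlgebra.coeff_single] at hn
      exact Finset.mem_singleton.1 (Finsupp.support_single_subset hn)
    subst h1
    obtain ⟨h2, h3, h4⟩ := hsupp p hp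
    refine ⟨pow_ne_zero 2 h2.ne_zero, ?_, fun q hq hd => ?_⟩
    · push_cast
      exact pow_le_pow_left₀ (Nat.cast_nonneg _) h4 2
    · have h5 := (Nat.prime_dvd_prime_iff_eq (LEN.Sm_prime q hq) h2).1
        ((LEN.Sm_prime q hq).dvd_of_dvd_pow hd)
      unfold Sm at hq
      rw [Finset.mem_filter, Finset.mem_range] at hq
      omega
  · refine (MV.lc1_sum _ _).trans ?_
    have h1 : ∀ p ∈ PP z y, lc1 (single (p ^ 2) (1 / 2 : ℂ)) ≤ 1 := fun p _ => by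
      rw [MV.lc1_single]
      norm_num
    refine (Finset.sum_le_sum h1).trans ?_
    rw [Finset.sum_const, nsmul_eq_mul, mul_one]
    have h2 : (PP z y).card ≤ ⌊y⌋₊ := by
      have h3 : PP z y ⊆ Icc 1 ⌊y⌋₊ := by
        intro p hp
        obtain ⟨h4, -, -⟩ := hsupp p hp
        unfold PP at hp
        rw [Finset.mem_filter, Finset.mem_Icc] at hp
        exact Finset.mem_Icc.2 ⟨h4.one_lt.le, hp.1.2⟩
      exact (Finset.card_le_card h3).trans (by simp)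
    have h3 : ((PP z y).card : ℝ) ≤ y := (Nat.cast_le.2 h2).trans (Nat.floor_le (by linarith))
    nlinarith

lemma nn_add_le (δ : ℝ) (f g : PC) : nn δ (f + g) ≤ 2 * (nn δ f + nn δ g) := by
  have h1 := NN.sqrt_nn_add δ f g
  have h2 := Real.sq_sqrt (MV.nn_nonneg δ (f + g))
  have h3 := Real.sq_sqrt (MV.nn_nonneg δ f)
  have h4 := Real.sq_sqrt (MV.nn_nonneg δ g)
  have h5 := Real.sqrt_nonneg (nn δ (f + g))
  nlinarith [sq_nonneg (Real.sqrt (nn δ f) - Real.sqrt (nn δ g))]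

lemma ec_diff {D : PC} (hD : ∀ n ∈ D.coeff.support, n ≠ 0) : Differentiable ℂ fun s => ec s D := by
  have h1 : (fun s => ec s D) = fun s => ∑ n ∈ D.coeff.support, D.coeff n * (n : ℂ) ^ (-s) := by
    funext s
    exact MV.ec_apply s D
  rw [h1]
  refine Differentiable.fun_sum fun n hn => ?_
  have hn0 : (n : ℂ) ≠ 0 := by exact_mod_cast hD n hn
  refine (differentiable_const _).mul ?_
  exact differentiable_neg.const_cpow (Or.inl hn0)

/-! ### numerical facts -/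

lemma small_pow {K s e : ℝ} (hK : 0 < K) (hs : 0 < s) (he : 0 < e) :
    ∃ δ1 : ℝ, 0 < δ1 ∧ ∀ δ : ℝ, 0 < δ → δ ≤ δ1 → K * δ ^ s ≤ e := by
  refine ⟨(e / K) ^ (1 / s), by positivity, fun δ h0 h1 => ?_⟩
  have h2 : δ ^ s ≤ ((e / K) ^ (1 / s)) ^ s := Real.rpow_le_rpow h0.le h1 hs.le
  rw [← Real.rpow_mul (by positivity), one_div_mul_cancel hs.ne', Real.rpow_one] at h2
  calc K * δ ^ s ≤ K * (e / K) := mul_le_mul_of_nonneg_left h2 hK.le
    _ = e := by field_simp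

/-- the lengths -/
lemma len_ev (α : ℝ) : ∀ᶠ X : ℝ in atTop, ∀ N1 N2 : ℝ, 0 ≤ N1 → 0 ≤ N2 →
    N1 ^ 2 ≤ (2 * (X + 1)) ^ ((1:ℝ) / 50) → N2 ≤ Real.exp α * X ^ ((1:ℝ) / 50) →
    N1 * N2 ≤ (2 * X) ^ ((1:ℝ) / 8) := by
  have h1 := (tendsto_rpow_atTop (show (0:ℝ) < 17 / 200 by norm_num)).eventually_ge_atTop
    (Real.exp α)
  filter_upwards [h1, eventually_ge_atTop 4] with X hX hX4 N1 N2 h10 h20 hN1 hN2
  have hX0 : 0 < X := by linarith
  have e1 : (2 * (X + 1)) ^ ((1:ℝ) / 50) ≤ (X ^ ((1:ℝ) / 50)) ^ 2 := by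
    have e0 : (X ^ ((1:ℝ) / 50)) ^ 2 = (X ^ 2) ^ ((1:ℝ) / 50) := by
      rw [← Real.rpow_natCast (X ^ ((1:ℝ) / 50)) 2, ← Real.rpow_natCast X 2,
        ← Real.rpow_mul hX0.le, ← Real.rpow_mul hX0.le, mul_comm]
    rw [e0]
    refine Real.rpow_le_rpow (by linarith) ?_ (by norm_num)
    nlinarith
  have e2 : N1 ≤ X ^ ((1:ℝ) / 50) := by
    have h0 : 0 ≤ X ^ ((1:ℝ) / 50) := by positivity
    exact abs_le_of_sq_le_sq' (hN1.trans e1) h0 |>.2
  calc N1 * N2 ≤ X ^ ((1:ℝ) / 50) * (Real.exp α * X ^ ((1:ℝ) / 50)) :=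
        mul_le_mul e2 hN2 h20 (by positivity)
    _ ≤ X ^ ((1:ℝ) / 50) * (X ^ ((17:ℝ) / 200) * X ^ ((1:ℝ) / 50)) := by gcongr
    _ = X ^ ((1:ℝ) / 8) := by
        rw [← Real.rpow_add hX0, ← Real.rpow_add hX0]
        norm_num
    _ ≤ (2 * X) ^ ((1:ℝ) / 8) := Real.rpow_le_rpow hX0.le (by linarith) (by norm_num)

lemma pow_ev {e : ℝ} (he : 0 < e) : ∀ᶠ X : ℝ in atTop, X ^ ((9:ℝ) / 10) + 1 ≤ e * X := by
  have h1 := (tendsto_rpow_atTop (show (0:ℝ) < 1 / 10 by norm_num)).eventually_ge_atTop (2 / e)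
  filter_upwards [h1, eventually_ge_atTop 1] with X hX hX1
  have hX0 : 0 < X := by linarith
  have e1 : X = X ^ ((1:ℝ) / 10) * X ^ ((9:ℝ) / 10) := by
    rw [← Real.rpow_add hX0]
    norm_num
  have e2 : 1 ≤ X ^ ((9:ℝ) / 10) := Real.one_le_rpow hX1 (by norm_num)
  have e3 : 2 ≤ e * X ^ ((1:ℝ) / 10) := by
    have := mul_le_mul_of_nonneg_left hX he.le
    rwa [mul_div_cancel₀ _ he.ne'] at this
  have e4 : 2 * X ^ ((9:ℝ) / 10) ≤ (e * X ^ ((1:ℝ) / 10)) * X ^ ((9:ℝ) / 10) :=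
    mul_le_mul_of_nonneg_right e3 (by linarith)
  have e5 : e * X = (e * X ^ ((1:ℝ) / 10)) * X ^ ((9:ℝ) / 10) := by
    rw [mul_assoc, ← e1]
  rw [e5]
  linarith

lemma log_ev (θ : ℝ) : ∀ᶠ X : ℝ in atTop, Real.log X ^ θ + 1 ≤ X := by
  have h1 : (fun X : ℝ => Real.log X ^ θ) =o[atTop] fun X : ℝ => X ^ (1:ℝ) :=
    isLittleO_log_rpow_rpow_atTop θ one_pos
  have h2 := h1.bound (show (0:ℝ) < 1 / 2 by norm_num)
  filter_upwards [h2, eventually_ge_atTop 2] with X hX hX2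
  rw [Real.rpow_one, Real.norm_of_nonneg (show (0:ℝ) ≤ X by linarith)] at hX
  have := (le_abs_self _).trans hX
  linarith

/-! ### the mean square -/

/-- the polynomial -/
noncomputable def DD (α : ℝ) (z : ℕ) (y : ℝ) (J Rs Kq : ℕ) : PC :=
  BP (fun _ => α) z y 0 J Rs * GQ α z y Kq

lemma VB_eq (δ : ℝ) (z : ℕ) (y : ℝ) (J : ℕ) :
    VB δ z y 0 J = ∑ i ∈ range J, ∑ p ∈ IB z y i, wd δ p := by
  unfold VB
  rw [Finset.range_eq_Ico]

theorem main (hP : S_PRM) (hC : S_CL) (hS : S_SUP) (hN : S_NNB3) (hL : S_LEN3) (hQ : S_SQ1)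
    (hR : S_NRM) : S_SUPZ := by
  intro θ hθ ε hε
  set α : ℝ := Real.sqrt (1 + θ) with hα
  have hα2 : α ^ 2 = 1 + θ := Real.sq_sqrt (by linarith)
  have hα1 : 1 ≤ α := by
    rw [hα]
    exact Real.one_le_sqrt.2 (by linarith)
  have hα0 : 0 < α := by linarith
  obtain ⟨c, hc, hP⟩ := hP
  set A : ℕ := ⌈α⌉₊ with hA
  have hαA : α ≤ A := Nat.le_ceil α
  obtain ⟨zC, hC⟩ := hC A α hα0 hαA 1 one_pos
  obtain ⟨zQ, RQ, hQ⟩ := hQ α hα0 c hc 1 one_pos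
  obtain ⟨CN, RN, hCN, hN⟩ := hN c hc A
  obtain ⟨zR, hR⟩ := hR α hα0 (1 / 2) (by norm_num)
  obtain ⟨CS, hCS, hS⟩ := hS
  set z : ℕ := max (max zC zQ) (max zR 1000) with hz
  have hzC : zC ≤ z := (le_max_left _ _).trans (le_max_left _ _)
  have hzQ : zQ ≤ z := (le_max_right _ _).trans (le_max_left _ _)
  have hzR : zR ≤ z := (le_max_left _ _).trans (le_max_right _ _)
  have hz1 : 1000 ≤ z := (le_max_right _ _).trans (le_max_right _ _)
  clear_value z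
  obtain ⟨RC, xC, δC, η1, CC, hδC, -, hη1, hCC, hC⟩ := hC z hzC
  obtain ⟨xR, δR, hδR, hR⟩ := hR z hzR
  set R0 : ℕ := max (max RC RQ) (max RN (max A 1)) with hR0
  set x0 : ℝ := max xC (2 * max xR 0) with hx0
  obtain ⟨lam, δP, hlam, hδP, hδP1, hev⟩ := hP A (θ + 1) (by linarith) z hz1 R0 x0 η1 CC hη1 hCC
  -- constants
  have hE : 0 < E0 α (Sm z) := QC.E0_pos α (QC.Sm_prime z)
  obtain ⟨Mz, hMz0, hMz⟩ : ∃ M : ℝ, 0 < M ∧ ∀ x, M0 α (Sm z) x ≤ M := by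
    obtain ⟨M, hM⟩ := (isCompact_univ.image (QC.M0_cont α (QC.Sm_prime z))).isBounded.exists_norm_le
    refine ⟨max M 1, lt_of_lt_of_le one_pos (le_max_right _ _), fun x => ?_⟩
    exact ((le_abs_self _).trans (hM _ ⟨x, Set.mem_univ _, rfl⟩)).trans (le_max_left _ _)
  set Cz : ℝ := 4 * Mz * E0 α (Sm z) with hCz
  have hCz0 : 0 < Cz := by positivity
  set C1 : ℝ := 6 * (Real.exp CN + 1) * (|aa α| / E0 α (Sm z)) + 16 with hC1
  have hC10 : 0 < C1 := by positivity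
  set C2 : ℝ := CS * 3 * C1 * Cz with hC2
  have hC20 : 0 < C2 := by positivity
  obtain ⟨δ1, hδ1, hd1⟩ := small_pow (K := 1) (s := θ + 1) (e := ε / 3) one_pos (by linarith)
    (by linarith)
  obtain ⟨δ2, hδ2, hd2⟩ := small_pow (K := C2) (s := 2 * α * ε) (e := ε / 3) hC20 (by positivity)
    (by linarith)
  refine ⟨lam, min (min δP δC) (min (min δ1 δ2) (min (δR / 2) (1 / 16))), hlam, by positivity,
    (min_le_right _ _).trans ((min_le_right _ _).trans (min_le_right _ _)), ?_⟩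
  filter_upwards [hev, len_ev α, pow_ev (show (0:ℝ) < ε / 3 by linarith), log_ev θ,
    eventually_ge_atTop 4] with X hX hlen hpow hlog hX4
  intro δ hδ0 hδ hcond
  have hdP : δ ≤ δP := hδ.trans ((min_le_left _ _).trans (min_le_left _ _))
  have hdC : δ ≤ δC := hδ.trans ((min_le_left _ _).trans (min_le_right _ _))
  have hdd1 : δ ≤ δ1 := hδ.trans ((min_le_right _ _).trans ((min_le_left _ _).trans
    (min_le_left _ _)))
  have hdd2 : δ ≤ δ2 := hδ.trans ((min_le_right _ _).trans ((min_le_left _ _).trans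
    (min_le_right _ _)))
  have hdR : δ ≤ δR / 2 := hδ.trans ((min_le_right _ _).trans ((min_le_right _ _).trans
    (min_le_left _ _)))
  have hd16 : δ ≤ 1 / 16 := hδ.trans ((min_le_right _ _).trans ((min_le_right _ _).trans
    (min_le_right _ _)))
  have hX0 : 0 < X := by linarith
  obtain ⟨Rs, J, K, Kq, y, a, v, hRs, hSP, hlX, hxy, -, hv, hK, hKq, hKqX, hbad⟩ :=
    hX δ hδ0 hdP hcond
  have hRC : RC ≤ Rs := ((le_max_left _ _).trans (le_max_left _ _)).trans hRs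
  have hRQ : RQ ≤ Rs := ((le_max_right _ _).trans (le_max_left _ _)).trans hRs
  have hRN : RN ≤ Rs := ((le_max_left _ _).trans (le_max_right _ _)).trans hRs
  have hRA : A ≤ Rs := ((le_max_left _ _).trans ((le_max_right _ _).trans
    (le_max_right _ _))).trans hRs
  have hR1 : 1 ≤ Rs := ((le_max_right _ _).trans ((le_max_right _ _).trans
    (le_max_right _ _))).trans hRs
  have hy1 : 1 ≤ y := by
    have h1 := hSP.zy
    have h2 : (1000:ℝ) ≤ z := by exact_mod_cast hz1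
    linarith
  have hly : 0 ≤ Real.log y := Real.log_nonneg hy1
  have hxC : xC ≤ δ * Real.log y := (le_max_left _ _).trans hxy
  have hz144 : 144 ≤ z := by omega
  have hblc : ∀ i < J, ∑ p ∈ IB z y i, 1 / (p:ℝ) ≤ c := fun i hi => (hSP.bl i hi).2
  -- the normalising constants
  have hnorm : ∀ δ' : ℝ, δ / 2 ≤ δ' → δ' ≤ 3 * δ / 2 →
      |(2 * δ') ^ (α ^ 2) / aa α * (E0 α (Sm z) * Real.exp (α ^ 2 * VB δ' z y 0 J)) - 1| ≤
        1 / 2 := by
    intro δ' h1 h2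
    refine hR δ' (by linarith) (by linarith) y J hSP.zy hSP.bJ ?_
    have h3 : 2 * max xR 0 ≤ δ * Real.log y := (le_max_right _ _).trans hxy
    have h4 : δ / 2 * Real.log y ≤ δ' * Real.log y := mul_le_mul_of_nonneg_right h1 hly
    have h5 : xR ≤ max xR 0 := le_max_left _ _
    linarith
  -- the polynomial
  set Dq : PC := DD α z y J Rs Kq with hDq
  have hDQ : LEN.Q (Sm z) ((2 * X) ^ ((1:ℝ) / 8)) Dq := by
    have h1 := (hL A z J Rs y hz144 hy1 hR1 hRA fun i hi => (hSP.bl i hi).1).1 (fun _ => α)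
      (fun _ => ⟨hα0.le, hαA⟩) 0 (Nat.zero_le J)
    have h2 : LEN.Q (Sm z) (Real.exp α * (y ^ 2) ^ Kq) (GQ α z y Kq) :=
      Q_NKc' (one_le_pow₀ hy1) (Q_sq z hy1) Kq hα0.le
    have h3 := LEN.Q_mul LEN.Sm_prime (by positivity) h1 h2
    refine LEN.Q_mono (hlen _ _ (by positivity) (by positivity) ?_ ?_) h3
    · rw [← Real.exp_nat_mul]
      refine le_trans (le_of_eq ?_) hSP.len
      push_cast
      ring_nf
    · have h4 : (y ^ 2) ^ Kq ≤ X ^ ((1:ℝ) / 50) := by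
        have hy0 : 0 < y := by linarith
        rw [← pow_mul, ← Real.exp_log hy0, ← Real.exp_nat_mul, Real.rpow_def_of_pos hX0,
          Real.exp_le_exp]
        push_cast
        linarith
      gcongr
  -- the mean square
  have haa : 0 < aa α := by
    have h1 := (abs_le.1 (hnorm δ (by linarith) (by linarith))).1
    by_contra h2
    push Not at h2
    have h3 : (2 * δ) ^ (α ^ 2) / aa α ≤ 0 := div_nonpos_of_nonneg_of_nonpos (by positivity) h2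
    have h4 : (2 * δ) ^ (α ^ 2) / aa α * (E0 α (Sm z) * Real.exp (α ^ 2 * VB δ z y 0 J)) ≤ 0 :=
      mul_nonpos_of_nonpos_of_nonneg h3 (by positivity)
    linarith
  have hnn : ∀ δ' : ℝ, δ / 2 ≤ δ' → δ' ≤ 3 * δ / 2 →
      nn δ' Dq ≤ 2 * (Real.exp CN + 1) * Real.exp (α ^ 2 * VB δ' z y 0 J) := by
    intro δ' h1 h2
    have h0 : 0 ≤ δ' := by linarith
    have e1 : Dq = BP (fun _ => α) z y 0 J Rs +
        BP (fun _ => α) z y 0 J Rs * (GQ α z y Kq - 1) := by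
      rw [hDq]
      unfold DD
      ring
    have h3 := hN z J Rs y hz144 hy1 hRN hR1 hblc δ' h0 (fun _ => α) (fun _ => 0)
      (fun _ => ⟨hα0.le, hαA⟩) (fun _ => ⟨le_rfl, Nat.cast_nonneg A⟩) 0
    rw [BP_zero, map_one, mul_one] at h3
    have h4 := hQ z J Rs Kq y hzQ hRQ hy1 hSP.bJ hblc δ' h0
    have h5 : nn δ' (BP (fun _ => α) z y 0 J Rs) ≤
        Real.exp CN * Real.exp (α ^ 2 * VB δ' z y 0 J) := by
      refine h3.trans ?_
      rw [← Real.exp_add, Real.exp_le_exp]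
      have e2 : ∑ i ∈ range J, ∑ p ∈ IB z y i, (α ^ 2 + (0:ℝ) ^ 2 +
          2 * α * 0 * Real.cos (0 * Real.log p)) * wd δ' p = α ^ 2 * VB δ' z y 0 J := by
        rw [VB_eq, mul_sum]
        refine Finset.sum_congr rfl fun i _ => ?_
        rw [mul_sum]
        refine Finset.sum_congr rfl fun p _ => ?_
        ring
      rw [e2]
      have h6 : Real.exp (-(2 * (Rs:ℝ))) ≤ 1 := Real.exp_le_one_iff.2 (by
        have := Nat.cast_nonneg (α := ℝ) Rs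
        linarith)
      nlinarith
    calc nn δ' Dq ≤ 2 * (nn δ' (BP (fun _ => α) z y 0 J Rs) +
          nn δ' (BP (fun _ => α) z y 0 J Rs * (GQ α z y Kq - 1))) := by
          rw [e1]
          exact nn_add_le _ _ _
      _ ≤ 2 * (Real.exp CN * Real.exp (α ^ 2 * VB δ' z y 0 J) +
          1 * Real.exp (α ^ 2 * VB δ' z y 0 J)) := by linarith
      _ = 2 * (Real.exp CN + 1) * Real.exp (α ^ 2 * VB δ' z y 0 J) := by ring
  have hVe : ∀ δ' : ℝ, δ / 2 ≤ δ' → δ' ≤ 3 * δ / 2 →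
      Real.exp (α ^ 2 * VB δ' z y 0 J) ≤ 3 / 2 * (|aa α| / E0 α (Sm z)) * δ ^ (-(α ^ 2)) := by
    intro δ' h1 h2
    have h3 := (abs_le.1 (hnorm δ' h1 h2)).2
    have h0 : 0 < δ' := by linarith
    have h4 : δ ^ (α ^ 2) ≤ (2 * δ') ^ (α ^ 2) :=
      Real.rpow_le_rpow hδ0.le (by linarith) (by positivity)
    have h5 : 0 < δ ^ (α ^ 2) := by positivity
    have h6 : δ ^ (α ^ 2) / aa α * (E0 α (Sm z) * Real.exp (α ^ 2 * VB δ' z y 0 J)) ≤ 3 / 2 := by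
      have : δ ^ (α ^ 2) / aa α * (E0 α (Sm z) * Real.exp (α ^ 2 * VB δ' z y 0 J)) ≤
          (2 * δ') ^ (α ^ 2) / aa α * (E0 α (Sm z) * Real.exp (α ^ 2 * VB δ' z y 0 J)) := by
        gcongr
      linarith
    rw [Real.rpow_neg hδ0.le, abs_of_pos haa]
    set V := Real.exp (α ^ 2 * VB δ' z y 0 J)
    have e1 : V = δ ^ (α ^ 2) / aa α * (E0 α (Sm z) * V) *
        ((aa α / E0 α (Sm z)) * (δ ^ (α ^ 2))⁻¹) := by
      field_simp
    rw [e1, mul_assoc (3 / 2 : ℝ)]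
    exact mul_le_mul_of_nonneg_right h6 (by positivity)
  have hδ1' : δ ≤ 1 := by linarith
  have hda : 1 ≤ δ ^ (-(α ^ 2)) := Real.one_le_rpow_of_pos_of_le_one_of_nonpos hδ0 hδ1'
    (by nlinarith)
  have hint : ∀ δ' : ℝ, δ / 2 ≤ δ' → δ' ≤ 3 * δ / 2 →
      ∫ t in (X ^ ((9:ℝ) / 10))..(2 * X), ‖ec (1 / 2 + δ' + t * I) Dq‖ ^ 2 ≤
        C1 * X * δ ^ (-(α ^ 2)) := by
    intro δ' h1 h2
    have hX9 : X ^ ((9:ℝ) / 10) ≤ X := by
      calc X ^ ((9:ℝ) / 10) ≤ X ^ (1:ℝ) := Real.rpow_le_rpow_of_exponent_le (by linarith)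
            (by norm_num)
        _ = X := Real.rpow_one X
    have hX9' : (2 * X) ^ ((9:ℝ) / 10) ≤ 2 * X := by
      calc (2 * X) ^ ((9:ℝ) / 10) ≤ (2 * X) ^ (1:ℝ) :=
            Real.rpow_le_rpow_of_exponent_le (by linarith) (by norm_num)
        _ = 2 * X := Real.rpow_one _
    have h3 := EQ.int_bd (QC.Sm_prime z) MV.main (X := 2 * X) (X1 := X ^ ((9:ℝ) / 10)) (δ := δ')
      (D := Dq) (by linarith) ⟨by positivity, by linarith, by linarith, hDQ.1, hDQ.2⟩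
    have h4 := hnn δ' h1 h2
    have h5 := hVe δ' h1 h2
    have h6 : nn δ' Dq ≤ 2 * (Real.exp CN + 1) *
        (3 / 2 * (|aa α| / E0 α (Sm z)) * δ ^ (-(α ^ 2))) :=
      h4.trans (mul_le_mul_of_nonneg_left h5 (by positivity))
    calc ∫ t in (X ^ ((9:ℝ) / 10))..(2 * X), ‖ec (1 / 2 + δ' + t * I) Dq‖ ^ 2
        ≤ 2 * X * nn δ' Dq + 8 * (2 * X) ^ ((9:ℝ) / 10) := h3
      _ ≤ 2 * X * (2 * (Real.exp CN + 1) *
        (3 / 2 * (|aa α| / E0 α (Sm z)) * δ ^ (-(α ^ 2)))) + 8 * (2 * X * δ ^ (-(α ^ 2))) := by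
          have h7 : 2 * X * nn δ' Dq ≤ 2 * X * (2 * (Real.exp CN + 1) *
            (3 / 2 * (|aa α| / E0 α (Sm z)) * δ ^ (-(α ^ 2)))) :=
            mul_le_mul_of_nonneg_left h6 (by linarith)
          have h8 : 2 * X * 1 ≤ 2 * X * δ ^ (-(α ^ 2)) :=
            mul_le_mul_of_nonneg_left hda (by linarith)
          linarith
      _ = C1 * X * δ ^ (-(α ^ 2)) := by
          rw [hC1]
          ring
  -- from mean squares to maxima
  set κ : ℝ := δ ^ (-(α * (α + ε))) / Real.sqrt Cz with hκ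
  have hκ0 : 0 < κ := by positivity
  have hκ2 : κ ^ 2 = (δ ^ (-(α * (α + ε)))) ^ 2 / Cz := by
    rw [hκ, div_pow, Real.sq_sqrt hCz0.le]
  have hX12 : X ^ ((9:ℝ) / 10) ≤ 2 * X := by
    have : X ^ ((9:ℝ) / 10) ≤ X := by
      calc X ^ ((9:ℝ) / 10) ≤ X ^ (1:ℝ) := Real.rpow_le_rpow_of_exponent_le (by linarith)
            (by norm_num)
        _ = X := Real.rpow_one X
    linarith
  have hDd : DifferentiableOn ℂ (fun s => ec s Dq) {s : ℂ | 1 / 2 < s.re ∧ s.re < 1} :=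
    (ec_diff fun n hn => (hDQ.1 n hn).1).differentiableOn
  have hvolS := hS (fun s => ec s Dq) hDd δ (X ^ ((9:ℝ) / 10)) (2 * X) (C1 * X * δ ^ (-(α ^ 2)))
    hδ0 hd16 hX12 (by positivity) hint (δ ^ (-θ)) κ (by positivity) hκ0
  have hb1 : CS * (δ ^ (-θ) + 2) * (C1 * X * δ ^ (-(α ^ 2))) / (δ * κ ^ 2) ≤ ε / 3 * X := by
    have h1 : 1 ≤ δ ^ (-θ) := Real.one_le_rpow_of_pos_of_le_one_of_nonpos hδ0 hδ1' (by linarith)
    have e1 : δ ^ (-θ) * δ ^ (-(α ^ 2)) = δ ^ (2 * α * ε) * (δ * (δ ^ (-(α * (α + ε)))) ^ 2) := by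
      have e2 : δ * (δ ^ (-(α * (α + ε)))) ^ 2 = δ ^ (1 + (-(α * (α + ε))) * 2) := by
        rw [Real.rpow_add hδ0, Real.rpow_one, Real.rpow_mul hδ0.le, Real.rpow_two]
      rw [e2, ← Real.rpow_add hδ0, ← Real.rpow_add hδ0]
      congr 1
      linarith [hα2, show α * (α + ε) = α ^ 2 + α * ε by ring]
    rw [hκ2, div_le_iff₀ (by positivity)]
    have h2 := hd2 δ hδ0 hdd2
    have h3 : CS * (δ ^ (-θ) + 2) * (C1 * X * δ ^ (-(α ^ 2))) ≤
        CS * (3 * δ ^ (-θ)) * (C1 * X * δ ^ (-(α ^ 2))) := by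
      have : δ ^ (-θ) + 2 ≤ 3 * δ ^ (-θ) := by linarith
      gcongr
    refine h3.trans ?_
    have e3 : CS * (3 * δ ^ (-θ)) * (C1 * X * δ ^ (-(α ^ 2))) =
        (C2 * δ ^ (2 * α * ε)) * X * (δ * ((δ ^ (-(α * (α + ε)))) ^ 2 / Cz)) := by
      have e4 : CS * (3 * δ ^ (-θ)) * (C1 * X * δ ^ (-(α ^ 2))) =
          CS * 3 * C1 * X * (δ ^ (-θ) * δ ^ (-(α ^ 2))) := by ring
      rw [e4, e1, hC2]
      field_simp
    rw [e3]
    gcongr
  -- the pointwise bound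
  have hpt : ∀ u : ℝ, G1 A z Rs y J δ u → ‖ec (1 / 2 + δ + u * I) (xc (PP z y))‖ ≤ a →
      ‖Ez z y K (1 / 2 + δ + u * I)‖ ≤ η1 →
      δ ^ (-(α + ε)) ≤ ‖riemannZeta (1 / 2 + δ + u * I)‖ → κ ≤ ‖ec (1 / 2 + δ + u * I) Dq‖ := by
    intro u hu1 hu2 hu3 hu4
    have h1 := hC δ hδ0 hdC Rs J K Kq y hSP.zy hSP.bJ hRC hxC u a v hu2 hv hK hKq hu1 hu3
    rw [one_mul] at h1
    have h2 := (abs_le.1 h1).2
    have h3 : mz α z u ≤ Mz := hMz _
    have h4 : WP α z Rs y J δ u * ‖ec (1 / 2 + δ + u * I) (GQ α z y Kq)‖ ^ 2 =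
        ‖ec (1 / 2 + δ + u * I) Dq‖ ^ 2 / Real.exp (α ^ 2 * VB δ z y 0 J) := by
      rw [hDq]
      unfold WP DD
      rw [map_mul, norm_mul]
      ring
    rw [h4] at h2
    set V := Real.exp (α ^ 2 * VB δ z y 0 J) with hV
    have hV0 : 0 < V := Real.exp_pos _
    have h5 : Zn α δ u ≤ 2 * Mz * (‖ec (1 / 2 + δ + u * I) Dq‖ ^ 2 / V) := by
      have h6 : mz α z u * (‖ec (1 / 2 + δ + u * I) Dq‖ ^ 2 / V) ≤
          Mz * (‖ec (1 / 2 + δ + u * I) Dq‖ ^ 2 / V) :=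
        mul_le_mul_of_nonneg_right h3 (by positivity)
      linarith
    have h6 := (abs_le.1 (hnorm δ (by linarith) (by linarith))).1
    rw [← hV] at h6
    have h7 : 1 / 2 ≤ (2 * δ) ^ (α ^ 2) / aa α * (E0 α (Sm z) * V) := by linarith
    unfold Zn at h5
    have h8 : ‖riemannZeta (1 / 2 + δ + u * I)‖ ^ (2 * α) ≤
        Cz * ‖ec (1 / 2 + δ + u * I) Dq‖ ^ 2 := by
      set W := (2 * δ) ^ (α ^ 2) / aa α with hW
      set Zt := ‖riemannZeta (1 / 2 + δ + u * I)‖ ^ (2 * α) with hZt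
      have hZt0 : 0 ≤ Zt := by positivity
      have h9 : W * Zt * (E0 α (Sm z) * V) ≤
          2 * Mz * (‖ec (1 / 2 + δ + u * I) Dq‖ ^ 2 / V) * (E0 α (Sm z) * V) :=
        mul_le_mul_of_nonneg_right h5 (by positivity)
      have e1 : 2 * Mz * (‖ec (1 / 2 + δ + u * I) Dq‖ ^ 2 / V) * (E0 α (Sm z) * V) =
          2 * Mz * E0 α (Sm z) * ‖ec (1 / 2 + δ + u * I) Dq‖ ^ 2 := by
        field_simp
      rw [e1] at h9
      have h10 : 1 / 2 * Zt ≤ W * (E0 α (Sm z) * V) * Zt := mul_le_mul_of_nonneg_right h7 hZt0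
      have e2 : W * (E0 α (Sm z) * V) * Zt = W * Zt * (E0 α (Sm z) * V) := by ring
      rw [hCz]
      linarith
    have h9 : (δ ^ (-(α * (α + ε)))) ^ 2 ≤ ‖riemannZeta (1 / 2 + δ + u * I)‖ ^ (2 * α) := by
      have e1 : (δ ^ (-(α * (α + ε)))) ^ 2 = (δ ^ (-(α + ε))) ^ (2 * α) := by
        rw [← Real.rpow_natCast (δ ^ (-(α * (α + ε)))) 2, ← Real.rpow_mul hδ0.le,
          ← Real.rpow_mul hδ0.le]
        congr 1
        push_cast
        ring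
      rw [e1]
      exact Real.rpow_le_rpow (by positivity) hu4 (by linarith)
    have h10 : κ ^ 2 ≤ ‖ec (1 / 2 + δ + u * I) Dq‖ ^ 2 := by
      rw [hκ2, div_le_iff₀ hCz0, mul_comm _ Cz]
      exact h9.trans h8
    exact (pow_le_pow_iff_left₀ hκ0.le (norm_nonneg _) two_ne_zero).1 h10
  -- the covering
  have hlogt : δ ^ (-θ) + 1 ≤ X := by
    have h1 : δ ^ (-θ) ≤ Real.log X ^ θ := by
      have e1 : δ ^ (-θ) = (1 / δ) ^ θ := by
        rw [one_div, Real.inv_rpow hδ0.le, Real.rpow_neg hδ0.le]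
      rw [e1]
      exact Real.rpow_le_rpow (by positivity) hlX hθ
    linarith
  have hwin : δ ^ (-θ) ≤ δ ^ (-(θ + 1)) :=
    Real.rpow_le_rpow_of_exponent_ge hδ0 hδ1' (by linarith)
  set S1 : Set ℝ := Set.Icc 0 (X ^ ((9:ℝ) / 10) + 1) with hS1
  set S2 : Set ℝ := {t : ℝ | X ^ ((9:ℝ) / 10) + 1 ≤ t ∧ t ≤ X ∧ ∃ u : ℝ, t ≤ u ∧
      u ≤ t + δ ^ (-(θ + 1)) ∧
      ¬ (G1 A z Rs y J δ u ∧ ‖ec (1 / 2 + δ + u * I) (xc (PP z y))‖ ≤ a ∧
        ‖Ez z y K (1 / 2 + δ + u * I)‖ ≤ η1)} with hS2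
  set S3 : Set ℝ := {t : ℝ | X ^ ((9:ℝ) / 10) + 1 ≤ t ∧ t + δ ^ (-θ) + 1 ≤ 2 * X ∧ ∃ u : ℝ,
      t ≤ u ∧ u ≤ t + δ ^ (-θ) ∧ κ ≤ ‖(fun s => ec s Dq) (1 / 2 + δ + u * I)‖} with hS3
  have hsub : {t : ℝ | 0 ≤ t ∧ t ≤ X ∧ ∃ u : ℝ, t ≤ u ∧ u ≤ t + δ ^ (-θ) ∧
      δ ^ (-(α + ε)) ≤ ‖riemannZeta (1 / 2 + δ + u * I)‖} ⊆ S1 ∪ (S2 ∪ S3) := by
    rintro t ⟨ht0, htX, u, hu1, hu2, hu3⟩
    by_cases ht : t ≤ X ^ ((9:ℝ) / 10) + 1
    · exact Or.inl ⟨ht0, ht⟩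
    · push Not at ht
      refine Or.inr ?_
      by_cases hu : G1 A z Rs y J δ u ∧ ‖ec (1 / 2 + δ + u * I) (xc (PP z y))‖ ≤ a ∧
        ‖Ez z y K (1 / 2 + δ + u * I)‖ ≤ η1
      · exact Or.inr ⟨ht.le, by linarith, u, hu1, hu2, hpt u hu.1 hu.2.1 hu.2.2 hu3⟩
      · exact Or.inl ⟨ht.le, htX, u, hu1, by linarith, hu⟩
  have hv1 : volume S1 ≤ ENNReal.ofReal (ε / 3 * X) := by
    rw [hS1, Real.volume_Icc, sub_zero]
    exact ENNReal.ofReal_le_ofReal hpow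
  have hv2 : volume S2 ≤ ENNReal.ofReal (ε / 3 * X) := by
    refine hbad.trans (ENNReal.ofReal_le_ofReal ?_)
    have h1 := hd1 δ hδ0 hdd1
    rw [one_mul] at h1
    exact mul_le_mul_of_nonneg_right h1 hX0.le
  have hv3 : volume S3 ≤ ENNReal.ofReal (ε / 3 * X) :=
    hvolS.trans (ENNReal.ofReal_le_ofReal hb1)
  calc volume {t : ℝ | 0 ≤ t ∧ t ≤ X ∧ ∃ u : ℝ, t ≤ u ∧ u ≤ t + δ ^ (-θ) ∧
      δ ^ (-(α + ε)) ≤ ‖riemannZeta (1 / 2 + δ + u * I)‖}
      ≤ volume (S1 ∪ (S2 ∪ S3)) := measure_mono hsub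
    _ ≤ volume S1 + (volume S2 + volume S3) :=
        (measure_union_le _ _).trans (add_le_add le_rfl (measure_union_le _ _))
    _ ≤ ENNReal.ofReal (ε / 3 * X) + (ENNReal.ofReal (ε / 3 * X) +
        ENNReal.ofReal (ε / 3 * X)) := add_le_add hv1 (add_le_add hv2 hv3)
    _ = ENNReal.ofReal (ε * X) := by
        rw [← ENNReal.ofReal_add (by positivity) (by positivity),
          ← ENNReal.ofReal_add (by positivity) (by positivity)]
        congr 1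
        ring

end Pool.Agent.N748.HM.SUPZ
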