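import Pool.Agent.N748.HM.Stm3
import Pool.Agent.N748.GC.MV
import Pool.Agent.N748.GC.QC

set_option autoImplicit false

/-!
# Moments of all orders outside small sets which may be enlarged (TRM2)
-/

namespace Pool.Agent.N748.HM.TRM2

open Finset Filter MeasureTheory MonoidAlgebra Topology Complex
open Pool.Agent.N748.GC

/-! ### polynomials -/

lemma ec_cont (D : PC) {s : ℂ} (hs : 0 < s.re) : Continuous fun u : ℝ => ec (s + u * I) D := by
  have : (fun u : ℝ => ec (s + u * I) D) =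
      fun u : ℝ => ∑ n ∈ D.coeff.support, D.coeff n * (n:ℂ) ^ (-(s + u * I)) := by
    funext u
    exact MV.ec_apply _ _
  rw [this]
  refine continuous_finsetSum _ fun n _ => continuous_const.mul ?_
  rcases eq_or_ne n 0 with h | h
  · subst h
    have h2 : (fun u : ℝ => ((0:ℕ):ℂ) ^ (-(s + u * I))) = fun _ => 0 := by
      funext u
      rw [Nat.cast_zero, Complex.zero_cpow]
      intro h0
      have h3 := congrArg Complex.re h0
      simp at h3
      linarith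
    rw [h2]
    exact continuous_const
  · have h0 : (n:ℂ) ≠ 0 := by exact_mod_cast h
    exact Continuous.const_cpow (by fun_prop) (Or.inl h0)

lemma sf_zero' (f : PC) : sf 0 f = f := by
  ext n
  rw [MV.sf_coeff]
  simp

lemma mean_sq {P : Finset ℕ} (hP : ∀ p ∈ P, p.Prime) {N X1 X2 δ : ℝ} {D : PC} (hD : Cop P N D)
    (hδ : 0 ≤ δ) (h12 : X1 ≤ X2) :
    (∫ t in X1..X2, ‖ec (1 / 2 + δ + t * I) D‖ ^ 2) ≤ (X2 - X1) * nn δ D + 8 * N * lc1 D ^ 2 := by
  have h1 := MV.main P hP N X1 X2 δ D 1 1 hD hδ h12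
      ⟨one_ne_zero, fun p hp h => absurd (Nat.dvd_one.mp h) hp.one_lt.ne'⟩
      ⟨one_ne_zero, fun p hp h => absurd (Nat.dvd_one.mp h) hp.one_lt.ne'⟩ (Nat.coprime_one_left 1)
  have e1 : ∀ t : ℝ, chr 1 1 t = 1 := by intro t; unfold chr; simp
  simp only [e1, mul_one, if_true, Nat.cast_one] at h1
  rw [intervalIntegral.integral_ofReal, ← Complex.ofReal_sub, Complex.norm_real, Real.norm_eq_abs] at h1
  have := (abs_le.mp h1).2
  linarith

lemma be_pos (y : ℝ) (i : ℕ) : 0 < be y i := Real.exp_pos _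

lemma be_le {y : ℝ} (hy : 1 ≤ y) (i : ℕ) : be y i ≤ y := by
  unfold be
  have h1 : 0 ≤ Real.log y := Real.log_nonneg hy
  have h2 : ((1:ℝ) / 4) ^ i ≤ 1 := pow_le_one₀ (by norm_num) (by norm_num)
  calc Real.exp (Real.log y * (1 / 4) ^ i) ≤ Real.exp (Real.log y) :=
        Real.exp_le_exp.mpr (mul_le_of_le_one_right h1 h2)
    _ = y := Real.exp_log (by linarith)

lemma be_anti {y : ℝ} (hy : 1 ≤ y) {i j : ℕ} (h : i ≤ j) : be y j ≤ be y i := by
  unfold be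
  refine Real.exp_le_exp.mpr (mul_le_mul_of_nonneg_left ?_ (Real.log_nonneg hy))
  exact pow_le_pow_of_le_one (by norm_num) (by norm_num) h

lemma IB_sub {z : ℕ} {y : ℝ} (hy : 1 ≤ y) (i : ℕ) : IB z y i ⊆ PP z y := by
  intro p hp
  unfold IB at hp
  rw [mem_filter, mem_filter, mem_Icc] at hp
  unfold PP
  rw [mem_filter, mem_Icc]
  exact ⟨⟨hp.2, hp.1.1.2.trans (Nat.floor_le_floor (be_le hy i))⟩, hp.1.2.1⟩

lemma IB_disj {z : ℕ} {y : ℝ} (hy : 1 ≤ y) {i j : ℕ} (h : i < j) : Disjoint (IB z y i) (IB z y j) := by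
  rw [Finset.disjoint_left]
  intro p hp hq
  unfold IB at hp hq
  rw [mem_filter, mem_filter, mem_Icc] at hp hq
  have h1 : be y (i+1) < p := hp.1.2.2.2
  have h2 : (p:ℝ) ≤ be y j := (Nat.le_floor_iff (be_pos y j).le).1 hq.1.1.2
  have h3 := be_anti hy (Nat.succ_le_of_lt h)
  linarith

lemma wd_le {δ : ℝ} (hδ : 0 ≤ δ) {p : ℕ} (hp : 1 ≤ p) : wd δ p ≤ 1 / (p:ℝ) := by
  unfold wd
  refine mul_le_of_le_one_left (by positivity) ?_
  exact Real.rpow_le_one_of_one_le_of_nonpos (by exact_mod_cast hp) (by linarith)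

lemma VB_nonneg (δ : ℝ) (z : ℕ) (y : ℝ) (j J : ℕ) : 0 ≤ VB δ z y j J :=
  sum_nonneg fun _ _ => sum_nonneg fun p _ => MV.wd_nonneg δ p

lemma VB_le {δ : ℝ} (hδ : 0 ≤ δ) (z : ℕ) {y : ℝ} (hy : 1 ≤ y) (J : ℕ) :
    VB δ z y 0 J ≤ ∑ p ∈ PP z y, 1 / (p:ℝ) := by
  unfold VB
  rw [← Finset.sum_biUnion]
  · refine (sum_le_sum_of_subset_of_nonneg (biUnion_subset.2 fun i _ => IB_sub hy i)
      fun p _ _ => MV.wd_nonneg δ p).trans ?_
    refine sum_le_sum fun p hp => wd_le hδ ?_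
    have := (mem_filter.1 hp).2.one_lt
    omega
  · intro i _ j _ hij
    rcases lt_or_gt_of_ne hij with h | h
    · exact IB_disj hy h
    · exact (IB_disj hy h).symm

lemma ec_NKc_le (s : ℂ) (K : ℕ) {a : ℝ} (ha : 0 ≤ a) (Z : PC) :
    ‖ec s (NKc K a Z)‖ ≤ Real.exp (a * ‖ec s Z‖) := by
  unfold NKc
  rw [map_sum]
  refine (norm_sum_le _ _).trans ?_
  refine le_trans ?_ (Real.sum_le_exp_of_nonneg (by positivity) (K+1))
  refine sum_le_sum fun k _ => ?_
  rw [map_smul, map_pow, smul_eq_mul, norm_mul, norm_pow, Complex.norm_real,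
    Real.norm_of_nonneg (by positivity), mul_pow]
  apply le_of_eq; ring

lemma GQ_le {α : ℝ} (hα : 0 ≤ α) (z : ℕ) (y : ℝ) (Kq : ℕ) {s : ℂ} (hs : 1 / 2 ≤ s.re) {v : ℝ}
    (hv : ∑ p ∈ PP z y, 1 / (p:ℝ) ≤ v) : ‖ec s (GQ α z y Kq)‖ ≤ Real.exp (α * v / 2) := by
  unfold GQ
  refine (ec_NKc_le s Kq hα _).trans (Real.exp_le_exp.mpr ?_)
  have h1 : ‖ec s (∑ p ∈ PP z y, single (p ^ 2) (1 / 2 : ℂ))‖ ≤ (1/2) * ∑ p ∈ PP z y, 1 / (p:ℝ) := by
    rw [map_sum, mul_sum]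
    refine (norm_sum_le _ _).trans (sum_le_sum fun p hp => ?_)
    have hp0 : 0 < p := (mem_filter.1 hp).2.pos
    have hp1 : (1:ℝ) ≤ p := by exact_mod_cast hp0
    rw [MV.ec_single, norm_mul, Complex.norm_natCast_cpow_of_pos (by positivity)]
    have h2 : ‖(1 / 2 : ℂ)‖ = 1 / 2 := by simp
    rw [h2]
    refine mul_le_mul_of_nonneg_left ?_ (by norm_num)
    have h3 : (((p ^ 2 : ℕ)):ℝ) ^ (-s).re ≤ (((p ^ 2 : ℕ)):ℝ) ^ (-(1 / 2) : ℝ) := by
      refine Real.rpow_le_rpow_of_exponent_le ?_ ?_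
      · push_cast; nlinarith
      · rw [Complex.neg_re]; linarith
    refine h3.trans (le_of_eq ?_)
    push_cast
    rw [← Real.rpow_natCast, ← Real.rpow_mul (by linarith)]
    norm_num
    rw [Real.rpow_neg_one]
  calc α * ‖ec s (∑ p ∈ PP z y, single (p ^ 2) (1 / 2 : ℂ))‖ ≤ α * ((1/2) * v) := by
        refine mul_le_mul_of_nonneg_left (h1.trans ?_) hα
        linarith
    _ = α * v / 2 := by ring

/-! ### the weights -/

lemma re_pos {δ : ℝ} (hδ : 0 ≤ δ) : 0 < ((1:ℂ) / 2 + δ).re := by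
  simp; linarith

lemma WP_cont (α : ℝ) (z Rs : ℕ) (y : ℝ) (J : ℕ) {δ : ℝ} (hδ : 0 ≤ δ) : Continuous (WP α z Rs y J δ) := by
  unfold WP
  exact ((ec_cont _ (re_pos hδ)).norm.pow 2).div_const _

lemma WP_nonneg (α : ℝ) (z Rs : ℕ) (y : ℝ) (J : ℕ) (δ u : ℝ) : 0 ≤ WP α z Rs y J δ u := by
  unfold WP
  positivity

lemma WP_sq (α : ℝ) (z Rs : ℕ) (y : ℝ) (J : ℕ) (δ t : ℝ) :
    WP α z Rs y J δ t ^ 2 =
      ‖ec (1 / 2 + δ + t * I) (BP (fun _ => α) z y 0 J Rs * BP (fun _ => α) z y 0 J Rs)‖ ^ 2 /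
        Real.exp (2 * α ^ 2 * VB δ z y 0 J) := by
  unfold WP
  rw [map_mul, norm_mul, div_pow, ← Real.exp_nat_mul]
  congr 1
  · ring
  · congr 1; push_cast; ring

lemma wsq {α : ℝ} {P : Finset ℕ} (hP : ∀ p ∈ P, p.Prime) {z Rs J : ℕ} {y X δ v CN N : ℝ} (hδ : 0 ≤ δ)
    (hX : 0 ≤ X) (hN0 : 0 ≤ N) (hCop : Cop P N (BP (fun _ => α) z y 0 J Rs))
    (hlc : lc1 (BP (fun _ => α) z y 0 J Rs) ≤ N) (hNX : 8 * (N * N) ^ 3 ≤ X)
    (hnn : nn δ (BP (fun _ => α) z y 0 J Rs * BP (fun _ => α) z y 0 J Rs) ≤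
      Real.exp (4 * α ^ 2 * VB δ z y 0 J + CN)) (hv : VB δ z y 0 J ≤ v) :
    ∫ t in (0:ℝ)..X, WP α z Rs y J δ t ^ 2 ≤ X * ((Real.exp CN + 1) * Real.exp (2 * α ^ 2 * v)) := by
  set B := BP (fun _ => α) z y 0 J Rs with hB
  set V := VB δ z y 0 J with hV
  have hV0 : 0 ≤ V := VB_nonneg _ _ _ _ _
  have e1 : ∫ t in (0:ℝ)..X, WP α z Rs y J δ t ^ 2 =
      (∫ t in (0:ℝ)..X, ‖ec (1 / 2 + δ + t * I) (B * B)‖ ^ 2) / Real.exp (2 * α ^ 2 * V) := by
    rw [← intervalIntegral.integral_div]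
    refine intervalIntegral.integral_congr fun t _ => ?_
    exact WP_sq α z Rs y J δ t
  have hm := mean_sq hP (MV.Cop_mul hP hN0 hCop hCop) hδ hX (D := B * B)
  have hl : lc1 (B * B) ≤ N * N :=
    (MV.lc1_mul B B).trans (mul_le_mul hlc hlc (MV.lc1_nonneg _) hN0)
  have hl2 : lc1 (B * B) ^ 2 ≤ (N * N) ^ 2 := pow_le_pow_left₀ (MV.lc1_nonneg _) hl 2
  have h3 : (∫ t in (0:ℝ)..X, ‖ec (1 / 2 + δ + t * I) (B * B)‖ ^ 2) ≤
      X * Real.exp (4 * α ^ 2 * V + CN) + X := by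
    refine hm.trans ?_
    have h4 : (X - 0) * nn δ (B * B) ≤ X * Real.exp (4 * α ^ 2 * V + CN) := by
      rw [sub_zero]; exact mul_le_mul_of_nonneg_left hnn hX
    have h5 : 8 * (N * N) * lc1 (B * B) ^ 2 ≤ X := by
      refine le_trans ?_ hNX
      calc 8 * (N * N) * lc1 (B * B) ^ 2 ≤ 8 * (N * N) * (N * N) ^ 2 := by
            refine mul_le_mul_of_nonneg_left hl2 (by positivity)
        _ = _ := by ring
    linarith
  rw [e1, div_le_iff₀ (Real.exp_pos _)]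
  refine h3.trans ?_
  have h6 : Real.exp (4 * α ^ 2 * V + CN) =
      Real.exp CN * Real.exp (2 * α ^ 2 * V) * Real.exp (2 * α ^ 2 * V) := by
    rw [← Real.exp_add, ← Real.exp_add]; congr 1; ring
  have h7 : Real.exp (2 * α ^ 2 * V) ≤ Real.exp (2 * α ^ 2 * v) :=
    Real.exp_le_exp.mpr (mul_le_mul_of_nonneg_left hv (by positivity))
  have h8 : 1 ≤ Real.exp (2 * α ^ 2 * V) := Real.one_le_exp (by positivity)
  have h9 : Real.exp CN * Real.exp (2 * α ^ 2 * V) * Real.exp (2 * α ^ 2 * V) + 1 ≤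
      ((Real.exp CN + 1) * Real.exp (2 * α ^ 2 * v)) * Real.exp (2 * α ^ 2 * V) := by
    have h10 := Real.exp_pos CN
    have h11 : Real.exp CN * Real.exp (2 * α ^ 2 * V) ≤ Real.exp CN * Real.exp (2 * α ^ 2 * v) :=
      mul_le_mul_of_nonneg_left h7 h10.le
    have h12 : Real.exp CN * Real.exp (2 * α ^ 2 * V) * Real.exp (2 * α ^ 2 * V) ≤
        Real.exp CN * Real.exp (2 * α ^ 2 * v) * Real.exp (2 * α ^ 2 * V) :=
      mul_le_mul_of_nonneg_right h11 (by positivity)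
    have h13 : 1 ≤ Real.exp (2 * α ^ 2 * v) * Real.exp (2 * α ^ 2 * V) := by
      nlinarith
    nlinarith
  rw [h6]
  calc X * (Real.exp CN * Real.exp (2 * α ^ 2 * V) * Real.exp (2 * α ^ 2 * V)) + X
      = X * (Real.exp CN * Real.exp (2 * α ^ 2 * V) * Real.exp (2 * α ^ 2 * V) + 1) := by ring
    _ ≤ X * (((Real.exp CN + 1) * Real.exp (2 * α ^ 2 * v)) * Real.exp (2 * α ^ 2 * V)) :=
        mul_le_mul_of_nonneg_left h9 hX
    _ = _ := by ring

/-- integrals over small sets -/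
lemma small_set {W : ℝ → ℝ} (hW : Continuous W) {X : ℝ} (hX : 0 ≤ X) {E : Set ℝ}
    (hEX : E ⊆ Set.Icc 0 X) {l : ℝ} (hl : 0 < l) :
    ∫ t in E, W t ≤ l / 2 * (∫ t in (0:ℝ)..X, W t ^ 2) + (volume E).toReal / (2 * l) := by
  have hfin : volume E ≠ ⊤ := ne_top_of_le_ne_top (by simp) (measure_mono hEX)
  have hi : ∀ f : ℝ → ℝ, Continuous f → IntegrableOn f (Set.Icc 0 X) volume :=
    fun f hf => hf.integrableOn_Icc
  have h1 : ∀ t, W t ≤ l / 2 * W t ^ 2 + 1 / (2 * l) := by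
    intro t
    have h : 0 ≤ (l * W t - 1) ^ 2 / (2 * l) := by positivity
    have e : (l * W t - 1) ^ 2 / (2 * l) = l / 2 * W t ^ 2 + 1 / (2 * l) - W t := by
      field_simp; ring
    linarith
  have hi2 : IntegrableOn (fun t => l / 2 * W t ^ 2) E volume :=
    (hi _ (by fun_prop)).mono_set hEX
  have hi3 : IntegrableOn (fun _ : ℝ => 1 / (2 * l)) E volume :=
    integrableOn_const hfin
  calc ∫ t in E, W t ≤ ∫ t in E, (l / 2 * W t ^ 2 + 1 / (2 * l)) :=
        setIntegral_mono ((hi _ hW).mono_set hEX) (hi2.add hi3) h1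
    _ = (∫ t in E, l / 2 * W t ^ 2) + ∫ t in E, 1 / (2 * l) := integral_add hi2 hi3
    _ = l / 2 * (∫ t in E, W t ^ 2) + (volume E).toReal / (2 * l) := by
        rw [integral_const_mul, setIntegral_const, smul_eq_mul, Measure.real]
        ring
    _ ≤ l / 2 * (∫ t in (0:ℝ)..X, W t ^ 2) + (volume E).toReal / (2 * l) := by
        have h2 : ∫ t in E, W t ^ 2 ≤ ∫ t in (0:ℝ)..X, W t ^ 2 := by
          rw [intervalIntegral.integral_of_le hX, ← integral_Icc_eq_integral_Ioc]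
          exact setIntegral_mono_set (hi _ (by fun_prop))
            (Eventually.of_forall fun t => sq_nonneg _) (Eventually.of_forall hEX)
        have h3 : 0 ≤ l / 2 := by positivity
        have := mul_le_mul_of_nonneg_left h2 h3
        linarith

/-! ### growth -/

lemma ev_pow (b : ℝ) : ∀ᶠ X : ℝ in atTop, X ^ ((9:ℝ) / 10) + 1 ≤ X * Real.log X ^ (-b) := by
  have h1 := (isLittleO_log_rpow_rpow_atTop b (by norm_num : (0:ℝ) < 1 / 10)).def
    (by norm_num : (0:ℝ) < 1 / 2)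
  filter_upwards [h1, eventually_ge_atTop (3:ℝ)] with X h1 h3
  have hX0 : 0 < X := by linarith
  have hl : 0 < Real.log X := Real.log_pos (by linarith)
  rw [Real.norm_of_nonneg (by positivity), Real.norm_of_nonneg (by positivity)] at h1
  have h4 : 1 ≤ X ^ ((9:ℝ) / 10) := Real.one_le_rpow (by linarith) (by norm_num)
  have h5 : X ^ ((9:ℝ) / 10) * X ^ ((1:ℝ) / 10) = X := by
    rw [← Real.rpow_add hX0]; norm_num
  rw [Real.rpow_neg hl.le, ← div_eq_mul_inv, le_div_iff₀ (by positivity)]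
  have h6 : 0 < Real.log X ^ b := by positivity
  calc (X ^ ((9:ℝ) / 10) + 1) * Real.log X ^ b ≤ (2 * X ^ ((9:ℝ) / 10)) * (1 / 2 * X ^ ((1:ℝ) / 10)) := by
        refine mul_le_mul (by linarith) h1 h6.le (by positivity)
    _ = X ^ ((9:ℝ) / 10) * X ^ ((1:ℝ) / 10) := by ring
    _ = X := h5

lemma ev_len : ∀ᶠ X : ℝ in atTop, 8 * ((2 * (X + 1)) ^ ((1:ℝ) / 50)) ^ 3 ≤ X := by
  have h1 := (tendsto_rpow_atTop (by norm_num : (0:ℝ) < 22 / 25)).eventually_ge_atTop 8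
  filter_upwards [h1, eventually_ge_atTop (4:ℝ)] with X h1 h4
  have hX0 : 0 < X := by linarith
  have h2 : (2 * (X + 1)) ^ ((1:ℝ) / 50) ≤ X ^ ((1:ℝ) / 25) := by
    have e : X ^ ((1:ℝ) / 25) = (X ^ 2) ^ ((1:ℝ) / 50) := by
      rw [← Real.rpow_natCast, ← Real.rpow_mul hX0.le]; norm_num
    rw [e]
    exact Real.rpow_le_rpow (by positivity) (by nlinarith) (by norm_num)
  have h3 : ((2 * (X + 1)) ^ ((1:ℝ) / 50)) ^ 3 ≤ (X ^ ((1:ℝ) / 25)) ^ 3 :=
    pow_le_pow_left₀ (by positivity) h2 3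
  have e2 : (X ^ ((1:ℝ) / 25)) ^ 3 = X ^ ((3:ℝ) / 25) := by
    rw [← Real.rpow_natCast, ← Real.rpow_mul hX0.le]; norm_num
  have e3 : X ^ ((22:ℝ) / 25) * X ^ ((3:ℝ) / 25) = X := by
    rw [← Real.rpow_add hX0]; norm_num
  have h5 : 0 < X ^ ((3:ℝ) / 25) := by positivity
  rw [e2] at h3
  calc 8 * ((2 * (X + 1)) ^ ((1:ℝ) / 50)) ^ 3 ≤ 8 * X ^ ((3:ℝ) / 25) := by linarith
    _ ≤ X ^ ((22:ℝ) / 25) * X ^ ((3:ℝ) / 25) := mul_le_mul_of_nonneg_right h1 h5.le
    _ = X := e3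

lemma ev_Xl : ∀ᶠ X : ℝ in atTop, 0 ≤ Xl X ∧ Xl X ≤ X ^ ((9:ℝ) / 10) := by
  have h1 := (tendsto_rpow_atTop (by norm_num : (0:ℝ) < 1 / 10)).eventually_ge_atTop 4
  filter_upwards [h1, eventually_ge_atTop (4:ℝ)] with X h1 h4
  have hX0 : 0 < X := by linarith
  unfold Xl
  refine ⟨by positivity, ?_⟩
  have h2 : (2 * (X + 1)) ^ ((4:ℝ) / 5) ≤ (4 * X) ^ ((4:ℝ) / 5) :=
    Real.rpow_le_rpow (by positivity) (by linarith) (by norm_num)
  have h3 : (4 * X) ^ ((4:ℝ) / 5) ≤ 4 * X ^ ((4:ℝ) / 5) := by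
    rw [Real.mul_rpow (by norm_num) hX0.le]
    refine mul_le_mul_of_nonneg_right ?_ (by positivity)
    calc (4:ℝ) ^ ((4:ℝ) / 5) ≤ (4:ℝ) ^ (1:ℝ) := Real.rpow_le_rpow_of_exponent_le (by norm_num) (by norm_num)
      _ = 4 := Real.rpow_one _
  have e : X ^ ((1:ℝ) / 10) * X ^ ((4:ℝ) / 5) = X ^ ((9:ℝ) / 10) := by
    rw [← Real.rpow_add hX0]; norm_num
  have h5 : 0 < X ^ ((4:ℝ) / 5) := by positivity
  calc (2 * (X + 1)) ^ ((4:ℝ) / 5) ≤ 4 * X ^ ((4:ℝ) / 5) := h2.trans h3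
    _ ≤ X ^ ((1:ℝ) / 10) * X ^ ((4:ℝ) / 5) := mul_le_mul_of_nonneg_right h1 h5.le
    _ = _ := e

/-! ### the good points -/

lemma zeta_cont {δ : ℝ} (hδ2 : δ ≤ 1 / 16) :
    Continuous fun u : ℝ => riemannZeta (1 / 2 + δ + u * I) := by
  rw [continuous_iff_continuousAt]
  intro u
  have h1 : (1 / 2 + (δ:ℂ) + u * I) ≠ 1 := by
    intro h
    have h3 := congrArg Complex.re h
    simp at h3
    linarith
  exact ContinuousAt.comp (f := fun u : ℝ => (1 / 2 + (δ:ℂ) + u * I))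
    (differentiableAt_riemannZeta h1).continuousAt (by fun_prop)

lemma Zn_cont {α δ : ℝ} (hα : 0 ≤ α) (hδ2 : δ ≤ 1 / 16) : Continuous (Zn α δ) := by
  unfold Zn
  exact continuous_const.mul ((zeta_cont hδ2).norm.rpow_const fun _ => Or.inr (by positivity))

lemma Ez_cont (z : ℕ) (y : ℝ) (K : ℕ) {δ : ℝ} (hδ : 0 ≤ δ) (hδ2 : δ ≤ 1 / 16) :
    Continuous fun u : ℝ => Ez z y K (1 / 2 + δ + u * I) := by
  unfold Ez
  refine Continuous.sub (Continuous.mul (Continuous.mul (zeta_cont hδ2) ?_) (ec_cont _ (re_pos hδ)))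
    continuous_const
  refine continuous_finsetProd _ fun p hp => continuous_const.sub ?_
  have h0 : (p:ℂ) ≠ 0 := by exact_mod_cast (QC.Sm_prime z p hp).ne_zero
  exact Continuous.const_cpow (by fun_prop) (Or.inl h0)

lemma G1_closed (A z Rs : ℕ) (y : ℝ) (J : ℕ) {δ : ℝ} (hδ : 0 ≤ δ) :
    IsClosed {u : ℝ | G1 A z Rs y J δ u} := by
  have : {u : ℝ | G1 A z Rs y J δ u} = ⋂ i, ⋂ (_ : i < J),
      {u : ℝ | (A:ℝ) * ‖ec (1 / 2 + δ + u * I) (xc (IB z y i))‖ ≤ RB Rs i} := by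
    ext u; simp [G1]
  rw [this]
  exact isClosed_iInter fun i => isClosed_iInter fun _ =>
    isClosed_le (continuous_const.mul (ec_cont _ (re_pos hδ)).norm) continuous_const

/-- the good points -/
def Gt (A z Rs : ℕ) (y : ℝ) (J K : ℕ) (δ a η1 : ℝ) : Set ℝ :=
  {u : ℝ | G1 A z Rs y J δ u ∧ ‖ec (1 / 2 + δ + u * I) (xc (PP z y))‖ ≤ a ∧
    ‖Ez z y K (1 / 2 + δ + u * I)‖ ≤ η1}

lemma Gt_closed (A z Rs : ℕ) (y : ℝ) (J K : ℕ) {δ : ℝ} (a η1 : ℝ) (hδ : 0 ≤ δ) (hδ2 : δ ≤ 1 / 16) :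
    IsClosed (Gt A z Rs y J K δ a η1) := by
  have : Gt A z Rs y J K δ a η1 = {u : ℝ | G1 A z Rs y J δ u} ∩
      ({u : ℝ | ‖ec (1 / 2 + δ + u * I) (xc (PP z y))‖ ≤ a} ∩
        {u : ℝ | ‖Ez z y K (1 / 2 + δ + u * I)‖ ≤ η1}) := by
    ext u; rfl
  rw [this]
  exact (G1_closed A z Rs y J hδ).inter ((isClosed_le (ec_cont _ (re_pos hδ)).norm continuous_const).inter
    (isClosed_le (Ez_cont z y K hδ hδ2).norm continuous_const))

/-- from the density to zeta -/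
lemma fin {Z H : ℝ → ℝ} {X Y κ : ℝ} {E : Set ℝ} (hZ : Continuous Z) (hH : Continuous H)
    (hH0 : ∀ t, 0 ≤ H t) (hX : 0 ≤ X) (hY : 0 ≤ Y) (hYX : Y ≤ X)
    (hE : MeasurableSet E) (hEX : E ⊆ Set.Icc 0 X) (hYE : Set.Icc 0 Y ⊆ E)
    (hZH : ∀ t ∈ Set.Icc 0 X \ E, |Z t - H t| ≤ κ * H t)
    (hI : |(∫ t in Y..X, H t) - X| ≤ 4 * κ * X) (hs : ∫ t in E, H t ≤ κ * X) (hκ : 0 ≤ κ)
    (hκ1 : κ ≤ 1 / 10) : |(∫ u in Set.Icc 0 X \ E, Z u) - X| ≤ 10 * κ * X := by
  set T : Set ℝ := Set.Icc 0 X \ E with hT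
  have hTm : MeasurableSet T := measurableSet_Icc.diff hE
  have hTX : T ⊆ Set.Icc 0 X := Set.sdiff_subset
  have hi : ∀ f : ℝ → ℝ, Continuous f → ∀ S : Set ℝ, S ⊆ Set.Icc 0 X → IntegrableOn f S volume :=
    fun f hf S hS => hf.integrableOn_Icc.mono_set hS
  have hYsub : Set.Ioc Y X ⊆ Set.Icc 0 X := fun t ht => ⟨hY.trans ht.1.le, ht.2⟩
  have hTY : T ⊆ Set.Ioc Y X := by
    intro t ht
    refine ⟨?_, ht.1.2⟩
    by_contra h
    exact ht.2 (hYE ⟨ht.1.1, not_lt.1 h⟩)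
  have h1 : ∫ t in T, H t ≤ ∫ t in Y..X, H t := by
    rw [intervalIntegral.integral_of_le hYX]
    exact setIntegral_mono_set (hi _ hH _ hYsub) (Eventually.of_forall hH0) (Eventually.of_forall hTY)
  have h2 : ∫ t in Y..X, H t ≤ (∫ t in T, H t) + ∫ t in E, H t := by
    rw [intervalIntegral.integral_of_le hYX, ← setIntegral_union Set.disjoint_sdiff_left hE
      (hi _ hH _ hTX) (hi _ hH _ hEX)]
    refine setIntegral_mono_set (hi _ hH _ (Set.union_subset hTX hEX)) (Eventually.of_forall hH0)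
      (Eventually.of_forall ?_)
    intro t ht
    by_cases h : t ∈ E
    · exact Or.inr h
    · exact Or.inl ⟨hYsub ht, h⟩
  have h3 : |(∫ t in T, Z t) - ∫ t in T, H t| ≤ κ * ∫ t in T, H t := by
    rw [← integral_sub (hi _ hZ _ hTX) (hi _ hH _ hTX), ← integral_const_mul]
    refine (abs_integral_le_integral_abs).trans ?_
    refine setIntegral_mono_on (hi _ (by fun_prop) _ hTX) (hi _ (by fun_prop) _ hTX) hTm ?_
    exact hZH
  have h4 := abs_le.1 hI
  have h5 := abs_le.1 h3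
  have h6 : ∫ t in T, H t ≤ 2 * X := by nlinarith
  have h7 : κ * ∫ t in T, H t ≤ κ * (2 * X) := mul_le_mul_of_nonneg_left h6 hκ
  have h8 : 0 ≤ κ * X := by positivity
  rw [abs_le]
  constructor <;> nlinarith

lemma exp_rp {δ : ℝ} (hδ : 0 < δ) (b : ℝ) : δ ^ b = Real.exp (-(b * Real.log (1 / δ))) := by
  rw [Real.rpow_def_of_pos hδ, one_div, Real.log_inv]
  congr 1; ring

theorem main (hP : S_PRM) (hC : S_CL) (hO : S_ONE3) (hQ : S_SQ2) (hN : S_NNB3) (hL : S_LEN3) :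
    S_TRM2 := by
  intro α hα
  set D0 := 4 * α ^ 2 + 4 * α + 10 with hD0
  have hD00 : 0 < D0 := by positivity
  refine ⟨D0, hD00, fun D hDD ε hε => ?_⟩
  have hD : 0 < D := hD00.trans_le hDD
  obtain ⟨c, hc, hP⟩ := hP
  set A := ⌈α⌉₊ with hA
  have hαA : α ≤ A := Nat.le_ceil α
  obtain ⟨κ, hκ0, hκ1, hκε⟩ : ∃ κ : ℝ, 0 < κ ∧ κ ≤ 1 / 10 ∧ 10 * κ ≤ ε := by
    refine ⟨min ε 1 / 10, by positivity, ?_, ?_⟩
    · have := min_le_right ε 1; linarith
    · have := min_le_left ε 1; linarith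
  obtain ⟨z1, R1, hO⟩ := hO α hα c hc κ hκ0
  obtain ⟨z2, R2, hQ⟩ := hQ α hα c hc κ hκ0
  obtain ⟨z3, hC⟩ := hC A α hα hαA κ hκ0
  obtain ⟨CN, R4, hCN, hN⟩ := hN c hc A
  obtain ⟨z, hz1, hz2, hz3, hz4⟩ : ∃ z : ℕ, z1 ≤ z ∧ z2 ≤ z ∧ z3 ≤ z ∧ 1000 ≤ z :=
    ⟨z1 + z2 + z3 + 1000, by omega, by omega, by omega, by omega⟩
  obtain ⟨R3, x0, δ3, η1, C3, hδ3, hδ3', hη1, hC3, hC⟩ := hC z hz3
  have hSm := QC.Sm_prime z
  obtain ⟨Cz, hCz0, hCz⟩ : ∃ Cz : ℝ, 0 < Cz ∧ ∀ u, mz α z u ≤ Cz := by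
    obtain ⟨C, hC⟩ := (isCompact_range (QC.M0_cont α hSm)).bddAbove
    refine ⟨max C 1, by positivity, fun u => ?_⟩
    exact (hC ⟨pt (Sm z) u, rfl⟩).trans (le_max_left _ _)
  set D' := D + 1 with hD'
  have hD'0 : 0 < D' := by positivity
  obtain ⟨R0, hR1, hR2, hR3, hR4, hRA, hR5⟩ : ∃ R0 : ℕ, R1 ≤ R0 ∧ R2 ≤ R0 ∧ R3 ≤ R0 ∧ R4 ≤ R0 ∧
      A ≤ R0 ∧ 1 ≤ R0 :=
    ⟨R1 + R2 + R3 + R4 + A + 1, by omega, by omega, by omega, by omega, by omega, by omega⟩
  obtain ⟨lam, δ4, hlam, hδ4, hδ4', hP⟩ := hP A D' hD'0 z hz4 R0 x0 η1 C3 hη1 hC3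
  have hKN : 0 < Cz * (Real.exp CN + 2) := by positivity
  refine ⟨lam, min (min δ3 δ4) (κ / (Cz * (Real.exp CN + 2))), hlam, by positivity, ?_, ?_⟩
  · exact ((min_le_left _ _).trans (min_le_left _ _)).trans hδ3'
  have hMc : Continuous fun q : Unit × UnitAddTorus (Sm z) => M0 α (Sm z) q.2 :=
    (QC.M0_cont α hSm).comp continuous_snd
  have hM0 : ∀ q : Unit × UnitAddTorus (Sm z), 0 ≤ M0 α (Sm z) q.2 :=
    fun q => (QC.M0_pos α hSm _).le
  have hO' := hO z hz1 Unit _ hMc hM0 κ hκ0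
  have hQ' := hQ z hz2 Unit _ hMc hM0 κ hκ0
  filter_upwards [hP, hO', hQ', ev_pow D', ev_len, ev_Xl, eventually_ge_atTop (3:ℝ)] with
    X hPX hOX hQX hX1 hX2 hX3 hX4 δ hδ hδ0 hlamδ
  have hX0 : 0 < X := by linarith
  have hδ3'' : δ ≤ δ3 := hδ0.trans ((min_le_left _ _).trans (min_le_left _ _))
  have hδ4'' : δ ≤ δ4 := hδ0.trans ((min_le_left _ _).trans (min_le_right _ _))
  have hδκ : δ ≤ κ / (Cz * (Real.exp CN + 2)) := hδ0.trans (min_le_right _ _)
  have hδ16 : δ ≤ 1 / 16 := hδ3''.trans hδ3'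
  obtain ⟨Rs, J, K, Kq, y, a, v, hR, hSP, hδX, hx0, hv2, hv, hK, hKq, hKqy, hvol⟩ :=
    hPX δ hδ hδ4'' hlamδ
  have hy1 : 1 ≤ y := by
    have h := hSP.zy
    have h2 : (1000:ℝ) ≤ z := by exact_mod_cast hz4
    linarith
  set L := Real.log (1 / δ) with hLd
  have hL0 : 0 < L := Real.log_pos (by rw [lt_div_iff₀ hδ]; linarith)
  have hrp : ∀ b : ℝ, δ ^ b = Real.exp (-(b * L)) := exp_rp hδ
  have hδL : δ = Real.exp (-L) := by
    have := hrp 1
    rw [Real.rpow_one, one_mul] at this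
    exact this
  -- the exceptional set
  set Y := X ^ ((9:ℝ) / 10) + 1 with hY
  have hY1 : Y ≤ δ ^ D' * X := by
    refine hX1.trans ?_
    rw [mul_comm]
    refine mul_le_mul_of_nonneg_right ?_ hX0.le
    have h1 : Real.log X ^ (-D') ≤ (1 / δ) ^ (-D') :=
      Real.rpow_le_rpow_of_nonpos (by positivity) hδX (by linarith)
    refine h1.trans (le_of_eq ?_)
    rw [one_div, Real.inv_rpow hδ.le, Real.rpow_neg hδ.le, inv_inv]
  have hδD : δ ^ D' ≤ δ ^ D * δ := by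
    rw [hD', Real.rpow_add hδ, Real.rpow_one]
  have hδD0 : 0 < δ ^ D := by positivity
  have hδD1 : δ ^ D ≤ 1 := Real.rpow_le_one hδ.le (by linarith) hD.le
  have hYX : Y ≤ X := by
    refine hY1.trans ?_
    have h1 : δ ^ D' ≤ 1 := Real.rpow_le_one hδ.le (by linarith) hD'0.le
    calc δ ^ D' * X ≤ 1 * X := mul_le_mul_of_nonneg_right h1 hX0.le
      _ = X := one_mul X
  have hY0 : 0 ≤ Y := by positivity
  set B1 : Set ℝ := Set.Icc Y X ∩ (Gt A z Rs y J K δ a η1)ᶜ with hB1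
  set E : Set ℝ := Set.Icc 0 Y ∪ B1 with hE
  have hGc := Gt_closed A z Rs y J K a η1 hδ.le hδ16
  have hEm : MeasurableSet E := measurableSet_Icc.union (measurableSet_Icc.inter hGc.measurableSet.compl)
  have hEX : E ⊆ Set.Icc 0 X := by
    rintro t (ht | ht)
    · exact ⟨ht.1, ht.2.trans hYX⟩
    · exact ⟨hY0.trans ht.1.1, ht.1.2⟩
  have hvB : volume B1 ≤ ENNReal.ofReal (δ ^ D' * X) := by
    refine (measure_mono ?_).trans hvol
    intro t ht
    refine ⟨ht.1.1, ht.1.2, t, le_rfl, ?_, ht.2⟩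
    have : 0 < δ ^ (-D') := by positivity
    linarith
  have hvE : volume E ≤ ENNReal.ofReal (2 * (δ ^ D' * X)) := by
    refine (measure_union_le _ _).trans ?_
    rw [two_mul, ENNReal.ofReal_add (by positivity) (by positivity)]
    refine add_le_add ?_ hvB
    rw [Real.volume_Icc, sub_zero]
    exact ENNReal.ofReal_le_ofReal hY1
  refine ⟨E, hEm, hEX, ?_, ?_⟩
  · refine hvE.trans (ENNReal.ofReal_le_ofReal ?_)
    have h1 : δ ^ D' * X ≤ δ ^ D * δ * X := mul_le_mul_of_nonneg_right hδD hX0.le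
    have h2 : 0 < δ ^ D * X := by positivity
    nlinarith
  intro E' hEm' hEE' hEX' hvE'
  have hvE2 : (volume E').toReal ≤ δ ^ D0 * X :=
    ENNReal.toReal_le_of_le_ofReal (by positivity) hvE'
  -- the density
  set W : ℝ → ℝ := WP α z Rs y J δ with hW
  have hWc : Continuous W := WP_cont α z Rs y J hδ.le
  have hW0 : ∀ t, 0 ≤ W t := fun t => WP_nonneg α z Rs y J δ t
  set g : ℝ → ℝ := fun t => ‖ec (1 / 2 + δ + t * I) (GQ α z y Kq)‖ ^ 2 with hg
  have hgc : Continuous g := (ec_cont _ (re_pos hδ.le)).norm.pow 2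
  have hg0 : ∀ t, 0 ≤ g t := fun t => by positivity
  have hmc := QC.mz_cont α z
  have hm0 : ∀ t, 0 ≤ mz α z t := fun t => (QC.M0_pos α hSm _).le
  have hHc : Continuous fun t => mz α z t * (W t * g t) := hmc.mul (hWc.mul hgc)
  have hgle : ∀ t, g t ≤ Real.exp (2 * α * L) := by
    intro t
    have h1 := GQ_le hα.le z y Kq (s := 1 / 2 + δ + t * I) (by simp; linarith) hv
    have h2 : g t ≤ Real.exp (α * v / 2) ^ 2 := pow_le_pow_left₀ (norm_nonneg _) h1 2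
    refine h2.trans ?_
    rw [← Real.exp_nat_mul]
    refine Real.exp_le_exp.mpr ?_
    push_cast
    nlinarith
  have hkey : |(∫ u in Set.Icc 0 X \ E', Zn α δ u) - X| ≤ 10 * κ * X := by
    refine fin (Zn_cont hα.le hδ16) hHc (fun t => mul_nonneg (hm0 t) (mul_nonneg (hW0 t) (hg0 t)))
      hX0.le hX3.1 ?_ hEm' hEX' ?_ ?_ ?_ ?_ hκ0.le hκ1
    · linarith [hX3.2]
    · intro t ht
      refine hEE' (Or.inl ⟨ht.1, ht.2.trans ?_⟩)
      linarith [hX3.2]
    · intro t ht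
      have h1 : Y < t := by
        by_contra h
        exact ht.2 (hEE' (Or.inl ⟨ht.1.1, not_lt.1 h⟩))
      have h2 : t ∈ Gt A z Rs y J K δ a η1 := by
        by_contra h
        exact ht.2 (hEE' (Or.inr ⟨⟨h1.le, ht.1.2⟩, h⟩))
      exact hC δ hδ hδ3'' Rs J K Kq y hSP.zy hSP.bJ (hR3.trans hR) hx0 t a v h2.2.1 hv hK hKq h2.1
        h2.2.2
    · -- the whole integral
      have h1 := hOX Rs J y (hR1.trans hR) hSP δ hδ.le () 0
      have h2 := hQX Rs J Kq y (hR2.trans hR) hSP hKqy δ hδ.le () 0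
      simp only [QC.M0_int α hSm, add_zero, mul_one, Complex.ofReal_zero] at h1 h2
      have h3 : (∫ t in Xl X..X, mz α z t * (W t * g t)) - (∫ t in Xl X..X, mz α z t * W t) =
          ∫ t in Xl X..X, mz α z t * (W t * (g t - 1)) := by
        have hc2 : Continuous fun t => mz α z t * W t := hmc.mul hWc
        rw [← intervalIntegral.integral_sub (hHc.intervalIntegrable _ _) (hc2.intervalIntegrable _ _)]
        refine intervalIntegral.integral_congr fun t _ => ?_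
        ring
      have hXlX : Xl X ≤ X := by linarith [hX3.2]
      have h4 : |∫ t in Xl X..X, mz α z t * (W t * (g t - 1))| ≤
          ∫ t in Xl X..X, mz α z t * (W t * |g t - 1|) := by
        refine (intervalIntegral.abs_integral_le_integral_abs hXlX).trans (le_of_eq ?_)
        refine intervalIntegral.integral_congr fun t _ => ?_
        show |mz α z t * (W t * (g t - 1))| = _
        rw [abs_mul, abs_mul, abs_of_nonneg (hm0 t), abs_of_nonneg (hW0 t)]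
      have h5 : |(∫ t in Xl X..X, mz α z t * W t) - X| ≤ X * (κ + κ) := h1
      have h6 : ∫ t in Xl X..X, mz α z t * (W t * |g t - 1|) ≤ X * (κ + κ) := h2
      have h7 := abs_le.1 (h4.trans h6)
      have h8 := abs_le.1 h5
      rw [abs_le]
      constructor <;> linarith
    · -- the exceptional set
      have hIW := small_set hWc hX0.le hEX' (Real.exp_pos (-((4 * α ^ 2 + 2 * α + 1) * L)))
      have hLl := hL A z J Rs y (by omega) hy1 (hR5.trans hR) (hRA.trans hR) fun i hi => (hSP.bl i hi).1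
      obtain ⟨hCop, hlc⟩ := hLl.1 (fun _ => α) (fun _ => ⟨hα.le, hαA⟩) 0 (Nat.zero_le _)
      set N := Real.exp (Real.log y * (90 * ((Rs:ℝ) + 1))) with hNd
      have hNN : N * N ≤ (2 * (X + 1)) ^ ((1:ℝ) / 50) := by
        refine le_trans (le_of_eq ?_) hSP.len
        rw [hNd, ← Real.exp_add]; congr 1; ring
      have hN8 : 8 * (N * N) ^ 3 ≤ X := by
        refine le_trans ?_ hX2
        have := pow_le_pow_left₀ (by positivity) hNN 3
        linarith
      have hnn : nn δ (BP (fun _ => α) z y 0 J Rs * BP (fun _ => α) z y 0 J Rs) ≤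
          Real.exp (4 * α ^ 2 * VB δ z y 0 J + CN) := by
        have h1 := hN z J Rs y (by omega) hy1 (hR4.trans hR) (hR5.trans hR)
          (fun i hi => (hSP.bl i hi).2) δ hδ.le (fun _ => α) (fun _ => α) (fun _ => ⟨hα.le, hαA⟩)
          (fun _ => ⟨hα.le, hαA⟩) 0
        rw [sf_zero'] at h1
        refine h1.trans (Real.exp_le_exp.mpr (add_le_add (le_of_eq ?_) ?_))
        · unfold VB
          rw [← range_eq_Ico, mul_sum]
          refine sum_congr rfl fun i _ => ?_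
          rw [mul_sum]
          refine sum_congr rfl fun p _ => ?_
          rw [zero_mul, Real.cos_zero]
          ring
        · refine mul_le_of_le_one_right hCN (Real.exp_le_one_iff.mpr ?_)
          have : (0:ℝ) ≤ Rs := Nat.cast_nonneg _
          linarith
      have hwsq := wsq hSm hδ.le hX0.le (Real.exp_pos _).le hCop hlc hN8 hnn
        ((VB_le hδ.le z hy1 J).trans hv)
      have hIW2 : ∫ t in (0:ℝ)..X, W t ^ 2 ≤ X * ((Real.exp CN + 1) * Real.exp (4 * α ^ 2 * L)) := by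
        refine hwsq.trans (mul_le_mul_of_nonneg_left (mul_le_mul_of_nonneg_left
          (Real.exp_le_exp.mpr ?_) (by positivity)) hX0.le)
        have : 2 * α ^ 2 * v ≤ 2 * α ^ 2 * (2 * L) := mul_le_mul_of_nonneg_left hv2 (by positivity)
        linarith
      -- the mass of the exceptional set
      have hmass : ∫ t in E', W t ≤ X * Real.exp (-((2 * α + 1) * L)) * (Real.exp CN + 2) := by
        refine hIW.trans ?_
        have h1 : Real.exp (-((4 * α ^ 2 + 2 * α + 1) * L)) / 2 * (∫ t in (0:ℝ)..X, W t ^ 2) ≤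
            X * Real.exp (-((2 * α + 1) * L)) * (Real.exp CN + 1) := by
          have h2 : Real.exp (-((4 * α ^ 2 + 2 * α + 1) * L)) * Real.exp (4 * α ^ 2 * L) =
              Real.exp (-((2 * α + 1) * L)) := by
            rw [← Real.exp_add]; congr 1; ring
          calc Real.exp (-((4 * α ^ 2 + 2 * α + 1) * L)) / 2 * (∫ t in (0:ℝ)..X, W t ^ 2)
              ≤ Real.exp (-((4 * α ^ 2 + 2 * α + 1) * L)) / 2 *
                (X * ((Real.exp CN + 1) * Real.exp (4 * α ^ 2 * L))) :=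
                mul_le_mul_of_nonneg_left hIW2 (by positivity)
            _ = 1 / 2 * (X * (Real.exp (-((4 * α ^ 2 + 2 * α + 1) * L)) * Real.exp (4 * α ^ 2 * L)) *
                (Real.exp CN + 1)) := by ring
            _ = 1 / 2 * (X * Real.exp (-((2 * α + 1) * L)) * (Real.exp CN + 1)) := by rw [h2]
            _ ≤ X * Real.exp (-((2 * α + 1) * L)) * (Real.exp CN + 1) := by
                have : 0 ≤ X * Real.exp (-((2 * α + 1) * L)) * (Real.exp CN + 1) := by positivity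
                linarith
        have h3 : (volume E').toReal / (2 * Real.exp (-((4 * α ^ 2 + 2 * α + 1) * L))) ≤
            X * Real.exp (-((2 * α + 1) * L)) := by
          rw [div_le_iff₀ (by positivity)]
          refine hvE2.trans ?_
          rw [hrp D0]
          have h4 : Real.exp (-(D0 * L)) ≤ Real.exp (-((2 * α + 1) * L)) *
              Real.exp (-((4 * α ^ 2 + 2 * α + 1) * L)) := by
            rw [← Real.exp_add]
            refine Real.exp_le_exp.mpr ?_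
            have : 0 ≤ 8 * L := by positivity
            rw [hD0]
            nlinarith
          calc Real.exp (-(D0 * L)) * X ≤ (Real.exp (-((2 * α + 1) * L)) *
              Real.exp (-((4 * α ^ 2 + 2 * α + 1) * L))) * X := mul_le_mul_of_nonneg_right h4 hX0.le
            _ ≤ X * Real.exp (-((2 * α + 1) * L)) *
              (2 * Real.exp (-((4 * α ^ 2 + 2 * α + 1) * L))) := by
                have h5 : 0 ≤ (Real.exp (-((2 * α + 1) * L)) *
                  Real.exp (-((4 * α ^ 2 + 2 * α + 1) * L))) * X := by positivity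
                linarith
        linarith
      have h9 : ∫ t in E', mz α z t * (W t * g t) ≤ Cz * Real.exp (2 * α * L) * ∫ t in E', W t := by
        rw [← integral_const_mul]
        refine setIntegral_mono (hHc.integrableOn_Icc.mono_set hEX')
          ((continuous_const.mul hWc).integrableOn_Icc.mono_set hEX') fun t => ?_
        show mz α z t * (W t * g t) ≤ Cz * Real.exp (2 * α * L) * W t
        calc mz α z t * (W t * g t) ≤ Cz * (W t * Real.exp (2 * α * L)) := by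
              refine mul_le_mul (hCz t) (mul_le_mul_of_nonneg_left (hgle t) (hW0 t))
                (mul_nonneg (hW0 t) (hg0 t)) hCz0.le
          _ = _ := by ring
      refine h9.trans ?_
      calc Cz * Real.exp (2 * α * L) * ∫ t in E', W t
          ≤ Cz * Real.exp (2 * α * L) * (X * Real.exp (-((2 * α + 1) * L)) * (Real.exp CN + 2)) :=
            mul_le_mul_of_nonneg_left hmass (by positivity)
        _ = (Cz * (Real.exp CN + 2)) * (Real.exp (2 * α * L) * Real.exp (-((2 * α + 1) * L))) * X := by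
            ring
        _ = (Cz * (Real.exp CN + 2)) * δ * X := by
            rw [← Real.exp_add]
            have : 2 * α * L + -((2 * α + 1) * L) = -L := by ring
            rw [this, ← hδL]
        _ ≤ κ * X := by
            refine mul_le_mul_of_nonneg_right ?_ hX0.le
            rw [le_div_iff₀ hKN] at hδκ
            linarith
  refine hkey.trans ?_
  exact mul_le_mul_of_nonneg_right hκε hX0.le

/-- the case of the set itself -/
theorem trm (h : S_TRM2) : S_TRM := by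
  intro α hα D hD ε hε
  obtain ⟨D0, hD0, h⟩ := h α hα
  obtain ⟨lam, δ0, hlam, hδ0, hδ1, h⟩ := h (max D D0) (le_max_right _ _) ε hε
  refine ⟨lam, δ0, hlam, hδ0, hδ1, ?_⟩
  filter_upwards [h, eventually_ge_atTop (0:ℝ)] with X hX hX0 δ hδ hδδ hl
  obtain ⟨E, hEm, hEX, hvE, hE⟩ := hX δ hδ hδδ hl
  have h1 : ∀ b : ℝ, b ≤ max D D0 → δ ^ (max D D0) * X ≤ δ ^ b * X := fun b hb =>
    mul_le_mul_of_nonneg_right (Real.rpow_le_rpow_of_exponent_ge hδ (by linarith) hb) hX0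
  exact ⟨E, hEm, hEX, hvE.trans (ENNReal.ofReal_le_ofReal (h1 D (le_max_left _ _))),
    hE E hEm (subset_refl _) hEX (hvE.trans (ENNReal.ofReal_le_ofReal (h1 D0 (le_max_right _ _))))⟩

end Pool.Agent.N748.HM.TRM2
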