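import Pool.Agent.N748.HM.Stm
import Pool.Agent.N748.GC.BLK
import Pool.Agent.N748.GC.MV
import Pool.Agent.N748.GC.LEN
import Pool.Agent.N748.GC.COS
import Pool.Agent.N748.GC.TAIL

set_option autoImplicit false

/-!
# HM/XS2: the sum over all primes in windows (helper712)
-/

namespace Pool.Agent.N748.HM.XS2

open Finset Filter MeasureTheory MonoidAlgebra Topology Complex
open Pool.Agent.N748.GC

/-! ### the polynomial -/

lemma PP_spec {z : ℕ} {y : ℝ} {p : ℕ} (hz : (z:ℝ) ≤ y) (hp : p ∈ PP z y) :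
    p.Prime ∧ z ≤ p ∧ (p:ℝ) ≤ y := by
  unfold PP at hp
  rw [mem_filter, mem_Icc] at hp
  exact ⟨hp.2, hp.1.1, (Nat.le_floor_iff ((Nat.cast_nonneg z).trans hz)).1 hp.1.2⟩

lemma ec_xc (s : ℂ) (I : Finset ℕ) : ec s (xc I) = ∑ p ∈ I, (p:ℂ) ^ (-s) := by
  unfold xc
  rw [map_sum]
  exact sum_congr rfl fun p _ => by rw [MV.ec_single, one_mul]

lemma diff_ec (I : Finset ℕ) (hI : ∀ p ∈ I, p ≠ 0) : Differentiable ℂ fun s : ℂ => ec s (xc I) := by
  have h : (fun s : ℂ => ec s (xc I)) = fun s : ℂ => ∑ p ∈ I, (p:ℂ) ^ (-s) := by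
    funext s; exact ec_xc s I
  rw [h]
  refine Differentiable.fun_sum fun p hp => ?_
  have hp0 : (p:ℂ) ≠ 0 := by exact_mod_cast hI p hp
  intro s
  exact (differentiableAt_id.neg).const_cpow (Or.inl hp0)

lemma Q_PP {z : ℕ} {y : ℝ} (hz : 2 ≤ z) (hzy : (z:ℝ) ≤ y) : LEN.Q ∅ y (xc (PP z y)) := by
  have hy0 : 0 ≤ y := (Nat.cast_nonneg z).trans hzy
  constructor
  · unfold xc
    refine LEN.Cop_sum _ fun p hp => ?_
    intro n hn
    have h1 : n = p := by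
      rw [MonoidAlgebra.coeff_single] at hn
      exact mem_singleton.1 (Finsupp.support_single_subset hn)
    subst h1
    obtain ⟨h2, h3, h4⟩ := PP_spec hzy hp
    exact ⟨h2.ne_zero, h4, fun q hq _ => absurd hq (notMem_empty q)⟩
  · unfold xc
    refine (MV.lc1_sum _ _).trans ?_
    have h1 : ∀ p ∈ PP z y, lc1 (single p (1 : ℂ)) = 1 := fun p _ => by
      rw [MV.lc1_single]; simp
    rw [sum_congr rfl h1, sum_const, nsmul_eq_mul, mul_one]
    have h2 : (PP z y).card ≤ ⌊y⌋₊ := by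
      refine (card_le_card (t := Icc 1 ⌊y⌋₊) ?_).trans (by simp)
      unfold PP
      refine (filter_subset _ _).trans (Icc_subset_Icc (by omega) le_rfl)
    exact (Nat.cast_le.2 h2).trans (Nat.floor_le hy0)

/-! ### the variance -/

lemma wd_le {δ : ℝ} (hδ : 0 ≤ δ) {p : ℕ} (hp : 1 ≤ p) : wd δ p ≤ 1 / (p:ℝ) := by
  unfold wd
  have h1 : (1:ℝ) ≤ p := by exact_mod_cast hp
  have h2 : (p:ℝ) ^ (-(2 * δ)) ≤ 1 := Real.rpow_le_one_of_one_le_of_nonpos h1 (by linarith)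
  have h3 : 0 ≤ 1 / (p:ℝ) := by positivity
  nlinarith

/-- the variance is at most a multiple of the logarithm -/
lemma var_le : ∃ C : ℝ, 1 ≤ C ∧ ∀ δ : ℝ, 0 < δ → δ ≤ 1 / 16 → ∀ δ' : ℝ, δ / 2 ≤ δ' → δ' ≤ 3 * δ / 2 →
    ∀ (z : ℕ) (y : ℝ), 2 ≤ z → (z:ℝ) ≤ y → ∑ p ∈ PP z y, wd δ' p ≤ C * Real.log (1 / δ) := by
  obtain ⟨C1, hC1, h1⟩ := COS.mer
  obtain ⟨C2, hC2, h2⟩ := TAIL.main COS.mer
  have hl2 : 0 < Real.log 2 := Real.log_pos (by norm_num)
  have hl2' : 1 / 2 ≤ Real.log 2 := by have := Real.log_two_gt_d9; linarith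
  have hc1 : 0 < C1 / Real.log 2 := by positivity
  refine ⟨C1 / Real.log 2 + C2 + 3, by linarith, ?_⟩
  intro δ hδ hδ16 δ' hd1 hd2 z y hz hzy
  have hδ' : 0 < δ' := by linarith
  set L := Real.log (1 / δ) with hL
  have hL1 : 1 ≤ L := by
    rw [hL, Real.le_log_iff_exp_le (by positivity)]
    have := Real.exp_one_lt_d9
    rw [le_div_iff₀ hδ]
    nlinarith
  set E := Real.exp (1 / (4 * δ')) with hE
  set w := ⌈E⌉₊ with hw
  have hE0 : 0 < E := Real.exp_pos _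
  have hq : 2 ≤ 1 / (4 * δ') := by
    rw [le_div_iff₀ (by positivity)]; linarith
  have hE2 : 2 ≤ E := by
    have := Real.add_one_le_exp (1 / (4 * δ'))
    rw [hE]; linarith
  have hwE : E ≤ w := Nat.le_ceil _
  have hw2 : 2 ≤ w := by
    have : (2:ℝ) ≤ w := hE2.trans hwE
    exact_mod_cast this
  have hwE2 : (w:ℝ) ≤ 2 * E := by
    have := Nat.ceil_lt_add_one hE0.le
    rw [← hw] at this
    linarith
  have hlw1 : 1 / (4 * δ') ≤ Real.log w := by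
    rw [← Real.log_exp (1 / (4 * δ'))]
    exact Real.log_le_log hE0 hwE
  have hlw2 : Real.log w ≤ 1 / (4 * δ') + 1 := by
    have e1 : Real.log w ≤ Real.log (2 * E) := Real.log_le_log (by have := hE2.trans hwE; linarith) hwE2
    rw [Real.log_mul (by norm_num) hE0.ne', hE, Real.log_exp] at e1
    have := Real.log_two_lt_d9
    linarith
  have hsmall : ∑ p ∈ (Icc 2 w).filter Nat.Prime, 1 / (p:ℝ) ≤ C1 / Real.log 2 + 3 * L := by
    have e1 := h1 2 (w:ℝ) le_rfl (by exact_mod_cast hw2)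
    rw [Nat.floor_natCast] at e1
    have e2 := (abs_le.1 e1).2
    have e3 : Real.log (Real.log w / Real.log 2) ≤ 3 * L := by
      have e4 : Real.log w / Real.log 2 ≤ (1 / δ) ^ 3 := by
        rw [div_le_iff₀ hl2]
        have e5 : 1 / (4 * δ') ≤ 1 / δ := by
          rw [div_le_div_iff₀ (by positivity) hδ]; linarith
        have e6 : 16 ≤ 1 / δ := by
          rw [le_div_iff₀ hδ]; linarith
        have e7 : (1 / δ) * 256 ≤ (1 / δ) ^ 3 := by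
          have : (1 / δ) ^ 3 = (1 / δ) * ((1 / δ) * (1 / δ)) := by ring
          rw [this]
          have : 256 ≤ (1 / δ) * (1 / δ) := by nlinarith
          nlinarith
        nlinarith
      have e5 : 0 < Real.log w / Real.log 2 := by
        apply div_pos _ hl2
        linarith
      calc Real.log (Real.log w / Real.log 2) ≤ Real.log ((1 / δ) ^ 3) := Real.log_le_log e5 e4
        _ = 3 * L := by rw [Real.log_pow, hL]; norm_num
    push_cast at e2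
    linarith
  have htail : ∑ p ∈ (Icc w ⌊y⌋₊).filter Nat.Prime, wd δ' p ≤ C2 := by
    refine h2 w δ' y hw2 hδ' ?_
    have e1 : δ' * (1 / (4 * δ')) ≤ δ' * Real.log w := mul_le_mul_of_nonneg_left hlw1 hδ'.le
    have e2 : δ' * (1 / (4 * δ')) = 1 / 4 := by field_simp
    linarith
  have hsub : PP z y ⊆ (Icc 2 w).filter Nat.Prime ∪ (Icc w ⌊y⌋₊).filter Nat.Prime := by
    intro p hp
    unfold PP at hp
    rw [mem_filter, mem_Icc] at hp
    rw [mem_union, mem_filter, mem_filter, mem_Icc, mem_Icc]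
    rcases le_total p w with h | h
    · exact Or.inl ⟨⟨hp.2.two_le, h⟩, hp.2⟩
    · exact Or.inr ⟨⟨h, hp.1.2⟩, hp.2⟩
  have hwn : ∀ n, 0 ≤ wd δ' n := fun n => BLK.wd_nonneg δ' n
  calc ∑ p ∈ PP z y, wd δ' p
      ≤ ∑ p ∈ (Icc 2 w).filter Nat.Prime ∪ (Icc w ⌊y⌋₊).filter Nat.Prime, wd δ' p :=
        sum_le_sum_of_subset_of_nonneg hsub fun p _ _ => hwn p
    _ ≤ ∑ p ∈ (Icc 2 w).filter Nat.Prime, wd δ' p + ∑ p ∈ (Icc w ⌊y⌋₊).filter Nat.Prime, wd δ' p := by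
        rw [← sum_union_inter]
        have : 0 ≤ ∑ p ∈ (Icc 2 w).filter Nat.Prime ∩ (Icc w ⌊y⌋₊).filter Nat.Prime, wd δ' p :=
          sum_nonneg fun p _ => hwn p
        linarith
    _ ≤ ∑ p ∈ (Icc 2 w).filter Nat.Prime, 1 / (p:ℝ) + C2 := by
        refine add_le_add (sum_le_sum fun p hp => ?_) htail
        exact wd_le hδ'.le (mem_filter.1 hp).2.one_lt.le
    _ ≤ (C1 / Real.log 2 + 3 * L) + C2 := by linarith
    _ ≤ (C1 / Real.log 2 + C2 + 3) * L := by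
        have e1 : 0 ≤ C1 / Real.log 2 + C2 := by positivity
        nlinarith

/-! ### the mean square of the power -/

lemma nn_pow (δ : ℝ) (I : Finset ℕ) (hI : ∀ p ∈ I, p.Prime) (k : ℕ) :
    nn δ (xc I ^ k) ≤ k.factorial * (∑ p ∈ I, wd δ p) ^ k := by
  have h := BLK.KL δ (fun _ => 1) I hI k
  simpa [xc] using h

lemma ms_pow (z : ℕ) (y : ℝ) (hz : 2 ≤ z) (hzy : (z:ℝ) ≤ y) (k : ℕ) (X1 X2 δ : ℝ) (hδ : 0 ≤ δ) (hX : X1 ≤ X2) :
    ∫ t in X1..X2, ‖ec (1 / 2 + δ + t * I) (xc (PP z y) ^ k)‖ ^ 2 ≤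
      (X2 - X1) * nn δ (xc (PP z y) ^ k) + 8 * (y ^ k) ^ 3 := by
  have hy0 : 0 ≤ y := (Nat.cast_nonneg z).trans hzy
  have hQ := LEN.Q_pow (P := ∅) (fun p hp => absurd hp (notMem_empty p)) hy0 (Q_PP hz hzy) k
  have hM : Mo ∅ 1 := ⟨one_ne_zero, fun p hp h1 => absurd (Nat.dvd_one.1 h1) hp.one_lt.ne'⟩
  have h := MV.main ∅ (fun p hp => absurd hp (notMem_empty p)) (y ^ k) X1 X2 δ (xc (PP z y) ^ k) 1 1
    hQ.1 hδ hX hM hM (Nat.coprime_one_left 1)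
  rw [if_pos rfl] at h
  have hchr : ∀ t : ℝ, chr 1 1 t = 1 := fun t => by unfold chr; simp
  simp_rw [hchr, mul_one] at h
  rw [intervalIntegral.integral_ofReal, ← Complex.ofReal_sub, Complex.norm_real, Real.norm_eq_abs] at h
  have h2 := (abs_le.1 h).2
  have h3 : lc1 (xc (PP z y) ^ k) ^ 2 ≤ (y ^ k) ^ 2 := pow_le_pow_left₀ (MV.lc1_nonneg _) hQ.2 2
  have h4 : 0 ≤ y ^ k := by positivity
  have h5 : y ^ k * lc1 (xc (PP z y) ^ k) ^ 2 ≤ y ^ k * (y ^ k) ^ 2 := mul_le_mul_of_nonneg_left h3 h4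
  have h6 : (y ^ k) ^ 3 = y ^ k * (y ^ k) ^ 2 := by ring
  rw [h6]
  push_cast at h2
  linarith

/-! ### the powers -/

lemma pw {V L a k1 CV : ℝ} {k : ℕ} (hV0 : 0 ≤ V) (hV : V ≤ CV * L) (hL : 1 ≤ L) (hk1 : 1 ≤ k1)
    (ha2 : 2 * k1 * CV * Real.exp 2 ≤ a ^ 2) (hk : (k:ℝ) ≤ 2 * k1 * L) (hk2 : k1 * L ≤ k) :
    k.factorial * V ^ k ≤ (a * L) ^ (2 * k) * Real.exp (-(2 * k1 * L)) := by
  have h1 : (k.factorial : ℝ) ≤ (k:ℝ) ^ k := by exact_mod_cast Nat.factorial_le_pow k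
  have h2 : (k:ℝ) * V ≤ (a * L) ^ 2 * Real.exp (-2) := by
    have e1 : (k:ℝ) * V ≤ (2 * k1 * L) * (CV * L) := mul_le_mul hk hV hV0 (by positivity)
    have e2 : Real.exp 2 * Real.exp (-2) = 1 := by rw [← Real.exp_add]; simp
    have e3 : (2 * k1 * L) * (CV * L) = (2 * k1 * CV * Real.exp 2) * (L ^ 2 * Real.exp (-2)) := by
      calc (2 * k1 * L) * (CV * L) = (2 * k1 * CV) * L ^ 2 * 1 := by ring
        _ = (2 * k1 * CV) * L ^ 2 * (Real.exp 2 * Real.exp (-2)) := by rw [e2]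
        _ = _ := by ring
    calc (k:ℝ) * V ≤ (2 * k1 * CV * Real.exp 2) * (L ^ 2 * Real.exp (-2)) := by rw [← e3]; exact e1
      _ ≤ a ^ 2 * (L ^ 2 * Real.exp (-2)) := mul_le_mul_of_nonneg_right ha2 (by positivity)
      _ = (a * L) ^ 2 * Real.exp (-2) := by ring
  calc k.factorial * V ^ k ≤ (k:ℝ) ^ k * V ^ k := mul_le_mul_of_nonneg_right h1 (by positivity)
    _ = (k * V) ^ k := (mul_pow _ _ _).symm
    _ ≤ ((a * L) ^ 2 * Real.exp (-2)) ^ k := pow_le_pow_left₀ (by positivity) h2 k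
    _ = (a * L) ^ (2 * k) * Real.exp (-(2 * k)) := by
        rw [mul_pow, ← pow_mul, ← Real.exp_nat_mul]
        congr 2; ring
    _ ≤ (a * L) ^ (2 * k) * Real.exp (-(2 * k1 * L)) := by
        refine mul_le_mul_of_nonneg_left (Real.exp_le_exp.2 ?_) ?_
        · linarith
        · rw [pow_mul]; positivity

lemma final_bound {C D X δ : ℝ} (hC : 0 < C) (hD : 0 < D) (hδ : 0 < δ) (hδC : δ ≤ 1 / (4 * C)) (hδ1 : δ ≤ 1)
    (hX : 0 ≤ X) (h1 : 16 * C * X ^ ((1:ℝ) / 4) * Real.log X ^ (D + 1) ≤ X) (hl : 1 / δ ≤ Real.log X) :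
    C * (2 * X * Real.exp (-(2 * (D + 3) * Real.log (1 / δ))) + 8 * X ^ ((1:ℝ) / 4)) / δ ≤ X * δ ^ D := by
  have hDp : 0 < δ ^ D := Real.rpow_pos_of_pos hδ D
  have e1 : Real.exp (-(2 * (D + 3) * Real.log (1 / δ))) ≤ δ ^ D * δ ^ 2 := by
    have : δ ^ D * δ ^ 2 = δ ^ (D + 2) := by
      rw [Real.rpow_add hδ]; norm_num
    rw [this, one_div, Real.log_inv, Real.rpow_def_of_pos hδ, Real.exp_le_exp]
    have hl0 : Real.log δ ≤ 0 := Real.log_nonpos hδ.le hδ1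
    nlinarith
  have e2 : 1 ≤ δ ^ (D + 1) * Real.log X ^ (D + 1) := by
    have hlX : 0 < Real.log X := lt_of_lt_of_le (by positivity) hl
    rw [← Real.mul_rpow hδ.le hlX.le]
    refine Real.one_le_rpow ?_ (by linarith)
    rw [div_le_iff₀ hδ] at hl
    linarith
  have e3 : δ ^ (D + 1) = δ ^ D * δ := by rw [Real.rpow_add hδ, Real.rpow_one]
  have hX4 : 0 ≤ X ^ ((1:ℝ) / 4) := Real.rpow_nonneg hX _
  have e4 : 16 * C * X ^ ((1:ℝ) / 4) ≤ X * (δ ^ D * δ) := by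
    have e5 : 16 * C * X ^ ((1:ℝ) / 4) * 1 ≤
        16 * C * X ^ ((1:ℝ) / 4) * (δ ^ (D + 1) * Real.log X ^ (D + 1)) :=
      mul_le_mul_of_nonneg_left e2 (by positivity)
    have e6 : (16 * C * X ^ ((1:ℝ) / 4) * Real.log X ^ (D + 1)) * δ ^ (D + 1) ≤ X * δ ^ (D + 1) :=
      mul_le_mul_of_nonneg_right h1 (Real.rpow_nonneg hδ.le _)
    rw [← e3]
    calc _ = 16 * C * X ^ ((1:ℝ) / 4) * 1 := by ring
      _ ≤ _ := e5
      _ = (16 * C * X ^ ((1:ℝ) / 4) * Real.log X ^ (D + 1)) * δ ^ (D + 1) := by ring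
      _ ≤ _ := e6
  have e7 : 4 * C * δ ≤ 1 := by
    rw [le_div_iff₀ (by positivity)] at hδC
    linarith
  rw [div_le_iff₀ hδ]
  have e8 : C * (2 * X * Real.exp (-(2 * (D + 3) * Real.log (1 / δ)))) ≤ C * (2 * X * (δ ^ D * δ ^ 2)) :=
    mul_le_mul_of_nonneg_left (mul_le_mul_of_nonneg_left e1 (by positivity)) hC.le
  have e9 : C * (2 * X * (δ ^ D * δ ^ 2)) = (4 * C * δ) * (X * (δ ^ D * δ)) / 2 := by ring
  have e10 : (4 * C * δ) * (X * (δ ^ D * δ)) ≤ 1 * (X * (δ ^ D * δ)) :=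
    mul_le_mul_of_nonneg_right e7 (by positivity)
  have e11 : C * (2 * X * Real.exp (-(2 * (D + 3) * Real.log (1 / δ))) + 8 * X ^ ((1:ℝ) / 4)) =
      C * (2 * X * Real.exp (-(2 * (D + 3) * Real.log (1 / δ)))) + (16 * C * X ^ ((1:ℝ) / 4)) / 2 := by ring
  rw [e11]
  have e12 : X * δ ^ D * δ = X * (δ ^ D * δ) := by ring
  rw [e12]
  linarith

/-! ### the result -/

theorem main (hS : S_SUP) : S_XS2 := by
  obtain ⟨C, hC, hSup⟩ := hS
  obtain ⟨CV, hCV, hV⟩ := var_le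
  intro D hD
  set a : ℝ := 2 * (D + 3) * CV * Real.exp 2 with ha
  have ha1 : 1 ≤ a := by
    have h1 : 1 ≤ Real.exp 2 := Real.one_le_exp (by norm_num)
    have h2 : 1 ≤ 2 * (D + 3) := by linarith
    rw [ha]
    have h3 : 1 ≤ 2 * (D + 3) * CV := one_le_mul_of_one_le_of_one_le h2 hCV
    exact one_le_mul_of_one_le_of_one_le h3 h1
  have ha2 : 2 * (D + 3) * CV * Real.exp 2 ≤ a ^ 2 := by
    rw [← ha]; nlinarith
  refine ⟨a, 24 * (D + 3), by linarith, by positivity, min (1 / 16) (1 / (4 * C)), by positivity,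
    min_le_left _ _, ?_⟩
  have ev1 : ∀ᶠ X : ℝ in atTop, 16 * C * X ^ ((1:ℝ) / 4) * Real.log X ^ (D + 1) ≤ X := by
    have h := (isLittleO_log_rpow_rpow_atTop (D + 1) (show (0:ℝ) < 1 / 4 by norm_num)).def
      (show 0 < 1 / (16 * C) by positivity)
    filter_upwards [h, eventually_ge_atTop (1:ℝ)] with X hX hX1
    have hl : 0 ≤ Real.log X := Real.log_nonneg hX1
    have hx4 : 0 ≤ X ^ ((1:ℝ) / 4) := by positivity
    rw [Real.norm_of_nonneg (Real.rpow_nonneg hl _), Real.norm_of_nonneg hx4] at hX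
    have e1 : 16 * C * X ^ ((1:ℝ) / 4) * Real.log X ^ (D + 1) ≤
        16 * C * X ^ ((1:ℝ) / 4) * (1 / (16 * C) * X ^ ((1:ℝ) / 4)) :=
      mul_le_mul_of_nonneg_left hX (by positivity)
    have e2 : 16 * C * X ^ ((1:ℝ) / 4) * (1 / (16 * C) * X ^ ((1:ℝ) / 4)) = X ^ ((1:ℝ) / 2) := by
      have : X ^ ((1:ℝ) / 2) = X ^ ((1:ℝ) / 4) * X ^ ((1:ℝ) / 4) := by
        rw [← Real.rpow_add (by linarith)]; norm_num
      rw [this]; field_simp
    have e3 : X ^ ((1:ℝ) / 2) ≤ X ^ (1:ℝ) := Real.rpow_le_rpow_of_exponent_le hX1 (by norm_num)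
    rw [Real.rpow_one] at e3
    linarith
  filter_upwards [ev1, eventually_ge_atTop (4:ℝ)] with X hX1 hX4
  intro δ hδ hδ0 z y hz hzy hb hlog H hH hHX
  have hδ16 : δ ≤ 1 / 16 := hδ0.trans (min_le_left _ _)
  have hδC : δ ≤ 1 / (4 * C) := hδ0.trans (min_le_right _ _)
  have hX0 : 0 < X := by linarith
  set L := Real.log (1 / δ) with hL
  have hL1 : 1 ≤ L := by
    rw [hL, Real.le_log_iff_exp_le (by positivity)]
    have := Real.exp_one_lt_d9
    rw [le_div_iff₀ hδ]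
    nlinarith
  have haL : 1 ≤ a * L := one_le_mul_of_one_le_of_one_le ha1 hL1
  set k := ⌈(D + 3) * L⌉₊ with hk
  have hkl : (D + 3) * L ≤ k := Nat.le_ceil _
  have hku : (k:ℝ) ≤ 2 * (D + 3) * L := by
    have h1 := Nat.ceil_lt_add_one (show 0 ≤ (D + 3) * L by positivity)
    rw [← hk] at h1
    nlinarith
  have hy2 : (2:ℝ) ≤ y := le_trans (by exact_mod_cast hz) hzy
  have hly : 0 ≤ Real.log y := Real.log_nonneg (by linarith)
  have hyk : (y ^ k) ^ 3 ≤ X ^ ((1:ℝ) / 4) := by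
    have e1 : (y ^ k) ^ 3 = Real.exp ((3 * k) * Real.log y) := by
      rw [← pow_mul, ← Real.rpow_natCast, Real.rpow_def_of_pos (by linarith)]
      push_cast; congr 1; ring
    rw [e1, Real.rpow_def_of_pos hX0, Real.exp_le_exp]
    have e2 : (k:ℝ) * Real.log y ≤ (2 * (D + 3) * L) * Real.log y := mul_le_mul_of_nonneg_right hku hly
    nlinarith
  have hXX : X ^ ((9:ℝ) / 10) ≤ 2 * X := by
    have e3 : X ^ ((9:ℝ) / 10) ≤ X ^ (1:ℝ) :=
      Real.rpow_le_rpow_of_exponent_le (by linarith) (by norm_num)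
    rw [Real.rpow_one] at e3
    linarith
  have hXh : X ^ ((1:ℝ) / 2) + 1 ≤ X := by
    rw [← Real.sqrt_eq_rpow]
    have h1 : Real.sqrt X * Real.sqrt X = X := Real.mul_self_sqrt hX0.le
    have h2 : 2 ≤ Real.sqrt X := Real.le_sqrt_of_sq_le (by linarith)
    nlinarith
  have hX9 : 0 ≤ X ^ ((9:ℝ) / 10) := by positivity
  set Φ : ℂ → ℂ := fun s => (ec s (xc (PP z y)) / ((a * L : ℝ) : ℂ)) ^ k with hΦ
  have hnorm : ∀ s, ‖Φ s‖ = (‖ec s (xc (PP z y))‖ / (a * L)) ^ k := by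
    intro s
    rw [hΦ]
    simp only
    rw [norm_pow, norm_div, Complex.norm_real, Real.norm_of_nonneg (by linarith)]
  have hΦd : DifferentiableOn ℂ Φ {s : ℂ | 1 / 2 < s.re ∧ s.re < 1} := by
    have h1 := diff_ec (PP z y) fun p hp => (PP_spec hzy hp).1.ne_zero
    exact ((h1.div_const _).pow k).differentiableOn
  set B : ℝ := 2 * X * Real.exp (-(2 * (D + 3) * L)) + 8 * X ^ ((1:ℝ) / 4) with hB
  have hB0 : 0 ≤ B := by positivity
  have hms : ∀ δ' : ℝ, δ / 2 ≤ δ' → δ' ≤ 3 * δ / 2 →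
      ∫ t in (X ^ ((9:ℝ) / 10))..(2 * X), ‖Φ (1 / 2 + δ' + t * I)‖ ^ 2 ≤ B := by
    intro δ' hd1 hd2
    have h1 := hV δ hδ hδ16 δ' hd1 hd2 z y hz hzy
    have h2 := ms_pow z y hz hzy k (X ^ ((9:ℝ) / 10)) (2 * X) δ' (by linarith) hXX
    have h3 := nn_pow δ' (PP z y) (fun p hp => (PP_spec hzy hp).1) k
    have h4 := pw (a := a) (k1 := D + 3) (k := k)
      (sum_nonneg fun p _ => BLK.wd_nonneg δ' p) h1 hL1 (by linarith) ha2 hku hkl
    have h5 : ∀ t : ℝ, ‖Φ (1 / 2 + δ' + t * I)‖ ^ 2 =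
        ‖ec (1 / 2 + δ' + t * I) (xc (PP z y) ^ k)‖ ^ 2 / (a * L) ^ (2 * k) := by
      intro t
      rw [hnorm, map_pow, norm_pow, div_pow, div_pow, ← pow_mul (a * L), mul_comm k 2]
    simp_rw [h5]
    rw [intervalIntegral.integral_div, div_le_iff₀ (by positivity)]
    have h6 : nn δ' (xc (PP z y) ^ k) ≤ (a * L) ^ (2 * k) * Real.exp (-(2 * (D + 3) * L)) := h3.trans h4
    have h7 : 0 ≤ nn δ' (xc (PP z y) ^ k) := BLK.nn_nonneg _ _
    have h8 : (2 * X - X ^ ((9:ℝ) / 10)) * nn δ' (xc (PP z y) ^ k) ≤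
        2 * X * ((a * L) ^ (2 * k) * Real.exp (-(2 * (D + 3) * L))) := by
      refine mul_le_mul (by linarith) h6 h7 (by positivity)
    have h9 : 1 ≤ (a * L) ^ (2 * k) := one_le_pow₀ haL
    have h10 : 8 * X ^ ((1:ℝ) / 4) * 1 ≤ 8 * X ^ ((1:ℝ) / 4) * (a * L) ^ (2 * k) :=
      mul_le_mul_of_nonneg_left h9 (by positivity)
    rw [hB]
    nlinarith
  have hfin := hSup Φ hΦd δ (X ^ ((9:ℝ) / 10)) (2 * X) B hδ hδ16 hXX hB0 hms H 1 hH one_pos
  refine (measure_mono ?_).trans (hfin.trans (ENNReal.ofReal_le_ofReal ?_))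
  · rintro t ⟨ht1, ht2, u, hu1, hu2, hu3⟩
    refine ⟨ht1, by linarith, u, hu1, hu2, ?_⟩
    rw [hnorm]
    refine one_le_pow₀ ?_
    rw [le_div_iff₀ (by linarith)]
    linarith
  · have h1 := final_bound hC hD hδ hδC (by linarith) hX0.le hX1 hlog
    rw [← hL, ← hB] at h1
    have h2 : C * (H + 2) * B / (δ * 1 ^ 2) = (H + 2) * (C * B / δ) := by
      rw [one_pow, mul_one]; ring
    rw [h2, mul_assoc]
    exact mul_le_mul_of_nonneg_left h1 (by linarith)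

end Pool.Agent.N748.HM.XS2
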