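import Pool.Agent.N748.HM.Stm
import Pool.Agent.TH158.FM.Main
import Pool.Agent.H316R2.LS
import Pool.Agent.Y755.Tr
import Pool.Agent.Y755.HPl

set_option autoImplicit false

/-! Crude twisted second moment of zeta on the critical line. -/

namespace Pool.Agent.N748.HM.ZM1

open Finset Filter MeasureTheory MonoidAlgebra Topology Complex
open Pool.Agent.N748.GC
open Pool.Agent.Y755

/-- a coefficient of a product of two polynomials with coefficients at most `1` -/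
lemma coeff_mul_le {f g : P1} (h1 : ∀ n, |f.coeff n| ≤ 1) (h2 : ∀ n, |g.coeff n| ≤ 1) (n : ℕ)
    (hn : n ≠ 0) : |(f * g).coeff n| ≤ n.divisors.card := by
  rw [coeff_mul_antidiag f g n n.divisorsAntidiagonal (by
    intro p; rw [Nat.mem_divisorsAntidiagonal]; exact ⟨fun h => h.1, fun h => ⟨h, hn⟩⟩)]
  refine (abs_sum_le_sum_abs _ _).trans ?_
  have : (n.divisorsAntidiagonal.card : ℝ) = n.divisors.card := by
    rw [← Nat.map_div_right_divisors, card_map]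
  rw [← this]
  calc _ ≤ ∑ p ∈ n.divisorsAntidiagonal, (1:ℝ) := sum_le_sum fun p _ => by
        rw [abs_mul]
        exact mul_le_one₀ (h1 _) (abs_nonneg _) (h2 _)
    _ = _ := by simp

lemma supp_sub {M : ℝ} {h : P1} (hb : Bd1 M h) : h.coeff.support ⊆ Icc 1 ⌊M⌋₊ := by
  intro n hn
  rw [mem_Icc]
  exact ⟨Nat.pos_of_ne_zero (hb n hn).1, Nat.le_floor (hb n hn).2⟩

/-- the mean square -/
lemma ip_le {M : ℝ} (hM : 1 ≤ M) {h : P1} (hb : Bd1 M h)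
    (hh : ∀ n, n ≠ 0 → |h.coeff n| ≤ n.divisors.card) : ip 0 h h ≤ (1 + Real.log M) ^ 4 := by
  rw [ip_eq 0 h h (supp_sub hb)]
  calc _ ≤ ∑ n ∈ Icc 1 ⌊M⌋₊, (n.divisors.card:ℝ) ^ 2 / n := by
        refine sum_le_sum fun n hn => ?_
        rw [mem_Icc] at hn
        have h1 := hh n (by omega)
        unfold wδ
        rw [mul_zero, neg_zero, Real.rpow_zero, one_mul,
          div_eq_mul_one_div ((n.divisors.card:ℝ) ^ 2)]
        refine mul_le_mul_of_nonneg_right ?_ (by positivity : (0:ℝ) ≤ 1 / (n:ℝ))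
        rw [← abs_mul_abs_self, sq]
        exact mul_le_mul h1 h1 (abs_nonneg _) (Nat.cast_nonneg (α := ℝ) n.divisors.card)
    _ ≤ (1 + Real.log ⌊M⌋₊) ^ 4 := Pool.Agent.H316R2.tau_sq_sum_le _
    _ ≤ _ := by
        have h0 : (⌊M⌋₊:ℝ) ≤ M := Nat.floor_le (by linarith)
        have h1 : (1:ℝ) ≤ ⌊M⌋₊ := by exact_mod_cast Nat.floor_pos.mpr hM
        have h2 := Real.log_le_log (by linarith) h0
        have h3 := Real.log_nonneg h1
        gcongr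

lemma l1_le {M : ℝ} (hM : 0 ≤ M) {f : P1} (hf : Bd1 M f) (h1 : ∀ n, |f.coeff n| ≤ 1) : l1' f ≤ M := by
  rw [l1'_eq (supp_sub hf)]
  calc _ ≤ ∑ n ∈ Icc 1 ⌊M⌋₊, (1:ℝ) := sum_le_sum fun n _ => h1 n
    _ = ⌊M⌋₊ := by simp
    _ ≤ M := Nat.floor_le hM

lemma zN_coeff (N n : ℕ) : |(zN N).coeff n| ≤ 1 := by
  classical
  unfold zN
  rw [coeff_sum, Finsupp.finsetSum_apply]
  have e1 : ∀ m ∈ Icc 1 N, (single m 1 : P1).coeff n = if n = m then 1 else 0 := by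
    intro m _
    rw [coeff_single, Finsupp.single_apply]
    by_cases h : m = n
    · rw [if_pos h, if_pos h.symm]
    · rw [if_neg h, if_neg (Ne.symm h)]
  rw [sum_congr rfl e1, sum_ite_eq]
  split_ifs <;> simp

lemma Dt_coeff {f : P1} (h1 : ∀ n, |f.coeff n| ≤ 1) (N n : ℕ) (hn : n ≠ 0) :
    |(Dt N f).coeff n| ≤ n.divisors.card := by
  unfold Dt
  rw [trn_coeff]
  split_ifs
  · exact coeff_mul_le (zN_coeff N) h1 n hn
  · rw [abs_zero]; positivity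

/-- mean square on the critical line -/
lemma ms {M P : ℝ} (hM : 1 ≤ M) {h : P1} (hb : Bd1 M h) (hP : l1' h ≤ P)
    (hh : ∀ n, n ≠ 0 → |h.coeff n| ≤ n.divisors.card) {T : ℝ} (hT : 0 ≤ T) :
    ∫ t in (0:ℝ)..T, ‖es (((1 / 2 : ℝ) : ℂ) + t * I) h‖ ^ 2 ≤ T * (1 + Real.log M) ^ 4 + 2 * M * P ^ 2 := by
  have h1 := mvt (δ := 0) le_rfl hb T
  have e1 : ∀ t : ℝ, (1 / 2 + ((0:ℝ):ℂ) + t * I : ℂ) = ((1 / 2 : ℝ) : ℂ) + t * I := by
    intro t; push_cast; ring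
  simp_rw [e1] at h1
  have h2 := (abs_le.mp h1).2
  have h3 := mul_le_mul_of_nonneg_left (ip_le hM hb hh) hT
  have h4 : 2 * M * l1' h ^ 2 ≤ 2 * M * P ^ 2 := by
    have := l1'_nonneg h
    gcongr
  linarith

lemma es_cont {N : ℝ} {f : P1} (hf : Bd1 N f) : Continuous fun t : ℝ => es (((1 / 2 : ℝ) : ℂ) + t * I) f :=
  (es_diff hf).continuous.comp (by fun_prop)

/-- the pointwise inequality -/
lemma ptw (z f d : ℂ) : ‖z * f - d‖ ^ 2 ≤ ‖z‖ ^ 4 + ‖f * f‖ ^ 2 + 2 * ‖d‖ ^ 2 := by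
  have h1 : ‖z * f - d‖ ≤ ‖z‖ * ‖f‖ + ‖d‖ := by
    refine (norm_sub_le _ _).trans ?_
    rw [norm_mul]
  have h2 : ‖z * f - d‖ ^ 2 ≤ (‖z‖ * ‖f‖ + ‖d‖) ^ 2 := pow_le_pow_left₀ (norm_nonneg _) h1 2
  rw [norm_mul]
  nlinarith [sq_nonneg (‖z‖ * ‖f‖ - ‖d‖), sq_nonneg (‖z‖ ^ 2 - ‖f‖ ^ 2)]

/-- the bound with explicit quantities -/
lemma core {T : ℝ} (hT : 1000 ≤ T) {M M' : ℝ} (hM : 1 ≤ M) (hM' : 1 ≤ M') {f : P1} (hf : Bd1 M f)
    (h1 : ∀ n, |f.coeff n| ≤ 1) {N : ℕ} (hN : (N:ℝ) ≤ M') {a : ℝ} (ha : 0 ≤ a) (haT : a ≤ T) :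
    ∫ t in a..T, qd (fun s => es s f) (fun s => es s (Dt N f)) (1 / 2) t ≤
      4 / 5 * (T * Real.log T ^ 4) + (T * (1 + Real.log (M * M)) ^ 4 + 2 * (M * M) * (M * M) ^ 2) +
        2 * (T * (1 + Real.log M') ^ 4 + 2 * M' * (M' * M) ^ 2) := by
  have hT0 : 0 ≤ T := by linarith
  have hM0 : 0 ≤ M := by linarith
  have hD : Bd1 M' (Dt N f) := (Dt_Bd hf).mono hN
  have cq : Continuous (qd (fun s => es s f) (fun s => es s (Dt N f)) (1 / 2)) :=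
    qd_cont (es_diff hf) (es_diff hD) (by norm_num)
  have s1 : ∫ t in a..T, qd (fun s => es s f) (fun s => es s (Dt N f)) (1 / 2) t ≤
      ∫ t in (0:ℝ)..T, qd (fun s => es s f) (fun s => es s (Dt N f)) (1 / 2) t :=
    intervalIntegral.integral_mono_interval ha haT le_rfl
      (Eventually.of_forall fun t => qd_nonneg _ _ _ _) (cq.intervalIntegrable _ _)
  have cz : Continuous fun t : ℝ => ‖riemannZeta (((1 / 2 : ℝ) : ℂ) + t * I)‖ ^ 4 :=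
    ((zeta_cont (by norm_num)).norm).pow 4
  have hff : Bd1 (M * M) (f * f) := hf.mul hf
  have cf : Continuous fun t : ℝ => ‖es (((1 / 2 : ℝ) : ℂ) + t * I) (f * f)‖ ^ 2 := ((es_cont hff).norm).pow 2
  have cd : Continuous fun t : ℝ => ‖es (((1 / 2 : ℝ) : ℂ) + t * I) (Dt N f)‖ ^ 2 := ((es_cont hD).norm).pow 2
  have s2 : ∫ t in (0:ℝ)..T, qd (fun s => es s f) (fun s => es s (Dt N f)) (1 / 2) t ≤
      ∫ t in (0:ℝ)..T, (‖riemannZeta (((1 / 2 : ℝ) : ℂ) + t * I)‖ ^ 4 +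
        ‖es (((1 / 2 : ℝ) : ℂ) + t * I) (f * f)‖ ^ 2 + 2 * ‖es (((1 / 2 : ℝ) : ℂ) + t * I) (Dt N f)‖ ^ 2) := by
    refine intervalIntegral.integral_mono_on hT0 (cq.intervalIntegrable _ _)
      (((cz.add cf).add (cd.const_mul 2)).intervalIntegrable _ _) fun t _ => ?_
    unfold qd
    rw [map_mul]
    exact ptw _ _ _
  have i1 : ∫ t in (0:ℝ)..T, (‖riemannZeta (((1 / 2 : ℝ) : ℂ) + t * I)‖ ^ 4 +
        ‖es (((1 / 2 : ℝ) : ℂ) + t * I) (f * f)‖ ^ 2 + 2 * ‖es (((1 / 2 : ℝ) : ℂ) + t * I) (Dt N f)‖ ^ 2) =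
      (∫ t in (0:ℝ)..T, (‖riemannZeta (((1 / 2 : ℝ) : ℂ) + t * I)‖ ^ 4 +
        ‖es (((1 / 2 : ℝ) : ℂ) + t * I) (f * f)‖ ^ 2)) +
      ∫ t in (0:ℝ)..T, 2 * ‖es (((1 / 2 : ℝ) : ℂ) + t * I) (Dt N f)‖ ^ 2 :=
    intervalIntegral.integral_add ((cz.add cf).intervalIntegrable 0 T) ((cd.const_mul 2).intervalIntegrable 0 T)
  have i2 : ∫ t in (0:ℝ)..T, (‖riemannZeta (((1 / 2 : ℝ) : ℂ) + t * I)‖ ^ 4 +
        ‖es (((1 / 2 : ℝ) : ℂ) + t * I) (f * f)‖ ^ 2) =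
      (∫ t in (0:ℝ)..T, ‖riemannZeta (((1 / 2 : ℝ) : ℂ) + t * I)‖ ^ 4) +
      ∫ t in (0:ℝ)..T, ‖es (((1 / 2 : ℝ) : ℂ) + t * I) (f * f)‖ ^ 2 :=
    intervalIntegral.integral_add (cz.intervalIntegrable 0 T) (cf.intervalIntegrable 0 T)
  rw [i1, i2, intervalIntegral.integral_const_mul] at s2
  have f4 := Pool.Agent.TH158.FM.fourth_all T hT
  have e4 : ∀ t : ℝ, Pool.Agent.TH158.FM.pt (1 / 2) t = ((1 / 2 : ℝ) : ℂ) + t * I := fun t => rfl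
  simp_rw [e4] at f4
  have hl := l1_le hM0 hf h1
  have hl0 := l1'_nonneg f
  have g1 := ms (P := M * M) (by nlinarith) hff ((l1'_mul f f).trans (mul_le_mul hl hl hl0 hM0))
    (coeff_mul_le h1 h1) hT0
  have g2 := ms (P := M' * M) hM' hD ((Dt_l1 N f).trans (mul_le_mul hN hl hl0 (by linarith)))
    (Dt_coeff h1 N) hT0
  linarith

theorem main : S_ZM1 := by
  refine ⟨5, ?_⟩
  filter_upwards [eventually_ge_atTop (Real.exp 100), eventually_ge_atTop (1000:ℝ)] with T hT hT2 f hf h1 N hN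
  have hT0 : 0 < T := by linarith
  have hL : 100 ≤ Real.log T := by
    rw [← Real.log_exp 100]
    exact Real.log_le_log (Real.exp_pos _) hT
  have hone : ∀ x : ℝ, 0 ≤ x → 1 ≤ T ^ x := fun x hx => Real.one_le_rpow (by linarith) hx
  have hle : ∀ x : ℝ, x ≤ 1 → T ^ x ≤ T := fun x hx => by
    calc T ^ x ≤ T ^ (1:ℝ) := Real.rpow_le_rpow_of_exponent_le (by linarith) hx
      _ = T := Real.rpow_one T
  have h34 : T ^ ((3:ℝ) / 4) ≤ T := hle _ (by norm_num)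
  refine (core hT2 (hone _ (by norm_num)) (hone ((1:ℝ) / 8) (by norm_num)) hf h1 hN
    (by positivity) h34).trans ?_
  set L := Real.log T with hLd
  have l1 : Real.log (T ^ ((1:ℝ) / 50) * T ^ ((1:ℝ) / 50)) = L / 25 := by
    rw [← Real.rpow_add hT0, Real.log_rpow hT0]; ring
  have l2 : Real.log (T ^ ((1:ℝ) / 8)) = L / 8 := by
    rw [Real.log_rpow hT0]; ring
  rw [l1, l2]
  have m1 : T ^ ((1:ℝ) / 50) * T ^ ((1:ℝ) / 50) * (T ^ ((1:ℝ) / 50) * T ^ ((1:ℝ) / 50)) ^ 2 ≤ T := by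
    rw [← Real.rpow_add hT0, ← Real.rpow_natCast (T ^ _), ← Real.rpow_mul hT0.le, ← Real.rpow_add hT0]
    exact hle _ (by norm_num)
  have m2 : T ^ ((1:ℝ) / 8) * (T ^ ((1:ℝ) / 8) * T ^ ((1:ℝ) / 50)) ^ 2 ≤ T := by
    rw [← Real.rpow_add hT0, ← Real.rpow_natCast (T ^ _), ← Real.rpow_mul hT0.le, ← Real.rpow_add hT0]
    exact hle _ (by norm_num)
  have k1 : (1 + L / 25) ^ 4 ≤ L ^ 4 := by
    have : 1 + L / 25 ≤ L := by linarith
    exact pow_le_pow_left₀ (by linarith) this 4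
  have k2 : (1 + L / 8) ^ 4 ≤ L ^ 4 := by
    have : 1 + L / 8 ≤ L := by linarith
    exact pow_le_pow_left₀ (by linarith) this 4
  have k3 : (1:ℝ) ≤ L ^ 4 := one_le_pow₀ (by linarith)
  have k4 : T * L ^ 5 = T * L ^ 4 * L := by ring
  have hp : 0 ≤ T * L ^ 4 := by positivity
  have q1 := mul_le_mul_of_nonneg_left k1 hT0.le
  have q2 := mul_le_mul_of_nonneg_left k2 hT0.le
  have q3 : T ≤ T * L ^ 4 := by nlinarith
  rw [k4]
  have q4 : T * L ^ 4 * 100 ≤ T * L ^ 4 * L := mul_le_mul_of_nonneg_left hL hp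
  nlinarith

end Pool.Agent.N748.HM.ZM1
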