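import Pool.Agent.N748.HM.Stm

set_option autoImplicit false

namespace Pool.Agent.N748.HM.ZM2

open Finset MonoidAlgebra
open scoped Pointwise
open Pool.Agent.N748.GC
open Pool.Agent.Y755 (P1 Bd1 es Dt qd Pz trn zN S0 trn_coeff mem_S0)

/-! ### sums of powers of the divisor function -/

lemma dmul (m n : ℕ) : (m * n).divisors.card ≤ m.divisors.card * n.divisors.card := by
  rw [Nat.divisors_mul]
  exact Finset.card_mul_le

/-- the sums -/
noncomputable def Sk (k N : ℕ) (x : ℝ) : ℝ :=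
  ∑ n ∈ Icc 1 N, (n.divisors.card : ℝ) ^ k * (n:ℝ) ^ (-1 - x)

lemma Sk_nonneg (k N : ℕ) (x : ℝ) : 0 ≤ Sk k N x :=
  sum_nonneg fun n _ => by positivity

lemma Sk_succ (k N : ℕ) (x : ℝ) : Sk (k + 1) N x ≤ Sk k N x ^ 2 := by
  unfold Sk
  rw [sq, sum_mul_sum, ← sum_product']
  have e1 : ∀ n ∈ Icc 1 N, (n.divisors.card : ℝ) ^ (k + 1) * (n:ℝ) ^ (-1 - x) =
      ∑ p ∈ n.divisorsAntidiagonal, (n.divisors.card : ℝ) ^ k * (n:ℝ) ^ (-1 - x) := by
    intro n _
    rw [sum_const, ← Nat.map_div_right_divisors, card_map, nsmul_eq_mul]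
    ring
  rw [sum_congr rfl e1, sum_sigma']
  refine le_trans (sum_le_sum (g := fun q : (_ : ℕ) × ℕ × ℕ =>
    ((q.2.1.divisors.card : ℝ) ^ k * (q.2.1:ℝ) ^ (-1 - x)) *
      ((q.2.2.divisors.card : ℝ) ^ k * (q.2.2:ℝ) ^ (-1 - x))) ?_) ?_
  · intro q hq
    rw [mem_sigma, Nat.mem_divisorsAntidiagonal] at hq
    rw [← hq.2.1]
    have h1 : (((q.2.1 * q.2.2).divisors.card : ℕ) : ℝ) ≤
        (q.2.1.divisors.card : ℝ) * (q.2.2.divisors.card : ℝ) := by
      exact_mod_cast dmul _ _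
    have h2 := pow_le_pow_left₀ (Nat.cast_nonneg _) h1 k
    rw [mul_pow] at h2
    calc _ ≤ ((q.2.1.divisors.card : ℝ) ^ k * (q.2.2.divisors.card : ℝ) ^ k) *
          (((q.2.1 * q.2.2 : ℕ) : ℝ)) ^ (-1 - x) :=
          mul_le_mul_of_nonneg_right h2 (by positivity)
      _ = _ := by
          rw [Nat.cast_mul, Real.mul_rpow (Nat.cast_nonneg _) (Nat.cast_nonneg _)]
          ring
  · rw [← sum_image (s := (Icc 1 N).sigma fun n => n.divisorsAntidiagonal)
      (g := fun q : (_ : ℕ) × ℕ × ℕ => q.2)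
      (f := fun r : ℕ × ℕ => ((r.1.divisors.card : ℝ) ^ k * (r.1:ℝ) ^ (-1 - x)) *
        ((r.2.divisors.card : ℝ) ^ k * (r.2:ℝ) ^ (-1 - x)))]
    · refine sum_le_sum_of_subset_of_nonneg ?_ fun _ _ _ => by positivity
      intro r hr
      rw [mem_image] at hr
      obtain ⟨q, hq, rfl⟩ := hr
      rw [mem_sigma, Nat.mem_divisorsAntidiagonal, mem_Icc] at hq
      obtain ⟨⟨h1, h2⟩, h3, h4⟩ := hq
      have h5 : q.2.1 ≠ 0 := by rintro h; rw [h, zero_mul] at h3; omega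
      have h6 : q.2.2 ≠ 0 := by rintro h; rw [h, mul_zero] at h3; omega
      rw [mem_product, mem_Icc, mem_Icc]
      have h7 : q.2.1 ≤ q.2.1 * q.2.2 := Nat.le_mul_of_pos_right _ (by omega)
      have h8 : q.2.2 ≤ q.2.1 * q.2.2 := Nat.le_mul_of_pos_left _ (by omega)
      omega
    · intro q hq q' hq' h
      simp only [coe_sigma, Set.mem_sigma_iff, mem_coe, Nat.mem_divisorsAntidiagonal] at hq hq'
      obtain ⟨n, p⟩ := q
      obtain ⟨n', p'⟩ := q'
      simp only at h hq hq'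
      subst h
      have : n = n' := by rw [← hq.2.1, ← hq'.2.1]
      subst this
      rfl

lemma sum_rpow_le {x : ℝ} (hx : 0 < x) (N : ℕ) : ∑ n ∈ Icc 1 N, (n:ℝ) ^ (-1 - x) ≤ 1 + 1 / x := by
  -- telescoping: n^(-1-x) ≤ (1/x) ((n-1)^(-x) - n^(-x)) for n ≥ 2
  rcases Nat.eq_zero_or_pos N with rfl | hN
  · simp; positivity
  suffices h : ∀ m : ℕ, 1 ≤ m → ∑ n ∈ Icc 1 m, (n:ℝ) ^ (-1 - x) ≤ 1 + 1 / x * (1 - (m:ℝ) ^ (-x)) by
    refine (h N hN).trans ?_
    have : 0 ≤ (N:ℝ) ^ (-x) := by positivity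
    have h2 : 0 < 1 / x := by positivity
    nlinarith
  intro m hm
  induction m, hm using Nat.le_induction with
  | base => simp
  | succ m hm ih =>
    rw [sum_Icc_succ_top (by omega)]
    have hm0 : (0:ℝ) < m := by exact_mod_cast hm
    have key : ((m + 1 : ℕ) : ℝ) ^ (-1 - x) ≤ 1 / x * ((m:ℝ) ^ (-x) - ((m + 1 : ℕ) : ℝ) ^ (-x)) := by
      push_cast
      have h1 : (0:ℝ) < m + 1 := by positivity
      -- (1 - 1/(m+1))^(-x) ≥ 1 + x/(m+1)
      have h2 : 1 + x / (m + 1) ≤ ((m:ℝ) / (m + 1)) ^ (-x) := by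
        have h3 : (m:ℝ) / (m + 1) = 1 - 1 / (m + 1) := by field_simp; ring
        have h4 : 0 < (m:ℝ) / (m + 1) := by positivity
        have h5 : Real.log ((m:ℝ) / (m + 1)) ≤ -(1 / (m + 1)) := by
          have := Real.log_le_sub_one_of_pos h4
          rw [h3] at this ⊢
          linarith
        rw [Real.rpow_def_of_pos h4]
        have h6 := Real.add_one_le_exp (Real.log ((m:ℝ) / (m + 1)) * -x)
        refine le_trans ?_ h6
        have : x / (m + 1) = (-(1 / ((m:ℝ) + 1))) * -x := by ring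
        rw [this]
        nlinarith
      have h7 : (m:ℝ) ^ (-x) = ((m:ℝ) / (m + 1)) ^ (-x) * ((m:ℝ) + 1) ^ (-x) := by
        rw [← Real.mul_rpow (by positivity) h1.le, div_mul_cancel₀ _ h1.ne']
      have h8 : ((m:ℝ) + 1) ^ (-1 - x) = ((m:ℝ) + 1) ^ (-x) / (m + 1) := by
        rw [show -1 - x = -x - 1 by ring, Real.rpow_sub_one h1.ne']
      rw [h7, h8]
      have h9 : 0 < ((m:ℝ) + 1) ^ (-x) := by positivity
      have h10 : x / (m + 1) * ((m:ℝ) + 1) ^ (-x) ≤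
          (((m:ℝ) / (m + 1)) ^ (-x) - 1) * ((m:ℝ) + 1) ^ (-x) :=
        mul_le_mul_of_nonneg_right (by linarith) h9.le
      calc ((m:ℝ) + 1) ^ (-x) / (m + 1) = 1 / x * (x / (m + 1) * ((m:ℝ) + 1) ^ (-x)) := by
            field_simp
        _ ≤ 1 / x * ((((m:ℝ) / (m + 1)) ^ (-x) - 1) * ((m:ℝ) + 1) ^ (-x)) :=
            mul_le_mul_of_nonneg_left h10 (by positivity)
        _ = _ := by ring
    have : 1 / x * (1 - ((m + 1 : ℕ) : ℝ) ^ (-x)) = 1 / x * (1 - (m:ℝ) ^ (-x)) +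
        1 / x * ((m:ℝ) ^ (-x) - ((m + 1 : ℕ) : ℝ) ^ (-x)) := by ring
    rw [this]
    linarith

lemma Sk3 {x : ℝ} (hx : 0 < x) (N : ℕ) : Sk 3 N x ≤ (1 + 1 / x) ^ 8 := by
  have h0 : Sk 0 N x ≤ 1 + 1 / x := by
    unfold Sk
    simpa using sum_rpow_le hx N
  have h1 := (Sk_succ 0 N x).trans (pow_le_pow_left₀ (Sk_nonneg _ _ _) h0 2)
  have h2 := (Sk_succ 1 N x).trans (pow_le_pow_left₀ (Sk_nonneg _ _ _) h1 2)
  have h3 := (Sk_succ 2 N x).trans (pow_le_pow_left₀ (Sk_nonneg _ _ _) h2 2)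
  calc Sk 3 N x ≤ _ := h3
    _ = _ := by ring

/-! ### signed sums over the subsets of the prime divisors -/

/-- the signed sum -/
noncomputable def Fs (P : Finset ℕ) (c : Finset ℕ → Prop) [DecidablePred c] (n : ℕ) : ℝ :=
  ∑ S ∈ P.powerset.filter c, if ∏ p ∈ S, p ∣ n then (-1 : ℝ) ^ S.card else 0

lemma prod_dvd_iff {S : Finset ℕ} (hS : ∀ p ∈ S, p.Prime) (n : ℕ) :
    ∏ p ∈ S, p ∣ n ↔ ∀ p ∈ S, p ∣ n := by
  constructor
  · intro h p hp
    exact (dvd_prod_of_mem _ hp).trans h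
  · intro h
    exact prod_primes_dvd n (fun p hp => (hS p hp).prime) h

lemma Fs_eq {P : Finset ℕ} (hP : ∀ p ∈ P, p.Prime) (c : Finset ℕ → Prop) [DecidablePred c] (n : ℕ) :
    Fs P c n = ∑ S ∈ (P.filter (fun p => p ∣ n)).powerset.filter c, (-1 : ℝ) ^ S.card := by
  unfold Fs
  rw [← sum_filter]
  refine sum_congr ?_ fun _ _ => rfl
  ext S
  simp only [mem_filter, mem_powerset]
  constructor
  · rintro ⟨⟨h1, h2⟩, h3⟩
    refine ⟨fun p hp => mem_filter.2 ⟨h1 hp, (prod_dvd_iff (fun q hq => hP q (h1 hq)) n).1 h3 p hp⟩, h2⟩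
  · rintro ⟨h1, h2⟩
    refine ⟨⟨fun p hp => (mem_filter.1 (h1 hp)).1, h2⟩, ?_⟩
    exact (prod_dvd_iff (fun q hq => hP q (mem_filter.1 (h1 hq)).1) n).2
      fun p hp => (mem_filter.1 (h1 hp)).2

lemma Fs_true {P : Finset ℕ} (hP : ∀ p ∈ P, p.Prime) (n : ℕ) :
    Fs P (fun _ => True) n = if P.filter (fun p => p ∣ n) = ∅ then 1 else 0 := by
  rw [Fs_eq hP, filter_true_of_mem (fun _ _ => trivial)]
  have := sum_powerset_neg_one_pow_card (x := P.filter (fun p => p ∣ n))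
  have h2 : ((∑ m ∈ (P.filter (fun p => p ∣ n)).powerset, (-1 : ℤ) ^ m.card : ℤ) : ℝ) =
    ∑ m ∈ (P.filter (fun p => p ∣ n)).powerset, (-1 : ℝ) ^ m.card := by push_cast; rfl
  rw [← h2, this]
  split_ifs <;> simp

lemma Fs_small {P : Finset ℕ} (hP : ∀ p ∈ P, p.Prime) (K n : ℕ)
    (h : (P.filter (fun p => p ∣ n)).card ≤ K) :
    Fs P (fun S => S.card ≤ K) n = if P.filter (fun p => p ∣ n) = ∅ then 1 else 0 := by
  rw [← Fs_true hP, Fs_eq hP, Fs_eq hP]
  refine sum_congr ?_ fun _ _ => rfl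
  rw [filter_true_of_mem (fun _ _ => trivial), filter_true_of_mem]
  intro S hS
  exact (card_le_card (mem_powerset.1 hS)).trans h

lemma Fs_abs {P : Finset ℕ} (hP : ∀ p ∈ P, p.Prime) (c : Finset ℕ → Prop) [DecidablePred c] (n : ℕ) :
    |Fs P c n| ≤ 2 ^ (P.filter (fun p => p ∣ n)).card := by
  rw [Fs_eq hP]
  calc _ ≤ ∑ S ∈ (P.filter (fun p => p ∣ n)).powerset.filter c, |(-1 : ℝ) ^ S.card| :=
        abs_sum_le_sum_abs _ _
    _ ≤ ∑ S ∈ (P.filter (fun p => p ∣ n)).powerset, |(-1 : ℝ) ^ S.card| :=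
        sum_le_sum_of_subset_of_nonneg (filter_subset _ _) fun _ _ _ => abs_nonneg _
    _ = _ := by simp

lemma two_pow_le {P : Finset ℕ} (hP : ∀ p ∈ P, p.Prime) {n : ℕ} (hn : n ≠ 0) :
    2 ^ (P.filter (fun p => p ∣ n)).card ≤ n.divisors.card := by
  rw [← card_powerset]
  refine card_le_card_of_injOn (fun S => ∏ p ∈ S, p) ?_ ?_
  · intro S hS
    simp only [coe_powerset, Set.mem_preimage, Set.mem_powerset_iff] at hS
    simp only [mem_coe, Nat.mem_divisors]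
    refine ⟨?_, hn⟩
    exact (prod_dvd_iff (fun q hq => hP q (mem_filter.1 (hS hq)).1) n).2
      fun p hp => (mem_filter.1 (hS hp)).2
  · intro S hS T hT h
    simp only [coe_powerset, Set.mem_preimage, Set.mem_powerset_iff] at hS hT
    have key : ∀ S : Finset ℕ, (∀ p ∈ S, p.Prime) → (∏ p ∈ S, p).primeFactors = S := fun S hS =>
      Nat.primeFactors_prod hS
    rw [← key S (fun q hq => hP q (mem_filter.1 (hS hq)).1),
      ← key T (fun q hq => hP q (mem_filter.1 (hT hq)).1)]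
    exact congrArg _ h

/-! ### the coefficients -/

lemma prod_single_neg (S : Finset ℕ) : ∏ p ∈ S, (single p (-1) : P1) =
    single (∏ p ∈ S, p) ((-1 : ℝ) ^ S.card) := by
  induction S using Finset.induction_on with
  | empty => simp [MonoidAlgebra.one_def]
  | insert p S hp ih =>
    rw [prod_insert hp, ih, single_mul_single, prod_insert hp, card_insert_of_notMem hp, pow_succ,
      mul_comm ((-1 : ℝ) ^ S.card)]

lemma Pz_expand (z : ℕ) : Pz z = ∑ S ∈ (S0 z).powerset, single (∏ p ∈ S, p) ((-1:ℝ) ^ S.card) := by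
  unfold Pz
  have e1 : ∀ p : ℕ, (1 - single p 1 : P1) = 1 + single p (-1) := by
    intro p
    rw [sub_eq_add_neg, ← single_neg]
  simp_rw [e1]
  rw [prod_one_add]
  exact sum_congr rfl fun S _ => prod_single_neg S

lemma zN_single_coeff (N m : ℕ) (hm : 0 < m) (c : ℝ) (n : ℕ) (hn : n ≤ N) :
    (zN N * single m c).coeff n = if n ≠ 0 ∧ m ∣ n then c else 0 := by
  unfold zN
  rw [sum_mul, coeff_sum, Finsupp.finsetSum_apply]
  simp_rw [single_mul_single, coeff_single, Finsupp.single_apply, one_mul]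
  by_cases h : n ≠ 0 ∧ m ∣ n
  · rw [if_pos h]
    obtain ⟨h0, k, rfl⟩ := h
    have hk : 0 < k := by
      rcases Nat.eq_zero_or_pos k with h | h
      · rw [h, mul_zero] at h0; exact absurd rfl h0
      · exact h
    rw [sum_eq_single k]
    · rw [if_pos (mul_comm k m)]
    · intro j _ hj
      rw [if_neg]
      intro h
      rw [mul_comm] at h
      exact hj (Nat.eq_of_mul_eq_mul_left hm h)
    · intro hk2
      exfalso
      apply hk2
      rw [mem_Icc]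
      refine ⟨hk, ?_⟩
      exact (Nat.le_mul_of_pos_left k hm).trans hn
  · rw [if_neg h]
    refine sum_eq_zero fun k hk => ?_
    rw [mem_Icc] at hk
    rw [if_neg]
    intro h2
    apply h
    refine ⟨?_, ?_⟩
    · rw [← h2]; exact Nat.mul_ne_zero (by omega) (by omega)
    · rw [← h2]; exact dvd_mul_left _ _

lemma PP_prime {z : ℕ} {y : ℝ} {p : ℕ} (h : p ∈ PP z y) : p.Prime ∧ z ≤ p ∧ p ≤ ⌊y⌋₊ := by
  unfold PP at h
  rw [mem_filter, mem_Icc] at h
  exact ⟨h.2, h.1.1, h.1.2⟩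

lemma coefD (N z : ℕ) (y : ℝ) (K n : ℕ) : (Dt N (Pz z * MBr z y K)).coeff n =
    if n ≠ 0 ∧ n ≤ N then Fs (S0 z) (fun _ => True) n * Fs (PP z y) (fun S => S.card ≤ K) n
      else 0 := by
  unfold Dt
  rw [trn_coeff]
  by_cases hN : n ≤ N
  swap
  · rw [if_neg hN, if_neg (fun h => hN h.2)]
  rw [if_pos hN]
  have hexp : Pz z * MBr z y K = ∑ S ∈ (S0 z).powerset, ∑ T ∈ (PP z y).powerset.filter
      (fun S => S.card ≤ K), single ((∏ p ∈ S, p) * ∏ p ∈ T, p) ((-1:ℝ) ^ S.card * (-1) ^ T.card) := by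
    rw [Pz_expand]
    unfold MBr
    rw [sum_mul_sum]
    refine sum_congr rfl fun S _ => sum_congr rfl fun T _ => ?_
    rw [single_mul_single]
  rw [hexp, mul_sum, coeff_sum, Finsupp.finsetSum_apply]
  have hS0 : ∀ S ∈ (S0 z).powerset, ∀ p ∈ S, p.Prime := fun S hS p hp =>
    (mem_S0.1 (mem_powerset.1 hS hp)).2
  have hT0 : ∀ T ∈ (PP z y).powerset.filter (fun S => S.card ≤ K), ∀ p ∈ T, p.Prime :=
    fun T hT p hp => (PP_prime (mem_powerset.1 (mem_filter.1 hT).1 hp)).1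
  have e1 : ∀ S ∈ (S0 z).powerset, (zN N * ∑ T ∈ (PP z y).powerset.filter
      (fun S => S.card ≤ K), single ((∏ p ∈ S, p) * ∏ p ∈ T, p)
        ((-1:ℝ) ^ S.card * (-1) ^ T.card)).coeff n =
      if n ≠ 0 then (if ∏ p ∈ S, p ∣ n then (-1 : ℝ) ^ S.card else 0) *
        Fs (PP z y) (fun S => S.card ≤ K) n else 0 := by
    intro S hS
    rw [mul_sum, coeff_sum, Finsupp.finsetSum_apply]
    have e2 : ∀ T ∈ (PP z y).powerset.filter (fun S => S.card ≤ K),
        (zN N * single ((∏ p ∈ S, p) * ∏ p ∈ T, p) ((-1:ℝ) ^ S.card * (-1) ^ T.card)).coeff n =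
        if n ≠ 0 then (if ∏ p ∈ S, p ∣ n then (-1 : ℝ) ^ S.card else 0) *
          (if ∏ p ∈ T, p ∣ n then (-1 : ℝ) ^ T.card else 0) else 0 := by
      intro T hT
      have hps : 0 < ∏ p ∈ S, p := prod_pos fun p hp => (hS0 S hS p hp).pos
      have hpt : 0 < ∏ p ∈ T, p := prod_pos fun p hp => (hT0 T hT p hp).pos
      rw [zN_single_coeff N _ (Nat.mul_pos hps hpt) _ n hN]
      have hcop : Nat.Coprime (∏ p ∈ S, p) (∏ p ∈ T, p) := by
        refine Nat.Coprime.prod_left fun p hp => Nat.Coprime.prod_right fun q hq => ?_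
        rw [Nat.coprime_primes (hS0 S hS p hp) (hT0 T hT q hq)]
        have h1 := (mem_S0.1 (mem_powerset.1 hS hp)).1
        have h2 := (PP_prime (mem_powerset.1 (mem_filter.1 hT).1 hq)).2.1
        omega
      by_cases h0 : n = 0
      · rw [if_neg (fun h => h.1 h0), if_neg (fun h => h h0)]
      rw [if_pos h0]
      by_cases h1 : ∏ p ∈ S, p ∣ n
      · by_cases h2 : ∏ p ∈ T, p ∣ n
        · rw [if_pos ⟨h0, hcop.mul_dvd_of_dvd_of_dvd h1 h2⟩, if_pos h1, if_pos h2]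
        · rw [if_neg (fun h => h2 ((dvd_mul_left _ _).trans h.2)), if_neg h2, mul_zero]
      · rw [if_neg (fun h => h1 ((dvd_mul_right _ _).trans h.2)), if_neg h1, zero_mul]
    rw [sum_congr rfl e2]
    by_cases h0 : n = 0
    · simp [h0]
    · simp only [if_pos h0]
      rw [← mul_sum]
      rfl
  rw [sum_congr rfl e1]
  by_cases h0 : n = 0
  · simp [h0]
  · simp only [if_pos h0]
    rw [if_pos ⟨h0, hN⟩, ← sum_mul]
    congr 1
    unfold Fs
    rw [filter_true_of_mem (fun _ _ => trivial)]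

/-- the coefficient -/
noncomputable def cn (z : ℕ) (y : ℝ) (K n : ℕ) : ℝ :=
  Fs (S0 z) (fun _ => True) n * Fs (PP z y) (fun S => S.card ≤ K) n

lemma S0p (z : ℕ) : ∀ p ∈ S0 z, p.Prime := fun _ hp => (mem_S0.1 hp).2

lemma PPp (z : ℕ) (y : ℝ) : ∀ p ∈ PP z y, p.Prime := fun _ hp => (PP_prime hp).1

lemma cn_one (z : ℕ) (y : ℝ) (K : ℕ) : cn z y K 1 = 1 := by
  have h : ∀ P : Finset ℕ, (∀ p ∈ P, p.Prime) → P.filter (fun p => p ∣ 1) = ∅ := by
    intro P hP
    rw [filter_eq_empty_iff]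
    intro p hp h
    rw [Nat.dvd_one] at h
    exact (hP p hp).one_lt.ne' h
  unfold cn
  rw [Fs_true (S0p z), Fs_small (PPp z y) K 1 (by rw [h _ (PPp z y)]; simp), if_pos (h _ (S0p z)),
    if_pos (h _ (PPp z y)), one_mul]

lemma cn_abs (z : ℕ) (y : ℝ) (K n : ℕ) (hn : n ≠ 0) : |cn z y K n| ≤ n.divisors.card := by
  unfold cn
  rw [abs_mul]
  have h1 : |Fs (S0 z) (fun _ => True) n| ≤ 1 := by
    rw [Fs_true (S0p z)]
    split_ifs <;> simp
  have h2 := Fs_abs (PPp z y) (fun S => S.card ≤ K) n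
  have h3 : (2 : ℝ) ^ ((PP z y).filter (fun p => p ∣ n)).card ≤ n.divisors.card := by
    exact_mod_cast two_pow_le (PPp z y) hn
  calc _ ≤ 1 * (n.divisors.card : ℝ) := mul_le_mul h1 (h2.trans h3) (abs_nonneg _) zero_le_one
    _ = _ := one_mul _

lemma cn_ne {z : ℕ} {y : ℝ} {K n : ℕ} (hy : 0 ≤ y) (hn : 2 ≤ n) (h : cn z y K n ≠ 0) :
    y < n ∨ 2 ^ (K + 1) ≤ n.divisors.card := by
  unfold cn at h
  have h1 : Fs (S0 z) (fun _ => True) n ≠ 0 := left_ne_zero_of_mul h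
  have h2 : Fs (PP z y) (fun S => S.card ≤ K) n ≠ 0 := right_ne_zero_of_mul h
  rw [Fs_true (S0p z)] at h1
  have h3 : (S0 z).filter (fun p => p ∣ n) = ∅ := by
    by_contra hc
    exact h1 (if_neg hc)
  by_cases hK : ((PP z y).filter (fun p => p ∣ n)).card ≤ K
  · left
    rw [Fs_small (PPp z y) K n hK] at h2
    have h4 : (PP z y).filter (fun p => p ∣ n) = ∅ := by
      by_contra hc
      exact h2 (if_neg hc)
    have hp := Nat.minFac_prime (n := n) (by omega)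
    have hd := Nat.minFac_dvd n
    have h5 : z ≤ n.minFac := by
      by_contra hc
      have : n.minFac ∈ (S0 z).filter (fun p => p ∣ n) :=
        mem_filter.2 ⟨mem_S0.2 ⟨by omega, hp⟩, hd⟩
      rw [h3] at this
      simp at this
    have h6 : ⌊y⌋₊ < n.minFac := by
      by_contra hc
      have : n.minFac ∈ (PP z y).filter (fun p => p ∣ n) := by
        refine mem_filter.2 ⟨?_, hd⟩
        unfold PP
        rw [mem_filter, mem_Icc]
        exact ⟨⟨h5, by omega⟩, hp⟩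
      rw [h4] at this
      simp at this
    have h7 : y < n.minFac := (Nat.floor_lt hy).1 h6
    have h8 : (n.minFac : ℝ) ≤ n := by exact_mod_cast Nat.minFac_le (by omega)
    linarith
  · right
    push Not at hK
    refine le_trans ?_ (two_pow_le (PPp z y) (by omega : n ≠ 0))
    exact Nat.pow_le_pow_right (by norm_num) hK

lemma term_le {z : ℕ} {y : ℝ} {K n : ℕ} {δ δ' : ℝ} (hδ : 0 < δ) (hδ' : δ / 2 ≤ δ') (hy : 0 < y)
    (hn : 2 ≤ n) : cn z y K n ^ 2 * wd δ' n ≤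
      (y ^ (-(δ / 2)) + (1 / 2) ^ K) * ((n.divisors.card : ℝ) ^ 3 * (n:ℝ) ^ (-1 - δ / 2)) := by
  have hn0 : (0:ℝ) < n := by exact_mod_cast (by omega : 0 < n)
  have hn1 : (1:ℝ) ≤ n := by exact_mod_cast (by omega : 1 ≤ n)
  have hd1 : (1:ℝ) ≤ n.divisors.card := by
    exact_mod_cast card_pos.2 ⟨1, Nat.one_mem_divisors.2 (by omega)⟩
  have hR : 0 ≤ (y ^ (-(δ / 2)) + (1 / 2) ^ K) * ((n.divisors.card : ℝ) ^ 3 *
      (n:ℝ) ^ (-1 - δ / 2)) := by positivity
  by_cases hc : cn z y K n = 0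
  · rw [hc]
    simpa using hR
  have hw : wd δ' n ≤ (n:ℝ) ^ (-(δ / 2)) * (n:ℝ) ^ (-1 - δ / 2) := by
    unfold wd
    rw [one_div, ← Real.rpow_neg_one, ← Real.rpow_add hn0, ← Real.rpow_add hn0]
    exact Real.rpow_le_rpow_of_exponent_le hn1 (by linarith)
  have hc2 : cn z y K n ^ 2 ≤ (n.divisors.card : ℝ) ^ 2 := by
    rw [← sq_abs]
    exact pow_le_pow_left₀ (abs_nonneg _) (cn_abs z y K n (by omega)) 2
  have hw0 : 0 ≤ wd δ' n := by unfold wd; positivity
  have hA : 0 < (n:ℝ) ^ (-1 - δ / 2) := by positivity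
  rcases cn_ne hy.le hn hc with h | h
  · have h1 : (n:ℝ) ^ (-(δ / 2)) ≤ y ^ (-(δ / 2)) :=
      Real.rpow_le_rpow_of_nonpos hy h.le (by linarith)
    have h2 : (n.divisors.card : ℝ) ^ 2 ≤ (n.divisors.card : ℝ) ^ 3 :=
      pow_le_pow_right₀ hd1 (by norm_num)
    have hyp : 0 < y ^ (-(δ / 2)) := by positivity
    calc cn z y K n ^ 2 * wd δ' n ≤ (n.divisors.card : ℝ) ^ 3 *
          (y ^ (-(δ / 2)) * (n:ℝ) ^ (-1 - δ / 2)) := by
          refine mul_le_mul (hc2.trans h2) (hw.trans ?_) hw0 (by positivity)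
          exact mul_le_mul_of_nonneg_right h1 hA.le
      _ = y ^ (-(δ / 2)) * ((n.divisors.card : ℝ) ^ 3 * (n:ℝ) ^ (-1 - δ / 2)) := by ring
      _ ≤ _ := by
          refine mul_le_mul_of_nonneg_right ?_ (by positivity)
          have : (0:ℝ) ≤ (1 / 2) ^ K := by positivity
          linarith
  · have h1 : (n:ℝ) ^ (-(δ / 2)) ≤ 1 := Real.rpow_le_one_of_one_le_of_nonpos hn1 (by linarith)
    have h2 : (n.divisors.card : ℝ) ^ 2 ≤ (1 / 2) ^ K * (n.divisors.card : ℝ) ^ 3 := by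
      have h3 : (2:ℝ) ^ (K + 1) ≤ n.divisors.card := by exact_mod_cast h
      have h4 : (1:ℝ) ≤ (1 / 2) ^ K * (n.divisors.card : ℝ) := by
        have h5 : (2:ℝ) ^ K ≤ n.divisors.card := by
          refine le_trans ?_ h3
          exact pow_le_pow_right₀ (by norm_num) (by omega)
        calc (1:ℝ) = (1 / 2) ^ K * 2 ^ K := by rw [← mul_pow]; norm_num
          _ ≤ _ := mul_le_mul_of_nonneg_left h5 (by positivity)
      calc (n.divisors.card : ℝ) ^ 2 = 1 * (n.divisors.card : ℝ) ^ 2 := (one_mul _).symm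
        _ ≤ ((1 / 2) ^ K * (n.divisors.card : ℝ)) * (n.divisors.card : ℝ) ^ 2 :=
            mul_le_mul_of_nonneg_right h4 (by positivity)
        _ = _ := by ring
    calc cn z y K n ^ 2 * wd δ' n ≤ ((1 / 2) ^ K * (n.divisors.card : ℝ) ^ 3) *
          (n:ℝ) ^ (-1 - δ / 2) := by
          refine mul_le_mul (hc2.trans h2) (hw.trans ?_) hw0 (by positivity)
          exact mul_le_of_le_one_left hA.le h1
      _ = (1 / 2) ^ K * ((n.divisors.card : ℝ) ^ 3 * (n:ℝ) ^ (-1 - δ / 2)) := by ring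
      _ ≤ _ := by
          refine mul_le_mul_of_nonneg_right ?_ (by positivity)
          have : (0:ℝ) ≤ y ^ (-(δ / 2)) := by positivity
          linarith

lemma nn_le {z : ℕ} {y : ℝ} {K N : ℕ} {δ δ' : ℝ} (hδ : 0 < δ) (hδ' : δ / 2 ≤ δ') (hy : 0 < y)
    (hN : 1 ≤ N) : nn δ' (cx (Dt N (Pz z * MBr z y K)) - 1) ≤
      (y ^ (-(δ / 2)) + (1 / 2) ^ K) * (1 + 1 / (δ / 2)) ^ 8 := by
  have hco : ∀ n, (cx (Dt N (Pz z * MBr z y K)) - 1).coeff n =
      if 2 ≤ n ∧ n ≤ N then ((cn z y K n : ℝ) : ℂ) else 0 := by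
    intro n
    rw [coeff_sub, Finsupp.sub_apply, cx_coeff, coefD, MonoidAlgebra.one_def, coeff_single,
      Finsupp.single_apply]
    by_cases h1 : n = 1
    · subst h1
      rw [if_pos ⟨one_ne_zero, hN⟩, if_pos rfl, if_neg (by omega)]
      have := cn_one z y K
      unfold cn at this
      rw [this]
      simp
    · rw [if_neg (Ne.symm h1)]
      by_cases h2 : n = 0
      · subst h2
        rw [if_neg (by simp), if_neg (by omega)]
        simp
      · by_cases h3 : n ≤ N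
        · rw [if_pos ⟨h2, h3⟩, if_pos ⟨by omega, h3⟩, sub_zero]
          rfl
        · rw [if_neg (fun h => h3 h.2), if_neg (fun h => h3 h.2)]
          simp
  have hsup : (cx (Dt N (Pz z * MBr z y K)) - 1).coeff.support ⊆ Icc 2 N := by
    intro n hn
    rw [Finsupp.mem_support_iff, hco] at hn
    rw [mem_Icc]
    by_contra hc
    exact hn (if_neg hc)
  unfold nn
  have hw0 : ∀ n : ℕ, 0 ≤ wd δ' n := fun n => by unfold wd; positivity
  calc ∑ n ∈ (cx (Dt N (Pz z * MBr z y K)) - 1).coeff.support,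
        ‖(cx (Dt N (Pz z * MBr z y K)) - 1).coeff n‖ ^ 2 * wd δ' n
      ≤ ∑ n ∈ Icc 2 N, ‖(cx (Dt N (Pz z * MBr z y K)) - 1).coeff n‖ ^ 2 * wd δ' n :=
        sum_le_sum_of_subset_of_nonneg hsup fun n _ _ => mul_nonneg (by positivity) (hw0 n)
    _ ≤ ∑ n ∈ Icc 2 N, (y ^ (-(δ / 2)) + (1 / 2) ^ K) *
          ((n.divisors.card : ℝ) ^ 3 * (n:ℝ) ^ (-1 - δ / 2)) := by
        refine sum_le_sum fun n hn => ?_
        rw [mem_Icc] at hn
        rw [hco, if_pos hn, Complex.norm_real, Real.norm_eq_abs, sq_abs]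
        exact term_le hδ hδ' hy hn.1
    _ ≤ ∑ n ∈ Icc 1 N, (y ^ (-(δ / 2)) + (1 / 2) ^ K) *
          ((n.divisors.card : ℝ) ^ 3 * (n:ℝ) ^ (-1 - δ / 2)) := by
        refine sum_le_sum_of_subset_of_nonneg ?_ fun n _ _ => by positivity
        exact Icc_subset_Icc_left (by norm_num)
    _ = (y ^ (-(δ / 2)) + (1 / 2) ^ K) * Sk 3 N (δ / 2) := by
        rw [← mul_sum]
        rfl
    _ ≤ _ := mul_le_mul_of_nonneg_left (Sk3 (by positivity) N) (by positivity)

theorem main : S_ZM2 := by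
  intro D hD
  have hl2 : 0 < Real.log 2 := Real.log_pos (by norm_num)
  refine ⟨2 * (D + 9), (D + 9) / Real.log 2, by positivity, by positivity, ?_⟩
  intro z hz
  refine ⟨1 / 13122, by norm_num, ?_⟩
  intro δ hδ hδ0 y K hzy ha hb δ' hδ' N hN
  have hy : 0 < y := by
    have : (2:ℝ) ≤ z := by exact_mod_cast hz
    linarith
  have hδ1 : δ ≤ 1 := by
    refine hδ0.trans (by norm_num)
  have hlog : Real.log (1 / δ) = - Real.log δ := by
    rw [one_div, Real.log_inv]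
  rw [hlog] at ha hb
  have h1 : y ^ (-(δ / 2)) ≤ δ ^ (D + 9) := by
    rw [Real.rpow_def_of_pos hy, Real.rpow_def_of_pos hδ]
    apply Real.exp_le_exp.2
    nlinarith
  have h2 : ((1:ℝ) / 2) ^ K ≤ δ ^ (D + 9) := by
    rw [Real.rpow_def_of_pos hδ, ← Real.rpow_natCast, Real.rpow_def_of_pos (by norm_num)]
    apply Real.exp_le_exp.2
    have e1 : Real.log (1 / 2) = - Real.log 2 := by
      rw [one_div, Real.log_inv]
    rw [e1]
    have e2 : (D + 9) / Real.log 2 * -Real.log δ * Real.log 2 = -(Real.log δ * (D + 9)) := by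
      field_simp
    have e3 := mul_le_mul_of_nonneg_right hb hl2.le
    rw [e2] at e3
    linarith
  refine (nn_le hδ hδ' hy hN).trans ?_
  have h3 : 1 + 1 / (δ / 2) ≤ 3 / δ := by
    have : 1 + 1 / (δ / 2) = (δ + 2) / δ := by field_simp
    rw [this]
    exact div_le_div_of_nonneg_right (by linarith) hδ.le
  have h4 : (1 + 1 / (δ / 2)) ^ 8 ≤ (3 / δ) ^ 8 := pow_le_pow_left₀ (by positivity) h3 8
  have h5 : δ ^ (D + 9) = δ ^ D * δ ^ 9 := by
    rw [Real.rpow_add hδ]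
    congr 1
    exact Real.rpow_natCast δ 9
  have hDp : 0 < δ ^ D := Real.rpow_pos_of_pos hδ _
  calc (y ^ (-(δ / 2)) + (1 / 2) ^ K) * (1 + 1 / (δ / 2)) ^ 8
      ≤ (δ ^ (D + 9) + δ ^ (D + 9)) * (3 / δ) ^ 8 :=
        mul_le_mul (add_le_add h1 h2) h4 (by positivity) (by positivity)
    _ = δ ^ D * (13122 * δ) := by
        rw [h5]
        field_simp
        ring
    _ ≤ δ ^ D * 1 := by
        refine mul_le_mul_of_nonneg_left ?_ hDp.le
        linarith
    _ = δ ^ D := mul_one _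

end Pool.Agent.N748.HM.ZM2
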