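import Pool.Agent.N748.HM.Stm
import Pool.Agent.N748.GC.ZML

set_option autoImplicit false

/-!
# Moments of zeta without the small primes on the line `1`, all exponents (helper40)
-/

namespace Pool.Agent.N748.HM.ZML3

open Finset Complex MeasureTheory Filter Topology MonoidAlgebra
open Pool.Agent.N748.GC
open Pool.Agent.N748.GC.ZML (W W_ne Rough PZ PZ_Sp PZ_le D_coeff D_nn P_nn ZC ZC_nonneg Sp_pow cf_pow
  trunc Sm_prime)

/-! ### elementary inequalities -/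

lemma geo {x : ℝ} (h : 1 ≤ x) (m : ℕ) : x ^ (m + 1) - 1 ≤ ((m:ℝ) + 1) * ((x - 1) * x ^ m) := by
  induction m with
  | zero => simp
  | succ m ih =>
    have h1 : 1 ≤ x ^ (m + 1) := one_le_pow₀ h
    have h2 : 0 ≤ x - 1 := by linarith
    have h3 := mul_le_mul_of_nonneg_left ih (by linarith : 0 ≤ x)
    have h4 := mul_le_mul_of_nonneg_left h1 h2
    have e1 : x ^ (m + 1 + 1) - 1 = x * (x ^ (m + 1) - 1) + (x - 1) := by ring
    have e2 : x * (((m:ℝ) + 1) * ((x - 1) * x ^ m)) = ((m:ℝ) + 1) * ((x - 1) * x ^ (m + 1)) := by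
      ring
    rw [e1]
    push_cast
    calc x * (x ^ (m + 1) - 1) + (x - 1) ≤ ((m:ℝ) + 1) * ((x - 1) * x ^ (m + 1)) +
          (x - 1) * x ^ (m + 1) := by linarith
      _ = _ := by ring

lemma elem {x q : ℝ} {m : ℕ} (hx : 0 ≤ x) (hq0 : 0 ≤ q) (hq8 : q ≤ (m:ℝ) + 1) :
    max (x ^ q - 1) 0 ≤ ((m:ℝ) + 1) * (|x - 1| * x ^ m) := by
  rcases le_total x 1 with h | h
  · have h1 : x ^ q ≤ 1 := Real.rpow_le_one hx h hq0
    rw [max_eq_right (by linarith)]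
    positivity
  · have h1 : x ^ q ≤ x ^ (m + 1) := by
      rw [← Real.rpow_natCast]
      exact Real.rpow_le_rpow_of_exponent_le h (by push_cast; exact hq8)
    rw [abs_of_nonneg (by linarith)]
    apply max_le
    · have := geo h m
      linarith
    · have hx1 : 0 ≤ x - 1 := by linarith
      positivity

lemma ptw {x y E D l q : ℝ} {m : ℕ} (hx : 0 ≤ x) (hy : 0 ≤ y) (hE : 0 ≤ E) (hxy : |y - x| ≤ E)
    (hD : |x - 1| ≤ D) (hl : 0 < l) (hq0 : 0 ≤ q) (hq8 : q ≤ (m:ℝ) + 1) :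
    max (y ^ q - 1) 0 ≤ ((m:ℝ) + 1) * l * D ^ 2 + ((m:ℝ) + 1) * l * E ^ 2 +
      ((m:ℝ) + 1) * 2 ^ (2 * m) / l * x ^ (2 * m) + ((m:ℝ) + 1) * 2 ^ (2 * m) / l * E ^ (2 * m) := by
  refine (elem hy hq0 hq8).trans ?_
  have h1 : |y - 1| ≤ D + E := by
    calc |y - 1| = |(y - x) + (x - 1)| := by ring_nf
      _ ≤ |y - x| + |x - 1| := abs_add_le _ _
      _ ≤ D + E := by linarith
  have h2 : |y - 1| ^ 2 ≤ 2 * D ^ 2 + 2 * E ^ 2 := by
    have h3 : |y - 1| ^ 2 ≤ (D + E) ^ 2 := by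
      have := abs_nonneg (y - 1)
      gcongr
    nlinarith [sq_nonneg (D - E)]
  have h4 : y ≤ x + E := by
    have := (abs_le.1 hxy).2
    linarith
  have h5 : y ^ (2 * m) ≤ 2 ^ (2 * m) * (x ^ (2 * m) + E ^ (2 * m)) := by
    calc y ^ (2 * m) ≤ (x + E) ^ (2 * m) := by gcongr
      _ ≤ 2 ^ (2 * m - 1) * (x ^ (2 * m) + E ^ (2 * m)) := add_pow_le hx hE (2 * m)
      _ ≤ _ := by
          gcongr
          · norm_num
          · omega
  have h6 : |y - 1| * y ^ m ≤ 1 / 2 * (l * |y - 1| ^ 2) + 1 / 2 * (1 / l * y ^ (2 * m)) := by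
    have : 0 ≤ 1 / 2 * l * (|y - 1| - y ^ m / l) ^ 2 := by positivity
    have e : 1 / 2 * l * (|y - 1| - y ^ m / l) ^ 2 =
        1 / 2 * (l * |y - 1| ^ 2) + 1 / 2 * (1 / l * y ^ (2 * m)) - |y - 1| * y ^ m := by
      rw [pow_mul', sq (y ^ m)]
      field_simp
      ring
    linarith
  calc ((m:ℝ) + 1) * (|y - 1| * y ^ m)
      ≤ ((m:ℝ) + 1) * (1 / 2 * (l * |y - 1| ^ 2) + 1 / 2 * (1 / l * y ^ (2 * m))) := by gcongr
    _ ≤ ((m:ℝ) + 1) * (1 / 2 * (l * (2 * D ^ 2 + 2 * E ^ 2)) +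
        1 * (1 / l * (2 ^ (2 * m) * (x ^ (2 * m) + E ^ (2 * m))))) := by
        gcongr
        norm_num
    _ = _ := by ring

/-- **HM/ZML3.** -/
theorem main (h1 : S_ZPA) (h2 : S_MVW3) : S_ZML3 := by
  intro Q hQ
  obtain ⟨m, hm1, hmQ⟩ : ∃ m : ℕ, 1 ≤ m ∧ Q ≤ m :=
    ⟨⌈Q⌉₊ + 1, by omega, by push_cast; linarith [Nat.le_ceil Q]⟩
  have hm0 : (0:ℝ) < m := by exact_mod_cast hm1
  obtain ⟨ε, hε⟩ : ∃ ε : ℝ, ε = 1 / (12 * (m:ℝ) + 100) := ⟨_, rfl⟩
  have hε0 : 0 < ε := by rw [hε]; positivity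
  have hε1 : ε ≤ 1 / 100 := by
    rw [hε]
    apply one_div_le_one_div_of_le (by norm_num)
    linarith
  have hε12 : 12 * ε ≤ 1 / 2 := by linarith
  have hεm : 12 * ε * m ≤ 1 := by
    rw [hε, mul_one_div, div_mul_eq_mul_div, div_le_one (by positivity)]
    linarith
  have hεm0 : 0 ≤ ε / m := by positivity
  have hεmm : m * (ε / m) = ε := by field_simp
  obtain ⟨C1, hC1, H1⟩ := h1
  obtain ⟨C2, hC2, H2⟩ := h2 ε hε0 hε1
  obtain ⟨K, hK, hKd⟩ := H353.divisor_bound_real (ε / m) (by positivity)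
  obtain ⟨c1, hc1⟩ : ∃ c1 : ℝ, c1 = (m:ℝ) + 1 := ⟨_, rfl⟩
  have hc10 : 0 < c1 := by rw [hc1]; positivity
  obtain ⟨c2, hc2⟩ : ∃ c2 : ℝ, c2 = ((m:ℝ) + 1) * 2 ^ (2 * m) := ⟨_, rfl⟩
  have hc20 : 0 < c2 := by rw [hc2]; positivity
  set A := K ^ m with hA
  have hA0 : 0 ≤ A := by positivity
  set B := A ^ 2 * ZC + C2 * A ^ 2 with hB
  have hZC := ZC_nonneg
  have hB0 : 0 ≤ B := by positivity
  refine ⟨3 * c1 + 1 + c2 * (B + 1), by positivity, fun z hz => ?_⟩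
  set c := 3 * C1 * (W z).divisors.card with hc
  have hc0 : 0 ≤ c := by positivity
  have hz0 : (0:ℝ) < z := by
    have : 0 < z := by omega
    exact_mod_cast this
  refine ⟨2 + (W z : ℝ) + (C2 * z) ^ 2 + c1 * z * c ^ 2 + c ^ (2 * m), ?_, ?_⟩
  · have : 0 ≤ (W z : ℝ) + (C2 * z) ^ 2 + c1 * z * c ^ 2 + c ^ (2 * m) := by positivity
    linarith
  intro H hH δ hδ hδ2 q hq0 hqQ
  have hq8 : q ≤ (m:ℝ) + 1 := by linarith
  have hW0 : 0 ≤ (W z : ℝ) := Nat.cast_nonneg _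
  have t1 : 0 ≤ (C2 * z) ^ 2 := by positivity
  have t2 : 0 ≤ c1 * z * c ^ 2 := by positivity
  have t3 : 0 ≤ c ^ (2 * m) := by positivity
  have hH2 : 2 ≤ H := by linarith
  have hH0 : 0 < H := by linarith
  have hHW : (W z : ℝ) ≤ H := by linarith
  have hHC : (C2 * z) ^ 2 ≤ H := by linarith
  have hHc : c1 * z * c ^ 2 ≤ H := by linarith
  have hHc14 : c ^ (2 * m) ≤ H := by linarith
  set N := ⌈H ^ 2⌉₊ with hN
  have hNH : H ^ 2 ≤ N := Nat.le_ceil _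
  have hNH2 : (N:ℝ) ≤ H ^ 3 := by
    have h3 := (Nat.ceil_lt_add_one (show (0 : ℝ) ≤ H ^ 2 by positivity)).le
    nlinarith [mul_le_mul_of_nonneg_right hH2 (sq_nonneg H)]
  have hNW : W z ≤ N := by
    have : (W z : ℝ) ≤ N := by nlinarith
    exact_mod_cast this
  have hN1 : 1 ≤ N := (Nat.pos_of_ne_zero (W_ne z)).trans_le hNW
  have hN1r : (1:ℝ) ≤ N := by exact_mod_cast hN1
  set σ : ℝ := 1 + 2 * δ with hσ
  have hσ1 : 1 ≤ σ := by rw [hσ]; linarith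
  have hσ2 : σ ≤ 2 := by rw [hσ]; linarith
  have hδ' : (1:ℝ) / 2 ≤ 1 / 2 + 2 * δ := by linarith
  set L := (z:ℝ) ^ (1 / 2 : ℝ) with hL
  have hL0 : 0 < L := Real.rpow_pos_of_pos hz0 _
  have hL2 : L * L = z := by
    rw [hL, ← Real.rpow_add hz0]; norm_num
  have hLinv : (z:ℝ) ^ (-(1 / 2 : ℝ)) = 1 / L := by
    rw [Real.rpow_neg hz0.le]
    exact (one_div _).symm
  -- mean square of `P - 1`
  set x : ℝ → ℝ := fun h => ‖ec (σ + h * I) (PZ z N)‖ with hx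
  set D : ℝ → ℝ := fun h => ‖ec (σ + h * I) (PZ z N - 1)‖ with hD
  have hcast : ∀ h : ℝ, (1 / 2 + ((1 / 2 + 2 * δ : ℝ) : ℂ) + h * I : ℂ) = σ + h * I := by
    intro h
    rw [hσ]
    push_cast
    ring
  have hxc : Continuous x := (Pool.Agent.N748.GC.ZML.ec_cont (fun n hn => (PZ_Sp z N n hn).1) (σ:ℂ)).norm
  have hDs : ∀ n ∈ (PZ z N - 1).coeff.support, n ≠ 0 ∧ (n:ℝ) ≤ N := by
    intro n hn
    rw [Finsupp.mem_support_iff, D_coeff hN1] at hn
    have h : (n ≠ 1 ∧ 1 ≤ n ∧ n ≤ N) ∧ Rough z n := by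
      by_contra h
      rw [if_neg h] at hn
      exact hn rfl
    exact ⟨by omega, by exact_mod_cast h.1.2.2⟩
  have hDc : Continuous D := (Pool.Agent.N748.GC.ZML.ec_cont (fun n hn => (hDs n hn).1) (σ:ℂ)).norm
  have hD1 : ∀ h, |x h - 1| ≤ D h := by
    intro h
    have e : ec (σ + h * I) (PZ z N - 1) = ec (σ + h * I) (PZ z N) - 1 := by
      rw [map_sub, map_one]
    simp only [hx, hD, e]
    have := abs_norm_sub_norm_le (ec (σ + h * I) (PZ z N)) 1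
    rwa [norm_one] at this
  have hMS1 : ∫ h in (0:ℝ)..H, D h ^ 2 ≤ 3 * H / z := by
    have h3 := H2 1 N H (1 / 2 + 2 * δ) (PZ z N - 1) zero_le_one hN1r hH0.le hδ' hDs (by
      intro n
      rcases Nat.eq_zero_or_pos n with h0 | h0
      · rw [h0, D_coeff hN1, if_neg (by omega), norm_zero]
        positivity
      · have : (1:ℝ) ≤ (n:ℝ) ^ ε :=
          Real.one_le_rpow (by exact_mod_cast h0) hε0.le
        rw [one_mul]
        refine le_trans ?_ this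
        rw [D_coeff hN1]
        split_ifs <;> simp)
    simp only [hcast] at h3
    have h4 := D_nn hz hN1 hδ'
    have h5 : C2 * 1 ^ 2 * (N:ℝ) ^ (4 * ε) ≤ H / z := by
      have h6 : (N:ℝ) ^ (4 * ε) ≤ H ^ ((1:ℝ) / 2) := by
        calc (N:ℝ) ^ (4 * ε) ≤ (H ^ 3) ^ (4 * ε) := by gcongr
          _ = H ^ (12 * ε) := by
              rw [← Real.rpow_natCast H 3, ← Real.rpow_mul hH0.le]
              congr 1
              push_cast
              ring
          _ ≤ _ := Real.rpow_le_rpow_of_exponent_le (by linarith) hε12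
      have h7 : C2 * z ≤ H ^ ((1:ℝ) / 2) := by
        rw [← Real.sqrt_eq_rpow]
        exact Real.le_sqrt_of_sq_le hHC
      have h8 : H ^ ((1:ℝ) / 2) * H ^ ((1:ℝ) / 2) = H := by
        rw [← Real.rpow_add hH0]; norm_num
      rw [le_div_iff₀ hz0]
      have h9 : 0 < H ^ ((1:ℝ) / 2) := Real.rpow_pos_of_pos hH0 _
      calc C2 * 1 ^ 2 * (N:ℝ) ^ (4 * ε) * z = (C2 * z) * (N:ℝ) ^ (4 * ε) := by ring
        _ ≤ H ^ ((1:ℝ) / 2) * H ^ ((1:ℝ) / 2) := by gcongr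
        _ = H := h8
    calc ∫ h in (0:ℝ)..H, D h ^ 2 ≤ H * nn (1 / 2 + 2 * δ) (PZ z N - 1) + C2 * 1 ^ 2 * (N:ℝ) ^ (4 * ε) := h3
      _ ≤ H * (2 / z) + H / z := by gcongr
      _ = _ := by ring
  have hMS2 : ∫ h in (0:ℝ)..H, x h ^ (2 * m) ≤ B * H := by
    have hSp7 := Sp_pow (Nat.cast_nonneg N) (PZ_Sp z N) m
    have h00 : ((PZ z N) ^ m).coeff 0 = 0 := by
      by_contra h
      exact (hSp7 0 (Finsupp.mem_support_iff.2 h)).1 rfl
    have hcf : ∀ n : ℕ, n ≠ 0 → ‖((PZ z N) ^ m).coeff n‖ ≤ A * (n:ℝ) ^ ε := by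
      intro n hn
      have := cf_pow hK.le hεm0 hKd (PZ_le z N) m n hn
      refine this.trans (le_of_eq ?_)
      rw [hA, hεmm]
    have hcf' : ∀ n : ℕ, n ≠ 0 → ‖((PZ z N) ^ m).coeff n‖ ≤ A * (n:ℝ) ^ ((1:ℝ) / 100) := by
      intro n hn
      refine (hcf n hn).trans (mul_le_mul_of_nonneg_left ?_ hA0)
      exact Real.rpow_le_rpow_of_exponent_le
        (by exact_mod_cast Nat.one_le_iff_ne_zero.2 hn) hε1
    have h3 := H2 A ((N:ℝ) ^ m) H (1 / 2 + 2 * δ) ((PZ z N) ^ m) hA0 (one_le_pow₀ hN1r) hH0.le hδ' hSp7 (by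
      intro n
      rcases eq_or_ne n 0 with h0 | h0
      · rw [h0, h00, norm_zero]; positivity
      · exact hcf n h0)
    simp only [hcast] at h3
    have h4 := P_nn h00 hcf' hδ'
    have h5 : ((N:ℝ) ^ m) ^ (4 * ε) ≤ H := by
      calc ((N:ℝ) ^ m) ^ (4 * ε) ≤ ((H ^ 3) ^ m) ^ (4 * ε) := by gcongr
        _ = H ^ (12 * ε * m) := by
            rw [← pow_mul, ← Real.rpow_natCast H, ← Real.rpow_mul hH0.le]
            congr 1
            push_cast
            ring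
        _ ≤ H ^ (1:ℝ) := Real.rpow_le_rpow_of_exponent_le (by linarith) hεm
        _ = H := Real.rpow_one H
    have h6 : ∀ h : ℝ, ‖ec (σ + h * I) ((PZ z N) ^ m)‖ ^ 2 = x h ^ (2 * m) := by
      intro h
      simp only [hx]
      rw [map_pow, norm_pow, ← pow_mul, mul_comm m 2]
    simp only [h6] at h3
    calc ∫ h in (0:ℝ)..H, x h ^ (2 * m) ≤ H * nn (1 / 2 + 2 * δ) ((PZ z N) ^ m) +
          C2 * A ^ 2 * ((N:ℝ) ^ m) ^ (4 * ε) := h3
      _ ≤ H * (A ^ 2 * ZC) + C2 * A ^ 2 * H := by gcongr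
      _ = _ := by rw [hB]; ring
  -- the pointwise bound
  set y : ℝ → ℝ := fun h => ‖riemannZeta (1 + 2 * δ + h * I) *
    ∏ p ∈ Sm z, (1 - (p:ℂ) ^ (-(1 + 2 * δ + h * I : ℂ)))‖ with hy
  have hcast2 : ∀ h : ℝ, (1 + 2 * δ + h * I : ℂ) = σ + h * I := by
    intro h
    rw [hσ]
    push_cast
    ring
  have hxy : ∀ h : ℝ, 1 ≤ h → h ≤ H → |y h - x h| ≤ c / h := by
    intro h hh1 hhH
    simp only [hy, hx, hcast2]
    refine (abs_norm_sub_norm_le _ _).trans ?_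
    refine trunc hC1 H1 hσ1 hσ2 hh1 hNW ?_
    nlinarith
  have hyc : Continuous y := by
    have e1 : Continuous fun h : ℝ => riemannZeta (1 + 2 * δ + h * I) := by
      rw [continuous_iff_continuousAt]
      intro h
      have hne : (1 + 2 * δ + h * I : ℂ) ≠ 1 := by
        intro he
        have := congrArg Complex.re he
        simp at this
        linarith
      exact ContinuousAt.comp (f := fun h : ℝ => (1 + 2 * δ + h * I : ℂ))
        (differentiableAt_riemannZeta hne).continuousAt (by fun_prop)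
    have e2 : Continuous fun h : ℝ => ∏ p ∈ Sm z, (1 - (p:ℂ) ^ (-(1 + 2 * δ + h * I : ℂ))) := by
      refine continuous_finsetProd _ fun p hp => ?_
      have hp0 : (p:ℂ) ≠ 0 := by exact_mod_cast (Sm_prime hp).ne_zero
      exact continuous_const.sub (Continuous.const_cpow (by fun_prop) (Or.inl hp0))
    exact (e1.mul e2).norm
  have hH1 : (1:ℝ) ≤ H := by linarith
  have hinv : ∫ h in (1:ℝ)..H, (h ^ 2)⁻¹ ≤ 1 := by
    have h0 : (0:ℝ) ∉ Set.uIcc 1 H := by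
      rw [Set.uIcc_of_le hH1]
      intro h
      linarith [h.1]
    have e : ∫ h in (1:ℝ)..H, h ^ (-2 : ℤ) = (H ^ ((-2 : ℤ) + 1) - 1 ^ ((-2 : ℤ) + 1)) / (((-2 : ℤ) : ℝ) + 1) :=
      integral_zpow (Or.inr ⟨by norm_num, h0⟩)
    have e2 : ∫ h in (1:ℝ)..H, (h ^ 2)⁻¹ = ∫ h in (1:ℝ)..H, h ^ (-2 : ℤ) := by
      refine intervalIntegral.integral_congr fun h _ => ?_
      simp only [zpow_neg]
      norm_cast
    have e3 : H ^ ((-2 : ℤ) + 1) = H⁻¹ := by
      rw [show ((-2 : ℤ) + 1) = -1 by norm_num, zpow_neg_one]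
    have e4 : (((-2 : ℤ) : ℝ) + 1) = -1 := by norm_num
    rw [e2, e, e3, e4, one_zpow]
    have : (0:ℝ) ≤ H⁻¹ := by positivity
    linarith
  have hinvc : ContinuousOn (fun h : ℝ => (h ^ 2)⁻¹) (Set.uIcc 1 H) := by
    rw [Set.uIcc_of_le hH1]
    apply ContinuousOn.inv₀ (by fun_prop)
    intro h hh
    have : 0 < h := by linarith [hh.1]
    positivity
  have hmono : ∫ h in (1:ℝ)..H, max (y h ^ q - 1) 0 ≤ ∫ h in (1:ℝ)..H,
      (c1 * L * D h ^ 2 + c2 / L * x h ^ (2 * m) +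
        (c1 * L * c ^ 2 + c2 / L * c ^ (2 * m)) * (h ^ 2)⁻¹) := by
    apply intervalIntegral.integral_mono_on hH1
    · apply Continuous.intervalIntegrable
      have : Continuous fun h => y h ^ q := hyc.rpow_const fun h => Or.inr hq0
      exact (this.sub continuous_const).max continuous_const
    · apply IntervalIntegrable.add
      · apply Continuous.intervalIntegrable
        fun_prop
      · exact (hinvc.intervalIntegrable).const_mul _
    · intro h hh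
      have hh0 : 0 < h := by linarith [hh.1]
      have g1 := ptw (norm_nonneg _ : 0 ≤ x h) (norm_nonneg _ : 0 ≤ y h) (by positivity : 0 ≤ c / h)
        (hxy h hh.1 hh.2) (hD1 h) hL0 hq0 hq8
      rw [← hc2, ← hc1] at g1
      refine g1.trans ?_
      have g2 : (c / h) ^ 2 = c ^ 2 * (h ^ 2)⁻¹ := by rw [div_pow, div_eq_mul_inv]
      have g3 : (c / h) ^ (2 * m) ≤ c ^ (2 * m) * (h ^ 2)⁻¹ := by
        rw [div_pow, div_eq_mul_inv]
        have : h ^ 2 ≤ h ^ (2 * m) := pow_le_pow_right₀ hh.1 (by omega)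
        gcongr
      rw [g2]
      have g4 : c2 / L * (c / h) ^ (2 * m) ≤ c2 / L * (c ^ (2 * m) * (h ^ 2)⁻¹) := by gcongr
      linarith
  refine hmono.trans ?_
  have iD : IntervalIntegrable (fun h => c1 * L * D h ^ 2) volume 1 H := by
    apply Continuous.intervalIntegrable
    fun_prop
  have ix : IntervalIntegrable (fun h => c2 / L * x h ^ (2 * m)) volume 1 H := by
    apply Continuous.intervalIntegrable
    fun_prop
  have ii : IntervalIntegrable (fun h : ℝ => (c1 * L * c ^ 2 + c2 / L * c ^ (2 * m)) * (h ^ 2)⁻¹) volume 1 H :=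
    (hinvc.intervalIntegrable).const_mul _
  rw [intervalIntegral.integral_add (iD.add ix) ii, intervalIntegral.integral_add iD ix,
    intervalIntegral.integral_const_mul, intervalIntegral.integral_const_mul,
    intervalIntegral.integral_const_mul]
  have hsub : ∀ f : ℝ → ℝ, Continuous f → (∀ h, 0 ≤ f h) → ∫ h in (1:ℝ)..H, f h ≤ ∫ h in (0:ℝ)..H, f h := by
    intro f hf hf0
    rw [← intervalIntegral.integral_add_adjacent_intervals (hf.intervalIntegrable 0 1)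
      (hf.intervalIntegrable 1 H)]
    have : 0 ≤ ∫ h in (0:ℝ)..1, f h := intervalIntegral.integral_nonneg zero_le_one fun h _ => hf0 h
    linarith
  have j1 : ∫ h in (1:ℝ)..H, D h ^ 2 ≤ 3 * H / z :=
    (hsub _ (hDc.pow 2) (fun h => sq_nonneg (D h))).trans hMS1
  have j2 : ∫ h in (1:ℝ)..H, x h ^ (2 * m) ≤ B * H :=
    (hsub _ (hxc.pow (2 * m)) (fun h => pow_nonneg (norm_nonneg _ : 0 ≤ x h) (2 * m))).trans hMS2
  rw [hLinv]
  calc c1 * L * (∫ h in (1:ℝ)..H, D h ^ 2) + c2 / L * (∫ h in (1:ℝ)..H, x h ^ (2 * m)) +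
        (c1 * L * c ^ 2 + c2 / L * c ^ (2 * m)) * ∫ h in (1:ℝ)..H, (h ^ 2)⁻¹
      ≤ c1 * L * (3 * H / z) + c2 / L * (B * H) + (c1 * L * c ^ 2 + c2 / L * c ^ (2 * m)) * 1 := by
        gcongr
    _ = 1 / L * (3 * c1 * H + c2 * (B * H) + (c1 * (L * L) * c ^ 2 + c2 * c ^ (2 * m))) := by
        rw [← hL2]
        field_simp
    _ ≤ 1 / L * (3 * c1 * H + c2 * (B * H) + (H + c2 * H)) := by
        rw [hL2]
        gcongr
    _ = _ := by ring

end Pool.Agent.N748.HM.ZML3
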