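import Pool.Agent.N748.HM.AVG
import Pool.Agent.N748.HM.BADA3
import Pool.Agent.N748.HM.BADB3
import Pool.Agent.N748.HM.BLK3
import Pool.Agent.N748.HM.CORE3
import Pool.Agent.N748.HM.CUT3
import Pool.Agent.N748.HM.DEG3
import Pool.Agent.N748.HM.FAR3
import Pool.Agent.N748.HM.INV
import Pool.Agent.N748.HM.KAP3
import Pool.Agent.N748.HM.LEN3
import Pool.Agent.N748.HM.MVW3
import Pool.Agent.N748.HM.NNB3
import Pool.Agent.N748.HM.NNL3
import Pool.Agent.N748.HM.NNQ3
import Pool.Agent.N748.HM.ONE3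
import Pool.Agent.N748.HM.PRM
import Pool.Agent.N748.HM.SQ1
import Pool.Agent.N748.HM.SQ2
import Pool.Agent.N748.HM.SUP
import Pool.Agent.N748.HM.SUPZ
import Pool.Agent.N748.HM.TRM2
import Pool.Agent.N748.HM.XS1
import Pool.Agent.N748.HM.XS2
import Pool.Agent.N748.HM.ZM1
import Pool.Agent.N748.HM.ZM2
import Pool.Agent.N748.HM.ZML3
import Pool.Agent.N748.HM.AppA
import Pool.Agent.N748.HM.AppB
import Pool.Agent.N748.GC.Fin2

set_option autoImplicit false

/-! All moments near the critical line: the parts together. -/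

namespace Pool.Agent.N748.HM

open Pool.Agent.N748.GC

theorem nnb3 : S_NNB3 := NNB3.main BLK3.main

theorem nnq3 : S_NNQ3 := NNQ3.main BLK3.main

theorem one3 : S_ONE3 := ONE3.main nnb3 NNL3.main LEN3.main

theorem sq1 : S_SQ1 := SQ1.main NNL3.main

theorem sq2 : S_SQ2 := SQ2.main sq1 one3 LEN3.main

theorem kap3 : S_KAP3 := KAP3.main (ZML3.main ZPA.main MVW3.main) COS.mer

theorem xs1 : S_XS1 := XS1.main nnq3 LEN3.main SUP.main

theorem xs2 : S_XS2 := XS2.main SUP.main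

theorem prm (hZ : S_ZM) : S_PRM := PRM.main hZ SUP.main xs1 xs2 COS.mer

theorem avg (hN : S_NEAR3) : S_AVG :=
  AVG.main one3 (BADA3.main nnq3 LEN3.main) (BADB3.main nnb3 LEN3.main COS.mer) hN (FAR3.main nnb3 LEN3.main) kap3
    (CUT3.main COS.mer) ASM2.main

theorem trm2 (hZ : S_ZM) (hC : S_CL) : S_TRM2 := TRM2.main (prm hZ) hC one3 sq2 nnb3 LEN3.main

theorem core3 (hZ : S_ZM) (hC : S_CL) (hN : S_NEAR3) : S_CORE3 := CORE3.main (prm hZ) hC (avg hN) one3 sq2

theorem supz (hZ : S_ZM) (hC : S_CL) (hR : S_NRM) : S_SUPZ := SUPZ.main (prm hZ) hC SUP.main nnb3 LEN3.main sq1 hR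

end Pool.Agent.N748.HM
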