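import Pool.Agent.N748.GC.L2
import Pool.Agent.N748.GC.Lk
import Pool.Agent.N748.GC.Clo

set_option autoImplicit false

/-!
# All moments near the critical line, outside small sets and in almost all windows: statements of the parts

`A` is a bound for the exponents, `L = log (1/δ)`; all polynomials are over the primes between `z` and `y`,
`log y` is about `L / δ`, and their degrees are of order `L`; the condition on `δ` is that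
`δ log X / L ^ 2` is large.
-/

namespace Pool.Agent.N748.HM

open Finset Filter MeasureTheory MonoidAlgebra Topology Complex
open Pool.Agent.N748.GC
open Pool.Agent.Y755 (P1 Bd1 es Dt qd Pz)

/-! ### definitions -/

/-- the polynomial which detects large values of the sum over a block -/
noncomputable def QA (A z : ℕ) (y : ℝ) (Rs i : ℕ) : PC :=
  ((((A:ℝ) / (RB Rs i : ℝ)) ^ (RB Rs i) : ℝ) : ℂ) • (xc (IB z y i)) ^ (RB Rs i)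

/-- admissible parameters: the blocks cover the primes from `z` to `y`, and all polynomials are short -/
structure SP (c : ℝ) (z Rs : ℕ) (y : ℝ) (J : ℕ) (X : ℝ) : Prop where
  zz : 1000 ≤ z
  zy : (z:ℝ) ≤ y
  bJ : be y J < 144
  bl : ∀ i < J, 10 ≤ be y i ∧ ∑ p ∈ IB z y i, 1 / (p:ℝ) ≤ c
  len : Real.exp (Real.log y * (180 * ((Rs:ℝ) + 1))) ≤ (2 * (X + 1)) ^ ((1:ℝ) / 50)

/-- the weight -/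
noncomputable def WP (α : ℝ) (z Rs : ℕ) (y : ℝ) (J : ℕ) (δ u : ℝ) : ℝ :=
  ‖ec (1 / 2 + δ + u * I) (BP (fun _ => α) z y 0 J Rs)‖ ^ 2 / Real.exp (α ^ 2 * VB δ z y 0 J)

/-- the sums over the blocks are not too large -/
def G1 (A z Rs : ℕ) (y : ℝ) (J : ℕ) (δ u : ℝ) : Prop :=
  ∀ i < J, (A:ℝ) * ‖ec (1 / 2 + δ + u * I) (xc (IB z y i))‖ ≤ RB Rs i

/-- the barrier -/
def G2 (α B ε1 : ℝ) (z Rs : ℕ) (y : ℝ) (J : ℕ) (δ u : ℝ) : Prop :=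
  ∀ j < J, (z:ℝ) ≤ be y j → δ * Real.log (be y j) ≤ 1 →
    ‖ec (1 / 2 + δ + u * I) (BP (fun _ => α) z y j J Rs)‖ ^ 2 ≤ B * Real.exp ((2 * α ^ 2 + ε1) * VB δ z y j J)

open Classical in
/-- the indicator function of the good points -/
noncomputable def gP (A : ℕ) (α B ε1 : ℝ) (z Rs : ℕ) (y : ℝ) (J : ℕ) (δ u : ℝ) : ℝ :=
  if G1 A z Rs y J δ u ∧ G2 α B ε1 z Rs y J δ u then 1 else 0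

/-- the primes between `z` and `y` -/
noncomputable def PP (z : ℕ) (y : ℝ) : Finset ℕ := (Icc z ⌊y⌋₊).filter Nat.Prime

/-- the truncated inverse Euler product over the primes between `z` and `y` -/
noncomputable def MB (z : ℕ) (y : ℝ) (K : ℕ) : PC :=
  ∑ S ∈ ((PP z y).powerset).filter (fun S => S.card ≤ K), single (∏ p ∈ S, p) ((-1 : ℂ) ^ S.card)

/-- the same polynomial with real coefficients -/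
noncomputable def MBr (z : ℕ) (y : ℝ) (K : ℕ) : P1 :=
  ∑ S ∈ ((PP z y).powerset).filter (fun S => S.card ≤ K), single (∏ p ∈ S, p) ((-1 : ℝ) ^ S.card)

/-- the error of the mollified zeta function -/
noncomputable def Ez (z : ℕ) (y : ℝ) (K : ℕ) (s : ℂ) : ℂ :=
  riemannZeta s * (∏ p ∈ Sm z, (1 - (p:ℂ) ^ (-s))) * ec s (MB z y K) - 1

/-- the factor of the squares of the primes: truncated exponential of `α/2 ∑ p^(-2s)` -/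
noncomputable def GQ (α : ℝ) (z : ℕ) (y : ℝ) (Kq : ℕ) : PC :=
  NKc Kq α (∑ p ∈ PP z y, single (p ^ 2) (1 / 2 : ℂ))

/-! ### polynomials over the blocks -/

/-- (BLK3) one block, two points -/
def S_BLK3 : Prop := ∀ c : ℝ, 0 ≤ c → ∀ A : ℕ, ∃ (C : ℝ) (R0 : ℕ), 0 ≤ C ∧ ∀ (I : Finset ℕ) (R : ℕ) (δ h a b : ℝ),
  (∀ p ∈ I, p.Prime) → ∑ p ∈ I, 1 / (p:ℝ) ≤ c → R0 ≤ R → 0 ≤ δ → 0 ≤ a → a ≤ A → 0 ≤ b → b ≤ A →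
  nn δ (NKc (20 * R) a (xc I) * sf h (NKc (20 * R) b (xc I))) ≤
    Real.exp (∑ p ∈ I, (a ^ 2 + b ^ 2 + 2 * a * b * Real.cos (h * Real.log p)) * wd δ p) *
      (1 + C * Real.exp (-(R:ℝ))) ^ 2

/-- (NNB3) the mean squares of products over the blocks at two points -/
def S_NNB3 : Prop := ∀ c : ℝ, 0 ≤ c → ∀ A : ℕ, ∃ (C : ℝ) (R0 : ℕ), 0 ≤ C ∧ ∀ (z J Rs : ℕ) (y : ℝ), 144 ≤ z → 1 ≤ y →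
  R0 ≤ Rs → 1 ≤ Rs → (∀ i < J, ∑ p ∈ IB z y i, 1 / (p:ℝ) ≤ c) → ∀ δ : ℝ, 0 ≤ δ → ∀ a b : ℕ → ℝ,
  (∀ i, 0 ≤ a i ∧ a i ≤ A) → (∀ i, 0 ≤ b i ∧ b i ≤ A) → ∀ h : ℝ,
  nn δ (BP a z y 0 J Rs * sf h (BP b z y 0 J Rs)) ≤
    Real.exp ((∑ i ∈ range J, ∑ p ∈ IB z y i, (a i ^ 2 + b i ^ 2 + 2 * a i * b i * Real.cos (h * Real.log p)) * wd δ p) +
      C * Real.exp (-(2 * (Rs:ℝ))))

/-- (NNL3) the lower bound for the mean square -/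
def S_NNL3 : Prop := ∀ c : ℝ, 0 ≤ c → ∀ A : ℕ, ∀ e : ℝ, 0 < e → ∃ z0 R0 : ℕ, ∀ (z J Rs : ℕ) (y : ℝ), z0 ≤ z →
  R0 ≤ Rs → 1 ≤ y → (∀ i < J, ∑ p ∈ IB z y i, 1 / (p:ℝ) ≤ c) → ∀ δ : ℝ, 0 ≤ δ → ∀ α : ℝ, 0 ≤ α → α ≤ A →
  (1 - e) * Real.exp (α ^ 2 * VB δ z y 0 J) ≤ nn δ (BP (fun _ => α) z y 0 J Rs)

/-- (NNQ3) the mean square with the detecting polynomial -/
def S_NNQ3 : Prop := ∀ c : ℝ, 0 ≤ c → ∀ A : ℕ, ∃ (C : ℝ) (R0 : ℕ), 0 ≤ C ∧ ∀ (z J Rs : ℕ) (y : ℝ), 144 ≤ z →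
  1 ≤ y → R0 ≤ Rs → 1 ≤ Rs → (∀ i < J, ∑ p ∈ IB z y i, 1 / (p:ℝ) ≤ c) → ∀ δ : ℝ, 0 ≤ δ → ∀ α : ℝ, 0 ≤ α → α ≤ A →
  ∀ i < J, nn δ (BP (fun _ => α) z y 0 J Rs * QA A z y Rs i) ≤
    C * Real.exp (-(RB Rs i : ℝ)) * Real.exp (α ^ 2 * VB δ z y 0 J)

/-- (LEN3) lengths and sizes -/
def S_LEN3 : Prop := ∀ (A z J Rs : ℕ) (y : ℝ), 144 ≤ z → 1 ≤ y → 1 ≤ Rs → A ≤ Rs → (∀ i < J, 10 ≤ be y i) →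
  (∀ a : ℕ → ℝ, (∀ i, 0 ≤ a i ∧ a i ≤ A) → ∀ j ≤ J,
    Cop (Sm z) (Real.exp (Real.log y * (90 * ((Rs:ℝ) + 1)))) (BP a z y j J Rs) ∧
    lc1 (BP a z y j J Rs) ≤ Real.exp (Real.log y * (90 * ((Rs:ℝ) + 1)))) ∧
  ∀ i < J, Cop (Sm z) (Real.exp (Real.log y * (90 * ((Rs:ℝ) + 1)))) (QA A z y Rs i) ∧
    lc1 (QA A z y Rs i) ≤ Real.exp (Real.log y * (90 * ((Rs:ℝ) + 1)))

/-! ### mean values of the weights -/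

/-- (ONE3) the first moment -/
def S_ONE3 : Prop := ∀ α : ℝ, 0 < α → ∀ c : ℝ, 0 ≤ c → ∀ e : ℝ, 0 < e → ∃ z0 R0 : ℕ, ∀ z ≥ z0,
  ∀ (K : Type) [TopologicalSpace K] [CompactSpace K] (F : K × UnitAddTorus (Sm z) → ℝ), Continuous F →
    (∀ q, 0 ≤ F q) → ∀ η : ℝ, 0 < η → ∀ᶠ X : ℝ in atTop, ∀ (Rs J : ℕ) (y : ℝ), R0 ≤ Rs → SP c z Rs y J X →
    ∀ δ : ℝ, 0 ≤ δ → ∀ (k : K) (x : ℝ),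
    |(∫ t in Xl X..X, F (k, pt (Sm z) t) * WP α z Rs y J δ (t + x)) - X * ∫ q, F (k, q) ∂(HP (Sm z))| ≤
      X * (e * (∫ q, F (k, q) ∂(HP (Sm z))) + η)

open Classical in
/-- (BADA3) large sums over blocks carry little mass -/
def S_BADA3 : Prop := ∀ (A : ℕ) (α : ℝ), 0 < α → α ≤ A → ∀ c : ℝ, 0 ≤ c → ∀ e : ℝ, 0 < e → ∃ z0 R0 : ℕ, ∀ z ≥ z0,
  ∀ (K : Type) [TopologicalSpace K] [CompactSpace K] (F : K × UnitAddTorus (Sm z) → ℝ), Continuous F →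
    (∀ q, 0 ≤ F q) → ∀ η : ℝ, 0 < η → ∀ᶠ X : ℝ in atTop, ∀ (Rs J : ℕ) (y : ℝ), R0 ≤ Rs → SP c z Rs y J X →
    ∀ δ : ℝ, 0 ≤ δ → ∀ (k : K) (x : ℝ),
    ∫ t in Xl X..X, F (k, pt (Sm z) t) *
      (WP α z Rs y J δ (t + x) * (if G1 A z Rs y J δ (t + x) then 0 else 1)) ≤
      X * (e * (∫ q, F (k, q) ∂(HP (Sm z))) + η)

open Classical in
/-- (BADB3) the points beyond the barrier carry little mass -/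
def S_BADB3 : Prop := ∀ (A : ℕ) (α : ℝ), 0 < α → α ≤ A → ∀ ε1 : ℝ, 0 < ε1 → ε1 ≤ 1 → ∀ c : ℝ, 0 ≤ c →
  ∀ e : ℝ, 0 < e → ∃ B : ℝ, 1 ≤ B ∧ ∃ z0 R0 : ℕ, ∀ z ≥ z0,
  ∀ (K : Type) [TopologicalSpace K] [CompactSpace K] (F : K × UnitAddTorus (Sm z) → ℝ), Continuous F →
    (∀ q, 0 ≤ F q) → ∀ η : ℝ, 0 < η → ∀ᶠ X : ℝ in atTop, ∀ (Rs J : ℕ) (y : ℝ), R0 ≤ Rs → SP c z Rs y J X →
    ∀ δ : ℝ, 0 ≤ δ → ∀ (k : K) (x : ℝ),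
    ∫ t in Xl X..X, F (k, pt (Sm z) t) * (WP α z Rs y J δ (t + x) *
      (if G1 A z Rs y J δ (t + x) ∧ ¬ G2 α B ε1 z Rs y J δ (t + x) then 1 else 0)) ≤
      X * (e * (∫ q, F (k, q) ∂(HP (Sm z))) + η)

/-- (NEAR3) the two-point function on the good points at distances up to `1` -/
def S_NEAR3 : Prop := ∀ (A : ℕ) (α : ℝ), 0 < α → α ≤ A → ∀ ε1 : ℝ, 0 < ε1 → ε1 ≤ 1 →
  ∀ c : ℝ, 0 ≤ c → ∀ B : ℝ, 1 ≤ B → ∃ C : ℝ, 0 ≤ C ∧ ∃ z0 R0 : ℕ, ∀ z ≥ z0, ∃ δ1 : ℝ, 0 < δ1 ∧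
  ∀ (K : Type) [TopologicalSpace K] [CompactSpace K] (F : K × UnitAddTorus (Sm z) → ℝ), Continuous F →
    (∀ q, 0 ≤ F q) → ∀ η : ℝ, 0 < η → ∀ᶠ X : ℝ in atTop, ∀ (Rs J : ℕ) (y : ℝ), R0 ≤ Rs → SP c z Rs y J X →
    ∀ δ : ℝ, 0 < δ → δ ≤ δ1 → 1 / δ ≤ Real.log X →
    ∀ (k : K) (x x' : ℝ), x ≠ x' → |x - x'| ≤ 1 →
    ∫ t in Xl X..X, F (k, pt (Sm z) t) *
      ((WP α z Rs y J δ (t + x) * gP A α B ε1 z Rs y J δ (t + x)) *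
       (WP α z Rs y J δ (t + x') * gP A α B ε1 z Rs y J δ (t + x'))) ≤
      X * (((∫ q, F (k, q) ∂(HP (Sm z))) + η) * (C * (max |x - x'| δ) ^ (-(α ^ 2 + ε1))))

/-- (FAR3) the two-point function of the weights at arbitrary distances -/
def S_FAR3 : Prop := ∀ α : ℝ, 0 < α → ∀ c : ℝ, 0 ≤ c → ∀ e : ℝ, 0 < e → ∃ z0 R0 : ℕ, ∀ z ≥ z0,
  ∀ (K : Type) [TopologicalSpace K] [CompactSpace K] (F : K × UnitAddTorus (Sm z) → ℝ), Continuous F →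
    (∀ q, 0 ≤ F q) → ∀ η : ℝ, 0 < η → ∀ᶠ X : ℝ in atTop, ∀ (Rs J : ℕ) (y : ℝ), R0 ≤ Rs → SP c z Rs y J X →
    ∀ δ : ℝ, 0 ≤ δ → ∀ (k : K) (x x' : ℝ),
    ∫ t in Xl X..X, F (k, pt (Sm z) t) * (WP α z Rs y J δ (t + x) * WP α z Rs y J δ (t + x')) ≤
      X * (((∫ q, F (k, q) ∂(HP (Sm z))) + η) * ((1 + e) * KX α z y J δ (x - x')) + η)

/-- (MVW3) mean values on the line `1` of long polynomials with small coefficients -/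
def S_MVW3 : Prop := ∀ ε : ℝ, 0 < ε → ε ≤ 1 / 100 → ∃ C : ℝ, 0 < C ∧ ∀ (A M H δ : ℝ) (D : PC), 0 ≤ A → 1 ≤ M →
  0 ≤ H → 1 / 2 ≤ δ → (∀ n ∈ D.coeff.support, n ≠ 0 ∧ (n:ℝ) ≤ M) → (∀ n, ‖D.coeff n‖ ≤ A * (n:ℝ) ^ ε) →
  ∫ h in (0:ℝ)..H, ‖ec (1 / 2 + δ + h * I) D‖ ^ 2 ≤ H * nn δ D + C * A ^ 2 * M ^ (4 * ε)

/-- (ZML3) moments of zeta without the small primes on the line `1` -/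
def S_ZML3 : Prop := ∀ Q : ℝ, 0 ≤ Q → ∃ C : ℝ, 0 < C ∧ ∀ z : ℕ, 2 ≤ z → ∃ H0 : ℝ, 1 ≤ H0 ∧ ∀ H ≥ H0, ∀ δ : ℝ,
  0 < δ → δ ≤ 1 / 16 → ∀ q : ℝ, 0 ≤ q → q ≤ Q →
  ∫ h in (1:ℝ)..H, max (‖riemannZeta (1 + 2 * δ + h * I) *
    ∏ p ∈ Sm z, (1 - (p:ℂ) ^ (-(1 + 2 * δ + h * I : ℂ)))‖ ^ q - 1) 0 ≤ C * (z:ℝ) ^ (-(1 / 2 : ℝ)) * H

/-- (KAP3) the correlations are close to `1` on average -/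
def S_KAP3 : Prop := ∀ α : ℝ, 0 < α → ∃ C : ℝ, 0 < C ∧ ∃ z0 : ℕ, ∀ z ≥ z0, ∃ H0 lam : ℝ, 1 ≤ H0 ∧ 1 ≤ lam ∧
  ∀ H ≥ H0, ∀ δ : ℝ, 0 < δ → δ ≤ 1 / 16 → ∀ (y : ℝ) (J : ℕ), (z:ℝ) ≤ y → be y J < 144 → lam ≤ δ * Real.log y →
  ∫ h in (1:ℝ)..H, max (KX α z y J δ h - 1) 0 ≤ C * (z:ℝ) ^ (-(1 / 4 : ℝ)) * H

/-- (MOM3) moments of the density -/
def S_MOM3 : Prop := ∀ α : ℝ, 0 < α → ∀ s : ℝ, 1 ≤ s → s ≤ 2 → ∃ C : ℝ, 0 < C ∧ ∀ z : ℕ, 3 ≤ z →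
  ∫ x, M0 α (Sm z) x ^ s ∂(HP (Sm z)) ≤ C * Real.log z ^ (α ^ 2 * s * (s - 1))

/-- (CUT3) the cut-off is harmless -/
def S_CUT3 : Prop := ∀ α : ℝ, 0 < α → ∀ b : ℝ, α ^ 2 < b → ∀ ε : ℝ, 0 < ε → ∃ z0 : ℕ, ∀ z ≥ z0,
  ∫ x, (M0 α (Sm z) x - Mc α b z x) ∂(HP (Sm z)) ≤ ε

/-- (AVG) the weights in windows of length `δ^(-θ)` -/
def S_AVG : Prop := ∀ α : ℝ, 0 < α → ∀ c : ℝ, 0 ≤ c → ∀ θ : ℝ, 0 < θ → α ^ 2 - 1 < θ → ∀ ε : ℝ, 0 < ε → ∃ z0 : ℕ,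
  ∀ z ≥ z0, ∃ (R0 : ℕ) (lam δ0 : ℝ), 0 < δ0 ∧ δ0 ≤ 1 / 16 ∧ ∀ᶠ X : ℝ in atTop, ∀ δ : ℝ, 0 < δ → δ ≤ δ0 →
  1 / δ ≤ Real.log X → ∀ (Rs J : ℕ) (y : ℝ), R0 ≤ Rs → SP c z Rs y J X → lam ≤ δ * Real.log y →
  ∫ t in Xl X..X, |δ ^ θ * (∫ u in (0:ℝ)..(δ ^ (-θ)), mz α z (t + u) * WP α z Rs y J δ (t + u)) - 1| ≤ ε * X

/-! ### the approximation of zeta -/

/-- (ZM1) the twisted second moment on the critical line, crude bound -/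
def S_ZM1 : Prop := ∃ C : ℕ, ∀ᶠ T : ℝ in atTop, ∀ f : P1, Bd1 (T ^ ((1:ℝ) / 50)) f → (∀ n, |f.coeff n| ≤ 1) →
  ∀ N : ℕ, (N:ℝ) ≤ T ^ ((1:ℝ) / 8) →
  ∫ t in (T ^ ((3:ℝ) / 4))..T, qd (fun s => es s f) (fun s => es s (Dt N f)) (1 / 2) t ≤ T * Real.log T ^ C

/-- (ZM2) the coefficients of the mollified zeta function -/
def S_ZM2 : Prop := ∀ D : ℝ, 0 < D → ∃ a b : ℝ, 0 < a ∧ 0 < b ∧ ∀ z : ℕ, 2 ≤ z → ∃ δ0 : ℝ, 0 < δ0 ∧ ∀ δ : ℝ,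
  0 < δ → δ ≤ δ0 → ∀ (y : ℝ) (K : ℕ), (z:ℝ) ≤ y → a * Real.log (1 / δ) ≤ δ * Real.log y → b * Real.log (1 / δ) ≤ K →
  ∀ δ' : ℝ, δ / 2 ≤ δ' → ∀ N : ℕ, 1 ≤ N → nn δ' (cx (Dt N (Pz z * MBr z y K)) - 1) ≤ δ ^ D

/-- (ZM) the mean square of the error of the mollified zeta function near the critical line -/
def S_ZM : Prop := ∀ D : ℝ, 0 < D → ∃ a b : ℝ, 0 < a ∧ 0 < b ∧ ∀ z : ℕ, 2 ≤ z → ∃ lam δ0 : ℝ, 0 < δ0 ∧ δ0 ≤ 1 / 16 ∧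
  ∀ᶠ X : ℝ in atTop, ∀ δ : ℝ, 0 < δ → δ ≤ δ0 → lam * Real.log (1 / δ) ≤ δ * Real.log X →
  ∀ (y : ℝ) (K : ℕ), (z:ℝ) ≤ y → a * Real.log (1 / δ) ≤ δ * Real.log y → b * Real.log (1 / δ) ≤ K →
  K * Real.log y ≤ Real.log X / 100 → ∀ δ' : ℝ, δ / 2 ≤ δ' → δ' ≤ 3 * δ / 2 →
  ∫ t in (X ^ ((9:ℝ) / 10))..(2 * X), ‖Ez z y K (1 / 2 + δ' + t * I)‖ ^ 2 ≤ X * δ ^ D

/-- (SUP) from mean squares to the maxima over windows -/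
def S_SUP : Prop := ∃ C : ℝ, 0 < C ∧ ∀ Φ : ℂ → ℂ, DifferentiableOn ℂ Φ {s : ℂ | 1 / 2 < s.re ∧ s.re < 1} →
  ∀ δ X1 X2 B : ℝ, 0 < δ → δ ≤ 1 / 16 → X1 ≤ X2 → 0 ≤ B →
  (∀ δ' : ℝ, δ / 2 ≤ δ' → δ' ≤ 3 * δ / 2 → ∫ t in X1..X2, ‖Φ (1 / 2 + δ' + t * I)‖ ^ 2 ≤ B) →
  ∀ H κ : ℝ, 0 ≤ H → 0 < κ →
  volume {t : ℝ | X1 + 1 ≤ t ∧ t + H + 1 ≤ X2 ∧ ∃ u : ℝ, t ≤ u ∧ u ≤ t + H ∧ κ ≤ ‖Φ (1 / 2 + δ + u * I)‖} ≤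
    ENNReal.ofReal (C * (H + 2) * B / (δ * κ ^ 2))

/-- (XS1) the sums over the blocks in windows -/
def S_XS1 : Prop := ∀ c : ℝ, 0 ≤ c → ∀ A : ℕ, ∃ (C : ℝ) (R0 : ℕ), 0 < C ∧ ∀ᶠ X : ℝ in atTop, ∀ (z Rs J : ℕ) (y : ℝ),
  R0 ≤ Rs → SP c z Rs y J X → ∀ δ : ℝ, 0 < δ → δ ≤ 1 / 16 → ∀ H : ℝ, 0 ≤ H → H ≤ X ^ ((1:ℝ) / 2) →
  volume {t : ℝ | X ^ ((9:ℝ) / 10) + 1 ≤ t ∧ t ≤ X ∧ ∃ u : ℝ, t ≤ u ∧ u ≤ t + H ∧ ¬ G1 A z Rs y J δ u} ≤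
    ENNReal.ofReal (C * (H + 2) * X * Real.exp (-(Rs:ℝ)) / δ)

/-- (XS2) the sum over all primes in windows -/
def S_XS2 : Prop := ∀ D : ℝ, 0 < D → ∃ a b : ℝ, 0 < a ∧ 0 < b ∧ ∃ δ0 : ℝ, 0 < δ0 ∧ δ0 ≤ 1 / 16 ∧
  ∀ᶠ X : ℝ in atTop, ∀ δ : ℝ, 0 < δ → δ ≤ δ0 → ∀ (z : ℕ) (y : ℝ), 2 ≤ z → (z:ℝ) ≤ y →
  b * Real.log (1 / δ) * Real.log y ≤ Real.log X → 1 / δ ≤ Real.log X → ∀ H : ℝ, 0 ≤ H → H ≤ X ^ ((1:ℝ) / 2) →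
  volume {t : ℝ | X ^ ((9:ℝ) / 10) + 1 ≤ t ∧ t ≤ X ∧ ∃ u : ℝ, t ≤ u ∧ u ≤ t + H ∧
      a * Real.log (1 / δ) < ‖ec (1 / 2 + δ + u * I) (xc (PP z y))‖} ≤
    ENNReal.ofReal ((H + 2) * X * δ ^ D)

/-- (INV) the truncated inverse Euler product -/
def S_INV : Prop := ∀ (z : ℕ) (y : ℝ) (K : ℕ) (s : ℂ) (a v : ℝ), 1000 ≤ z → 1 / 2 ≤ s.re →
  ‖∑ p ∈ PP z y, (p:ℂ) ^ (-s)‖ ≤ a → ∑ p ∈ PP z y, 1 / (p:ℝ) ≤ v →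
  ‖ec s (MB z y K) - ∏ p ∈ PP z y, (1 - (p:ℂ) ^ (-s))‖ ≤ (1 / 2) ^ K * Real.exp (2 * a + 3 * v)

/-- (NRM) the normalising constants -/
def S_NRM : Prop := ∀ α : ℝ, 0 < α → ∀ ε : ℝ, 0 < ε → ∃ z0 : ℕ, ∀ z ≥ z0, ∃ x0 δ0 : ℝ, 0 < δ0 ∧ ∀ δ : ℝ, 0 < δ →
  δ ≤ δ0 → ∀ (y : ℝ) (J : ℕ), (z:ℝ) ≤ y → be y J < 144 → x0 ≤ δ * Real.log y →
  |(2 * δ) ^ (α ^ 2) / aa α * (E0 α (Sm z) * Real.exp (α ^ 2 * VB δ z y 0 J)) - 1| ≤ ε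

/-- (SQ1) the factor of the squares, mean square -/
def S_SQ1 : Prop := ∀ α : ℝ, 0 < α → ∀ c : ℝ, 0 ≤ c → ∀ e : ℝ, 0 < e → ∃ z0 R0 : ℕ, ∀ (z J Rs Kq : ℕ) (y : ℝ),
  z0 ≤ z → R0 ≤ Rs → 1 ≤ y → be y J < 144 → (∀ i < J, ∑ p ∈ IB z y i, 1 / (p:ℝ) ≤ c) → ∀ δ : ℝ, 0 ≤ δ →
  nn δ (BP (fun _ => α) z y 0 J Rs * (GQ α z y Kq - 1)) ≤ e * Real.exp (α ^ 2 * VB δ z y 0 J)

/-- (SQ2) the factor of the squares is close to `1` in the mean with respect to the weights -/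
def S_SQ2 : Prop := ∀ α : ℝ, 0 < α → ∀ c : ℝ, 0 ≤ c → ∀ e : ℝ, 0 < e → ∃ z0 R0 : ℕ, ∀ z ≥ z0,
  ∀ (K : Type) [TopologicalSpace K] [CompactSpace K] (F : K × UnitAddTorus (Sm z) → ℝ), Continuous F →
    (∀ q, 0 ≤ F q) → ∀ η : ℝ, 0 < η → ∀ᶠ X : ℝ in atTop, ∀ (Rs J Kq : ℕ) (y : ℝ), R0 ≤ Rs → SP c z Rs y J X →
    Kq * Real.log y ≤ Real.log X / 100 → ∀ δ : ℝ, 0 ≤ δ → ∀ (k : K) (x : ℝ),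
    ∫ t in Xl X..X, F (k, pt (Sm z) t) *
      (WP α z Rs y J δ (t + x) * |‖ec (1 / 2 + δ + (t + x) * I) (GQ α z y Kq)‖ ^ 2 - 1|) ≤
      X * (e * (∫ q, F (k, q) ∂(HP (Sm z))) + η)

/-- (CL) pointwise comparison -/
def S_CL : Prop := ∀ (A : ℕ) (α : ℝ), 0 < α → α ≤ A → ∀ η : ℝ, 0 < η → ∃ z0 : ℕ, ∀ z ≥ z0,
  ∃ (R0 : ℕ) (x0 δ0 η1 C : ℝ), 0 < δ0 ∧ δ0 ≤ 1 / 16 ∧ 0 < η1 ∧ 0 < C ∧ ∀ δ : ℝ, 0 < δ → δ ≤ δ0 →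
  ∀ (Rs J K Kq : ℕ) (y : ℝ), (z:ℝ) ≤ y → be y J < 144 → R0 ≤ Rs → x0 ≤ δ * Real.log y → ∀ (u a v : ℝ),
  ‖ec (1 / 2 + δ + u * I) (xc (PP z y))‖ ≤ a → ∑ p ∈ PP z y, 1 / (p:ℝ) ≤ v → C * (a + v + 1) ≤ K →
  C * (v + 1) ≤ Kq → G1 A z Rs y J δ u → ‖Ez z y K (1 / 2 + δ + u * I)‖ ≤ η1 →
  |Zn α δ u - mz α z u * (WP α z Rs y J δ u * ‖ec (1 / 2 + δ + u * I) (GQ α z y Kq)‖ ^ 2)| ≤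
    η * (mz α z u * (WP α z Rs y J δ u * ‖ec (1 / 2 + δ + u * I) (GQ α z y Kq)‖ ^ 2))

/-! ### the results -/

/-- (PRM) the choice of the parameters, and the set of the windows in which the approximations hold -/
def S_PRM : Prop := ∃ c : ℝ, 0 ≤ c ∧ ∀ (A : ℕ) (D : ℝ), 0 < D → ∀ z : ℕ, 1000 ≤ z → ∀ (R0 : ℕ) (x0 η1 C : ℝ), 0 < η1 →
  0 < C → ∃ lam δ0 : ℝ, 0 < lam ∧ 0 < δ0 ∧ δ0 ≤ 1 / 16 ∧ ∀ᶠ X : ℝ in atTop, ∀ δ : ℝ, 0 < δ → δ ≤ δ0 →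
  lam * Real.log (1 / δ) ^ 2 ≤ δ * Real.log X → ∃ (Rs J K Kq : ℕ) (y a v : ℝ), R0 ≤ Rs ∧ SP c z Rs y J X ∧
  1 / δ ≤ Real.log X ∧ x0 ≤ δ * Real.log y ∧ v ≤ 2 * Real.log (1 / δ) ∧ ∑ p ∈ PP z y, 1 / (p:ℝ) ≤ v ∧
  C * (a + v + 1) ≤ K ∧ C * (v + 1) ≤ Kq ∧ Kq * Real.log y ≤ Real.log X / 100 ∧
  volume {t : ℝ | X ^ ((9:ℝ) / 10) + 1 ≤ t ∧ t ≤ X ∧ ∃ u : ℝ, t ≤ u ∧ u ≤ t + δ ^ (-D) ∧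
      ¬ (G1 A z Rs y J δ u ∧ ‖ec (1 / 2 + δ + u * I) (xc (PP z y))‖ ≤ a ∧ ‖Ez z y K (1 / 2 + δ + u * I)‖ ≤ η1)} ≤
    ENNReal.ofReal (δ ^ D * X)

/-- (CORE3) the moments of all orders in almost all windows -/
def S_CORE3 : Prop := ∀ α : ℝ, 0 < α → ∀ θ : ℝ, 0 < θ → α ^ 2 - 1 < θ → ∀ D : ℝ, θ ≤ D → ∀ ε : ℝ, 0 < ε →
  ∀ η : ℝ, 0 < η → ∃ lam δ0 : ℝ, 0 < lam ∧ 0 < δ0 ∧ δ0 ≤ 1 / 16 ∧ ∀ᶠ X : ℝ in atTop, ∀ δ : ℝ, 0 < δ → δ ≤ δ0 →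
  lam * Real.log (1 / δ) ^ 2 ≤ δ * Real.log X → ∀ H : ℝ, δ ^ (-θ) ≤ H → H ≤ δ ^ (-D) →
  volume {t : ℝ | 0 ≤ t ∧ t ≤ X ∧ η ≤ |(1 / H) * (∫ u in t..(t + H), Zn α δ u) - 1|} ≤ ENNReal.ofReal (ε * X)

/-- (TRM) the moments of all orders outside small sets -/
def S_TRM : Prop := ∀ α : ℝ, 0 < α → ∀ D : ℝ, 0 < D → ∀ ε : ℝ, 0 < ε → ∃ lam δ0 : ℝ, 0 < lam ∧ 0 < δ0 ∧ δ0 ≤ 1 / 16 ∧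
  ∀ᶠ X : ℝ in atTop, ∀ δ : ℝ, 0 < δ → δ ≤ δ0 → lam * Real.log (1 / δ) ^ 2 ≤ δ * Real.log X →
  ∃ E : Set ℝ, MeasurableSet E ∧ E ⊆ Set.Icc 0 X ∧ volume E ≤ ENNReal.ofReal (δ ^ D * X) ∧
    |(∫ u in Set.Icc 0 X \ E, Zn α δ u) - X| ≤ ε * X

/-- (SUPZ) the maximum in almost all windows, upper bound -/
def S_SUPZ : Prop := ∀ θ : ℝ, 0 ≤ θ → ∀ ε : ℝ, 0 < ε → ∃ lam δ0 : ℝ, 0 < lam ∧ 0 < δ0 ∧ δ0 ≤ 1 / 16 ∧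
  ∀ᶠ X : ℝ in atTop, ∀ δ : ℝ, 0 < δ → δ ≤ δ0 → lam * Real.log (1 / δ) ^ 2 ≤ δ * Real.log X →
  volume {t : ℝ | 0 ≤ t ∧ t ≤ X ∧ ∃ u : ℝ, t ≤ u ∧ u ≤ t + δ ^ (-θ) ∧
      δ ^ (-(Real.sqrt (1 + θ) + ε)) ≤ ‖riemannZeta (1 / 2 + δ + u * I)‖} ≤ ENNReal.ofReal (ε * X)

end Pool.Agent.N748.HM
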