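import Pool.Agent.N748.HM.Stm

set_option autoImplicit false

/-!
# All moments near the critical line: statements of the last parts
-/

namespace Pool.Agent.N748.HM

open Finset Filter MeasureTheory MonoidAlgebra Topology Complex
open Pool.Agent.N748.GC

/-- (SUPM) from mean squares to local maxima, in the mean -/
def S_SUPM : Prop := ∃ C : ℝ, 0 < C ∧ ∀ Φ : ℂ → ℂ, DifferentiableOn ℂ Φ {s : ℂ | 1 / 2 < s.re ∧ s.re < 1} →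
  ∀ δ X1 X2 B : ℝ, 0 < δ → δ ≤ 1 / 16 → X1 + 2 ≤ X2 → 0 ≤ B →
  (∀ δ' : ℝ, δ / 2 ≤ δ' → δ' ≤ 3 * δ / 2 → ∫ t in X1..X2, ‖Φ (1 / 2 + δ' + t * I)‖ ^ 2 ≤ B) →
  ∃ M : ℝ → ℝ, Continuous M ∧ (∀ t, 0 ≤ M t) ∧ (∫ t in (X1 + 1)..(X2 - 1), M t ≤ C * B) ∧
    ∀ t u : ℝ, X1 + 1 ≤ t → t + 1 ≤ X2 → t ≤ u → u ≤ t + δ → ‖Φ (1 / 2 + δ + u * I)‖ ^ 2 ≤ M t

/-- (ZSUP) majorants for zeta on small intervals, in almost all windows -/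
def S_ZSUP : Prop := ∀ a : ℝ, 0 < a → ∀ D : ℝ, 0 < D → ∃ C lam δ0 : ℝ, 0 < C ∧ 0 < lam ∧ 0 < δ0 ∧ δ0 ≤ 1 / 16 ∧
  ∀ᶠ X : ℝ in atTop, ∀ δ : ℝ, 0 < δ → δ ≤ δ0 → lam * Real.log (1 / δ) ^ 2 ≤ δ * Real.log X →
  ∃ (N : Set ℝ) (M : ℝ → ℝ), volume (Set.Icc 0 X \ N) ≤ ENNReal.ofReal (δ ^ D * X) ∧ Continuous M ∧
    (∀ t, 0 ≤ M t) ∧ (∫ t in (X ^ ((9:ℝ) / 10) + 1)..(3 / 2 * X), M t ≤ C * X * δ ^ (-(a ^ 2))) ∧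
    ∀ t ∈ N, X ^ ((9:ℝ) / 10) + 1 ≤ t ∧ ∀ t' u : ℝ, t ≤ t' → t' ≤ u → u ≤ t' + δ → u ≤ t + δ ^ (-D) →
      ‖riemannZeta (1 / 2 + δ + u * I)‖ ^ (2 * a) ≤ M t'

/-- (DEG3) short windows: the normalised local moments tend to zero in measure -/
def S_DEG3 : Prop := ∀ α : ℝ, 0 < α → ∀ θ : ℝ, θ < α ^ 2 - 1 → ∀ η : ℝ, 0 < η → ∀ ε : ℝ, 0 < ε →
  ∃ lam δ0 : ℝ, 0 < lam ∧ 0 < δ0 ∧ δ0 ≤ 1 / 16 ∧ ∀ᶠ X : ℝ in atTop, ∀ δ : ℝ, 0 < δ → δ ≤ δ0 →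
  lam * Real.log (1 / δ) ^ 2 ≤ δ * Real.log X → ∀ H : ℝ, 0 < H → H ≤ δ ^ (-θ) →
  volume {t : ℝ | 0 ≤ t ∧ t ≤ X ∧ η ≤ (1 / H) * ∫ u in t..(t + H), Zn α δ u} ≤ ENNReal.ofReal (ε * X)

/-- the exponents of the local moments in windows of length `δ^(-θ)` -/
noncomputable def fe (θ β : ℝ) : ℝ :=
  if β ≤ 2 * Real.sqrt (1 + θ) then β ^ 2 / 4 else Real.sqrt (1 + θ) * β - (1 + θ)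

/-- (FE) the exponents of the local moments and the maximum in almost all windows -/
def S_FE : Prop := ∀ θ : ℝ, 0 < θ → ∀ β : ℝ, 0 < β → ∀ η : ℝ, 0 < η → ∀ ε : ℝ, 0 < ε →
  ∃ lam δ0 : ℝ, 0 < lam ∧ 0 < δ0 ∧ δ0 ≤ 1 / 16 ∧ ∀ᶠ X : ℝ in atTop, ∀ δ : ℝ, 0 < δ → δ ≤ δ0 →
  lam * Real.log (1 / δ) ^ 2 ≤ δ * Real.log X →
  volume {t : ℝ | 0 ≤ t ∧ t ≤ X ∧ ¬ (
    |Real.log (δ ^ θ * ∫ u in t..(t + δ ^ (-θ)), ‖riemannZeta (1 / 2 + δ + u * I)‖ ^ β) / Real.log (1 / δ) -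
      fe θ β| ≤ η ∧
    (∀ u : ℝ, t ≤ u → u ≤ t + δ ^ (-θ) → ‖riemannZeta (1 / 2 + δ + u * I)‖ ≤ δ ^ (-(Real.sqrt (1 + θ) + η))) ∧
    ∃ u : ℝ, t ≤ u ∧ u ≤ t + δ ^ (-θ) ∧ δ ^ (-(Real.sqrt (1 + θ) - η)) ≤ ‖riemannZeta (1 / 2 + δ + u * I)‖)} ≤
    ENNReal.ofReal (ε * X)

end Pool.Agent.N748.HM
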