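import Pool.Agent.N748.HM.Stm2

set_option autoImplicit false

/-!
# All moments near the critical line: truncated moments and large deviations
-/

namespace Pool.Agent.N748.HM

open Finset Filter MeasureTheory MonoidAlgebra Topology Complex
open Pool.Agent.N748.GC

/-- (TRM2) the moments of all orders outside small sets; the exceptional set may be enlarged -/
def S_TRM2 : Prop := ∀ α : ℝ, 0 < α → ∃ D0 : ℝ, 0 < D0 ∧ ∀ D : ℝ, D0 ≤ D → ∀ ε : ℝ, 0 < ε →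
  ∃ lam δ0 : ℝ, 0 < lam ∧ 0 < δ0 ∧ δ0 ≤ 1 / 16 ∧
  ∀ᶠ X : ℝ in atTop, ∀ δ : ℝ, 0 < δ → δ ≤ δ0 → lam * Real.log (1 / δ) ^ 2 ≤ δ * Real.log X →
  ∃ E : Set ℝ, MeasurableSet E ∧ E ⊆ Set.Icc 0 X ∧ volume E ≤ ENNReal.ofReal (δ ^ D * X) ∧
    ∀ E' : Set ℝ, MeasurableSet E' → E ⊆ E' → E' ⊆ Set.Icc 0 X → volume E' ≤ ENNReal.ofReal (δ ^ D0 * X) →
      |(∫ u in Set.Icc 0 X \ E', Zn α δ u) - X| ≤ ε * X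

/-- (TRN) truncated moments, all but the very large values -/
def S_TRN : Prop := ∀ α : ℝ, 0 < α → ∀ V : ℝ, α < V → ∀ ε : ℝ, 0 < ε → ∃ lam δ0 : ℝ, 0 < lam ∧ 0 < δ0 ∧ δ0 ≤ 1 / 16 ∧
  ∀ᶠ X : ℝ in atTop, ∀ δ : ℝ, 0 < δ → δ ≤ δ0 → lam * Real.log (1 / δ) ^ 2 ≤ δ * Real.log X →
    |(∫ u in {u : ℝ | u ∈ Set.Icc 0 X ∧ ‖riemannZeta (1 / 2 + δ + u * I)‖ ≤ δ ^ (-V)}, Zn α δ u) - X| ≤ ε * X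

/-- (TRN0) truncated moments, small values -/
def S_TRN0 : Prop := ∀ α : ℝ, 0 < α → ∀ V : ℝ, V < α → ∀ ε : ℝ, 0 < ε → ∃ lam δ0 : ℝ, 0 < lam ∧ 0 < δ0 ∧ δ0 ≤ 1 / 16 ∧
  ∀ᶠ X : ℝ in atTop, ∀ δ : ℝ, 0 < δ → δ ≤ δ0 → lam * Real.log (1 / δ) ^ 2 ≤ δ * Real.log X →
    ∫ u in {u : ℝ | u ∈ Set.Icc 0 X ∧ ‖riemannZeta (1 / 2 + δ + u * I)‖ ≤ δ ^ (-V)}, Zn α δ u ≤ ε * X

/-- (LDP) large deviations -/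
def S_LDP : Prop := ∀ V : ℝ, 0 < V → ∀ ε : ℝ, 0 < ε → ∃ lam δ0 : ℝ, 0 < lam ∧ 0 < δ0 ∧ δ0 ≤ 1 / 16 ∧
  ∀ᶠ X : ℝ in atTop, ∀ δ : ℝ, 0 < δ → δ ≤ δ0 → lam * Real.log (1 / δ) ^ 2 ≤ δ * Real.log X →
    ENNReal.ofReal (δ ^ (V ^ 2 + ε) * X) ≤
      volume {t : ℝ | 0 ≤ t ∧ t ≤ X ∧ δ ^ (-V) < ‖riemannZeta (1 / 2 + δ + t * I)‖} ∧
    volume {t : ℝ | 0 ≤ t ∧ t ≤ X ∧ δ ^ (-V) < ‖riemannZeta (1 / 2 + δ + t * I)‖} ≤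
      ENNReal.ofReal (δ ^ (V ^ 2 - ε) * X)

end Pool.Agent.N748.HM
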